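import Mathlib

set_option autoImplicit false
set_option linter.unusedSectionVars false
set_option linter.unusedVariables false

open Finset

namespace Pool.Agent.Lib.MP_a4b0c4_co

variable {α : Type} [DecidableEq α]

/-- the pair a, c separates the pair b, d on the circle -/
def Cross (a c b d : ℤ) : Prop :=
  (a < b ∧ b < c ∧ c < d) ∨ (b < c ∧ c < d ∧ d < a) ∨ (c < d ∧ d < a ∧ a < b) ∨
  (d < a ∧ a < b ∧ b < c) ∨ (a < d ∧ d < c ∧ c < b) ∨ (d < c ∧ c < b ∧ b < a) ∨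
  (c < b ∧ b < a ∧ a < d) ∨ (b < a ∧ a < d ∧ d < c)

structure Rk (ρ : Finset α → ℤ) : Prop where
  mono : ∀ {X Y}, X ⊆ Y → ρ X ≤ ρ Y
  subm : ∀ X Y, ρ (X ∪ Y) + ρ (X ∩ Y) ≤ ρ X + ρ Y
  unit : ∀ e X, ρ (insert e X) ≤ ρ X + 1

def KP (ρ : Finset α → ℤ) (pos : α → ℤ) : Prop :=
  ∀ F T1 T2 G1 G2 H : Finset α,
    (∀ a ∈ T1, ∀ c ∈ T2, ∀ b ∈ G1, ∀ d ∈ G2, Cross (pos a) (pos c) (pos b) (pos d)) →
    F ∪ T1 ∪ T2 ⊆ H → ρ (F ∪ T1 ∪ T2) + ρ F < ρ (F ∪ T1) + ρ (F ∪ T2) →
    ρ (H ∪ G1) + ρ (H ∪ G2) ≤ ρ (H ∪ G1 ∪ G2) + ρ H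

variable {ρ : Finset α → ℤ} {pos : α → ℤ}

namespace Rk

lemma sub (h : Rk ρ) {X Y A B : Finset α} (h1 : X ⊆ A) (h2 : X ⊆ B) (h3 : Y ⊆ A ∪ B) :
    ρ X + ρ Y ≤ ρ A + ρ B := by
  have := h.subm A B
  have := h.mono (subset_inter h1 h2)
  have := h.mono h3
  linarith

lemma le_card (h : Rk ρ) (X Y : Finset α) : ρ (X ∪ Y) ≤ ρ X + Y.card := by
  induction Y using Finset.induction_on with
  | empty => simp
  | insert e Y he ih =>
    rw [union_insert, card_insert_of_notMem he]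
    have := h.unit e (X ∪ Y)
    push_cast; omega

lemma le_card' (h : Rk ρ) {X Y Z : Finset α} (hZ : Z ⊆ X ∪ Y) : ρ Z ≤ ρ X + Y.card :=
  (h.mono hZ).trans (h.le_card X Y)

lemma con (h : Rk ρ) (C : Finset α) : Rk fun X => ρ (C ∪ X) :=
  ⟨fun hXY => h.mono (union_subset_union_right hXY), fun X Y => by
    have := h.sub (X := C ∪ X ∩ Y) (Y := C ∪ (X ∪ Y)) (A := C ∪ X) (B := C ∪ Y)
      (by grind) (by grind) (by grind)
    linarith, fun e X => by rw [union_insert]; exact h.unit _ _⟩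

/-- closure lemma -/
lemma clo (h : Rk ρ) {J Y T U : Finset α} (hJ : J ⊆ Y) (e : ρ Y ≤ ρ J) (h1 : J ⊆ T)
    (h2 : U ⊆ Y ∪ T) : ρ U ≤ ρ T := by
  have := h.sub (X := J) (Y := U) (A := Y) (B := T) hJ h1 h2
  linarith

lemma ext (h : Rk ρ) {I Y : Finset α} (hIY : I ⊆ Y) (hI : ρ I = ρ ∅ + I.card) :
    ∃ J, I ⊆ J ∧ J ⊆ Y ∧ ρ J = ρ ∅ + J.card ∧ ρ J = ρ Y := by
  induction hn : (Y \ I).card using Nat.strong_induction_on generalizing I with
  | _ n ih =>
    by_cases hex : ∃ e ∈ Y, ρ (insert e I) = ρ I + 1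
    · obtain ⟨e, he, h1⟩ := hex
      have heI : e ∉ I := fun k => by rw [insert_eq_of_mem k] at h1; omega
      obtain ⟨J, a, b⟩ := ih _ (by
        rw [← hn]
        exact card_lt_card ⟨by grind, fun k => by have := @k e (by grind); grind⟩)
        (insert_subset he hIY) (by rw [h1, hI, card_insert_of_notMem heI]; push_cast; ring) rfl
      exact ⟨J, (subset_insert _ _).trans a, b⟩
    · refine ⟨I, subset_rfl, hIY, hI, le_antisymm (h.mono hIY) ?_⟩
      have : ∀ W ⊆ Y, ρ (I ∪ W) ≤ ρ I := by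
        intro W
        induction W using Finset.induction_on with
        | empty => simp
        | insert e W _ ih =>
          intro hW
          have a := ih ((subset_insert _ _).trans hW)
          have b : ρ (insert e I) ≤ ρ I := by
            have := h.unit e I
            have : ρ (insert e I) ≠ ρ I + 1 := fun k => hex ⟨e, hW (mem_insert_self _ _), k⟩
            omega
          have := h.sub (X := I) (Y := I ∪ insert e W) (A := insert e I) (B := I ∪ W)
            (by grind) (by grind) (by grind)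
          linarith
      exact (h.mono subset_union_right).trans (this Y subset_rfl)

lemma ind_sub (h : Rk ρ) {I J : Finset α} (hIJ : I ⊆ J) (hJ : ρ J = ρ ∅ + J.card) :
    ρ I = ρ ∅ + I.card := by
  have a := h.le_card' (X := I) (Y := J \ I) (Z := J) (by grind)
  have b := h.le_card' (X := ∅) (Y := I) (Z := I) (by grind)
  have c : ((J \ I).card : ℤ) + I.card = J.card := by exact_mod_cast card_sdiff_add_card_eq_card hIJ
  linarith

end Rk

lemma KP.con (h : KP ρ pos) (C : Finset α) : KP (fun X => ρ (C ∪ X)) pos := by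
  intro F T1 T2 G1 G2 H h1 h2 h3
  have := h (C ∪ F) T1 T2 G1 G2 (C ∪ H) h1 (by grind) (by simpa only [union_assoc] using h3)
  simpa only [union_assoc] using this

lemma cross_rot {a c b d K θ : ℤ} (h1 : a < b + K) (h2 : a < c + K) (h3 : a < d + K)
    (h4 : b < a + K) (h5 : b < c + K) (h6 : b < d + K) (h7 : c < a + K) (h8 : c < b + K)
    (h9 : c < d + K) (h10 : d < a + K) (h11 : d < b + K) (h12 : d < c + K)
    (h : Cross (if a < θ then a + K else a) (if c < θ then c + K else c)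
      (if b < θ then b + K else b) (if d < θ then d + K else d)) : Cross a c b d := by
  unfold Cross at *
  split_ifs at h <;> rcases h with h | h | h | h | h | h | h | h <;>
    first
    | (exfalso; omega)
    | (left; omega)
    | (right; left; omega)
    | (right; right; left; omega)
    | (right; right; right; left; omega)
    | (right; right; right; right; left; omega)
    | (right; right; right; right; right; left; omega)
    | (right; right; right; right; right; right; left; omega)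
    | (right; right; right; right; right; right; right; omega)

lemma KP.rot (h : KP ρ pos) {K : ℤ} (hK : ∀ x y, pos x < pos y + K) (θ : ℤ) :
    KP ρ fun x => if pos x < θ then pos x + K else pos x := by
  intro F T1 T2 G1 G2 H h1
  exact h F T1 T2 G1 G2 H fun a ha c hc b hb d hd => cross_rot (hK _ _) (hK _ _) (hK _ _) (hK _ _)
    (hK _ _) (hK _ _) (hK _ _) (hK _ _) (hK _ _) (hK _ _) (hK _ _) (hK _ _) (h1 a ha c hc b hb d hd)

def lam (ρ : Finset α → ℤ) (S X : Finset α) : ℤ := ρ X + ρ (S \ X) - ρ S - ρ ∅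

def Unif (ρ : Finset α → ℤ) (S : Finset α) (n : ℕ) : Prop :=
  ∃ C U, C ⊆ S ∧ U ⊆ S ∧ Disjoint C U ∧ U.card = 2 * n ∧ ρ (C ∪ U) = ρ C + n ∧
    ∀ T ⊆ U, T.card = n → ρ (C ∪ T) = ρ C + n

lemma Unif.mono {S S' : Finset α} {n : ℕ} (h : Unif ρ S' n) (hS : S' ⊆ S) : Unif ρ S n := by
  obtain ⟨C, U, a, b, c⟩ := h
  exact ⟨C, U, a.trans hS, b.trans hS, c⟩

lemma Unif.con {S S' D : Finset α} {n : ℕ} (h : Unif (fun X => ρ (D ∪ X)) S' n) (hS : S' ⊆ S)
    (hD : D ⊆ S) (hd : Disjoint D S') : Unif ρ S n := by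
  obtain ⟨C, U, a, b, c, d, e, f⟩ := h
  refine ⟨D ∪ C, U, union_subset hD (a.trans hS), b.trans hS,
    disjoint_union_left.2 ⟨hd.mono_right b, c⟩, d, by simpa only [union_assoc] using e,
    fun T h1 h2 => by simpa only [union_assoc] using f T h1 h2⟩

/-- two crossing exchanges from a common basis give a uniform minor -/
lemma final (hr : Rk ρ) {n : ℕ} {A W B W' : Finset α}
    (hK : ∀ F T1 T2 G1 G2 H : Finset α, T1 ⊆ W → T2 ⊆ W' → G1 ⊆ B → G2 ⊆ A →
      F ∪ T1 ∪ T2 ⊆ H → ρ (F ∪ T1 ∪ T2) + ρ F < ρ (F ∪ T1) + ρ (F ∪ T2) →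
      ρ (H ∪ G1) + ρ (H ∪ G2) ≤ ρ (H ∪ G1 ∪ G2) + ρ H)
    (d1 : Disjoint A W) (d3 : Disjoint A W') (d4 : Disjoint W W')
    (cA : A.card = n) (cW : W.card = n) (cW' : W'.card = n)
    (r0 : ρ (A ∪ W ∪ B ∪ W') = ρ ∅ + 2 * n) (r1 : ρ (A ∪ W) = ρ ∅ + 2 * n)
    (r2 : ρ (W ∪ B) = ρ ∅ + 2 * n) (r3 : ρ (A ∪ W') = ρ ∅ + 2 * n) :
    Unif ρ (A ∪ W ∪ B ∪ W') n := by
  have i1 : ρ (A ∪ W) = ρ ∅ + (A ∪ W).card := by
    rw [r1, card_union_of_disjoint d1, cA, cW]; push_cast; ring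
  have i3 : ρ (A ∪ W') = ρ ∅ + (A ∪ W').card := by
    rw [r3, card_union_of_disjoint d3, cA, cW']; push_cast; ring
  have rW := hr.ind_sub (I := W) subset_union_right i1
  have top : ∀ X ⊆ A ∪ W ∪ B ∪ W', ρ X ≤ ρ ∅ + 2 * n := fun X hX => r0 ▸ hr.mono hX
  rw [disjoint_left] at d1 d3 d4
  refine ⟨W, A ∪ W', by clear * -; grind, by clear * -; grind,
    by clear * - d1 d4; grind [disjoint_left],
    by rw [card_union_of_disjoint (disjoint_left.2 d3)]; omega, ?_, fun T hT cT => ?_⟩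
  · have := top (W ∪ (A ∪ W')) (by clear * -; grind)
    have := hr.mono (X := A ∪ W) (Y := W ∪ (A ∪ W')) (by clear * -; grind)
    rw [cW] at rW
    linarith
  obtain ⟨A1, hA1⟩ : ∃ A1, A1 = T ∩ A := ⟨_, rfl⟩
  obtain ⟨β, hβ⟩ : ∃ β, β = T ∩ W' := ⟨_, rfl⟩
  have cT' : A1.card + β.card = n := by
    rw [← cT, ← card_union_of_disjoint (by clear * - hA1 hβ d3; grind [disjoint_left])]
    congr 1; clear * - hA1 hβ hT; grind
  obtain ⟨J1, a1, a2, a3, a4⟩ := hr.ext (I := A1 ∪ W) (Y := A1 ∪ W ∪ B) subset_union_left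
    (hr.ind_sub (by clear * - hA1; grind) i1)
  obtain ⟨J2, b1, b2, b3, b4⟩ := hr.ext (I := A ∪ β) (Y := A ∪ β ∪ W) subset_union_left
    (hr.ind_sub (by clear * - hβ; grind) i3)
  have e1 : ρ J1 = ρ ∅ + 2 * n := by
    have := top J1 (by clear * - hA1 a2; grind)
    have := hr.mono (X := W ∪ B) (Y := A1 ∪ W ∪ B) (by clear * -; grind)
    linarith
  have e2 : ρ J2 = ρ ∅ + 2 * n := by
    have := top J2 (by clear * - hβ b2; grind)
    have := hr.mono (X := A ∪ W) (Y := A ∪ β ∪ W) (by clear * -; grind)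
    linarith
  obtain ⟨W1, hW1⟩ : ∃ W1, W1 = J2 ∩ W := ⟨_, rfl⟩
  have cW1 : n + β.card + W1.card = 2 * n := by
    have : J2 = A ∪ β ∪ W1 := by clear * - hW1 b1 b2; grind
    have c := congrArg card this
    rw [card_union_of_disjoint (by clear * - hW1 hβ d1 d4; grind [disjoint_left]),
      card_union_of_disjoint (by clear * - hβ d3; grind [disjoint_left]), cA] at c
    have : (J2.card : ℤ) = 2 * n := by linarith
    clear * - this c
    omega
  by_contra hn
  have u1 : ρ (W ∪ T) < ρ ∅ + 2 * n := lt_of_le_of_ne (top (W ∪ T) (by clear * - hT; grind))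
    fun k => hn (by rw [cW] at rW; linarith)
  have cT2 : (A1.card : ℤ) + β.card = n := by exact_mod_cast cT'
  have cW2 : (n : ℤ) + β.card + W1.card = 2 * n := by exact_mod_cast cW1
  have f0 : ρ (A1 ∪ W1) = ρ ∅ + (A1.card + W1.card) := by
    rw [hr.ind_sub (I := A1 ∪ W1) (by clear * - hA1 hW1; grind) i1,
      card_union_of_disjoint (by clear * - hA1 hW1 d1; grind [disjoint_left])]
    push_cast; ring
  have f1 : ρ (A1 ∪ W1 ∪ (W \ W1)) = ρ ∅ + (A1.card + n) := by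
    rw [show A1 ∪ W1 ∪ (W \ W1) = A1 ∪ W by clear * - hW1; grind,
      hr.ind_sub (I := A1 ∪ W) (by clear * - hA1; grind) i1,
      card_union_of_disjoint (by clear * - hA1 d1; grind [disjoint_left]), cW]
    push_cast; ring
  have f2 : ρ (A1 ∪ W1 ∪ β) = ρ ∅ + (A1.card + W1.card + β.card) := by
    rw [hr.ind_sub (I := A1 ∪ W1 ∪ β) (by clear * - hA1 hW1 b1; grind) b3,
      card_union_of_disjoint (by clear * - hA1 hW1 hβ d3 d4; grind [disjoint_left]),
      card_union_of_disjoint (by clear * - hA1 hW1 d1; grind [disjoint_left])]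
    push_cast; ring
  have f3 : A1 ∪ W1 ∪ (W \ W1) ∪ β = W ∪ T := by clear * - hA1 hW1 hβ hT; grind
  have := hK (A1 ∪ W1) (W \ W1) β (J1 ∩ B) (A \ A1) (W ∪ T) sdiff_subset
    (hβ ▸ inter_subset_right) inter_subset_right sdiff_subset f3.le
    (by rw [f3, f0, f1, f2]; linarith)
  have g1 := hr.mono (X := J1) (Y := W ∪ T ∪ J1 ∩ B) (by clear * - hA1 a2; grind)
  have g2 := hr.mono (X := J2) (Y := W ∪ T ∪ A \ A1) (by clear * - hA1 hβ b2; grind)
  have g3 := top (W ∪ T ∪ J1 ∩ B ∪ A \ A1) (by clear * - hT; grind (ematch := 12))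
  linarith

end Pool.Agent.Lib.MP_a4b0c4_co
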