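import Pool.Agent.Lib.MP_a4b0c4_co.Link

set_option autoImplicit false
set_option linter.unusedSectionVars false
set_option linter.unusedVariables false

open Finset

namespace Pool.Agent.Lib.MP_a4b0c4_co

variable {α : Type} [DecidableEq α] {ρ : Finset α → ℤ} {pos : α → ℤ}

lemma fin2 (hr : Rk ρ) (hK : KP ρ pos) {n : ℕ} {S K A W B W' : Finset α}
    (hc : ∀ a ∈ W, ∀ c ∈ W', ∀ b ∈ B, ∀ d ∈ A, Cross (pos a) (pos c) (pos b) (pos d))
    (d1 : Disjoint A W) (d3 : Disjoint A W') (d4 : Disjoint W W')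
    (d5 : Disjoint K (A ∪ W ∪ B ∪ W')) (s1 : K ⊆ S) (s2 : A ∪ W ∪ B ∪ W' ⊆ S)
    (cA : A.card = n) (cW : W.card = n) (cW' : W'.card = n) (r0 : ρ S = ρ K + 2 * n)
    (r1 : ρ S ≤ ρ (K ∪ (A ∪ W))) (r2 : ρ S ≤ ρ (K ∪ (W ∪ B))) (r3 : ρ S ≤ ρ (K ∪ (A ∪ W'))) :
    Unif ρ S n := by
  have t : ∀ X ⊆ A ∪ W ∪ B ∪ W', ρ (K ∪ X) ≤ ρ S := fun X hX =>
    hr.mono (union_subset s1 (hX.trans s2))
  have t1 := t (A ∪ W) (by clear * -; grind)
  have t2 := t (W ∪ B) (by clear * -; grind)
  have t3 := t (A ∪ W') (by clear * -; grind)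
  have t4 := t _ subset_rfl
  have t5 := hr.mono (X := K ∪ (A ∪ W)) (Y := K ∪ (A ∪ W ∪ B ∪ W')) (by clear * -; grind)
  refine (final (hr.con K) (fun F T1 T2 G1 G2 H a b c d => hK.con K F T1 T2 G1 G2 H
    fun x hx y hy z hz w hw => hc x (a hx) y (b hy) z (c hz) w (d hw)) d1 d3 d4 cA cW cW'
    ?_ ?_ ?_ ?_).con s2 s1 d5 <;> simp only [union_empty] <;> linarith

lemma exch (hr : Rk ρ) (hK : KP ρ pos) {n : ℕ} {X1 X2 X3 Z C : Finset α}
    (o12 : ∀ x ∈ X1, ∀ y ∈ X2, pos x < pos y) (o13 : ∀ x ∈ X1, ∀ y ∈ X3, pos x < pos y)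
    (o14 : ∀ x ∈ X1, ∀ y ∈ Z, pos x < pos y) (o23 : ∀ x ∈ X2, ∀ y ∈ X3, pos x < pos y)
    (o24 : ∀ x ∈ X2, ∀ y ∈ Z, pos x < pos y) (o34 : ∀ x ∈ X3, ∀ y ∈ Z, pos x < pos y)
    (c1 : X1.card = n) (c2 : 2 * n ≤ X2.card + 1) (c3 : X3.card = n)
    (hX : ρ (X1 ∪ X2 ∪ X3) = ρ ∅ + (X1 ∪ X2 ∪ X3).card) (hZ : ρ (X1 ∪ X2 ∪ X3 ∪ Z) ≤ ρ Z)
    (hC : C ⊆ X2 ∪ Z) (h : n ≤ lam (fun X => ρ (C ∪ X)) (X1 ∪ X3) X1) :
    Unif ρ (X1 ∪ X2 ∪ X3 ∪ Z) n := by
  have d12 : ∀ x ∈ X1, x ∉ X2 := fun x a b => lt_irrefl _ (o12 x a x b)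
  have d13 : ∀ x ∈ X1, x ∉ X3 := fun x a b => lt_irrefl _ (o13 x a x b)
  have d14 : ∀ x ∈ X1, x ∉ Z := fun x a b => lt_irrefl _ (o14 x a x b)
  have d23 : ∀ x ∈ X2, x ∉ X3 := fun x a b => lt_irrefl _ (o23 x a x b)
  have d24 : ∀ x ∈ X2, x ∉ Z := fun x a b => lt_irrefl _ (o24 x a x b)
  have d34 : ∀ x ∈ X3, x ∉ Z := fun x a b => lt_irrefl _ (o34 x a x b)
  obtain ⟨S, hS⟩ : ∃ S, S = X1 ∪ X2 ∪ X3 ∪ Z := ⟨_, rfl⟩
  rw [← hS] at hZ ⊢
  unfold lam at h
  simp only [union_empty] at h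
  rw [show (X1 ∪ X3) \ X1 = X3 by clear * - d13; grind] at h
  have u1 := hr.le_card C X1
  have u2 := hr.le_card C X3
  have u3 := hr.mono (X := C ∪ X1) (Y := C ∪ (X1 ∪ X3)) (by clear * -; grind)
  have u4 := hr.mono (X := C ∪ X3) (Y := C ∪ (X1 ∪ X3)) (by clear * -; grind)
  rw [c1] at u1
  rw [c3] at u2
  obtain ⟨C0, -, a2, a3, a4⟩ := hr.ext (I := ∅) (Y := C) (empty_subset _) (by simp)
  have v1 : ρ (C ∪ X1) ≤ ρ (C0 ∪ X1) := hr.clo a2 a4.ge subset_union_left (by clear * -; grind)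
  have v2 : ρ (C ∪ X3) ≤ ρ (C0 ∪ X3) := hr.clo a2 a4.ge subset_union_left (by clear * -; grind)
  have v3 := hr.le_card C0 X1
  obtain ⟨J, b1, b2, b3, b4⟩ := hr.ext (I := C0 ∪ X1) (Y := X1 ∪ X2 ∪ Z)
    (by clear * - a2 hC; grind (ematch := 15)) (by
      rw [card_union_of_disjoint (by
        clear * - a2 hC d12 d14
        simp only [disjoint_left, subset_iff, mem_union] at *; grind), c1]
      rw [c1] at v3
      push_cast; linarith)
  have w1 : ρ S ≤ ρ J := by
    have := hr.mono (X := Z) (Y := X1 ∪ X2 ∪ Z) subset_union_right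
    linarith
  have w0 : J ⊆ S := by clear * - b2 hS; grind (ematch := 15)
  have w2 := hr.mono w0
  have w3 : ρ S ≤ ρ (J \ X1 ∪ X3) := w1.trans (hr.clo (J := C0 ∪ X3) (Y := C ∪ (X1 ∪ X3))
    (by clear * - a2; grind (ematch := 15)) (by linarith)
    (by clear * - a2 hC b1 d12 d14; simp only [subset_iff, mem_union, mem_sdiff] at *; grind)
    (by clear * -; grind (ematch := 15)))
  have sJ : X1 ⊆ J := subset_union_right.trans b1
  have cases : n ≤ (X2 ∩ J).card ∨ n ≤ (X2 \ J).card := by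
    have := card_inter_add_card_sdiff X2 J
    omega
  rcases cases with k | k
  · obtain ⟨W, e1, e2⟩ := exists_subset_card_eq k
    have e3 : W ⊆ J := e1.trans inter_subset_right
    have e4 : W ⊆ X2 := e1.trans inter_subset_left
    obtain ⟨J', f1, f2, f3, f4⟩ := hr.ext (I := J \ W) (Y := J \ W ∪ Z) subset_union_left
      (hr.ind_sub sdiff_subset b3)
    have g1 : ρ S ≤ ρ J' := by
      have := hr.mono (X := Z) (Y := J \ W ∪ Z) subset_union_right
      linarith
    have g2 := hr.mono (X := J') (Y := S) (by clear * - f2 w0 hS; grind (ematch := 15))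
    have g3 : J'.card = J.card := by
      have : (J'.card : ℤ) = J.card := by linarith
      exact_mod_cast this
    have g4 := card_sdiff_add_card_eq_card f1
    have g5 := card_sdiff_add_card_eq_card e3
    have g6 := card_sdiff_add_card_eq_card (s := X1) (t := J \ W)
      (by clear * - sJ e4 d12; grind (ematch := 15))
    have g7 := hr.ind_sub (I := (J \ W) \ X1) (sdiff_subset.trans sdiff_subset) b3
    have g8 : J' \ (J \ W) ⊆ Z := by clear * - f2; grind (ematch := 15)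
    refine fin2 hr hK (K := (J \ W) \ X1) (A := X1) (W := W) (B := X3) (W' := J' \ (J \ W))
      (fun a ha c hc b hb d hd => Or.inr (Or.inr (Or.inr (Or.inl
        ⟨o12 d hd a (e4 ha), o23 a (e4 ha) b hb, o34 b hb c (g8 hc)⟩))))
      (by clear * - e4 d12; grind (ematch := 15) [disjoint_left])
      (by clear * - g8 d14; grind (ematch := 15) [disjoint_left])
      (by clear * - g8 e4 d24; grind (ematch := 15) [disjoint_left])
      (by clear * - b2 d13 d23 d34
          simp only [disjoint_left, subset_iff, mem_union, mem_sdiff] at *; grind)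
      (sdiff_subset.trans (sdiff_subset.trans w0))
      (by clear * - g8 e4 hS; grind (ematch := 15)) c1 e2 (by omega) ?_ ?_ ?_ ?_
    · have : (J.card : ℤ) = ((J \ W) \ X1).card + 2 * n := by
        have : J.card = ((J \ W) \ X1).card + 2 * n := by omega
        exact_mod_cast this
      linarith
    · exact w1.trans (hr.mono (by clear * -; grind (ematch := 15)))
    · exact w3.trans (hr.mono (by clear * -; grind (ematch := 15)))
    · exact g1.trans (hr.mono (by clear * -; grind (ematch := 15)))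
  · obtain ⟨Q, e1, e2⟩ := exists_subset_card_eq k
    have e4 : Q ⊆ X2 := e1.trans sdiff_subset
    have e3 : Disjoint J Q := by clear * - e1; grind (ematch := 15) [disjoint_left]
    obtain ⟨J', f1, f2, f3, f4⟩ := hr.ext (I := J \ Z ∪ Q) (Y := J ∪ Q)
      (by clear * -; grind (ematch := 15))
      (hr.ind_sub (by clear * - b2 e4; grind (ematch := 15)) hX)
    have g1 : ρ S ≤ ρ J' := by
      have := hr.mono (X := J) (Y := J ∪ Q) subset_union_left
      linarith
    have g2 := hr.mono (X := J') (Y := S) (by clear * - f2 w0 hS e4; grind (ematch := 15))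
    have g3 : J'.card = J.card := by
      have : (J'.card : ℤ) = J.card := by linarith
      exact_mod_cast this
    have g8 : J \ J' ⊆ Z := by
      clear * - f1; simp only [subset_iff, mem_union, mem_sdiff] at *; grind
    have g4 : (J \ J').card = n := by
      have t1 := card_sdiff_add_card_inter J J'
      have t2 := card_sdiff_add_card_inter J' J
      rw [show J' \ J = Q by
        clear * - f1 f2 e3
        simp only [disjoint_left, subset_iff, mem_union, mem_sdiff, Finset.ext_iff] at *; grind,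
        inter_comm] at t2
      omega
    have g6 := card_sdiff_add_card_eq_card (s := X1) (t := J ∩ J')
      (by clear * - sJ f1 d14; simp only [subset_iff, mem_union, mem_sdiff, mem_inter] at *; grind)
    have g5 := card_sdiff_add_card_inter J J'
    have g7 := hr.ind_sub (I := (J ∩ J') \ X1) (sdiff_subset.trans inter_subset_left) b3
    refine fin2 hr hK (K := (J ∩ J') \ X1) (A := J \ J') (W := X1) (B := Q) (W' := X3)
      (fun a ha c hc b hb d hd => Or.inl
        ⟨o12 a ha b (e4 hb), o23 b (e4 hb) c hc, o34 c hc d (g8 hd)⟩)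
      (by clear * - g8 d14; grind (ematch := 15) [disjoint_left])
      (by clear * - g8 d34; grind (ematch := 15) [disjoint_left])
      (by clear * - d13; grind (ematch := 15) [disjoint_left])
      (by clear * - b2 d13 d23 d34 e3
          simp only [disjoint_left, subset_iff, mem_union, mem_sdiff, mem_inter] at *; grind)
      (sdiff_subset.trans (inter_subset_left.trans w0))
      (by clear * - g8 e4 hS; grind (ematch := 15)) g4 c1 c3 ?_ ?_ ?_ ?_
    · have : (J.card : ℤ) = ((J ∩ J') \ X1).card + 2 * n := by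
        have : J.card = ((J ∩ J') \ X1).card + 2 * n := by omega
        exact_mod_cast this
      linarith
    · exact w1.trans (hr.mono (by clear * -; grind (ematch := 15)))
    · exact g1.trans (hr.mono (by clear * - f2; grind (ematch := 15)))
    · exact w3.trans (hr.mono (by clear * -; grind (ematch := 15)))

lemma Rk.span (h : Rk ρ) {I Y : Finset α} (hY : ∀ e ∈ Y, ρ (insert e I) ≤ ρ I) :
    ρ (Y ∪ I) ≤ ρ I := by
  induction Y using Finset.induction_on with
  | empty => simp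
  | insert e W _ ih =>
    have a := ih fun x hx => hY x (mem_insert_of_mem hx)
    have b := hY e (mem_insert_self _ _)
    have := h.sub (X := I) (Y := insert e W ∪ I) (A := insert e I) (B := W ∪ I)
      (by clear * -; grind) (by clear * -; grind) (by clear * -; grind)
    linarith

lemma shrink (Z : Finset α) (k : ℕ) : ∀ (O : Finset α) (ρ : Finset α → ℤ), O.card = k → Rk ρ →
    Disjoint O Z → ∃ D X, D ⊆ O ∧ X ⊆ O ∧ Disjoint D X ∧ ρ (D ∪ X) = ρ (D ∪ ∅) + X.card ∧
      ρ (D ∪ (X ∪ Z)) ≤ ρ (D ∪ Z) ∧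
      ∀ W ⊆ Z, lam (fun Y => ρ (D ∪ Y)) (X ∪ Z) W = lam ρ (O ∪ Z) W := by
  induction k using Nat.strong_induction_on with
  | _ k ih =>
    intro O ρ hk hr hd
    rw [disjoint_left] at hd
    by_cases h1 : ∃ e ∈ O, ρ O ≤ ρ (O.erase e)
    · obtain ⟨e, he, h1⟩ := h1
      obtain ⟨D, X, a1, a2, a3, a4, a5, a6⟩ := ih _ (hk ▸ card_erase_lt_of_mem he) (O.erase e) ρ rfl
        hr (by clear * - hd; grind [disjoint_left])
      refine ⟨D, X, a1.trans (erase_subset _ _), a2.trans (erase_subset _ _), a3, a4, a5,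
        fun W hW => (a6 W hW).trans ?_⟩
      have t : ∀ T U, O.erase e ⊆ T → T ⊆ U → U ⊆ O ∪ T → ρ T = ρ U := fun T U p q r =>
        le_antisymm (hr.mono q) (hr.clo (erase_subset e O) h1 p r)
      unfold lam
      rw [t (O.erase e ∪ Z) (O ∪ Z) (by clear * -; grind) (by clear * -; grind)
        (by clear * -; grind), t ((O.erase e ∪ Z) \ W) ((O ∪ Z) \ W)
        (by clear * - hW hd; grind (ematch := 15)) (by clear * -; grind (ematch := 15))
        (by clear * -; grind (ematch := 15))]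
    by_cases h2 : ∃ e ∈ O, ρ Z < ρ (insert e Z)
    · obtain ⟨e, he, h2⟩ := h2
      obtain ⟨D, X, a1, a2, a3, a4, a5, a6⟩ := ih _ (hk ▸ card_erase_lt_of_mem he) (O.erase e) _ rfl
        (hr.con {e}) (by clear * - hd; grind [disjoint_left])
      refine ⟨{e} ∪ D, X, by clear * - a1 he; grind, a2.trans (erase_subset _ _),
        by clear * - a2 a3; grind (ematch := 15) [disjoint_left], by simpa only [union_assoc] using a4,
        by simpa only [union_assoc] using a5, fun W hW => ?_⟩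
      simp only [union_assoc]
      rw [a6 W hW]
      have t : ∀ W ⊆ Z, ρ ({e} ∪ W) = ρ W + 1 := fun W hW => by
        have p := hr.unit e W
        have q := hr.sub (X := W) (Y := insert e Z) (A := insert e W) (B := Z)
          (subset_insert _ _) hW (by clear * -; grind)
        rw [← insert_eq]; linarith
      unfold lam
      simp only []
      rw [t W hW, t ∅ (empty_subset _), show {e} ∪ (O.erase e ∪ Z) = O ∪ Z by
        clear * - he; grind (ematch := 15), show {e} ∪ (O.erase e ∪ Z) \ W = (O ∪ Z) \ W by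
        clear * - he hd hW; grind (ematch := 15)]
      ring
    push Not at h1 h2
    refine ⟨∅, O, empty_subset _, subset_rfl, by simp, ?_, by simpa using hr.span h2, by simp⟩
    obtain ⟨J, -, a2, a3, a4⟩ := hr.ext (I := ∅) (Y := O) (empty_subset _) (by simp)
    have : J = O := by
      by_contra hn
      obtain ⟨e, e1, e2⟩ := exists_of_ssubset (ssubset_of_subset_of_ne a2 hn)
      have := h1 e e1
      have := hr.mono (X := J) (Y := O.erase e) (by clear * - a2 e2; grind)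
      linarith
    simpa [this] using a3

lemma split (X : Finset α) (hi : Set.InjOn pos X) (a : ℕ) (ha : a ≤ X.card) :
    ∃ X1 X2, X = X1 ∪ X2 ∧ X1.card = a ∧ X2.card + a = X.card ∧
      ∀ x ∈ X1, ∀ y ∈ X2, pos x < pos y := by
  induction a with
  | zero => exact ⟨∅, X, by simp⟩
  | succ a ih =>
    obtain ⟨X1, X2, h1, h2, h3, h4⟩ := ih (by omega)
    obtain ⟨e, he, hm⟩ := exists_min_image X2 pos (card_pos.1 (by omega))
    have he1 : e ∉ X1 := fun k => lt_irrefl _ (h4 e k e he)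
    refine ⟨insert e X1, X2.erase e, by clear * - h1 he; grind, by rw [card_insert_of_notMem he1, h2],
      by rw [card_erase_of_mem he]; omega, fun x hx y hy => ?_⟩
    rcases mem_insert.1 hx with rfl | hx
    · refine lt_of_le_of_ne (hm y (mem_of_mem_erase hy)) fun k => ne_of_mem_erase hy ?_
      exact (hi (mem_coe.2 (h1 ▸ mem_union_right _ he))
        (mem_coe.2 (h1 ▸ mem_union_right _ (mem_of_mem_erase hy))) k).symm
    · exact h4 x hx y (mem_of_mem_erase hy)

lemma core (hr : Rk ρ) (hK : KP ρ pos) (hi : Function.Injective pos) {n : ℕ} (hn : 1 ≤ n)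
    {O Z : Finset α} (o : ∀ x ∈ O, ∀ y ∈ Z, pos x < pos y) (hZ : lam ρ (O ∪ Z) Z = 4 * n - 1)
    (hbad : ∀ q, (Z.filter fun x => pos x < q).Nonempty → (Z.filter fun x => q ≤ pos x).Nonempty →
      4 * n ≤ lam ρ (O ∪ Z) (Z.filter fun x => pos x < q) ∨
      4 * n ≤ lam ρ (O ∪ Z) (Z.filter fun x => q ≤ pos x)) : Unif ρ (O ∪ Z) n := by
  have dOZ : ∀ x ∈ O, x ∉ Z := fun x a b => lt_irrefl _ (o x a x b)
  obtain ⟨D, X, a1, a2, a3, a4, a5, a6⟩ := shrink Z _ O ρ rfl hr (disjoint_left.2 dOZ)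
  have hr' := hr.con D
  have hK' := hK.con D
  simp only [← a6 _ subset_rfl, ← a6 _ (filter_subset _ _)] at hZ hbad
  refine Unif.con (S' := X ∪ Z) (D := D) ?_ (union_subset_union_left a2)
    (a1.trans subset_union_left) (by clear * - a1 a3 dOZ; grind (ematch := 15) [disjoint_left])
  change (fun Y => ρ (D ∪ Y)) X = (fun Y => ρ (D ∪ Y)) ∅ + X.card at a4
  change (fun Y => ρ (D ∪ Y)) (X ∪ Z) ≤ (fun Y => ρ (D ∪ Y)) Z at a5
  generalize (fun Y => ρ (D ∪ Y)) = σ at *
  have dXZ : ∀ x ∈ X, x ∉ Z := fun x hx => dOZ x (a2 hx)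
  have m1 := hr'.mono (X := Z) (Y := X ∪ Z) subset_union_right
  have cX : X.card + 1 = 4 * n := by
    unfold lam at hZ
    rw [show (X ∪ Z) \ Z = X by clear * - dXZ; grind] at hZ
    have : (X.card : ℤ) + 1 = 4 * n := by linarith
    exact_mod_cast this
  obtain ⟨X1, Y, s1, c1, c1', o1⟩ := split X hi.injOn n (by omega)
  obtain ⟨X2, X3, s2, c2, c3, o23⟩ := split Y hi.injOn (2 * n - 1) (by omega)
  subst s2
  have e : X = X1 ∪ X2 ∪ X3 := by rw [s1, union_assoc]
  clear s1
  subst e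
  have o12 : ∀ x ∈ X1, ∀ y ∈ X2, pos x < pos y := fun x a y b => o1 x a y (mem_union_left _ b)
  have o13 : ∀ x ∈ X1, ∀ y ∈ X3, pos x < pos y := fun x a y b => o1 x a y (mem_union_right _ b)
  have o14 : ∀ x ∈ X1, ∀ y ∈ Z, pos x < pos y := fun x a => o x (a2 (by simp [a]))
  have o24 : ∀ x ∈ X2, ∀ y ∈ Z, pos x < pos y := fun x a => o x (a2 (by simp [a]))
  have o34 : ∀ x ∈ X3, ∀ y ∈ Z, pos x < pos y := fun x a => o x (a2 (by simp [a]))
  have d13 : ∀ x ∈ X1, x ∉ X3 := fun x a b => lt_irrefl _ (o13 x a x b)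
  have d23 : ∀ x ∈ X2, x ∉ X3 := fun x a b => lt_irrefl _ (o23 x a x b)
  have c3' : X3.card = n := by omega
  obtain ⟨C, hC, h⟩ := link (m := n) hr' hK' hi.injOn o12 o13 o14 o23 o24 o34 (by
    intro p q
    obtain ⟨Z1, hZ1⟩ : ∃ W, W = Z.filter fun x => pos x < q := ⟨_, rfl⟩
    obtain ⟨Z2, hZ2⟩ : ∃ W, W = Z.filter fun x => q ≤ pos x := ⟨_, rfl⟩
    obtain ⟨P, hP⟩ : ∃ W, W = X2.filter fun x => pos x < p := ⟨_, rfl⟩
    have hb := hbad q
    rw [← hZ1, ← hZ2] at hb
    rw [← hZ2, ← hP]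
    have p1 : P ⊆ X2 := hP ▸ filter_subset _ _
    have z : ∀ x, (x ∈ Z ↔ x ∈ Z1 ∨ x ∈ Z2) ∧ (x ∈ Z1 → x ∉ Z2) := by clear * - hZ1 hZ2; grind
    clear hZ1 hZ2 hP hbad
    obtain ⟨S, hS⟩ : ∃ S, S = X1 ∪ X2 ∪ X3 ∪ Z := ⟨_, rfl⟩
    rw [← hS] at hb a5 m1 ⊢
    unfold lam at hb ⊢
    have i1 := hr'.ind_sub (I := X1) (by clear * -; grind) a4
    have i3 := hr'.ind_sub (I := X3) (by clear * -; grind) a4
    rw [c1] at i1
    rw [c3'] at i3
    rcases Z2.eq_empty_or_nonempty with rfl | n2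
    · have := hr'.mono (X := X1) (Y := X1 ∪ ∅ ∪ P) (by clear * -; grind)
      have := hr'.mono (X := Z) (Y := S \ (X1 ∪ ∅ ∪ P))
        (by clear * - hS p1 dXZ; simp only [subset_iff, mem_union, mem_sdiff, hS] at *; grind)
      linarith
    rcases Z1.eq_empty_or_nonempty with rfl | n1
    · have := hr'.mono (X := Z) (Y := X1 ∪ Z2 ∪ P) (by clear * - z; grind)
      have := hr'.mono (X := X3) (Y := S \ (X1 ∪ Z2 ∪ P))
        (by clear * - hS p1 dXZ d13 d23 z
            simp only [subset_iff, mem_union, mem_sdiff, hS] at *; grind)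
      linarith
    have k1 : ((X1 ∪ X2).card : ℤ) ≤ 3 * n - 1 := by
      have := card_union_le X1 X2
      clear * - this c1 c2 hn; omega
    have k2 : ((X2 ∪ X3).card : ℤ) ≤ 3 * n - 1 := by
      have := card_union_le X2 X3
      clear * - this c3' c2 hn; omega
    rcases hb n1 n2 with k | k
    · have := hr'.mono (X := Z1) (Y := S \ (X1 ∪ Z2 ∪ P))
        (by clear * - hS p1 dXZ z; simp only [subset_iff, mem_union, mem_sdiff, hS] at *; grind)
      have := hr'.le_card' (X := X1 ∪ Z2 ∪ P) (Y := X2 ∪ X3) (Z := S \ Z1)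
        (by clear * - hS z; simp only [subset_iff, mem_union, mem_sdiff, hS] at *; grind)
      linarith
    · have := hr'.mono (X := Z2) (Y := X1 ∪ Z2 ∪ P) (by clear * -; grind)
      have := hr'.le_card' (X := S \ (X1 ∪ Z2 ∪ P)) (Y := X1 ∪ X2) (Z := S \ Z2)
        (by clear * - p1; simp only [subset_iff, mem_union, mem_sdiff] at *; grind)
      linarith)
  exact exch hr' hK' o12 o13 o14 o23 o24 o34 c1 (by omega) c3' a4 a5 hC h

end Pool.Agent.Lib.MP_a4b0c4_co
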