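import Mathlib

set_option autoImplicit false
set_option linter.unusedSectionVars false
set_option linter.unusedVariables false

open Finset

namespace Pool.Agent.Lib.MP_a4b0c4_co

variable {α : Type} [DecidableEq α]

def Cov (L : Finset (Finset α)) (F G : Finset α) : Prop := F ⊂ G ∧ ∀ H ∈ L, F ⊂ H → G ⊆ H

structure Fam (P : Finset α → Prop) (Z : Finset α) (L : Finset (Finset α)) : Prop where
  top : Z ∈ L
  sub : ∀ F ∈ L, F ⊆ Z
  ne : ∀ F ∈ L, F.Nonempty
  pp : ∀ F ∈ L, P F
  sing : ∀ x ∈ Z, {x} ∈ L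
  par : ∀ F ∈ L, F ≠ Z → ∃ G ∈ L, Cov L F G
  two : ∀ G ∈ L, ∃ A B, ∀ F ∈ L, Cov L F G → F = A ∨ F = B

variable {P : Finset α → Prop}

lemma Fam.single {x : α} (h : P {x}) : Fam P {x} {{x}} where
  top := by simp
  sub := by simp
  ne := by simp
  pp := by simpa using h
  sing := by simp
  par := by simp
  two := fun G _ => ⟨{x}, {x}, by simp +contextual⟩

lemma Fam.half {A B : Finset α} {L M : Finset (Finset α)} (hA : Fam P A L) (hB : Fam P B M)
    (d : Disjoint A B) {N : Finset (Finset α)} (hN : ∀ F, F ∈ N ↔ F = A ∪ B ∨ F ∈ L ∨ F ∈ M) :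
    (∀ F ∈ L, ∃ G ∈ N, Cov N F G) ∧ (∀ F ∈ L, Cov N F (A ∪ B) → F = A) ∧
    ∀ G ∈ L, ∃ X Y, ∀ F ∈ N, Cov N F G → F = X ∨ F = Y := by
  have nd : ∀ F : Finset α, F.Nonempty → F ⊆ A → F ⊆ B → False := fun F ⟨x, hx⟩ a b =>
    disjoint_left.1 d (a hx) (b hx)
  have nB : ¬ A ∪ B ⊆ A := fun k => nd B (hB.ne _ hB.top) (subset_union_right.trans k) subset_rfl
  refine ⟨fun F hF => ?_, fun F hF hc => ?_, fun G hG => ?_⟩
  · by_cases e : F = A
    · subst e
      refine ⟨F ∪ B, (hN _).2 (.inl rfl), ⟨subset_union_left, nB⟩, fun H hH k => ?_⟩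
      rcases (hN _).1 hH with rfl | a | a
      · exact subset_rfl
      · exact absurd (hA.sub _ a) k.2
      · exact (nd F (hA.ne _ hF) subset_rfl (k.1.trans (hB.sub _ a))).elim
    · obtain ⟨G, hG, c⟩ := hA.par F hF e
      refine ⟨G, (hN _).2 (.inr (.inl hG)), c.1, fun H hH k => ?_⟩
      rcases (hN _).1 hH with rfl | a | a
      · exact (hA.sub _ hG).trans subset_union_left
      · exact c.2 H a k
      · exact (nd F (hA.ne _ hF) (hA.sub _ hF) (k.1.trans (hB.sub _ a))).elim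
  · by_contra e
    exact nB (hc.2 A ((hN _).2 (.inr (.inl hA.top))) (lt_of_le_of_ne (hA.sub _ hF) e))
  · obtain ⟨X, Y, h⟩ := hA.two G hG
    refine ⟨X, Y, fun F hF c => ?_⟩
    have s := c.1.1.trans (hA.sub _ hG)
    rcases (hN _).1 hF with rfl | a | a
    · exact absurd s nB
    · exact h F a ⟨c.1, fun H hH => c.2 H ((hN _).2 (.inr (.inl hH)))⟩
    · exact (nd F (hB.ne _ a) s (hB.sub _ a)).elim

lemma Fam.join {A B : Finset α} {L M : Finset (Finset α)} (hA : Fam P A L) (hB : Fam P B M)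
    (d : Disjoint A B) (h : P (A ∪ B)) : Fam P (A ∪ B) (insert (A ∪ B) (L ∪ M)) := by
  have hN : ∀ F, F ∈ insert (A ∪ B) (L ∪ M) ↔ F = A ∪ B ∨ F ∈ L ∨ F ∈ M := by simp
  obtain ⟨a1, a2, a3⟩ := hA.half hB d hN
  obtain ⟨b1, b2, b3⟩ := hB.half hA d.symm (N := insert (A ∪ B) (L ∪ M))
    (by intro F; rw [hN, union_comm B A, or_comm (a := F ∈ L)])
  rw [union_comm B A] at b2
  refine ⟨mem_insert_self _ _, fun F hF => ?_, fun F hF => ?_, fun F hF => ?_, fun x hx => ?_,
    fun F hF e => ?_, fun G hG => ?_⟩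
  · rcases (hN _).1 hF with rfl | a | a
    exacts [subset_rfl, (hA.sub _ a).trans subset_union_left, (hB.sub _ a).trans subset_union_right]
  · rcases (hN _).1 hF with rfl | a | a
    exacts [(hA.ne _ hA.top).mono subset_union_left, hA.ne _ a, hB.ne _ a]
  · rcases (hN _).1 hF with rfl | a | a
    exacts [h, hA.pp _ a, hB.pp _ a]
  · rcases mem_union.1 hx with a | a
    exacts [(hN _).2 (.inr (.inl (hA.sing x a))), (hN _).2 (.inr (.inr (hB.sing x a)))]
  · rcases (hN _).1 hF with rfl | a | a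
    exacts [absurd rfl e, a1 F a, b1 F a]
  · rcases (hN _).1 hG with rfl | a | a
    · refine ⟨A, B, fun F hF c => ?_⟩
      rcases (hN _).1 hF with rfl | a | a
      exacts [absurd c.1 (lt_irrefl _), .inl (a2 F a c), .inr (b2 F a c)]
    exacts [a3 G a, b3 G a]

lemma tree [Fintype α] {L : Finset (Finset α)} (h : Fam P univ L) :
    ∃ (m : ℕ) (T : SimpleGraph (Fin m)) (φ : α → Fin m), T.IsTree ∧
      (∀ v, (T.neighborSet v).ncard ≤ 3) ∧ Function.Injective φ ∧
      (∀ x, (T.neighborSet (φ x)).ncard ≤ 1) ∧ ∀ u v, T.Adj u v → ∃ F, P F ∧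
        ((∀ x, (T.deleteEdges {s(u, v)}).Reachable (φ x) u ↔ x ∈ F) ∨
          (∀ x, (T.deleteEdges {s(u, v)}).Reachable (φ x) u ↔ x ∉ F)) := by
  classical
  obtain ⟨m, g, gi, gm, gs⟩ : ∃ (m : ℕ) (g : Fin m → Finset α), Function.Injective g ∧
      (∀ u, g u ∈ L) ∧ ∀ F ∈ L, ∃ u, g u = F :=
    ⟨L.card, fun u => (L.equivFin.symm u).1, Subtype.val_injective.comp L.equivFin.symm.injective,
      fun u => (L.equivFin.symm u).2, fun F hF => ⟨L.equivFin ⟨F, hF⟩, by simp⟩⟩
  choose φ hφ using fun x => gs {x} (h.sing x (mem_univ x))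
  obtain ⟨r, hr⟩ := gs _ h.top
  obtain ⟨T, hT⟩ : ∃ T : SimpleGraph (Fin m), ∀ u v, T.Adj u v ↔ Cov L (g u) (g v) ∨ Cov L (g v) (g u) :=
    ⟨SimpleGraph.fromRel fun u v => Cov L (g u) (g v), fun u v => by
      rw [SimpleGraph.fromRel_adj]
      refine ⟨fun k => k.2, fun k => ⟨?_, k⟩⟩
      rintro rfl
      rcases k with k | k <;> exact lt_irrefl _ k.1⟩
  have uq : ∀ u v w, Cov L (g u) (g v) → Cov L (g u) (g w) → v = w := fun u v w a b =>
    gi (subset_antisymm (a.2 _ (gm w) b.1) (b.2 _ (gm v) a.1))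
  -- going up
  have up : ∀ (G : SimpleGraph (Fin m)) (Q : Fin m → Prop) (t : Fin m),
      (∀ w, Q w → w ≠ t → ∃ w', Cov L (g w) (g w') ∧ Q w' ∧ G.Adj w w') →
      ∀ w, Q w → G.Reachable w t := by
    intro G Q t H w
    induction hn : (univ \ g w).card using Nat.strong_induction_on generalizing w with
    | _ k ih =>
      intro hw
      by_cases e : w = t
      · rw [e]
      · obtain ⟨w', a, b, c⟩ := H w hw e
        refine c.reachable.trans (ih _ ?_ w' rfl b)
        rw [← hn]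
        refine card_lt_card ⟨sdiff_subset_sdiff subset_rfl a.1.1, fun k => a.1.2 fun x hx => ?_⟩
        by_contra hx'
        exact (mem_sdiff.1 (k (mem_sdiff.2 ⟨mem_univ x, hx'⟩))).2 hx
  have pr : ∀ w, w ≠ r → ∃ w', Cov L (g w) (g w') := fun w e => by
    obtain ⟨G, a, b⟩ := h.par _ (gm w) fun k => e (gi (k.trans hr.symm))
    obtain ⟨w', rfl⟩ := gs G a
    exact ⟨w', b⟩
  have k1 : ∀ c p, Cov L (g c) (g p) → ∀ w, (T.deleteEdges {s(c, p)}).Reachable w c ↔ g w ⊆ g c := by
    intro c p hc w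
    constructor
    · rintro ⟨q⟩
      have : ∀ a b, (T.deleteEdges {s(c, p)}).Walk a b → g b ⊆ g c → g a ⊆ g c := by
        intro a b q
        induction q with
        | nil => exact id
        | @cons a a' b ha q ih =>
          intro hb
          have s := ih hb
          rw [SimpleGraph.deleteEdges_adj, hT] at ha
          rcases ha.1 with k | k
          · exact k.1.1.trans s
          · refine k.2 _ (gm c) (lt_of_le_of_ne s fun e => ha.2 ?_)
            obtain rfl := gi e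
            obtain rfl := uq _ _ _ k hc
            simp [Sym2.eq_swap]
      exact this _ _ q subset_rfl
    · refine up _ (fun w => g w ⊆ g c) c (fun w hw e => ?_) w
      have s : g w ⊂ g c := lt_of_le_of_ne hw fun k => e (gi k)
      obtain ⟨w', a⟩ := pr w (by
        rintro rfl
        exact s.2 (hr ▸ subset_univ _))
      have b := a.2 _ (gm c) s
      refine ⟨w', a, b, ?_⟩
      rw [SimpleGraph.deleteEdges_adj, hT]
      refine ⟨.inl a, fun k => ?_⟩
      simp only [Set.mem_singleton_iff, Sym2.eq_iff] at k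
      rcases k with ⟨rfl, rfl⟩ | ⟨rfl, rfl⟩
      exacts [e rfl, hc.1.2 hw]
  have k2 : ∀ c p, Cov L (g c) (g p) → ∀ w, (T.deleteEdges {s(c, p)}).Reachable w p ↔ ¬ g w ⊆ g c := by
    intro c p hc w
    constructor
    · intro a b
      exact hc.1.2 ((k1 c p hc p).1 (a.symm.trans ((k1 c p hc w).2 b)))
    · have := up (T.deleteEdges {s(c, p)}) (fun w => ¬ g w ⊆ g c) r fun w hw e => by
        obtain ⟨w', a⟩ := pr w e
        have b : ¬ g w' ⊆ g c := fun k => hw (a.1.1.trans k)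
        refine ⟨w', a, b, ?_⟩
        rw [SimpleGraph.deleteEdges_adj, hT]
        refine ⟨.inl a, fun k => ?_⟩
        simp only [Set.mem_singleton_iff, Sym2.eq_iff] at k
        rcases k with ⟨rfl, rfl⟩ | ⟨rfl, rfl⟩
        exacts [hw subset_rfl, b subset_rfl]
      exact fun k => (this w k).trans (this p hc.1.2).symm
  have par1 : ∀ v, ∃ p, ∀ w, Cov L (g v) (g w) → w = p := fun v => by
    by_cases e : ∃ p, Cov L (g v) (g p)
    · obtain ⟨p, hp⟩ := e
      exact ⟨p, fun w hw => uq _ _ _ hw hp⟩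
    · exact ⟨v, fun w hw => absurd ⟨w, hw⟩ e⟩
  refine ⟨m, T, φ, ⟨?_, ?_⟩, fun v => ?_, fun x y e => ?_, fun x => ?_, fun u v a => ?_⟩
  · have := up T (fun _ => True) r fun w _ e => by
      obtain ⟨w', a⟩ := pr w e
      exact ⟨w', a, trivial, (hT _ _).2 (.inl a)⟩
    have i : Nonempty (Fin m) := ⟨r⟩
    exact ⟨fun u v => (this u trivial).trans (this v trivial).symm⟩
  · rw [SimpleGraph.isAcyclic_iff_forall_adj_isBridge]
    intro u v a
    rw [SimpleGraph.isBridge_iff]
    rcases (hT _ _).1 a with c | c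
    · exact fun k => (k2 u v c u).1 k subset_rfl
    · rw [Sym2.eq_swap]
      exact fun k => (k2 v u c v).1 k.symm subset_rfl
  · obtain ⟨p, hp⟩ := par1 v
    obtain ⟨A, B, hAB⟩ := h.two _ (gm v)
    have : ∀ A : Finset α, ∃ a, ∀ w, g w = A → w = a := fun A => by
      by_cases e : ∃ a, g a = A
      · obtain ⟨a, ha⟩ := e
        exact ⟨a, fun w hw => gi (hw.trans ha.symm)⟩
      · exact ⟨v, fun w hw => absurd ⟨w, hw⟩ e⟩
    obtain ⟨a, ha⟩ := this A
    obtain ⟨b, hb⟩ := this B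
    refine (Set.ncard_le_ncard (t := {p, a, b}) (fun w hw => ?_)).trans ?_
    · rcases (hT _ _).1 hw with c | c
      · exact .inl (hp w c)
      · rcases hAB _ (gm w) c with k | k
        exacts [.inr (.inl (ha w k)), .inr (.inr (hb w k))]
    · refine (Set.ncard_insert_le _ _).trans ?_
      have := Set.ncard_insert_le a {b}
      rw [Set.ncard_singleton] at this
      omega
  · have := (hφ x).symm.trans ((congrArg g e).trans (hφ y))
    simpa using this
  · obtain ⟨p, hp⟩ := par1 (φ x)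
    refine (Set.ncard_le_ncard (t := {p}) (fun w hw => ?_)).trans (by simp)
    rcases (hT _ _).1 hw with c | c
    · exact hp w c
    · have := c.1
      rw [hφ, ssubset_singleton_iff] at this
      exact absurd this (h.ne _ (gm w)).ne_empty
  · rcases (hT _ _).1 a with c | c
    · exact ⟨g u, h.pp _ (gm u), .inl fun x => by rw [k1 u v c, hφ, singleton_subset_iff]⟩
    · refine ⟨g v, h.pp _ (gm v), .inr fun x => ?_⟩
      rw [Sym2.eq_swap, k2 v u c, hφ, singleton_subset_iff]

end Pool.Agent.Lib.MP_a4b0c4_co
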