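import Mathlib
import Pool.Agent.Lib.MP_a4b0c4_co.Core
import Pool.Agent.Lib.MP_a4b0c4_co.Tree

set_option autoImplicit false
set_option linter.unusedSectionVars false
set_option linter.unusedVariables false

open Finset

namespace Pool.Agent.Lib.MP_a4b0c4_co

variable {α : Type} [DecidableEq α] [Fintype α] {ρ : Finset α → ℤ} {pos : α → ℤ}

lemma lam_single (hr : Rk ρ) (e : α) : lam ρ univ {e} ≤ 1 := by
  have := hr.unit e ∅
  have := hr.mono (subset_univ (univ \ {e}))
  unfold lam
  simp only [insert_empty_eq] at *
  linarith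

lemma intv (hr : Rk ρ) (hK : KP ρ pos) (hi : Function.Injective pos) {K : ℤ}
    (hb : ∀ x y, pos x < pos y + K) {n : ℕ} (hn : 1 ≤ n) (k : ℕ) :
    ∀ Z : Finset α, Z.card = k → Z.Nonempty →
      (∀ x ∈ Z, ∀ y ∈ Z, ∀ z, pos x ≤ pos z → pos z ≤ pos y → z ∈ Z) →
      lam ρ univ Z ≤ 4 * n - 1 →
      (∃ L, Fam (fun X => lam ρ univ X ≤ 4 * n - 1) Z L) ∨ Unif ρ univ n := by
  induction k using Nat.strong_induction_on with
  | _ k ih =>
    intro Z hk hne hc hP
    by_cases h1 : ∃ x, Z = {x}
    · obtain ⟨x, rfl⟩ := h1
      exact .inl ⟨_, Fam.single hP⟩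
    by_cases h2 : ∃ q, (Z.filter fun x => pos x < q).Nonempty ∧
        (Z.filter fun x => q ≤ pos x).Nonempty ∧
        lam ρ univ (Z.filter fun x => pos x < q) ≤ 4 * n - 1 ∧
        lam ρ univ (Z.filter fun x => q ≤ pos x) ≤ 4 * n - 1
    · obtain ⟨q, ⟨a, ha⟩, ⟨b, hb'⟩, c, d⟩ := h2
      have ha' := mem_filter.1 ha
      have hb'' := mem_filter.1 hb'
      have u : (Z.filter fun x => pos x < q) ∪ (Z.filter fun x => q ≤ pos x) = Z := by
        ext x
        simp only [mem_union, mem_filter]
        rcases lt_or_ge (pos x) q with e | e <;> simp [e]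
      rcases ih _ (by
          rw [← hk]
          exact card_lt_card ⟨filter_subset _ _, fun s => by
            have := (mem_filter.1 (s hb''.1)).2
            linarith [hb''.2]⟩) _ rfl ⟨a, ha⟩ (fun x hx y hy z h1 h2 => by
          rw [mem_filter] at *
          exact ⟨hc x hx.1 y hy.1 z h1 h2, by linarith [hy.2]⟩) c with ⟨L, hL⟩ | h
      swap
      · exact .inr h
      rcases ih _ (by
          rw [← hk]
          exact card_lt_card ⟨filter_subset _ _, fun s => by
            have := (mem_filter.1 (s ha'.1)).2
            linarith [ha'.2]⟩) _ rfl ⟨b, hb'⟩ (fun x hx y hy z h1 h2 => by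
          rw [mem_filter] at *
          exact ⟨hc x hx.1 y hy.1 z h1 h2, by linarith [hx.2]⟩) d with ⟨M, hM⟩ | h
      swap
      · exact .inr h
      have := hL.join hM (by
        rw [disjoint_left]
        intro x a b
        linarith [(mem_filter.1 a).2, (mem_filter.1 b).2]) (by rw [u]; exact hP)
      rw [u] at this
      exact .inl ⟨_, this⟩
    right
    have hbad : ∀ q, (Z.filter fun x => pos x < q).Nonempty →
        (Z.filter fun x => q ≤ pos x).Nonempty →
        4 * n ≤ lam ρ univ (Z.filter fun x => pos x < q) ∨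
        4 * n ≤ lam ρ univ (Z.filter fun x => q ≤ pos x) := fun q a b => by
      by_contra k
      rw [not_or, not_le, not_le] at k
      exact h2 ⟨q, a, b, by linarith [k.1], by linarith [k.2]⟩
    obtain ⟨e, he, hm⟩ := exists_min_image Z pos hne
    obtain ⟨t, ht, hM⟩ := exists_max_image Z pos hne
    have hn' : (1 : ℤ) ≤ n := by exact_mod_cast hn
    have hZ : lam ρ univ Z = 4 * n - 1 := by
      have f1 : (Z.filter fun x => pos x < pos e + 1) = {e} := by
        ext x
        simp only [mem_filter, mem_singleton]
        constructor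
        · exact fun k => hi (le_antisymm (by linarith [k.2]) (hm x k.1))
        · rintro rfl
          exact ⟨he, by linarith⟩
      have f2 : (Z.filter fun x => pos e + 1 ≤ pos x) = Z.erase e := by
        ext x
        simp only [mem_filter, mem_erase]
        constructor
        · exact fun k => ⟨fun j => by rw [j] at k; linarith [k.2], k.1⟩
        · exact fun k => ⟨k.2, lt_of_le_of_ne (hm x k.2) fun j => k.1 (hi j).symm⟩
      have := hbad (pos e + 1) (by rw [f1]; simp) (by
        rw [f2, nonempty_iff_ne_empty]
        intro k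
        rcases (erase_eq_empty_iff _ _).1 k with k | k
        exacts [hne.ne_empty k, h1 ⟨e, k⟩])
      rw [f1, f2] at this
      have l1 := lam_single hr e
      have l2 := hr.mono (erase_subset e Z)
      have l3 := hr.unit e (univ \ Z)
      have l4 := hr.mono (X := univ \ Z.erase e) (Y := insert e (univ \ Z)) (by
        intro x; simp; tauto)
      refine le_antisymm hP ?_
      rcases this with k | k
      · linarith
      · unfold lam at *
        linarith
    have u : univ \ Z ∪ Z = univ := sdiff_union_of_subset (subset_univ _)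
    have p1 : ∀ x ∈ Z, (if pos x < pos t + 1 then pos x + K else pos x) = pos x + K :=
      fun x hx => if_pos (by linarith [hM x hx])
    have := core (O := univ \ Z) (Z := Z) hr (hK.rot hb (pos t + 1)) (fun x y h => by
        have := hb x y
        have := hb y x
        simp only at h
        split_ifs at h
        · exact hi (by linarith)
        · linarith
        · linarith
        · exact hi h) hn (fun x hx y hy => by
        rw [p1 y hy]
        split_ifs with h
        · by_contra k
          exact (mem_sdiff.1 hx).2 (hc y hy t ht x (by linarith) (by linarith))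
        · exact hb x y) (by rw [u]; exact hZ) (fun q => by
        rw [u, filter_congr (q := fun x => pos x < q - K) fun x hx => by
            rw [p1 x hx]; constructor <;> intro <;> linarith,
          filter_congr (p := fun x => q ≤ (if pos x < pos t + 1 then pos x + K else pos x))
            (q := fun x => q - K ≤ pos x) fun x hx => by
            rw [p1 x hx]; constructor <;> intro <;> linarith]
        exact hbad _)
    rwa [u] at this

/-- abstract main theorem -/
lemma abs_main [Nonempty α] (hr : Rk ρ) (hK : KP ρ pos) (hi : Function.Injective pos) {K : ℤ}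
    (hb : ∀ x y, pos x < pos y + K) {n : ℕ} (hn : 1 ≤ n) :
    (∃ (m : ℕ) (T : SimpleGraph (Fin m)) (φ : α → Fin m), T.IsTree ∧
      (∀ v, (T.neighborSet v).ncard ≤ 3) ∧ Function.Injective φ ∧
      (∀ x, (T.neighborSet (φ x)).ncard ≤ 1) ∧ ∀ u v, T.Adj u v → ∃ F, lam ρ univ F ≤ 4 * n - 1 ∧
        ((∀ x, (T.deleteEdges {s(u, v)}).Reachable (φ x) u ↔ x ∈ F) ∨
          (∀ x, (T.deleteEdges {s(u, v)}).Reachable (φ x) u ↔ x ∉ F))) ∨ Unif ρ univ n := by
  have hn' : (1 : ℤ) ≤ n := by exact_mod_cast hn
  rcases intv hr hK hi hb hn _ univ rfl univ_nonempty (fun _ _ _ _ _ _ _ => mem_univ _)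
    (by unfold lam; rw [sdiff_self]; simp only [bot_eq_empty]; linarith) with ⟨L, h⟩ | h
  exacts [.inl (tree h), .inr h]

end Pool.Agent.Lib.MP_a4b0c4_co
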