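import Pool.Agent.Lib.MP_a4b0c4_co.JBasic
import Pool.Agent.Lib.MP_a4b0c4_co.Tree

/-! Without a well linked set there is a decomposition of small width. -/

set_option autoImplicit false
set_option linter.unusedSectionVars false
set_option linter.unusedVariables false

open Finset

namespace Pool.Agent.Lib.MP_a4b0c4_co.J.T

variable {α : Type} [DecidableEq α] {r : Finset α → ℤ} {E : Finset α}

lemma lam_compl {Z : Finset α} (h : Z ⊆ E) : lam r E (E \ Z) = lam r E Z := by
  unfold lam; rw [Finset.sdiff_sdiff_eq_self h]; ring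

lemma lam_nonneg (h : Rk r) (Z : Finset α) : 0 ≤ lam r E Z := by
  have := h.union_le (X := Z) (Y := E \ Z) (Z := E) (by grind)
  unfold lam; linarith

lemma lam_subm (h : Rk r) (A B : Finset α) :
    lam r E (A ∩ B) + lam r E (A ∪ B) ≤ lam r E A + lam r E B := by
  have h1 := h.subm A B
  have h2 := h.sub (X := E \ (A ∪ B)) (Y := E \ (A ∩ B)) (A := E \ A) (B := E \ B)
    (by grind) (by grind) (by grind)
  unfold lam; linarith

lemma lam_insert (h : Rk r) (e : α) (A : Finset α) : lam r E (insert e A) ≤ lam r E A + 1 := by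
  have h1 := h.unit e A
  have h2 := h.mono (X := E \ insert e A) (Y := E \ A) (by grind)
  unfold lam; linarith

lemma lam_erase (h : Rk r) (e : α) (A : Finset α) : lam r E (A.erase e) ≤ lam r E A + 1 := by
  have h1 := h.unit e (E \ A)
  have h2 := h.mono (X := E \ A.erase e) (Y := insert e (E \ A)) (by grind)
  have h3 := h.mono (erase_subset e A)
  unfold lam; linarith

lemma lam_empty (h : Rk r) : lam r E ∅ = 0 := by simp [lam, h.emp]

/-- a set inside `D` that is as well connected to the outside of `D` as `D` itself -/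
lemma exists_link (h : Rk r) (D : Finset α) : ∃ X ⊆ D, (X.card : ℤ) = lam r E D ∧
    ∀ Y ⊆ X, ∀ Z, Y ⊆ Z → Z ⊆ D → (Y.card : ℤ) ≤ lam r E Z := by
  have ne : ∀ X : Finset α, (D.powerset.filter fun Z => X ∩ D ⊆ Z).Nonempty := fun X =>
    ⟨D, by simp⟩
  obtain ⟨g, g1, g2⟩ : ∃ g : Finset α → ℤ, (∀ X Z, X ∩ D ⊆ Z → Z ⊆ D → g X ≤ lam r E Z) ∧
      ∀ X, ∃ Z, X ∩ D ⊆ Z ∧ Z ⊆ D ∧ g X = lam r E Z :=
    ⟨fun X => inf' _ (ne X) (lam r E), fun X Z a b => inf'_le _ (by simp [a, b]), fun X => by
      obtain ⟨Z, a, b⟩ := exists_mem_eq_inf' (ne X) (lam r E)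
      exact ⟨Z, (mem_filter.1 a).2, mem_powerset.1 (mem_filter.1 a).1, b⟩⟩
  have hg : Rk g := by
    refine ⟨le_antisymm ((g1 ∅ ∅ (by simp) (by simp)).trans_eq (lam_empty h)) ?_, fun {X Y} k => ?_,
      fun X Y => ?_, fun e X => ?_⟩
    · obtain ⟨Z, -, -, c⟩ := g2 ∅
      exact c ▸ lam_nonneg h Z
    · obtain ⟨Z, a, b, c⟩ := g2 Y
      exact c ▸ g1 X Z (by clear * - a k; grind) b
    · obtain ⟨Z, a, b, c⟩ := g2 X
      obtain ⟨Z', a', b', c'⟩ := g2 Y
      have := g1 (X ∪ Y) (Z ∪ Z') (by clear * - a a'; grind) (union_subset b b')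
      have := g1 (X ∩ Y) (Z ∩ Z') (by clear * - a a'; grind) (inter_subset_left.trans b)
      have := lam_subm (E := E) h Z Z'
      linarith
    · obtain ⟨Z, a, b, c⟩ := g2 X
      by_cases k : e ∈ D
      · have := g1 (insert e X) (insert e Z) (by clear * - a; grind) (insert_subset k b)
        have := lam_insert (E := E) h e Z
        linarith
      · have := g1 (insert e X) Z (by clear * - a k; grind) b
        linarith
  obtain ⟨X, a, b, -, c⟩ := hg.basis D
  obtain ⟨Z, a', b', c'⟩ := g2 D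
  obtain rfl : Z = D := subset_antisymm b' (by simpa using a')
  exact ⟨X, a, c.symm.trans c', fun Y k Z k1 k2 =>
    (hg.ind_sub b k).ge.trans (g1 Y Z (inter_subset_left.trans k1) k2)⟩

lemma fam (h : Rk r) {w : ℕ} (hw : 1 ≤ w) (hX : ∀ X ⊆ E, X.card = w → ¬ WL r E X)
    (B : Finset α) : B ⊆ E → B.Nonempty → lam r E B ≤ w →
    ∃ L, Fam (fun F => lam r E F ≤ w) B L := by
  induction B using Finset.strongInduction with
  | H B ih =>
    intro hB ne hl
    have key : ∀ A ⊆ B, A.Nonempty → (B \ A).Nonempty → lam r E A ≤ w → lam r E (B \ A) ≤ w →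
        ∃ L, Fam (fun F => lam r E F ≤ w) B L := fun A a b c d e => by
      obtain ⟨L, k⟩ := ih A ⟨a, fun k => c.ne_empty (sdiff_eq_empty_iff_subset.2 k)⟩ (a.trans hB) b d
      obtain ⟨L', k'⟩ := ih (B \ A) (sdiff_ssubset a b)
        (sdiff_subset.trans hB) c e
      have := k.join k' disjoint_sdiff (by rwa [union_sdiff_of_subset a])
      rw [union_sdiff_of_subset a] at this
      exact ⟨_, this⟩
    rcases hl.lt_or_eq with k | k
    · obtain ⟨x, hx⟩ := ne
      rcases (B.erase x).eq_empty_or_nonempty with e | e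
      · obtain rfl : B = {x} := by rw [← insert_erase hx, e]; rfl
        exact ⟨_, Fam.single hl⟩
      · refine key {x} (by simpa) (by simp) (by rwa [sdiff_singleton_eq_erase]) ?_ ?_
        · have := lam_insert (E := E) h x ∅
          rw [lam_empty h] at this
          exact this.trans (by simpa using hw)
        · have := lam_erase (E := E) h x B
          rw [sdiff_singleton_eq_erase]; omega
    obtain ⟨X, a, b, c⟩ := exists_link (E := E) h (E \ B)
    rw [lam_compl hB, k] at b
    have := hX X (a.trans sdiff_subset) (by exact_mod_cast b)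
    simp only [WL, not_forall, not_le, lt_min_iff] at this
    obtain ⟨Z, z1, z2, z3⟩ := this
    have one : ∀ Z ⊆ E, lam r E Z < (X ∩ Z).card → lam r E Z < (X \ Z).card →
        (B ∩ Z).Nonempty ∧ lam r E (B ∩ Z) ≤ w := fun Z z1 z2 z3 => by
      refine ⟨nonempty_iff_ne_empty.2 fun e => ?_, ?_⟩
      · have := c (X ∩ Z) inter_subset_left Z inter_subset_right fun x hx =>
          mem_sdiff.2 ⟨z1 hx, fun m => notMem_empty x (e ▸ mem_inter.2 ⟨m, hx⟩)⟩
        omega
      · have h1 := c (X \ Z) sdiff_subset (E \ (B ∪ Z)) (by clear * - a; grind) (by clear * -; grind)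
        rw [lam_compl (union_subset hB z1)] at h1
        have := lam_subm (E := E) h B Z
        omega
    have e1 : X ∩ (E \ Z) = X \ Z := by clear * - a; grind
    have e2 : X \ (E \ Z) = X ∩ Z := by clear * - a; grind
    obtain ⟨p1, p2⟩ := one Z z1 z2 z3
    obtain ⟨q1, q2⟩ := one (E \ Z) sdiff_subset (by rwa [lam_compl z1, e1]) (by rwa [lam_compl z1, e2])
    rw [show B ∩ (E \ Z) = B \ (B ∩ Z) by clear * - hB; grind] at q1 q2
    exact key _ inter_subset_left p1 q1 p2 q2

end Pool.Agent.Lib.MP_a4b0c4_co.J.T
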