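import Pool.Agent.Lib.MP_a4b0c4_co.JArr2

set_option autoImplicit false
set_option linter.unusedSectionVars false
set_option linter.unusedVariables false

open Finset

namespace Pool.Agent.Lib.MP_a4b0c4_co.J

lemma arr_pair {ι : Type} [LinearOrder ι] {a b a' b' : ι} (h : a < b) (h' : a' < b')
    (e : ({a, b} : Finset ι) = {a', b'}) : a = a' ∧ b = b' := by
  have h1 : a ∈ ({a', b'} : Finset ι) := e ▸ mem_insert_self _ _
  have h2 : b ∈ ({a', b'} : Finset ι) := e ▸ mem_insert_of_mem (mem_singleton_self _)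
  have h3 : a' ∈ ({a, b} : Finset ι) := e ▸ mem_insert_self _ _
  simp only [mem_insert, mem_singleton] at h1 h2 h3
  grind

lemma arr_single {ι : Type} [LinearOrder ι] {a b i : ι} (h : a < b) :
    ({a, b} : Finset ι) ≠ {i} := fun e => by
  have h1 : a ∈ ({i} : Finset ι) := e ▸ mem_insert_self _ _
  have h2 : b ∈ ({i} : Finset ι) := e ▸ mem_insert_of_mem (mem_singleton_self _)
  exact h.ne ((mem_singleton.1 h1).trans (mem_singleton.1 h2).symm)

lemma arr_lab {B C ι : Type} [LT ι] {l : Lab Empty B C ι} (h : l.valid) :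
    (∃ x i, l = Lab.o x i) ∨ ∃ c i j, i < j ∧ l = Lab.p c i j := by
  rcases l with a | ⟨b, i⟩ | ⟨c, i, j⟩
  exacts [a.elim, .inl ⟨b, i, rfl⟩, .inr ⟨c, i, j, h, rfl⟩]

lemma arr_lab' {C ι : Type} [LT ι] {l : Lab Empty Empty C ι} (h : l.valid) :
    ∃ c i j, i < j ∧ l = Lab.p c i j := (arr_lab h).resolve_left fun ⟨x, _⟩ => x.elim

theorem arr : StArr := by
  intro n m
  obtain ⟨p, p0, hp⟩ := clean_mat n (2 * n + 1) m
  obtain ⟨M, hM⟩ := hp Unit (Bool × Fin p) Empty (Fin p) Prod.fst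
  obtain ⟨g, hg⟩ := arr_blocks n (M * M) p
  refine ⟨M, g, fun α _ r E h hF hL => ?_⟩
  obtain ⟨F, D, x, Y, hH, py, hY⟩ := hL
  suffices k : ∃ C ⊆ E, ArrStr (con r C) (E \ C) m by
    obtain ⟨C, c1, c2⟩ := k
    exact ⟨_, _, h.con C, hF.con h c1 subset_rfl, c2⟩
  rcases m with _ | m
  · exact ⟨∅, empty_subset _, fun _ => ∅, Fin.elim0, fun i => i.elim0, by simp [Skew, con],
      fun i => i.elim0, fun i => i.elim0, fun i => i.elim0⟩
  obtain ⟨B, hB⟩ : ∃ B : Fin M → Finset α, ∀ a, B a = insert (x a) (D a) := ⟨_, fun _ => rfl⟩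
  have bf : ∀ a, B a ⊆ F a := fun a => hB a ▸ insert_subset (mem_sdiff.1 (hH.xmem a)).1 (hH.dsub a)
  have db : ∀ a, D a ⊆ B a := fun a => hB a ▸ subset_insert _ _
  have xb : ∀ a, x a ∈ B a := fun a => hB a ▸ mem_insert_self _ _
  have sp : ∀ a, ∀ e ∈ F a, Cl r (B a) e := fun a => hB a ▸ hH.span a
  have b0 : ∀ a, B a ⊆ univ.biUnion B := fun a => subset_biUnion_of_mem B (mem_univ a)
  have pb : ∀ a b, ∀ z ∈ B a, z ∈ B b → a = b := fun a b z h1 h2 => by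
    by_contra ne
    exact disjoint_left.1 (hH.pd a b ne) (bf a h1) (bf b h2)
  have hi : Ind r (univ.biUnion B) := h.skew_ind (h.skew_sub hH.skew subset_rfl fun a _ => bf a)
    fun a _ => hB a ▸ h.ind_insert (hH.ind a) (hH.nl a _ (hH.xmem a))
  have sp' : ∀ s : Finset (Fin M), ∀ e ∈ s.biUnion F, Cl r (s.biUnion B) e := fun s e he => by
    obtain ⟨a, ha, k⟩ := mem_biUnion.1 he
    exact h.cl_mono (subset_biUnion_of_mem B ha) (sp a e k)
  obtain ⟨s, hs⟩ : ∃ s : Finset (Fin M × Fin M), ∀ e, e ∈ s ↔ e.1 < e.2 :=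
    ⟨univ.filter fun e => e.1 < e.2, by simp⟩
  obtain ⟨T, hT⟩ : ∃ T, T = s.biUnion Y := ⟨_, rfl⟩
  have t1 : ∀ e ∈ s, Y e ⊆ T := fun e he => hT ▸ subset_biUnion_of_mem Y he
  have t2 : ∀ z ∈ T, z ∈ E \ univ.biUnion F ∧ Cl r (univ.biUnion B) z := fun z hz => by
    obtain ⟨e, he, k⟩ := mem_biUnion.1 (hT ▸ hz)
    obtain ⟨a1, -, a2, -⟩ := hY e.1 e.2 ((hs e).1 he)
    exact ⟨a1 k, h.cl_trans (sp' univ) (a2 z k)⟩
  have bf0 : univ.biUnion B ⊆ univ.biUnion F := biUnion_mono fun a _ => bf a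
  have d0 : Disjoint (univ.biUnion B) T := disjoint_left.2 fun z a b =>
    (mem_sdiff.1 (t2 z b).1).2 (bf0 a)
  have e0 : univ.biUnion B ∪ T ⊆ E := union_subset (biUnion_subset.2 fun a _ =>
    (bf a).trans (hH.sub a)) fun z hz => (mem_sdiff.1 (t2 z hz).1).1
  have hb := h.bm hi fun z hz => (t2 z hz).2
  have k1 : ∀ a, ∀ Z ⊆ T, Ind (con r ((univ.erase a).biUnion F)) Z →
      (Z.card : ℤ) ≤ bm r (univ.biUnion B) T (D a) Z + 1 := fun a Z hZ k => by
    have e1 : univ.biUnion B \ B a = (univ.erase a).biUnion B := by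
      ext z
      simp only [mem_sdiff, mem_biUnion, mem_univ, true_and, mem_erase, and_true]
      exact ⟨fun ⟨⟨b, k1⟩, k2⟩ => ⟨b, fun e => k2 (e ▸ k1), k1⟩,
        fun ⟨b, k1, k2⟩ => ⟨⟨b, k2⟩, fun k3 => k1 (pb b a z k2 k3)⟩⟩
    rw [h.con_congr (sp' _) fun e he => cl_mem (biUnion_mono (fun a _ => bf a) he), ← e1] at k
    have h1 := (hb.row Z).unit (x a) (D a)
    have h2 := h.ind_sub hi (sdiff_subset (t := B a))
    simp only [tr, ← hB] at h1
    rw [bm_eq hZ] at h1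
    unfold Ind con at *; omega
  obtain ⟨L, R, Y', w1, w2⟩ := hg α α _ (bm r (univ.biUnion B) T) (univ.biUnion B) T s
    (fun e => D e.1) (fun e => D e.2) Y hb (hF.bm h hi e0 d0) (by simpa using card_le_univ s)
    fun e he => by
      obtain ⟨-, a1, -, a2, a3⟩ := hY e.1 e.2 ((hs e).1 he)
      exact ⟨(db _).trans (b0 _), (db _).trans (b0 _), t1 e he, a1.ge, k1 _ _ (t1 e he) a2,
        fun Z hZ => k1 _ _ (hZ.trans (t1 e he)) ((h.con _).ind_sub a3 hZ)⟩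
  have en : ∀ (V : Fin M × Fin M → Finset α), (∀ e ∈ s, (V e).card = p) →
      ∃ w : Fin M × Fin M → Fin p → α, ∀ e ∈ s,
        Function.Injective (w e) ∧ (∀ k, w e k ∈ V e) ∧ ∀ z ∈ V e, ∃ k, w e k = z := fun V hV => by
    have : ∀ e, ∃ w : Fin p → α, e ∈ s →
        Function.Injective w ∧ (∀ k, w k ∈ V e) ∧ ∀ z ∈ V e, ∃ k, w k = z := fun e => by
      by_cases k : e ∈ s
      · obtain ⟨w, hw⟩ := gr_enum (hV e k)
        exact ⟨w, fun _ => hw⟩
      · exact ⟨fun _ => x e.1, fun c => absurd c k⟩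
    choose w hw using this
    exact ⟨w, hw⟩
  obtain ⟨V, hV⟩ : ∃ V : Bool → Fin M × Fin M → Finset α, V true = L ∧ V false = R :=
    ⟨fun σ => if σ then L else R, rfl, rfl⟩
  choose w hw using fun σ => en (V σ) fun e he => by
    cases σ
    · exact hV.2 ▸ (w1 e he).2.2.2.2.1
    · exact hV.1 ▸ (w1 e he).2.2.2.1
  obtain ⟨c, hc⟩ := en Y' fun e he => (w1 e he).2.2.2.2.2.1
  obtain ⟨Φ, f1, f2⟩ : ∃ Φ : Lab Empty Unit (Bool × Fin p) (Fin M) → α,
      (∀ o a, Φ (Lab.o o a) = x a) ∧ ∀ κ a b, Φ (Lab.p κ a b) = w κ.1 (a, b) κ.2 :=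
    ⟨Sum.elim Empty.elim (Sum.elim (fun z => x z.2) fun z => w z.1.1 z.2 z.1.2),
      fun _ _ => rfl, fun _ _ _ => rfl⟩
  obtain ⟨G, g1⟩ : ∃ G : Lab Empty Empty (Fin p) (Fin M) → α,
      ∀ κ a b, G (Lab.p κ a b) = c (a, b) κ :=
    ⟨Sum.elim Empty.elim (Sum.elim (fun z => z.1.elim) fun z => c z.2 z.1), fun _ _ _ => rfl⟩
  have hs' : ∀ {a b : Fin M}, a < b → (a, b) ∈ s := fun k => (hs _).2 k
  have v1 : ∀ σ a b, a < b → V σ (a, b) ⊆ D (if σ then a else b) ∧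
      V σ (a, b) ⊆ L (a, b) ∪ R (a, b) := fun σ a b k => by
    cases σ
    · rw [hV.2]; exact ⟨(w1 _ (hs' k)).2.1, subset_union_right⟩
    · rw [hV.1]; exact ⟨(w1 _ (hs' k)).1, subset_union_left⟩
  have f3 : ∀ κ a b, a < b → Φ (Lab.p κ a b) ∈ V κ.1 (a, b) := fun κ a b k =>
    f2 κ a b ▸ (hw _ _ (hs' k)).2.1 _
  have f4 : ∀ l, l.valid → Φ l ∈ B (l.hub Prod.fst) := fun l hl => by
    rcases arr_lab hl with ⟨o, a, rfl⟩ | ⟨κ, a, b, k, rfl⟩
    · exact f1 o a ▸ xb a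
    · exact db _ ((v1 _ a b k).1 (f3 κ a b k))
  have g2 : ∀ κ a b, a < b → G (Lab.p κ a b) ∈ Y' (a, b) := fun κ a b k =>
    g1 κ a b ▸ (hc _ (hs' k)).2.1 _
  have g3 : ∀ a b, a < b → ∀ l ∈ cell {a, b}, G l ∈ Y' (a, b) := fun a b k l hl => by
    obtain ⟨l1, l2⟩ := cl_mem_cell.1 hl
    obtain ⟨κ, i, j, k', rfl⟩ := arr_lab' l2
    obtain ⟨rfl, rfl⟩ := arr_pair k' k l1
    exact g2 κ i j k
  have g4 : ∀ a b, a < b → (cell {a, b}).image G = Y' (a, b) := fun a b k => by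
    refine subset_antisymm (fun z hz => ?_) fun z hz => ?_
    · obtain ⟨l, hl, rfl⟩ := mem_image.1 hz
      exact g3 a b k l hl
    · obtain ⟨κ, rfl⟩ := (hc _ (hs' k)).2.2 z hz
      exact mem_image.2 ⟨Lab.p κ a b, cl_mem_cell.2 ⟨rfl, k⟩, g1 κ a b⟩
  have g5 : ∀ a b a' b', a < b → a' < b' → ∀ z ∈ Y' (a, b), z ∈ Y' (a', b') → a = a' ∧ b = b' :=
    fun a b a' b' k k' z h1 h2 => by
      by_contra ne
      exact disjoint_left.1 (py (a, b) (a', b') fun e => ne (Prod.mk.inj e))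
        ((w1 _ (hs' k)).2.2.1 h1) ((w1 _ (hs' k')).2.2.1 h2)
  have gi : Set.InjOn G {l | l.valid} := fun l hl l' hl' e => by
    obtain ⟨κ, a, b, k, rfl⟩ := arr_lab' hl
    obtain ⟨κ', a', b', k', rfl⟩ := arr_lab' hl'
    obtain ⟨rfl, rfl⟩ := g5 a b a' b' k k' _ (g2 κ a b k) (e ▸ g2 κ' a' b' k')
    rw [g1, g1] at e
    rw [(hc _ (hs' k)).1 e]
  have fi : Set.InjOn Φ {l | l.valid} := fun l hl l' hl' e => by
    have e' := pb _ _ _ (f4 l hl) (e ▸ f4 l' hl')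
    rcases arr_lab hl with ⟨o, a, rfl⟩ | ⟨κ, a, b, k, rfl⟩ <;>
      rcases arr_lab hl' with ⟨o', a', rfl⟩ | ⟨κ', a', b', k', rfl⟩
    · exact congrArg (Lab.o ()) e'
    · have := (v1 _ a' b' k').1 (f3 κ' a' b' k')
      change a = if κ'.1 then a' else b' at e'
      rw [← e, f1, ← e'] at this
      exact absurd this (mem_sdiff.1 (hH.xmem a)).2
    · have := (v1 _ a b k).1 (f3 κ a b k)
      change (if κ.1 then a else b) = a' at e'
      rw [e, f1, e'] at this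
      exact absurd this (mem_sdiff.1 (hH.xmem a')).2
    · obtain ⟨rfl, rfl⟩ : a = a' ∧ b = b' := by
        by_contra ne
        exact disjoint_left.1 (w2 _ (hs' k) _ (hs' k') fun e => ne (Prod.mk.inj e)).1
          ((v1 _ a b k).2 (f3 κ a b k)) (e ▸ (v1 _ a' b' k').2 (f3 κ' a' b' k'))
      obtain ⟨σ, κ⟩ := κ
      obtain ⟨σ', κ'⟩ := κ'
      obtain rfl : σ = σ' := by
        change (if σ then a else b) = if σ' then a else b at e'
        cases σ <;> cases σ' <;> simp [k.ne, k.ne'] at e' ⊢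
      rw [f2, f2] at e
      obtain rfl : κ = κ' := (hw _ _ (hs' k)).1 e
      rfl
  obtain ⟨u, R0, K, a1, a2, a3, a4⟩ := hM α r E _ T Φ G h hF hi (fun z hz => (t2 z hz).2) e0 d0 fi gi
    (fun l hl => b0 _ (f4 l hl)) (fun l hl => by
      obtain ⟨κ, a, b, k, rfl⟩ := arr_lab' hl
      exact t1 _ (hs' k) ((w1 _ (hs' k)).2.2.1 (g2 κ a b k))) (fun t t' ne => by
      rcases (cell t : Finset (Lab Empty Unit (Bool × Fin p) (Fin M))).eq_empty_or_nonempty with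
        e | ⟨l, hl⟩
      · rw [e, image_empty, hb.emp_l]; positivity
      rcases (cell t' : Finset (Lab Empty Empty (Fin p) (Fin M))).eq_empty_or_nonempty with
        e | ⟨l', hl'⟩
      · rw [e, image_empty, hb.emp_r]; positivity
      obtain ⟨rfl, l2⟩ := cl_mem_cell.1 hl
      obtain ⟨rfl, l2'⟩ := cl_mem_cell.1 hl'
      obtain ⟨κ', a', b', k', rfl⟩ := arr_lab' l2'
      rcases arr_lab l2 with ⟨o, a, rfl⟩ | ⟨κ, a, b, k, rfl⟩
      · refine (hb.mono (R' := {x a}) (fun z hz => ?_) subset_rfl).trans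
          ((hb.le_l _ _).trans (by simp))
        obtain ⟨l, hl, rfl⟩ := mem_image.1 hz
        obtain ⟨l3, l4⟩ := cl_mem_cell.1 hl
        rcases arr_lab l4 with ⟨o, i, rfl⟩ | ⟨κ, i, j, k, rfl⟩
        · rw [f1, singleton_injective l3]; exact mem_singleton_self _
        · exact absurd l3 (arr_single k)
      · refine (hb.mono (fun z hz => ?_) (g4 a' b' k').le).trans ((w2 _ (hs' k) _ (hs' k')
          fun e => ne (by obtain ⟨rfl, rfl⟩ := Prod.mk.inj e; rfl)).2.trans (by omega))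
        obtain ⟨l, hl, rfl⟩ := mem_image.1 hz
        obtain ⟨l3, l4⟩ := cl_mem_cell.1 hl
        rcases arr_lab l4 with ⟨o, i, rfl⟩ | ⟨κ, i, j, k'', rfl⟩
        · exact absurd l3.symm (arr_single k)
        · obtain ⟨rfl, rfl⟩ := arr_pair k'' k l3
          exact (v1 _ i j k).2 (f3 κ i j k)) (fun t => by
      rcases (cell t : Finset (Lab Empty Empty (Fin p) (Fin M))).eq_empty_or_nonempty with
        e | ⟨l', hl'⟩
      · rw [e]; simp
      obtain ⟨rfl, l2'⟩ := cl_mem_cell.1 hl'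
      obtain ⟨κ', a, b, k, rfl⟩ := arr_lab' l2'
      change _ ≤ p ∧ (_ → ∀ i ∈ ({a, b} : Finset (Fin M)), (p : ℤ) ≤ bm r _ T
        (((cell {a, b}).filter fun l => l.hub Prod.fst = i).image Φ) ((cell {a, b}).image G))
      refine ⟨?_, fun _ i hi => ?_⟩
      · rw [← card_image_of_injOn (gi.mono fun l hl => (cl_mem_cell.1 hl).2)]
        exact ((congrArg card (g4 a b k)).trans (w1 _ (hs' k)).2.2.2.2.2.1).le
      have key : ∀ σ, V σ (a, b) ⊆ ((cell {a, b}).filter fun l =>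
          l.hub Prod.fst = if σ then a else b).image Φ := fun σ z hz => by
        obtain ⟨κ, rfl⟩ := (hw σ _ (hs' k)).2.2 z hz
        exact mem_image.2 ⟨Lab.p (σ, κ) a b, mem_filter.2 ⟨cl_mem_cell.2 ⟨rfl, k⟩, rfl⟩, f2 _ a b⟩
      rw [g4 a b k]
      rcases mem_insert.1 hi with rfl | hi
      · rw [← (w1 _ (hs' k)).2.2.2.2.2.2.1]
        exact hb.mono (hV.1 ▸ key true) subset_rfl
      · rw [← (w1 _ (hs' k)).2.2.2.2.2.2.2, mem_singleton.1 hi]
        exact hb.mono (hV.2 ▸ key false) subset_rfl)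
  have ui : ∀ i, u i ∈ univ.image u := fun i => mem_image_of_mem _ (mem_univ i)
  have : ∀ a b, ∃ y, a < b → y ∈ Y' (u a, u b) ∧ y ∉ K ∧
      (∃ Z, (∀ z ∈ (ovr (univ.image u)).image Φ, z ∈ Z ∨ z ∈ B (u a) ∨ z ∈ B (u b)) ∧
        Cl r (K ∪ univ.biUnion B \ (R0 ∪ Z)) y) ∧
      ∀ i, i = a ∨ i = b → ∃ Z, Z ⊆ (ovr (univ.image u)).image Φ ∧ Z ⊆ B (u i) ∧
        ¬ Cl r (K ∪ univ.biUnion B \ (R0 ∪ Z)) y := fun a b => by
    by_cases k : a < b
    · have k' : u a < u b := u.strictMono k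
      obtain ⟨y, y1, y2, y3, y4⟩ := a4 {u a, u b}
        (insert_subset (ui a) (singleton_subset_iff.2 (ui b)))
        ⟨Lab.p ⟨0, p0⟩ (u a) (u b), cl_mem_cell.2 ⟨rfl, k'⟩⟩
      refine ⟨G y, fun _ => ⟨g3 _ _ k' y y1, y2, ⟨_, fun z hz => ?_, y3⟩, fun i hi =>
        ⟨_, image_subset_image (filter_subset _ _), fun z hz => ?_, y4 (u i) (by grind)⟩⟩⟩
      · obtain ⟨l, hl, rfl⟩ := mem_image.1 hz
        by_cases c : l.hub Prod.fst ∈ ({u a, u b} : Finset (Fin M))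
        · have := f4 l (cl_mem_ovr.1 hl).2
          rw [mem_insert, mem_singleton] at c
          rcases c with c | c <;> rw [c] at this
          exacts [.inr (.inl this), .inr (.inr this)]
        · exact .inl (mem_image_of_mem _ (mem_filter.2 ⟨hl, c⟩))
      · obtain ⟨l, hl, rfl⟩ := mem_image.1 hz
        obtain ⟨l1, l2⟩ := mem_filter.1 hl
        exact l2 ▸ f4 l (cl_mem_ovr.1 l1).2
    · exact ⟨x (u a), fun c => absurd c k⟩
  choose y hy using this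
  refine arr_fin h hH hB u (B' := (ovr (univ.image u)).image Φ) (fun i => disjoint_left.2
    fun z h1 h2 => ?_) (fun z hz => (t2 z (a2 hz)).1) a3 (fun i => mem_image.2 ⟨Lab.o () (u i),
      cl_mem_ovr.2 ⟨singleton_subset_iff.2 (ui i), trivial⟩, f1 _ _⟩) y
    (fun a b a' b' k k' e => ?_) fun a b k => ⟨(t2 _ (t1 _ (hs' (u.strictMono k))
      ((w1 _ (hs' (u.strictMono k))).2.2.1 (hy a b k).1))).1, (hy a b k).2⟩
  · obtain ⟨l, l1, l2, rfl⟩ := a1 z h1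
    exact l2 (pb _ _ _ h2 (f4 l l1) ▸ ui i)
  · exact (g5 _ _ _ _ (u.strictMono k) (u.strictMono k') _ (hy a b k).1
      (e ▸ (hy a' b' k').1)).imp (fun e => u.injective e) fun e => u.injective e

end Pool.Agent.Lib.MP_a4b0c4_co.J
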