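import Pool.Agent.Lib.MP_a4b0c4_co.JDefs

set_option autoImplicit false
set_option linter.unusedSectionVars false
set_option linter.unusedVariables false

open Finset

namespace Pool.Agent.Lib.MP_a4b0c4_co.J

/-- Ramsey theorem for increasing tuples -/
def StRamsey : Prop :=
  ∀ (k m : ℕ) (κ : Type) [Fintype κ], ∃ N : ℕ, ∀ χ : (Fin k → Fin N) → κ,
    ∃ g : Fin m ↪o Fin N, ∀ f f' : Fin k ↪o Fin m, χ (fun i => g (f i)) = χ (fun i => g (f' i))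

/-- Ramsey theorem for all set sizes up to M at once -/
def StRamseyMulti : Prop :=
  ∀ (M m : ℕ) (κ : Type) [Fintype κ], ∃ N : ℕ, ∀ χ : Finset (Fin N) → κ,
    ∃ g : Fin m ↪o Fin N, ∀ s t : Finset (Fin m), s.card = t.card → s.card ≤ M →
      χ (s.image g) = χ (t.image g)

/-- extraction of an order invariant limit over the reals -/
def StLimit : Prop :=
  ∀ (n : ℕ) (A B C A' B' C' : Type) [Fintype A] [Fintype B] [Fintype C] [Fintype A'] [Fintype B']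
    [Fintype C'] [DecidableEq A] [DecidableEq B] [DecidableEq C] [DecidableEq A'] [DecidableEq B']
    [DecidableEq C']
    (K : ∀ N : ℕ, (Finset (Lab A B C (Fin N)) → Finset (Lab A' B' C' (Fin N)) → ℤ) → Prop),
    (∀ N, ∃ ρ, K N ρ ∧ BM ρ ∧ FreeB n ρ {l | l.valid} {l | l.valid}) →
    ∃ ρ : Finset (Lab A B C ℝ) → Finset (Lab A' B' C' ℝ) → ℤ,
      Inv ρ ∧ BM ρ ∧ FreeB n ρ {l | l.valid} {l | l.valid} ∧
      ∀ s : Finset ℝ, ∃ (N : ℕ) (ρ' : Finset (Lab A B C (Fin N)) → Finset (Lab A' B' C' (Fin N)) → ℤ)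
        (φ : ℝ → Fin N), K N ρ' ∧ StrictMonoOn φ s ∧
        ∀ R Y, R.biUnion Lab.supp ⊆ s → Y.biUnion Lab.supp ⊆ s →
          ρ R Y = ρ' (R.image (Lab.map φ)) (Y.image (Lab.map φ))

/-- many elements of bounded rank contain a large set of rank less than n -/
def StR0 : Prop :=
  ∀ n p q : ℕ, ∃ g : ℕ, ∀ (α : Type) [DecidableEq α] (r : Finset α → ℤ) (E Y : Finset α),
    Rk r → Free n r E → Y ⊆ E → r Y ≤ p → g ≤ Y.card → ∃ Y' ⊆ Y, Y'.card = q ∧ r Y' < n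

/-- a large connected matroid has a large parallel class or circuit as a minor -/
def StBig : Prop :=
  ∀ s : ℕ, ∃ f : ℕ, ∀ (α : Type) [DecidableEq α] (r : Finset α → ℤ) (P : Finset α),
    Rk r → Cntd r P → f ≤ P.card → ∃ K J, K ⊆ P ∧ J ⊆ P \ K ∧ J.card = s ∧
      (Par (con r K) J ∨ Circ (con r K) J)

/-- frame on a complete bipartite graph -/
def StFK : Prop :=
  ∀ n : ℕ, ∃ m : ℕ, ∀ ρ : Finset (Fin m ⊕ Fin m) → Finset (Fin m × Fin m) → ℤ,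
    BM ρ → FreeB n ρ Set.univ Set.univ →
    (∀ v e, ρ {v} {e} = if v = Sum.inl e.1 ∨ v = Sum.inr e.2 then 1 else 0) → False

section Strip
variable {T Θ S Γ ι : Type} [Fintype T] [Fintype S] [DecidableEq T] [DecidableEq Θ]
  [DecidableEq S] [DecidableEq Γ] [LinearOrder ι]

/-- labels with one index -/
def ls {A B : Type} [DecidableEq A] [DecidableEq B] (Y : Finset (B × ι)) :
    Finset (Lab A B Empty ι) := Y.image fun x => Lab.o x.1 x.2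
/-- global labels -/
def gs (A B : Type) [Fintype A] [DecidableEq A] [DecidableEq B] : Finset (Lab A B Empty ι) :=
  univ.image Lab.g

/-- strip: rows see only earlier columns, global rows and columns are faithful -/
structure StripP (ρ : Finset (Lab T Θ Empty ι) → Finset (Lab S Γ Empty ι) → ℤ) : Prop where
  zero : ∀ τ β σ α, β < α → ρ {Lab.o τ β} {Lab.o σ α} = 0
  fa : ∀ (D : Finset (Θ × ι)) (Y : Finset (Γ × ι)), (∀ y ∈ Y, ∀ d ∈ D, y.2 < d.2) →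
    ρ (gs T Θ ∪ ls D) (ls Y) = ρ (gs T Θ) (ls Y)
  fb : ∀ (D : Finset (Θ × ι)) (Y : Finset (Γ × ι)), (∀ y ∈ Y, ∀ d ∈ D, y.2 < d.2) →
    ρ (ls D) (gs S Γ ∪ ls Y) = ρ (ls D) (gs S Γ)

/-- row type τ sees column type σ -/
def sees (ρ : Finset (Lab T Θ Empty ℝ) → Finset (Lab S Γ Empty ℝ) → ℤ) (τ : Θ) (σ : Γ) : Prop :=
  ρ {Lab.o τ 1} {Lab.o σ 0} = 1

end Strip

/-- strip theorem -/
def StStrip : Prop :=
  ∀ n : ℕ, ∃ w : ℕ, ∀ (T Θ S Γ : Type) [Fintype T] [Fintype S] [Fintype Θ] [Fintype Γ]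
    [DecidableEq T] [DecidableEq Θ] [DecidableEq S] [DecidableEq Γ]
    (ρ : Finset (Lab T Θ Empty ℝ) → Finset (Lab S Γ Empty ℝ) → ℤ),
    Inv ρ → BM ρ → FreeB n ρ Set.univ Set.univ → StripP ρ →
    (∀ (Θ' : Set Θ) (Γ' : Set Γ), (∀ τ σ, sees ρ τ σ → (τ ∈ Θ' ↔ σ ∈ Γ')) →
      Γ' = ∅ ∨ Γ' = Set.univ) →
    (∃ Y : Finset (Γ × ℝ), (w : ℤ) ≤ ρ (gs T Θ) (ls Y)) → False

/-- hub case of the strip theorem -/
def StS1 : Prop :=
  ∀ n : ℕ, ∃ w : ℕ, ∀ (T Θ S Γ : Type) [Fintype T] [Fintype S] [Fintype Θ] [Fintype Γ]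
    [DecidableEq T] [DecidableEq Θ] [DecidableEq S] [DecidableEq Γ]
    (ρ : Finset (Lab T Θ Empty ℝ) → Finset (Lab S Γ Empty ℝ) → ℤ),
    Inv ρ → BM ρ → FreeB n ρ Set.univ Set.univ → StripP ρ →
    ∀ (τ : Θ) (Y : Finset (Γ × ℝ)), (∀ y ∈ Y, sees ρ τ y.1) → (w : ℤ) ≤ ρ (gs T Θ) (ls Y) → False

/-- ladder: column types 0..L, row types 1..L, row type i sees column types i-1 and i -/
structure Lad (n L : ℕ) (ρ : Finset (ℕ × ℝ) → Finset (ℕ × ℝ) → ℤ) : Prop where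
  bm : BM ρ
  free : FreeB n ρ {d | 1 ≤ d.1 ∧ d.1 ≤ L} {c | c.1 ≤ L}
  inv : ∀ (φ : ℝ → ℝ) (D Y : Finset (ℕ × ℝ)),
    StrictMonoOn φ ↑(D.image Prod.snd ∪ Y.image Prod.snd) →
    ρ (D.image (Prod.map id φ)) (Y.image (Prod.map id φ)) = ρ D Y
  zero : ∀ d c : ℕ × ℝ, d.2 < c.2 → ρ {d} {c} = 0
  pat : ∀ d c : ℕ × ℝ, 1 ≤ d.1 → d.1 ≤ L → c.1 ≤ L → c.2 < d.2 →
    ρ {d} {c} = if c.1 = d.1 ∨ c.1 + 1 = d.1 then 1 else 0
  bdd : ∃ K : ℕ, ∀ D Y : Finset (ℕ × ℝ), (∀ y ∈ Y, ∀ d ∈ D, y.2 < d.2) → ρ D Y ≤ K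

/-- two rows of type i have rank two on earlier columns -/
def f2 (ρ : Finset (ℕ × ℝ) → Finset (ℕ × ℝ) → ℤ) (i : ℕ) : Prop :=
  ∃ Y : Finset (ℕ × ℝ), (∀ y ∈ Y, y.2 < 0 ∧ (y.1 = i ∨ y.1 + 1 = i)) ∧ ρ {(i, 0), (i, 1)} Y = 2
/-- two columns of type i have rank two on later rows -/
def v2 (ρ : Finset (ℕ × ℝ) → Finset (ℕ × ℝ) → ℤ) (i : ℕ) : Prop :=
  ∃ D : Finset (ℕ × ℝ), (∀ d ∈ D, 1 < d.2 ∧ (d.1 = i ∨ d.1 = i + 1)) ∧ ρ D {(i, 0), (i, 1)} = 2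

def StSA : Prop :=
  ∀ n : ℕ, ∃ L : ℕ, ∀ ρ, Lad n L ρ → (∀ i, 1 ≤ i → i ≤ L → ¬ f2 ρ i) → False
def StSU : Prop :=
  ∀ n l : ℕ, ∃ L : ℕ, ∀ ρ, Lad n L ρ →
    (∀ a, a + l + 1 ≤ L → (∃ i, a < i ∧ i ≤ a + l ∧ f2 ρ i) ∧ ∃ i, a < i ∧ i ≤ a + l ∧ v2 ρ i) →
    False
def StS3 : Prop := ∀ n : ℕ, ∃ L : ℕ, ∀ ρ, Lad n L ρ → False

/-- the engine -/
def StEngine : Prop :=
  ∀ n ν γ : ℕ, ∃ k t : ℕ, ∀ (α : Type) [DecidableEq α] (κ : Type) [Fintype κ] [DecidableEq κ]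
    (r : Finset α → ℤ) (E S T R : Finset α) (P : Fin t × κ → Finset α),
    Fintype.card κ ≤ ν → Rk r → Free n r E → S ⊆ E → T ⊆ E → Disjoint S T → R ⊆ E →
    (∀ x, P x ⊆ E \ (S ∪ T ∪ R)) → PD P → Conn r E S T k →
    (∀ x, Cntd (con r R) (P x)) → Skew (con r R) univ P →
    (∀ i, ∃ Z, S ⊆ Z ∧ Z ⊆ (E \ univ.biUnion fun j => P (i, j)) \ T ∧
      lam (con r (univ.biUnion fun j => P (i, j))) (E \ univ.biUnion fun j => P (i, j)) Z +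
        loc r (univ.biUnion fun j => P (i, j)) R < γ) → False

/-- any b members of the family make the others skew -/
def KS {α ι : Type} [DecidableEq α] [Fintype ι] [DecidableEq ι] (r : Finset α → ℤ)
    (A : ι → Finset α) (b : ℕ) : Prop :=
  ∀ (J : Finset ι) (a : ι), b ≤ J.card → a ∉ J →
    con r (J.biUnion A) (A a) = con r ((univ.erase a).biUnion A) (A a)

def StK : Prop :=
  ∀ (β : ℕ) (f : ℕ → ℕ), ∃ N bm : ℕ, ∀ (α : Type) [DecidableEq α] (r : Finset α → ℤ)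
    (A : Fin N → Finset α), Rk r → (∀ a, loc r (A a) ((univ.erase a).biUnion A) ≤ β) →
    ∃ b ≤ bm, ∃ u : Fin (b + f b) ↪o Fin N, KS r (fun i => A (u i)) b

/-- a few elements spanned by F can be produced from a set of large nullity, keeping connectivity -/
def StPW : Prop :=
  ∀ n q g γ : ℕ, ∃ k K : ℕ, ∀ (α : Type) [DecidableEq α] (π : Type) [Fintype π]
    (r : Finset α → ℤ) (E F C : Finset α) (O S T : π → Finset α),
    Fintype.card π ≤ q → Rk r → Free n r E → F ⊆ E →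
    (∀ x, O x ∪ S x ∪ T x = F ∧ Disjoint (O x) (S x) ∧ Disjoint (O x) (T x) ∧ Disjoint (S x) (T x)) →
    (∀ x, Conn (con r (O x)) (E \ O x) (S x) (T x) k) → C ⊆ E \ F →
    (K : ℤ) ≤ C.card - con r F C →
    ∃ C0 Y, C0 ⊆ C ∧ Y ⊆ C ∧ Disjoint C0 Y ∧ Y.card = g ∧ Ind (con r F) C0 ∧
      (∀ y ∈ Y, Cl r (F ∪ C0) y) ∧
      ∀ x, Conn (con r (O x ∪ C0)) (E \ (O x ∪ C0 ∪ Y)) (S x) (T x) γ

/-- port lemma -/
def StPort : Prop :=
  ∀ (α : Type) [DecidableEq α] (ι : Type) [DecidableEq ι] (r : Finset α → ℤ) (E T : Finset α)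
    (W : Finset ι) (F B : ι → Finset α) (γ : ℕ),
    Rk r → PD F → (∀ a ∈ W, B a ⊆ F a ∧ F a ⊆ E \ T ∧ ∀ e ∈ F a, Cl r (B a) e) → T ⊆ E →
    Ind r (W.biUnion B) →
    (∃ L ⊆ W, L.card < γ ∧
      ¬ Conn (con r (L.biUnion F)) (E \ L.biUnion F) ((W \ L).biUnion F) T γ) ∨
    ∃ V ⊆ W, V.card = γ ∧ ∃ (y : ι → α) (C T' : Finset α), (∀ a ∈ V, y a ∈ B a) ∧
      C ⊆ E \ W.biUnion F ∧ T' ⊆ T ∧ Disjoint C T' ∧ T'.card = γ ∧ Ind r (W.biUnion B ∪ C) ∧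
      (∀ t ∈ T', Cl r (W.biUnion B ∪ C) t) ∧ Ind r ((W.biUnion B \ V.image y) ∪ C ∪ T')

section Str
variable {α : Type} [DecidableEq α]

/-- m skew connected clusters of size j inside X in a contraction -/
def Real (r : Finset α → ℤ) (E X : Finset α) (j m : ℕ) : Prop :=
  ∃ (C : Finset α) (N : Fin m → Finset α), C ⊆ E ∧ PD N ∧
    (∀ a, N a ⊆ X ∧ (N a).card = j ∧ Disjoint (N a) C ∧ Cntd (con r C) (N a)) ∧
    Skew (con r C) univ N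

/-- bounded hubs with ports linked to fresh elements of X -/
def Sig (r : Finset α → ℤ) (E X : Finset α) (j γ : ℕ) : Prop :=
  ∃ (H B N : Fin γ → Finset α) (y : Fin γ → α) (T : Finset α), PD H ∧
    (∀ a, N a ⊆ H a ∧ N a ⊆ X ∧ (N a).card = j ∧ (H a).card ≤ j + 1 ∧ H a ⊆ E \ T ∧ Cntd r (H a) ∧
      B a ⊆ H a ∧ (∀ e ∈ H a, Cl r (B a) e) ∧ y a ∈ B a) ∧
    T ⊆ X ∧ T ⊆ E ∧ T.card = γ ∧ Ind r (univ.biUnion B) ∧ (∀ t ∈ T, Cl r (univ.biUnion B) t) ∧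
    Ind r ((univ.biUnion B \ univ.image y) ∪ T)

/-- hubs that stay connected when part of D is contracted -/
structure Hubs {m : ℕ} (r : Finset α → ℤ) (E : Finset α) (F D : Fin m → Finset α)
    (x : Fin m → α) : Prop where
  sub : ∀ a, F a ⊆ E
  pd : PD F
  skew : Skew r univ F
  dsub : ∀ a, D a ⊆ F a
  xmem : ∀ a, x a ∈ F a \ D a
  ind : ∀ a, Ind r (D a)
  span : ∀ a, ∀ e ∈ F a, Cl r (insert (x a) (D a)) e
  nl : ∀ a, ∀ e ∈ F a \ D a, ¬ Cl r (D a) e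
  ncl : ∀ a, ∀ e ∈ D a, Cl r ((F a).erase e) e

/-- union of the hubs other than a and b -/
def oth {m : ℕ} (F : Fin m → Finset α) (a b : Fin m) : Finset α :=
  ((univ.erase a).erase b).biUnion F

def HubStr (r : Finset α → ℤ) (E : Finset α) (m K : ℕ) : Prop :=
  ∃ (F D : Fin m → Finset α) (x : Fin m → α), Hubs r E F D x ∧
    ∀ a b, a ≠ b → Conn (con r (oth F a b)) (E \ oth F a b) (F a) (F b) K

def LinkStr (r : Finset α → ℤ) (E : Finset α) (m g : ℕ) : Prop :=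
  ∃ (F D : Fin m → Finset α) (x : Fin m → α) (Y : Fin m × Fin m → Finset α), Hubs r E F D x ∧
    PD Y ∧ ∀ a b, a < b → Y (a, b) ⊆ E \ univ.biUnion F ∧ (Y (a, b)).card = g ∧
      (∀ y ∈ Y (a, b), Cl r (univ.biUnion F) y) ∧
      Ind (con r ((univ.erase a).biUnion F)) (Y (a, b)) ∧
      Ind (con r ((univ.erase b).biUnion F)) (Y (a, b))

def ArrStr (r : Finset α → ℤ) (E : Finset α) (m : ℕ) : Prop :=
  ∃ (H : Fin m → Finset α) (y : Fin m → Fin m → α), PD H ∧ Skew r univ H ∧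
    (∀ a, H a ⊆ E ∧ Cntd r (H a)) ∧
    (∀ a b a' b', a < b → a' < b' → y a b = y a' b' → a = a' ∧ b = b') ∧
    ∀ a b, a < b → y a b ∈ E \ univ.biUnion H ∧ Cl r (H a ∪ H b) (y a b) ∧
      ¬ Cl r ((univ.erase a).biUnion H) (y a b) ∧ ¬ Cl r ((univ.erase b).biUnion H) (y a b)

end Str

/-- cleaning of an array of cells -/
def StClean : Prop :=
  ∀ n D m : ℕ, ∃ p : ℕ, ∀ (X C Y1 Y2 : Type) [Fintype X] [Fintype C] [Fintype Y1] [Fintype Y2]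
    [DecidableEq X] [DecidableEq C] [DecidableEq Y1] [DecidableEq Y2] (side : C → Bool), ∃ N : ℕ,
    ∀ ρ : Finset (Lab Empty X C (Fin N)) → Finset (Lab Empty Y1 Y2 (Fin N)) → ℤ,
    BM ρ → FreeB n ρ {l | l.valid} {l | l.valid} →
    (∀ s s', s ≠ s' → ρ (cell s) (cell s') ≤ D) →
    (∀ s, ((cell s : Finset (Lab Empty Y1 Y2 (Fin N))).card ≤ p) ∧
      ((cell s : Finset (Lab Empty Y1 Y2 (Fin N))).Nonempty → ∀ i ∈ s,
        (p : ℤ) ≤ ρ ((cell s).filter fun l => l.hub side = i) (cell s))) →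
    ∃ (u : Fin m ↪o Fin N) (R0 : Finset (Lab Empty X C (Fin N)))
      (K : Finset (Lab Empty Y1 Y2 (Fin N))),
      (∀ l ∈ R0, l.valid ∧ l.hub side ∉ univ.image u) ∧ (∀ l ∈ K, l.valid) ∧
      R0.card = K.card ∧ ρ R0 K = K.card ∧
      ∀ s ⊆ univ.image u, (cell s : Finset (Lab Empty Y1 Y2 (Fin N))).Nonempty →
        ∃ y ∈ cell s, y ∉ K ∧
          ρ (R0 ∪ (ovr (univ.image u)).filter fun l => l.hub side ∉ s) (insert y K) = K.card ∧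
          ∀ i ∈ s, ρ (R0 ∪ (ovr (univ.image u)).filter fun l => l.hub side = i) (insert y K) =
            K.card + 1

/-- the pairwise refinement process -/
def StRefine : Prop :=
  ∀ (h : ℕ → ℕ → ℕ) (q p : ℕ), ∃ g : ℕ, ∀ (σ : Type) (le : σ → σ → Prop) (sz : σ → ℕ)
    (Good : σ → σ → Prop), (∀ x, le x x) → (∀ x y z, le x y → le y z → le x z) →
    (∀ x x' y y', le x' x → le y' y → Good x y → Good x' y') → (∀ x y, Good x y → Good y x) →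
    (∀ x a, a ≤ sz x → ∃ x', le x' x ∧ sz x' = a) →
    ∀ (ι : Type) (s : Finset ι) (x : ι → σ), s.card ≤ q → (∀ i ∈ s, g ≤ sz (x i)) →
    (∀ i ∈ s, ∀ j ∈ s, i ≠ j → ∀ y z a, le y (x i) → le z (x j) → h (sz y) a ≤ sz z →
      ∃ z', le z' z ∧ a ≤ sz z' ∧ Good y z') →
    ∃ x' : ι → σ, (∀ i ∈ s, le (x' i) (x i) ∧ sz (x' i) = p) ∧
      ∀ i ∈ s, ∀ j ∈ s, i ≠ j → Good (x' i) (x' j)

def StGrow2 : Prop :=
  ∀ n j m : ℕ, ∃ γ : ℕ, ∀ (α : Type) [DecidableEq α] (r : Finset α → ℤ) (E X : Finset α),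
    Rk r → Free n r E → Sig r E X j γ → Real r E X (j + 1) m

def StGrow : Prop :=
  ∀ n j m : ℕ, ∃ w : ℕ, ∀ (α : Type) [DecidableEq α] (r : Finset α → ℤ) (E X : Finset α),
    Rk r → Free n r E → X ⊆ E → WL r E X → w ≤ X.card → Real r E X j m

def StHub : Prop :=
  ∀ n m K : ℕ, ∃ j M : ℕ, ∀ (α : Type) [DecidableEq α] (r : Finset α → ℤ) (E X : Finset α),
    Rk r → Free n r E → X ⊆ E → WL r E X → Real r E X j M →
    ∃ (r' : Finset α → ℤ) (E' : Finset α), Rk r' ∧ Free n r' E' ∧ HubStr r' E' m K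

def StSeq : Prop :=
  ∀ n m g : ℕ, ∃ K : ℕ, ∀ (α : Type) [DecidableEq α] (r : Finset α → ℤ) (E : Finset α),
    Rk r → Free n r E → HubStr r E m K →
    ∃ (r' : Finset α → ℤ) (E' : Finset α), Rk r' ∧ Free n r' E' ∧ LinkStr r' E' m g

def StArr : Prop :=
  ∀ n m : ℕ, ∃ M g : ℕ, ∀ (α : Type) [DecidableEq α] (r : Finset α → ℤ) (E : Finset α),
    Rk r → Free n r E → LinkStr r E M g →
    ∃ (r' : Finset α → ℤ) (E' : Finset α), Rk r' ∧ Free n r' E' ∧ ArrStr r' E' m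

def StDich : Prop :=
  ∀ n : ℕ, ∃ m : ℕ, ∀ (α : Type) [DecidableEq α] (r : Finset α → ℤ) (E : Finset α),
    Rk r → Free n r E → ArrStr r E m → False

/-- the main theorem in rank form -/
def StMain : Prop :=
  ∀ n : ℕ, ∃ w : ℕ, ∀ (α : Type) [DecidableEq α] (r : Finset α → ℤ) (E X : Finset α),
    Rk r → X ⊆ E → WL r E X → w ≤ X.card → Out n r E

end Pool.Agent.Lib.MP_a4b0c4_co.J
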