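import Pool.Agent.Lib.MP_a4b0c4_co.JFK1
import Pool.Agent.Lib.MP_a4b0c4_co.JSpec

set_option autoImplicit false
set_option linter.unusedSectionVars false
set_option linter.unusedVariables false

open Finset

namespace Pool.Agent.Lib.MP_a4b0c4_co.J.F

abbrev E2 : Type := (Bool × ℕ × ℕ) × Bool

/-- right index of the middle vertex of a subdivided edge -/
def zz (x : E2) : ℤ := 2 * (Encodable.encode x.1 : ℤ) + (if x.2 then 1 else 0)

lemma zz_nn (x : E2) : 0 ≤ zz x := by unfold zz; split_ifs <;> omega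

lemma zz_inj {x y : E2} : zz x = zz y ↔ x = y := by
  refine ⟨fun k => ?_, fun k => k ▸ rfl⟩
  obtain ⟨g, b⟩ := x
  obtain ⟨g', b'⟩ := y
  unfold zz at k
  have : g = g' := Encodable.encode_injective (by split_ifs at k <;> dsimp only at k <;> omega)
  subst this
  cases b <;> cases b' <;> simp at k ⊢

lemma zz_tw (g : Bool × ℕ × ℕ) (b : Bool) :
    zz (g, !b) = zz (g, b) + 1 ∨ zz (g, b) = zz (g, !b) + 1 := by
  cases b <;> simp [zz]

def sd (x : E2 × Bool) : ℕ × ℕ := if x.2 then yy x.1.1 else xx x.1.1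

def ends3 (x : E2 × Bool) : Finset ((ℕ × ℕ) ⊕ E2) := {.inl (sd x), .inr x.1}

def emb3 (x : E2 × Bool) : ℤ × ℤ := (lf (sd x), zz x.1)

def psi3 : (ℕ × ℕ) ⊕ E2 → Bool × ℤ := Sum.elim (fun v => (false, lf v)) fun x => (true, zz x)

def phi3 : (ℕ × ℕ) ⊕ E2 → ℕ × ℕ := Sum.elim id fun x => xx x.1

lemma emb3_f (x : E2) : emb3 (x, false) = (lf (xx x.1), zz x) := by simp [emb3, sd]

lemma emb3_t (x : E2) : emb3 (x, true) = (lf (yy x.1), zz x) := by simp [emb3, sd]

lemma psi3_inj : Function.Injective psi3 := by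
  rintro (a | a) (b | b) k <;> simp [psi3, lf_inj, zz_inj] at k ⊢ <;> exact k

lemma kends_emb3 (x : E2 × Bool) : kends (emb3 x) = (ends3 x).image psi3 := by
  simp [kends, emb3, ends3, psi3]

lemma emb3_inj : Function.Injective emb3 := by
  rintro ⟨x, b⟩ ⟨y, c⟩ k
  simp only [emb3, Prod.mk.injEq, lf_inj, zz_inj] at k
  obtain ⟨k, rfl⟩ := k
  have := xx_ne x.1
  cases b <;> cases c <;> simp [sd] at k ⊢
  exacts [this k, this k.symm]

lemma bi_emb3 (Y : Finset (E2 × Bool)) :
    (Y.image emb3).biUnion kends = (Y.biUnion ends3).image psi3 := by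
  rw [image_biUnion, biUnion_image]
  simp only [kends_emb3]

lemma mem_ends3 {x : E2 × Bool} {a : (ℕ × ℕ) ⊕ E2} :
    a ∈ ends3 x ↔ a = .inl (sd x) ∨ a = .inr x.1 := by simp [ends3]

lemma inr_mem_ends3 {x : E2 × Bool} {y : E2} : .inr y ∈ ends3 x ↔ y = x.1 := by simp [ends3]

lemma sd_mem (x : E2 × Bool) : sd x ∈ gends x.1.1 := by
  unfold sd; split_ifs <;> simp [gends_eq]

lemma phi3_mem {x : E2 × Bool} {a : (ℕ × ℕ) ⊕ E2} (ha : a ∈ ends3 x) : phi3 a ∈ gends x.1.1 := by
  rcases mem_ends3.1 ha with rfl | rfl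
  · exact sd_mem x
  · simp [phi3, gends_eq]

variable {n : ℕ} {rk : Finset (ℤ × ℤ) → ℤ}

lemma KM.indep (k : KM n rk) (h4 : 4 ≤ rk (C4 0 1 2 3)) : False := by
  set r := pull rk emb3 with hr
  have h : Rk r := k.h.pull emb3
  set G : Finset (E2 × Bool) := G2 n ×ˢ univ with hG
  have mG : ∀ x : E2 × Bool, x ∈ G ↔ x.1 ∈ G2 n := fun x => by simp [hG]
  have hs : Star r G ends3 := star_pull k.h (k.star (G.image emb3)) psi3_inj
    fun e he => ⟨mem_image_of_mem _ he, kends_emb3 e⟩
  set K : Finset (E2 × Bool) := (G2 n).image fun x => (x, false) with hK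
  have mK : ∀ x : E2 × Bool, x ∈ K ↔ x.1 ∈ G2 n ∧ x.2 = false := fun x => by
    simp only [hK, mem_image]
    exact ⟨by rintro ⟨y, hy, rfl⟩; exact ⟨hy, rfl⟩, fun c => ⟨x.1, c.1, by rw [← c.2]⟩⟩
  have mA : ∀ (A : Finset E2) (x : E2 × Bool),
      x ∈ A.image (fun x => (x, true)) ↔ x.1 ∈ A ∧ x.2 = true := fun A x => by
    simp only [mem_image]
    exact ⟨by rintro ⟨y, hy, rfl⟩; exact ⟨hy, rfl⟩, fun c => ⟨x.1, c.1, by rw [← c.2]⟩⟩
  have hKG : K ⊆ G := fun x hx => (mG x).2 ((mK x).1 hx).1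
  have hAG : ∀ A ⊆ G2 n, A.image (fun x => (x, true)) ⊆ G := fun A hA x hx =>
    (mG x).2 (hA ((mA A x).1 hx).1)
  have c2 : ∀ x, (ends3 x).card = 2 := fun x => card_pair (by simp)
  have mg : MG ends3 K := mg_of_leaf (fun e _ => c2 e) fun J hJ ⟨x, hx⟩ =>
    ⟨x, .inr x.1, hx, inr_mem_ends3.2 rfl, fun g hg c => Prod.ext (inr_mem_ends3.1 c).symm
      (((mK g).1 (hJ hg)).2.trans ((mK x).1 (hJ hx)).2.symm)⟩
  have fr : Free n r G := (k.free (G.image emb3) fun e he => by
    obtain ⟨x, -, rfl⟩ := mem_image.1 he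
    exact (lf_neg _).trans_le (zz_nn _)).pull k.h emb3_inj.injOn fun x hx => mem_image_of_mem _ hx
  refine fr.not_B (HasMinor.mk' (C := K) (f := fun e => ((e, false), true)) hKG
    (fun a _ b _ c => by simpa using c)
    (fun x hx => ⟨(mG _).2 (mem_G2.2 ⟨hx, fun _ => rfl⟩), by simp [mK]⟩) fun I hI => ?_)
  rw [ind_iota (r := con r K) fun x => (x, true)]
  refine grid_bcase ((h.con K).pull _) (fun e he v hv => ?_) ?_
    (fun i j b hi hj A hA m1 m2 c => ?_) (fun i j hi hj => ?_) hI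
  · rw [cl_pull, cl_con, ← ind_single h]
    refine con_ind h hs hKG (fun e _ => c2 e) mg phi3 (fun x hx a ha b hb => ?_) {v}
      (hAG _ (filter_subset _ _)) (singleton_subset_iff.2 ((mG _).2 he)) (fun g hg a ha c => ?_)
      (fun g hg g' hg' a ha b hb c => ?_) fun A' hA' c => ?_
    · have : ∀ a ∈ ends3 x, phi3 a = xx x.1.1 := fun a ha => by
        rcases mem_ends3.1 ha with rfl | rfl
        · simp [phi3, sd, ((mK x).1 hx).2]
        · rfl
      rw [this a ha, this b hb]
    · exact (mem_filter.1 ((mA _ g).1 hg).1).2 (Set.mem_singleton_iff.1 c ▸ phi3_mem ha)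
    · rw [mem_singleton.1 hg] at ha
      rw [mem_singleton.1 hg'] at hb
      have := xx_ne e.1
      rcases mem_ends3.1 ha with rfl | rfl <;> rcases mem_ends3.1 hb with rfl | rfl
      exacts [rfl, absurd c.symm this, absurd c this, rfl]
    · obtain ⟨a, ha, hav⟩ : ∃ a ∈ ends3 (e, true), phi3 a = v := by
        have hv : v ∈ gends e.1 := hv
        rw [gends_eq, mem_insert, mem_singleton] at hv
        rcases hv with rfl | rfl
        exacts [⟨.inr e, inr_mem_ends3.2 rfl, rfl⟩, ⟨.inl (yy e.1), mem_ends3.2 (.inl rfl), rfl⟩]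
      exact (ind_single h).2 (star_not_cl h hs ((mG _).2 he) ha hA' fun g hg m => c g hg a m hav)
  · have a1 := mg_ind h hs hKG (fun e _ => c2 e) mg
    have a2 := h.mono (union_subset (hAG _ subset_rfl) hKG)
    have a3 := k.le (G.image emb3)
    have a4 : ((G.image emb3).biUnion kends).card ≤ ((GW n).disjSum (G2 n)).card := by
      rw [bi_emb3]
      refine card_image_le.trans (card_le_card (biUnion_subset.2 fun x hx a ha => ?_))
      rcases mem_ends3.1 ha with rfl | rfl
      · exact inl_mem_disjSum.2 (gends_sub (mem_G2.1 ((mG x).1 hx)).1 (sd_mem x))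
      · exact inr_mem_disjSum.2 ((mG x).1 hx)
    have a5 : K.card = (G2 n).card := card_image_of_injective _ fun a b c => (Prod.ext_iff.1 c).1
    rw [card_disjSum, card_GW] at a4
    have a6 : r G = rk (G.image emb3) := rfl
    unfold Ind at a1
    simp only [pull, con]
    zify at a4
    omega
  · rw [cl_pull, cl_con] at c ⊢
    have mg' : ∀ b, ((false, i, j), b) ∈ G2 n := fun b => mem_G2.2 ⟨mem_GE_f.2 ⟨hi, hj⟩, by simp⟩
    generalize (false, i, j) = g at *
    set X := (A.image (fun x => (x, true)) ∪ K).filter fun x => x.1.1 ≠ g with hX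
    have XG : X ⊆ G := (filter_subset _ _).trans (union_subset (hAG A hA) hKG)
    have nb : ∀ b' : Bool, (g, b') ∉ A := fun b' => by cases b <;> cases b' <;> assumption
    have s1 : ¬ Cl r (insert ((g, b), true) (insert ((g, b), false) X)) ((g, !b), false) :=
      star_not_cl h hs ((mG _).2 (mg' _)) (inr_mem_ends3.2 rfl)
        (insert_subset ((mG _).2 (mg' _)) (insert_subset ((mG _).2 (mg' _)) XG)) fun x hx m => by
          have m := inr_mem_ends3.1 m
          simp only [mem_insert] at hx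
          rcases hx with rfl | rfl | hx
          · simp at m
          · simp at m
          · exact (mem_filter.1 hx).2 (by rw [← m])
    have s2 : Cl r (insert ((g, b), false) X) ((g, b), true) := by
      by_contra c'
      refine s1 (h.exchange (h.cl_mono (fun x hx => ?_) c) c')
      by_cases a : x.1.1 = g
      · obtain ⟨⟨g', b'⟩, d⟩ := x
        obtain rfl : g' = g := a
        rcases mem_union.1 hx with u | u
        · exact absurd ((mA _ _).1 u).1 (nb _)
        · obtain rfl : d = false := ((mK _).1 u).2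
          cases b <;> cases b' <;> simp
      · exact mem_insert_of_mem (mem_insert_of_mem (mem_filter.2 ⟨hx, a⟩))
    have s3 : Cl r (insert ((g, !b), false) X) ((g, !b), true) := by
      rw [hr, cl_pull, image_insert] at s2 ⊢
      have n1 : ∀ (v : ℕ × ℕ) (x : E2), lf v ≠ zz x := fun v x => ((lf_neg v).trans_le (zz_nn x)).ne
      refine k.move (zz_tw g b) (fun x hx => ?_) ⟨n1 _ _, n1 _ _⟩ ⟨n1 _ _, n1 _ _⟩ s2
      obtain ⟨y, hy, rfl⟩ := mem_image.1 hx
      have := (mem_filter.1 hy).2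
      exact ⟨n1 _ _, n1 _ _, fun c => this (by rw [zz_inj.1 c]), fun c => this (by rw [zz_inj.1 c])⟩
    exact h.cl_mono (insert_subset (mem_union_right _ ((mK _).2 ⟨mg' _, rfl⟩))
      (filter_subset _ _)) s3
  · have mg' : ∀ b, ((false, i, j), b) ∈ G2 n := fun b => mem_G2.2 ⟨mem_GE_f.2 ⟨hi, hj⟩, by simp⟩
    generalize (false, i, j) = g at *
    set A := (G2 n).filter fun x => Disjoint (gends x.1) (gends g) with hA
    rw [ind_pull (fun a _ b _ c => (Prod.ext_iff.1 c).1), con_con]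
    set Q : Finset (E2 × Bool) := ({g} ×ˢ univ) ×ˢ univ with hQ
    have mQ : ∀ x : E2 × Bool, x ∈ Q ↔ x.1.1 = g := fun x => by
      simp only [hQ, mem_product, mem_singleton, mem_univ, and_true]
    have mA' : ∀ x : E2 × Bool, x ∈ A ×ˢ (univ : Finset Bool) ↔ x.1 ∈ A := fun x => by simp
    have i1 : Ind (con r (A ×ˢ univ)) Q := by
      have a1 := k.skew (Q.image emb3) ((A ×ˢ univ).image emb3) (by
        rw [bi_emb3, bi_emb3, disjoint_image psi3_inj, disjoint_left]
        intro a ha ha'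
        obtain ⟨x, hx, m⟩ := mem_biUnion.1 ha
        obtain ⟨y, hy, m'⟩ := mem_biUnion.1 ha'
        exact disjoint_left.1 (mem_filter.1 ((mA' y).1 hy)).2 (phi3_mem m')
          ((mQ x).1 hx ▸ phi3_mem m))
      rw [← k.c4' (a := lf (xx g)) (a' := lf (yy g)) (b := zz (g, false)) (b' := zz (g, true))
        (by simpa [lf_inj] using xx_ne g) (by simp [zz_inj]) (lf_neg _) (lf_neg _) (zz_nn _)
        (zz_nn _)] at h4
      have a2 := k.h.mono (X := C4 (lf (xx g)) (lf (yy g)) (zz (g, false)) (zz (g, true)))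
        (Y := Q.image emb3) (by
          simp only [C4, insert_subset_iff, singleton_subset_iff]
          exact ⟨mem_image.2 ⟨_, (mQ _).2 rfl, emb3_f (g, false)⟩,
            mem_image.2 ⟨_, (mQ _).2 rfl, emb3_f (g, true)⟩,
            mem_image.2 ⟨_, (mQ _).2 rfl, emb3_t (g, false)⟩,
            mem_image.2 ⟨_, (mQ _).2 rfl, emb3_t (g, true)⟩⟩)
      have a3 : Q.card = 4 := by simp [hQ]
      rw [(h.con _).ind_iff, a3]
      simp only [hr, con, pull, image_union]
      omega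
    have AG : A ×ˢ univ ∪ Q ⊆ G := fun x hx => (mG x).2 (by
      rcases mem_union.1 hx with u | u
      · exact (mem_filter.1 ((mA' x).1 u)).1
      · have := mg' x.1.2
        rwa [← (mQ x).1 u] at this)
    have i2 : Ind (con r (A ×ˢ univ ∪ Q)) (K \ (A ×ˢ univ ∪ Q)) :=
      ind_mod h hs AG (sdiff_subset.trans hKG) fun J hJ ⟨x, hx⟩ =>
        ⟨x, .inr x.1, ⟨hx, inr_mem_ends3.2 rfl, fun y hy c => Prod.ext (inr_mem_ends3.1 c).symm
          (((mK y).1 (mem_sdiff.1 (hJ hy)).1).2.trans ((mK x).1 (mem_sdiff.1 (hJ hx)).1).2.symm)⟩,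
        fun y hy c => (mem_sdiff.1 (hJ hx)).2 (by
          have c := inr_mem_ends3.1 c
          rw [mem_union, mA', mQ] at hy ⊢
          rwa [c])⟩
    refine ind_two h i1 i2 (fun x hx => (mQ x).2 ?_) fun x hx => ?_
    · have := ((mA _ x).1 hx).1
      simp only [mem_insert, mem_singleton] at this
      rcases this with u | u <;> rw [u]
    · rcases mem_union.1 hx with u | u
      · refine ⟨fun c => by simpa [((mK x).1 u).2] using ((mA _ x).1 c).2, ?_⟩
        rw [← or_assoc, ← mem_union, mem_sdiff]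
        tauto
      · refine ⟨fun c => ?_, .inl ((mA' x).2 ((mA _ x).1 u).1)⟩
        have a1 := (mem_filter.1 ((mA _ x).1 u).1).2
        have a2 := ((mA _ x).1 c).1
        simp only [mem_insert, mem_singleton] at a2
        have a3 : x.1.1 = g := by rcases a2 with u | u <;> rw [u]
        rw [a3, disjoint_self] at a1
        simpa [a1] using gends_card g

lemma KM.false (k : KM n rk) : False :=
  (le_or_gt (rk (C4 0 1 2 3)) 3).elim k.dep k.indep

/-- the column matroid of an order invariant bimatroid with the incidence pattern -/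
lemma km_of {σ : Finset (Bool × ℤ) → Finset (ℤ × ℤ) → ℤ} (h : BM σ)
    (fr : FreeB n σ Set.univ {e | e.1 < e.2})
    (pat : ∀ v e, σ {v} {e} = if v ∈ kends e then 1 else 0)
    (inv : ∀ (φ : ℤ → ℤ) (S : Set ℤ) (R : Finset (Bool × ℤ)) (Y : Finset (ℤ × ℤ)),
      StrictMonoOn φ S → (∀ d ∈ R, d.2 ∈ S) → (∀ y ∈ Y, y.1 ∈ S ∧ y.2 ∈ S) →
      σ (R.image (Prod.map id φ)) (Y.image (Prod.map φ φ)) = σ R Y) :
    KM n fun Y => σ (Y.biUnion kends) Y := by
  have big : ∀ (R : Finset (Bool × ℤ)) (Y : Finset (ℤ × ℤ)), Y.biUnion kends ⊆ R →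
      σ (Y.biUnion kends) Y = σ R Y := fun R Y hR =>
    (h.drop_row hR fun d _ m c hc => by
      rw [pat, if_neg fun k => m (mem_biUnion.2 ⟨c, hc, k⟩)]).symm
  have sb : ∀ {X Y : Finset (ℤ × ℤ)}, X ⊆ Y → X.biUnion kends ⊆ Y.biUnion kends := fun k =>
    biUnion_subset_biUnion_of_subset_left _ k
  have hr : Rk fun Y => σ (Y.biUnion kends) Y := by
    refine ⟨h.emp_r _, fun k => h.mono (sb k) k, fun X Y => ?_, fun e X => ?_⟩
    · rw [big _ (X ∩ Y) (sb (inter_subset_left.trans (subset_union_left (s₂ := Y)))),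
        big _ X (sb (subset_union_left (s₂ := Y))), big _ Y (sb (subset_union_right (s₁ := X)))]
      exact (h.col _).subm X Y
    · rw [big _ X (sb (subset_insert e X))]
      exact (h.col _).unit e X
  refine ⟨hr, fun φ S Y hφ hY => ?_, fun G e he v hv => ?_, fun Y => h.le_l _ _,
    fun Y Y' d => ?_, fun E hE => ?_⟩
  · rw [← inv φ S (Y.biUnion kends) Y hφ (fun d hd => ?_) hY]
    · congr 1
      rw [image_biUnion, biUnion_image]
      exact biUnion_congr rfl fun y _ => by simp [kends]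
    · obtain ⟨y, hy, m⟩ := mem_biUnion.1 hd
      simp only [kends, mem_insert, mem_singleton] at m
      rcases m with rfl | rfl
      exacts [(hY y hy).1, (hY y hy).2]
  · set A := G.filter fun g => v ∉ kends g with hA
    have a := h.tri (R := {v}) (R' := A.biUnion kends) (Y := {e}) (Y' := A)
      (A := (insert e A).biUnion kends) (C := insert e A)
      (h.zero fun d hd c hc => by rw [mem_singleton.1 hd, pat, if_neg (mem_filter.1 hc).2])
      (union_subset (singleton_subset_iff.2 (mem_biUnion.2 ⟨e, mem_insert_self _ _, hv⟩))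
        (sb (subset_insert _ _))) (by rw [insert_eq])
    rw [pat, if_pos hv] at a
    simp only [Cl]
    omega
  · exact h.tri (h.zero fun v hv c hc => by
      rw [pat, if_neg fun k => disjoint_left.1 d hv (mem_biUnion.2 ⟨c, hc, k⟩)])
      (by rw [union_biUnion]) subset_rfl
  · exact (fr.col h (R := E.biUnion kends) (Set.subset_univ _) fun e he => hE e he).congr
      fun X hX => (big _ X (sb hX)).symm

end Pool.Agent.Lib.MP_a4b0c4_co.J.F

namespace Pool.Agent.Lib.MP_a4b0c4_co.J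

open F in
theorem stFK (hL : StLimit) : StFK := by
  intro n
  by_contra c
  push Not at c
  obtain ⟨ρ, inv, bm, fr, lo⟩ := hL n Empty Bool Empty Empty Empty Unit
    (fun N ρ => ∀ b i j k, ρ {Lab.o b i} {Lab.p () j k} =
      if (b = false ∧ i = j) ∨ (b = true ∧ i = k) then 1 else 0) fun N => by
      obtain ⟨ρ, h1, h2, h3, -⟩ := c N
      refine ⟨pullB ρ (Sum.elim Empty.elim (Sum.elim
        (fun x => if x.1 then .inr x.2 else .inl x.2) fun x => x.1.elim))
        (Sum.elim Empty.elim (Sum.elim (fun x => x.1.elim) fun x => x.2)), fun b i j k => ?_,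
        h1.pull _ _, h2.pull h1 ?_ ?_ (fun _ _ => trivial) fun _ _ => trivial⟩
      · simp only [pullB, image_singleton, h3, Lab.o, Lab.p, Sum.elim_inr, Sum.elim_inl]
        cases b <;> simp
      · rintro (⟨⟨⟩⟩ | ⟨b, i⟩ | ⟨⟨⟩, -⟩) - (⟨⟨⟩⟩ | ⟨b', i'⟩ | ⟨⟨⟩, -⟩) - k
        cases b <;> cases b' <;> simp at k ⊢ <;> exact k
      · rintro (⟨⟨⟩⟩ | ⟨⟨⟩, -⟩ | ⟨⟨⟩, i⟩) - (⟨⟨⟩⟩ | ⟨⟨⟩, -⟩ | ⟨⟨⟩, i'⟩) - k
        simpa using k
  refine (km_of (n := n) (σ := pullB ρ (fun v : Bool × ℤ => Lab.o v.1 (v.2 : ℝ))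
    fun e : ℤ × ℤ => Lab.p () (e.1 : ℝ) (e.2 : ℝ)) (bm.pull _ _)
    (fr.pull bm ?_ ?_ (fun _ _ => trivial) fun e he => ?_) ?_ ?_).false
  · intro a _ b _ k
    simpa [Lab.o, Prod.ext_iff] using k
  · intro a _ b _ k
    simpa [Lab.p, Prod.ext_iff] using k
  · show (e.1 : ℝ) < e.2
    exact_mod_cast he
  · rintro ⟨b, i⟩ ⟨j, k⟩
    obtain ⟨N, ρ', φ, h1, h2, h3⟩ := lo {(i : ℝ), (j : ℝ), (k : ℝ)}
    have e1 : φ i = φ j ↔ i = j := (h2.injOn.eq_iff (by simp) (by simp)).trans Int.cast_inj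
    have e2 : φ i = φ k ↔ i = k := (h2.injOn.eq_iff (by simp) (by simp)).trans Int.cast_inj
    simp only [pullB, image_singleton]
    rw [h3 _ _ (by simp [Lab.supp]) (by simp [Lab.supp])]
    simp only [image_singleton, Lab.map, h1, e1, e2, kends, mem_insert, mem_singleton,
      Prod.mk.injEq]
  · intro φ S R Y hφ hR hY
    simp only [pullB]
    rw [← inv (fun x => (φ ⌊x⌋ : ℝ)) (R.image fun v : Bool × ℤ => Lab.o v.1 (v.2 : ℝ))
      (Y.image fun e : ℤ × ℤ => Lab.p () (e.1 : ℝ) (e.2 : ℝ)) ?_]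
    · simp only [image_image]
      congr 2 <;> funext x <;> simp [Lab.map]
    · have key : ∀ x ∈ (R.image fun v : Bool × ℤ => (Lab.o v.1 (v.2 : ℝ) :
          Lab Empty Bool Empty ℝ)).biUnion Lab.supp ∪ (Y.image fun e : ℤ × ℤ =>
          (Lab.p () (e.1 : ℝ) (e.2 : ℝ) : Lab Empty Empty Unit ℝ)).biUnion Lab.supp,
          ∃ m ∈ S, x = (m : ℝ) := fun x hx => by
        simp only [mem_union, mem_biUnion, mem_image] at hx
        rcases hx with ⟨_, ⟨d, hd, rfl⟩, m⟩ | ⟨_, ⟨y, hy, rfl⟩, m⟩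
        · exact ⟨d.2, hR d hd, by simpa [Lab.supp] using m⟩
        · simp only [Lab.supp, mem_insert, mem_singleton] at m
          rcases m with m | m
          exacts [⟨y.1, (hY y hy).1, m⟩, ⟨y.2, (hY y hy).2, m⟩]
      intro x hx y hy hxy
      obtain ⟨a, ha, rfl⟩ := key x hx
      obtain ⟨b, hb, rfl⟩ := key y hy
      simp only [Int.floor_intCast]
      exact_mod_cast hφ ha hb (by exact_mod_cast hxy)

end Pool.Agent.Lib.MP_a4b0c4_co.J
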