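import Pool.Agent.Lib.MP_a4b0c4_co.JGrid3
import Pool.Agent.Lib.MP_a4b0c4_co.JA1
import Pool.Agent.Lib.MP_a4b0c4_co.JSpec

/-! From the rank function statement to the statement on matroids. -/

set_option autoImplicit false
set_option linter.unusedSectionVars false
set_option linter.unusedVariables false

open Finset

namespace Pool.Agent.Lib.MP_a4b0c4_co.J.T

section A
variable {α ε : Type} [DecidableEq α] [DecidableEq ε] (M : Matroid α)

/-- the rank function of a matroid on finite sets -/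
noncomputable def rk (X : Finset α) : ℤ := ((M.eRk X).toNat : ℤ)

lemma eRk_ne (X : Finset α) : M.eRk X ≠ ⊤ :=
  ne_top_of_le_ne_top X.finite_toSet.encard_lt_top.ne (M.eRk_le_encard X)

lemma rk_cast (X : Finset α) : (((M.eRk X).toNat : ℕ) : ℕ∞) = M.eRk X :=
  ENat.natCast_toNat (eRk_ne M X)

lemma rk_rk : Rk (rk M) where
  emp := by simp [rk]
  mono := fun {X Y} h => by
    unfold rk
    exact_mod_cast ENat.toNat_le_toNat (M.eRk_mono (coe_subset.2 h)) (eRk_ne M _)
  subm := fun X Y => by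
    have := M.eRk_inter_add_eRk_union_le X Y
    rw [← coe_union, ← coe_inter, ← rk_cast M, ← rk_cast M (_ ∪ _), ← rk_cast M X, ← rk_cast M Y] at this
    unfold rk
    rw [add_comm]
    exact_mod_cast this
  unit := fun e X => by
    have := M.eRk_insert_le_add_one e X
    rw [← coe_insert, ← rk_cast M, ← rk_cast M X] at this
    unfold rk
    exact_mod_cast this

lemma indep_iff (X : Finset α) : M.Indep X ↔ Ind (rk M) X := by
  rw [Matroid.indep_iff_eRk_eq_encard_of_finite X.finite_toSet, Set.encard_coe_eq_coe_finsetCard,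
    ← rk_cast M]
  unfold Ind rk
  norm_cast

variable {M} {E : Finset α} {G : Finset ε} {P : Finset ε → Prop}

lemma rk_dual (hE : M.E = ↑E) : dual (rk M) E = rk M.dual := by
  funext X
  have := M.eRk_dual_add_eRank' X
  rw [← M.eRk_ground, hE, ← coe_sdiff, ← coe_inter, Set.encard_coe_eq_coe_finsetCard,
    ← rk_cast M, ← rk_cast M (_ \ _), ← rk_cast M.dual] at this
  have h : (M.dual.eRk X).toNat + (M.eRk E).toNat = (M.eRk ↑(E \ X)).toNat + (X ∩ E).card := by
    exact_mod_cast this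
  unfold dual rk
  omega

lemma minor_of (hE : M.E = ↑E) (h : HasMinor (rk M) E G P) : ∃ N : Matroid α, N.IsMinor M ∧
    ∃ f : ε → α, Set.InjOn f G ∧ N.E = ↑(G.image f) ∧ ∀ I ⊆ G, (N.Indep ↑(I.image f) ↔ P I) := by
  obtain ⟨C, f, hC, fi, fm, h⟩ := h
  have hr := rk_rk M
  obtain ⟨J, a, b, c, -⟩ := hr.basis C
  have hJ := (indep_iff M J).2 b
  rw [hr.con_congr c fun e he => cl_mem (a he)] at h
  have d : ∀ I ⊆ G, Disjoint (I.image f) J := fun I hI => disjoint_left.2 fun x hx k => by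
    obtain ⟨y, hy, rfl⟩ := mem_image.1 hx
    exact (fm y (hI hy)).2 (a k)
  refine ⟨(M.contract J).delete (↑(G.image f) : Set α)ᶜ, M.contract_delete_isMinor _ _, f, fi, ?_,
    fun I hI => ?_⟩
  · ext x
    simp only [Matroid.delete_ground, Matroid.contract_ground, hE, Set.mem_sdiff, Set.mem_compl_iff,
      not_not, mem_coe, and_iff_right_iff_imp]
    refine fun k => ⟨?_, disjoint_left.1 (d G subset_rfl) k⟩
    obtain ⟨y, hy, rfl⟩ := mem_image.1 k
    exact (fm y hy).1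
  rw [Matroid.delete_indep_iff, hJ.contract_indep_iff, ← coe_union, indep_iff,
    and_iff_left (Set.disjoint_compl_right_iff_subset.2 (coe_subset.2 (image_subset_image hI))),
    and_iff_right (disjoint_coe.2 (d I hI)), ← h I hI, ← card_image_of_injOn (fi.mono hI)]
  exact ⟨hr.ind_con (d I hI), hr.ind_union b⟩

lemma dual_minor {N : Matroid α} (h : N.IsMinor M.dual) : N.dual.IsMinor M := by
  obtain ⟨C, D, rfl⟩ := h
  rw [Matroid.dual_contract_delete, Matroid.dual_dual, Matroid.delete_contract_comm']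
  exact M.contract_delete_isMinor _ _

lemma reduce {r : Finset α → ℤ} {n : ℕ} (hn : 1 ≤ n) (hr : Rk r) (h : Out (n + 1) r E) :
    HasMinor r E (range (2 * n)) (fun I => I.card ≤ n) ∨ HasMinor r E (GE n) (MG gends) ∨
      HasMinor r E (GE n) (BG gends) ∨ HasMinor (dual r E) E (GE n) (BG gends) := by
  have res : ∀ {r : Finset α → ℤ} {P : Finset (Bool × ℕ × ℕ) → Prop},
      HasMinor r E (GE (n + 1)) P → HasMinor r E (GE n) P := fun k =>
    k.restrict id (Set.injOn_id _) (fun x hx => GE_mono hx) fun I hI => by rw [image_id]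
  rcases h with (h | h | h) | h | h | h
  · obtain ⟨t, a, b, c⟩ := of_primal hr h
    exact .inl (c _ _ _ (unif_down a b))
  · exact .inr (.inl (res h))
  · exact .inr (.inr (.inl (res h)))
  · obtain ⟨t, a, b, c⟩ := of_dual hr h
    exact .inl (c _ _ _ (unif_down (a.dual _) (unif_dual a b)))
  · obtain ⟨t, a, b, c⟩ := of_dual hr h
    exact .inr (.inl (c _ _ _ (dual_grid hn a b)))
  · exact .inr (.inr (.inr (res h)))

lemma width (hE : M.E = ↑E) {w : ℕ} (hw : 1 ≤ w)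
    (hX : ∀ X ⊆ (univ : Finset E), X.card = w → ¬ WL (pull (rk M) Subtype.val) univ X)
    (H : ∀ (m : ℕ) (T : SimpleGraph (Fin m)) (φ : α → Fin m), T.IsTree →
        (∀ v, (T.neighborSet v).ncard ≤ 3) → Set.InjOn φ M.E →
        (∀ x ∈ M.E, (T.neighborSet (φ x)).ncard ≤ 1) →
        ∃ u v : Fin m, T.Adj u v ∧ ∃ I J : Set α,
          I ⊆ {x ∈ M.E | (T.deleteEdges {s(u, v)}).Reachable (φ x) u} ∧
          J ⊆ {x ∈ M.E | ¬ (T.deleteEdges {s(u, v)}).Reachable (φ x) u} ∧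
          M.Indep I ∧ M.Indep J ∧
          ∀ B ⊆ M.E, M.Indep B → (w + 2) + B.ncard ≤ I.ncard + J.ncard + 1) : False := by
  rcases E.eq_empty_or_nonempty with rfl | ⟨e, he⟩
  · obtain ⟨u, v, a, -⟩ := H 1 ⊥ (fun _ => 0) SimpleGraph.IsTree.of_subsingleton (by simp)
      (by simp [hE]) (by simp [hE])
    exact a.elim
  have hr := rk_rk M
  obtain ⟨L, hL⟩ := fam (hr.pull Subtype.val) hw hX univ subset_rfl ⟨⟨e, he⟩, mem_univ _⟩ (by
    unfold lam
    rw [Finset.sdiff_self, (hr.pull Subtype.val).emp]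
    omega)
  obtain ⟨m, T, φ, t1, t2, t3, t4, t5⟩ := tree hL
  obtain ⟨ψ, hψ⟩ : ∃ ψ : α → Fin m, ∀ x (hx : x ∈ E), ψ x = φ ⟨x, hx⟩ :=
    ⟨fun x => if hx : x ∈ E then φ ⟨x, hx⟩ else φ ⟨e, he⟩, fun x hx => dif_pos hx⟩
  rw [hE] at H
  obtain ⟨u, v, a, I, J, hI, hJ, i1, i2, hb⟩ := H m T ψ t1 t2 (fun x hx y hy k => by
    rw [hψ x hx, hψ y hy] at k
    exact congrArg Subtype.val (t3 k)) fun x hx => by rw [hψ x hx]; exact t4 _
  obtain ⟨F, hF, hc⟩ := t5 u v a
  obtain ⟨B, b1, b2, -, b3⟩ := hr.basis E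
  have := hb B (coe_subset.2 b1) ((indep_iff M B).2 b2)
  obtain ⟨I, rfl⟩ := (E.finite_toSet.subset fun x hx => (hI hx).1).exists_finset_coe
  obtain ⟨J, rfl⟩ := (E.finite_toSet.subset fun x hx => (hJ hx).1).exists_finset_coe
  simp only [Set.ncard_coe_finset] at this
  have e1 := (indep_iff M _).1 i1
  have e2 := (indep_iff M _).1 i2
  have e3 : (univ : Finset E).image Subtype.val = E := by ext; simp
  have e4 : ∀ (X : Finset α) (Y : Finset E), X ⊆ E → (∀ x : E, x.1 ∈ X → x ∈ Y) →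
      rk M X ≤ rk M (Y.image Subtype.val) := fun X Y k1 k2 =>
    hr.mono fun x hx => mem_image.2 ⟨⟨x, k1 hx⟩, k2 _ hx, rfl⟩
  have hI1 : I ⊆ E := fun x hx => (hI hx).1
  have hJ1 : J ⊆ E := fun x hx => (hJ hx).1
  have hI2 : ∀ x : E, x.1 ∈ I → (T.deleteEdges {s(u, v)}).Reachable (φ x) u := fun x hx =>
    hψ x.1 x.2 ▸ (hI hx).2
  have hJ2 : ∀ x : E, x.1 ∈ J → ¬ (T.deleteEdges {s(u, v)}).Reachable (φ x) u := fun x hx =>
    hψ x.1 x.2 ▸ (hJ hx).2
  unfold lam pull at hF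
  unfold Ind at e1 e2
  rw [e3] at hF
  rcases hc with hc | hc
  · have := e4 I F hI1 fun x hx => (hc x).1 (hI2 x hx)
    have := e4 J (univ \ F) hJ1 fun x hx => mem_sdiff.2 ⟨mem_univ _, fun k => hJ2 x hx ((hc x).2 k)⟩
    omega
  · have := e4 I (univ \ F) hI1 fun x hx => mem_sdiff.2 ⟨mem_univ _, (hc x).1 (hI2 x hx)⟩
    have := e4 J F hJ1 fun x hx => by
      by_contra k
      exact hJ2 x hx ((hc x).2 k)
    omega

end A

theorem final (h : StMain) :
    ∀ n : ℕ, 1 ≤ n → ∃ k : ℕ, ∀ (α : Type) (M : Matroid α), M.E.Finite →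
      (∀ (m : ℕ) (T : SimpleGraph (Fin m)) (φ : α → Fin m), T.IsTree →
        (∀ v, (T.neighborSet v).ncard ≤ 3) → Set.InjOn φ M.E →
        (∀ x ∈ M.E, (T.neighborSet (φ x)).ncard ≤ 1) →
        ∃ u v : Fin m, T.Adj u v ∧ ∃ I J : Set α,
          I ⊆ {x ∈ M.E | (T.deleteEdges {s(u, v)}).Reachable (φ x) u} ∧
          J ⊆ {x ∈ M.E | ¬ (T.deleteEdges {s(u, v)}).Reachable (φ x) u} ∧
          M.Indep I ∧ M.Indep J ∧
          ∀ B ⊆ M.E, M.Indep B → k + B.ncard ≤ I.ncard + J.ncard + 1) →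
      (∃ N : Matroid α, N.IsMinor M ∧ N.E.ncard = 2 * n ∧
          ∀ I ⊆ N.E, (N.Indep I ↔ I.ncard ≤ n)) ∨
      (∃ N : Matroid α, N.IsMinor M ∧
        ∃ f : (SimpleGraph.boxProd (SimpleGraph.pathGraph n) (SimpleGraph.pathGraph n)).edgeSet ≃ N.E,
          ∀ I : Set (SimpleGraph.boxProd (SimpleGraph.pathGraph n) (SimpleGraph.pathGraph n)).edgeSet,
            (N.Indep (Subtype.val '' (f '' I)) ↔
              (SimpleGraph.fromEdgeSet (Subtype.val '' I) : SimpleGraph (Fin n × Fin n)).IsAcyclic)) ∨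
      (∃ N : Matroid α, N.IsMinor M ∧
        ∃ f : (SimpleGraph.boxProd (SimpleGraph.pathGraph n) (SimpleGraph.pathGraph n)).edgeSet ≃ N.E,
          ∀ I : Set (SimpleGraph.boxProd (SimpleGraph.pathGraph n) (SimpleGraph.pathGraph n)).edgeSet,
            (N.Indep (Subtype.val '' (f '' I)) ↔
              ∀ J : Set (Sym2 (Fin n × Fin n)), J ⊆ Subtype.val '' I →
                J.ncard ≤ {w : Fin n × Fin n | ∃ e ∈ J, w ∈ e}.ncard)) ∨
      (∃ N : Matroid α, N.IsMinor M ∧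
        ∃ f : (SimpleGraph.boxProd (SimpleGraph.pathGraph n) (SimpleGraph.pathGraph n)).edgeSet ≃ N.E,
          ∀ I : Set (SimpleGraph.boxProd (SimpleGraph.pathGraph n) (SimpleGraph.pathGraph n)).edgeSet,
            (N.dual.Indep (Subtype.val '' (f '' I)) ↔
              ∀ J : Set (Sym2 (Fin n × Fin n)), J ⊆ Subtype.val '' I →
                J.ncard ≤ {w : Fin n × Fin n | ∃ e ∈ J, w ∈ e}.ncard)) := by
  classical
  intro n hn
  obtain ⟨w, hw⟩ := h (n + 1)
  refine ⟨w + 1 + 2, fun α M hM H => ?_⟩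
  obtain ⟨E, hE⟩ := hM.exists_finset_coe
  replace hE := hE.symm
  have hr := rk_rk M
  have ho : Out (n + 1) (rk M) E := by
    by_contra k
    refine width hE (w := w + 1) (by omega) (fun X a b c => ?_) H
    exact Free.pull hr k (f := (Subtype.val : E → α)) Subtype.val_injective.injOn (fun x _ => x.2)
      (hw _ _ _ X (hr.pull _) a c (by omega))
  rcases reduce hn hr ho with k | k | k | k
  · obtain ⟨N, a, f, fi, b, c⟩ := minor_of hE k
    refine .inl ⟨N, a, by rw [b, Set.ncard_coe_finset, card_image_of_injOn fi, card_range],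
      fun I hI => ?_⟩
    rw [b] at hI
    obtain ⟨I, rfl⟩ := ((finite_toSet _).subset hI).exists_finset_coe
    obtain ⟨I, d, rfl⟩ := subset_image_iff.1 (coe_subset.1 hI)
    rw [c I d, Set.ncard_coe_finset, card_image_of_injOn (fi.mono d)]
  · obtain ⟨N, a, f, fi, b, c⟩ := minor_of hE k
    obtain ⟨F, hF⟩ := exists_equiv fi b
    refine .inr (.inl ⟨N, a, F, fun I => ?_⟩)
    obtain ⟨I', d1, d2, d3, d4⟩ := hF I
    rw [d4, d1, c _ d3, MG_code d2]
  · obtain ⟨N, a, f, fi, b, c⟩ := minor_of hE k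
    obtain ⟨F, hF⟩ := exists_equiv fi b
    refine .inr (.inr (.inl ⟨N, a, F, fun I => ?_⟩))
    obtain ⟨I', d1, d2, d3, d4⟩ := hF I
    rw [d4, d1, c _ d3, BG_code d2]
  · rw [rk_dual hE] at k
    obtain ⟨N, a, f, fi, b, c⟩ := minor_of (M := M.dual) hE k
    obtain ⟨F, hF⟩ := exists_equiv (S := N.dual.E) fi b
    refine .inr (.inr (.inr ⟨N.dual, dual_minor a, F, fun I => ?_⟩))
    obtain ⟨I', d1, d2, d3, d4⟩ := hF I
    rw [d4, d1, Matroid.dual_dual, c _ d3, BG_code d2]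

end Pool.Agent.Lib.MP_a4b0c4_co.J.T
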