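import Pool.Agent.Lib.MP_a4b0c4_co.JGr22

set_option autoImplicit false
set_option linter.unusedSectionVars false
set_option linter.unusedVariables false

open Finset

namespace Pool.Agent.Lib.MP_a4b0c4_co.J

lemma gr_lab {B ι : Type} (l : Lab Empty B Empty ι) : ∃ x i, l = Lab.o x i := by
  rcases l with a | ⟨b, i⟩ | ⟨c, -⟩
  exacts [a.elim, ⟨b, i, rfl⟩, c.elim]

lemma gr_cell {B ι : Type} [Fintype B] [DecidableEq B] [LinearOrder ι] {s : Finset ι}
    {l : Lab Empty B Empty ι} (h : l ∈ cell s) : ∃ x i, l = Lab.o x i ∧ s = {i} := by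
  obtain ⟨x, i, rfl⟩ := gr_lab l
  exact ⟨x, i, rfl, (cl_mem_cell.1 h).1.symm⟩

lemma gr_c (n j m c : ℕ) : ∃ g : ℕ, ∀ (α ι : Type) [DecidableEq α] [DecidableEq ι] [Fintype ι]
    (r : Finset α → ℤ) (E X T : Finset α) (H B N : ι → Finset α) (y : ι → α) (W0 : Finset ι),
    Rk r → Free n r E → PD H →
    (∀ a, N a ⊆ H a ∧ N a ⊆ X ∧ (N a).card = j ∧ H a ⊆ E \ T ∧ Cntd r (H a) ∧
      B a ⊆ H a ∧ (∀ e ∈ H a, Cl r (B a) e) ∧ y a ∈ B a) → T ⊆ X → T ⊆ E →
    Ind r (univ.biUnion B) → (∀ t ∈ T, Cl r (univ.biUnion B) t) → (∀ a ∈ W0, (B a).card = c) →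
    (g : ℤ) ≤ bm r (univ.biUnion B) T (W0.image y) T → Real r E X (j + 1) m := by
  obtain ⟨p, p0, hp⟩ := clean_mat n ((c + 1) * n) m
  obtain ⟨M, hM⟩ := hp (Fin p × Fin c) Empty (Fin p) Empty Empty.elim
  obtain ⟨g, hg⟩ := gr_blocks n c M p
  refine ⟨g, fun α ι _ _ _ r E X T H B N y W0 h hF pd hH tX tE hi hT hc hgT => ?_⟩
  have pb : PD B := fun a b ne => (pd a b ne).mono (hH a).2.2.2.2.2.1 (hH b).2.2.2.2.2.1
  have s0 : ∀ a, B a ⊆ univ.biUnion B := fun a => subset_biUnion_of_mem B (mem_univ a)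
  have s1 : univ.biUnion B ⊆ E \ T := biUnion_subset.2 fun a _ =>
    (hH a).2.2.2.2.2.1.trans (hH a).2.2.2.1
  have s2 : ∀ a, ∀ x ∈ H a, x ∈ univ.biUnion B → x ∈ B a := fun a x h1 h2 => by
    obtain ⟨b, -, k⟩ := mem_biUnion.1 h2
    by_cases e : a = b
    · exact e ▸ k
    · exact absurd ((hH b).2.2.2.2.2.1 k) (disjoint_left.1 (pd a b e) h1)
  generalize univ.biUnion B = B0 at *
  have d0 : Disjoint B0 T := sdiff_disjoint.mono_left s1
  have e0 : B0 ∪ T ⊆ E := union_subset (s1.trans sdiff_subset) tE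
  have hb := h.bm hi hT
  obtain ⟨W, S, pw, ps, w1, w2⟩ := hg α α ι (bm r B0 T) B0 T W0 B y hb (hF.bm h hi e0 d0) pb
    (fun a ha => ⟨s0 a, hc a ha, (hH a).2.2.2.2.2.2.2⟩) hgT
  choose w wi wm ws using fun β => gr_enum (w1 β).2.2.1
  choose s si sm ss using fun β => gr_enum (w1 β).2.2.2.1
  have : ∀ a, ∃ e : Fin c → α, a ∈ W0 →
      Function.Injective e ∧ (∀ k, e k ∈ B a) ∧ ∀ x ∈ B a, ∃ k, e k = x := fun a => by
    by_cases k : a ∈ W0
    · obtain ⟨e, he⟩ := gr_enum (hc a k)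
      exact ⟨e, fun _ => he⟩
    · exact ⟨fun _ => y a, fun c => absurd c k⟩
  choose b hb' using this
  have w0 : ∀ β k, w β k ∈ W0 := fun β k => (w1 β).1 (wm β k)
  obtain ⟨F, hF'⟩ : ∃ F : Lab Empty (Fin p × Fin c) Empty (Fin M) → α,
      ∀ x β, F (Lab.o x β) = b (w β x.1) x.2 :=
    ⟨Sum.elim Empty.elim (Sum.elim (fun x => b (w x.2 x.1.1) x.1.2) fun x => x.1.elim),
      fun _ _ => rfl⟩
  obtain ⟨G, hG⟩ : ∃ G : Lab Empty (Fin p) Empty (Fin M) → α, ∀ x β, G (Lab.o x β) = s β x :=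
    ⟨Sum.elim Empty.elim (Sum.elim (fun x => s x.2 x.1) fun x => x.1.elim), fun _ _ => rfl⟩
  have f1 : ∀ x β, F (Lab.o x β) ∈ B (w β x.1) := fun x β => hF' x β ▸ (hb' _ (w0 β _)).2.1 _
  have f2 : ∀ x β, F (Lab.o x β) ∈ (W β).biUnion B := fun x β =>
    mem_biUnion.2 ⟨_, wm β _, f1 x β⟩
  have f3 : ∀ β, ∀ z ∈ (W β).biUnion B, ∃ x, F (Lab.o x β) = z := fun β z hz => by
    obtain ⟨a, ha, k⟩ := mem_biUnion.1 hz
    obtain ⟨k1, rfl⟩ := ws β a ha
    obtain ⟨k2, rfl⟩ := (hb' _ (w0 β k1)).2.2 z k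
    exact ⟨(k1, k2), hF' _ _⟩
  have f4 : ∀ β β', ∀ z ∈ (W β).biUnion B, z ∈ (W β').biUnion B → β = β' := fun β β' z h1 h2 => by
    obtain ⟨a, ha, h1⟩ := mem_biUnion.1 h1
    obtain ⟨a', ha', h2⟩ := mem_biUnion.1 h2
    by_contra ne
    exact disjoint_left.1 (pb a a' fun e => disjoint_left.1 (pw β β' ne) ha (e ▸ ha')) h1 h2
  have f5 : ∀ β, (W β).biUnion B ⊆ B0 := fun β => biUnion_subset.2 fun a _ => s0 a
  have g1 : ∀ β, (cell {β}).image G = S β := fun β => by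
    refine subset_antisymm (fun z hz => ?_) fun z hz => ?_
    · obtain ⟨l, hl, rfl⟩ := mem_image.1 hz
      obtain ⟨x, i, rfl, e⟩ := gr_cell hl
      rw [hG, singleton_injective e]; exact sm i x
    · obtain ⟨k, rfl⟩ := ss β z hz
      exact mem_image.2 ⟨Lab.o k β, cl_mem_cell.2 ⟨rfl, trivial⟩, hG k β⟩
  have gi : Function.Injective G := fun l l' e => by
    obtain ⟨x, β, rfl⟩ := gr_lab l
    obtain ⟨x', β', rfl⟩ := gr_lab l'
    rw [hG, hG] at e
    obtain rfl : β = β' := by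
      by_contra ne
      exact disjoint_left.1 (ps β β' ne) (sm β x) (e ▸ sm β' x')
    rw [si β e]
  obtain ⟨u, R0, K, a1, a2, a3, a4⟩ := hM α r E B0 T F G h hF hi hT e0 d0 (fun l _ l' _ e => by
      obtain ⟨⟨k, τ⟩, β, rfl⟩ := gr_lab l
      obtain ⟨⟨k', τ'⟩, β', rfl⟩ := gr_lab l'
      obtain rfl : β = β' := f4 _ _ _ (f2 _ β) (e ▸ f2 _ β')
      obtain rfl : k = k' := wi β (by
        by_contra ne
        exact disjoint_left.1 (pb _ _ ne) (f1 (k, τ) β) (e ▸ f1 (k', τ') β))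
      rw [hF', hF'] at e
      obtain rfl : τ = τ' := (hb' _ (w0 β k)).1 e
      rfl) gi.injOn (fun l _ => by
      obtain ⟨x, β, rfl⟩ := gr_lab l
      exact f5 β (f2 x β)) (fun l _ => by
      obtain ⟨x, β, rfl⟩ := gr_lab l
      exact hG x β ▸ (w1 β).2.1 (sm β x)) (fun t t' ne => by
      rcases (cell t : Finset (Lab Empty (Fin p × Fin c) Empty (Fin M))).eq_empty_or_nonempty with
        e | ⟨l, hl⟩
      · rw [e, image_empty, hb.emp_l]; positivity
      rcases (cell t' : Finset (Lab Empty (Fin p) Empty (Fin M))).eq_empty_or_nonempty with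
        e | ⟨l', hl'⟩
      · rw [e, image_empty, hb.emp_r]; positivity
      obtain ⟨-, β, -, rfl⟩ := gr_cell hl
      obtain ⟨-, β', -, rfl⟩ := gr_cell hl'
      rw [g1]
      refine (hb.mono (fun z hz => ?_) subset_rfl).trans (w2 β β' fun e => ne (e ▸ rfl))
      obtain ⟨l, hl, rfl⟩ := mem_image.1 hz
      obtain ⟨x, i, rfl, e⟩ := gr_cell hl
      exact singleton_injective e ▸ f2 x i) (fun t => by
      rcases (cell t : Finset (Lab Empty (Fin p) Empty (Fin M))).eq_empty_or_nonempty with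
        e | ⟨l', hl'⟩
      · rw [e]; simp
      obtain ⟨-, β, -, rfl⟩ := gr_cell hl'
      refine ⟨by rw [← card_image_of_injective _ gi, g1, (w1 β).2.2.2.1], fun _ i hi => ?_⟩
      rw [g1, ← (w1 β).2.2.2.2, mem_singleton.1 hi]
      refine hb.mono (fun z hz => ?_) subset_rfl
      obtain ⟨a, ha, rfl⟩ := mem_image.1 hz
      obtain ⟨x, e⟩ := f3 β (y a) (mem_biUnion.2 ⟨a, ha, (hH a).2.2.2.2.2.2.2⟩)
      exact mem_image.2 ⟨Lab.o x β, mem_filter.2 ⟨cl_mem_cell.2 ⟨rfl, trivial⟩, rfl⟩, e⟩)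
  obtain ⟨Bs, hBs⟩ : ∃ Bs, Bs = univ.biUnion fun i => (W (u i)).biUnion B := ⟨_, rfl⟩
  have b1 : ∀ i, (W (u i)).biUnion B ⊆ Bs := fun i =>
    hBs ▸ subset_biUnion_of_mem (fun i => (W (u i)).biUnion B) (mem_univ i)
  have b2 : ∀ z ∈ Bs, ∃ i, z ∈ (W (u i)).biUnion B := fun z hz => by simpa [hBs] using hz
  have b3 : Bs ⊆ B0 := fun z hz => (b2 z hz).elim fun i k => f5 _ k
  have b4 : Disjoint R0 Bs := disjoint_left.2 fun z h1 h2 => by
    obtain ⟨l, -, k, rfl⟩ := a1 z h1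
    obtain ⟨x, β, rfl⟩ := gr_lab l
    obtain ⟨i, k'⟩ := b2 _ h2
    exact k (f4 _ _ _ k' (f2 x β) ▸ mem_image_of_mem _ (mem_univ i))
  obtain ⟨C0, hC0⟩ : ∃ C0, C0 = K ∪ B0 \ (R0 ∪ Bs) := ⟨_, rfl⟩
  have d1 : Disjoint Bs C0 := by grind [disjoint_left]
  have i1 : Ind r (Bs ∪ C0) := h.ind_sub a3 (by grind [disjoint_left])
  have i2 : Ind (con r Bs) C0 := h.ind_con d1.symm (union_comm Bs C0 ▸ i1)
  have : ∀ i, ∃ t ∈ S (u i), t ∉ K ∧ Cl (con r C0) ((W (u i)).biUnion B) t ∧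
      ¬ Cl (con r C0) ∅ t := fun i => by
    have ui : u i ∈ univ.image u := mem_image_of_mem _ (mem_univ i)
    obtain ⟨y', y1, y2, y3, y4⟩ := a4 {u i} (singleton_subset_iff.2 ui)
      ⟨Lab.o ⟨0, p0⟩ (u i), cl_mem_cell.2 ⟨rfl, trivial⟩⟩
    refine ⟨G y', g1 (u i) ▸ mem_image_of_mem _ y1, y2, cl_con.2 (h.cl_mono (fun z hz => ?_) y3),
      fun k => y4 _ (mem_singleton_self _) (h.cl_mono (fun z hz => ?_) (cl_con.1 k))⟩
    · by_cases k : z ∈ Bs
      · obtain ⟨i', k'⟩ := b2 z k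
        by_cases e : u i' = u i
        · exact mem_union_left _ (e ▸ k')
        · obtain ⟨x, rfl⟩ := f3 _ z k'
          have : F (Lab.o x (u i')) ∈ ((ovr (univ.image u)).filter
              fun l => l.hub Empty.elim ∉ ({u i} : Finset (Fin M))).image F :=
            mem_image_of_mem _ (mem_filter.2 ⟨cl_mem_ovr.2 ⟨singleton_subset_iff.2
              (mem_image_of_mem _ (mem_univ i')), trivial⟩, fun c => e (mem_singleton.1 c)⟩)
          grind [disjoint_left]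
      · grind
    · have : ∀ z ∈ ((ovr (univ.image u)).filter fun l => l.hub Empty.elim = u i).image F,
          z ∈ Bs := fun z hz => by
        obtain ⟨l, hl, rfl⟩ := mem_image.1 hz
        obtain ⟨x, β, rfl⟩ := gr_lab l
        obtain rfl : β = u i := (mem_filter.1 hl).2
        exact b1 i (f2 x _)
      grind
  choose t t1 t2 t3 t4 using this
  have t5 : ∀ i, t i ∈ T := fun i => (w1 _).2.1 (t1 i)
  have t6 : ∀ i, ∀ a ∈ W (u i), B a ⊆ Bs := fun i a ha => (subset_biUnion_of_mem B ha).trans (b1 i)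
  refine gr_fin h (C0 := C0) (W := fun i => W (u i)) (B := B) (N := N) (t := t) pd
    (fun i i' ne => pw _ _ fun e => ne (u.injective e)) (by grind) (fun i a ha => ⟨(hH a).1,
      (hH a).2.2.2.2.1.congr fun Z hZ => (h.con_of_ind' i2 fun e he =>
        h.cl_mono (t6 i a ha) ((hH a).2.2.2.2.2.2.1 e (hZ he))).symm, (hH a).2.2.2.2.2.1,
      fun e he => cl_con.2 (h.cl_mono subset_union_left ((hH a).2.2.2.2.2.2.1 e he))⟩)
    (fun i a ha => ⟨(hH a).2.1, (hH a).2.2.1, fun z hz => ?_, fun i' k =>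
      (mem_sdiff.1 ((hH a).2.2.2.1 k)).2 (t5 i')⟩) (hBs ▸ h.ind_con d1 i1)
    (fun i => ⟨tX (t5 i), fun k => t4 i (cl_con.2 (cl_mem (mem_union_right _ k))), t3 i, t4 i⟩)
    fun i i' e => ?_
  · have h1 := (hH a).2.2.2.1 hz
    have h2 := fun k => t6 i a ha (s2 a z hz k)
    grind
  · by_contra ne
    exact disjoint_left.1 (ps _ _ fun e => ne (u.injective e)) (t1 i) (e ▸ t1 i')

theorem grow2 : StGrow2 := by
  intro n j m
  choose g hg using gr_c n j m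
  refine ⟨(j + 2) * (range (j + 2)).sup g, fun α _ r E X h hF hS => ?_⟩
  obtain ⟨H, B, N, y, T, pd, hH, tX, tE, tc, hi, hT, hi'⟩ := hS
  obtain ⟨c, hc, k⟩ := exists_le_card_fiber_of_mul_le_card_of_maps_to (s := univ)
    (t := range (j + 2)) (f := fun a => (B a).card) (n := (range (j + 2)).sup g)
    (fun a _ => mem_range.2 (Nat.lt_succ_of_le ((card_le_card (hH a).2.2.2.2.2.2.1).trans
      (hH a).2.2.2.1))) (by simp) (by simp)
  refine hg c α _ r E X T H B N y (univ.filter fun a => (B a).card = c) h hF pd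
    (fun a => ⟨(hH a).1, (hH a).2.1, (hH a).2.2.1, (hH a).2.2.2.2⟩) tX tE hi hT
    (fun a ha => (mem_filter.1 ha).2) ?_
  have inj : Function.Injective y := fun a b e => by
    by_contra ne
    exact disjoint_left.1 (pd a b ne) ((hH a).2.2.2.2.2.2.1 (hH a).2.2.2.2.2.2.2.2)
      (e ▸ (hH b).2.2.2.2.2.2.1 (hH b).2.2.2.2.2.2.2.2)
  have s1 : univ.biUnion B ⊆ E \ T := biUnion_subset.2 fun a _ =>
    (hH a).2.2.2.2.2.2.1.trans (hH a).2.2.2.2.1
  have i1 : Ind (tr (bm r (univ.biUnion B) T) T) (univ.image y) := by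
    unfold Ind tr at *
    rw [bm_eq subset_rfl, union_comm, hi', card_union_of_disjoint
      (sdiff_disjoint.mono_left (sdiff_subset.trans s1)), card_image_of_injective _ inj, tc]
    simp
  have i2 := ((h.bm hi hT).row T).ind_sub i1
    (image_subset_image (filter_subset (fun a => (B a).card = c) univ))
  unfold Ind tr at i2
  rw [i2, card_image_of_injective _ inj]
  exact_mod_cast (le_sup (f := g) hc).trans k

end Pool.Agent.Lib.MP_a4b0c4_co.J
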