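import Pool.Agent.Lib.MP_a4b0c4_co.JHub1

set_option autoImplicit false
set_option linter.unusedSectionVars false
set_option linter.unusedVariables false

open Finset

namespace Pool.Agent.Lib.MP_a4b0c4_co.J

variable {α ι : Type} [DecidableEq α] [DecidableEq ι] {r : Finset α → ℤ}

lemma ram3 (ram : StRamsey) (L : ℕ) (κ : Type) [Fintype κ] : ∃ N : ℕ,
    ∀ χ : Fin N → Fin N → Fin N → κ, ∃ (G : ℕ → Fin N) (c0 : κ),
      (∀ a b, a < b → b < L → G a ≠ G b) ∧
      ∀ a b c, a < b → b < c → c < L → χ (G a) (G b) (G c) = c0 := by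
  obtain ⟨N, ram⟩ := ram 3 (L + 3) κ
  refine ⟨N, fun χ => ?_⟩
  obtain ⟨g, hg⟩ := ram fun τ => χ (τ 0) (τ 1) (τ 2)
  let s : ℕ → Fin (L + 3) := fun i => ⟨min i (L + 2), by omega⟩
  have sl : ∀ a b, a < b → b < L + 3 → s a < s b := fun a b k k' => by
    simp only [s, Fin.lt_def]; omega
  have sm : ∀ a b c, a < b → b < c → c < L + 3 → StrictMono ![s a, s b, s c] :=
    fun a b c k1 k2 k3 => Fin.strictMono_iff_lt_succ.2 fun i => by
      fin_cases i
      exacts [sl a b k1 (by omega), sl b c k2 k3]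
  exact ⟨fun i => g (s i), χ (g (s 0)) (g (s 1)) (g (s 2)),
    fun a b k k' => (g.strictMono (sl a b k (by omega))).ne, fun a b c k1 k2 k3 =>
      hg (OrderEmbedding.ofStrictMono _ (sm a b c k1 k2 (by omega)))
        (OrderEmbedding.ofStrictMono _ (sm 0 1 2 (by omega) (by omega) (by omega)))⟩

lemma hub_split [Fintype ι] (h : Rk r) {E C Z : Finset α} {N : ι → Finset α} (hC : C ⊆ E)
    (hN : ∀ a, N a ⊆ E ∧ Cntd (con r C) (N a)) (sk : Skew (con r C) univ N) (hZ : Z ⊆ E)
    {I : Finset ι} (hI : ∀ a ∈ I, ¬ N a ⊆ Z ∧ ¬ Disjoint (N a) Z) : I.card ≤ lam r E Z := by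
  have IE : I.biUnion N ⊆ E := biUnion_subset.2 fun a _ => (hN a).1
  have a1 := h.lam_minor hC IE hZ (Z' := Z ∩ I.biUnion N) inter_subset_right (by grind) (by grind)
  rw [(h.con C).lam_skew ((h.con C).skew_sub sk (subset_univ I) fun a _ => Subset.refl _)] at a1
  refine le_trans ?_ a1
  rw [card_eq_sum_ones]
  push_cast
  refine sum_le_sum fun a ha => (h.con C).cntd_lam (hN a).2 ?_ (sdiff_nonempty.2 (hI a ha).1)
  rw [inter_comm]
  exact not_disjoint_iff_nonempty_inter.1 (hI a ha).2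

theorem hub_low (ram : StRamsey) (kl : StK) (eng : StEngine) (n m K β : ℕ) :
    ∃ j N : ℕ, ∀ (α : Type) [DecidableEq α] (r : Finset α → ℤ) (E X E1 C : Finset α)
      (U M : Fin N → Finset α), Rk r → Free n r E → WL r E X → E1 ⊆ E →
      PD U → Ind r C → (∀ a, M a ⊆ U a ∧ U a ⊆ E1 ∧ lam r E1 (U a) ≤ β) →
      (∀ a, M a ⊆ X ∧ j ≤ (M a).card ∧ U a \ M a ⊆ C ∧ Par (con r (E1 \ M a)) (M a)) →
      HubOut n m K α := by
  choose k N st using fun b => hub_stage ram eng n m K b β (2 * β)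
  obtain ⟨N', bm, kl⟩ := kl β N
  refine ⟨(β + 1) * ((range (bm + 1)).sup k + 1), N',
    fun α _ r E X E1 C U M h hE wl hE1 pd iC hU hM => ?_⟩
  obtain ⟨b, hb, u, Z, ui, fm, hZ⟩ := gw_fam kl h hE1 pd hU
  have kb : k b ≤ (range (bm + 1)).sup k := le_sup (f := k) (by simp; omega)
  have f1 : ∀ a, con (con r (ot Z a)) (Z a \ M (u a)) (M (u a)) ≤ β + 1 ∧
      ∀ e ∈ M (u a), ¬ Cl (con r (ot Z a)) (Z a \ M (u a)) e := by
    intro a
    obtain ⟨O, o1, o2, o3⟩ := (hZ a).2.2.2
    obtain ⟨b1, b2, b3⟩ := hU (u a)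
    refine ⟨?_, fun e he c => ?_⟩
    · have a1 := h.con_anti o1 (M (u a))
      have a2 := (hM (u a)).2.2.2.1
      have a3 := h.union_le (X := U (u a) \ M (u a)) (Y := E1 \ U (u a)) (Z := E1 \ M (u a))
        (by grind)
      rw [o3 _ (Subset.refl _)]
      refine a1.trans ?_
      simp only [con, lam] at a2 b3 ⊢
      rw [union_sdiff_of_subset (b1.trans b2)] at a2
      rw [union_sdiff_of_subset b1]
      linarith
    · rw [cl_con1, o3 _ (by simpa using he)] at c
      have a1 := h.con_anti o2 {e}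
      rw [(hM (u a)).2.2.2.2 e he] at a1
      omega
  have pc : ∀ a, Pcs (con r (ot Z a)) (Z a) (2 * β + 1) := by
    intro a
    have hρ := h.con (ot Z a)
    refine hρ.pieces (fun A => (A \ M (u a)).card + con r (ot Z a) A -
      2 * con r (ot Z a) (A \ M (u a))) (fun A hA ⟨e, he⟩ sp => ?_) (fun A hA B hB d sp => ?_)
      (by simp [hρ.emp]) ?_
    · have a1 := hρ.le_card (A \ M (u a))
      by_cases c : ∃ e ∈ A, e ∈ M (u a)
      · obtain ⟨e, he, c⟩ := c
        have a2 := hρ.not_cl.1 fun k => (f1 a).2 e c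
          (hρ.cl_mono (sdiff_subset_sdiff hA (Subset.refl _)) k)
        have a3 := hρ.mono (insert_subset he (sdiff_subset (t := M (u a))))
        omega
      · push Not at c
        have := gw_null hρ hA he sp ((hZ a).2.2.1 e (mem_sdiff.2 ⟨hA he, c e he⟩))
        rw [show A \ M (u a) = A by grind]
        omega
    · have a1 := hρ.union_le (Subset.refl (A \ M (u a) ∪ B \ M (u a)))
      rw [union_sdiff_distrib, card_union_of_disjoint (d.mono sdiff_subset sdiff_subset)]
      push_cast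
      omega
    · have a1 := gw_loc h iC (fm.lc a) ((sdiff_subset_sdiff (hZ a).2.1 (Subset.refl _)).trans
        (hM (u a)).2.2.1) sdiff_subset
      have a2 : con r (ot Z a) (M (u a) ∪ Z a \ M (u a)) - con r (ot Z a) (Z a \ M (u a)) ≤ _ :=
        (f1 a).1
      rw [union_sdiff_of_subset (hZ a).1] at a2
      push_cast
      omega
  choose F D x h1 h2 h3 using fun a => hub_mk (h.con (ot Z a)) (f1 a).1 (f1 a).2 (hM (u a)).2.1
  have cF : ∀ a, k b ≤ (F a ∩ X).card := fun a =>
    kb.trans ((h3 a).trans (card_le_card (inter_subset_inter_left (hM _).1)))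
  exact st b α _ r E Z F D x (by simp) h hE fm pc
    (fun a => ⟨(h1 a).trans (union_subset (hZ a).1 sdiff_subset), h2 a⟩)
    fun a a' _ => wl.conn (cF a) (cF a')

lemma hub_high [Fintype ι] {n m K k N : ℕ} (st : StageAt n m K 0 0 0 k N) (h : Rk r)
    {E : Finset α} (hE : Free n r E) {Z : ι → Finset α} (hN : N ≤ Fintype.card ι) (pd : PD Z)
    (sk : Skew r univ Z) (hZ : ∀ a, Z a ⊆ E ∧ Circ r (Z a) ∧ 2 ≤ (Z a).card)
    (cn : ∀ a a', a ≠ a' → Conn r E (Z a) (Z a') k) : HubOut n m K α := by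
  have e : ∀ a, ∀ Y ⊆ Z a, r Y = con r (ot Z a) Y := fun a Y hY =>
    (h.skew_con sk (mem_univ a) hY (Subset.refl _)).symm
  choose D x hb using fun a => hub_circ h (hZ a).2.1 (hZ a).2.2
  refine st α ι r E Z Z D x hN h hE ⟨fun a => (hZ a).1, pd, fun J a _ ha => ?_, fun a => ?_⟩
    (fun a => pcs_one (h.con _) ((h.cntd_circ (hZ a).2.1).congr (e a)) 0)
    (fun a => ⟨Subset.refl _, (hb a).cg (e a)⟩) cn
  · rw [h.skew_con sk (mem_univ a) (Subset.refl _) (ot_sub' Z ha), ← e a _ (Subset.refl _)]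
  · have := e a _ (Subset.refl _)
    simp only [con, loc] at this ⊢
    push_cast
    omega

theorem hub_par (ram : StRamsey) (kl : StK) (eng : StEngine) (n m K : ℕ) :
    ∃ j M : ℕ, ∀ (α : Type) [DecidableEq α] (r : Finset α → ℤ) (E X C : Finset α)
      (N : Fin M → Finset α), Rk r → Free n r E → X ⊆ E → WL r E X → C ⊆ E → PD N →
      (∀ a, N a ⊆ X ∧ (N a).card = j ∧ Disjoint (N a) C ∧ Par (con r C) (N a)) →
      Skew (con r C) univ N → HubOut n m K α := by
  classical
  obtain ⟨k, N1, st⟩ := hub_stage ram eng n m K 0 0 0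
  obtain ⟨j, N2, lo⟩ := hub_low ram kl eng n m K (k + k)
  obtain ⟨M, ram⟩ := ram3 ram (N1 + 3 * N2 + k + 4) (Prop × Prop × Prop × Prop × Prop)
  refine ⟨j + 2, M, fun α _ r E X C0 N h hE hX wl a1 pd a3 sk => ?_⟩
  obtain ⟨C, c1, iC, c3, -⟩ := h.basis C0
  have hC := c1.trans a1
  rw [← h.con_congr (fun e he => cl_mem (c1 he)) c3] at a3 sk
  replace a3 : ∀ a, N a ⊆ X ∧ (N a).card = j + 2 ∧ Disjoint (N a) C ∧ Par (con r C) (N a) :=
    fun a => ⟨(a3 a).1, (a3 a).2.1, (a3 a).2.2.1.mono_right c1, (a3 a).2.2.2⟩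
  have NE : ∀ a, N a ⊆ C ∪ univ.biUnion N := fun a =>
    (subset_biUnion_of_mem N (mem_univ a)).trans subset_union_right
  have E0 : C ∪ univ.biUnion N ⊆ E :=
    union_subset hC (biUnion_subset.2 fun a _ => (a3 a).1.trans hX)
  have ex : ∀ a b, ∃ Y, ¬ Conn r (C ∪ univ.biUnion N) (N a) (N b) k → N a ⊆ Y ∧
      Y ⊆ (C ∪ univ.biUnion N) \ N b ∧ lam r (C ∪ univ.biUnion N) Y < k := fun a b => by
    by_cases c : Conn r (C ∪ univ.biUnion N) (N a) (N b) k
    · exact ⟨∅, fun c' => (c' c).elim⟩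
    · simp only [Conn, not_forall, not_le] at c
      obtain ⟨Y, y1, y2, y3⟩ := c
      exact ⟨Y, fun _ => ⟨y1, y2, y3⟩⟩
  choose Y hY using ex
  obtain ⟨G, ⟨p0, p1, p2, p3, p4⟩, g1, g2⟩ := ram fun a b c =>
    (Conn r (C ∪ univ.biUnion N) (N a) (N b) k, N c ⊆ Y a b, Disjoint (N c) (Y a b),
      N a ⊆ Y b c, Disjoint (N a) (Y b c))
  simp only [Prod.mk.injEq, eq_iff_iff] at g2
  have gi : ∀ {σ : Type} (f : σ → ℕ), Function.Injective f → (∀ i, f i < N1 + 3 * N2 + k + 4) →
      Function.Injective fun i => G (f i) := fun f fi fl i i' e => by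
    by_contra c
    rcases lt_or_gt_of_ne (fi.ne c) with c | c
    · exact g1 _ _ c (fl _) e
    · exact g1 _ _ c (fl _) e.symm
  by_cases hp : p0
  · have hP := h.dual (C ∪ univ.biUnion N)
    obtain ⟨b1, b2⟩ := gw_dual h (subset_union_left (s₂ := univ.biUnion N))
      (fun a => subset_sdiff.2 ⟨NE a, (a3 a).2.2.1⟩) pd sk
    rw [Finset.sdiff_self, hP.con_empty] at b1 b2
    have φi := gi (fun i : Fin N1 => i.val) Fin.val_injective fun i => by omega
    have cn : ∀ a b : Fin N1, a < b → Conn r (C ∪ univ.biUnion N) (N (G a)) (N (G b)) k :=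
      fun a b k => (g2 a b (b + 1) k (by omega) (by omega)).1.2 hp
    refine hub_high st hP ((hE.mono h E0).dual h) (Z := fun i : Fin N1 => N (G i)) (by simp)
      (pd.comp φi) (skew_comp hP b2 φi) (fun a => ⟨NE _, (par_dual (h.con C) (a3 _).2.2.2
        (card_pos.1 (by rw [(a3 _).2.1]; omega))).cg fun Y hY => (b1 _ Y hY).symm,
        by rw [(a3 _).2.1]; omega⟩) fun a a' ne => Conn.dual h ?_
    rcases lt_or_gt_of_ne ne with c | c
    · exact cn _ _ c
    · exact (cn _ _ c).symm (NE _)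
  have cut := fun a b (k1 : a < b) (k2 : b + 1 < N1 + 3 * N2 + k + 4) =>
    hY _ _ fun c => hp ((g2 a b (b + 1) k1 (by omega) k2).1.1 c)
  have spl : ∀ a b, a < b → b + 1 < N1 + 3 * N2 + k + 4 → ∀ f : Fin k → ℕ,
      Function.Injective f → (∀ i, f i < N1 + 3 * N2 + k + 4) →
      ∃ i, N (G (f i)) ⊆ Y (G a) (G b) ∨ Disjoint (N (G (f i))) (Y (G a) (G b)) := by
    intro a b k1 k2 f fi fl
    by_contra c
    push Not at c
    have := hub_split h subset_union_left (fun a => ⟨NE a, (h.con C).cntd_par (a3 a).2.2.2⟩) sk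
      ((cut a b k1 k2).2.1.trans sdiff_subset) (I := univ.image fun i => G (f i))
      (by simpa using c)
    rw [card_image_of_injective _ (gi f fi fl)] at this
    simp only [card_univ, Fintype.card_fin] at this
    linarith [(cut a b k1 k2).2.2]
  have q1 : p1 ∨ p2 := by
    obtain ⟨i, c⟩ := spl 0 1 (by omega) (by omega) (fun i => i + 2)
      (fun i i' e => Fin.ext (by simpa using e)) fun i => by omega
    have := g2 0 1 (i + 2) (by omega) (by omega) (by omega)
    exact c.imp this.2.1.1 this.2.2.1.1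
  have q2 : p3 ∨ p4 := by
    obtain ⟨i, c⟩ := spl k (k + 1) (by omega) (by omega) (fun i => i) Fin.val_injective
      fun i => by omega
    have := g2 i k (k + 1) i.isLt (by omega) (by omega)
    exact c.imp this.2.2.2.1.1 this.2.2.2.2.1
  let N' : Fin N2 → Finset α := fun a => N (G (3 * a + 1))
  have φi := gi (fun i : Fin N2 => 3 * i.val + 1) (fun i i' e => Fin.ext (by simpa using e))
    fun i => by omega
  have E1 : C ∪ univ.biUnion N' ⊆ C ∪ univ.biUnion N :=
    union_subset subset_union_left (biUnion_subset.2 fun a _ => NE _)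
  have NE' : ∀ a, N' a ⊆ C ∪ univ.biUnion N' := fun a =>
    (subset_biUnion_of_mem N' (mem_univ a)).trans subset_union_right
  obtain ⟨U, pU, hU⟩ := gw_isol h (E := C ∪ univ.biUnion N') (N := N') (T := ot N')
    (β := (k + k : ℕ)) (fun a b ne => ot_sub N' ne) fun a => by
      have := a.isLt
      obtain ⟨x1, x2, x3⟩ := cut (3 * a + 1) (3 * a + 2) (by omega) (by omega)
      obtain ⟨y1, y2, y3⟩ := cut (3 * a) (3 * a + 1) (by omega) (by omega)
      refine ⟨(Y (G (3 * a + 1)) (G (3 * a + 2)) \ Y (G (3 * a)) (G (3 * a + 1))) ∩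
        (C ∪ univ.biUnion N'), subset_inter (subset_sdiff.2 ⟨x1, (subset_sdiff.1 y2).2.symm⟩)
        (NE' a), subset_sdiff.2 ⟨inter_subset_right, Disjoint.mono_left inter_subset_left
          ((disjoint_biUnion_right _ _ _).2 fun c hc => ?_)⟩, ?_⟩
      · have := c.isLt
        have : N' c ⊆ Y (G (3 * a)) (G (3 * a + 1)) ∨
            Disjoint (N' c) (Y (G (3 * a + 1)) (G (3 * a + 2))) := by
          rcases lt_or_gt_of_ne (Fin.val_injective.ne (ne_of_mem_erase hc)) with l | l
          · exact q2.imp (g2 _ _ _ (by omega) (by omega) (by omega)).2.2.2.1.2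
              (g2 _ _ _ (by omega) (by omega) (by omega)).2.2.2.2.2
          · exact q1.imp (g2 _ _ _ (by omega) (by omega) (by omega)).2.1.2
              (g2 _ _ _ (by omega) (by omega) (by omega)).2.2.1.2
        rcases this with c | c
        · exact sdiff_disjoint.mono_right c
        · exact c.symm.mono_left sdiff_subset
      · have z1 := h.lam_del E1 (sdiff_subset.trans (x2.trans sdiff_subset) :
          Y (G (3 * a + 1)) (G (3 * a + 2)) \ Y (G (3 * a)) (G (3 * a + 1)) ⊆ _)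
        have z2 := h.lam_sdiff (x2.trans sdiff_subset) (y2.trans sdiff_subset)
        push_cast
        linarith
  have pN : PD N' := pd.comp φi
  have sN : Skew (con r C) univ N' := skew_comp (h.con C) sk φi
  refine lo α r E X (C ∪ univ.biUnion N') C U N' h hE wl (E1.trans E0) pU iC
    (fun a => ⟨(hU a).1, (hU a).2.1.trans sdiff_subset, (hU a).2.2⟩) fun a => ?_
  have u' : univ.biUnion N' = N' a ∪ ot N' a := by
    rw [← biUnion_insert, insert_erase (mem_univ a)]
  have d1 : ∀ x ∈ N' a, x ∉ C := disjoint_left.1 (a3 _).2.2.1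
  have d2 := disjoint_left.1 (pN.ot a)
  have d3 := (hU a).2.1
  refine ⟨(a3 _).1, by rw [(a3 _).2.1]; omega, fun x hx => by
      have := d3 (mem_sdiff.1 hx).1
      rw [u'] at this
      simp only [mem_sdiff, mem_union] at this hx
      tauto,
    (a3 _).2.2.2.cg fun Y hY => ?_⟩
  rw [← (h.con C).skew_con sN (mem_univ a) hY (Subset.refl _), con_con, u',
    show (C ∪ (N' a ∪ ot N' a)) \ N' a = C ∪ ot N' a by
      ext x
      have := d1 x
      have := @d2 x
      simp only [mem_sdiff, mem_union]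
      tauto]

theorem hub (big : StBig) (ram : StRamsey) (kl : StK) (eng : StEngine) : StHub := by
  classical
  intro n m K
  obtain ⟨j, M, hp⟩ := hub_par ram kl eng n m K
  obtain ⟨f, big⟩ := big j
  refine ⟨f, M + M, fun α _ r E X h hE hX wl ⟨C, N, a1, pd, a3, sk⟩ => ?_⟩
  choose Q J b1 b2 b3 b4 using fun a => big α _ _ (h.con C) (a3 a).2.2.2 (a3 a).2.1.ge
  have JN : ∀ a, J a ⊆ N a := fun a => (b2 a).trans sdiff_subset
  have e : ∀ a, ∀ Y ⊆ J a, con (con r C) (Q a) Y = con r (C ∪ univ.biUnion Q) Y := fun a Y hY => by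
    rw [← con_con, (h.con C).skew_con_sub sk (fun a _ => b1 a) (mem_univ a) (hY.trans (JN a))]
  have s1 : Skew (con r (C ∪ univ.biUnion Q)) univ J := by
    rw [← con_con]
    exact ((h.con C).con _).skew_sub ((h.con C).skew_con_skew sk fun a _ => b1 a) (Subset.refl _)
      fun a _ => JN a
  have hC : C ∪ univ.biUnion Q ⊆ E :=
    union_subset a1 (biUnion_subset.2 fun a _ => (b1 a).trans ((a3 a).1.trans hX))
  have pJ : PD J := fun a b k => (pd a b k).mono (JN a) (JN b)
  have dJ : ∀ a, Disjoint (J a) (C ∪ univ.biUnion Q) := fun a => disjoint_union_right.2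
    ⟨(a3 a).2.2.1.mono_left (JN a), (disjoint_biUnion_right _ _ _).2 fun b _ => by
      by_cases k : a = b
      · subst k; exact (subset_sdiff.1 (b2 a)).2
      · exact (pd a b k).mono (JN a) (b1 b)⟩
  by_cases c : M ≤ Fintype.card {a // Par (con (con r C) (Q a)) (J a)}
  · obtain ⟨φ⟩ := Function.Embedding.nonempty_of_card_le (α := Fin M)
      ((Fintype.card_fin M).le.trans c)
    have φi : Function.Injective fun i => (φ i).1 := Subtype.val_injective.comp φ.injective
    exact hp α r E X _ (fun i => J (φ i).1) h hE hX wl hC (pJ.comp φi)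
      (fun a => ⟨(JN _).trans (a3 _).1, b3 _, dJ _, (φ a).2.cg (e _)⟩) (skew_comp (h.con _) s1 φi)
  · have c' : M ≤ Fintype.card {a // ¬ Par (con (con r C) (Q a)) (J a)} := by
      rw [Fintype.card_subtype_compl]; simp only [Fintype.card_fin]; omega
    obtain ⟨φ⟩ := Function.Embedding.nonempty_of_card_le (α := Fin M)
      ((Fintype.card_fin M).le.trans c')
    have φi : Function.Injective fun i => (φ i).1 := Subtype.val_injective.comp φ.injective
    obtain ⟨d1, d2⟩ := gw_dual h hC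
      (fun a => subset_sdiff.2 ⟨(JN a).trans ((a3 a).1.trans hX), dJ a⟩) pJ s1
    exact hp α (dual r E) E X _ (fun i => J (φ i).1) (h.dual E) (hE.dual h) hX (wl.dual h)
      sdiff_subset (pJ.comp φi) (fun a => ⟨(JN _).trans (a3 _).1, b3 _, disjoint_sdiff.mono_left
        ((subset_biUnion_of_mem J (mem_univ _)).trans subset_union_right),
        (circ_dual (h.con _) (((b4 _).resolve_left (φ a).2).cg (e _))).cg
          fun Y hY => (d1 _ Y hY).symm⟩) (skew_comp ((h.dual E).con _) d2 φi)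

end Pool.Agent.Lib.MP_a4b0c4_co.J
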