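import Pool.Agent.Lib.MP_a4b0c4_co.JLim1

set_option autoImplicit false
set_option linter.unusedSectionVars false
set_option linter.unusedVariables false

open Finset

namespace Pool.Agent.Lib.MP_a4b0c4_co.J

section
variable {A B C A' B' C' : Type} [Fintype A] [Fintype B] [Fintype C] [Fintype A'] [Fintype B']
  [Fintype C'] [DecidableEq A] [DecidableEq B] [DecidableEq C] [DecidableEq A'] [DecidableEq B']
  [DecidableEq C']

/-- the Ramsey step: a model that is order invariant on M points -/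
lemma lim_local (M : ℕ) : ∃ N : ℕ,
    ∀ ρ : Finset (Lab A B C (Fin (N + 1))) → Finset (Lab A' B' C' (Fin (N + 1))) → ℤ, BM ρ →
    ∃ H : Finset (Fin (N + 1)), H.card = M ∧ ∀ (ι : Type) [LinearOrder ι] (u : Finset ι)
      (θ θ' : ι → Fin (N + 1)) (R : Finset (Lab A B C ι)) (Y : Finset (Lab A' B' C' ι)),
      StrictMonoOn θ u → StrictMonoOn θ' u → (∀ x ∈ u, θ x ∈ H) → (∀ x ∈ u, θ' x ∈ H) →
      R.biUnion Lab.supp ⊆ u → Y.biUnion Lab.supp ⊆ u →
      ρ (R.image (Lab.map θ)) (Y.image (Lab.map θ)) =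
        ρ (R.image (Lab.map θ')) (Y.image (Lab.map θ')) := by
  obtain ⟨c, hc⟩ : ∃ c : ℕ, ∀ R : Finset (Lab A B C (Fin (M + 1))), R.card ≤ c :=
    ⟨_, fun R => card_le_univ R⟩
  have f1 : Finite (Finset (Lab A B C (Fin (M + 1)))) := inferInstance
  have f2 : Finite (Finset (Lab A' B' C' (Fin (M + 1)))) := inferInstance
  obtain ⟨N, hN⟩ := @ramM (Finset (Lab A B C (Fin (M + 1))) →
    Finset (Lab A' B' C' (Fin (M + 1))) → Fin (c + 1)) (Fintype.ofFinite _) M M
  refine ⟨N, fun ρ hρ => ?_⟩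
  obtain ⟨H, -, a2, d, a3⟩ := hN (Fin (N + 1)) univ (fun t R0 Y0 =>
    ⟨min (ρ (R0.image (Lab.map fun i : Fin (M + 1) => limNth t i))
      (Y0.image (Lab.map fun i : Fin (M + 1) => limNth t i))).toNat c, by omega⟩) (by simp)
  refine ⟨H, a2, fun ι _ u => ?_⟩
  have key : ∀ (θ : ι → Fin (N + 1)) (R : Finset (Lab A B C ι)) (Y : Finset (Lab A' B' C' ι)),
      StrictMonoOn θ u → (∀ x ∈ u, θ x ∈ H) → R.biUnion Lab.supp ⊆ u → Y.biUnion Lab.supp ⊆ u →
      ρ (R.image (Lab.map θ)) (Y.image (Lab.map θ)) =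
        (d u.card (R.image (Lab.map fun x => (⟨min (limRk u x) M, by omega⟩ : Fin (M + 1))))
          (Y.image (Lab.map fun x => (⟨min (limRk u x) M, by omega⟩ : Fin (M + 1)))) : ℕ) := by
    intro θ R Y hθ hH hR hY
    have s1 : u.image θ ⊆ H := fun y hy => by
      obtain ⟨x, hx, rfl⟩ := mem_image.1 hy
      exact hH x hx
    have c1 : (u.image θ).card = u.card := card_image_of_injOn hθ.injOn
    have c2 : u.card ≤ M := by rw [← c1, ← a2]; exact card_le_card s1
    have e : ∀ x ∈ u, ((fun i : Fin (M + 1) => limNth (u.image θ) i) ∘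
        fun x => (⟨min (limRk u x) M, by omega⟩ : Fin (M + 1))) x = θ x := by
      intro x hx
      have := limRk_lt hx
      simp only [Function.comp]
      rw [min_eq_left (by omega), ← limRk_image hθ hx, limNth_rk (mem_image_of_mem _ hx)]
    have h1 := congrArg Fin.val (congrFun (congrFun (a3 _ s1 (c1 ▸ c2))
      (R.image (Lab.map fun x => (⟨min (limRk u x) M, by omega⟩ : Fin (M + 1)))))
      (Y.image (Lab.map fun x => (⟨min (limRk u x) M, by omega⟩ : Fin (M + 1)))))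
    rw [c1] at h1
    rw [← h1]
    simp only [image_image, Function.comp_def, Lab.lim_map_map]
    have e1 := Lab.lim_image_congr (R := R) fun x hx => e x (hR hx)
    have e2 := Lab.lim_image_congr (R := Y) fun x hx => e x (hY hx)
    simp only [Function.comp_def] at e1 e2
    have b1 := hρ.nn (R.image (Lab.map θ)) (Y.image (Lab.map θ))
    have b2 := hρ.le_l (R.image (Lab.map θ)) (Y.image (Lab.map θ))
    have b3 := hc (R.image (Lab.map fun x => (⟨min (limRk u x) M, by omega⟩ : Fin (M + 1))))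
    have b4 : (R.image (Lab.map θ)).card ≤
        (R.image (Lab.map fun x => (⟨min (limRk u x) M, by omega⟩ : Fin (M + 1)))).card := by
      rw [← e1]
      have := card_image_le (s := R.image (Lab.map fun x =>
        (⟨min (limRk u x) M, by omega⟩ : Fin (M + 1))))
        (f := Lab.map fun i : Fin (M + 1) => limNth (u.image θ) i)
      simpa only [image_image, Function.comp_def, Lab.lim_map_map] using this
    change _ = ((min (ρ (R.image (Lab.map fun x => limNth (u.image θ) (min (limRk u x) M)))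
      (Y.image (Lab.map fun x => limNth (u.image θ) (min (limRk u x) M)))).toNat c : ℕ) : ℤ)
    rw [e1, e2]
    omega
  intro θ θ' R Y h1 h2 h3 h4 hR hY
  rw [key θ R Y h1 h3 hR hY, key θ' R Y h2 h4 hR hY]

end

theorem limit : StLimit := by
  intro n A B C A' B' C' _ _ _ _ _ _ _ _ _ _ _ _ K hK
  have loc1 : ∀ s : Finset ℝ, ∃ (N : ℕ)
      (ρ' : Finset (Lab A B C (Fin N)) → Finset (Lab A' B' C' (Fin N)) → ℤ) (φ : ℝ → Fin N),
      K N ρ' ∧ BM ρ' ∧ FreeB n ρ' {l | l.valid} {l | l.valid} ∧ StrictMonoOn φ s ∧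
      ∀ (ψ : ℝ → ℝ) (u : Finset ℝ) (R : Finset (Lab A B C ℝ)) (Y : Finset (Lab A' B' C' ℝ)),
        u ⊆ s → u.image ψ ⊆ s → StrictMonoOn ψ u → R.biUnion Lab.supp ⊆ u →
        Y.biUnion Lab.supp ⊆ u →
        ρ' (R.image (Lab.map (φ ∘ ψ))) (Y.image (Lab.map (φ ∘ ψ))) =
          ρ' (R.image (Lab.map φ)) (Y.image (Lab.map φ)) := by
    intro s
    obtain ⟨N, hN⟩ := lim_local (A := A) (B := B) (C := C) (A' := A') (B' := B') (C' := C') s.card
    obtain ⟨ρ', k1, k2, k3⟩ := hK (N + 1)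
    obtain ⟨H, hH, hinv⟩ := hN ρ' k2
    let φ : ℝ → Fin (N + 1) := fun x =>
      if h : x ∈ s then H.orderEmbOfFin hH ((s.orderIsoOfFin rfl).symm ⟨x, h⟩) else 0
    have m1 : StrictMonoOn φ s := fun x hx y hy hxy => by
      simp only [φ, dif_pos (mem_coe.1 hx), dif_pos (mem_coe.1 hy)]
      exact (H.orderEmbOfFin hH).strictMono ((s.orderIsoOfFin rfl).symm.strictMono hxy)
    have m2 : ∀ x ∈ s, φ x ∈ H := fun x hx => by
      simp only [φ, dif_pos hx]
      exact H.orderEmbOfFin_mem hH _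
    refine ⟨N + 1, ρ', φ, k1, k2, k3, m1, fun ψ u R Y h1 h2 h3 hR hY => ?_⟩
    exact hinv ℝ u (φ ∘ ψ) φ R Y
      (fun x hx y hy hxy => m1 (h2 (mem_image_of_mem _ hx)) (h2 (mem_image_of_mem _ hy))
        (h3 hx hy hxy)) (m1.mono h1) (fun x hx => m2 _ (h2 (mem_image_of_mem _ hx)))
      (fun x hx => m2 x (h1 hx)) hR hY
  choose N ρ' φ hK' hBM hF hφ hI using loc1
  let U : Ultrafilter (Finset ℝ) := Ultrafilter.of Filter.atTop
  have lim : ∀ (R : Finset (Lab A B C ℝ)) (Y : Finset (Lab A' B' C' ℝ)), ∃ v : ℤ,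
      ∀ᶠ s in (U : Filter (Finset ℝ)),
        ρ' s (R.image (Lab.map (φ s))) (Y.image (Lab.map (φ s))) = v := by
    intro R Y
    obtain ⟨v, -, hv⟩ := (U.map fun s =>
      ρ' s (R.image (Lab.map (φ s))) (Y.image (Lab.map (φ s)))).eq_pure_of_finite_mem
      (Set.finite_Icc (0 : ℤ) R.card) (by
        rw [Ultrafilter.mem_map]
        refine Filter.univ_mem' fun s => ⟨(hBM s).nn _ _, ((hBM s).le_l _ _).trans ?_⟩
        exact_mod_cast card_image_le)
    refine ⟨v, ?_⟩
    have : ({v} : Set ℤ) ∈ U.map fun s =>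
        ρ' s (R.image (Lab.map (φ s))) (Y.image (Lab.map (φ s))) := by
      rw [hv]; exact Ultrafilter.mem_pure.2 rfl
    exact this
  choose ρ hρ using lim
  have key : ∀ s0 : Finset ℝ, ∃ s, s0 ⊆ s ∧ ∀ R Y, R.biUnion Lab.supp ⊆ s0 →
      Y.biUnion Lab.supp ⊆ s0 →
      ρ R Y = ρ' s (R.image (Lab.map (φ s))) (Y.image (Lab.map (φ s))) := by
    intro s0
    have h1 : ∀ᶠ s in (U : Filter (Finset ℝ)), s0 ⊆ s :=
      Ultrafilter.of_le Filter.atTop (Filter.eventually_ge_atTop s0)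
    have h2 : ∀ᶠ s in (U : Filter (Finset ℝ)),
        ∀ R ∈ {R : Finset (Lab A B C ℝ) | R.biUnion Lab.supp ⊆ s0},
        ∀ Y ∈ {Y : Finset (Lab A' B' C' ℝ) | Y.biUnion Lab.supp ⊆ s0},
        ρ' s (R.image (Lab.map (φ s))) (Y.image (Lab.map (φ s))) = ρ R Y :=
      (Filter.eventually_all_finite (Lab.lim_finite' s0)).2 fun R _ =>
        (Filter.eventually_all_finite (Lab.lim_finite' s0)).2 fun Y _ => hρ R Y
    obtain ⟨s, a, b⟩ := (h1.and h2).exists
    exact ⟨s, a, fun R Y hR hY => (b R hR Y hY).symm⟩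
  have bu : ∀ {X Y Z : Type} [DecidableEq X] [DecidableEq Y] [DecidableEq Z]
      {R R' : Finset (Lab X Y Z ℝ)}, R ⊆ R' → R.biUnion Lab.supp ⊆ R'.biUnion Lab.supp :=
    fun h => biUnion_subset_biUnion_of_subset_left _ h
  have key2 : ∀ (R0 : Finset (Lab A B C ℝ)) (Y0 : Finset (Lab A' B' C' ℝ)), ∃ s,
      R0.biUnion Lab.supp ⊆ s ∧ Y0.biUnion Lab.supp ⊆ s ∧ ∀ R ⊆ R0, ∀ Y ⊆ Y0,
      ρ R Y = pullB (ρ' s) (Lab.map (φ s)) (Lab.map (φ s)) R Y := by
    intro R0 Y0
    obtain ⟨s, a, b⟩ := key (R0.biUnion Lab.supp ∪ Y0.biUnion Lab.supp)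
    exact ⟨s, subset_union_left.trans a, subset_union_right.trans a, fun R hR Y hY =>
      b R Y ((bu hR).trans subset_union_left) ((bu hY).trans subset_union_right)⟩
  refine ⟨ρ, fun ψ R Y hψ => ?_, ⟨fun R Y => ?_, fun R Y => ?_, fun R Y => ?_,
    fun {R R' Y Y'} hR hY => ?_, fun R R' Y Y' => ?_⟩, fun R Y hR hY => ?_, fun s0 => ?_⟩
  · obtain ⟨s, a, b⟩ := key ((R.biUnion Lab.supp ∪ Y.biUnion Lab.supp) ∪
      (R.biUnion Lab.supp ∪ Y.biUnion Lab.supp).image ψ)
    rw [b R Y (subset_union_left.trans subset_union_left)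
      (subset_union_right.trans subset_union_left), b _ _
      (by rw [Lab.lim_biUnion_map]
          exact (image_subset_image subset_union_left).trans subset_union_right)
      (by rw [Lab.lim_biUnion_map]
          exact (image_subset_image subset_union_right).trans subset_union_right),
      ← hI s ψ _ R Y (subset_union_left.trans a) (subset_union_right.trans a) hψ
        subset_union_left subset_union_right]
    simp only [image_image, Function.comp_def, Lab.lim_map_map]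
  · obtain ⟨s, -, -, b⟩ := key2 R Y
    rw [b R subset_rfl Y subset_rfl]
    exact (lim_bm_pull (hBM s) _ _).nn _ _
  · obtain ⟨s, -, -, b⟩ := key2 R Y
    rw [b R subset_rfl Y subset_rfl]
    exact (lim_bm_pull (hBM s) _ _).le_l _ _
  · obtain ⟨s, -, -, b⟩ := key2 R Y
    rw [b R subset_rfl Y subset_rfl]
    exact (lim_bm_pull (hBM s) _ _).le_r _ _
  · obtain ⟨s, -, -, b⟩ := key2 R' Y'
    rw [b R hR Y hY, b R' subset_rfl Y' subset_rfl]
    exact (lim_bm_pull (hBM s) _ _).mono hR hY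
  · obtain ⟨s, -, -, b⟩ := key2 (R ∪ R') (Y ∪ Y')
    rw [b _ subset_rfl _ inter_subset_union, b _ inter_subset_union _ subset_rfl,
      b R subset_union_left Y subset_union_left, b R' subset_union_right Y' subset_union_right]
    exact (lim_bm_pull (hBM s) _ _).subm _ _ _ _
  · obtain ⟨s, a1, a2, b⟩ := key2 R Y
    have s1 : ∀ l ∈ R, ↑l.supp ⊆ (s : Set ℝ) := fun l hl =>
      coe_subset.2 ((subset_biUnion_of_mem Lab.supp hl).trans a1)
    have s2 : ∀ l ∈ Y, ↑l.supp ⊆ (s : Set ℝ) := fun l hl =>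
      coe_subset.2 ((subset_biUnion_of_mem Lab.supp hl).trans a2)
    refine lim_free_pull ((Lab.lim_injOn (hφ s).injOn).mono s1)
      ((Lab.lim_injOn (hφ s).injOn).mono s2) b (hF s _ _ ?_ ?_)
    · intro l hl
      obtain ⟨l, a, rfl⟩ := mem_image.1 hl
      exact Lab.lim_valid_map (hφ s) (s1 l a) (hR a)
    · intro l hl
      obtain ⟨l, a, rfl⟩ := mem_image.1 hl
      exact Lab.lim_valid_map (hφ s) (s2 l a) (hY a)
  · obtain ⟨s, a, b⟩ := key s0
    exact ⟨N s, ρ' s, φ s, hK' s, (hφ s).mono a, b⟩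

end Pool.Agent.Lib.MP_a4b0c4_co.J
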