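import Pool.Agent.Lib.MP_a4b0c4_co.JDefs

set_option autoImplicit false
set_option linter.unusedSectionVars false
set_option linter.unusedVariables false

open Finset

namespace Pool.Agent.Lib.MP_a4b0c4_co.J

variable {α : Type} [DecidableEq α] {r : Finset α → ℤ}

lemma con_con (r : Finset α → ℤ) (A B : Finset α) : con (con r A) B = con r (A ∪ B) := by
  funext X; simp only [con]; rw [union_assoc, union_comm B A]; ring

lemma cl_con {C A : Finset α} {e : α} : Cl (con r C) A e ↔ Cl r (A ∪ C) e := by
  simp only [Cl, con, insert_union]; constructor <;> intro h <;> linarith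

lemma cl_mem {A : Finset α} {e : α} (h : e ∈ A) : Cl r A e := by
  simp only [Cl, insert_eq_of_mem h]

namespace Rk

lemma nonneg (h : Rk r) (X : Finset α) : 0 ≤ r X := h.emp ▸ h.mono (empty_subset X)

/-- flexible submodularity -/
lemma sub (h : Rk r) {X Y A B : Finset α} (h1 : X ⊆ A) (h2 : X ⊆ B) (h3 : Y ⊆ A ∪ B) :
    r X + r Y ≤ r A + r B := by
  have := h.subm A B
  have := h.mono (subset_inter h1 h2)
  have := h.mono h3
  linarith

lemma add_card (h : Rk r) (X Y : Finset α) : r (X ∪ Y) ≤ r X + Y.card := by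
  induction Y using Finset.induction_on with
  | empty => simp
  | insert e Y he ih =>
    rw [union_insert, card_insert_of_notMem he]
    have := h.unit e (X ∪ Y)
    push_cast; omega

lemma add_card' (h : Rk r) {X Y Z : Finset α} (hZ : Z ⊆ X ∪ Y) : r Z ≤ r X + Y.card :=
  (h.mono hZ).trans (h.add_card X Y)

lemma le_card (h : Rk r) (X : Finset α) : r X ≤ X.card := by
  have := h.add_card ∅ X
  rwa [empty_union, h.emp, zero_add] at this

lemma add_sdiff (h : Rk r) (X Y : Finset α) : r X ≤ r Y + (X \ Y).card :=
  h.add_card' (by grind)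

lemma union_le (h : Rk r) {X Y Z : Finset α} (hZ : Z ⊆ X ∪ Y) : r Z ≤ r X + r Y := by
  have := h.sub (empty_subset X) (empty_subset Y) hZ
  rw [h.emp] at this; linarith

lemma single (h : Rk r) (e : α) : r {e} ≤ 1 := by simpa using h.le_card {e}

lemma biUnion_le {ι : Type} [DecidableEq ι] (h : Rk r) (s : Finset ι) (A : ι → Finset α) :
    r (s.biUnion A) ≤ ∑ i ∈ s, r (A i) := by
  induction s using Finset.induction_on with
  | empty => simp [h.emp]
  | insert i s hi ih =>
    rw [biUnion_insert, sum_insert hi]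
    have := h.union_le (subset_refl (A i ∪ s.biUnion A))
    linarith

lemma con_empty (h : Rk r) : con r ∅ = r := by funext X; simp [con, h.emp]

lemma con (h : Rk r) (C : Finset α) : Rk (con r C) where
  emp := by simp [J.con]
  mono := fun hXY => by simp only [J.con]; linarith [h.mono (union_subset_union_left (t := C) hXY)]
  subm := fun X Y => by
    simp only [J.con]
    have := h.sub (X := X ∩ Y ∪ C) (Y := X ∪ Y ∪ C) (A := X ∪ C) (B := Y ∪ C)
      (by grind) (by grind) (by grind)
    linarith
  unit := fun e X => by simp only [J.con]; rw [insert_union]; linarith [h.unit e (X ∪ C)]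

/-- contracting more lowers the rank -/
lemma con_anti (h : Rk r) {A B : Finset α} (hAB : A ⊆ B) (X : Finset α) :
    J.con r B X ≤ J.con r A X := by
  simp only [J.con]
  have := h.sub (X := A) (Y := X ∪ B) (A := X ∪ A) (B := B) (by grind) hAB (by grind)
  linarith

lemma con_le (h : Rk r) (B X : Finset α) : J.con r B X ≤ r X := by
  have := h.con_anti (empty_subset B) X
  rwa [h.con_empty] at this

/-- if more contraction keeps the rank of N, it keeps the rank of all subsets -/
lemma con_eq_sub (h : Rk r) {A B N X : Finset α} (hAB : A ⊆ B) (hX : X ⊆ N)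
    (e : J.con r A N ≤ J.con r B N) : J.con r B X = J.con r A X := by
  refine le_antisymm (h.con_anti hAB X) ?_
  simp only [J.con] at *
  have := h.sub (X := X ∪ A) (Y := N ∪ B) (A := N ∪ A) (B := X ∪ B) (by grind) (by grind) (by grind)
  linarith

lemma pull {ε : Type} [DecidableEq ε] (h : Rk r) (f : ε → α) : Rk (pull r f) where
  emp := by simp [J.pull, h.emp]
  mono := fun hXY => h.mono (image_subset_image hXY)
  subm := fun X Y => by
    simp only [J.pull]
    have := h.sub (X := (X ∩ Y).image f) (Y := (X ∪ Y).image f) (A := X.image f) (B := Y.image f)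
      (image_subset_image inter_subset_left) (image_subset_image inter_subset_right)
      (by rw [image_union])
    linarith
  unit := fun e X => by simp only [J.pull]; rw [image_insert]; exact h.unit _ _

lemma dual (h : Rk r) (E : Finset α) : Rk (dual r E) where
  emp := by simp [J.dual]
  mono := fun {X Y} hXY => by
    simp only [J.dual]
    have h1 := h.add_card' (X := E \ Y) (Y := (Y ∩ E) \ (X ∩ E)) (Z := E \ X) (by grind)
    have h2 := card_sdiff_add_card_eq_card (s := X ∩ E) (t := Y ∩ E) (by grind)
    omega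
  subm := fun X Y => by
    simp only [J.dual]
    have h1 := h.sub (X := E \ (X ∪ Y)) (Y := E \ (X ∩ Y)) (A := E \ X) (B := E \ Y)
      (by grind) (by grind) (by grind)
    have h2 := card_union_add_card_inter (X ∩ E) (Y ∩ E)
    rw [show X ∩ E ∪ Y ∩ E = (X ∪ Y) ∩ E by grind, show X ∩ E ∩ (Y ∩ E) = X ∩ Y ∩ E by grind] at h2
    omega
  unit := fun e X => by
    simp only [J.dual]
    have h1 := h.mono (X := E \ insert e X) (Y := E \ X) (by grind)
    have h2 : (insert e X ∩ E).card ≤ (X ∩ E).card + 1 :=
      (card_le_card (t := insert e (X ∩ E)) (by grind)).trans (card_insert_le _ _)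
    omega

lemma cl_iff (h : Rk r) {A : Finset α} {e : α} : Cl r A e ↔ r (insert e A) ≤ r A :=
  ⟨le_of_eq, fun k => le_antisymm k (h.mono (subset_insert _ _))⟩

lemma not_cl (h : Rk r) {A : Finset α} {e : α} : ¬ Cl r A e ↔ r (insert e A) = r A + 1 := by
  have := h.unit e A
  have := h.mono (subset_insert e A)
  unfold Cl; omega

lemma cl_mono (h : Rk r) {A B : Finset α} {e : α} (hAB : A ⊆ B) (k : Cl r A e) : Cl r B e := by
  rw [h.cl_iff] at *
  have := h.sub (X := A) (Y := insert e B) (A := insert e A) (B := B) (by grind) hAB (by grind)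
  linarith

/-- a set inside the closure of A adds no rank -/
lemma span (h : Rk r) {A X : Finset α} (k : ∀ e ∈ X, Cl r A e) : r (A ∪ X) = r A := by
  induction X using Finset.induction_on with
  | empty => simp
  | insert e X he ih =>
    rw [union_insert, h.cl_mono subset_union_left (k e (mem_insert_self _ _)),
      ih fun x hx => k x (mem_insert_of_mem hx)]

lemma span_le (h : Rk r) {A X : Finset α} (k : ∀ e ∈ X, Cl r A e) : r X ≤ r A :=
  h.span k ▸ h.mono subset_union_right

lemma span_le' (h : Rk r) {A X B Y : Finset α} (k : ∀ e ∈ X, Cl r A e) (hA : A ⊆ B)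
    (hY : Y ⊆ B ∪ X) : r Y ≤ r B :=
  h.span (fun e he => h.cl_mono hA (k e he)) ▸ h.mono hY

lemma cl_of_le (h : Rk r) {A Y : Finset α} {e : α} (hA : A ⊆ Y) (he : e ∈ Y) (k : r Y ≤ r A) :
    Cl r A e := h.cl_iff.2 ((h.mono (insert_subset he hA)).trans k)

lemma cl_trans (h : Rk r) {A B : Finset α} {e : α} (k : ∀ x ∈ B, Cl r A x) (he : Cl r B e) :
    Cl r A e := by
  have h1 := h.cl_mono (subset_union_right (s₁ := A)) he
  have h2 := h.span k
  have h3 := h.mono (X := insert e A) (Y := insert e (A ∪ B)) (by grind)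
  rw [h.cl_iff] at *; linarith

lemma exchange (h : Rk r) {A : Finset α} {e f : α} (k : Cl r (insert f A) e) (k' : ¬ Cl r A e) :
    Cl r (insert e A) f := by
  rw [h.not_cl] at k'
  have := h.unit f A
  rw [h.cl_iff] at *
  rw [insert_comm]; linarith

/-- sets with the same closure give the same contraction -/
lemma con_congr (h : Rk r) {A B : Finset α} (h1 : ∀ e ∈ A, Cl r B e) (h2 : ∀ e ∈ B, Cl r A e) :
    J.con r A = J.con r B := by
  funext X
  simp only [J.con]
  have a := h.span_le h1
  have b := h.span_le h2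
  have c := h.span_le' (Y := X ∪ A) (B := X ∪ B) h1 subset_union_right (by grind)
  have d := h.span_le' (Y := X ∪ B) (B := X ∪ A) h2 subset_union_right (by grind)
  linarith

lemma ind_iff (h : Rk r) {X : Finset α} : Ind r X ↔ (X.card : ℤ) ≤ r X :=
  ⟨fun k => le_of_eq k.symm, fun k => le_antisymm (h.le_card X) k⟩

lemma ind_empty (h : Rk r) : Ind r ∅ := by simp [Ind, h.emp]

lemma ind_sub (h : Rk r) {X Y : Finset α} (k : Ind r Y) (hXY : X ⊆ Y) : Ind r X := by
  have h1 := h.add_sdiff Y X
  have h2 := card_sdiff_add_card_eq_card hXY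
  rw [h.ind_iff]; unfold Ind at k; omega

lemma ind_insert (h : Rk r) {X : Finset α} {e : α} (k : Ind r X) (he : ¬ Cl r X e) :
    Ind r (insert e X) := by
  have : e ∉ X := fun m => he (cl_mem m)
  rw [h.not_cl] at he
  unfold Ind at *; rw [he, k, card_insert_of_notMem this]; push_cast; ring

lemma ind_not_cl (h : Rk r) {X A : Finset α} {e : α} (k : Ind r X) (he : e ∈ X)
    (hA : A ⊆ X.erase e) : ¬ Cl r A e := by
  have h1 := h.ind_sub k (X := insert e A) (by grind)
  have h2 := h.ind_sub k (X := A) (by grind)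
  have : e ∉ A := by grind
  unfold Ind Cl at *; rw [h1, h2, card_insert_of_notMem this]; push_cast; omega

lemma ind_of_con (h : Rk r) {C X : Finset α} (k : Ind (J.con r C) X) : Ind r X :=
  h.ind_iff.2 (k ▸ h.con_le C X)

lemma ind_con_anti (h : Rk r) {A B X : Finset α} (hAB : A ⊆ B) (k : Ind (J.con r B) X) :
    Ind (J.con r A) X := (h.con A).ind_iff.2 (k ▸ h.con_anti hAB X)

lemma ind_con_disj (h : Rk r) {C X : Finset α} (k : Ind (J.con r C) X) : Disjoint X C := by
  rw [disjoint_left]
  intro e he hC
  exact (h.con C).ind_not_cl k he (empty_subset _) (cl_con.2 (cl_mem (by simpa using hC)))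

lemma ind_union (h : Rk r) {C X : Finset α} (hC : Ind r C) (k : Ind (J.con r C) X) :
    Ind r (X ∪ C) := by
  have := card_union_of_disjoint (h.ind_con_disj k)
  unfold Ind J.con at *; omega

lemma ind_con (h : Rk r) {C X : Finset α} (d : Disjoint X C) (k : Ind r (X ∪ C)) :
    Ind (J.con r C) X := by
  have := card_union_of_disjoint d
  have := h.ind_sub k subset_union_right
  unfold Ind J.con at *; omega

/-- basis extension -/
lemma ext (h : Rk r) {I Y : Finset α} (hIY : I ⊆ Y) (hI : Ind r I) :
    ∃ J, I ⊆ J ∧ J ⊆ Y ∧ Ind r J ∧ ∀ e ∈ Y, Cl r J e := by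
  induction hn : (Y \ I).card using Nat.strong_induction_on generalizing I with
  | _ n ih =>
    by_cases hex : ∃ e ∈ Y, ¬ Cl r I e
    · obtain ⟨e, he, h1⟩ := hex
      have heI : e ∉ I := fun k => h1 (cl_mem k)
      obtain ⟨J, a, b⟩ := ih _ (by
        rw [← hn]
        exact card_lt_card ⟨by grind, fun k => by have := @k e (by grind); grind⟩)
        (insert_subset he hIY) (h.ind_insert hI h1) rfl
      exact ⟨J, (subset_insert _ _).trans a, b⟩
    · push Not at hex
      exact ⟨I, subset_rfl, hIY, hI, hex⟩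

lemma basis (h : Rk r) (Y : Finset α) :
    ∃ J ⊆ Y, Ind r J ∧ (∀ e ∈ Y, Cl r J e) ∧ r Y = J.card := by
  obtain ⟨J, -, a, b, c⟩ := h.ext (empty_subset Y) h.ind_empty
  exact ⟨J, a, b, c, le_antisymm (b ▸ h.span_le c) (b ▸ h.mono a)⟩

lemma ind_of_le (h : Rk r) {Y : Finset α} {k : ℕ} (hk : (k : ℤ) ≤ r Y) :
    ∃ J ⊆ Y, Ind r J ∧ J.card = k := by
  obtain ⟨J, a, b, -, c⟩ := h.basis Y
  obtain ⟨I, d, e⟩ := exists_subset_card_eq (s := J) (n := k) (by omega)
  exact ⟨I, d.trans a, h.ind_sub b d, e⟩

/-- a set independent modulo C does not change the matroid on C -/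
lemma con_of_ind (h : Rk r) {C I X : Finset α} (k : Ind (J.con r C) I) (hX : X ⊆ C) :
    J.con r I X = r X := by
  have h1 := h.ind_con_anti hX k
  have h2 := h.ind_of_con k
  unfold Ind J.con at *; rw [union_comm]; omega

lemma con_of_ind' (h : Rk r) {C I X : Finset α} (k : Ind (J.con r C) I)
    (hX : ∀ e ∈ X, Cl r C e) : J.con r I X = r X := by
  have : J.con r C = J.con r (C ∪ X) :=
    h.con_congr (fun e he => cl_mem (by grind)) fun e he => by
      rcases mem_union.1 he with a | a
      exacts [cl_mem a, hX e a]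
  exact h.con_of_ind (this ▸ k) subset_union_right

/-- triangular independence: every nonempty subset has an element outside the closure of the rest -/
lemma ind_of_leaf (h : Rk r) {A I : Finset α}
    (k : ∀ J ⊆ I, J.Nonempty → ∃ e ∈ J, ¬ Cl r (J.erase e ∪ A) e) : Ind (J.con r A) I := by
  induction I using Finset.strongInduction with
  | H I ih =>
    rcases I.eq_empty_or_nonempty with rfl | ne
    · exact (h.con A).ind_empty
    · obtain ⟨e, he, h1⟩ := k I subset_rfl ne
      have := (h.con A).ind_insert (ih (I.erase e) (erase_ssubset he)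
        fun J hJ => k J (hJ.trans (erase_subset _ _))) (fun c => h1 (cl_con.1 c))
      rwa [insert_erase he] at this

/-- support of an element with respect to an independent set -/
lemma cl_inter (h : Rk r) {B A A' : Finset α} {e : α} (hB : Ind r B) (hA : A ⊆ B) (hA' : A' ⊆ B)
    (k : Cl r A e) (k' : Cl r A' e) : Cl r (A ∩ A') e := by
  have h1 := h.sub (X := insert e (A ∩ A')) (Y := A ∪ A') (A := insert e A) (B := insert e A')
    (by grind) (by grind) (by grind)
  have h2 := h.ind_sub hB (union_subset hA hA')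
  have h3 := h.ind_sub hB hA
  have h4 := h.ind_sub hB hA'
  have h5 := h.ind_sub hB (inter_subset_left.trans hA : A ∩ A' ⊆ B)
  have h6 := card_union_add_card_inter A A'
  rw [h.cl_iff]; unfold Ind Cl at *; omega

/-- an element spanned by B and by B minus b for all b in S is spanned by B minus S -/
lemma cl_sdiff (h : Rk r) {B S : Finset α} {e : α} (hB : Ind r B) (k : Cl r B e)
    (k' : ∀ b ∈ S, Cl r (B.erase b) e) : Cl r (B \ S) e := by
  induction S using Finset.induction_on with
  | empty => simpa using k
  | insert b S hb ih =>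
    have := h.cl_inter hB sdiff_subset (erase_subset b B)
      (ih fun x hx => k' x (mem_insert_of_mem hx)) (k' b (mem_insert_self _ _))
    rwa [show B \ S ∩ B.erase b = B \ insert b S by grind] at this

end Rk

lemma dual_dual (h : Rk r) {E X : Finset α} (hX : X ⊆ E) : dual (dual r E) E X = r X := by
  simp only [dual, sdiff_self, inter_self]
  rw [show E \ (E \ X) = X by grind, show (E \ X) ∩ E = E \ X by grind, inter_eq_left.2 hX]
  have := card_sdiff_add_card_eq_card hX
  simp only [bot_eq_empty, h.emp]; omega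

/-- the dual of a minor is a minor of the dual -/
lemma dual_con (h : Rk r) {E C E' X : Finset α} (hC : C ⊆ E) (hE : E' ⊆ E \ C) (hX : X ⊆ E') :
    dual (con r C) E' X = con (dual r E) (E \ (C ∪ E')) X := by
  simp only [dual, con]
  rw [show E \ (X ∪ E \ (C ∪ E')) = E' \ X ∪ C by grind, show E \ (E \ (C ∪ E')) = E' ∪ C by grind,
    inter_eq_left.2 hX, show (X ∪ E \ (C ∪ E')) ∩ E = X ∪ E \ (C ∪ E') by grind,
    show (E \ (C ∪ E')) ∩ E = E \ (C ∪ E') by grind, card_union_of_disjoint (by grind [disjoint_left])]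
  push_cast; ring

end Pool.Agent.Lib.MP_a4b0c4_co.J
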