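import Pool.Agent.Lib.MP_a4b0c4_co.JSpec
import Pool.Agent.Lib.MP_a4b0c4_co.JBasic

set_option autoImplicit false
set_option linter.unusedSectionVars false
set_option linter.unusedVariables false

open Finset

namespace Pool.Agent.Lib.MP_a4b0c4_co.J

section BFS
variable {V : Type}

/-- vertices at distance at most i from x -/
def ball (adj : V → V → Prop) (x : V) : ℕ → Set V
  | 0 => {x}
  | i + 1 => ball adj x i ∪ {y | ∃ z ∈ ball adj x i, adj z y}

variable {adj : V → V → Prop} {x : V}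

lemma ball_mono : Monotone (ball adj x) :=
  monotone_nat_of_le_succ fun _ => Set.subset_union_left

lemma ball_step {i : ℕ} {z y : V} (hz : z ∈ ball adj x i) (h : adj z y) : y ∈ ball adj x (i + 1) :=
  Or.inr ⟨z, hz, h⟩

lemma ball_self (i : ℕ) : x ∈ ball adj x i := ball_mono (Nat.zero_le i) rfl

/-- geodesic to a vertex at distance exactly i -/
lemma bfs_geo {i : ℕ} {y : V} (hy : y ∈ ball adj x i) (hn : ∀ j < i, y ∉ ball adj x j) :
    ∃ f : ℕ → V, f 0 = x ∧ f i = y ∧ (∀ a < i, adj (f a) (f (a + 1))) ∧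
      ∀ a ≤ i, f a ∈ ball adj x a ∧ ∀ j < a, f a ∉ ball adj x j := by
  classical
  induction i generalizing y with
  | zero =>
    refine ⟨fun _ => x, rfl, (Set.mem_singleton_iff.1 hy).symm, by simp, fun a ha => ?_⟩
    exact ⟨ball_self a, fun j hj => by omega⟩
  | succ i ih =>
    rcases hy with hy | ⟨z, hz, h⟩
    · exact absurd hy (hn i (by omega))
    obtain ⟨f, f0, f1, f2, f3⟩ := ih hz fun j hj k => hn (j + 1) (by omega) (ball_step k h)
    refine ⟨Function.update f (i + 1) y, ?_, ?_, fun a ha => ?_, fun a ha => ?_⟩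
    · rw [Function.update_of_ne (by omega), f0]
    · rw [Function.update_self]
    · rw [Function.update_of_ne (by omega)]
      by_cases e : a = i
      · subst e; rw [Function.update_self, f1]; exact h
      · rw [Function.update_of_ne (by omega)]; exact f2 a (by omega)
    · by_cases e : a = i + 1
      · subst e; rw [Function.update_self]; exact ⟨ball_step hz h, hn⟩
      · rw [Function.update_of_ne e]; exact f3 a (by omega)

/-- induced path to a vertex at distance exactly i -/
lemma bfs (sy : ∀ a b, adj a b → adj b a) {i : ℕ} {y : V} (hy : y ∈ ball adj x i)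
    (hn : ∀ j < i, y ∉ ball adj x j) :
    ∃ f : ℕ → V, f 0 = x ∧ f i = y ∧ (∀ a < i, adj (f a) (f (a + 1))) ∧
      (∀ a ≤ i, ∀ b ≤ i, adj (f a) (f b) → a ≤ b + 1 ∧ b ≤ a + 1) ∧
      (∀ a ≤ i, ∀ b ≤ i, f a = f b → a = b) ∧ ∀ a ≤ i, f a ∈ ball adj x a := by
  obtain ⟨f, f0, f1, f2, f3⟩ := bfs_geo hy hn
  have k1 : ∀ a ≤ i, ∀ b ≤ i, adj (f a) (f b) → b ≤ a + 1 := fun a ha b hb h => by
    by_contra k
    exact (f3 b hb).2 (a + 1) (by omega) (ball_step (f3 a ha).1 h)
  have k2 : ∀ a ≤ i, ∀ b ≤ i, f a = f b → b ≤ a := fun a ha b hb h => by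
    by_contra k
    exact (f3 b hb).2 a (by omega) (h ▸ (f3 a ha).1)
  exact ⟨f, f0, f1, f2, fun a ha b hb h => ⟨k1 b hb a ha (sy _ _ h), k1 a ha b hb h⟩,
    fun a ha b hb h => le_antisymm (k2 b hb a ha h.symm) (k2 a ha b hb h), fun a ha => (f3 a ha).1⟩

/-- a vertex outside the ball of radius i that is reachable gives a vertex at distance i + 1 -/
lemma bfs_exact {i k : ℕ} {y : V} (hy : y ∈ ball adj x k) (hn : y ∉ ball adj x i) :
    ∃ z ∈ ball adj x (i + 1), z ∉ ball adj x i := by
  by_contra c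
  push Not at c
  apply hn
  have : ∀ l, ball adj x l ⊆ ball adj x i := by
    intro l
    induction l with
    | zero => exact ball_mono (Nat.zero_le i)
    | succ l ih =>
      rintro w (hw | ⟨z, hz, h⟩)
      · exact ih hw
      · exact c w (ball_step (ih hz) h)
  exact this k hy

/-- balls are small when degrees are bounded -/
lemma ball_card [DecidableEq V] (nb : V → Finset V) {s : ℕ} (h1 : ∀ z y, adj z y → y ∈ nb z)
    (h2 : ∀ z, (nb z).card ≤ s) (i : ℕ) :
    ∃ T : Finset V, ball adj x i ⊆ T ∧ T.card ≤ (s + 1) ^ i := by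
  induction i with
  | zero => exact ⟨{x}, by simp [ball], by simp⟩
  | succ i ih =>
    obtain ⟨T, a, b⟩ := ih
    refine ⟨T ∪ T.biUnion nb, ?_, ?_⟩
    · rintro w (hw | ⟨z, hz, h⟩)
      · exact mem_union_left _ (a hw)
      · exact mem_union_right _ (mem_biUnion.2 ⟨z, a hz, h1 z w h⟩)
    · have := card_biUnion_le_card_mul T nb s fun z _ => h2 z
      have := card_union_le T (T.biUnion nb)
      have := Nat.mul_le_mul_right s b
      rw [pow_succ, mul_add]; omega

end BFS

section Big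
variable {α : Type} [DecidableEq α] {r : Finset α → ℤ} {P B : Finset α}

/-- fundamental graph of the basis B of P -/
def fadj (r : Finset α → ℤ) (P B : Finset α) (u v : α) : Prop :=
  (u ∈ B ∧ v ∈ P \ B ∧ ¬ Cl r (B.erase u) v) ∨ (v ∈ B ∧ u ∈ P \ B ∧ ¬ Cl r (B.erase v) u)

lemma fadj_symm (u v : α) (h : fadj r P B u v) : fadj r P B v u := h.symm

lemma big_closed (h : Rk r) (hB : Ind r B) (hs : ∀ e ∈ P, Cl r B e) {A : Finset α} (hA : A ⊆ P)
    (k : ∀ u ∈ A, ∀ v ∈ B, fadj r P B u v → v ∈ A) : r A ≤ (B ∩ A).card := by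
  refine (h.span_le (A := B ∩ A) fun e he => ?_).trans (h.le_card _)
  by_cases hb : e ∈ B
  · exact cl_mem (mem_inter.2 ⟨hb, he⟩)
  · have := h.cl_sdiff (S := B \ A) hB (hs e (hA he)) fun b hbA => by
      by_contra c
      obtain ⟨b1, b2⟩ := mem_sdiff.1 hbA
      exact b2 (k e he b b1 (Or.inr ⟨b1, mem_sdiff.2 ⟨hA he, hb⟩, c⟩))
    rwa [sdiff_sdiff_self_left] at this

/-- the fundamental graph of a connected matroid is connected -/
lemma big_conn (h : Rk r) (hc : Cntd r P) (hBP : B ⊆ P) (hB : Ind r B) (hs : ∀ e ∈ P, Cl r B e)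
    {x : α} (hx : x ∈ P) : ∀ y ∈ P, ∃ k, y ∈ ball (fadj r P B) x k := by
  classical
  let A := P.filter fun y => ∃ k, y ∈ ball (fadj r P B) x k
  have a1 : r A ≤ (B ∩ A).card := big_closed h hB hs (filter_subset _ _) fun u hu v hv k => by
    obtain ⟨-, l, hl⟩ := mem_filter.1 hu
    exact mem_filter.2 ⟨hBP hv, l + 1, ball_step hl k⟩
  have a2 : r (P \ A) ≤ (B ∩ (P \ A)).card := big_closed h hB hs sdiff_subset fun u hu v hv k => by
    obtain ⟨u1, u2⟩ := mem_sdiff.1 hu
    refine mem_sdiff.2 ⟨hBP hv, fun c => u2 ?_⟩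
    obtain ⟨-, l, hl⟩ := mem_filter.1 c
    exact mem_filter.2 ⟨u1, l + 1, ball_step hl k.symm⟩
  have a3 : (B ∩ (P \ A)) = B \ A := by grind
  have a4 := card_inter_add_card_sdiff B A
  have a5 := h.mono hBP
  rcases hc A (filter_subset _ _) (by unfold Ind at hB; rw [a3] at a2; omega) with e | e
  · have : x ∈ A := mem_filter.2 ⟨hx, 0, rfl⟩
    rw [e] at this; simp at this
  · intro y hy
    rw [← e] at hy
    exact (mem_filter.1 hy).2

lemma big_rank (h : Rk r) (hB : Ind r B) (hs : ∀ e ∈ P, Cl r B e) {X : Finset α} (hX : X ⊆ P) :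
    r X ≤ B.card := hB ▸ h.span_le fun e he => hs e (hX he)

/-- a row of large degree gives a parallel class -/
lemma big_row (h : Rk r) (hBP : B ⊆ P) (hB : Ind r B) (hs : ∀ e ∈ P, Cl r B e) {b : α}
    (hb : b ∈ B) {J : Finset α} (hJ : ∀ c ∈ J, c ∈ P \ B ∧ ¬ Cl r (B.erase b) c) :
    Par (con r (B.erase b)) J := by
  have h1 := h.ind_sub hB (erase_subset b B)
  have h2 := card_erase_add_one hb
  constructor
  · have := big_rank h hB hs (X := J ∪ B.erase b) (by grind)
    unfold Ind con at *; omega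
  · intro c hc
    have := h.not_cl.1 (hJ c hc).2
    simp only [con, singleton_union]; omega

/-- a column of large degree gives a circuit -/
lemma big_col (h : Rk r) (hBP : B ⊆ P) (hB : Ind r B) (hs : ∀ e ∈ P, Cl r B e) {c : α}
    (hc : c ∈ P \ B) {S : Finset α} (hS : ∀ b ∈ S, b ∈ B ∧ ¬ Cl r (B.erase b) c) :
    Circ (con r (B \ S)) (insert c S) := by
  obtain ⟨c1, c2⟩ := mem_sdiff.1 hc
  have s1 : S ⊆ B := fun b hb => (hS b hb).1
  have h1 := h.ind_sub hB (sdiff_subset (t := S))
  have h2 := card_sdiff_add_card_eq_card s1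
  have h3 : (insert c S).card = S.card + 1 := card_insert_of_notMem fun k => c2 (s1 k)
  have h4 := hs c c1
  constructor
  · simp only [con]
    rw [show insert c S ∪ B \ S = insert c B by grind]
    unfold Ind Cl at *; omega
  · intro b hb
    simp only [con]
    rcases mem_insert.1 hb with rfl | hb
    · rw [show (insert b S).erase b ∪ B \ S = B by grind]
      unfold Ind at *; omega
    · rw [show (insert c S).erase b ∪ B \ S = insert c (B.erase b) by grind]
      have h5 := h.not_cl.1 (hS b hb).2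
      have h6 := h.ind_sub hB (erase_subset b B)
      have h7 := card_erase_add_one (s1 hb)
      unfold Ind at *; omega

/-- a long induced path gives a parallel class -/
lemma big_path (h : Rk r) (hBP : B ⊆ P) (hB : Ind r B) (hs : ∀ e ∈ P, Cl r B e) {s : ℕ}
    (b c : ℕ → α) (hb : ∀ i ≤ s, b i ∈ B) (hc : ∀ i < s, c i ∈ P \ B)
    (bi : ∀ i ≤ s, ∀ j ≤ s, b i = b j → i = j) (ci : ∀ i < s, ∀ j < s, c i = c j → i = j)
    (ad : ∀ i ≤ s, ∀ j < s, ¬ Cl r (B.erase (b i)) (c j) ↔ i = j ∨ i = j + 1) :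
    Par (con r ((B \ (range (s + 1)).image b) ∪ (range s).image c)) ((range (s + 1)).image b) := by
  set J := (range (s + 1)).image b with hJ
  set Q := (range s).image c with hQ
  have j1 : J ⊆ B := fun y hy => by
    obtain ⟨i, hi, rfl⟩ := mem_image.1 hy
    exact hb i (by simpa [Nat.lt_succ_iff] using hi)
  have q1 : Q ⊆ P \ B := fun y hy => by
    obtain ⟨i, hi, rfl⟩ := mem_image.1 hy
    exact hc i (mem_range.1 hi)
  have j2 : J.card = s + 1 := by
    rw [card_image_of_injOn fun i hi j hj => bi i (by simpa [Nat.lt_succ_iff] using hi) j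
      (by simpa [Nat.lt_succ_iff] using hj), card_range]
  have q2 : Q.card = s := by
    rw [card_image_of_injOn fun i hi j hj => ci i (by simpa using hi) j (by simpa using hj),
      card_range]
  have h2 := card_sdiff_add_card_eq_card j1
  have k1 : r (B \ J ∪ Q) ≤ B.card - 1 := by
    have := h.le_card (B \ J ∪ Q)
    have := card_union_le (B \ J) Q
    omega
  have k2 : ∀ i ≤ s, (B.card : ℤ) ≤ r (insert (b i) (B \ J ∪ Q)) := by
    intro i hi
    have bJ : b i ∈ J := mem_image_of_mem _ (mem_range.2 (by omega))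
    have leaf : ∀ I ⊆ Q, ∀ k < s, c k ∈ I → ∀ l ≤ s, l ≠ i → (l = k ∨ l = k + 1) →
        (∀ j < s, c j ∈ I → j ≠ k → ¬ (l = j ∨ l = j + 1)) →
        ∃ e ∈ I, ¬ Cl r (I.erase e ∪ insert (b i) (B \ J)) e := by
      intro I hI k hk hkI l hl hli hlk hno
      refine ⟨c k, hkI, fun cl => (ad l hl k hk).2 hlk (h.cl_trans (fun y hy => ?_) cl)⟩
      rcases mem_union.1 hy with hy | hy
      · obtain ⟨y1, y2⟩ := mem_erase.1 hy
        obtain ⟨j, hj, rfl⟩ := mem_image.1 (hI y2)
        by_contra c'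
        exact hno j (mem_range.1 hj) y2 (fun e => y1 (e ▸ rfl)) ((ad l hl j (mem_range.1 hj)).1 c')
      · refine cl_mem (mem_erase.2 ?_)
        rcases mem_insert.1 hy with rfl | hy
        · exact ⟨fun e => hli (bi _ hi _ hl e).symm, hb i hi⟩
        · obtain ⟨y1, y2⟩ := mem_sdiff.1 hy
          exact ⟨fun e => y2 (e ▸ mem_image_of_mem _ (mem_range.2 (by omega))), y1⟩
    have i1 : Ind (con r (insert (b i) (B \ J))) Q := h.ind_of_leaf fun I hI ne => by
      classical
      let T := (range s).filter fun j => c j ∈ I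
      have tn : T.Nonempty := by
        obtain ⟨y, hy⟩ := ne
        obtain ⟨j, hj, rfl⟩ := mem_image.1 (hI hy)
        exact ⟨j, mem_filter.2 ⟨hj, hy⟩⟩
      obtain ⟨k, hk, hmin⟩ := exists_min_image T id tn
      obtain ⟨k', hk', hmax⟩ := exists_max_image T id tn
      obtain ⟨t1, t2⟩ := mem_filter.1 hk
      obtain ⟨t3, t4⟩ := mem_filter.1 hk'
      rw [mem_range] at t1 t3
      by_cases hki : k < i
      · refine leaf I hI k t1 t2 k t1.le hki.ne (Or.inl rfl) fun j hj hjI hne => ?_
        have := hmin j (mem_filter.2 ⟨mem_range.2 hj, hjI⟩)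
        simp only [id] at this; omega
      · have := hmax k hk
        simp only [id] at this
        refine leaf I hI k' t3 t4 (k' + 1) t3 (by omega) (Or.inr rfl) fun j hj hjI hne => ?_
        have := hmax j (mem_filter.2 ⟨mem_range.2 hj, hjI⟩)
        simp only [id] at this; omega
    have i2 : Ind r (insert (b i) (B \ J)) := h.ind_sub hB (insert_subset (hb i hi) sdiff_subset)
    have i3 : (insert (b i) (B \ J)).card = (B \ J).card + 1 :=
      card_insert_of_notMem fun k => (mem_sdiff.1 k).2 bJ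
    rw [show insert (b i) (B \ J ∪ Q) = Q ∪ insert (b i) (B \ J) by grind]
    unfold Ind con at *; omega
  constructor
  · have := big_rank h hB hs (X := J ∪ (B \ J ∪ Q)) (by grind)
    have := k2 0 (Nat.zero_le s)
    have := h.unit (b 0) (B \ J ∪ Q)
    simp only [con]; omega
  · intro y hy
    obtain ⟨i, hi, rfl⟩ := mem_image.1 hy
    have := k2 i (by simpa [Nat.lt_succ_iff] using hi)
    have := h.unit (b i) (B \ J ∪ Q)
    simp only [con, singleton_union]; omega

theorem big : StBig := by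
  intro s
  rcases s with _ | s
  · exact ⟨0, fun α _ r P h _ _ => ⟨∅, ∅, by simp, by simp, rfl, .inl ⟨by simp [con], by simp⟩⟩⟩
  refine ⟨(s + 1) ^ (2 * s) + 1, fun α _ r P h hc hP => ?_⟩
  classical
  obtain ⟨B, hBP, hB, hs, -⟩ := h.basis P
  by_cases hd : ∃ z, s + 1 ≤ (P.filter (fadj r P B z)).card
  · obtain ⟨z, hz⟩ := hd
    by_cases hzB : z ∈ B
    · obtain ⟨J, j1, j2⟩ := exists_subset_card_eq hz
      have : ∀ c ∈ J, c ∈ P \ B ∧ ¬ Cl r (B.erase z) c := fun c hc => by
        rcases (mem_filter.1 (j1 hc)).2 with k | k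
        · exact k.2
        · exact absurd hzB (mem_sdiff.1 k.2.1).2
      exact ⟨B.erase z, J, (erase_subset _ _).trans hBP, fun c hc =>
        sdiff_subset_sdiff subset_rfl (erase_subset _ _) (this c hc).1, j2,
        .inl (big_row h hBP hB hs hzB this)⟩
    · obtain ⟨S, j1, j2⟩ := exists_subset_card_eq (n := s) ((Nat.le_succ s).trans hz)
      have k0 : ∀ c ∈ P.filter (fadj r P B z), c ∈ B ∧ z ∈ P \ B ∧ ¬ Cl r (B.erase c) z :=
        fun c hc => ((mem_filter.1 hc).2.resolve_left fun k => hzB k.1)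
      obtain ⟨c0, hc0⟩ : (P.filter (fadj r P B z)).Nonempty := card_pos.1 (by omega)
      have z1 := (k0 c0 hc0).2.1
      have : ∀ b ∈ S, b ∈ B ∧ ¬ Cl r (B.erase b) z := fun b hb =>
        ⟨(k0 b (j1 hb)).1, (k0 b (j1 hb)).2.2⟩
      refine ⟨B \ S, insert z S, sdiff_subset.trans hBP, insert_subset
        (sdiff_subset_sdiff subset_rfl sdiff_subset z1) fun b hb =>
        mem_sdiff.2 ⟨hBP (this b hb).1, fun k => (mem_sdiff.1 k).2 hb⟩, ?_,
        .inr (big_col h hBP hB hs z1 this)⟩
      rw [card_insert_of_notMem fun k => hzB (this z k).1, j2]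
  push Not at hd
  have adP : ∀ z y, fadj r P B z y → y ∈ P := by
    rintro z y (k | k)
    · exact (mem_sdiff.1 k.2.1).1
    · exact hBP k.1
  have small := fun x => ball_card (adj := fadj r P B) (x := x) (s := s)
    (fun z => P.filter (fadj r P B z)) (fun z y k => mem_filter.2 ⟨adP z y k, k⟩)
    fun z => Nat.lt_succ_iff.1 (hd z)
  have far : ∀ x ∈ P, ∃ y ∈ P, y ∉ ball (fadj r P B) x (2 * s) := by
    intro x hx
    obtain ⟨T, t1, t2⟩ := small x (2 * s)
    by_contra c
    push Not at c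
    have := card_le_card (s := P) (t := T) fun y hy => t1 (c y hy)
    omega
  obtain ⟨x, hx⟩ : B.Nonempty := by
    obtain ⟨x0, hx0⟩ : P.Nonempty := card_pos.1 (by omega)
    obtain ⟨y, y1, y2⟩ := far x0 hx0
    obtain ⟨k, hk⟩ := big_conn h hc hBP hB hs hx0 y y1
    obtain ⟨z, z1, z2⟩ := bfs_exact hk y2
    rcases z1 with z1 | ⟨w, -, k | k⟩
    · exact absurd z1 z2
    · exact ⟨w, k.1⟩
    · exact ⟨z, k.1⟩
  obtain ⟨y, y1, y2⟩ := far x (hBP hx)
  obtain ⟨k, hk⟩ := big_conn h hc hBP hB hs (hBP hx) y y1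
  obtain ⟨z, z1, z2⟩ := bfs_exact hk y2
  obtain ⟨f, f0, -, f2, f3, f4, -⟩ := bfs fadj_symm z1 fun j hj k =>
    z2 (ball_mono (Nat.lt_succ_iff.1 hj) k)
  have par : ∀ i ≤ s, f (2 * i) ∈ B ∧ f (2 * i + 1) ∈ P \ B := by
    have st : ∀ i ≤ s, f (2 * i) ∈ B → f (2 * i + 1) ∈ P \ B := fun i hi k => by
      rcases f2 (2 * i) (by omega) with l | l
      · exact l.2.1
      · exact absurd k (mem_sdiff.1 l.2.1).2
    intro i
    induction i with
    | zero => intro _; exact ⟨f0 ▸ hx, st 0 (by omega) (f0 ▸ hx)⟩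
    | succ i ih =>
      intro hi
      have : f (2 * (i + 1)) ∈ B := by
        rcases f2 (2 * i + 1) (by omega) with l | l
        · exact absurd l.1 (mem_sdiff.1 (ih (by omega)).2).2
        · exact l.1
      exact ⟨this, st _ hi this⟩
  have bi : ∀ i ≤ s, ∀ j ≤ s, f (2 * i) = f (2 * j) → i = j := fun i hi j hj e => by
    have := f4 _ (by omega) _ (by omega) e; omega
  have := big_path h hBP hB hs (s := s) (fun i => f (2 * i)) (fun i => f (2 * i + 1))
    (fun i hi => (par i hi).1) (fun i hi => (par i hi.le).2) bi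
    (fun i hi j hj e => by have := f4 _ (by omega) _ (by omega) e; omega)
    (fun i hi j hj => ⟨fun k => by
      have := f3 _ (by omega) _ (by omega) (Or.inl ⟨(par i hi).1, (par j hj.le).2, k⟩)
      omega, fun k => by
      have ad : fadj r P B (f (2 * i)) (f (2 * j + 1)) := by
        rcases k with rfl | rfl
        · exact f2 _ (by omega)
        · exact (f2 (2 * j + 1) (by omega)).symm
      rcases ad with l | l
      · exact l.2.2
      · exact absurd l.1 (mem_sdiff.1 (par j hj.le).2).2⟩)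
  refine ⟨_, _, union_subset (sdiff_subset.trans hBP) fun y hy => ?_, fun y hy => ?_, ?_, .inl this⟩
  · obtain ⟨i, hi, rfl⟩ := mem_image.1 hy
    exact (mem_sdiff.1 (par i (mem_range.1 hi).le).2).1
  · obtain ⟨i, hi, e⟩ := mem_image.1 hy
    have yB : y ∈ B := e ▸ (par i (by simpa [Nat.lt_succ_iff] using hi)).1
    refine mem_sdiff.2 ⟨hBP yB, fun k => ?_⟩
    rcases mem_union.1 k with k | k
    · exact (mem_sdiff.1 k).2 hy
    · obtain ⟨j, hj, e'⟩ := mem_image.1 k
      exact (mem_sdiff.1 (par j (mem_range.1 hj).le).2).2 (e' ▸ yB)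
  · rw [card_image_of_injOn fun i hi j hj => bi i (by simpa [Nat.lt_succ_iff] using hi) j
      (by simpa [Nat.lt_succ_iff] using hj), card_range]

end Big

end Pool.Agent.Lib.MP_a4b0c4_co.J
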