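import Pool.Agent.Lib.MP_a4b0c4_co.JS1b

/-! Hub case of the strip theorem: nodes and assembly. -/

set_option autoImplicit false
set_option linter.unusedSectionVars false
set_option linter.unusedVariables false

open Finset

namespace Pool.Agent.Lib.MP_a4b0c4_co.J.U

/-- shift -/
noncomputable def sh {A : Type} (j : ℕ) : A × ℝ → A × ℝ := Prod.map id fun x => x + j

lemma sh_inj {A : Type} (j : ℕ) : Function.Injective (sh (A := A) j) :=
  Function.injective_id.prodMap (add_left_injective _)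

lemma mem_sh {A : Type} [DecidableEq A] {X : Finset (A × ℝ)} (h : ∀ x ∈ X, 0 < x.2 ∧ x.2 < 1) {j : ℕ}
    {y : A × ℝ} (hy : y ∈ X.image (sh j)) : (j : ℝ) < y.2 ∧ y.2 < (j + 1 : ℕ) := by
  obtain ⟨x, hx, rfl⟩ := mem_image.1 hy
  have := h x hx
  simp only [sh, Prod.map]
  push_cast
  constructor <;> linarith

section
variable {Θ Γ : Type} [DecidableEq Θ] [DecidableEq Γ] {P : Finset (Θ × ℝ) → Finset (Γ × ℝ) → ℤ}

lemma InvP.sh (h : InvP P) (j : ℕ) (D : Finset (Θ × ℝ)) (Y : Finset (Γ × ℝ)) :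
    P (D.image (sh j)) (Y.image (sh j)) = P D Y :=
  h _ D Y ((strictMono_id.add_const _).strictMonoOn _)

/-- the pattern of a node -/
lemma pattern (h : BM P) (hi : InvP P) {n : ℕ} (τ : Θ)
    (hb : ∀ D Y, (∀ d ∈ D, d.1 = τ) → (∀ y ∈ Y, ∀ d ∈ D, y.2 < d.2) → P D Y ≤ n) :
    ∃ (D : Finset (Θ × ℝ)) (C : Finset (Γ × ℝ)), (∀ d ∈ D, d.1 = τ) ∧ (∀ d ∈ D, 0 < d.2 ∧ d.2 < 1) ∧
      (∀ c ∈ C, 0 < c.2 ∧ c.2 < 1) ∧ (∀ c ∈ C, ∀ d ∈ D, c.2 < d.2) ∧ D.card = C.card ∧
      C.card ≤ n ∧ Ind (P D) C ∧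
      ∀ D' Y, (∀ d ∈ D', d.1 = τ) → (∀ y ∈ Y, ∀ d ∈ D', y.2 < d.2) → P D' Y ≤ C.card := by
  obtain ⟨f, ⟨D, Y, a, b, rfl⟩, mx⟩ := Int.exists_greatest_of_bdd
    (P := fun z => ∃ D Y, (∀ d ∈ D, d.1 = τ) ∧ (∀ y ∈ Y, ∀ d ∈ D, y.2 < d.2) ∧ P D Y = z)
    ⟨n, fun z ⟨D, Y, a, b, c⟩ => c ▸ hb D Y a b⟩ ⟨_, ∅, ∅, by simp, by simp, rfl⟩
  have e := hi Real.sigmoid D Y (Real.sigmoid_strictMono.strictMonoOn _)
  have := hb D Y a b
  obtain ⟨D', d1, C, c1, k1, k2, k3⟩ := h.nonsing (D.image (Prod.map id Real.sigmoid))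
    (Y.image (Prod.map id Real.sigmoid))
  refine ⟨D', C, fun d hd => ?_, fun d hd => ?_, fun c hc => ?_, fun c hc d hd => ?_, by omega, by omega,
    k3.trans k2.symm, fun D1 Y1 a1 b1 => by have := mx _ ⟨D1, Y1, a1, b1, rfl⟩; omega⟩
  · obtain ⟨x, hx, rfl⟩ := mem_image.1 (d1 hd)
    exact a x hx
  · obtain ⟨x, hx, rfl⟩ := mem_image.1 (d1 hd)
    exact ⟨Real.sigmoid_pos _, Real.sigmoid_lt_one _⟩
  · obtain ⟨x, hx, rfl⟩ := mem_image.1 (c1 hc)
    exact ⟨Real.sigmoid_pos _, Real.sigmoid_lt_one _⟩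
  · obtain ⟨x, hx, rfl⟩ := mem_image.1 (d1 hd)
    obtain ⟨y, hy, rfl⟩ := mem_image.1 (c1 hc)
    exact Real.sigmoid_strictMono (b y hy x hx)

end

theorem s1 (fk : StFK) : StS1 := by
  intro n
  obtain ⟨m, hm⟩ := fk n
  refine ⟨n * n + n * (n * (m * n)) + 1, fun T Θ S Γ _ _ _ _ _ _ _ _ ρ inv hb fr st τ Y hY hw => ?_⟩
  have hn : 0 < n := (fr.row hb (R := ∅) (Y := ∅) (by simp) (by simp)).pos (Lab.o τ 0)
  have oi : ∀ {A B : Type}, Function.Injective fun x : B × ℝ => (Lab.o x.1 x.2 : Lab A B Empty ℝ) :=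
    fun {A B} x y k => by simpa [Lab.o, Prod.ext_iff] using k
  obtain ⟨ρc, hρ⟩ : ∃ ρc : Finset (Lab T Θ Empty ℝ) → Finset (Γ × ℝ) → ℤ, ρc = fun R Y => ρ R (ls Y) :=
    ⟨_, rfl⟩
  have e1 : pullB ρ id (fun x : Γ × ℝ => Lab.o x.1 x.2) = ρc := by
    funext R Y; simp only [pullB, image_id, hρ, ls]
  have bc : BM ρc := e1 ▸ hb.pull _ _
  have fc : FreeB n ρc Set.univ Set.univ := e1 ▸ fr.pull hb (Set.injOn_id _) oi.injOn (by simp) (by simp)
  obtain ⟨P, hP⟩ : ∃ P : Finset (Θ × ℝ) → Finset (Γ × ℝ) → ℤ, P = fun D => ρc (ls D) := ⟨_, rfl⟩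
  have eP : ∀ D Y, P D Y = ρ (ls D) (ls Y) := fun D Y => by rw [hP, hρ]
  have bP : BM P := by rw [hP, hρ]; exact hb.pull _ _
  have iP : InvP P := fun φ D Y k => by simpa only [eP, image_empty, empty_union] using inv' inv ∅ ∅ φ D Y k
  have zP : ∀ d c, d.2 < c.2 → P {d} {c} = 0 := fun d c k => by
    rw [eP, ls, ls, image_singleton, image_singleton]; exact st.zero _ _ _ _ k
  obtain ⟨U, hU⟩ : ∃ U, U = ρc (gs T Θ) := ⟨_, rfl⟩
  have rU : Rk U := hU ▸ bc.col _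
  have fU : ∀ H, Free n U H := fun H => hU ▸ fc.col bc (Set.subset_univ _) (Set.subset_univ _)
  have kU : ∀ H, U H ≤ (gs T Θ : Finset (Lab T Θ Empty ℝ)).card := fun H => hU ▸ bc.le_l _ _
  have iU : InvP fun Y (_ : Finset (Unit × ℝ)) => U Y := fun φ D Y k => by
    simpa [hU, hρ, ls, gs] using inv' inv univ ∅ φ ∅ D (k.mono (by simp))
  have sp := spanV hn rU iU fU kU (m : ℝ)
  obtain ⟨D, C, d1, d2, c1, c2, c3, c4, c5, mx⟩ := pattern bP iP (n := n) τ fun D Y a b => by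
    have := (InvP.span (F := fun D (_ : Finset (Unit × ℝ)) => ρ (ls D) (gs S Γ)) (Y := ∅) (i := τ)
      (fun φ D Y k => by simpa [ls, gs] using inv' inv ∅ univ φ D ∅ (k.mono (by simp))) hn
      ((hb.row (gs S Γ)).pull _) (fun H _ => (fr.row hb (R := ls H) (Set.subset_univ _)
        (Set.subset_univ _)).pull (hb.row _) oi.injOn
        fun x hx => mem_image_of_mem (fun x : Θ × ℝ => Lab.o x.1 x.2) hx) (fun H _ => hb.le_r _ _) (I := D)
      fun x hx => ⟨a x hx, by simp⟩).1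
    have h1 := hb.mono (subset_refl (ls D)) (subset_union_right (s₁ := gs S Γ) (s₂ := ls Y))
    rw [st.fb D Y b] at h1
    rw [eP]
    exact h1.trans this.le
  have rD := bP.col D
  have see : ∀ y ∈ Y, ∀ x : ℝ, 0 < x → P {(τ, x)} {(y.1, 0)} = 1 := fun y hy x hx => by
    have := iP (fun u => x * u) {(τ, 1)} {(y.1, 0)} ((strictMono_mul_left_of_pos hx).strictMonoOn _)
    simp only [image_singleton, Prod.map, id, mul_one, mul_zero] at this
    rw [this, eP, ls, ls, image_singleton, image_singleton]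
    exact hY y hy
  have cls : ∀ y ∈ Y, ∃ k ∈ C, ¬ Cl (P D) (C.erase k) (y.1, 0) := fun y hy => by
    by_contra l
    push Not at l
    have a1 := rD.cl_sdiff c5 (rD.cl_iff.2 (c5 ▸ mx D _ d1 fun z hz d hd =>
      (mem_insert.1 hz).elim (fun e => e ▸ (d2 d hd).1) fun k => c2 z k d hd)) l
    have a2 := mx {(τ, 1)} {(y.1, 0)} (by simp) (by simp)
    rw [see y hy 1 one_pos] at a2
    obtain ⟨d, hd⟩ : D.Nonempty := card_pos.1 (by omega)
    have a3 := bP.mono (singleton_subset_iff.2 hd) (subset_refl {(y.1, (0 : ℝ))})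
    rw [show d = (τ, d.2) from Prod.ext (d1 d hd) rfl, see y hy _ (d2 d hd).1] at a3
    rw [Finset.sdiff_self, Cl, rD.emp] at a1
    exact absurd (a3.trans_eq a1) (by decide)
  classical
  obtain ⟨A, hA⟩ : ∃ A : Γ × ℝ → Finset Γ, ∀ k a, a ∈ A k ↔ a ∈ Y.image Prod.fst ∧
    ¬ Cl (P D) (C.erase k) (a, 0) := ⟨fun k => (Y.image Prod.fst).filter _, fun k a => mem_filter⟩
  obtain ⟨k, hk, big⟩ : ∃ k ∈ C, ((n * (m * n) : ℕ) : ℤ) <
      con U ((C.image Prod.fst).biUnion (VV n m)) ((A k).biUnion (VV n m)) := by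
    by_contra l
    push Not at l
    have a1 := ((rU.con _).biUnion_le C _).trans (sum_le_card_nsmul C _ _ l)
    have a2 := (rU.biUnion_le (C.image Prod.fst) _).trans
      (sum_le_card_nsmul _ _ _ fun a _ => (sp a).1.le)
    have a3 := rU.span_le (X := Y) (A := (C.biUnion fun k => (A k).biUnion (VV n m)) ∪
      (C.image Prod.fst).biUnion (VV n m)) fun y hy => by
        obtain ⟨k, k1, k2⟩ := cls y hy
        exact rU.cl_mono (((subset_biUnion_of_mem _ ((hA k _).2 ⟨mem_image_of_mem _ hy, k2⟩)).trans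
          (subset_biUnion_of_mem (fun k => (A k).biUnion (VV n m)) k1)).trans subset_union_left)
          ((sp y.1).2 y.2)
    have a4 := Nat.mul_le_mul_right (n * (m * n)) c4
    have a5 := Nat.mul_le_mul_right n (card_image_le.trans c4 : (C.image Prod.fst).card ≤ n)
    have a6 : ρ (gs T Θ) (ls Y) = U Y := by rw [hU, hρ]
    rw [nsmul_eq_mul, ← Nat.cast_mul] at a1 a2
    unfold con at a1
    omega
  obtain ⟨K, w, σ, u1, u2, u3, u4, u5, u6, u7⟩ := upart hn rU iU fU kU m _ _ big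
  obtain ⟨DA, hDA⟩ : ∃ DA, DA = (univ : Finset (Fin m)).biUnion fun j => D.image (sh j) := ⟨_, rfl⟩
  have mD : ∀ d ∈ DA, ∃ j : Fin m, d ∈ D.image (sh j) := fun d hd => by simpa [hDA] using hd
  have sD : ∀ j : Fin m, D.image (sh j) ⊆ DA := fun j =>
    hDA ▸ subset_biUnion_of_mem (fun j : Fin m => D.image (sh j)) (mem_univ j)
  have lt : ∀ {i j : ℕ} {x y : ℝ}, i < j → x < (i + 1 : ℕ) → (j : ℝ) ≤ y → x < y := fun a b c =>
    b.trans_le ((Nat.cast_le.2 a).trans c)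
  have pd : PD fun j : Fin m => C.image (sh j) := fun i j l => disjoint_left.2 fun x a b =>
    (lt_or_gt_of_ne l).elim (fun l => (lt l (mem_sh c1 a).2 (mem_sh c1 b).1.le).false)
      fun l => (lt l (mem_sh c1 b).2 (mem_sh c1 a).1.le).false
  have iC : ∀ s : Finset (Fin m), Ind (P (s.biUnion fun j => D.image (sh j)))
      (s.biUnion fun j => C.image (sh j)) := fun s => by
    induction s using Finset.induction_on_max with
    | empty => exact (bP.col _).ind_empty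
    | insert j s l ih =>
      rw [biUnion_insert, biUnion_insert, union_comm (C.image _)]
      refine glue bP subset_union_right subset_union_left ih ?_ fun d hd c hc => ?_
      · rw [Ind, iP.sh, card_image_of_injective _ (sh_inj _)]
        exact c5
      · obtain ⟨i, a, b⟩ := mem_biUnion.1 hd
        exact zP d c (lt (l i a) (mem_sh d2 b).2 (mem_sh c1 hc).1.le)
  have eD : ρc (ls DA) = P DA := by rw [hP]
  refine core bc fc hm (T := gs T Θ) (D := ls DA) (K := K) (u := fun j => sh j k) (w := w)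
    (e := fun x => sh x.1 (σ x.2, 0)) pd (fun j => mem_image_of_mem _ hk) (eD ▸ hDA ▸ iC univ) ?_ ?_
    (hU ▸ u3) u4 u5 (fun j c hc => ?_) (fun x => hU ▸ (u7 x.2 _ ?_).1) (fun x => hU ▸ (u7 x.2 _ ?_).2)
    (fun x => ?_) fun x l => ?_
  · rw [card_biUnion fun i _ j _ l => pd i j l]
    refine card_image_le.trans (hDA ▸ card_biUnion_le.trans (sum_le_sum fun j _ => ?_))
    rw [card_image_of_injective _ (sh_inj _), card_image_of_injective _ (sh_inj _), c3]
  · rw [eD]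
    refine bP.zero fun d hd c hc => ?_
    obtain ⟨j, a⟩ := mD d hd
    exact zP d c ((mem_sh d2 a).2.trans_le ((Nat.cast_le.2 j.2).trans (u2 c hc)))
  · obtain ⟨x, hx, rfl⟩ := mem_image.1 hc
    exact hU ▸ u6 _ (show x.1 ∈ _ from mem_image_of_mem Prod.fst hx)
  · simp
  · simp
  · have a1 := bP.drop_row (R := DA) (Y := insert (sh x.1 (σ x.2, 0)) (C.image (sh x.1)))
      (filter_subset (fun d => ∀ y ∈ insert (sh x.1 (σ x.2, 0)) (C.image (sh x.1)), y.2 < d.2) DA)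
      fun d hd l c hc => by
        obtain ⟨j, a⟩ := mD d hd
        have b1 : ∀ y ∈ insert (sh x.1 (σ x.2, 0)) (C.image (sh x.1)),
            ((x.1 : ℕ) : ℝ) ≤ y.2 ∧ y.2 < (x.1 + 1 : ℕ) := fun y hy =>
          (mem_insert.1 hy).elim (fun e => by simp [e, sh]) fun k => ⟨(mem_sh c1 k).1.le, (mem_sh c1 k).2⟩
        rcases lt_trichotomy j x.1 with q | rfl | q
        · exact zP d c (lt q (mem_sh d2 a).2 (b1 c hc).1)
        · refine absurd (mem_filter.2 ⟨hd, fun y hy => ?_⟩) l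
          obtain ⟨d', a', rfl⟩ := mem_image.1 a
          rw [← image_insert] at hy
          obtain ⟨y', b, rfl⟩ := mem_image.1 hy
          exact add_lt_add_left ((mem_insert.1 b).elim (fun e => e ▸ (d2 d' a').1)
            fun k => c2 y' k d' a') _
        · exact absurd (mem_filter.2 ⟨hd, fun y hy => lt q (b1 y hy).2 (mem_sh d2 a).1.le⟩) l
    have a2 := a1.trans_le (mx _ _ (fun d hd => by
      obtain ⟨j, a⟩ := mD d (mem_filter.1 hd).1
      obtain ⟨d', a', rfl⟩ := mem_image.1 a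
      exact d1 d' a') fun y hy d hd => (mem_filter.1 hd).2 y hy)
    have a3 := bP.mono (sD x.1) (subset_refl (C.image (sh x.1)))
    rw [iP.sh, c5] at a3
    rw [eD, (bP.col _).cl_iff]
    exact a2.trans a3
  · have a1 := bP.cl_view (sD x.1) (eD ▸ l)
    rw [Cl, ← image_erase (sh_inj _), ← image_insert, iP.sh, iP.sh] at a1
    exact ((hA k _).1 (u1 x.2)).2 a1

end Pool.Agent.Lib.MP_a4b0c4_co.J.U
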