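import Pool.Agent.Lib.MP_a4b0c4_co.JBM
import Pool.Agent.Lib.MP_a4b0c4_co.JSpec

set_option autoImplicit false
set_option linter.unusedSectionVars false
set_option linter.unusedVariables false

open Finset

namespace Pool.Agent.Lib.MP_a4b0c4_co.J.F

variable {n L : ℕ} {ρ : Finset (ℕ × ℝ) → Finset (ℕ × ℝ) → ℤ}

/-- shift of the types -/
def sh (a : ℕ) (x : ℕ × ℝ) : ℕ × ℝ := (a + x.1, x.2)
/-- shift of the types and reflection of the positions -/
def rf (a : ℕ) (x : ℕ × ℝ) : ℕ × ℝ := (a + x.1, -x.2)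

lemma lad_shift (h : Lad n L ρ) {a l : ℕ} (hl : a + l ≤ L) : Lad n l (pullB ρ (sh a) (sh a)) := by
  have inj : Function.Injective (sh a) := fun x y c => by simpa [sh, Prod.ext_iff] using c
  refine ⟨h.bm.pull _ _, h.free.pull h.bm inj.injOn inj.injOn (fun x hx => ?_) fun x hx => ?_,
    fun φ D Y hφ => ?_, fun d c k => ?_, fun d c k1 k2 k3 k4 => ?_, ?_⟩
  · simp only [Set.mem_ofPred_eq, sh] at hx ⊢; omega
  · simp only [Set.mem_ofPred_eq, sh] at hx ⊢; omega
  · simp only [pullB]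
    rw [← h.inv φ (D.image (sh a)) (Y.image (sh a)) (by simp only [image_image]; exact hφ)]
    simp only [image_image]
    rfl
  · simp only [pullB, image_singleton]
    exact h.zero _ _ k
  · simp only [pullB, image_singleton]
    rw [h.pat (sh a d) (sh a c) (by simp only [sh]; omega) (by simp only [sh]; omega)
      (by simp only [sh]; omega) k4]
    simp only [sh, add_right_inj, add_assoc]
  · obtain ⟨K, hK⟩ := h.bdd
    refine ⟨K, fun D Y k => hK _ _ fun y hy d hd => ?_⟩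
    obtain ⟨y, hy', rfl⟩ := mem_image.1 hy
    obtain ⟨d, hd', rfl⟩ := mem_image.1 hd
    exact k y hy' d hd'

lemma f2_shift {a i : ℕ} (h : f2 (pullB ρ (sh a) (sh a)) i) : f2 ρ (a + i) := by
  obtain ⟨Y, h1, h2⟩ := h
  refine ⟨Y.image (sh a), fun y hy => ?_, by simpa [pullB, sh] using h2⟩
  obtain ⟨y, hy', rfl⟩ := mem_image.1 hy
  have := h1 y hy'
  exact ⟨this.1, by simp only [sh]; omega⟩

lemma lad_dual (h : Lad n L ρ) {a l : ℕ} (hl : a + l + 1 ≤ L) :
    Lad n l (tr (pullB ρ (rf (a + 1)) (rf a))) := by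
  have inj : ∀ a, Function.Injective (rf a) := fun a x y c => by simpa [rf, Prod.ext_iff] using c
  refine ⟨(h.bm.pull _ _).tr, FreeB.tr (h.bm.pull _ _) (h.free.pull h.bm (inj _).injOn
    (inj _).injOn (fun x hx => ?_) fun x hx => ?_),
    fun φ D Y hφ => ?_, fun d c k => ?_, fun d c k1 k2 k3 k4 => ?_, ?_⟩
  · simp only [Set.mem_ofPred_eq, rf] at hx ⊢; omega
  · simp only [Set.mem_ofPred_eq, rf] at hx ⊢; omega
  · simp only [pullB, tr]
    rw [← h.inv (fun x => -φ (-x)) (Y.image (rf (a + 1))) (D.image (rf a)) ?_]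
    · simp only [image_image]
      congr 2 <;> funext x <;> simp [rf]
    · have key : ∀ x ∈ (Y.image (rf (a + 1))).image Prod.snd ∪ (D.image (rf a)).image Prod.snd,
          -x ∈ D.image Prod.snd ∪ Y.image Prod.snd := fun x hx => by
        simp only [mem_union, mem_image] at hx ⊢
        rcases hx with ⟨_, ⟨y, hy, rfl⟩, rfl⟩ | ⟨_, ⟨y, hy, rfl⟩, rfl⟩
        exacts [.inr ⟨y, hy, by simp [rf]⟩, .inl ⟨y, hy, by simp [rf]⟩]
      exact fun x hx y hy k => neg_lt_neg (hφ (key y hy) (key x hx) (neg_lt_neg k))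
  · simp only [pullB, tr, image_singleton]
    exact h.zero _ _ (neg_lt_neg k)
  · simp only [pullB, tr, image_singleton]
    rw [h.pat _ _ (by simp only [rf]; omega) (by simp only [rf]; omega) (by simp only [rf]; omega)
      (neg_lt_neg k4)]
    exact if_congr (by simp only [rf]; omega) rfl rfl
  · obtain ⟨K, hK⟩ := h.bdd
    refine ⟨K, fun D Y k => hK _ _ fun y hy d hd => ?_⟩
    obtain ⟨y, hy', rfl⟩ := mem_image.1 hy
    obtain ⟨d, hd', rfl⟩ := mem_image.1 hd
    exact neg_lt_neg (k d hd' y hy')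

lemma f2_dual (h : Lad n L ρ) {a i : ℕ} (k : f2 (tr (pullB ρ (rf (a + 1)) (rf a))) i) :
    v2 ρ (a + i) := by
  obtain ⟨Y, h1, h2⟩ := k
  refine ⟨(Y.image (rf (a + 1))).image (Prod.map id fun x => x + 1), fun y hy => ?_, ?_⟩
  · simp only [mem_image] at hy
    obtain ⟨_, ⟨y, hy, rfl⟩, rfl⟩ := hy
    have := h1 y hy
    exact ⟨by simp only [rf, Prod.map]; linarith [this.1], by simp only [rf, Prod.map, id]; omega⟩
  · simp only [pullB, tr] at h2
    rw [← h.inv (fun x => x + 1) _ _ (StrictMono.strictMonoOn (fun x y c => by linarith) _)] at h2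
    rw [← h2, pair_comm]
    simp [rf]

end Pool.Agent.Lib.MP_a4b0c4_co.J.F

namespace Pool.Agent.Lib.MP_a4b0c4_co.J

open F in
theorem stS3 (hA : StSA) (hU : StSU) : StS3 := by
  intro n
  obtain ⟨l, hl⟩ := hA n
  obtain ⟨L, hL⟩ := hU n l
  refine ⟨L, fun ρ h => hL ρ h fun a ha => ⟨?_, ?_⟩⟩ <;> by_contra c
  · exact hl _ (lad_shift h (a := a) (by omega)) fun i h1 h2 k =>
      c ⟨a + i, by omega, by omega, f2_shift k⟩
  · exact hl _ (lad_dual h ha) fun i h1 h2 k => c ⟨a + i, by omega, by omega, f2_dual h k⟩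

end Pool.Agent.Lib.MP_a4b0c4_co.J
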