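import Pool.Agent.Lib.MP_a4b0c4_co.JSA1
import Pool.Agent.Lib.MP_a4b0c4_co.JSpec

set_option autoImplicit false
set_option linter.unusedSectionVars false
set_option linter.unusedVariables false

open Finset

namespace Pool.Agent.Lib.MP_a4b0c4_co.J.F

variable {n L : ℕ} {σ : Finset (ℕ × ℕ) → Finset (ℕ × ℕ × Bool) → ℤ} {p : ℕ → Prop}

lemma cl_col {α β : Type} [DecidableEq α] [DecidableEq β] {ρ : Finset α → Finset β → ℤ}
    {R : Finset α} {X : Finset (α ⊕ β)} {c : β} : Cl (mat ρ R) X (.inr c) ↔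
      ρ (R \ X.toLeft) (insert c X.toRight) = ρ (R \ X.toLeft) X.toRight := by
  simp only [Cl, mat, toLeft_insert_inr, toRight_insert_inr, add_right_inj]

lemma DL.bcase [DecidablePred p] (k : DL n L σ p) (hc : n ≤ Nat.count p L) : False := by
  have hn : 0 < n := k.free'.pos (.inl (0, 0))
  set t := Nat.nth p with ht
  have tf : ∀ s < n, ∀ hf : (Set.ofPred p).Finite, s < hf.toFinset.card := fun s hs hf =>
    (hs.trans_le hc).trans_le (Nat.count_le_card hf L)
  have tp : ∀ s < n, p (t s) := fun s hs => Nat.nth_mem s (tf s hs)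
  have tc : ∀ s < n, Nat.count p (t s) = s := fun s hs => Nat.count_nth (tf s hs)
  have tc' : ∀ s < n, Nat.count p (t s + 1) = s + 1 := fun s hs => Nat.count_nth_succ (tf s hs)
  have tL : ∀ s < n, t s < L := fun s hs => Nat.nth_lt_of_lt_count (hs.trans_le hc)
  have t1 : ∀ s < n, 1 ≤ t s := fun s hs => k.pos _ (tp s hs)
  have tl : ∀ s, s + 1 < n → t s < t (n - 1) := fun s hs =>
    Nat.nth_lt_of_lt_count (by rw [tc _ (by omega)]; omega)
  have ti : ∀ s < n, ∀ s' < n, t s = t s' → s = s' := fun s hs s' hs' c => by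
    rw [← tc s hs, c, tc s' hs']
  clear_value t
  set b := t (n - 1) with hb
  have bL : b < L := tL _ (by omega)
  have tb : ∀ s < n, t s ≤ b := fun s hs => by
    rcases (by omega : s + 1 < n ∨ s = n - 1) with c | c
    exacts [(tl s c).le, c ▸ le_rfl]
  set F : (Bool × ℕ × ℕ) × Bool → EL := fun x =>
    if x.1.1 then .inl (t x.1.2.1, x.1.2.2 + 1) else .inr (t x.1.2.1, x.1.2.2 + 1, x.2) with hF
  have ft : ∀ i j c, F ((true, i, j), c) = .inl (t i, j + 1) := fun i j c => rfl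
  have ff : ∀ i j c, F ((false, i, j), c) = .inr (t i, j + 1, c) := fun i j c => rfl
  clear_value F
  set T := (Ico 1 b).filter fun i => ¬ p i with hT
  set K : Finset EL := (T ×ˢ Icc 1 n).image fun x => .inr (x.1, x.2, false) with hK
  have mK : ∀ x ∈ K, ∃ i l, x = .inr (i, l, false) ∧ 1 ≤ i ∧ i < b ∧ ¬ p i ∧ 1 ≤ l ∧ l ≤ n := by
    intro x hx
    obtain ⟨⟨i, l⟩, m, rfl⟩ := mem_image.1 hx
    simp only [hT, mem_product, mem_filter, mem_Ico, mem_Icc] at m
    exact ⟨i, l, rfl, m.1.1.1, m.1.1.2, m.1.2, m.2.1, m.2.2⟩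
  have cK : K.card + n * n = b * n := by
    have a1 := card_filter_add_card_filter_not (s := Ico 1 b) p
    have a2 : (Ico 1 b).filter p = (range b).filter p := by
      ext i
      simp only [mem_filter, mem_Ico, mem_range]
      exact ⟨fun c => ⟨c.1.2, c.2⟩, fun c => ⟨⟨k.pos i c.2, c.1⟩, c.2⟩⟩
    rw [a2, ← Nat.count_eq_card_filter_range, tc _ (by omega), Nat.card_Ico, ← hT] at a1
    have a3 := t1 (n - 1) (by omega)
    rw [hK, card_image_of_injective _ (fun x y c => by simpa [Prod.ext_iff] using c), card_product,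
      Nat.card_Icc, Nat.add_sub_cancel, ← add_mul, show T.card + n = b by omega]
  clear_value K
  have h := k.bm.mat (RR n L)
  have hs := k.star
  have hKG : K ⊆ LG n L := fun x hx => by
    obtain ⟨i, l, rfl, m⟩ := mK x hx
    rw [mem_GL_r]; omega
  have mg : MG lends K := mg_of_leaf (fun e _ => lends_card e) fun J hJ ne => by
    obtain ⟨x, hx, hm⟩ := exists_min_image J (Sum.elim (fun _ => 0) fun c => c.1) ne
    obtain ⟨i, l, rfl, -⟩ := mK x (hJ hx)
    refine ⟨_, (i, l), hx, by simp [lends_r], fun g hg c => ?_⟩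
    obtain ⟨i', l', rfl, -⟩ := mK g (hJ hg)
    have := hm _ hg
    rw [lends_r] at c
    simp only [Sum.elim_inr] at this
    simp only [Sum.inr.injEq, Prod.mk.injEq, and_true]
    omega
  set φ : ℕ × ℕ → ℕ × ℕ := fun v => (Nat.count p v.1, v.2 - 1) with hφ
  have φK : ∀ e ∈ K, ∀ a ∈ lends e, ∀ a' ∈ lends e, φ a = φ a' := by
    intro e he
    obtain ⟨i, l, rfl, -, -, m, -⟩ := mK e he
    have : ∀ a ∈ lends (.inr (i, l, false)), φ a = (Nat.count p i, l - 1) := by
      rintro ⟨u, w⟩ ha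
      obtain ⟨rfl, rfl | rfl⟩ := lends_r.1 ha
      · rfl
      · simp only [hφ, Nat.count_succ_eq_count_iff.2 m]
    exact fun a ha a' ha' => (this a ha).trans (this a' ha').symm
  have Fe : ∀ x ∈ G2 n, F x ∈ LG n L ∧ ∃ u w, lends (F x) = {u, w} ∧ φ u = xx x.1 ∧
      φ w = yy x.1 := by
    rintro ⟨⟨c, i, j⟩, d⟩ hx
    have hx := (mem_G2.1 hx).1
    cases c
    · rw [mem_GE_f] at hx
      have := tL i (by omega)
      have := t1 i (by omega)
      exact ⟨by rw [ff, mem_GL_r]; omega, (t i, j + 1), (t i + 1, j + 1), by rw [ff]; rfl,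
        by simp [hφ, xx, tc i (by omega)], by simp [hφ, yy, tc' i (by omega)]⟩
    · rw [mem_GE_t] at hx
      have := tL i hx.1
      have := t1 i hx.1
      exact ⟨by rw [ft, mem_GL_l]; omega, (t i, j + 1), (t i, j + 1 + 1), by rw [ft]; rfl,
        by simp [hφ, xx, tc i hx.1], by simp [hφ, yy, tc i hx.1]⟩
  have φm : ∀ x ∈ G2 n, ∀ a ∈ lends (F x), φ a ∈ gends x.1 := fun x hx a ha => by
    obtain ⟨-, u, w, e1, e2, e3⟩ := Fe x hx
    rw [e1, mem_insert, mem_singleton] at ha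
    rcases ha with rfl | rfl <;> simp [gends_eq, e2, e3]
  have φi : ∀ x ∈ G2 n, ∀ a ∈ lends (F x), ∀ a' ∈ lends (F x), φ a = φ a' → a = a' := by
    intro x hx a ha a' ha' c
    obtain ⟨-, u, w, e1, e2, e3⟩ := Fe x hx
    rw [e1, mem_insert, mem_singleton] at ha ha'
    have := xx_ne x.1
    rcases ha with rfl | rfl <;> rcases ha' with rfl | rfl
    exacts [rfl, absurd (e2.symm.trans (c.trans e3)) this,
      absurd (e2.symm.trans (c.symm.trans e3)) this, rfl]
  have Fi : Set.InjOn F (G2 n) := by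
    rintro ⟨⟨c, i, j⟩, d⟩ hx ⟨⟨c', i', j'⟩, d'⟩ hy e
    have hx := mem_G2.1 hx
    have hy := mem_G2.1 hy
    cases c <;> cases c' <;> simp only [ft, ff, Sum.inr.injEq, Sum.inl.injEq, Prod.mk.injEq,
      reduceCtorEq, add_left_inj, true_and] at e hx hy ⊢
    · exact ⟨⟨ti i (by have := mem_GE_f.1 hx.1; omega) i' (by have := mem_GE_f.1 hy.1; omega) e.1,
        e.2.1⟩, e.2.2⟩
    · exact ⟨⟨ti i (mem_GE_t.1 hx.1).1 i' (mem_GE_t.1 hy.1).1 e.1, e.2⟩,
        (hx.2 trivial).trans (hy.2 trivial).symm⟩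
  have FK : ∀ x ∈ G2 n, F x ∉ K := by
    rintro ⟨⟨c, i, j⟩, d⟩ hx m
    obtain ⟨i', l, e, -, -, m', -⟩ := mK _ m
    cases c
    · rw [ff, Sum.inr.injEq, Prod.mk.injEq] at e
      exact m' (e.1 ▸ tp i (by have := mem_GE_f.1 (mem_G2.1 hx).1; omega))
    · simp [ft] at e
  have hAG : ∀ A ⊆ G2 n, A.image F ⊆ LG n L := fun A hA =>
    image_subset_iff.2 fun x hx => (Fe x (hA hx)).1
  have m0 : ∀ e ∈ GE n, (e, false) ∈ G2 n := fun e he => mem_G2.2 ⟨he, fun _ => rfl⟩
  refine k.free'.not_B (HasMinor.mk' (C := K) (f := fun e => F (e, false)) hKG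
    (fun a ha a' ha' c => (Prod.ext_iff.1 (Fi (m0 a ha) (m0 a' ha') c)).1)
    (fun x hx => ⟨(Fe _ (m0 x hx)).1, FK _ (m0 x hx)⟩) fun I hI => ?_)
  rw [ind_iota]
  refine grid_bcase ((h.con K).pull _) (fun e he v hv => ?_) ?_
    (fun i j c hi hj A hA m1 m2 cl => ?_) (fun i j hi hj => ?_) hI
  · rw [cl_pull, cl_con, ← ind_single h]
    refine con_ind h hs hKG (fun e _ => lends_card e) mg φ φK {v}
      (hAG _ (filter_subset _ _)) (singleton_subset_iff.2 (Fe e he).1) (fun g hg a ha c => ?_)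
      (fun g hg g' hg' a ha a' ha' c => ?_) fun A' hA' c => ?_
    · obtain ⟨x, hx, rfl⟩ := mem_image.1 hg
      exact (mem_filter.1 hx).2 (Set.mem_singleton_iff.1 c ▸ φm x (mem_filter.1 hx).1 a ha)
    · rw [mem_singleton.1 hg] at ha
      rw [mem_singleton.1 hg'] at ha'
      exact φi e he a ha a' ha' c
    · obtain ⟨a, ha, hav⟩ : ∃ a ∈ lends (F e), φ a = v := by
        obtain ⟨-, u, w, e1, e2, e3⟩ := Fe e he
        have hv : v ∈ gends e.1 := hv
        rw [gends_eq, mem_insert, mem_singleton] at hv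
        rcases hv with rfl | rfl
        exacts [⟨u, by simp [e1], e2⟩, ⟨w, by simp [e1], e3⟩]
      exact (ind_single h).2 (star_not_cl h hs (Fe e he).1 ha hA' fun g hg m => c g hg a m hav)
  · have a1 := mg_ind h hs hKG (fun e _ => lends_card e) mg
    have a2 := h.mono (X := (G2 n).image F ∪ K)
      (Y := (Icc 1 b ×ˢ Icc 1 n).disjSum (Ico 1 b ×ˢ Icc 1 n ×ˢ univ)) fun x hx => by
        rcases mem_union.1 hx with m | m
        · obtain ⟨⟨⟨c, i, j⟩, d⟩, hy, rfl⟩ := mem_image.1 m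
          have hy := (mem_G2.1 hy).1
          cases c
          · rw [mem_GE_f] at hy
            have := tl i hy.1
            have := t1 i (by omega)
            simp only [ff, inr_mem_disjSum, mem_product, mem_Ico, mem_Icc, mem_univ, and_true]
            omega
          · rw [mem_GE_t] at hy
            have := tb i hy.1
            have := t1 i hy.1
            simp only [ft, inl_mem_disjSum, mem_product, mem_Icc]
            omega
        · obtain ⟨i, l, rfl, m⟩ := mK x m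
          simp only [inr_mem_disjSum, mem_product, mem_Ico, mem_Icc, mem_univ, and_true]
          omega
    rw [mat_disjSum, k.bm.zero (by
      rintro ⟨i, β⟩ hd ⟨i', l, c⟩ hc
      simp only [mem_sdiff, mem_RR, mem_product, mem_Ico, mem_Icc, mem_univ, and_true] at hd hc
      rw [k.pat _ _ _ _ _ (by omega) (by omega) (by omega), if_neg (by omega)])] at a2
    have a3 : ((Icc 1 b ×ˢ Icc 1 n) ∩ RR n L).card ≤ b * n :=
      (card_le_card inter_subset_left).trans (by simp)
    unfold Ind at a1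
    simp only [pull, con]
    zify at a3 cK
    omega
  · rw [cl_pull, cl_con, ff, cl_col] at cl ⊢
    have nm : ∀ d, ((false, i, j), d) ∉ A → (t i, j + 1, d) ∉ (A.image F ∪ K).toRight := by
      intro d m c'
      have g : ((false, i, j), d) ∈ G2 n := mem_G2.2 ⟨mem_GE_f.2 ⟨hi, hj⟩, by simp⟩
      rw [mem_toRight, ← ff] at c'
      rcases mem_union.1 c' with u | u
      · obtain ⟨x, hx, e⟩ := mem_image.1 u
        exact m (Fi (hA hx) g e ▸ hx)
      · exact FK _ g u
    rw [← k.tw _ _ _ _ _ (nm _ m1) (nm _ m2), cl]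
  · have g : ∀ d, ((false, i, j), d) ∈ G2 n := fun d => mem_G2.2 ⟨mem_GE_f.2 ⟨hi, hj⟩, by simp⟩
    rw [ind_pull (Fi.mono (by simp [Set.insert_subset_iff, g])), con_con, union_comm]
    refine con_ind h hs hKG (fun e _ => lends_card e) mg φ φK {v | v ∈ gends (false, i, j)}
      (hAG _ (filter_subset _ _)) (hAG _ (by simp [insert_subset_iff, g])) (fun x hx a ha c => ?_)
      (fun x hx x' hx' a ha a' ha' c => ?_) fun A' hA' c => ?_
    · obtain ⟨x, hx', rfl⟩ := mem_image.1 hx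
      have c : φ a ∈ gends (false, i, j) := c
      exact disjoint_left.1 (mem_filter.1 hx').2 (φm x (mem_filter.1 hx').1 a ha) c
    · have e : ∀ x ∈ ({((false, i, j), false), ((false, i, j), true)} :
          Finset ((Bool × ℕ × ℕ) × Bool)).image F, lends x = lends (F ((false, i, j), false)) := by
        intro x hx
        simp only [image_insert, image_singleton, mem_insert, mem_singleton, ff] at hx
        rcases hx with rfl | rfl <;> rw [ff] <;> rfl
      exact φi _ (g false) a (e x hx ▸ ha) a' (e x' hx' ▸ ha') c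
    · rw [image_insert, image_singleton, ff, ff]
      refine k.pair (tp i (by omega)) (tL i (by omega)) hj hA' fun x hx =>
        ⟨fun m => c x hx _ m ?_, fun m => c x hx _ m ?_⟩
      · exact φm _ (g false) _ (by simp [ff, lends_r])
      · exact φm _ (g false) _ (by simp [ff, lends_r])

lemma DL.false (k : DL n (1 + n * n) σ p) : False := by
  classical
  by_cases c : ∃ a, 1 ≤ a ∧ a + n ≤ 1 + n * n ∧ ∀ i, a ≤ i → i < a + n → ¬ p i
  · obtain ⟨a, h1, h2, h3⟩ := c
    exact k.mcase h1 h2 h3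
  push Not at c
  have : ∀ m ≤ n, m ≤ Nat.count p (1 + m * n) := fun m => by
    induction m with
    | zero => exact fun _ => Nat.zero_le _
    | succ m ih =>
      intro hm
      obtain ⟨i, h1, h2, h3⟩ := c (1 + m * n) (by omega) (by nlinarith)
      have a1 := Nat.count_monotone p h1
      have a2 := Nat.count_strict_mono h3 h2
      have a3 := ih (by omega)
      rw [add_mul, one_mul, ← add_assoc]
      omega
  exact k.bcase (this n le_rfl)

/-- position of a column -/
noncomputable def ps (k m : ℕ) : ℝ := k - 1 / ((m : ℝ) + 2)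

lemma ps_bd (k m : ℕ) : (k : ℝ) - 1 < ps k m ∧ ps k m < k := by
  have h1 : (0 : ℝ) < 1 / ((m : ℝ) + 2) := by positivity
  have h2 : 1 / ((m : ℝ) + 2) < 1 := by
    rw [div_lt_one (by positivity)]
    linarith [Nat.cast_nonneg (α := ℝ) m]
  unfold ps
  constructor <;> linarith

lemma ps_lt_nat {k m β : ℕ} : ps k m < β ↔ k ≤ β := by
  obtain ⟨h1, h2⟩ := ps_bd k m
  refine ⟨fun c => ?_, fun c => h2.trans_le (by exact_mod_cast c)⟩
  have : (k : ℝ) < β + 1 := by linarith
  exact Nat.lt_succ_iff.1 (by exact_mod_cast this)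

lemma nat_lt_ps {k m β : ℕ} : β < ps k m ↔ β < k := by
  obtain ⟨h1, h2⟩ := ps_bd k m
  refine ⟨fun c => by exact_mod_cast c.trans h2, fun c => ?_⟩
  have : (β : ℝ) + 1 ≤ k := by exact_mod_cast c
  linarith

lemma ps_lt_of {k m k' m' : ℕ} (h : k < k' ∨ (k = k' ∧ m < m')) : ps k m < ps k' m' := by
  rcases h with h | ⟨rfl, h⟩
  · exact (ps_bd k m).2.trans (nat_lt_ps.2 h)
  · have : 1 / ((m' : ℝ) + 2) < 1 / ((m : ℝ) + 2) :=
      one_div_lt_one_div_of_lt (by positivity) (by exact_mod_cast (by omega : m + 2 < m' + 2))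
    unfold ps
    linarith

lemma ps_lt_ps {k m k' m' : ℕ} : ps k m < ps k' m' ↔ k < k' ∨ (k = k' ∧ m < m') := by
  refine ⟨fun c => ?_, ps_lt_of⟩
  by_contra d
  rcases (by omega : (k = k' ∧ m = m') ∨ (k' < k ∨ (k' = k ∧ m' < m))) with ⟨rfl, rfl⟩ | e
  · exact lt_irrefl _ c
  · exact lt_asymm c (ps_lt_of e)

lemma ps_inj {k m k' m' : ℕ} (h : ps k m = ps k' m') : k = k' ∧ m = m' := by
  have h1 := ps_lt_ps.not.1 h.not_lt
  have h2 := ps_lt_ps.not.1 h.symm.not_lt
  omega

lemma nat_ne_ps (β k m : ℕ) : (β : ℝ) ≠ ps k m := fun c => by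
  have h1 := ps_lt_nat.not.1 c.symm.not_lt
  have h2 := nat_lt_ps.not.1 c.not_lt
  omega

/-- embedding of the columns -/
noncomputable def fc (c : ℕ × ℕ × Bool) : ℕ × ℝ := (c.1, ps c.2.1 (2 * c.1 + c.2.2.toNat))

lemma fc_inj2 {c c' : ℕ × ℕ × Bool} (h : (fc c).2 = (fc c').2) : c = c' := by
  obtain ⟨i, k, b⟩ := c
  obtain ⟨i', k', b'⟩ := c'
  have := ps_inj h
  cases b <;> cases b' <;> simp at this ⊢ <;> omega

variable {ρ : Finset (ℕ × ℝ) → Finset (ℕ × ℝ) → ℤ}

lemma lad_aff (h : Lad n L ρ) {a b : ℝ} (hab : a < b) (D Y : Finset (ℕ × ℝ)) :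
    ρ (D.image (Prod.map id fun x => (x - a) / (b - a)))
      (Y.image (Prod.map id fun x => (x - a) / (b - a))) = ρ D Y :=
  h.inv _ D Y (StrictMono.strictMonoOn (fun x y c =>
    div_lt_div_of_pos_right (by linarith) (sub_pos.2 hab)) _)

lemma rf1 (h : Lad n L ρ) {i : ℕ} (hf : ¬ f2 ρ i) {β β' : ℝ} (hβ : β < β') {Y : Finset (ℕ × ℝ)}
    (hY : ∀ y ∈ Y, y.2 < β ∧ (y.1 = i ∨ y.1 + 1 = i)) : ρ {(i, β), (i, β')} Y ≤ 1 := by
  have a1 := h.bm.le_l {(i, β), (i, β')} Y
  have a2 : (({(i, β), (i, β')} : Finset (ℕ × ℝ)).card : ℤ) ≤ 2 := by exact_mod_cast card_le_two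
  by_contra c
  refine hf ⟨Y.image (Prod.map id fun x => (x - β) / (β' - β)), fun y hy => ?_, ?_⟩
  · obtain ⟨z, hz, rfl⟩ := mem_image.1 hy
    exact ⟨div_neg_of_neg_of_pos (sub_neg.2 (hY z hz).1) (sub_pos.2 hβ), (hY z hz).2⟩
  · have := lad_aff h hβ {(i, β), (i, β')} Y
    simp only [image_insert, image_singleton, Prod.map, id, sub_self, zero_div,
      div_self (sub_pos.2 hβ).ne'] at this
    omega

lemma rvm (h : Lad n L ρ) {i : ℕ} (hf : ¬ v2 ρ i) {a a' : ℝ} (ha : a < a') {D : Finset (ℕ × ℝ)}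
    (hD : ∀ d ∈ D, a' < d.2 ∧ (d.1 = i ∨ d.1 = i + 1)) : ρ D {(i, a), (i, a')} ≤ 1 := by
  have a1 := h.bm.le_r D {(i, a), (i, a')}
  have a2 : (({(i, a), (i, a')} : Finset (ℕ × ℝ)).card : ℤ) ≤ 2 := by exact_mod_cast card_le_two
  by_contra c
  refine hf ⟨D.image (Prod.map id fun x => (x - a) / (a' - a)), fun y hy => ?_, ?_⟩
  · obtain ⟨z, hz, rfl⟩ := mem_image.1 hy
    exact ⟨(one_lt_div (sub_pos.2 ha)).2 (by linarith [(hD z hz).1]), (hD z hz).2⟩
  · have := lad_aff h ha D {(i, a), (i, a')}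
    simp only [image_insert, image_singleton, Prod.map, id, sub_self, zero_div,
      div_self (sub_pos.2 ha).ne'] at this
    omega

lemma rvp (h : Lad n L ρ) (hf : ∀ i, 1 ≤ i → i ≤ L → ¬ f2 ρ i) {i : ℕ} (h1 : 1 ≤ i)
    (h2 : i + 1 ≤ L) (hv : v2 ρ i) {a a' β : ℝ} (ha : a < a') (hβ : a' < β) :
    ρ {(i, β), (i + 1, β)} {(i, a), (i, a')} = 2 := by
  rw [← lad_aff h ha]
  simp only [image_insert, image_singleton, Prod.map, id, sub_self, zero_div,
    div_self (sub_pos.2 ha).ne']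
  have hγ : 1 < (β - a) / (a' - a) := (one_lt_div (sub_pos.2 ha)).2 (by linarith)
  generalize (β - a) / (a' - a) = γ at hγ
  obtain ⟨D, hD, e⟩ := hv
  have hr := h.bm.row {(i, (0 : ℝ)), (i, 1)}
  have a1 := h.bm.le_r {(i, γ), (i + 1, γ)} {(i, 0), (i, 1)}
  have a2 : (({(i, 0), (i, 1)} : Finset (ℕ × ℝ)).card : ℤ) ≤ 2 := by exact_mod_cast card_le_two
  have a3 := hr.span_le (A := {(i, γ), (i + 1, γ)}) (X := D) (by
    rintro ⟨i', β'⟩ hd
    obtain ⟨b1, b2⟩ := hD _ hd
    dsimp only at b1 b2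
    refine hr.cl_mono (A := {(i', γ)}) (by rcases b2 with rfl | rfl <;> simp) (hr.cl_iff.2 ?_)
    have b3 : ρ {(i', γ)} {(i, 0)} = 1 := by
      rw [h.pat _ _ (by omega) (by omega) (by omega) (by linarith), if_pos (by omega)]
    have b4 := h.bm.mono (subset_refl {(i', γ)}) (Y := {(i, 0)}) (Y' := {(i, 0), (i, 1)})
      (by simp)
    have b5 : ∀ u w : ℝ, 1 < u → u < w → ρ {(i', u), (i', w)} {(i, 0), (i, 1)} ≤ 1 :=
      fun u w hu hw => rf1 h (hf i' (by omega) (by omega)) hw fun y hy => by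
        simp only [mem_insert, mem_singleton] at hy
        rcases hy with rfl | rfl
        exacts [⟨by linarith, by omega⟩, ⟨hu, by omega⟩]
    simp only [tr]
    rcases lt_trichotomy β' γ with c | rfl | c
    · have := b5 β' γ b1 c
      omega
    · simp
    · have := b5 γ β' hγ c
      rw [pair_comm] at this
      omega)
  simp only [tr] at a3
  omega

lemma dl_of (h : Lad n L ρ) (hf : ∀ i, 1 ≤ i → i ≤ L → ¬ f2 ρ i) :
    DL n L (pullB ρ (fun d : ℕ × ℕ => (d.1, (d.2 : ℝ))) fc) fun i => 1 ≤ i ∧ v2 ρ i := by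
  refine ⟨h.bm.pull _ _, h.free.pull h.bm (fun a _ b _ c => by simpa [Prod.ext_iff] using c)
    (fun a _ b _ c => fc_inj2 (congrArg _ c)) (fun _ m => m) fun _ m => m, fun i m => m.1,
    fun i β i' k b h1 h2 h3 => ?_, fun i β Y h1 h2 hY => ?_, fun i k D h1 h2 hD => ?_,
    fun i k h1 h2 => ?_, fun D Y i k b m1 m2 => ?_⟩
  · simp only [pullB, image_singleton, fc]
    by_cases c : k ≤ β
    · rw [h.pat _ _ h1 h2 h3 (ps_lt_nat.2 c)]
      simp [c]
    · rw [h.zero _ _ (nat_lt_ps.2 (not_le.1 c)), if_neg fun m => c m.1]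
  · simp only [pullB, image_insert, image_singleton]
    refine rf1 h (hf i h1 h2) (by simp) fun y hy => ?_
    obtain ⟨z, hz, rfl⟩ := mem_image.1 hy
    exact ⟨ps_lt_nat.2 (hY z hz).1, (hY z hz).2⟩
  · simp only [pullB, image_insert, image_singleton, fc]
    refine rvm h (fun c => h2 ⟨h1, c⟩) (ps_lt_of (by omega)) fun y hy => ?_
    obtain ⟨z, hz, rfl⟩ := mem_image.1 hy
    exact ⟨ps_lt_nat.2 (hD z hz).1, (hD z hz).2⟩
  · simp only [pullB, image_insert, image_singleton, fc]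
    exact rvp h hf h1.1 h2 h1.2 (ps_lt_of (by simp)) (ps_lt_nat.2 le_rfl)
  · simp only [pullB]
    have tw : 2 * i + (!b).toNat = 2 * i + b.toNat + 1 ∨
        2 * i + b.toNat = 2 * i + (!b).toNat + 1 := by cases b <;> simp
    rw [← h.inv (fun x => if x = (fc (i, k, b)).2 then (fc (i, k, !b)).2 else x)
      (D.image fun d : ℕ × ℕ => (d.1, (d.2 : ℝ))) ((insert (i, k, b) Y).image fc)]
    · simp only [image_image, image_insert]
      congr 1
      · exact image_congr fun d _ => by simp [fc, nat_ne_ps]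
      · rw [show Prod.map id (fun x => if x = (fc (i, k, b)).2 then (fc (i, k, !b)).2 else x)
          (fc (i, k, b)) = fc (i, k, !b) by simp [Prod.map, fc]]
        congr 1
        exact image_congr fun y hy => by
          have : (fc y).2 ≠ (fc (i, k, b)).2 := fun c => m1 (fc_inj2 c ▸ hy)
          simp [Prod.map, this]
    · have key : ∀ x ∈ (D.image fun d : ℕ × ℕ => (d.1, (d.2 : ℝ))).image Prod.snd ∪
          ((insert (i, k, b) Y).image fc).image Prod.snd, (∃ β : ℕ, x = β) ∨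
          ∃ l m, ¬ (l = k ∧ m = 2 * i + (!b).toNat) ∧ x = ps l m := fun x hx => by
        simp only [mem_union, mem_image] at hx
        rcases hx with ⟨_, ⟨d, -, rfl⟩, rfl⟩ | ⟨_, ⟨y, hy, rfl⟩, rfl⟩
        · exact .inl ⟨d.2, rfl⟩
        · refine .inr ⟨_, _, fun c => ?_, rfl⟩
          have : y = (i, k, !b) := fc_inj2 (by simp only [fc]; rw [c.1, c.2])
          rw [this, mem_insert] at hy
          exact hy.elim (by simp) m2
      intro x hx y hy hxy
      simp only [fc]
      rcases key x hx with ⟨β, rfl⟩ | ⟨l, m, c, rfl⟩ <;>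
        rcases key y hy with ⟨β', rfl⟩ | ⟨l', m', c', rfl⟩ <;> split_ifs with u w
      all_goals first
        | exact hxy
        | exact absurd ‹_› (nat_ne_ps _ _ _)
        | skip
      · rw [nat_lt_ps] at hxy ⊢
        have := ps_inj ‹_›
        omega
      · rw [ps_lt_nat] at hxy ⊢
        have := ps_inj ‹_›
        omega
      · exact absurd (u.trans w.symm) hxy.ne
      · rw [ps_lt_ps] at hxy ⊢
        have := ps_inj u
        omega
      · rename_i w
        rw [ps_lt_ps] at hxy ⊢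
        have := ps_inj w
        have : ¬ (l = k ∧ m = 2 * i + b.toNat) := fun e => u (by rw [e.1, e.2])
        omega

end Pool.Agent.Lib.MP_a4b0c4_co.J.F

namespace Pool.Agent.Lib.MP_a4b0c4_co.J

theorem stSA : StSA := fun n => ⟨1 + n * n, fun _ h hf => (F.dl_of h hf).false⟩

end Pool.Agent.Lib.MP_a4b0c4_co.J
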