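import Pool.Agent.Lib.MP_a4b0c4_co.JRam1
import Pool.Agent.Lib.MP_a4b0c4_co.JBasic

set_option autoImplicit false
set_option linter.unusedSectionVars false
set_option linter.unusedVariables false

open Finset

namespace Pool.Agent.Lib.MP_a4b0c4_co.J

/-- a set D of size 2n that is uniform of rank n modulo C gives the uniform minor -/
lemma ram_unif {α : Type} [DecidableEq α] {r : Finset α → ℤ} {E C D : Finset α} {n : ℕ} (a : α)
    (hC : C ⊆ E) (hD : D ⊆ E \ C) (hc : D.card = 2 * n)
    (h : ∀ I ⊆ D, (con r C I = I.card ↔ I.card ≤ n)) : Out n r E := by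
  let e := D.equivFinOfCardEq hc
  let f : ℕ → α := fun i => if k : i < 2 * n then e.symm ⟨i, k⟩ else a
  have inj : Set.InjOn f (range (2 * n) : Finset ℕ) := fun i hi j hj k => by
    simp only [coe_range, Set.mem_Iio] at hi hj
    simp only [f, dif_pos hi, dif_pos hj] at k
    simpa using e.symm.injective (Subtype.ext k)
  have mem : ∀ i ∈ range (2 * n), f i ∈ D := fun i hi => by
    simp only [f, dif_pos (mem_range.1 hi)]; exact Subtype.prop _
  refine .inl (.inl ⟨C, f, hC, inj, fun i hi => mem_sdiff.1 (hD (mem i hi)), fun I hI => ?_⟩)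
  have := h (I.image f) fun y hy => by
    obtain ⟨i, hi, rfl⟩ := mem_image.1 hy
    exact mem i (hI hi)
  rwa [card_image_of_injOn (inj.mono hI)] at this

theorem r0 : StR0 := by
  intro n p q
  obtain ⟨N, hN⟩ := ramZ p (q + p + n + 1) p
  refine ⟨N, fun α _ r E Y h hF hY hr hg => ?_⟩
  obtain ⟨H, a1, a2, d, a3⟩ := hN α Y r hg fun s hs _ => ⟨h.nonneg s, (h.mono hs).trans hr⟩
  by_cases hn : r H < n
  · obtain ⟨Y', b1, b2⟩ := exists_subset_card_eq (s := H) (n := q) (by omega)
    exact ⟨Y', b1.trans a1, b2, (h.mono b1).trans_lt hn⟩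
  exfalso
  obtain ⟨B, b1, b2, -, b3⟩ := h.basis H
  have hB : B.card ≤ p := by have := h.mono a1; omega
  have i1 : ∀ s ⊆ H, s.card = B.card → Ind r s := fun s hs hc => by
    have e1 := a3 s hs (by omega)
    have e2 := a3 B b1 hB
    unfold Ind at *; rw [e1, hc, ← e2, b2]
  have i2 : ∀ s ⊆ H, s.card ≤ B.card → r s = s.card := fun s hs hc => by
    obtain ⟨t, c1, c2, c3⟩ := exists_subsuperset_card_eq hs hc (card_le_card b1)
    exact h.ind_sub (i1 t c2 c3) c1
  obtain ⟨C, c1, c2⟩ := exists_subset_card_eq (s := H) (n := B.card - n) (by omega)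
  obtain ⟨D, d1, d2⟩ := exists_subset_card_eq (s := H \ C) (n := 2 * n)
    (by rw [card_sdiff_of_subset c1]; omega)
  obtain ⟨a, -⟩ : H.Nonempty := card_pos.1 (by omega)
  refine hF (ram_unif a (c1.trans (a1.trans hY))
    (d1.trans (sdiff_subset_sdiff (a1.trans hY) subset_rfl)) d2 fun I hI => ?_)
  have e1 : (I ∪ C).card = I.card + C.card :=
    card_union_of_disjoint (disjoint_of_subset_left (hI.trans d1) sdiff_disjoint)
  have e2 := i2 C c1 (by omega)
  have s1 : I ∪ C ⊆ H := union_subset (hI.trans (d1.trans sdiff_subset)) c1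
  have e3 := h.mono s1
  simp only [con]
  constructor
  · intro k; omega
  · intro k
    have := i2 _ s1 (by omega)
    omega

lemma ram_loc_mono {α : Type} [DecidableEq α] {r : Finset α → ℤ} (h : Rk r) (A : Finset α)
    {X Y : Finset α} (hXY : X ⊆ Y) : loc r A X ≤ loc r A Y := by
  have := h.sub (X := X) (Y := A ∪ Y) (A := A ∪ X) (B := Y) (by grind) hXY (by grind)
  simp only [loc]; linarith

theorem klem : StK := by
  intro β f
  let b : ℕ → ℕ := fun i => (fun x => x + f x)^[i] 0
  have bs : ∀ i, b (i + 1) = b i + f (b i) := fun i => Function.iterate_succ_apply' _ _ _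
  have bm : Monotone b := monotone_nat_of_le_succ fun i => by rw [bs]; omega
  obtain ⟨N, hN⟩ := ramZ (b (β + 1) + 1) (b (β + 1) + 1) (β * (b (β + 1) + 1))
  refine ⟨N, b (β + 1), fun α _ r A h hA => ?_⟩
  let δ : Finset (Fin N) → ℤ := fun I => ∑ a ∈ I, r (A a) - r (I.biUnion A)
  have e1 : ∀ I a, a ∉ I → δ (insert a I) = δ I + loc r (A a) (I.biUnion A) := fun I a ha => by
    simp only [δ, loc]; rw [sum_insert ha, biUnion_insert]; ring
  have l1 : ∀ (I : Finset (Fin N)) a, a ∉ I → 0 ≤ loc r (A a) (I.biUnion A) ∧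
      loc r (A a) (I.biUnion A) ≤ β := fun I a ha =>
    ⟨by have := h.union_le (subset_refl (A a ∪ I.biUnion A)); simp only [loc]; linarith,
      (ram_loc_mono h _ (biUnion_subset_biUnion_of_subset_left _ fun x hx =>
        mem_erase.2 ⟨ne_of_mem_of_not_mem hx ha, mem_univ _⟩)).trans (hA a)⟩
  have l2 : ∀ I, 0 ≤ δ I ∧ δ I ≤ β * I.card := fun I => by
    induction I using Finset.induction_on with
    | empty => simp [δ, h.emp]
    | insert a I ha ih =>
      rw [e1 I a ha, card_insert_of_notMem ha]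
      have := l1 I a ha
      push_cast
      constructor <;> linarith [ih.1, ih.2, this.1, this.2]
  obtain ⟨H, -, a2, d, a3⟩ := hN (Fin N) univ δ (by simp) fun s _ hs => ⟨(l2 s).1, (l2 s).2.trans (by
    exact_mod_cast Nat.mul_le_mul_left β hs)⟩
  have e2 : ∀ I ⊆ H, ∀ a ∈ H, a ∉ I → loc r (A a) (I.biUnion A) = d (I.card + 1) - d I.card := by
    intro I hI a ha haI
    have s1 : insert a I ⊆ H := insert_subset ha hI
    have c1 := card_le_card s1
    have c2 := card_insert_of_notMem haI
    rw [← a3 I hI (by omega), ← c2, ← a3 _ s1 (by omega), e1 I a haI]; ring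
  obtain ⟨a0, ha0⟩ : H.Nonempty := card_pos.1 (by omega)
  have c0 : (H.erase a0).card = b (β + 1) := by rw [card_erase_of_mem ha0]; omega
  have m1 : ∀ l l', l ≤ l' → l' ≤ b (β + 1) → d (l + 1) - d l ≤ d (l' + 1) - d l' := by
    intro l l' h1 h2
    obtain ⟨I', c1, c2⟩ := exists_subset_card_eq (s := H.erase a0) (n := l') (by omega)
    obtain ⟨I, c3, c4⟩ := exists_subset_card_eq (s := I') (n := l) (by omega)
    rw [← c2, ← c4, ← e2 I' (c1.trans (erase_subset _ _)) a0 ha0 (fun k => notMem_erase _ _ (c1 k)),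
      ← e2 I (c3.trans (c1.trans (erase_subset _ _))) a0 ha0
        (fun k => notMem_erase _ _ (c1 (c3 k)))]
    exact ram_loc_mono h _ (biUnion_subset_biUnion_of_subset_left _ c3)
  have m2 : ∀ l, l ≤ b (β + 1) → 0 ≤ d (l + 1) - d l ∧ d (l + 1) - d l ≤ β := by
    intro l h2
    obtain ⟨I, c1, c2⟩ := exists_subset_card_eq (s := H.erase a0) (n := l) (by omega)
    rw [← c2, ← e2 I (c1.trans (erase_subset _ _)) a0 ha0 (fun k => notMem_erase _ _ (c1 k))]
    exact l1 I a0 (fun k => notMem_erase _ _ (c1 k))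
  have ex : ∃ i ≤ β, d (b (i + 1) + 1) - d (b (i + 1)) ≤ d (b i + 1) - d (b i) := by
    by_contra k
    push Not at k
    have : ∀ i ≤ β + 1, (i : ℤ) ≤ d (b i + 1) - d (b i) := by
      intro i
      induction i with
      | zero => intro _; exact (m2 _ (bm (by omega))).1
      | succ i ih =>
        intro hi
        have := ih (by omega)
        have := k i (by omega)
        push_cast; omega
    have h1 := this (β + 1) le_rfl
    have h2 := (m2 _ le_rfl).2
    push_cast at h1; omega
  obtain ⟨i, hi, k⟩ := ex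
  have b1 : b (i + 1) ≤ b (β + 1) := bm (by omega)
  have b2 := bs i
  obtain ⟨H', c1, c2⟩ := exists_subset_card_eq (s := H) (n := b i + f (b i)) (by omega)
  refine ⟨b i, by omega, H'.orderEmbOfFin c2, fun J a hJ ha => ?_⟩
  have key : ∀ J : Finset (Fin (b i + f (b i))), b i ≤ J.card → a ∉ J →
      loc r (A (H'.orderEmbOfFin c2 a)) (J.biUnion fun i => A (H'.orderEmbOfFin c2 i)) =
        d (b i + 1) - d (b i) := by
    intro J hJ ha
    have c3 : J.card ≤ b i + f (b i) := by simpa using card_le_univ J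
    have := e2 (J.image (H'.orderEmbOfFin c2)) (fun y hy => by
      obtain ⟨x, -, rfl⟩ := mem_image.1 hy
      exact c1 (H'.orderEmbOfFin_mem c2 x)) _ (c1 (H'.orderEmbOfFin_mem c2 a)) (fun hy => by
      obtain ⟨x, hx, e⟩ := mem_image.1 hy
      exact ha ((H'.orderEmbOfFin c2).injective e ▸ hx))
    rw [image_biUnion, card_image_of_injective _ (H'.orderEmbOfFin c2).injective] at this
    rw [this]
    have := m1 _ _ hJ (by omega)
    have := m1 J.card (b (i + 1)) (by omega) b1
    omega
  have k1 := key J hJ ha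
  have k2 := key (univ.erase a) (hJ.trans (card_le_card fun x hx =>
    mem_erase.2 ⟨fun e => ha (e ▸ hx), mem_univ _⟩)) (by simp)
  simp only [loc, con] at *
  linarith

theorem refine : StRefine := by
  intro h q p
  classical
  induction q with
  | zero =>
    refine ⟨0, fun σ le sz Good _ _ _ _ _ ι s x hs _ _ => ⟨x, ?_, ?_⟩⟩ <;>
      simp [card_eq_zero.1 (Nat.le_zero.1 hs)]
  | succ q ih =>
    obtain ⟨g, hg⟩ := ih
    refine ⟨max p (h p g), fun σ le sz Good rf tr inh sy shr ι s x hs hx hh => ?_⟩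
    rcases s.eq_empty_or_nonempty with rfl | ⟨i0, hi0⟩
    · exact ⟨x, by simp, by simp⟩
    obtain ⟨y, y1, y2⟩ := shr (x i0) p ((le_max_left _ _).trans (hx i0 hi0))
    have : ∀ j, ∃ z', j ∈ s.erase i0 → le z' (x j) ∧ g ≤ sz z' ∧ Good y z' := by
      intro j
      by_cases hj : j ∈ s.erase i0
      · obtain ⟨j1, j2⟩ := mem_erase.1 hj
        obtain ⟨z', hz⟩ := hh i0 hi0 j j2 j1.symm y (x j) g y1 (rf _)
          (y2 ▸ (le_max_right _ _).trans (hx j j2))
        exact ⟨z', fun _ => hz⟩
      · exact ⟨y, fun k => absurd k hj⟩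
    choose z hz using this
    obtain ⟨x', a1, a2⟩ := hg σ le sz Good rf tr inh sy shr ι (s.erase i0) z
      (by rw [card_erase_of_mem hi0]; omega) (fun j hj => (hz j hj).2.1)
      fun i hi j hj hij y' z' a k1 k2 k3 => hh i (mem_of_mem_erase hi) j (mem_of_mem_erase hj) hij
        y' z' a (tr _ _ _ k1 (hz i hi).1) (tr _ _ _ k2 (hz j hj).1) k3
    have g0 : ∀ j ∈ s.erase i0, Good y (x' j) := fun j hj =>
      inh _ _ _ _ (rf y) (a1 j hj).1 (hz j hj).2.2
    refine ⟨Function.update x' i0 y, fun i hi => ?_, fun i hi j hj hij => ?_⟩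
    · by_cases e : i = i0
      · subst e; rw [Function.update_self]; exact ⟨y1, y2⟩
      · rw [Function.update_of_ne e]
        have hi' := mem_erase.2 ⟨e, hi⟩
        exact ⟨tr _ _ _ (a1 i hi').1 (hz i hi').1, (a1 i hi').2⟩
    · by_cases e : i = i0
      · subst e
        rw [Function.update_self, Function.update_of_ne hij.symm]
        exact g0 j (mem_erase.2 ⟨hij.symm, hj⟩)
      · by_cases e' : j = i0
        · subst e'
          rw [Function.update_self, Function.update_of_ne e]
          exact sy _ _ (g0 i (mem_erase.2 ⟨e, hi⟩))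
        · rw [Function.update_of_ne e, Function.update_of_ne e']
          exact a2 i (mem_erase.2 ⟨e, hi⟩) j (mem_erase.2 ⟨e', hj⟩) hij

end Pool.Agent.Lib.MP_a4b0c4_co.J
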