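import Pool.Agent.Lib.MP_a4b0c4_co.JSU2
import Pool.Agent.Lib.MP_a4b0c4_co.JRam2

/-! The uniform case of the ladder theorem. -/

set_option autoImplicit false
set_option linter.unusedSectionVars false
set_option linter.unusedVariables false

open Finset

namespace Pool.Agent.Lib.MP_a4b0c4_co.J.U

lemma glue {α β : Type} [DecidableEq α] [DecidableEq β] {ρ : Finset α → Finset β → ℤ} (h : BM ρ)
    {R1 R2 R : Finset α} {Y1 Y2 : Finset β} (h1 : R1 ⊆ R) (h2 : R2 ⊆ R) (i1 : Ind (ρ R1) Y1)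
    (i2 : Ind (ρ R2) Y2) (k : ∀ d ∈ R1, ∀ c ∈ Y2, ρ {d} {c} = 0) : Ind (ρ R) (Y1 ∪ Y2) := by
  have := h.tri (h.zero k) (union_subset h1 h2) (subset_refl (Y1 ∪ Y2))
  have := card_union_le Y1 Y2
  rw [(h.col R).ind_iff]
  unfold Ind at *
  omega

lemma exists_px : ∃ x : ℕ → ℕ → ℝ, ∀ m i m' i', x m i < x m' i' ↔ m < m' ∨ m = m' ∧ i < i' := by
  have : Countable (ℕ ×ₗ ℕ) := inferInstanceAs (Countable (ℕ × ℕ))
  obtain ⟨f⟩ := Order.embedding_from_countable_to_dense (ℕ ×ₗ ℕ) ℝ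
  exact ⟨fun m i => f (toLex (m, i)), fun m i m' i' => by rw [f.lt_iff_lt, Prod.Lex.toLex_lt_toLex]⟩

/-- positions -/
noncomputable def px : ℕ → ℕ → ℝ := exists_px.choose

lemma px_lt {m i m' i' : ℕ} : px m i < px m' i' ↔ m < m' ∨ m = m' ∧ i < i' :=
  exists_px.choose_spec m i m' i'

lemma px_ne {m i m' i' : ℕ} (h : m ≠ m' ∨ i ≠ i') : px m i ≠ px m' i' := fun k => by
  have h1 := px_lt.not.1 k.not_lt
  have h2 := px_lt.not.1 k.not_gt
  omega

/-- columns of the windows -/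
noncomputable def cc (y : ℕ × ℕ) : ℕ × ℝ := (y.2, px (2 * y.1) y.2)
/-- rows of the windows -/
noncomputable def dd (y : ℕ × ℕ) : ℕ × ℝ := (y.2, px (2 * y.1 + 1) y.2)
/-- all rows in a range of types -/
noncomputable def RR (Q a b : ℕ) : Finset (ℕ × ℝ) := (range Q ×ˢ Icc a b).image dd

lemma cc_inj : Function.Injective cc := fun y z k => by
  have h1 : y.2 = z.2 := congrArg Prod.fst k
  by_contra m
  exact px_ne (.inl fun e => m (Prod.ext (by omega) h1)) (congrArg Prod.snd k)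

lemma mem_RR {Q a b : ℕ} {y : ℕ × ℕ} (h : y.1 < Q ∧ a ≤ y.2 ∧ y.2 ≤ b) : dd y ∈ RR Q a b :=
  mem_image_of_mem _ (by simpa using h)

lemma of_RR {Q a b : ℕ} {d : ℕ × ℝ} (h : d ∈ RR Q a b) :
    ∃ y : ℕ × ℕ, (y.1 < Q ∧ a ≤ y.2 ∧ y.2 ≤ b) ∧ dd y = d := by
  simpa only [RR, mem_image, mem_product, mem_range, mem_Icc] using h

lemma RR_mono {Q a b Q' a' b' : ℕ} (h : Q ≤ Q' ∧ a' ≤ a ∧ b ≤ b') : RR Q a b ⊆ RR Q' a' b' :=
  fun d hd => by
    obtain ⟨y, k, rfl⟩ := of_RR hd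
    exact mem_RR (by omega)

lemma far (q n a b i : ℕ) (h1 : a ≤ i) (h2 : i ≤ b) : ∃ F ⊆ RR (q + n) a b, n ≤ F.card ∧
    ∀ t ∈ F, t.1 = i ∧ ∀ p j, p < q → px (2 * p) j < t.2 := by
  refine ⟨(range n).image fun p => dd (q + p, i), fun t ht => ?_, ?_, fun t ht => ?_⟩
  · obtain ⟨p, hp, rfl⟩ := mem_image.1 ht
    exact mem_RR ⟨by simpa using hp, h1, h2⟩
  · rw [card_image_of_injective _ fun p p' k => by
      by_contra m
      exact px_ne (.inl (by omega)) (congrArg Prod.snd k), card_range]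
  · obtain ⟨p, hp, rfl⟩ := mem_image.1 ht
    exact ⟨rfl, fun p j k => px_lt.2 (.inl (by omega))⟩

variable {n L : ℕ} {ρ : Finset (ℕ × ℝ) → Finset (ℕ × ℝ) → ℤ}

lemma e0 (h : Lad n L ρ) {y z : ℕ × ℕ} (k : 1 ≤ y.2 ∧ y.2 ≤ L ∧ z.2 ≤ L ∧
    (y.1 < z.1 ∨ z.2 ≠ y.2 ∧ z.2 + 1 ≠ y.2)) : ρ {dd y} {cc z} = 0 := by
  obtain ⟨k1, k2, k3, k | k⟩ := k
  · exact h.zero _ _ (px_lt.2 (.inl (by omega)))
  · exact ent0 h k1 k2 k3 (px_ne (.inl (by omega))) k.1 k.2

lemma e1 (h : Lad n L ρ) {y z : ℕ × ℕ} (k : 1 ≤ y.2 ∧ y.2 ≤ L ∧ z.1 ≤ y.1 ∧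
    (z.2 = y.2 ∨ z.2 + 1 = y.2)) : ρ {dd y} {cc z} = 1 :=
  ent1 h k.1 k.2.1 (px_lt.2 (.inl (by omega))) k.2.2.2

lemma tri1 (h : Lad n L ρ) {X : Finset (ℕ × ℕ)} {R : Finset (ℕ × ℝ)}
    (k : ∀ x ∈ X, 1 ≤ x.2 ∧ x.2 ≤ L ∧ dd x ∈ R) : Ind (ρ R) (X.image cc) := by
  refine h.bm.ind_tri fun J hJ ne => ?_
  obtain ⟨J, a, rfl⟩ := subset_image_iff.1 hJ
  obtain ⟨x, hx, m⟩ := J.exists_min_image (fun x => toLex (x.2, x.1)) ne.of_image
  have := k x (a hx)
  refine ⟨_, mem_image_of_mem _ hx, _, this.2.2, e1 h (by omega), fun c hc k' => ?_⟩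
  obtain ⟨z, hz, rfl⟩ := mem_image.1 hc
  have h1 := Prod.Lex.toLex_le_toLex.1 (m z hz)
  have h2 : z.1 ≠ x.1 ∨ z.2 ≠ x.2 := by
    by_contra e
    exact k' (congrArg cc (Prod.ext (by omega) (by omega)))
  have := k z (a hz)
  simp only at h1
  exact e0 h (by omega)

lemma tri2 (h : Lad n L ρ) {X : Finset (ℕ × ℕ)} {R : Finset (ℕ × ℝ)}
    (k : ∀ x ∈ X, x.2 + 1 ≤ L ∧ dd (x.1, x.2 + 1) ∈ R) : Ind (ρ R) (X.image cc) := by
  refine h.bm.ind_tri fun J hJ ne => ?_
  obtain ⟨J, a, rfl⟩ := subset_image_iff.1 hJ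
  obtain ⟨x, hx, m⟩ := J.exists_min_image (fun x => toLex (L - x.2, x.1)) ne.of_image
  have := k x (a hx)
  refine ⟨_, mem_image_of_mem _ hx, _, this.2, e1 h ⟨by simp, this.1, le_rfl, .inr rfl⟩,
    fun c hc k' => ?_⟩
  obtain ⟨z, hz, rfl⟩ := mem_image.1 hc
  have h1 := Prod.Lex.toLex_le_toLex.1 (m z hz)
  have h2 : z.1 ≠ x.1 ∨ z.2 ≠ x.2 := by
    by_contra e
    exact k' (congrArg cc (Prod.ext (by omega) (by omega)))
  have := k z (a hz)
  simp only at h1
  exact e0 h (by simp only; omega)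

/-- an extra column in one window -/
lemma extra (h : Lad n L ρ) {a b q p : ℕ} (ha : 1 ≤ a) (hab : a + 1 ≤ b) (hb : b + 1 ≤ L)
    (v : v2 ρ a) (f : f2 ρ (b + 1)) (hp : p < q) {e : ℝ} (h1 : px (2 * p) a < e)
    (h2 : ∀ d ∈ RR (q + n) a (b + 1), px (2 * p) a < d.2 → e < d.2) :
    Ind (ρ (RR (q + n) a (b + 1))) (insert (a, e) ((range q ×ˢ Icc a (b + 1)).image cc)) := by
  obtain ⟨A, hA⟩ : ∃ A, A = (range p ×ˢ Icc a (b + 1)).image cc ∪
    insert (a, e) ((Icc a (b + 1)).image fun i => (i, px (2 * p) i)) := ⟨_, rfl⟩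
  have hr := h.bm.col (RR (q + n) a (b + 1))
  have i0 : Ind (ρ (RR (q + n) a (b + 1))) A := by
    rw [hA]
    refine glue h.bm (R1 := RR p a (b + 1)) (RR_mono (by omega)) subset_rfl (tri1 h fun x hx => ?_)
      (sw h ha hab hb v f (fun i j k => px_lt.2 (.inr ⟨rfl, k⟩)) h1 fun i i1 i2 => ?_) fun d hd c hc => ?_
    · simp only [mem_product, mem_range, mem_Icc] at hx
      exact ⟨by omega, by omega, mem_RR hx⟩
    · obtain ⟨F, f1, f2, f3⟩ := far q n a (b + 1) i i1 i2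
      exact ⟨F, f1, f2, fun t ht => ⟨(f3 t ht).1, h2 t (f1 ht) ((f3 t ht).2 _ _ hp), (f3 t ht).2 _ _ hp⟩⟩
    · obtain ⟨y, k, rfl⟩ := of_RR hd
      refine h.zero _ _ ?_
      rcases mem_insert.1 hc with rfl | hc
      · exact (px_lt.2 (.inl (by omega))).trans h1
      · obtain ⟨i, -, rfl⟩ := mem_image.1 hc
        exact px_lt.2 (.inl (by omega))
  have mA : ∀ z ∈ A, z = (a, e) ∨ ∃ y : ℕ × ℕ, y.1 ≤ p ∧ y.2 ≤ b + 1 ∧ cc y = z := fun z hz => by
    rw [hA] at hz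
    simp only [mem_union, mem_insert, mem_image, mem_product, mem_range, mem_Icc] at hz
    rcases hz with ⟨y, k, rfl⟩ | rfl | ⟨i, k, rfl⟩
    exacts [.inr ⟨y, by omega, by omega, rfl⟩, .inl rfl, .inr ⟨(p, i), le_rfl, k.2, rfl⟩]
  have i1 : ∀ X : Finset (ℕ × ℕ), (∀ x ∈ X, p < x.1 ∧ x.1 < q ∧ a ≤ x.2 ∧ x.2 ≤ b + 1) →
      Ind (ρ (RR (q + n) a (b + 1))) (A ∪ X.image cc) := by
    intro X
    induction X using Finset.induction_on_max_value (f := fun x : ℕ × ℕ => toLex (x.1, b + 1 - x.2)) with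
    | empty => simpa using i0
    | insert x X hx m ih =>
      intro k
      have k0 := k x (mem_insert_self _ _)
      have k1 := fun y hy => k y (mem_insert_of_mem hy)
      rw [image_insert, union_insert]
      have mZ : ∀ z ∈ A ∪ X.image cc, z = (a, e) ∨ ∃ y : ℕ × ℕ,
          (y.1 < q ∧ y.2 ≤ b + 1 ∧ (y.1 < x.1 ∨ x.2 < y.2)) ∧ cc y = z := fun z hz => by
        rcases mem_union.1 hz with hz | hz
        · exact (mA z hz).imp id fun ⟨y, y1, y2, y3⟩ => ⟨y, by omega, y3⟩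
        · obtain ⟨y, hy, rfl⟩ := mem_image.1 hz
          have h1 := Prod.Lex.toLex_le_toLex.1 (m y hy)
          have h2 : y.1 ≠ x.1 ∨ y.2 ≠ x.2 := by
            by_contra e
            exact hx ((Prod.ext (by omega) (by omega) : y = x) ▸ hy)
          have := k1 y hy
          simp only at h1
          exact .inr ⟨y, by omega, rfl⟩
      obtain ⟨F, f1, f2, f3⟩ := far q n a (b + 1) x.2 (by omega) (by omega)
      have hd : dd (x.1 - 1, x.2) ∈ RR (q + n) a (b + 1) := mem_RR (by simp only; omega)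
      have he := h2 _ hd (px_lt.2 (.inl (by simp only; omega)))
      refine hr.ind_insert (ih k1) (hw h (b := px (2 * (x.1 - 1) + 1) x.2) (by omega) (by omega)
        (fun z hz => ?_) (px_lt.2 (.inl (by omega))) hd (fun d hd => ?_) f1 f2
        (fun t ht => ⟨(f3 t ht).1, (f3 t ht).2 _ _ k0.2.1, fun z hz => ?_⟩) (ih k1))
      · rcases mZ z hz with rfl | ⟨y, y1, rfl⟩
        · exact ⟨by simp only; omega, he.ne, fun _ => he⟩
        · exact ⟨by simp only [cc]; omega, px_ne (.inl (by omega)), fun k =>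
            px_lt.2 (.inl (by simp only [cc] at k; omega))⟩
      · obtain ⟨y, -, rfl⟩ := of_RR (mem_of_mem_erase hd)
        refine px_ne ?_
        by_contra e
        exact (mem_erase.1 hd).1 (congrArg dd (Prod.ext (by omega) (by omega) : y = (x.1 - 1, x.2)))
      · rcases mZ z hz with rfl | ⟨y, y1, rfl⟩
        · exact h2 t (f1 ht) ((f3 t ht).2 _ _ hp)
        · exact (f3 t ht).2 _ _ y1.1
  refine hr.ind_sub (i1 (Ioo p q ×ˢ Icc a (b + 1)) fun x hx => ?_) fun z hz => ?_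
  · simp only [mem_product, mem_Ioo, mem_Icc] at hx
    omega
  · rw [hA]
    simp only [mem_union, mem_insert, mem_image, mem_product, mem_range, mem_Icc, mem_Ioo] at hz ⊢
    rcases hz with rfl | ⟨y, k, rfl⟩
    · exact .inl (.inr (.inl rfl))
    · rcases lt_trichotomy y.1 p with m | rfl | m
      exacts [.inl (.inl ⟨y, ⟨m, k.2⟩, rfl⟩), .inl (.inr (.inr ⟨y.2, k.2, rfl⟩)),
        .inr ⟨y, ⟨⟨m, k.1⟩, k.2⟩, rfl⟩]

/-- all window columns and a set of heads -/
noncomputable def YY (q M : ℕ) (S : Finset (ℕ × ℕ)) : Finset (ℕ × ℝ) :=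
  (range q ×ˢ Icc 1 M ∪ S).image cc

lemma up (h : Lad n L ρ) {q M M' : ℕ} {S : Finset (ℕ × ℕ)} (h1 : M ≤ M') (h2 : M' ≤ L)
    (k : Ind (ρ (RR (q + n) 1 M)) (YY q M S)) : Ind (ρ (RR (q + n) 1 M')) (YY q M' S) := by
  refine (h.bm.col _).ind_sub (glue h.bm (RR_mono (by omega)) subset_rfl k
    (tri1 h (X := range q ×ˢ Icc (M + 1) M') fun x hx => ?_) fun d hd c hc => ?_) ?_
  · simp only [mem_product, mem_range, mem_Icc] at hx
    exact ⟨by omega, by omega, mem_RR (by omega)⟩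
  · obtain ⟨y, k, rfl⟩ := of_RR hd
    obtain ⟨x, hx, rfl⟩ := mem_image.1 hc
    simp only [mem_product, mem_range, mem_Icc] at hx
    exact e0 h (by omega)
  · rw [YY, YY, ← image_union]
    refine image_subset_image fun x hx => ?_
    simp only [mem_union, mem_product, mem_range, mem_Icc] at *
    clear * - hx; grind

lemma step (h : Lad n L ρ) {a b q : ℕ} (ha : 1 ≤ a) (hab : a + 1 ≤ b) (hb : b + 1 ≤ L)
    (v : v2 ρ a) (f : f2 ρ (b + 1)) {S : Finset (ℕ × ℕ)} (hS : ∀ x ∈ S, x.1 < q ∧ x.2 = 0)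
    {x1 : ℕ × ℕ} (k : Ind (ρ (RR (q + n) 1 (a - 1))) (YY q (a - 1) (S.erase x1))) :
    Ind (ρ (RR (q + n) 1 (b + 1))) (YY q (b + 1) S) := by
  obtain ⟨R, hR⟩ : ∃ R, R = RR (q + n) 1 (b + 1) := ⟨_, rfl⟩
  obtain ⟨X, hX⟩ : ∃ X, X = range q ×ˢ Icc 1 (b + 1) ∪ S := ⟨_, rfl⟩
  have mX : ∀ x ∈ X, x.1 < q ∧ x.2 ≤ b + 1 := fun x hx => by
    have := hS x
    simp only [hX, mem_union, mem_product, mem_range, mem_Icc] at hx
    clear * - hx this; grind
  rw [YY, ← hX, ← hR]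
  have hr := h.bm.col R
  by_contra dep
  have i1 : Ind (ρ R) ((X.filter fun x => x.2 < a).image cc ∪ (X.filter fun x => a < x.2).image cc) := by
    refine glue h.bm (R1 := RR (q + n) 1 a) (hR ▸ RR_mono (by omega)) subset_rfl
      (tri2 h fun x hx => ?_) (tri1 h fun x hx => ?_) fun d hd c hc => ?_
    · have := mX x (mem_filter.1 hx).1
      have := (mem_filter.1 hx).2
      exact ⟨by omega, mem_RR (by simp only; omega)⟩
    · have := mX x (mem_filter.1 hx).1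
      have := (mem_filter.1 hx).2
      exact ⟨by omega, by omega, hR ▸ mem_RR (by omega)⟩
    · obtain ⟨y, k, rfl⟩ := of_RR hd
      obtain ⟨x, hx, rfl⟩ := mem_image.1 hc
      have := mX x (mem_filter.1 hx).1
      have := (mem_filter.1 hx).2
      exact e0 h (by omega)
  obtain ⟨A, hA⟩ : ∃ A, A = (X.filter fun x => x.2 < a).image cc ∪ (X.filter fun x => a < x.2).image cc :=
    ⟨_, rfl⟩
  have sA : A ⊆ X.image cc :=
    hA ▸ union_subset (image_subset_image (filter_subset _ _)) (image_subset_image (filter_subset _ _))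
  rw [← hA] at i1
  obtain ⟨c, hc, c1⟩ : ∃ c ∈ X.image cc \ A, Cl (ρ R) ((X.image cc).erase c) c := by
    by_contra m
    push Not at m
    refine dep (hr.ind_sub (hr.ind_union i1 (hr.ind_of_leaf (I := X.image cc \ A)
      fun J hJ ⟨c, hc⟩ => ⟨c, hc, fun e => m c (hJ hc) (hr.cl_mono ?_ e)⟩)) (by clear * -; grind))
    have := hJ hc
    clear * - hJ sA this; grind
  obtain ⟨⟨p, i⟩, hx, rfl⟩ := mem_image.1 (mem_sdiff.1 hc).1
  obtain rfl : i = a := by
    by_contra m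
    refine (mem_sdiff.1 hc).2 (hA ▸ mem_union.2 ((lt_or_gt_of_ne m).imp (fun k => ?_) fun k => ?_))
    <;> exact mem_image_of_mem _ (mem_filter.2 ⟨hx, k⟩)
  obtain ⟨H, cH, hH⟩ := gap (R.image Prod.snd ∪ (X.image cc).image Prod.snd) (px (2 * p) i) 1
  obtain ⟨e, rfl⟩ := card_eq_one.1 cH
  obtain ⟨g1, g2⟩ := hH e (mem_singleton_self e)
  have g3 : ∀ d ∈ R, px (2 * p) i < d.2 → e < d.2 := fun d hd =>
    g2 _ (mem_union_left _ (mem_image_of_mem _ hd))
  have c2 := InvP.swap (InvP.tr h.inv) (D := (X.image cc).erase (cc (p, i))) (Y := R) (i := i) g1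
    (fun y hy => ⟨by
      obtain ⟨x, -, rfl⟩ := mem_image.1 (mem_of_mem_erase hy)
      refine px_ne ?_
      by_contra m
      exact (mem_erase.1 hy).1 (congrArg cc (Prod.ext (by omega) (by omega) : x = (p, i))),
      g2 _ (mem_union_right _ (mem_image_of_mem _ (mem_of_mem_erase hy)))⟩)
    fun d hd => ⟨by
      obtain ⟨y, -, rfl⟩ := of_RR (hR ▸ hd)
      exact px_ne (.inl (by omega)), g3 d hd⟩
  have c3 : Cl (ρ R) (X.image cc) (i, e) := hr.cl_mono (erase_subset _ _) (c2.symm.trans c1)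
  have s2 : RR (q + n) i (b + 1) ⊆ R := hR ▸ RR_mono (by omega)
  have i2 := glue h.bm (R := R) (hR ▸ RR_mono (by omega)) s2 k
    (extra h ha hab hb v f (mX _ hx).1 g1 fun d hd => g3 d (s2 hd)) fun d hd c hc => by
      obtain ⟨y, k, rfl⟩ := of_RR hd
      rcases mem_insert.1 hc with rfl | hc
      · refine ent0 h k.2.1 (by simp only [dd]; omega) (by simp only; omega) (fun m => ?_)
          (by simp only [dd]; omega) (by simp only [dd]; omega)
        exact (g3 _ (hR ▸ mem_RR (by omega)) (m ▸ g1)).ne m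
      · obtain ⟨x, hx, rfl⟩ := mem_image.1 hc
        simp only [mem_product, mem_range, mem_Icc] at hx
        exact e0 h (by omega)
  obtain ⟨U, hU⟩ : ∃ U, U = YY q (i - 1) (S.erase x1) ∪
    insert (i, e) ((range q ×ˢ Icc i (b + 1)).image cc) := ⟨_, rfl⟩
  rw [← hU] at i2
  have eU : U = insert (i, e) ((range q ×ˢ Icc 1 (b + 1) ∪ S.erase x1).image cc) := by
    rw [hU, union_insert, YY, ← image_union]
    refine congrArg (fun Z => insert (i, e) (image cc Z)) (Finset.ext fun x => ?_)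
    simp only [mem_union, mem_product, mem_range, mem_Icc]
    clear * - ha hab; grind
  have u1 := hr.mono (X := U) (Y := insert (i, e) (X.image cc))
    (eU ▸ hX ▸ insert_subset_insert _ (image_subset_image (union_subset_union_right (erase_subset _ _))))
  have u2 : (i, e) ∉ (range q ×ˢ Icc 1 (b + 1) ∪ S.erase x1).image cc := fun m =>
    lt_irrefl e (g2 e (mem_union_right _ (mem_image_of_mem Prod.snd
      (image_subset_image (hX ▸ union_subset_union_right (erase_subset _ _)) m))) g1)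
  have u3 := card_le_card (s := X.image cc)
    (t := insert (cc x1) ((range q ×ˢ Icc 1 (b + 1) ∪ S.erase x1).image cc)) (by
      rw [← image_insert, hX]
      exact image_subset_image (by clear * -; grind))
  have u4 := card_insert_le (cc x1) ((range q ×ˢ Icc 1 (b + 1) ∪ S.erase x1).image cc)
  have u5 := congrArg card eU
  rw [card_insert_of_notMem u2] at u5
  rw [hr.ind_iff] at dep
  unfold Ind Cl at *
  omega

theorem su : StSU := by
  intro n l
  refine ⟨n * (2 * l + 1) + 1, fun ρ h hyp => ?_⟩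
  obtain ⟨q, hq⟩ := r0 n (n * (n * (2 * l + 1))) n
  have key : ∀ s M, s * (2 * l + 1) ≤ M → M ≤ n * (2 * l + 1) → ∀ S : Finset (ℕ × ℕ),
      (∀ x ∈ S, x.1 < q ∧ x.2 = 0) → S.card ≤ s → Ind (ρ (RR (q + n) 1 M)) (YY q M S) := by
    intro s
    induction s with
    | zero =>
      intro M _ h2 S _ hS
      refine tri1 h fun x hx => ?_
      simp only [card_eq_zero.1 (Nat.le_zero.1 hS), union_empty, mem_product, mem_range, mem_Icc] at hx
      exact ⟨by omega, by omega, mem_RR (by omega)⟩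
    | succ s ih =>
      intro M h1 h2 S hS hc
      rw [Nat.succ_mul] at h1
      obtain ⟨a, a1, a2, v⟩ := (hyp (s * (2 * l + 1)) (by omega)).2
      obtain ⟨b, b1, b2, f⟩ := (hyp (a + 1) (by omega)).1
      obtain ⟨b, rfl⟩ : ∃ c, b = c + 1 := ⟨b - 1, by omega⟩
      obtain ⟨x, hx⟩ : ∃ x, (S.erase x).card ≤ s := by
        rcases S.eq_empty_or_nonempty with rfl | ⟨x, hx⟩
        · exact ⟨0, by simp⟩
        · exact ⟨x, by rw [card_erase_of_mem hx]; omega⟩
      exact up h (by omega) (by omega) (step h (by omega) (by omega) (by omega) v f hS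
        (ih _ (by omega) (by omega) _ (fun y hy => hS y (mem_of_mem_erase hy)) hx))
  obtain ⟨M, hM⟩ : ∃ M, M = n * (2 * l + 1) := ⟨_, rfl⟩
  rw [← hM] at h hq key
  have hr := h.bm.col (RR (q + n) 1 M)
  obtain ⟨C, hC⟩ : ∃ C, C = (range q ×ˢ Icc 1 M).image cc := ⟨_, rfl⟩
  obtain ⟨Y, hY⟩ : ∃ Y, Y = (range q ×ˢ {0}).image cc := ⟨_, rfl⟩
  have d : Disjoint Y C := by
    rw [hY, hC, disjoint_image cc_inj]
    exact disjoint_product.2 (.inr (by simp))
  have i0 := key n M hM.ge le_rfl ∅ (by simp) (by simp)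
  rw [YY, union_empty, ← hC] at i0
  have cC : C.card = q * M := by rw [hC, card_image_of_injective _ cc_inj]; simp
  have cR : (RR (q + n) 1 M).card ≤ q * M + n * M := card_image_le.trans (by simp [add_mul])
  obtain ⟨Y', y1, y2, y3⟩ := hq _ (con (ρ (RR (q + n) 1 M)) C) Y Y (hr.con C)
    ((h.free.col h.bm (Y := Y ∪ C) (fun x hx => by
      obtain ⟨y, k, rfl⟩ := of_RR hx
      exact ⟨k.2.1, by simp only [dd]; omega⟩) fun x hx => by
        rw [hY, hC, ← image_union] at hx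
        obtain ⟨y, k, rfl⟩ := mem_image.1 hx
        simp only [mem_union, mem_product, mem_range, mem_Icc, mem_singleton] at k
        simp only [cc, Set.mem_ofPred_eq]
        omega).con hr subset_union_right (subset_sdiff.2 ⟨subset_union_left, d⟩)) subset_rfl
    (by
      have := h.bm.le_l (RR (q + n) 1 M) (Y ∪ C)
      unfold Ind con at *
      omega) (by rw [hY, card_image_of_injective _ cc_inj]; simp)
  obtain ⟨S, s1, rfl⟩ := subset_image_iff.1 (hY ▸ y1)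
  have := key n M hM.ge le_rfl S (fun x hx => by
    have := mem_product.1 (s1 hx)
    exact ⟨mem_range.1 this.1, mem_singleton.1 this.2⟩) (by rw [← y2, card_image_of_injective _ cc_inj])
  rw [YY, image_union, ← hC, union_comm] at this
  have := hr.ind_con (d.mono_left y1) this
  unfold Ind at this
  omega

end Pool.Agent.Lib.MP_a4b0c4_co.J.U
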