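import Pool.Agent.Lib.MP_a4b0c4_co.JCl2
import Pool.Agent.Lib.MP_a4b0c4_co.JRam3

set_option autoImplicit false
set_option linter.unusedSectionVars false
set_option linter.unusedVariables false

open Finset

namespace Pool.Agent.Lib.MP_a4b0c4_co.J.F

section
variable {T Θ S Γ : Type} [Fintype T] [Fintype S] [Fintype Θ] [Fintype Γ] [DecidableEq T]
  [DecidableEq Θ] [DecidableEq S] [DecidableEq Γ] {n : ℕ}
  {ρ : Finset (Lab T Θ Empty ℝ) → Finset (Lab S Γ Empty ℝ) → ℤ}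

/-- all hypotheses on a strip -/
structure Stp (n : ℕ) (ρ : Finset (Lab T Θ Empty ℝ) → Finset (Lab S Γ Empty ℝ) → ℤ) : Prop where
  inv : Inv ρ
  bm : BM ρ
  free : FreeB n ρ Set.univ Set.univ
  st : StripP ρ

/-- the transposed and reflected strip -/
noncomputable def dl (ρ : Finset (Lab T Θ Empty ℝ) → Finset (Lab S Γ Empty ℝ) → ℤ) :
    Finset (Lab S Γ Empty ℝ) → Finset (Lab T Θ Empty ℝ) → ℤ :=
  tr (pullB ρ (Lab.map Neg.neg) (Lab.map Neg.neg))

lemma map_neg_neg {A B : Type} (l : Lab A B Empty ℝ) : Lab.map Neg.neg (Lab.map Neg.neg l) = l := by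
  rw [Lab.lim_map_map, show (Neg.neg ∘ Neg.neg : ℝ → ℝ) = id from funext neg_neg, Lab.lim_map_id]

lemma dl_dl : dl (dl ρ) = ρ := by
  funext R Y
  simp only [dl, tr, pullB, image_image, Function.comp_def, map_neg_neg, image_id']

lemma map_gs (A B : Type) [Fintype A] [DecidableEq A] [DecidableEq B] (φ : ℝ → ℝ) :
    (gs A B : Finset (Lab A B Empty ℝ)).image (Lab.map φ) = gs A B := by
  simp only [gs, image_image]
  rfl

lemma map_ls {A B : Type} [DecidableEq A] [DecidableEq B] (φ : ℝ → ℝ) (Y : Finset (B × ℝ)) :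
    (ls Y : Finset (Lab A B Empty ℝ)).image (Lab.map φ) = ls (Y.image (Prod.map id φ)) := by
  simp only [ls, image_image]
  rfl

lemma supp_ls {A B : Type} [DecidableEq A] [DecidableEq B] (Y : Finset (B × ℝ)) :
    (ls Y : Finset (Lab A B Empty ℝ)).biUnion Lab.supp = Y.image Prod.snd := by
  rw [ls, image_biUnion, ← biUnion_singleton]
  rfl

lemma Stp.entry (h : Stp n ρ) (τ : Θ) (σ : Γ) {α β : ℝ} (k : α < β) :
    ρ {Lab.o τ β} {Lab.o σ α} = ρ {Lab.o τ 1} {Lab.o σ 0} := by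
  rw [← h.inv (fun x => α + (β - α) * x) {Lab.o τ 1} {Lab.o σ 0}
    (StrictMono.strictMonoOn (fun x y c => by nlinarith) _)]
  simp [Lab.map]

lemma Stp.dl (h : Stp n ρ) : Stp n (dl ρ) := by
  have inj : ∀ {A B : Type}, Function.Injective
      (Lab.map Neg.neg : Lab A B Empty ℝ → Lab A B Empty ℝ) :=
    fun {A B} => Function.LeftInverse.injective map_neg_neg
  have lt : ∀ {A B : Type} [DecidableEq A] [DecidableEq B] (D : Finset (A × ℝ))
      (Y : Finset (B × ℝ)), (∀ y ∈ Y, ∀ d ∈ D, y.2 < d.2) →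
      ∀ d ∈ D.image (Prod.map id Neg.neg), ∀ y ∈ Y.image (Prod.map id Neg.neg), d.2 < y.2 := by
    intro A B _ _ D Y k d hd y hy
    obtain ⟨y, hy', rfl⟩ := mem_image.1 hy
    obtain ⟨d, hd', rfl⟩ := mem_image.1 hd
    exact neg_lt_neg (k y hy' d hd')
  refine ⟨fun φ R Y hφ => ?_, (h.bm.pull _ _).tr, FreeB.tr (h.bm.pull _ _)
    (h.free.pull h.bm inj.injOn inj.injOn (fun _ _ => trivial) fun _ _ => trivial),
    fun σ β τ α k => ?_, fun D Y k => ?_, fun D Y k => ?_⟩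
  · simp only [F.dl, tr, pullB]
    rw [← h.inv (fun x => -φ (-x)) (Y.image (Lab.map Neg.neg)) (R.image (Lab.map Neg.neg)) ?_]
    · simp only [image_image, Function.comp_def, Lab.lim_map_map, neg_neg]
    · have key : ∀ x ∈ (Y.image (Lab.map Neg.neg)).biUnion Lab.supp ∪
          (R.image (Lab.map Neg.neg)).biUnion Lab.supp,
          -x ∈ R.biUnion Lab.supp ∪ Y.biUnion Lab.supp := fun x hx => by
        simp only [mem_union, image_biUnion, mem_biUnion, Lab.lim_supp_map, mem_image] at hx ⊢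
        rcases hx with ⟨y, hy, z, hz, rfl⟩ | ⟨y, hy, z, hz, rfl⟩
        exacts [.inr ⟨y, hy, by rwa [neg_neg]⟩, .inl ⟨y, hy, by rwa [neg_neg]⟩]
      exact fun x hx y hy k => neg_lt_neg (hφ (key y hy) (key x hx) (neg_lt_neg k))
  · simp only [F.dl, tr, pullB, image_singleton]
    exact h.st.zero _ _ _ _ (neg_lt_neg k)
  · simp only [F.dl, tr, pullB, image_union, map_gs, map_ls]
    exact h.st.fb _ _ (lt D Y k)
  · simp only [F.dl, tr, pullB, image_union, map_gs, map_ls]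
    exact h.st.fa _ _ (lt D Y k)

lemma Stp.sees_dl (h : Stp n ρ) (τ : Θ) (σ : Γ) : sees (F.dl ρ) σ τ ↔ sees ρ τ σ := by
  simp only [sees, F.dl, tr, pullB, image_singleton]
  rw [← h.entry τ σ (show (-1 : ℝ) < -0 by norm_num)]
  rfl

/-- all members of the types in A have rank at most x on the global rows -/
def RkC (ρ : Finset (Lab T Θ Empty ℝ) → Finset (Lab S Γ Empty ℝ) → ℤ) (A : Set Γ) (x : ℕ) : Prop :=
  ∀ Y : Finset (Γ × ℝ), (∀ y ∈ Y, y.1 ∈ A) → ρ (gs T Θ) (ls Y) ≤ x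

lemma Stp.rk (h : Stp n ρ) : Rk fun Y : Finset (Γ × ℝ) => ρ (gs T Θ) (ls Y) :=
  (h.bm.col _).pull _

lemma RkC.mono {A B : Set Γ} {x y : ℕ} (k : RkC ρ B x) (h1 : A ⊆ B) (h2 : x ≤ y) : RkC ρ A y :=
  fun Y hY => (k Y fun z hz => h1 (hY z hz)).trans (by exact_mod_cast h2)

lemma RkC.union (h : Stp n ρ) {A B : Set Γ} {x y : ℕ} (k : RkC ρ A x) (k' : RkC ρ B y) :
    RkC ρ (A ∪ B) (x + y) := by
  classical
  intro Y hY
  have a1 := k (Y.filter fun z => z.1 ∈ A) fun z hz => (mem_filter.1 hz).2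
  have a2 := k' (Y.filter fun z => z.1 ∈ B) fun z hz => (mem_filter.1 hz).2
  have a3 := h.rk.union_le (X := Y.filter fun z => z.1 ∈ A) (Y := Y.filter fun z => z.1 ∈ B)
    (Z := Y) fun z hz => by
      rcases hY z hz with c | c
      exacts [mem_union_left _ (mem_filter.2 ⟨hz, c⟩), mem_union_right _ (mem_filter.2 ⟨hz, c⟩)]
  push_cast
  linarith

lemma Stp.one (h : Stp n ρ) (σ : Γ) : RkC ρ {σ} n := by
  intro Y hY
  have v : ∀ {A B : Type} (l : Lab A B Empty ℝ), l.valid := by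
    rintro A B (a | ⟨b, i⟩ | ⟨⟨⟩, -⟩) <;> trivial
  obtain ⟨P, -, hP⟩ := (Set.infinite_univ (α := ℝ)).exists_subset_card_eq n
  have a1 := (h.bm.col (gs T Θ)).span_le (A := P.image fun a => Lab.o σ a) (X := ls Y)
    fun l hl => by
      obtain ⟨y, hy, rfl⟩ := mem_image.1 hl
      have := cl_move h.inv h.bm (h.free.mono (Set.subset_univ _) (Set.subset_univ _))
        (R := gs T Θ) (fun l _ => v l) (T := ∅) (biUnion_subset.2 fun l hl => by
          obtain ⟨a, -, rfl⟩ := mem_image.1 hl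
          exact subset_rfl)
        (y := Lab.o y.1 y.2) (v _) (x := y.2) (notMem_empty _) (mem_singleton_self _)
        (by simp [Lab.supp]) (P := P) (fun a _ t ht => absurd ht (notMem_empty _)) (by omega)
      simp only [Lab.map, Function.update_self] at this
      rwa [← (hY y hy : y.1 = σ)]
  have a2 := h.bm.le_r (gs T Θ) (P.image fun a => Lab.o σ a)
  have a3 : (P.image fun a => (Lab.o σ a : Lab S Γ Empty ℝ)).card ≤ P.card := card_image_le
  omega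

lemma Stp.grow (h : Stp n ρ) {A : Set Γ} {x W : ℕ} (k : RkC ρ A x)
    (hW : ∀ σ, RkC (F.dl ρ) {τ | sees ρ τ σ} W) :
    RkC (F.dl ρ) {τ | ∃ σ ∈ A, sees ρ τ σ} (x * W) := by
  classical
  obtain ⟨m, ⟨Y1, y1, rfl⟩, hm⟩ := Int.exists_greatest_of_bdd
    (P := fun m => ∃ Y : Finset (Γ × ℝ), (∀ y ∈ Y, y.1 ∈ A) ∧ ρ (gs T Θ) (ls Y) = m)
    ⟨x, by rintro _ ⟨Y, hY, rfl⟩; exact k Y hY⟩ ⟨_, ∅, by simp, rfl⟩
  obtain ⟨Y0, b1, b2, -, b4⟩ := h.rk.basis Y1
  have b5 := k Y1 y1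
  have key : ∀ τ, (∃ σ ∈ A, sees ρ τ σ) → ∃ y ∈ Y0, sees ρ τ y.1 := by
    rintro τ ⟨σ, hσ, hs⟩
    by_contra c
    push Not at c
    obtain ⟨β, hβ⟩ := (Y0.image Prod.snd).bddAbove
    have lt : ∀ y ∈ Y0, y.2 < β + 1 := fun y hy =>
      (hβ (mem_coe.2 (mem_image_of_mem _ hy))).trans_lt (lt_add_one β)
    have a1 := h.st.fa {(τ, β + 1)} (insert (σ, β) Y0) fun y hy d hd => by
      rw [mem_singleton.1 hd]
      rcases mem_insert.1 hy with rfl | hy
      exacts [lt_add_one β, lt y hy]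
    have a2 := hm _ ⟨insert (σ, β) Y0, fun y hy => by
      rcases mem_insert.1 hy with rfl | hy
      exacts [hσ, y1 y (b1 hy)], rfl⟩
    have a3 := h.bm.tri (R := {Lab.o τ (β + 1)}) (R' := gs T Θ) (Y := {Lab.o σ β}) (Y' := ls Y0)
      (A := gs T Θ ∪ ls {(τ, β + 1)}) (C := ls (insert (σ, β) Y0))
      (h.bm.zero fun d hd l hl => by
        obtain ⟨y, hy, rfl⟩ := mem_image.1 hl
        rw [mem_singleton.1 hd, h.entry _ _ (lt y hy)]
        exact (h.bm.one _ _).resolve_right (c y hy))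
      (by rw [union_comm]; simp [ls]) (by simp [ls])
    rw [h.entry _ _ (lt_add_one β), hs] at a3
    have b2 : ρ (gs T Θ) (ls Y0) = Y0.card := b2
    have b4 : ρ (gs T Θ) (ls Y1) = Y0.card := b4
    omega
  intro D hD
  have a1 := h.dl.rk.mono (X := D) (Y := Y0.biUnion fun y => D.filter fun d => sees ρ d.1 y.1)
    fun d hd => by
      obtain ⟨y, hy, c⟩ := key d.1 (hD d hd)
      exact mem_biUnion.2 ⟨y, hy, mem_filter.2 ⟨hd, c⟩⟩
  have a2 := h.dl.rk.biUnion_le Y0 fun y => D.filter fun d => sees ρ d.1 y.1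
  have a3 := sum_le_card_nsmul Y0 (fun y => F.dl ρ (gs S Γ) (ls (D.filter fun d => sees ρ d.1 y.1)))
    (W : ℤ) fun y _ => hW y.1 _ fun d hd => (mem_filter.1 hd).2
  have a4 : (Y0.card : ℤ) * W ≤ x * W := mul_le_mul_of_nonneg_right (by omega) (by positivity)
  rw [nsmul_eq_mul] at a3
  push_cast
  linarith

/-- the bipartite graph of a strip -/
def sadj (ρ : Finset (Lab T Θ Empty ℝ) → Finset (Lab S Γ Empty ℝ) → ℤ) : Θ ⊕ Γ → Θ ⊕ Γ → Prop
  | .inl τ, .inr σ => sees ρ τ σ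
  | .inr σ, .inl τ => sees ρ τ σ
  | _, _ => False

lemma sadj_symm (a b : Θ ⊕ Γ) (k : sadj ρ a b) : sadj ρ b a := by
  rcases a with a | a <;> rcases b with b | b <;> exact k

lemma Stp.ball (h : Stp n ρ) {W : ℕ} (h1 : ∀ τ, RkC ρ {σ | sees ρ τ σ} W)
    (h2 : ∀ σ, RkC (F.dl ρ) {τ | sees ρ τ σ} W) (σ0 : Γ) (i : ℕ) :
    RkC ρ {σ | .inr σ ∈ ball (sadj ρ) (.inr σ0) i} (n * (W + 1) ^ i) ∧
      RkC (F.dl ρ) {τ | .inl τ ∈ ball (sadj ρ) (.inr σ0) i} (n * (W + 1) ^ i) := by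
  induction i with
  | zero =>
    refine ⟨(h.one σ0).mono (fun σ hσ => by simpa [J.ball] using hσ) (by simp), fun D hD => ?_⟩
    obtain rfl : D = ∅ := eq_empty_of_forall_notMem fun d hd => by simpa [J.ball] using hD d hd
    rw [h.dl.rk.emp]
    positivity
  | succ i ih =>
    have e : n * (W + 1) ^ i + n * (W + 1) ^ i * W ≤ n * (W + 1) ^ (i + 1) := le_of_eq (by ring)
    constructor
    · have a := h.dl.grow ih.2 fun τ => by
        rw [dl_dl]
        exact (h1 τ).mono (fun σ hσ => (h.sees_dl τ σ).1 hσ) le_rfl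
      rw [dl_dl] at a
      refine (ih.1.union h a).mono ?_ e
      rintro σ (c | ⟨τ | τ, c, d⟩)
      exacts [.inl c, .inr ⟨τ, c, (h.sees_dl τ σ).2 d⟩, d.elim]
    · refine (ih.2.union h.dl (h.grow ih.1 h2)).mono ?_ e
      rintro τ (c | ⟨σ | σ, c, d⟩)
      exacts [.inl c, d.elim, .inr ⟨σ, c, d⟩]

lemma Stp.lad (h : Stp n ρ) {L : ℕ} {σ0 : Γ} {f : ℕ → Θ ⊕ Γ} (f0 : f 0 = .inr σ0)
    (f1 : ∀ a < 2 * L + 1, sadj ρ (f a) (f (a + 1)))
    (f2 : ∀ a ≤ 2 * L + 1, ∀ b ≤ 2 * L + 1, sadj ρ (f a) (f b) → a ≤ b + 1 ∧ b ≤ a + 1)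
    (f3 : ∀ a ≤ 2 * L + 1, ∀ b ≤ 2 * L + 1, f a = f b → a = b) : ∃ ρ', Lad n L ρ' := by
  have p1 : ∀ a < 2 * L + 1, (∃ σ, f a = .inr σ) → ∃ τ, f (a + 1) = .inl τ := by
    rintro a ha ⟨σ, e⟩
    have := f1 a ha
    rcases k : f (a + 1) with τ | τ
    · exact ⟨τ, rfl⟩
    · rw [e, k] at this; exact this.elim
  have p2 : ∀ a < 2 * L + 1, (∃ σ, f a = .inl σ) → ∃ τ, f (a + 1) = .inr τ := by
    rintro a ha ⟨σ, e⟩
    have := f1 a ha
    rcases k : f (a + 1) with τ | τ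
    · rw [e, k] at this; exact this.elim
    · exact ⟨τ, rfl⟩
  have p3 : ∀ i ≤ L, ∃ σ, f (2 * i) = .inr σ := fun i => by
    induction i with
    | zero => exact fun _ => ⟨σ0, f0⟩
    | succ i ih => exact fun hi => p2 (2 * i + 1) (by omega) (p1 _ (by omega) (ih (by omega)))
  obtain ⟨τ0, -⟩ := p1 0 (by omega) ⟨σ0, f0⟩
  obtain ⟨c, hc⟩ : ∃ c : ℕ → Γ, ∀ i ≤ L, f (2 * i) = .inr (c i) :=
    ⟨fun i => (f (2 * i)).elim (fun _ => σ0) id, fun i hi => by
      obtain ⟨σ, e⟩ := p3 i hi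
      simp [e]⟩
  obtain ⟨d, hd⟩ : ∃ d : ℕ → Θ, ∀ i, 1 ≤ i → i ≤ L → f (2 * i - 1) = .inl (d i) :=
    ⟨fun i => (f (2 * i - 1)).elim id fun _ => τ0, fun i h1 hi => by
      obtain ⟨τ, e⟩ := p1 (2 * (i - 1)) (by omega) (p3 _ (by omega))
      rw [show 2 * (i - 1) + 1 = 2 * i - 1 by omega] at e
      simp [e]⟩
  have e1 : ∀ D : Finset (ℕ × ℝ), (D.image fun x => (Lab.o (d x.1) x.2 : Lab T Θ Empty ℝ)) =
      ls (D.image (Prod.map d id)) := fun D => by simp only [ls, image_image]; rfl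
  have e2 : ∀ D : Finset (ℕ × ℝ), (D.image fun x => (Lab.o (c x.1) x.2 : Lab S Γ Empty ℝ)) =
      ls (D.image (Prod.map c id)) := fun D => by simp only [ls, image_image]; rfl
  refine ⟨pullB ρ (fun x : ℕ × ℝ => Lab.o (d x.1) x.2) fun x : ℕ × ℝ => Lab.o (c x.1) x.2,
    h.bm.pull _ _, h.free.pull h.bm (fun x hx y hy k => ?_) (fun x hx y hy k => ?_)
      (fun _ _ => trivial) fun _ _ => trivial, fun φ D Y hφ => ?_, fun x y k => ?_,
    fun x y k1 k2 k3 k4 => ?_, Fintype.card T, fun D Y k => ?_⟩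
  · simp only [Lab.o, Sum.inr.injEq, Sum.inl.injEq, Prod.mk.injEq] at k
    obtain ⟨a1, a2⟩ := hx
    obtain ⟨b1, b2⟩ := hy
    have := f3 (2 * x.1 - 1) (by omega) (2 * y.1 - 1) (by omega)
      (by rw [hd _ a1 a2, hd _ b1 b2, k.1])
    exact Prod.ext (by omega) k.2
  · simp only [Lab.o, Sum.inr.injEq, Sum.inl.injEq, Prod.mk.injEq] at k
    have a1 : x.1 ≤ L := hx
    have b1 : y.1 ≤ L := hy
    have := f3 (2 * x.1) (by omega) (2 * y.1) (by omega) (by rw [hc _ a1, hc _ b1, k.1])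
    exact Prod.ext (by omega) k.2
  · simp only [pullB]
    rw [← h.inv φ (D.image fun x => Lab.o (d x.1) x.2) (Y.image fun x => Lab.o (c x.1) x.2)
      (by rw [e1, e2, supp_ls, supp_ls, image_image, image_image]; exact hφ)]
    simp only [image_image]
    rfl
  · simp only [pullB, image_singleton]
    exact h.st.zero _ _ _ _ k
  · simp only [pullB, image_singleton]
    rw [h.entry _ _ k4]
    have a : sadj ρ (f (2 * x.1 - 1)) (f (2 * y.1)) ↔ sees ρ (d x.1) (c y.1) := by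
      rw [hd _ k1 k2, hc _ k3]; rfl
    split_ifs with u
    · refine a.1 ?_
      rcases u with u | u
      · have := f1 (2 * x.1 - 1) (by omega)
        rwa [show 2 * x.1 - 1 + 1 = 2 * y.1 by omega] at this
      · have := f1 (2 * y.1) (by omega)
        rw [show 2 * y.1 + 1 = 2 * x.1 - 1 by omega] at this
        exact sadj_symm _ _ this
    · refine (h.bm.one _ _).resolve_right fun m => ?_
      have := f2 _ (by omega) _ (by omega) (a.2 m)
      omega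
  · simp only [pullB, e1, e2]
    have a1 := h.st.fa (D.image (Prod.map d id)) (Y.image (Prod.map c id)) fun y hy x hx => by
      obtain ⟨y, hy', rfl⟩ := mem_image.1 hy
      obtain ⟨x, hx', rfl⟩ := mem_image.1 hx
      exact k y hy' x hx'
    have a2 := h.bm.mono (subset_union_right (s₁ := gs T Θ) (s₂ := ls (D.image (Prod.map d id))))
      (subset_refl (ls (Y.image (Prod.map c id))))
    have a3 := h.bm.le_l (gs T Θ) (ls (Y.image (Prod.map c id)))
    have a4 : (gs T Θ : Finset (Lab T Θ Empty ℝ)).card ≤ Fintype.card T := card_image_le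
    omega

end

end Pool.Agent.Lib.MP_a4b0c4_co.J.F

namespace Pool.Agent.Lib.MP_a4b0c4_co.J

open F in
theorem stStrip (h1 : StS1) (h3 : StS3) : StStrip := by
  intro n
  obtain ⟨W, hW⟩ := h1 n
  obtain ⟨L, hL⟩ := h3 n
  refine ⟨n * (W + 1) ^ (2 * L) + 1, fun T Θ S Γ _ _ _ _ _ _ _ _ ρ i b f s cn ⟨Y, hY⟩ => ?_⟩
  have h : Stp n ρ := ⟨i, b, f, s⟩
  have a1 : ∀ τ, RkC ρ {σ | sees ρ τ σ} W := fun τ Y hY =>
    le_of_not_ge fun c => hW T Θ S Γ ρ i b f s τ Y hY c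
  have a2 : ∀ σ, RkC (dl ρ) {τ | sees ρ τ σ} W := fun σ D hD =>
    le_of_not_ge fun c => hW S Γ T Θ (dl ρ) h.dl.inv h.dl.bm h.dl.free h.dl.st σ D
      (fun d hd => (h.sees_dl _ _).2 (hD d hd)) c
  obtain ⟨⟨σ0, -⟩, -⟩ : Y.Nonempty := by
    rw [nonempty_iff_ne_empty]
    rintro rfl
    rw [h.rk.emp] at hY
    exact absurd hY (not_le.2 (by positivity))
  by_cases c : ball (sadj ρ) (.inr σ0) (2 * L + 1) ⊆ ball (sadj ρ) (.inr σ0) (2 * L)
  · rcases cn {τ | .inl τ ∈ ball (sadj ρ) (.inr σ0) (2 * L)}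
      {σ | .inr σ ∈ ball (sadj ρ) (.inr σ0) (2 * L)}
      (fun τ σ k => ⟨fun m => c (ball_step m (show sadj ρ (.inl τ) (.inr σ) from k)),
        fun m => c (ball_step m (show sadj ρ (.inr σ) (.inl τ) from k))⟩) with e | e
    · exact Set.notMem_empty σ0 (e ▸ ball_self _)
    · have := (h.ball a1 a2 σ0 (2 * L)).1 Y fun y _ => e ▸ Set.mem_univ _
      omega
  · obtain ⟨y, y1, y2⟩ := Set.not_subset.1 c
    obtain ⟨g, g0, -, g1, g2, g3, -⟩ := bfs sadj_symm y1 fun j hj m =>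
      y2 (ball_mono (by omega : j ≤ 2 * L) m)
    obtain ⟨ρ', k⟩ := h.lad g0 g1 g2 g3
    exact hL ρ' k

end Pool.Agent.Lib.MP_a4b0c4_co.J
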