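import Pool.Agent.Lib.MP_a4b0c4_co.JDich2
import Pool.Agent.Lib.MP_a4b0c4_co.JHub2
import Pool.Agent.Lib.MP_a4b0c4_co.JArr3
import Pool.Agent.Lib.MP_a4b0c4_co.JGr23
import Pool.Agent.Lib.MP_a4b0c4_co.JFK2
import Pool.Agent.Lib.MP_a4b0c4_co.JLim2
import Pool.Agent.Lib.MP_a4b0c4_co.JRam3
import Pool.Agent.Lib.MP_a4b0c4_co.JS1c
import Pool.Agent.Lib.MP_a4b0c4_co.JS3
import Pool.Agent.Lib.MP_a4b0c4_co.JSA2
import Pool.Agent.Lib.MP_a4b0c4_co.JSU3
import Pool.Agent.Lib.MP_a4b0c4_co.JSeq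
import Pool.Agent.Lib.MP_a4b0c4_co.JStrip
import Pool.Agent.Lib.MP_a4b0c4_co.JFin

set_option autoImplicit false

namespace Pool.Agent.Lib.MP_a4b0c4_co.J

theorem strip : StStrip := stStrip (U.s1 (stFK limit)) (stS3 stSA U.su)

theorem all_of (eng : StEngine) (pw : StPW) : StMain :=
  jmain (grow grow2 klem eng) (hub big ramsey klem eng) (stSeq pw) arr
    (dich big ramsey (stFK limit))

end Pool.Agent.Lib.MP_a4b0c4_co.J
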