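import Pool.Agent.Lib.MP_a4b0c4_co.JGr21

set_option autoImplicit false
set_option linter.unusedSectionVars false
set_option linter.unusedVariables false

open Finset

namespace Pool.Agent.Lib.MP_a4b0c4_co.J

section
variable {α β : Type} [DecidableEq α] [DecidableEq β] {ρ : Finset α → Finset β → ℤ}

lemma arr_col (h : BM ρ) {R : Finset α} {Y Y' : Finset β} (k : (Y.card : ℤ) ≤ ρ R Y)
    (hY : Y' ⊆ Y) : ρ R Y' = Y'.card := (h.col R).ind_sub ((h.col R).ind_iff.2 k) hY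

lemma arr_row (h : BM ρ) {R R' : Finset α} {Y : Finset β} (k : (R.card : ℤ) ≤ ρ R Y)
    (hR : R' ⊆ R) : ρ R' Y = R'.card := (h.row Y).ind_sub ((h.row Y).ind_iff.2 k) hR

lemma arr_drop (h : BM ρ) (R A : Finset α) (Y : Finset β) : ρ R Y ≤ ρ (R \ A) Y + A.card :=
  (h.row Y).add_card' le_sdiff_sup

lemma arr_sq (h : BM ρ) {L R : Finset α} {Y : Finset β} {a : ℕ} (k : (a : ℤ) ≤ ρ L Y)
    (k' : (Y.card : ℤ) ≤ ρ R Y) : ∃ L' ⊆ L, ∃ R' ⊆ R, ∃ Y' ⊆ Y, L'.card = a ∧ R'.card = a ∧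
      Y'.card = a ∧ ρ L' Y' = a ∧ ρ R' Y' = a := by
  obtain ⟨L', a1, Y', a2, a3, a4, a5⟩ := gr_sq h k
  obtain ⟨R', b1, Y'', b2, b3, b4, b5⟩ := gr_sq h (R := R) (Y := Y') (a := a)
    (by rw [arr_col h k' a2, a4])
  obtain rfl : Y'' = Y' := eq_of_subset_of_card_le b2 (by omega)
  exact ⟨L', a1, R', b1, Y'', a2, a3, b3, a4, a5, b5⟩

end

/-- cells with disjoint row sets and small cross rank -/
lemma arr_blocks (n q p : ℕ) : ∃ g : ℕ, ∀ (α β ι : Type) [DecidableEq α] [DecidableEq β]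
    (ρ : Finset α → Finset β → ℤ) (VR : Finset α) (T : Finset β) (s : Finset ι)
    (L0 R0 : ι → Finset α) (Y0 : ι → Finset β), BM ρ → FreeB n ρ VR T → s.card ≤ q →
    (∀ e ∈ s, L0 e ⊆ VR ∧ R0 e ⊆ VR ∧ Y0 e ⊆ T ∧ g ≤ (Y0 e).card ∧
      ((Y0 e).card : ℤ) ≤ ρ (L0 e) (Y0 e) + 1 ∧ ∀ Y ⊆ Y0 e, (Y.card : ℤ) ≤ ρ (R0 e) Y + 1) →
    ∃ (L R : ι → Finset α) (Y : ι → Finset β),
      (∀ e ∈ s, L e ⊆ L0 e ∧ R e ⊆ R0 e ∧ Y e ⊆ Y0 e ∧ (L e).card = p ∧ (R e).card = p ∧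
        (Y e).card = p ∧ ρ (L e) (Y e) = p ∧ ρ (R e) (Y e) = p) ∧
      ∀ e ∈ s, ∀ e' ∈ s, e ≠ e' → Disjoint (L e ∪ R e) (L e' ∪ R e') ∧
        ρ (L e ∪ R e) (Y e') ≤ (2 * n : ℕ) := by
  choose G hG using fun s a => r0 n (2 * s) a
  obtain ⟨g, hg⟩ := refine (fun s a => G s (G s (G s a)) + 4 * s) q p
  refine ⟨g + 2, fun α β ι _ _ ρ VR T s L0 R0 Y0 h hF hs h0 => ?_⟩
  let P : Finset α × Finset α × Finset β → Prop := fun x => x.1 ⊆ VR ∧ x.2.1 ⊆ VR ∧ x.2.2 ⊆ T ∧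
    x.1.card = x.2.2.card ∧ x.2.1.card = x.2.2.card ∧ ρ x.1 x.2.2 = x.2.2.card ∧
    ρ x.2.1 x.2.2 = x.2.2.card
  have : ∀ e, ∃ x : Subtype P, e ∈ s →
      (x.1.1 ⊆ L0 e ∧ x.1.2.1 ⊆ R0 e ∧ x.1.2.2 ⊆ Y0 e) ∧ g ≤ x.1.2.2.card := fun e => by
    by_cases he : e ∈ s
    · obtain ⟨a1, a2, a3, a4, a5, a6⟩ := h0 e he
      obtain ⟨Y1, b1, b2, b3⟩ := (h.col (L0 e)).ind_of_le (Y := Y0 e) (k := g + 1) (by omega)
      obtain ⟨R', c1, L', c2, Y', c3, c4, c5, c6, c7, c8⟩ := arr_sq h (L := R0 e) (R := L0 e)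
        (Y := Y1) (a := g) (by have := a6 Y1 b1; omega) b2.ge
      exact ⟨⟨(L', R', Y'), c2.trans a1, c1.trans a2, c3.trans (b1.trans a3), c5.trans c6.symm,
        c4.trans c6.symm, c6 ▸ c8, c6 ▸ c7⟩, fun _ => ⟨⟨c2, c1, c3.trans b1⟩, c6.ge⟩⟩
    · exact ⟨⟨(∅, ∅, ∅), empty_subset _, empty_subset _, empty_subset _, rfl, rfl,
        h.emp_r _, h.emp_r _⟩, fun k => absurd k he⟩
  choose x0 hx0 using this
  obtain ⟨x, a1, a2⟩ := hg (Subtype P)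
    (fun x z => x.1.1 ⊆ z.1.1 ∧ x.1.2.1 ⊆ z.1.2.1 ∧ x.1.2.2 ⊆ z.1.2.2)
    (fun x => x.1.2.2.card) (fun x z => Disjoint (x.1.1 ∪ x.1.2.1) (z.1.1 ∪ z.1.2.1) ∧
      ρ (x.1.1 ∪ x.1.2.1) z.1.2.2 ≤ (2 * n : ℕ) ∧ ρ (z.1.1 ∪ z.1.2.1) x.1.2.2 ≤ (2 * n : ℕ))
    (fun x => ⟨subset_rfl, subset_rfl, subset_rfl⟩)
    (fun x y z a b => ⟨a.1.trans b.1, a.2.1.trans b.2.1, a.2.2.trans b.2.2⟩)
    (fun x x' z z' a b k => ⟨k.1.mono (union_subset_union a.1 a.2.1) (union_subset_union b.1 b.2.1),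
      (h.mono (union_subset_union a.1 a.2.1) b.2.2).trans k.2.1,
      (h.mono (union_subset_union b.1 b.2.1) a.2.2).trans k.2.2⟩)
    (fun x z k => ⟨k.1.symm, k.2.2, k.2.1⟩)
    (by
      rintro ⟨⟨L, R, Y⟩, w1, w2, w3, w4, w5, w6, w7⟩ a k
      dsimp only at w1 w2 w3 w4 w5 w6 w7 k ⊢
      obtain ⟨L', c1, R', c2, Y', c3, c4, c5, c6, c7, c8⟩ := arr_sq h (L := L) (R := R)
        (Y := Y) (a := a) (by omega) w7.ge
      exact ⟨⟨(L', R', Y'), c1.trans w1, c2.trans w2, c3.trans w3, c4.trans c6.symm,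
        c5.trans c6.symm, c6 ▸ c7, c6 ▸ c8⟩, ⟨c1, c2, c3⟩, c6⟩)
    ι s x0 hs (fun e he => (hx0 e he).2) (by
      rintro - - - - - ⟨⟨L, R, Y⟩, w1, w2, w3, w4, w5, w6, w7⟩
        ⟨⟨L', R', Y'⟩, z1, z2, z3, z4, z5, z6, z7⟩ a - - k
      dsimp only at w1 w2 w3 w4 w5 w6 w7 z1 z2 z3 z4 z5 z6 z7 k ⊢
      have c0 := card_union_le L R
      obtain ⟨L1, p1, R1, p2, Y1, p3, p4, p5, p6, p7, p8⟩ := arr_sq h (L := L' \ (L ∪ R)) (R := R')
        (Y := Y') (a := G Y.card (G Y.card (G Y.card a)) + 2 * Y.card)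
        (by have := arr_drop h L' (L ∪ R) Y'; omega) z7.ge
      obtain ⟨R2, q1, L2, q2, Y2, q3, q4, q5, q6, q7, q8⟩ := arr_sq h (L := R1 \ (L ∪ R)) (R := L1)
        (Y := Y1) (a := G Y.card (G Y.card (G Y.card a)))
        (by have := arr_drop h R1 (L ∪ R) Y1; omega) (by omega)
      have t1 : L2 ⊆ L' \ (L ∪ R) := q2.trans p1
      have t2 : R2 ⊆ R' \ (L ∪ R) := q1.trans (sdiff_subset_sdiff p2 subset_rfl)
      have t3 : Y2 ⊆ Y' := q3.trans p3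
      obtain ⟨Y3, v1, v2, v3⟩ := hG Y.card _ β (ρ (L ∪ R)) Y2 Y2 (h.col _)
        (hF.col h (union_subset w1 w2) (t3.trans z3)) subset_rfl ((h.le_l _ _).trans (by omega))
        q6.ge
      obtain ⟨L4, r1, R4, r2, Y4, r3, r4, r5, r6, r7, r8⟩ := arr_sq h (L := L2) (R := R2)
        (Y := Y3) (a := G Y.card (G Y.card a)) (by rw [arr_col h (by omega) v1, v2])
        (arr_col h (by omega) v1).ge
      obtain ⟨L5, u1, u2, u3⟩ := hG Y.card _ α (tr ρ Y) L4 L4 (h.row _)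
        (hF.row h (r1.trans (t1.trans (sdiff_subset.trans z1))) w3) subset_rfl
        ((h.le_r _ _).trans (by omega)) r4.ge
      obtain ⟨L6, m1, R6, m2, Y6, m3, m4, m5, m6, m7, m8⟩ := arr_sq h (L := L5) (R := R4)
        (Y := Y4) (a := G Y.card a) (by rw [arr_row h (by omega) u1, u2]) (by omega)
      obtain ⟨R7, o1, o2, o3⟩ := hG Y.card _ α (tr ρ Y) R6 R6 (h.row _)
        (hF.row h (m2.trans (r2.trans (t2.trans (sdiff_subset.trans z2)))) w3) subset_rfl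
        ((h.le_r _ _).trans (by omega)) m5.ge
      obtain ⟨R8, l1, L8, l2, Y8, l3, l4, l5, l6, l7, l8⟩ := arr_sq h (L := R7) (R := L6)
        (Y := Y6) (a := a) (by rw [arr_row h (by omega) o1, o2]) (by omega)
      have t4 : L8 ⊆ L' \ (L ∪ R) := l2.trans (m1.trans (u1.trans (r1.trans t1)))
      have t5 : R8 ⊆ R' \ (L ∪ R) := l1.trans (o1.trans (m2.trans (r2.trans t2)))
      have t6 : Y8 ⊆ Y3 := l3.trans (m3.trans r3)
      refine ⟨⟨(L8, R8, Y8), t4.trans (sdiff_subset.trans z1), t5.trans (sdiff_subset.trans z2),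
        t6.trans (v1.trans (t3.trans z3)), l5.trans l6.symm, l4.trans l6.symm, l6 ▸ l8, l6 ▸ l7⟩,
        ⟨t4.trans sdiff_subset, t5.trans sdiff_subset, t6.trans (v1.trans t3)⟩, l6.ge,
        disjoint_union_right.2 ⟨disjoint_sdiff.mono_right t4, disjoint_sdiff.mono_right t5⟩,
        ?_, ?_⟩
      · have := h.mono (subset_refl (L ∪ R)) t6
        dsimp only; omega
      · have := (h.row Y).union_le (X := L5) (Y := R7) (Z := L8 ∪ R8)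
          (union_subset_union (l2.trans m1) l1)
        simp only [tr] at this u3 o3 ⊢; omega)
  refine ⟨fun e => (x e).1.1, fun e => (x e).1.2.1, fun e => (x e).1.2.2, fun e he => ?_,
    fun e he e' he' ne => ⟨(a2 e he e' he' ne).1, (a2 e he e' he' ne).2.1⟩⟩
  obtain ⟨-, -, -, b1, b2, b3, b4⟩ := (x e).2
  obtain ⟨⟨c1, c2, c3⟩, c4⟩ := a1 e he
  obtain ⟨⟨d1, d2, d3⟩, -⟩ := hx0 e he
  exact ⟨c1.trans d1, c2.trans d2, c3.trans d3, b1.trans c4, b2.trans c4, c4, c4 ▸ b3, c4 ▸ b4⟩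

/-- a hub stays connected when part of D is contracted -/
lemma arr_hub {α : Type} [DecidableEq α] {r : Finset α → ℤ} (h : Rk r) {F D C : Finset α} {x : α}
    (h1 : D ⊆ F) (h2 : Ind r D) (h3 : ∀ e ∈ F, Cl r (insert x D) e)
    (h4 : ∀ e ∈ F \ D, ¬ Cl r D e) (h5 : ∀ e ∈ D, Cl r (F.erase e) e) (hC : C ⊆ D) :
    Cntd (con r C) (F \ C) := by
  have c1 : Cntd (con r D) (F \ D) := (h.con D).cntd_par ⟨by
    have := h.span_le' (B := insert x D) (Y := F \ D ∪ D) h3 subset_rfl (by grind)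
    have := h.unit x D
    simp only [con]; omega, fun e he => by
    have := h.not_cl.1 (h4 e he)
    simp only [con, singleton_union]; omega⟩
  have := (h.con C).cntd_lift (N := F \ D) (D := D \ C)
    (by rwa [con_con, union_sdiff_of_subset hC])
    (h.ind_con sdiff_disjoint (by rwa [sdiff_union_of_subset hC])) fun e he =>
    cl_con.2 (h.cl_mono (by grind) (h5 e (mem_sdiff.1 he).1))
  rwa [show F \ D ∪ D \ C = F \ C by grind] at this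

end Pool.Agent.Lib.MP_a4b0c4_co.J
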