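import Pool.Agent.Lib.MP_a4b0c4_co.JArr1

set_option autoImplicit false
set_option linter.unusedSectionVars false
set_option linter.unusedVariables false

open Finset

namespace Pool.Agent.Lib.MP_a4b0c4_co.J

lemma arr_mem {α ι : Type} [DecidableEq α] [Fintype ι] {F B : ι → Finset α} (pd : PD F)
    (hB : ∀ a, B a ⊆ F a) {a : ι} {z : α} (h1 : z ∈ F a) (h2 : z ∈ univ.biUnion B) : z ∈ B a := by
  obtain ⟨b, -, k⟩ := mem_biUnion.1 h2
  by_cases e : a = b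
  · exact e ▸ k
  · exact absurd (hB b k) (disjoint_left.1 (pd a b e) h1)

/-- the last step of the array lemma -/
lemma arr_fin {α : Type} [DecidableEq α] {r : Finset α → ℤ} (h : Rk r) {E R0 K B' : Finset α}
    {M m : ℕ} {F D B : Fin M → Finset α} {x : Fin M → α} (hH : Hubs r E F D x)
    (hB : ∀ a, B a = insert (x a) (D a)) (u : Fin m ↪o Fin M) (h1 : ∀ i, Disjoint R0 (B (u i)))
    (h2 : K ⊆ E \ univ.biUnion F) (h3 : Ind r (K ∪ univ.biUnion B \ R0)) (h4 : ∀ i, x (u i) ∈ B')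
    (y : Fin m → Fin m → α)
    (yi : ∀ a b a' b', a < b → a' < b' → y a b = y a' b' → a = a' ∧ b = b')
    (hy : ∀ a b, a < b → y a b ∈ E \ univ.biUnion F ∧ y a b ∉ K ∧
      (∃ Z, (∀ z ∈ B', z ∈ Z ∨ z ∈ B (u a) ∨ z ∈ B (u b)) ∧
        Cl r (K ∪ univ.biUnion B \ (R0 ∪ Z)) (y a b)) ∧
      ∀ i, i = a ∨ i = b → ∃ Z, Z ⊆ B' ∧ Z ⊆ B (u i) ∧
        ¬ Cl r (K ∪ univ.biUnion B \ (R0 ∪ Z)) (y a b)) :
    ∃ C ⊆ E, ArrStr (con r C) (E \ C) m := by
  have bf : ∀ a, B a ⊆ F a := fun a => hB a ▸ insert_subset (mem_sdiff.1 (hH.xmem a)).1 (hH.dsub a)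
  have sp : ∀ a, ∀ e ∈ F a, Cl r (B a) e := fun a => hB a ▸ hH.span a
  have b0 : ∀ a, B a ⊆ univ.biUnion B := fun a => subset_biUnion_of_mem B (mem_univ a)
  have f0 : ∀ a, F a ⊆ univ.biUnion F := fun a => subset_biUnion_of_mem F (mem_univ a)
  have bf0 : univ.biUnion B ⊆ univ.biUnion F := biUnion_mono fun a _ => bf a
  have fe : univ.biUnion F ⊆ E := biUnion_subset.2 fun a _ => hH.sub a
  have fb : ∀ a, ∀ z ∈ F a, z ∈ univ.biUnion B → z ∈ B a := fun a z => arr_mem hH.pd bf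
  have pu : PD fun i => F (u i) := fun i j ne => hH.pd _ _ fun e => ne (u.injective e)
  have sk : Skew r univ fun i => F (u i) := by
    have := h.skew_sub hH.skew (subset_univ (univ.image u)) fun _ _ => subset_rfl
    unfold Skew at *
    rwa [image_biUnion, sum_image fun a _ b _ e => u.injective e] at this
  generalize univ.biUnion B = B0 at *
  generalize univ.biUnion F = F0 at *
  obtain ⟨Bu, hBu⟩ : ∃ Bu, Bu = univ.biUnion fun i => B (u i) := ⟨_, rfl⟩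
  have b1 : ∀ i, B (u i) ⊆ Bu := fun i =>
    hBu ▸ subset_biUnion_of_mem (fun i => B (u i)) (mem_univ i)
  have b2 : ∀ z ∈ Bu, ∃ i, z ∈ B (u i) := fun z hz => by simpa [hBu] using hz
  obtain ⟨C2, hC2⟩ : ∃ C2, C2 = univ.biUnion fun i => B (u i) \ B' := ⟨_, rfl⟩
  have c1 : ∀ i, B (u i) \ B' ⊆ C2 := fun i =>
    hC2 ▸ subset_biUnion_of_mem (fun i => B (u i) \ B') (mem_univ i)
  have c2 : ∀ z ∈ C2, z ∈ Bu ∧ z ∉ B' := fun z hz => by
    obtain ⟨i, -, k⟩ := mem_biUnion.1 (hC2 ▸ hz)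
    exact ⟨b1 i (mem_sdiff.1 k).1, (mem_sdiff.1 k).2⟩
  have b3 : ∀ z ∈ Bu, z ∈ B0 ∧ z ∉ R0 := fun z hz =>
    (b2 z hz).elim fun i k => ⟨b0 _ k, disjoint_right.1 (h1 i) k⟩
  obtain ⟨C1, hC1⟩ : ∃ C1, C1 = K ∪ B0 \ (R0 ∪ Bu) := ⟨_, rfl⟩
  have k0 : ∀ z ∈ K, z ∈ E ∧ z ∉ F0 := fun z hz => mem_sdiff.1 (h2 hz)
  have m1 : ∀ z, z ∈ C1 ↔ z ∈ K ∨ (z ∈ B0 ∧ z ∉ R0 ∧ z ∉ Bu) := fun z => by simp [hC1]
  have i2 : Ind (con r Bu) C1 := h.ind_con (disjoint_left.2 fun z a b => ((m1 z).1 a).elim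
    (fun k => (k0 z k).2 (bf0 (b3 z b).1)) fun k => k.2.2 b) (h.ind_sub h3 fun z hz => by
      rcases mem_union.1 hz with a | a
      · exact ((m1 z).1 a).elim (mem_union_left _) fun k =>
          mem_union_right _ (mem_sdiff.2 ⟨k.1, k.2.1⟩)
      · exact mem_union_right _ (mem_sdiff.2 (b3 z a)))
  have e1 : ∀ X, (∀ z ∈ X, ∃ i, z ∈ F (u i)) → con r (C1 ∪ C2) X = con r C2 X := fun X hX => by
    have a1 := h.con_of_ind' i2 (X := X ∪ C2) fun z hz => (mem_union.1 hz).elim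
      (fun k => (hX z k).elim fun i k' => h.cl_mono (b1 i) (sp _ z k')) fun k => cl_mem (c2 z k).1
    have a2 := h.con_of_ind' i2 (X := C2) fun z k => cl_mem (c2 z k).1
    rw [← con_con]
    simp only [con] at *; omega
  have s1 : ∀ i ∈ univ, B (u i) \ B' ⊆ F (u i) := fun i _ => sdiff_subset.trans (bf _)
  have m2 : ∀ i, ∀ z ∈ F (u i) \ (B (u i) \ B'), z ∉ C1 ∪ C2 := fun i z hz k => by
    obtain ⟨z1, z2⟩ := mem_sdiff.1 hz
    rcases mem_union.1 k with a | a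
    · rcases (m1 z).1 a with a | a
      · exact (k0 z a).2 (f0 _ z1)
      · exact a.2.2 (b1 i (fb _ z z1 a.1))
    · exact z2 (mem_sdiff.2 ⟨fb _ z z1 (b3 z (c2 z a).1).1, (c2 z a).2⟩)
  have ce : ∀ z ∈ C1 ∪ C2, z ∈ K ∨ z ∈ B0 := fun z hz => (mem_union.1 hz).elim
    (fun a => ((m1 z).1 a).imp id fun k => k.1) fun a => .inr (b3 z (c2 z a).1).1
  have nc : ∀ a b, a < b → ∀ i, i = a ∨ i = b → ¬ Cl (con r (C1 ∪ C2))
      ((univ.erase i).biUnion fun i => F (u i) \ (B (u i) \ B')) (y a b) := by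
    intro a b ab i hi k
    obtain ⟨Z, z1, z2, z3⟩ := (hy a b ab).2.2.2 i hi
    refine z3 (h.cl_trans (fun z hz => ?_) (cl_con.1 k))
    rcases mem_union.1 hz with c | c
    · obtain ⟨j, hj, c⟩ := mem_biUnion.1 c
      refine h.cl_mono (fun w hw => mem_union_right _ (mem_sdiff.2 ⟨b0 _ hw, fun k => ?_⟩))
        (sp _ z (mem_sdiff.1 c).1)
      rcases mem_union.1 k with k | k
      · exact (b3 w (b1 j hw)).2 k
      · exact disjoint_left.1 (pu j i (mem_erase.1 hj).1) (bf _ hw) (bf _ (z2 k))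
    · refine cl_mem ?_
      rcases mem_union.1 c with c | c
      · refine ((m1 z).1 c).elim (mem_union_left _) fun k => mem_union_right _
          (mem_sdiff.2 ⟨k.1, fun k' => (mem_union.1 k').elim k.2.1 fun k' => k.2.2 (b1 i (z2 k'))⟩)
      · exact mem_union_right _ (mem_sdiff.2 ⟨(b3 z (c2 z c).1).1, fun k' => (mem_union.1 k').elim
          (b3 z (c2 z c).1).2 fun k' => (c2 z c).2 (z1 k')⟩)
  refine ⟨C1 ∪ C2, fun z hz => (ce z hz).elim (fun k => (k0 z k).1) fun k => fe (bf0 k),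
    fun i => F (u i) \ (B (u i) \ B'), y, fun i j ne => (pu i j ne).mono sdiff_subset sdiff_subset,
    ?_, fun i => ⟨fun z hz => mem_sdiff.2 ⟨hH.sub _ (mem_sdiff.1 hz).1, m2 i z hz⟩, ?_⟩, yi,
    fun a b ab => ⟨?_, ?_, nc a b ab a (.inl rfl), nc a b ab b (.inr rfl)⟩⟩
  · have := (h.con _).skew_sub (h.skew_con_skew sk s1) subset_rfl
      (B := fun i => F (u i) \ (B (u i) \ B')) fun _ _ => sdiff_subset
    unfold Skew at *
    rw [e1 _ fun z hz => (mem_biUnion.1 hz).elim fun i k => ⟨i, (mem_sdiff.1 k.2).1⟩, hC2, this]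
    exact sum_congr rfl fun i _ => by
      rw [← hC2, e1 _ fun z hz => ⟨i, (mem_sdiff.1 hz).1⟩]
  · refine (arr_hub h (hH.dsub (u i)) (hH.ind _) (hH.span _) (hH.nl _) (hH.ncl _)
      (C := B (u i) \ B') fun z hz => ?_).congr fun X hX => ?_
    · obtain ⟨z1, z2⟩ := mem_sdiff.1 hz
      rw [hB] at z1
      exact (mem_insert.1 z1).resolve_left fun e => z2 (e ▸ h4 i)
    · rw [e1 _ fun z hz => ⟨i, (mem_sdiff.1 (hX hz)).1⟩, hC2,
        h.skew_con_sub sk s1 (mem_univ i) (hX.trans sdiff_subset)]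
  · obtain ⟨y1, y2, -⟩ := hy a b ab
    obtain ⟨y3, y4⟩ := mem_sdiff.1 y1
    refine mem_sdiff.2 ⟨mem_sdiff.2 ⟨y3, fun k => (ce _ k).elim y2 fun k => y4 (bf0 k)⟩, fun k => ?_⟩
    obtain ⟨i, -, k⟩ := mem_biUnion.1 k
    exact y4 (f0 _ (mem_sdiff.1 k).1)
  · obtain ⟨-, -, ⟨Z, z1, z2⟩, -⟩ := hy a b ab
    refine cl_con.2 (h.cl_mono (fun z hz => ?_) z2)
    have m3 : ∀ i, z ∈ B (u i) → z ∈ F (u i) \ (B (u i) \ B') ∨ z ∈ C2 := fun i k => by
      by_cases c : z ∈ B (u i) \ B'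
      · exact .inr (c1 i c)
      · exact .inl (mem_sdiff.2 ⟨bf _ k, c⟩)
    simp only [mem_union, m1]
    rcases mem_union.1 hz with c | c
    · exact .inr (.inl (.inl c))
    · obtain ⟨c1', c2'⟩ := mem_sdiff.1 c
      rw [mem_union, not_or] at c2'
      by_cases k : z ∈ Bu
      · by_cases k' : z ∈ B'
        · rcases (z1 z k').resolve_left c2'.2 with k | k
          · exact (m3 a k).elim (fun k => .inl (.inl k)) fun k => .inr (.inr k)
          · exact (m3 b k).elim (fun k => .inl (.inr k)) fun k => .inr (.inr k)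
        · obtain ⟨i, k⟩ := b2 z k
          exact .inr (.inr (c1 i (mem_sdiff.2 ⟨k, k'⟩)))
      · exact .inr (.inl (.inr ⟨c1', c2'.1, k⟩))

end Pool.Agent.Lib.MP_a4b0c4_co.J
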