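import Pool.Agent.Lib.MP_a4b0c4_co.JOut

set_option autoImplicit false
set_option linter.unusedSectionVars false
set_option linter.unusedVariables false

open Finset

namespace Pool.Agent.Lib.MP_a4b0c4_co.J

variable {α β : Type} [DecidableEq α] [DecidableEq β] {ρ : Finset α → Finset β → ℤ} {n : ℕ}

namespace BM

lemma tr (h : BM ρ) : BM (tr ρ) where
  nn := fun _ _ => h.nn _ _
  le_l := fun _ _ => h.le_r _ _
  le_r := fun _ _ => h.le_l _ _
  mono := fun a b => h.mono b a
  subm := fun R R' Y Y' => by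
    have := h.subm Y Y' R R'
    simp only [J.tr]; linarith

lemma emp_l (h : BM ρ) (Y : Finset β) : ρ ∅ Y = 0 :=
  le_antisymm (by simpa using h.le_l ∅ Y) (h.nn _ _)
lemma emp_r (h : BM ρ) (R : Finset α) : ρ R ∅ = 0 :=
  le_antisymm (by simpa using h.le_r R ∅) (h.nn _ _)

/-- flexible form of the bimatroid inequality -/
lemma sub (h : BM ρ) {R R' A B : Finset α} {Y Y' C D : Finset β} (h1 : A ⊆ R ∪ R') (h2 : C ⊆ Y)
    (h3 : C ⊆ Y') (h4 : B ⊆ R) (h5 : B ⊆ R') (h6 : D ⊆ Y ∪ Y') :
    ρ A C + ρ B D ≤ ρ R Y + ρ R' Y' := by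
  have := h.subm R R' Y Y'
  have := h.mono h1 (subset_inter h2 h3)
  have := h.mono (subset_inter h4 h5) h6
  linarith

/-- the view of the columns on a fixed row set -/
lemma col (h : BM ρ) (R : Finset α) : Rk (ρ R) where
  emp := h.emp_r R
  mono := fun a => h.mono subset_rfl a
  subm := fun X Y => by
    have := h.subm R R X Y
    rw [union_self, inter_self] at this; linarith
  unit := fun e X => by
    have h1 := h.sub (R := R) (R' := R) (Y := X) (Y' := {e}) (A := R) (C := ∅) (B := R)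
      (D := insert e X) (by grind) (by grind) (by grind) (by grind) (by grind) (by grind)
    have h2 := h.le_r R {e}
    rw [h.emp_r] at h1; simp at h2; linarith

/-- the view of the rows on a fixed column set -/
lemma row (h : BM ρ) (Y : Finset β) : Rk (J.tr ρ Y) := h.tr.col Y

lemma mat (h : BM ρ) (R : Finset α) : Rk (mat ρ R) where
  emp := by
    have : ρ (R \ (∅ : Finset (α ⊕ β)).toLeft) (∅ : Finset (α ⊕ β)).toRight = 0 := h.emp_r _
    have e : (∅ : Finset (α ⊕ β)).toLeft = ∅ := rfl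
    simp only [J.mat, this]; simp [e]
  mono := fun {X Y} a => by
    simp only [J.mat]
    have a1 := toLeft_subset_toLeft a
    have h1 := (h.row X.toRight).add_card' (X := R \ Y.toLeft)
      (Y := (Y.toLeft ∩ R) \ (X.toLeft ∩ R)) (Z := R \ X.toLeft) (by grind)
    have h2 := card_sdiff_add_card_eq_card (s := X.toLeft ∩ R) (t := Y.toLeft ∩ R) (by grind)
    have h3 := h.mono (subset_refl (R \ Y.toLeft)) (toRight_subset_toRight a)
    simp only [J.tr] at h1; omega
  subm := fun X Y => by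
    simp only [J.mat, toLeft_union, toLeft_inter, toRight_union, toRight_inter]
    have h1 := h.sub (R := R \ X.toLeft) (R' := R \ Y.toLeft) (Y := X.toRight) (Y' := Y.toRight)
      (A := R \ (X.toLeft ∩ Y.toLeft)) (C := X.toRight ∩ Y.toRight) (B := R \ (X.toLeft ∪ Y.toLeft))
      (D := X.toRight ∪ Y.toRight) (by grind) (by grind) (by grind) (by grind) (by grind) (by grind)
    have h2 := card_union_add_card_inter (X.toLeft ∩ R) (Y.toLeft ∩ R)
    rw [show X.toLeft ∩ R ∪ Y.toLeft ∩ R = (X.toLeft ∪ Y.toLeft) ∩ R by grind,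
      show X.toLeft ∩ R ∩ (Y.toLeft ∩ R) = X.toLeft ∩ Y.toLeft ∩ R by grind] at h2
    omega
  unit := fun e X => by
    simp only [J.mat]
    rcases e with e | e
    · have h1 := h.mono (R := R \ insert e X.toLeft) (R' := R \ X.toLeft) (by grind)
        (subset_refl X.toRight)
      have h2 : (insert e X.toLeft ∩ R).card ≤ (X.toLeft ∩ R).card + 1 :=
        (card_le_card (t := insert e (X.toLeft ∩ R)) (by grind)).trans (card_insert_le _ _)
      rw [toLeft_insert_inl, toRight_insert_inl]; omega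
    · have := (h.col (R \ X.toLeft)).unit e X.toRight
      rw [toLeft_insert_inr, toRight_insert_inr]; omega

lemma pull {α' β' : Type} [DecidableEq α'] [DecidableEq β'] (h : BM ρ) (f : α' → α) (g : β' → β) :
    BM (pullB ρ f g) where
  nn := fun _ _ => h.nn _ _
  le_l := fun R Y => (h.le_l _ _).trans (by exact_mod_cast card_image_le)
  le_r := fun R Y => (h.le_r _ _).trans (by exact_mod_cast card_image_le)
  mono := fun a b => h.mono (image_subset_image a) (image_subset_image b)
  subm := fun R R' Y Y' => h.sub (by rw [image_union]) (image_subset_image inter_subset_left)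
    (image_subset_image inter_subset_right) (image_subset_image inter_subset_left)
    (image_subset_image inter_subset_right) (by rw [image_union])

lemma one (h : BM ρ) (d : α) (c : β) : ρ {d} {c} = 0 ∨ ρ {d} {c} = 1 := by
  have := h.nn {d} {c}
  have := h.le_r {d} {c}
  simp at this; omega

/-- a zero block has rank zero -/
lemma zero (h : BM ρ) {R : Finset α} {Y : Finset β} (k : ∀ d ∈ R, ∀ c ∈ Y, ρ {d} {c} = 0) :
    ρ R Y = 0 := by
  have h1 : ∀ c ∈ Y, Cl (ρ R) ∅ c := fun c hc => by
    have := (h.row {c}).span_le (A := ∅) (X := R) fun d hd => by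
      simp only [Cl, J.tr, h.emp_l]; simpa using k d hd c hc
    simp only [J.tr, h.emp_l] at this
    simp only [Cl, h.emp_r]; exact le_antisymm (by simpa using this) (h.nn _ _)
  exact le_antisymm (h.emp_r R ▸ (h.col R).span_le h1) (h.nn _ _)

/-- unseen columns can be dropped -/
lemma drop_col (h : BM ρ) {R : Finset α} {Y Y' : Finset β} (hY : Y' ⊆ Y)
    (k : ∀ d ∈ R, ∀ c ∈ Y, c ∉ Y' → ρ {d} {c} = 0) : ρ R Y = ρ R Y' := by
  have h1 := h.zero (R := R) (Y := Y \ Y') fun d hd c hc => k d hd c (by grind) (by grind)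
  have h2 := (h.col R).union_le (X := Y') (Y := Y \ Y') (Z := Y) (by grind)
  exact le_antisymm (by linarith) (h.mono subset_rfl hY)

/-- rows that see nothing can be dropped -/
lemma drop_row (h : BM ρ) {R R' : Finset α} {Y : Finset β} (hR : R' ⊆ R)
    (k : ∀ d ∈ R, d ∉ R' → ∀ c ∈ Y, ρ {d} {c} = 0) : ρ R Y = ρ R' Y :=
  h.tr.drop_col (R := Y) hR fun c hc d hd m => k d hd m c hc

/-- block triangular matrices: R does not see Y' -/
lemma tri (h : BM ρ) {R R' A : Finset α} {Y Y' C : Finset β} (k : ρ R Y' = 0) (hA : R ∪ R' ⊆ A)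
    (hC : Y ∪ Y' ⊆ C) : ρ R Y + ρ R' Y' ≤ ρ A C := by
  have h1 := h.sub (R := A) (R' := R) (Y := C) (Y' := Y') (A := R') (C := Y') (B := R)
    (D := Y) (by grind) (by grind) (by grind) (by grind) (by grind) (by grind)
  linarith

/-- closure in a view passes to views on fewer rows -/
lemma cl_view (h : BM ρ) {R R' : Finset α} {Y : Finset β} {c : β} (hR : R' ⊆ R)
    (k : Cl (ρ R) Y c) : Cl (ρ R') Y c := by
  have h1 := h.sub (R := R) (R' := R') (Y := insert c Y) (Y' := Y) (A := R) (C := Y) (B := R')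
    (D := insert c Y) (by grind) (by grind) (by grind) (by grind) (by grind) (by grind)
  rw [(h.col R').cl_iff]; unfold Cl at k; linarith

/-- independence in a view passes to views on more rows -/
lemma ind_view (h : BM ρ) {R R' : Finset α} {Y : Finset β} (hR : R' ⊆ R)
    (k : Ind (ρ R') Y) : Ind (ρ R) Y := (h.col R).ind_iff.2 (k ▸ h.mono hR subset_rfl)

/-- triangular independence: a row of R sees exactly one column of every nonempty subset -/
lemma ind_tri (h : BM ρ) {R : Finset α} {Y : Finset β}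
    (k : ∀ J ⊆ Y, J.Nonempty → ∃ c ∈ J, ∃ d ∈ R, ρ {d} {c} = 1 ∧ ∀ c' ∈ J, c' ≠ c → ρ {d} {c'} = 0) :
    Ind (ρ R) Y := by
  have := (h.col R).ind_of_leaf (A := ∅) (I := Y) fun J hJ ne => by
    obtain ⟨c, hc, d, hd, k1, k2⟩ := k J hJ ne
    refine ⟨c, hc, fun m => ?_⟩
    have m1 := h.cl_view (singleton_subset_iff.2 hd) m
    have m2 := h.zero (R := {d}) (Y := J.erase c ∪ ∅) fun d' hd' c' hc' => by
      rw [mem_singleton.1 hd']; exact k2 c' (by grind) (by grind)
    have m3 := h.mono (subset_refl {d}) (Y := {c}) (Y' := insert c (J.erase c ∪ ∅)) (by grind)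
    unfold Cl at m1; omega
  rwa [(h.col R).con_empty] at this

/-- a nonsingular submatrix of full rank -/
lemma nonsing (h : BM ρ) (R : Finset α) (Y : Finset β) :
    ∃ R' ⊆ R, ∃ Y' ⊆ Y, (R'.card : ℤ) = ρ R Y ∧ (Y'.card : ℤ) = ρ R Y ∧ ρ R' Y' = ρ R Y := by
  obtain ⟨Y', a1, a2, -, a3⟩ := (h.col R).basis Y
  obtain ⟨R', b1, b2, -, b3⟩ := (h.row Y').basis R
  unfold Ind J.tr at *
  exact ⟨R', b1, Y', a1, by omega, by omega, by omega⟩

end BM

lemma mat_disjSum (R A : Finset α) (Y : Finset β) :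
    mat ρ R (A.disjSum Y) = (A ∩ R).card + ρ (R \ A) Y := by simp [mat]

lemma dual_mat (h : BM ρ) (R : Finset α) (Y : Finset β) {X : Finset (α ⊕ β)}
    (hX : X ⊆ R.disjSum Y) : dual (mat ρ R) (R.disjSum Y) X = pull (mat (tr ρ) Y) Sum.swap X := by
  have a : X.toLeft ⊆ R := by simpa using toLeft_subset_toLeft hX
  have b : X.toRight ⊆ Y := by simpa using toRight_subset_toRight hX
  have c : (X.image Sum.swap).toLeft = X.toRight := by ext; simp
  have d : (X.image Sum.swap).toRight = X.toLeft := by ext; simp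
  simp only [dual, mat, pull, tr, c, d, toLeft_sdiff, toRight_sdiff, toLeft_disjSum, toRight_disjSum,
    inter_self, sdiff_self, bot_eq_empty, h.emp_l]
  rw [inter_eq_left.2 hX, inter_eq_left.2 b, show R \ (R \ X.toLeft) = X.toLeft by grind,
    show R \ X.toLeft ∩ R = R \ X.toLeft by grind]
  have := card_sdiff_add_card_eq_card a
  have := card_toLeft_add_card_toRight (u := X)
  omega

lemma FreeB.tr (h : BM ρ) {VR : Set α} {VC : Set β} (k : FreeB n ρ VR VC) :
    FreeB n (J.tr ρ) VC VR := by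
  intro Y R hY hR
  have h1 := ((k R Y hR hY).dual (h.mat R)).congr fun X hX => dual_mat h R Y hX
  have h2 := h1.pull ((h.tr.mat Y).pull _) (E' := Y.disjSum R) (f := Sum.swap)
    (Sum.swap_leftInverse.injective.injOn) (by rintro (x | x) <;> simp)
  refine h2.congr fun X hX => ?_
  simp only [J.pull, image_image]
  simp

lemma FreeB.mono {VR VR' : Set α} {VC VC' : Set β} (k : FreeB n ρ VR VC) (h1 : VR' ⊆ VR)
    (h2 : VC' ⊆ VC) : FreeB n ρ VR' VC' := fun R Y a b => k R Y (a.trans h1) (b.trans h2)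

lemma mat_pull {α' β' : Type} [DecidableEq α'] [DecidableEq β'] {f : α' → α} {g : β' → β}
    {R : Finset α'} (hf : Set.InjOn f R) {X : Finset (α' ⊕ β')} (hX : X.toLeft ⊆ R) :
    mat (pullB ρ f g) R X = pull (mat ρ (R.image f)) (Sum.map f g) X := by
  have c : (X.image (Sum.map f g)).toLeft = X.toLeft.image f := by
    ext; simp only [mem_toLeft, mem_image]
    constructor
    · rintro ⟨x | x, a, b⟩
      · exact ⟨x, a, by simpa using b⟩
      · simp at b
    · rintro ⟨x, a, rfl⟩; exact ⟨_, a, rfl⟩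
  have d : (X.image (Sum.map f g)).toRight = X.toRight.image g := by
    ext; simp only [mem_toRight, mem_image]
    constructor
    · rintro ⟨x | x, a, b⟩
      · simp at b
      · exact ⟨x, a, by simpa using b⟩
    · rintro ⟨x, a, rfl⟩; exact ⟨_, a, rfl⟩
  simp only [mat, pullB, pull, c, d]
  rw [inter_eq_left.2 hX, inter_eq_left.2 (image_subset_image hX), card_image_of_injOn (hf.mono hX),
    image_sdiff_of_injOn hf hX]

lemma FreeB.pull {α' β' : Type} [DecidableEq α'] [DecidableEq β'] (h : BM ρ) {VR : Set α}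
    {VC : Set β} (k : FreeB n ρ VR VC) {f : α' → α} {g : β' → β} {VR' : Set α'} {VC' : Set β'}
    (hf : Set.InjOn f VR') (hg : Set.InjOn g VC') (mf : ∀ x ∈ VR', f x ∈ VR)
    (mg : ∀ x ∈ VC', g x ∈ VC) : FreeB n (pullB ρ f g) VR' VC' := by
  intro R Y hR hY
  have h1 := k (R.image f) (Y.image g)
    (by intro x hx; obtain ⟨y, hy, rfl⟩ := mem_image.1 hx; exact mf y (hR hy))
    (by intro x hx; obtain ⟨y, hy, rfl⟩ := mem_image.1 hx; exact mg y (hY hy))
  have h2 := h1.pull (h.mat _) (E' := R.disjSum Y) (f := Sum.map f g) (by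
      rintro (x | x) hx (y | y) hy e <;> simp at hx hy e ⊢
      exacts [hf (hR hx) (hR hy) e, hg (hY hx) (hY hy) e])
    (by
      rintro (x | x) hx <;> simp at hx ⊢
      exacts [⟨x, hx, rfl⟩, ⟨x, hx, rfl⟩])
  exact h2.congr fun X hX => (mat_pull (hf.mono hR) (by simpa using toLeft_subset_toLeft hX)).symm

/-- column views are free -/
lemma FreeB.col (h : BM ρ) {VR : Set α} {VC : Set β} (k : FreeB n ρ VR VC) {R : Finset α}
    {Y : Finset β} (hR : ↑R ⊆ VR) (hY : ↑Y ⊆ VC) : Free n (ρ R) Y := by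
  refine ((k R Y hR hY).pull (h.mat R) (f := Sum.inr) (E' := Y) Sum.inr_injective.injOn
    (by simp)).congr fun X hX => ?_
  have c : (X.image (Sum.inr : β → α ⊕ β)).toLeft = ∅ := by ext; simp
  have d : (X.image (Sum.inr : β → α ⊕ β)).toRight = X := by ext; simp
  simp [J.pull, mat, c, d]

/-- row views are free -/
lemma FreeB.row (h : BM ρ) {VR : Set α} {VC : Set β} (k : FreeB n ρ VR VC) {R : Finset α}
    {Y : Finset β} (hR : ↑R ⊆ VR) (hY : ↑Y ⊆ VC) : Free n (J.tr ρ Y) R := (k.tr h).col h.tr hY hR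

section
variable {r : Finset α → ℤ} {B G E : Finset α}

lemma Rk.bm (h : Rk r) (hB : Ind r B) (hG : ∀ e ∈ G, Cl r B e) : BM (bm r B G) := by
  have i := fun R : Finset α => h.ind_sub hB (sdiff_subset (t := R))
  unfold Ind at i hB
  refine ⟨fun R Y => ?_, fun R Y => ?_, fun R Y => ?_, fun {R R' Y Y'} a b => ?_, fun R R' Y Y' => ?_⟩
    <;> simp only [J.bm]
  · have := h.mono (subset_union_right (s₁ := Y ∩ G) (s₂ := B \ R)); have := i R; omega
  · have := h.span_le' (Y := Y ∩ G ∪ B \ R) hG subset_rfl (by grind)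
    have := le_card_sdiff R B
    omega
  · have := h.add_card' (X := B \ R) (Y := Y) (Z := Y ∩ G ∪ B \ R) (by grind)
    have := i R; omega
  · have := h.add_card' (X := Y' ∩ G ∪ B \ R') (Y := (B \ R) \ (B \ R')) (Z := Y ∩ G ∪ B \ R)
      (by grind)
    have := card_sdiff_add_card_eq_card (s := B \ R') (t := B \ R) (by grind)
    omega
  · have := h.sub (X := Y ∩ Y' ∩ G ∪ B \ (R ∪ R')) (Y := (Y ∪ Y') ∩ G ∪ B \ (R ∩ R'))
      (A := Y ∩ G ∪ B \ R) (B := Y' ∩ G ∪ B \ R') (by grind) (by grind) (by grind)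
    have h2 := card_union_add_card_inter (B \ R) (B \ R')
    rw [show B \ R ∪ B \ R' = B \ (R ∩ R') by grind, show B \ R ∩ (B \ R') = B \ (R ∪ R') by grind]
      at h2
    omega

lemma Free.bm (h : Rk r) (hB : Ind r B) (k : Free n r E) (hE : B ∪ G ⊆ E) (d : Disjoint B G) :
    FreeB n (bm r B G) B G := by
  intro R Y hR hY
  rw [coe_subset] at hR hY
  have h1 := (k.con h (C := B \ R) (E' := R ∪ Y) (by grind) (by grind [disjoint_left])).pull
    (h.con _) (f := Sum.elim id id) (E' := R.disjSum Y) (by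
      rintro (x | x) hx (y | y) hy e <;> simp at hx hy e ⊢ <;> grind [disjoint_left])
    (by rintro (x | x) hx <;> simp at hx ⊢ <;> grind)
  refine h1.congr fun X hX => ?_
  have a : X.toLeft ⊆ R := by simpa using toLeft_subset_toLeft hX
  have b : X.toRight ⊆ Y := by simpa using toRight_subset_toRight hX
  have c : X.image (Sum.elim id id) = X.toLeft ∪ X.toRight := by ext; simp
  simp only [J.pull, J.con, mat, J.bm, c]
  rw [inter_eq_left.2 a, inter_eq_left.2 (b.trans hY),
    show X.toRight ∪ B \ (R \ X.toLeft) = X.toLeft ∪ X.toRight ∪ B \ R by grind,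
    show B \ (R \ X.toLeft) = X.toLeft ∪ B \ R by grind,
    card_union_of_disjoint (by grind [disjoint_left]), h.ind_sub hB sdiff_subset]
  push_cast; ring

/-- entries of the bimatroid of a matroid -/
lemma bm_entry (h : Rk r) (hB : Ind r B) {b c : α} (hc : c ∈ G) :
    bm r B G {b} {c} = 0 ↔ Cl r (B.erase b) c := by
  have := h.ind_sub hB (erase_subset b B)
  simp only [J.bm, Cl]
  rw [singleton_inter_of_mem hc, sdiff_singleton_eq_erase, ← insert_eq]
  unfold Ind at this; omega

lemma bm_eq {R Y : Finset α} (hY : Y ⊆ G) : bm r B G R Y = r (Y ∪ (B \ R)) - (B \ R).card := by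
  simp only [J.bm, inter_eq_left.2 hY]

end

end Pool.Agent.Lib.MP_a4b0c4_co.J
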