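import Pool.Agent.Lib.MP_a4b0c4_co.JLim2
import Pool.Agent.Lib.MP_a4b0c4_co.JBM

set_option autoImplicit false
set_option linter.unusedSectionVars false
set_option linter.unusedVariables false

open Finset

namespace Pool.Agent.Lib.MP_a4b0c4_co.J

section Ord

/-- points between two finite sets of reals form an infinite set -/
lemma cl_between (lo hi : Finset ℝ) (h : ∀ x ∈ lo, ∀ y ∈ hi, x < y) :
    {m : ℝ | (∀ x ∈ lo, x < m) ∧ ∀ y ∈ hi, m < y}.Infinite := by
  obtain ⟨a, a1, a2⟩ := Order.exists_between_finsets lo hi h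
  obtain ⟨b, b1, b2⟩ := Order.exists_between_finsets {a} hi (by simpa using a2)
  refine (Set.Ioo_infinite (b1 a (mem_singleton_self a))).mono fun m hm => ⟨fun x hx => ?_, fun y hy => ?_⟩
  · exact (a1 x hx).trans hm.1
  · exact hm.2.trans (b2 y hy)

/-- a strictly monotone map extends to more points, avoiding a finite set -/
lemma cl_extend (s0 S : Finset ℝ) {φ : ℝ → ℝ} (h : StrictMonoOn φ s0) (s : Finset ℝ) :
    ∃ ψ : ℝ → ℝ, StrictMonoOn ψ (s0 ∪ s : Finset ℝ) ∧ (∀ x ∈ s0, ψ x = φ x) ∧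
      ∀ x ∈ s, x ∉ s0 → ψ x ∉ S := by
  induction s using Finset.induction_on with
  | empty => exact ⟨φ, by simpa using h, fun _ _ => rfl, by simp⟩
  | insert x s hx ih =>
    obtain ⟨ψ, a1, a2, a3⟩ := ih
    by_cases hx0 : x ∈ s0
    · refine ⟨ψ, by rwa [union_insert, insert_eq_of_mem (mem_union_left _ hx0)], a2, ?_⟩
      intro y hy hy0
      exact a3 y ((mem_insert.1 hy).resolve_left fun e => hy0 (e ▸ hx0)) hy0
    obtain ⟨v, ⟨v1, v2⟩, v3⟩ := (cl_between (((s0 ∪ s).filter (· < x)).image ψ)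
      (((s0 ∪ s).filter (x < ·)).image ψ) (by
        intro a ha b hb
        obtain ⟨a, ha', rfl⟩ := mem_image.1 ha
        obtain ⟨b, hb', rfl⟩ := mem_image.1 hb
        rw [mem_filter] at ha' hb'
        exact a1 ha'.1 hb'.1 (ha'.2.trans hb'.2))).exists_notMem_finset S
    have ne : ∀ y ∈ s0 ∪ s, y ≠ x := by grind
    refine ⟨Function.update ψ x v, fun a ha b hb hab => ?_, fun y hy => ?_, fun y hy hy0 => ?_⟩
    · rw [union_insert, mem_coe, mem_insert] at ha hb
      rcases ha with rfl | ha <;> rcases hb with rfl | hb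
      · exact absurd hab (lt_irrefl _)
      · rw [Function.update_self, Function.update_of_ne (ne b hb)]
        exact v2 _ (mem_image_of_mem _ (mem_filter.2 ⟨hb, hab⟩))
      · rw [Function.update_self, Function.update_of_ne (ne a ha)]
        exact v1 _ (mem_image_of_mem _ (mem_filter.2 ⟨ha, hab⟩))
      · rw [Function.update_of_ne (ne a ha), Function.update_of_ne (ne b hb)]
        exact a1 ha hb hab
    · rw [Function.update_of_ne (ne y (mem_union_left _ hy)), a2 y hy]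
    · rcases mem_insert.1 hy with rfl | hy
      · rwa [Function.update_self]
      · rw [Function.update_of_ne (ne y (mem_union_right _ hy))]
        exact a3 y hy hy0

/-- a lies in the same gap of T as x -/
def Gap (T : Finset ℝ) (x a : ℝ) : Prop := ∀ t ∈ T, (t < x → t < a) ∧ (x < t → a < t)

lemma gap_infinite (T : Finset ℝ) (x : ℝ) : {a | Gap T x a}.Infinite :=
  (cl_between (T.filter (· < x)) (T.filter (x < ·)) fun a ha b hb =>
    (mem_filter.1 ha).2.trans (mem_filter.1 hb).2).mono fun m hm t ht =>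
    ⟨fun k => hm.1 t (mem_filter.2 ⟨ht, k⟩), fun k => hm.2 t (mem_filter.2 ⟨ht, k⟩)⟩

lemma Gap.notMem {T : Finset ℝ} {x a : ℝ} (h : Gap T x a) (hx : x ∉ T) : a ∉ T := fun k => by
  rcases lt_trichotomy a x with c | c | c
  · exact lt_irrefl _ ((h a k).1 c)
  · exact hx (c ▸ k)
  · exact lt_irrefl _ ((h a k).2 c)

/-- two equally large sets in a gap are exchanged by a monotone map fixing T -/
lemma gap_map {T I J : Finset ℝ} {x : ℝ} (hx : x ∉ T) (hI : ∀ a ∈ I, Gap T x a)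
    (hJ : ∀ a ∈ J, Gap T x a) (c : I.card = J.card) :
    ∃ φ : ℝ → ℝ, StrictMonoOn φ (T ∪ I : Finset ℝ) ∧ (∀ t ∈ T, φ t = t) ∧ I.image φ = J := by
  let φ : ℝ → ℝ := fun z =>
    if h : z ∈ I then J.orderEmbOfFin c.symm ((I.orderIsoOfFin rfl).symm ⟨z, h⟩) else z
  have f1 : ∀ t ∈ T, φ t = t := fun t ht => dif_neg fun k => (hI t k).notMem hx ht
  have f2 : ∀ a ∈ I, φ a ∈ J := fun a ha => by
    simp only [φ, dif_pos ha]; exact J.orderEmbOfFin_mem _ _
  have f3 : StrictMonoOn φ I := fun a ha b hb hab => by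
    simp only [φ, dif_pos (mem_coe.1 ha), dif_pos (mem_coe.1 hb)]
    exact (J.orderEmbOfFin c.symm).strictMono ((I.orderIsoOfFin rfl).symm.strictMono hab)
  refine ⟨φ, fun a ha b hb hab => ?_, f1, ?_⟩
  · rw [mem_coe, mem_union] at ha hb
    rcases ha with ha | ha <;> rcases hb with hb | hb
    · rwa [f1 a ha, f1 b hb]
    · rw [f1 a ha]
      refine (hJ _ (f2 b hb) a ha).1 ?_
      rcases lt_trichotomy a x with k | k | k
      · exact k
      · exact absurd (k ▸ ha) hx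
      · exact absurd ((hI b hb a ha).2 k) hab.not_gt
    · rw [f1 b hb]
      refine (hJ _ (f2 a ha) b hb).2 ?_
      rcases lt_trichotomy b x with k | k | k
      · exact absurd ((hI a ha b hb).1 k) hab.not_gt
      · exact absurd (k ▸ hb) hx
      · exact k
    · exact f3 ha hb hab
  · refine eq_of_subset_of_card_le (fun y hy => ?_) ?_
    · obtain ⟨a, ha, rfl⟩ := mem_image.1 hy
      exact f2 a ha
    · rw [card_image_of_injOn f3.injOn, c]

lemma cl_delta (S : Finset ℝ) : ∃ δ : ℝ, 0 < δ ∧ ∀ x ∈ S, ∀ t ∈ S, t < x → t + δ < x := by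
  have : ∀ᶠ δ in nhdsWithin (0 : ℝ) (Set.Ioi 0), ∀ x ∈ S, ∀ t ∈ S, t < x → t + δ < x := by
    refine (Filter.eventually_all_finset S).2 fun x _ => (Filter.eventually_all_finset S).2
      fun t _ => ?_
    by_cases k : t < x
    · filter_upwards [Ioo_mem_nhdsGT (sub_pos.2 k)] with δ hδ _
      linarith [hδ.2]
    · exact Filter.Eventually.of_forall fun δ c => absurd c k
  obtain ⟨δ, a, b⟩ := (this.and self_mem_nhdsWithin).exists
  exact ⟨δ, b, a⟩

/-- left anchors -/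
lemma cl_anchorL (n : ℕ) (s0 S : Finset ℝ) : ∃ L : Finset ℝ, L.card ≤ (s0.card + 1) * n ∧
    ∀ x ∈ S, ∃ A ⊆ L, A.card = n ∧ ∀ a ∈ A, a < x ∧ ∀ t ∈ s0, t < x → t < a := by
  obtain ⟨lo, -, hlo⟩ := Order.exists_between_finsets ∅ S (by simp)
  obtain ⟨δ, d1, d2⟩ := cl_delta (insert lo (S ∪ s0))
  have : ∀ b : ℝ, ∃ A : Finset ℝ, A.card = n ∧ ∀ a ∈ A, b < a ∧ a < b + δ := fun b => by
    obtain ⟨A, a1, a2⟩ := (Set.Ioo_infinite (show b < b + δ by linarith)).exists_subset_card_eq n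
    exact ⟨A, a2, fun a ha => a1 ha⟩
  choose A a1 a2 using this
  refine ⟨(insert lo s0).biUnion A, (card_biUnion_le_card_mul _ _ n fun b _ => (a1 b).le).trans
    (Nat.mul_le_mul_right _ (card_insert_le _ _)), fun x hx => ?_⟩
  obtain ⟨b, b1, b2⟩ := exists_max_image ((insert lo s0).filter (· < x)) id
    ⟨lo, mem_filter.2 ⟨mem_insert_self _ _, hlo x hx⟩⟩
  obtain ⟨b3, b4⟩ := mem_filter.1 b1
  refine ⟨A b, subset_biUnion_of_mem A b3, a1 b, fun a ha => ⟨(a2 b a ha).2.trans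
    (d2 x (by grind) b (by grind) b4), fun t ht k => ?_⟩⟩
  exact (b2 t (mem_filter.2 ⟨mem_insert_of_mem ht, k⟩)).trans_lt (a2 b a ha).1

/-- right anchors -/
lemma cl_anchorR (n : ℕ) (s0 S : Finset ℝ) : ∃ L : Finset ℝ, L.card ≤ (s0.card + 1) * n ∧
    ∀ x ∈ S, ∃ A ⊆ L, A.card = n ∧ ∀ a ∈ A, x < a ∧ ∀ t ∈ s0, x < t → a < t := by
  obtain ⟨L, a1, a2⟩ := cl_anchorL n (s0.image Neg.neg) (S.image Neg.neg)
  refine ⟨L.image Neg.neg, card_image_le.trans (a1.trans (Nat.mul_le_mul_right _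
    (Nat.succ_le_succ card_image_le))), fun x hx => ?_⟩
  obtain ⟨A, b1, b2, b3⟩ := a2 (-x) (mem_image_of_mem _ hx)
  refine ⟨A.image Neg.neg, image_subset_image b1, by
    rw [card_image_of_injective _ neg_injective, b2], fun a ha => ?_⟩
  obtain ⟨a, ha', rfl⟩ := mem_image.1 ha
  refine ⟨by linarith [(b3 a ha').1], fun t ht k => ?_⟩
  have := (b3 a ha').2 (-t) (mem_image_of_mem _ ht) (by linarith)
  linarith

end Ord

section Cells
variable {A B C ι κ : Type} [Fintype A] [Fintype B] [Fintype C] [DecidableEq A] [DecidableEq B]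
  [DecidableEq C] [LinearOrder ι] [LinearOrder κ]

lemma cl_mem_ovr {s : Finset ι} {l : Lab A B C ι} : l ∈ ovr s ↔ l.supp ⊆ s ∧ l.valid := by
  classical
  unfold ovr
  rw [mem_filter]
  refine and_congr_left fun _ => ?_
  rcases l with a | ⟨b, i⟩ | ⟨c, i, j⟩
  · simp [Lab.g, Lab.supp]
  · simp [Lab.g, Lab.o, Lab.p, Lab.supp]
  · simp [Lab.g, Lab.o, Lab.p, Lab.supp, insert_subset_iff]

lemma cl_mem_cell {s : Finset ι} {l : Lab A B C ι} : l ∈ cell s ↔ l.supp = s ∧ l.valid := by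
  unfold cell
  rw [mem_filter, cl_mem_ovr]
  exact ⟨fun h => ⟨h.2, h.1.2⟩, fun h => ⟨⟨h.1.le, h.2⟩, h.1⟩⟩

lemma cl_supp_ovr {s : Finset ι} {R : Finset (Lab A B C ι)} (h : R ⊆ ovr s) :
    R.biUnion Lab.supp ⊆ s := biUnion_subset.2 fun l hl => (cl_mem_ovr.1 (h hl)).1

lemma cl_image_ovr {s : Finset ι} {φ : ι → κ} (h : StrictMonoOn φ s) :
    (ovr s : Finset (Lab A B C ι)).image (Lab.map φ) = ovr (s.image φ) := by
  refine subset_antisymm (fun l hl => ?_) fun l hl => ?_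
  · obtain ⟨l, a, rfl⟩ := mem_image.1 hl
    rw [cl_mem_ovr] at *
    exact ⟨by rw [Lab.lim_supp_map]; exact image_subset_image a.1, Lab.lim_valid_map h a.1 a.2⟩
  · obtain ⟨a1, a2⟩ := cl_mem_ovr.1 hl
    rcases l with a | ⟨b, i⟩ | ⟨c, i, j⟩
    · exact mem_image.2 ⟨Lab.g a, cl_mem_ovr.2 ⟨empty_subset _, trivial⟩, rfl⟩
    · obtain ⟨i, hi, rfl⟩ := mem_image.1 (a1 (mem_singleton_self i))
      exact mem_image.2 ⟨Lab.o b i, cl_mem_ovr.2 ⟨singleton_subset_iff.2 hi, trivial⟩, rfl⟩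
    · obtain ⟨i, hi, rfl⟩ := mem_image.1 (a1 (mem_insert_self i _))
      obtain ⟨j, hj, rfl⟩ := mem_image.1 (a1 (mem_insert_of_mem (mem_singleton_self j)))
      exact mem_image.2 ⟨Lab.p c i j, cl_mem_ovr.2
        ⟨insert_subset hi (singleton_subset_iff.2 hj), (h.lt_iff_lt hi hj).1 a2⟩, rfl⟩

lemma cl_image_filter {s : Finset ι} {φ : ι → κ} (h : StrictMonoOn φ s)
    {P : Lab A B C ι → Prop} {Q : Lab A B C κ → Prop} [DecidablePred P] [DecidablePred Q]
    (e : ∀ l ∈ ovr s, P l ↔ Q (l.map φ)) :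
    ((ovr s).filter P).image (Lab.map φ) = (ovr (s.image φ)).filter Q := by
  rw [← cl_image_ovr h, filter_image, filter_congr e]

lemma cl_image_inj {s t t' : Finset ι} {φ : ι → κ} (h : Set.InjOn φ s) (ht : t ⊆ s) (ht' : t' ⊆ s)
    (e : t.image φ = t'.image φ) : t = t' := by
  refine subset_antisymm (fun x hx => ?_) fun x hx => ?_
  · obtain ⟨y, hy, k⟩ := mem_image.1 (e ▸ mem_image_of_mem φ hx)
    exact h (ht' hy) (ht hx) k ▸ hy
  · obtain ⟨y, hy, k⟩ := mem_image.1 (e.symm ▸ mem_image_of_mem φ hx)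
    exact h (ht hy) (ht' hx) k ▸ hy

lemma cl_image_cell {s : Finset ι} {φ : ι → κ} (h : StrictMonoOn φ s) :
    (cell s : Finset (Lab A B C ι)).image (Lab.map φ) = cell (s.image φ) :=
  cl_image_filter h fun l hl => by
    rw [Lab.lim_supp_map]
    exact ⟨fun e => by rw [e], fun e => cl_image_inj h.injOn (cl_mem_ovr.1 hl).1 subset_rfl e⟩

lemma cl_hub_map (side : C → Bool) (φ : ι → κ) (l : Lab Empty B C ι) :
    (l.map φ).hub side = φ (l.hub side) := by
  rcases l with a | ⟨b, i⟩ | ⟨c, i, j⟩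
  · exact a.elim
  · rfl
  · exact (apply_ite φ _ i j).symm

lemma cl_hub_mem (side : C → Bool) (l : Lab Empty B C ι) : l.hub side ∈ l.supp := by
  rcases l with a | ⟨b, i⟩ | ⟨c, i, j⟩
  · exact a.elim
  · exact mem_singleton_self i
  · change (if side c then i else j) ∈ ({i, j} : Finset ι)
    split_ifs <;> simp

lemma cl_supp_card (l : Lab A B C ι) : l.supp.card ≤ 2 := by
  rcases l with a | ⟨b, i⟩ | ⟨c, i, j⟩
  · exact Nat.zero_le _
  · exact (card_singleton i).le.trans (by omega)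
  · exact card_le_two

lemma cl_image_fix {R : Finset (Lab A B C ι)} {φ : ι → ι} (h : ∀ x ∈ R.biUnion Lab.supp, φ x = x) :
    R.image (Lab.map φ) = R := by
  rw [Lab.lim_image_congr (ψ := id) h]
  exact (image_congr fun l _ => Lab.lim_map_id l).trans image_id

end Cells

end Pool.Agent.Lib.MP_a4b0c4_co.J
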