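import Pool.Agent.Lib.MP_a4b0c4_co.JCl1

set_option autoImplicit false
set_option linter.unusedSectionVars false
set_option linter.unusedVariables false

open Finset

namespace Pool.Agent.Lib.MP_a4b0c4_co.J

lemma Gap.mono_update {T : Finset ℝ} {x a : ℝ} (h : Gap T x a) (hx : x ∉ T) :
    StrictMonoOn (Function.update id x a) (insert x T : Finset ℝ) := by
  intro u hu v hv huv
  rw [mem_coe, mem_insert] at hu hv
  have ne : ∀ t ∈ T, t ≠ x := fun t ht e => hx (e ▸ ht)
  rcases hu with rfl | hu <;> rcases hv with rfl | hv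
  · exact absurd huv (lt_irrefl _)
  · rw [Function.update_self, Function.update_of_ne (ne v hv)]; exact (h v hv).2 huv
  · rw [Function.update_self, Function.update_of_ne (ne u hu)]; exact (h u hu).1 huv
  · rwa [Function.update_of_ne (ne u hu), Function.update_of_ne (ne v hv)]

section
variable {A B C A' B' C' : Type} [Fintype A] [Fintype B] [Fintype C] [Fintype A'] [Fintype B']
  [Fintype C'] [DecidableEq A] [DecidableEq B] [DecidableEq C] [DecidableEq A'] [DecidableEq B']
  [DecidableEq C'] {ρ : Finset (Lab A B C ℝ) → Finset (Lab A' B' C' ℝ) → ℤ} {n : ℕ}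

lemma Inv.tr (h : Inv ρ) : Inv (tr ρ) := fun φ Y R k => h φ R Y (by rwa [union_comm])

/-- flexible form of order invariance -/
lemma Inv.of_sub (h : Inv ρ) {φ : ℝ → ℝ} {S : Finset ℝ} (k : StrictMonoOn φ S)
    {R : Finset (Lab A B C ℝ)} {Y : Finset (Lab A' B' C' ℝ)} (hR : R.biUnion Lab.supp ⊆ S)
    (hY : Y.biUnion Lab.supp ⊆ S) : ρ (R.image (Lab.map φ)) (Y.image (Lab.map φ)) = ρ R Y :=
  h φ R Y (k.mono (coe_subset.2 (union_subset hR hY)))

/-- a column is spanned by n-1 copies obtained by moving an index inside its gap -/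
lemma cl_move (hI : Inv ρ) (hB : BM ρ) (hF : FreeB n ρ {l | l.valid} {l | l.valid})
    {R : Finset (Lab A B C ℝ)} (hR : ∀ l ∈ R, l.valid) {T : Finset ℝ}
    (hT : R.biUnion Lab.supp ⊆ T) {y : Lab A' B' C' ℝ} (hy : y.valid) {x : ℝ} (hx : x ∉ T)
    (hxy : x ∈ y.supp) (hs : y.supp ⊆ insert x T) {P : Finset ℝ} (hP : ∀ a ∈ P, Gap T x a)
    (c : n ≤ P.card + 1) : Cl (ρ R) (P.image fun a => y.map (Function.update id x a)) y := by
  let mv : ℝ → Lab A' B' C' ℝ := fun a => y.map (Function.update id x a)
  obtain ⟨H0, h1, h2⟩ := (gap_infinite T x).exists_subset_card_eq (R.card + n)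
  let H := insert x (P ∪ H0)
  have g : ∀ a ∈ H, Gap T x a := fun a ha => by
    rcases mem_insert.1 ha with rfl | ha
    · exact fun t _ => ⟨id, id⟩
    · exact (mem_union.1 ha).elim (hP a) fun k => h1 k
  have sp : ∀ a, (mv a).supp ⊆ insert a T := fun a z hz => by
    rw [Lab.lim_supp_map] at hz
    obtain ⟨w, hw, rfl⟩ := mem_image.1 hz
    rcases mem_insert.1 (hs hw) with rfl | k
    · rw [Function.update_self]; exact mem_insert_self _ _
    · rw [Function.update_of_ne (ne_of_mem_of_not_mem k hx)]; exact mem_insert_of_mem k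
  have inj : Set.InjOn mv H := fun a ha b hb e => by
    have : a ∈ (mv a).supp := by
      rw [Lab.lim_supp_map]; exact mem_image.2 ⟨x, hxy, Function.update_self _ _ _⟩
    rw [e] at this
    exact (mem_insert.1 (sp b this)).resolve_right ((g a ha).notMem hx)
  have val : ∀ a ∈ H, (mv a).valid := fun a ha =>
    Lab.lim_valid_map ((g a ha).mono_update hx) (coe_subset.2 hs) hy
  have f1 : Free n (ρ R) (H.image mv) := hF.col hB hR fun l hl => by
    obtain ⟨a, ha, rfl⟩ := mem_image.1 hl
    exact val a ha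
  have f2 : Free n (pull (ρ R) mv) H := f1.pull (hB.col R) inj fun a ha => mem_image_of_mem _ ha
  have key := f2.indisc ((hB.col R).pull mv) (f2.pos x) subset_rfl (K := R.card)
    (fun I hI' J hJ c => by
      obtain ⟨φ, p1, p2, p3⟩ := gap_map hx (fun a ha => g a (hI' ha)) (fun a ha => g a (hJ ha)) c
      have := hI.of_sub p1 (hT.trans subset_union_left) (Y := I.image mv) (by
        rw [image_biUnion]
        exact biUnion_subset.2 fun a ha => (sp a).trans (by grind))
      rw [cl_image_fix fun z hz => p2 z (hT hz), image_image] at this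
      simp only [pull]
      rw [← this, ← p3, image_image]
      refine congrArg _ (image_congr fun a ha => ?_)
      simp only [Function.comp, mv, Lab.lim_map_map]
      refine Lab.lim_map_congr fun z hz => ?_
      rcases mem_insert.1 (hs hz) with rfl | k
      · simp
      · simp [Function.update_of_ne fun e : z = x => hx (e ▸ k), p2 z k])
    (hB.le_l _ _) (h2 ▸ card_le_card (by grind))
  have := key.2 P (by grind) c x (mem_insert_self _ _)
  simp only [Cl, pull, image_insert] at this
  have e : mv x = y := by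
    simp only [mv]
    rw [show Function.update id x x = id from Function.update_eq_self x id, Lab.lim_map_id]
  rwa [e] at this

end

section
variable {B C B' C' : Type} [Fintype B] [Fintype C] [Fintype B'] [Fintype C'] [DecidableEq B]
  [DecidableEq C] [DecidableEq B'] [DecidableEq C']
  {ρ : Finset (Lab Empty B C ℝ) → Finset (Lab Empty B' C' ℝ) → ℤ} {n : ℕ}

/-- a cell has bounded rank on all columns outside the cell -/
lemma cl_anchor (hI : Inv ρ) (hB : BM ρ) (hF : FreeB n ρ {l | l.valid} {l | l.valid})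
    {s0 : Finset ℝ} (h0 : s0.card ≤ 2) {D : ℕ} (hD : ∀ t, s0 ≠ t → ρ (cell s0) (cell t) ≤ D)
    {Z : Finset (Lab Empty B' C' ℝ)} (hZ : ∀ z ∈ Z, z.valid ∧ z.supp ≠ s0) :
    ρ (cell s0) Z ≤ (D * 2 ^ (6 * n + 2) : ℕ) := by
  obtain ⟨L, l1, l2⟩ := cl_anchorL n s0 (Z.biUnion Lab.supp)
  obtain ⟨L', l3, l4⟩ := cl_anchorR n s0 (Z.biUnion Lab.supp)
  let U := s0 ∪ L ∪ L'
  have u1 : U.card ≤ 6 * n + 2 := by
    have := card_union_le (s0 ∪ L) L'
    have := card_union_le s0 L
    have := Nat.mul_le_mul_right n (show s0.card + 1 ≤ 3 by omega)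
    simp only [U]; omega
  let W : Finset (Lab Empty B' C' ℝ) := (U.powerset.erase s0).biUnion cell
  have hr := hB.col (cell s0)
  have w1 : ρ (cell s0) W ≤ (D * 2 ^ (6 * n + 2) : ℕ) := by
    refine (hr.biUnion_le _ _).trans ((sum_le_card_nsmul _ _ (D : ℤ) fun t ht =>
      hD t (mem_erase.1 ht).1.symm).trans ?_)
    have : (U.powerset.erase s0).card ≤ 2 ^ (6 * n + 2) := card_erase_le.trans (by
      rw [card_powerset]; exact Nat.pow_le_pow_right (by omega) u1)
    rw [nsmul_eq_mul, mul_comm]
    exact_mod_cast Nat.mul_le_mul_left D this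
  have w2 : ∀ y : Lab Empty B' C' ℝ, y.valid → y.supp ⊆ U → y.supp ≠ s0 → y ∈ W :=
    fun y a b c => mem_biUnion.2 ⟨y.supp, mem_erase.2 ⟨c, mem_powerset.2 b⟩, cl_mem_cell.2 ⟨rfl, a⟩⟩
  have r1 : ∀ l ∈ (cell s0 : Finset (Lab Empty B C ℝ)), l.valid := fun l hl => (cl_mem_cell.1 hl).2
  have r2 : (cell s0 : Finset (Lab Empty B C ℝ)).biUnion Lab.supp ⊆ s0 :=
    biUnion_subset.2 fun l hl => (cl_mem_cell.1 hl).1.le
  have su : s0 ⊆ U := subset_union_left.trans subset_union_left
  have lu : L ⊆ U := subset_union_right.trans subset_union_left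
  have lu' : L' ⊆ U := subset_union_right
  refine (hr.span_le (A := W) fun z hz => ?_).trans w1
  obtain ⟨z1, z2⟩ := hZ z hz
  have z3 : z.supp ⊆ Z.biUnion Lab.supp := subset_biUnion_of_mem Lab.supp hz
  rcases z with a | ⟨b, x⟩ | ⟨c, i, j⟩
  · exact a.elim
  · by_cases hx : x ∈ s0
    · exact cl_mem (w2 _ z1 (singleton_subset_iff.2 (su hx)) z2)
    obtain ⟨P, p1, p2, p3⟩ := l2 x (z3 (mem_singleton_self x))
    have g : ∀ a ∈ P, Gap s0 x a := fun a ha t ht =>
      ⟨(p3 a ha).2 t ht, fun k => (p3 a ha).1.trans k⟩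
    refine hr.cl_mono (fun y hy => ?_) (cl_move hI hB hF r1 r2 z1 hx (mem_singleton_self x)
      (singleton_subset_iff.2 (mem_insert_self _ _)) g (by omega))
    obtain ⟨a, ha, rfl⟩ := mem_image.1 hy
    change Lab.o b (Function.update id x a x) ∈ W
    rw [Function.update_self]
    exact w2 _ trivial (singleton_subset_iff.2 (lu (p1 ha)))
      fun e => (g a ha).notMem hx (e ▸ mem_singleton_self a)
  · have hj : j ∈ Z.biUnion Lab.supp := z3 (mem_insert_of_mem (mem_singleton_self j))
    have st : ∀ i' ∈ U, i' < j → ({i', j} : Finset ℝ) ≠ s0 → Cl (ρ (cell s0)) W (Lab.p c i' j) := by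
      intro i' hi' lt ne
      by_cases hjs : j ∈ s0
      · exact cl_mem (w2 _ lt (insert_subset hi' (singleton_subset_iff.2 (su hjs))) ne)
      obtain ⟨P, p1, p2, p3⟩ := l4 j hj
      have hx : j ∉ insert i' s0 := by grind
      have g : ∀ a ∈ P, Gap (insert i' s0) j a := fun a ha t ht =>
        ⟨fun k => k.trans (p3 a ha).1, fun k => (p3 a ha).2 t
          ((mem_insert.1 ht).resolve_left fun e => by linarith) k⟩
      refine hr.cl_mono (fun y hy => ?_) (cl_move hI hB hF r1 (r2.trans (subset_insert _ _))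
        (y := Lab.p c i' j) lt hx (mem_insert_of_mem (mem_singleton_self j))
        (show ({i', j} : Finset ℝ) ⊆ _ by grind) g (by omega))
      obtain ⟨a, ha, rfl⟩ := mem_image.1 hy
      change Lab.p c (Function.update id j a i') (Function.update id j a j) ∈ W
      rw [Function.update_self, Function.update_of_ne lt.ne]
      exact w2 _ (lt.trans (p3 a ha).1) (insert_subset hi' (singleton_subset_iff.2 (lu' (p1 ha))))
        fun e => (g a ha).notMem hx (mem_insert_of_mem
          (e ▸ mem_insert_of_mem (mem_singleton_self a)))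
    have lt : i < j := z1
    by_cases hi : i ∈ s0
    · exact st i (su hi) lt z2
    obtain ⟨P, p1, p2, p3⟩ := l2 i (z3 (mem_insert_self _ _))
    have hx : i ∉ insert j s0 := by grind
    have g : ∀ a ∈ P, Gap (insert j s0) i a := fun a ha t ht =>
      ⟨fun k => (p3 a ha).2 t ((mem_insert.1 ht).resolve_left fun e => by linarith) k,
        fun k => (p3 a ha).1.trans k⟩
    refine hr.cl_trans (fun y hy => ?_) (cl_move hI hB hF r1 (r2.trans (subset_insert _ _))
      (y := Lab.p c i j) lt hx (mem_insert_self _ _)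
      (show ({i, j} : Finset ℝ) ⊆ _ by grind) g (by omega))
    obtain ⟨a, ha, rfl⟩ := mem_image.1 hy
    change Cl _ _ (Lab.p c (Function.update id i a i) (Function.update id i a j))
    rw [Function.update_self, Function.update_of_ne lt.ne']
    exact st a (lu (p1 ha)) ((p3 a ha).1.trans lt) fun e => (g a ha).notMem hx (mem_insert_of_mem
      (e ▸ mem_insert_self a _))

end

end Pool.Agent.Lib.MP_a4b0c4_co.J
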