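import Pool.Agent.Lib.MP_a4b0c4_co.JCl2

set_option autoImplicit false
set_option linter.unusedSectionVars false
set_option linter.unusedVariables false

open Finset

namespace Pool.Agent.Lib.MP_a4b0c4_co.J

section
variable {B C B' C' : Type} [Fintype B] [Fintype C] [Fintype B'] [Fintype C'] [DecidableEq B]
  [DecidableEq C] [DecidableEq B'] [DecidableEq C']
  {ρ : Finset (Lab Empty B C ℝ) → Finset (Lab Empty B' C' ℝ) → ℤ} {n : ℕ} {side : C → Bool}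
  {V : Finset (Lab Empty B' C' ℝ) → ℤ}

/-- V is the rank seen by all rows with foreign hubs -/
structure VP (ρ : Finset (Lab Empty B C ℝ) → Finset (Lab Empty B' C' ℝ) → ℤ) (side : C → Bool)
    (V : Finset (Lab Empty B' C' ℝ) → ℤ) : Prop where
  le : ∀ R Y, (∀ l ∈ R, l.valid ∧ l.hub side ∉ Y.biUnion Lab.supp) → ρ R Y ≤ V Y
  ex : ∀ Y (S : Finset ℝ), ∃ R, (∀ l ∈ R, l.valid ∧ l.hub side ∉ S) ∧ ρ R Y = V Y

lemma cl_hub_supp {R : Finset (Lab Empty B C ℝ)} {l : Lab Empty B C ℝ} (hl : l ∈ R) :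
    l.hub side ∈ R.biUnion Lab.supp := mem_biUnion.2 ⟨l, hl, cl_hub_mem side l⟩

lemma vp_exists (hI : Inv ρ) (hB : BM ρ) (side : C → Bool) : ∃ V, VP ρ side V := by
  have : ∀ Y : Finset (Lab Empty B' C' ℝ), ∃ v : ℤ,
      (∃ R, (∀ l ∈ R, l.valid ∧ l.hub side ∉ Y.biUnion Lab.supp) ∧ ρ R Y = v) ∧
      ∀ z, (∃ R, (∀ l ∈ R, l.valid ∧ l.hub side ∉ Y.biUnion Lab.supp) ∧ ρ R Y = z) → z ≤ v :=
    fun Y => Int.exists_greatest_of_bdd ⟨Y.card, fun z ⟨R, _, e⟩ => e ▸ hB.le_r R Y⟩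
      ⟨_, ∅, by simp, rfl⟩
  choose V v1 v2 using this
  refine ⟨V, fun R Y h => v2 Y _ ⟨R, h, rfl⟩, fun Y S => ?_⟩
  obtain ⟨R, r1, r2⟩ := v1 Y
  obtain ⟨ψ, p1, p2, p3⟩ := cl_extend (Y.biUnion Lab.supp) S (φ := id) (strictMono_id.strictMonoOn _)
    (R.biUnion Lab.supp)
  refine ⟨R.image (Lab.map ψ), fun l hl => ?_, ?_⟩
  · obtain ⟨l', hl', rfl⟩ := mem_image.1 hl
    refine ⟨Lab.lim_valid_map p1 (coe_subset.2 ((subset_biUnion_of_mem Lab.supp hl').trans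
      subset_union_right)) (r1 l' hl').1, ?_⟩
    rw [cl_hub_map]
    exact p3 _ (cl_hub_supp hl') (r1 l' hl').2
  · have := hI.of_sub p1 (R := R) (Y := Y) subset_union_right subset_union_left
    rwa [cl_image_fix p2, r2] at this

lemma VP.all (h : VP ρ side V) (hB : BM ρ) (U : Finset (Lab Empty B' C' ℝ)) (S : Finset ℝ) :
    ∃ R, (∀ l ∈ R, l.valid ∧ l.hub side ∉ S ∪ U.biUnion Lab.supp) ∧ ∀ X ⊆ U, ρ R X = V X := by
  choose R r1 r2 using fun X => h.ex X (S ∪ U.biUnion Lab.supp)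
  have k : ∀ l ∈ U.powerset.biUnion R, l.valid ∧ l.hub side ∉ S ∪ U.biUnion Lab.supp :=
    fun l hl => by
      obtain ⟨X, -, a⟩ := mem_biUnion.1 hl
      exact r1 X l a
  refine ⟨_, k, fun X hX => le_antisymm (h.le _ _ fun l hl => ⟨(k l hl).1, fun c => (k l hl).2
    (mem_union_right _ (biUnion_subset_biUnion_of_subset_left _ hX c))⟩) ?_⟩
  rw [← r2 X]
  exact hB.mono (subset_biUnion_of_mem R (mem_powerset.2 hX)) subset_rfl

lemma VP.rk (h : VP ρ side V) (hB : BM ρ) : Rk V where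
  emp := by
    obtain ⟨R, -, e⟩ := h.ex ∅ ∅
    rw [← e, hB.emp_r]
  mono := fun {X Y} hXY => by
    obtain ⟨R, -, e⟩ := h.all hB Y ∅
    rw [← e X hXY, ← e Y subset_rfl]
    exact hB.mono subset_rfl hXY
  subm := fun X Y => by
    obtain ⟨R, -, e⟩ := h.all hB (X ∪ Y) ∅
    rw [← e _ subset_rfl, ← e _ inter_subset_union, ← e X subset_union_left,
      ← e Y subset_union_right]
    exact (hB.col R).subm X Y
  unit := fun x X => by
    obtain ⟨R, -, e⟩ := h.all hB (insert x X) ∅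
    rw [← e _ subset_rfl, ← e X (subset_insert _ _)]
    exact (hB.col R).unit x X

lemma VP.inv_le (h : VP ρ side V) (hI : Inv ρ) {φ : ℝ → ℝ} {Y : Finset (Lab Empty B' C' ℝ)}
    (k : StrictMonoOn φ (Y.biUnion Lab.supp : Finset ℝ)) : V Y ≤ V (Y.image (Lab.map φ)) := by
  obtain ⟨R, r1, r2⟩ := h.ex Y (Y.biUnion Lab.supp)
  obtain ⟨ψ, p1, p2, -⟩ := cl_extend (Y.biUnion Lab.supp) ∅ k (R.biUnion Lab.supp)
  rw [← r2, ← hI.of_sub p1 (R := R) (Y := Y) subset_union_right subset_union_left,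
    ← Lab.lim_image_congr p2]
  refine h.le _ _ fun l hl => ?_
  obtain ⟨l', hl', rfl⟩ := mem_image.1 hl
  refine ⟨Lab.lim_valid_map p1 (coe_subset.2 ((subset_biUnion_of_mem Lab.supp hl').trans
    subset_union_right)) (r1 l' hl').1, fun c => ?_⟩
  rw [cl_hub_map, Lab.lim_biUnion_map] at c
  obtain ⟨x, hx, e⟩ := mem_image.1 c
  exact (r1 l' hl').2 (p1.injOn (mem_union_left _ hx) (mem_union_right _ (cl_hub_supp hl')) e ▸ hx)

lemma VP.inv (h : VP ρ side V) (hI : Inv ρ) {φ : ℝ → ℝ} {S : Finset ℝ} (k : StrictMonoOn φ S)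
    {Y : Finset (Lab Empty B' C' ℝ)} (hY : Y.biUnion Lab.supp ⊆ S) :
    V (Y.image (Lab.map φ)) = V Y := by
  refine le_antisymm ?_ (h.inv_le hI (k.mono hY))
  have e : ∀ x ∈ S, Function.invFunOn φ S (φ x) = x := fun x hx => k.injOn.leftInvOn_invFunOn hx
  have := h.inv_le hI (φ := Function.invFunOn φ S) (Y := Y.image (Lab.map φ)) (by
    rw [Lab.lim_biUnion_map]
    intro a ha b hb hab
    obtain ⟨a, ha', rfl⟩ := mem_image.1 ha
    obtain ⟨b, hb', rfl⟩ := mem_image.1 hb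
    rw [e a (hY ha'), e b (hY hb')]
    exact (k.lt_iff_lt (hY ha') (hY hb')).1 hab)
  rw [image_image] at this
  have e' : Y.image (Lab.map (Function.invFunOn φ S) ∘ Lab.map φ) = Y := by
    rw [← cl_image_fix (R := Y) (φ := Function.invFunOn φ S ∘ φ) fun x hx => e x (hY hx)]
    conv_lhs => rw [cl_image_fix (R := Y) (φ := Function.invFunOn φ S ∘ φ) fun x hx => e x (hY hx)]
    exact image_congr fun l _ => Lab.lim_map_map _ _ l
  rwa [e'] at this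

lemma cl_kill_key (h : VP ρ side V) (hI : Inv ρ) (hB : BM ρ) {I s : Finset ℝ}
    {A Z0 K Z : Finset (Lab Empty B' C' ℝ)} (hA : ∀ y ∈ A, y.supp ∩ I ⊆ s)
    (h0 : ∀ z ∈ Z0, z.valid ∧ z.supp ∩ I ⊂ s)
    (hm : ∀ Z : Finset (Lab Empty B' C' ℝ), (∀ z ∈ Z, z.valid ∧ z.supp ∩ I ⊂ s) →
      con V Z0 A ≤ con V Z A) (hK : K ⊆ A) (hi : Ind (con V Z0) K)
    (hZ : ∀ z ∈ Z, z.valid ∧ ¬ s ⊆ z.supp ∩ I) : Ind (con V Z) K := by
  have hV := h.rk hB
  obtain ⟨T, hT⟩ : ∃ T, T = (A ∪ Z0 ∪ Z).biUnion Lab.supp := ⟨_, rfl⟩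
  obtain ⟨ψ, p1, p2, p3⟩ := cl_extend (T \ (I \ s)) I (φ := id) (strictMono_id.strictMonoOn _) T
  have t1 : ∀ X ⊆ A ∪ Z0 ∪ Z, X.biUnion Lab.supp ⊆ T := fun X hX =>
    hT ▸ biUnion_subset_biUnion_of_subset_left _ hX
  have fx : ∀ X ⊆ A ∪ Z0, X.image (Lab.map ψ) = X := fun X hX => cl_image_fix fun x hx => by
    refine p2 x (mem_sdiff.2 ⟨t1 X (hX.trans subset_union_left) hx, fun c => ?_⟩)
    obtain ⟨y, hy, k⟩ := mem_biUnion.1 hx
    obtain ⟨c1, c2⟩ := mem_sdiff.1 c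
    rcases mem_union.1 (hX hy) with a | a
    · exact c2 (hA y a (mem_inter.2 ⟨k, c1⟩))
    · exact c2 ((h0 y a).2.subset (mem_inter.2 ⟨k, c1⟩))
  have z1 : ∀ z ∈ Z0 ∪ Z.image (Lab.map ψ), z.valid ∧ z.supp ∩ I ⊂ s := fun z hz => by
    rcases mem_union.1 hz with a | a
    · exact h0 z a
    obtain ⟨z', hz', rfl⟩ := mem_image.1 a
    have s1 : z'.supp ⊆ T := (subset_biUnion_of_mem Lab.supp hz').trans (t1 Z subset_union_right)
    have s2 : ∀ w ∈ (z'.map ψ).supp ∩ I, w ∈ s ∧ w ∈ z'.supp ∩ I := fun w hw => by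
      obtain ⟨w1, w2⟩ := mem_inter.1 hw
      rw [Lab.lim_supp_map] at w1
      obtain ⟨x, hx, rfl⟩ := mem_image.1 w1
      have x0 : x ∈ T \ (I \ s) := by
        by_contra c
        exact p3 x (s1 hx) c w2
      rw [p2 x x0] at w2 ⊢
      simp only [id] at w2 ⊢
      grind
    exact ⟨Lab.lim_valid_map p1 (coe_subset.2 (s1.trans subset_union_right)) (hZ z' hz').1,
      fun w hw => (s2 w hw).1, fun c => (hZ z' hz').2 fun w hw => (s2 w (c hw)).2⟩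
  have e1 := hV.con_eq_sub subset_union_left hK (hm _ z1)
  have e2 := h.inv hI p1 (Y := K ∪ (Z0 ∪ Z)) ((t1 _ (by grind)).trans subset_union_right)
  have e3 := h.inv hI p1 (Y := Z0 ∪ Z) ((t1 _ (by grind)).trans subset_union_right)
  rw [image_union, image_union, fx K (hK.trans subset_union_left), fx Z0 subset_union_right] at e2
  rw [image_union, fx Z0 subset_union_right] at e3
  refine hV.ind_con_anti (B := Z0 ∪ Z) subset_union_right ?_
  unfold Ind con at *; omega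

lemma cl_kill (h : VP ρ side V) (hI : Inv ρ) (hB : BM ρ) (I : Finset ℝ) (F : Finset (Finset ℝ)) :
    (∀ s ∈ F, ∀ t ⊆ s, t ∈ F) → ∀ A : Finset (Lab Empty B' C' ℝ),
    (∀ y ∈ A, y.valid ∧ y.supp ∩ I ∈ F) → ∃ K, Ind V K ∧ (∀ z ∈ K, z.valid ∧ z.supp ∩ I ∈ F) ∧
      ∀ y ∈ A, Cl V (K.filter fun z => z.supp ∩ I ⊆ y.supp ∩ I) y := by
  have hV := h.rk hB
  induction F using Finset.strongInduction with
  | H F ih =>
    intro hF A hA
    rcases F.eq_empty_or_nonempty with rfl | ne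
    · exact ⟨∅, hV.ind_empty, by simp, fun y hy => by simpa using (hA y hy).2⟩
    obtain ⟨s, hs, hmax⟩ := exists_max_image F card ne
    let As := A.filter fun y => y.supp ∩ I = s
    obtain ⟨v, ⟨Z0, z1, rfl⟩, z2⟩ := Int.exists_least_of_bdd
      (P := fun v => ∃ Z : Finset (Lab Empty B' C' ℝ), (∀ z ∈ Z, z.valid ∧ z.supp ∩ I ⊂ s) ∧
        con V Z As = v) ⟨0, fun z ⟨Z, _, e⟩ => e ▸ (hV.con Z).nonneg _⟩ ⟨_, ∅, by simp, rfl⟩
    obtain ⟨Ks, k1, k2, k3, -⟩ := (hV.con Z0).basis As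
    obtain ⟨K', a1, a2, a3⟩ := ih (F.erase s) (erase_ssubset hs) (fun t ht u hu => mem_erase.2
      ⟨fun e => (mem_erase.1 ht).1 (eq_of_subset_of_card_le (e ▸ hu)
        (hmax t (mem_of_mem_erase ht))).symm, hF t (mem_of_mem_erase ht) u hu⟩) (A \ As ∪ Z0)
      fun y hy => by
        rcases mem_union.1 hy with a | a
        · obtain ⟨b1, b2⟩ := mem_sdiff.1 a
          exact ⟨(hA y b1).1, mem_erase.2 ⟨fun e => b2 (mem_filter.2 ⟨b1, e⟩), (hA y b1).2⟩⟩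
        · exact ⟨(z1 y a).1, mem_erase.2 ⟨(z1 y a).2.ne, hF s hs _ (z1 y a).2.subset⟩⟩
    have i1 : Ind (con V K') Ks := cl_kill_key h hI hB (fun y hy => (mem_filter.1 hy).2.le) z1
      (fun Z hZ => z2 _ ⟨Z, hZ, rfl⟩) k1 k2 fun z hz => ⟨(a2 z hz).1, fun c =>
        (mem_erase.1 (a2 z hz).2).1 (eq_of_subset_of_card_le c
          (hmax _ (mem_of_mem_erase (a2 z hz).2))).symm⟩
    refine ⟨Ks ∪ K', hV.ind_union a1 i1, fun z hz => ?_, fun y hy => ?_⟩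
    · rcases mem_union.1 hz with a | a
      · exact hA z (mem_filter.1 (k1 a)).1
      · exact ⟨(a2 z a).1, mem_of_mem_erase (a2 z a).2⟩
    · by_cases c : y ∈ As
      · refine hV.cl_trans (fun z hz => ?_) (cl_con.1 (k3 y c))
        rw [(mem_filter.1 c).2]
        rcases mem_union.1 hz with a | a
        · exact cl_mem (mem_filter.2 ⟨mem_union_left _ a, (mem_filter.1 (k1 a)).2.le⟩)
        · refine hV.cl_mono (fun w hw => ?_) (a3 z (mem_union_right _ a))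
          obtain ⟨w1, w2⟩ := mem_filter.1 hw
          exact mem_filter.2 ⟨mem_union_right _ w1, w2.trans (z1 z a).2.subset⟩
      · exact hV.cl_mono (filter_subset_filter _ subset_union_right)
          (a3 y (mem_union_left _ (mem_sdiff.2 ⟨hy, c⟩)))

lemma cl_few {α : Type} [DecidableEq α] {r : Finset α → ℤ} (h : Rk r) {P K : Finset α}
    (hP : Ind r P) : ∃ Q ⊆ P, (Q.card : ℤ) ≤ r K ∧ ∀ y ∈ P, Cl r K y → y ∈ Q := by
  classical
  refine ⟨P.filter (Cl r K), filter_subset _ _, ?_, fun y a b => mem_filter.2 ⟨a, b⟩⟩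
  rw [← h.ind_sub hP (filter_subset _ _)]
  exact h.span_le fun e he => (mem_filter.1 he).2

/-- the cleaning lemma in the order invariant limit -/
lemma cl_limit (hI : Inv ρ) (hB : BM ρ) (hF : FreeB n ρ {l | l.valid} {l | l.valid}) {D p : ℕ}
    (hp : 4 * (D * 2 ^ (6 * n + 2)) < p) (hD : ∀ s s', s ≠ s' → ρ (cell s) (cell s') ≤ D)
    (hc : ∀ s, ((cell s : Finset (Lab Empty B' C' ℝ)).card ≤ p) ∧
      ((cell s : Finset (Lab Empty B' C' ℝ)).Nonempty → ∀ i ∈ s,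
        (p : ℤ) ≤ ρ ((cell s).filter fun l => l.hub side = i) (cell s))) (I : Finset ℝ) :
    ∃ (R0 : Finset (Lab Empty B C ℝ)) (K : Finset (Lab Empty B' C' ℝ)),
      (∀ l ∈ R0, l.valid ∧ l.hub side ∉ I) ∧ (∀ l ∈ K, l.valid) ∧
      R0.card = K.card ∧ ρ R0 K = K.card ∧
      ∀ s ⊆ I, (cell s : Finset (Lab Empty B' C' ℝ)).Nonempty →
        ∃ y ∈ cell s, y ∉ K ∧
          ρ (R0 ∪ (ovr I).filter fun l => l.hub side ∉ s) (insert y K) = K.card ∧
          ∀ i ∈ s, ρ (R0 ∪ (ovr I).filter fun l => l.hub side = i) (insert y K) = K.card + 1 := by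
  obtain ⟨V, h⟩ := vp_exists hI hB side
  have hV := h.rk hB
  obtain ⟨K, k1, k2, k3⟩ := cl_kill h hI hB I I.powerset
    (fun s hs t ht => mem_powerset.2 (ht.trans (mem_powerset.1 hs))) (ovr I)
    fun y hy => ⟨(cl_mem_ovr.1 hy).2, mem_powerset.2 inter_subset_right⟩
  obtain ⟨R, r1, r2⟩ := h.ex K (I ∪ K.biUnion Lab.supp)
  obtain ⟨R0, a1, K', a2, a3, a4, a5⟩ := hB.nonsing R K
  rw [r2, k1] at a3 a4 a5
  obtain rfl : K' = K := eq_of_subset_of_card_le a2 (by omega)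
  have j0 : ∀ R', Ind (ρ (R0 ∪ R')) K' := fun R' => hB.ind_view subset_union_left a5
  refine ⟨R0, K', fun l hl => ⟨(r1 l (a1 hl)).1, fun c => (r1 l (a1 hl)).2 (mem_union_left _ c)⟩,
    fun l hl => (k2 l hl).1, by omega, a5, fun s hs ne => ?_⟩
  obtain ⟨c1, c2⟩ := hc s
  have c2 := c2 ne
  obtain ⟨y0, hy0⟩ := ne
  have s2 : s.card ≤ 2 := (cl_mem_cell.1 hy0).1 ▸ cl_supp_card y0
  obtain ⟨i0, hi0⟩ : s.Nonempty :=
    ⟨_, (cl_mem_cell.1 hy0).1 ▸ cl_hub_mem (fun _ => true) y0⟩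
  obtain ⟨c, hcc⟩ : ∃ c, c = D * 2 ^ (6 * n + 2) := ⟨_, rfl⟩
  rw [← hcc] at hp
  have b1 : ((K' ∩ cell s).card : ℤ) ≤ c := by
    obtain ⟨R', q1, q2⟩ := h.ex (cell s) s
    have := cl_anchor hI.tr hB.tr (hF.tr hB) s2 (fun t ht => hD t s ht.symm) (Z := R')
      fun z hz => ⟨(q1 z hz).1, fun e => (q1 z hz).2 (e ▸ cl_hub_mem side z)⟩
    rw [← hV.ind_sub k1 inter_subset_left, hcc]
    exact (hV.mono inter_subset_right).trans (q2 ▸ this)
  have b2 : ρ (cell s) K' ≤ 2 * c := by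
    have h1 := cl_anchor hI hB hF s2 (fun t ht => hD s t ht) (Z := K' \ cell s) fun z hz =>
      ⟨(k2 z (mem_sdiff.1 hz).1).1, fun e => (mem_sdiff.1 hz).2
        (cl_mem_cell.2 ⟨e, (k2 z (mem_sdiff.1 hz).1).1⟩)⟩
    have h2 := (hB.col (cell s)).add_card' (X := K' \ cell s) (Y := K' ∩ cell s) (Z := K')
      (by grind)
    rw [← hcc] at h1
    omega
  have b3 : ∀ i, ∃ Q : Finset (Lab Empty B' C' ℝ), Q.card ≤ 2 * c ∧ (i ∈ s → ∀ y ∈ cell s,
      Cl (ρ ((cell s).filter fun l => l.hub side = i)) K' y → y ∈ Q) := fun i => by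
    by_cases hi : i ∈ s
    · obtain ⟨Q, -, q2, q3⟩ := cl_few (hB.col ((cell s).filter fun l => l.hub side = i)) (K := K')
        ((hB.col _).ind_iff.2 (le_trans (by exact_mod_cast c1) (c2 i hi)))
      have := hB.mono (filter_subset (fun l => l.hub side = i) (cell s)) (subset_refl K')
      exact ⟨Q, by omega, fun _ => q3⟩
    · exact ⟨∅, by simp, fun k => absurd k hi⟩
  choose Q q1 q2 using b3
  obtain ⟨y, y1, y2⟩ : ∃ y ∈ cell s, y ∉ s.biUnion Q := exists_mem_notMem_of_card_lt_card (by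
    have h1 := card_biUnion_le_card_mul s Q _ fun i _ => q1 i
    have h2 := (c2 i0 hi0).trans (hB.le_r _ _)
    have h3 := Nat.mul_le_mul_right (2 * c) s2
    omega)
  have y3 : ∀ i ∈ s, ¬ Cl (ρ ((cell s).filter fun l => l.hub side = i)) K' y := fun i hi k =>
    y2 (mem_biUnion.2 ⟨i, hi, q2 i hi y y1 k⟩)
  obtain ⟨y4, y5⟩ := cl_mem_cell.1 y1
  refine ⟨y, y1, fun k => y3 i0 hi0 (cl_mem k), ?_, fun i hi => ?_⟩
  · have e := k3 y (cl_mem_ovr.2 ⟨y4 ▸ hs, y5⟩)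
    rw [y4, inter_eq_left.2 hs] at e
    generalize hKy : K'.filter (fun z => z.supp ∩ I ⊆ s) = Ky at e
    have f1 : Ky ⊆ K' := hKy ▸ filter_subset _ _
    have f2 := h.le (R0 ∪ (ovr I).filter fun l => l.hub side ∉ s) (insert y Ky) fun l hl => by
      rw [biUnion_insert, y4, mem_union, not_or]
      rcases mem_union.1 hl with a | a
      · exact ⟨(r1 l (a1 a)).1, fun c => (r1 l (a1 a)).2 (mem_union_left _ (hs c)), fun c =>
          (r1 l (a1 a)).2 (mem_union_right _ (biUnion_subset_biUnion_of_subset_left _ f1 c))⟩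
      · obtain ⟨g1, g2⟩ := mem_filter.1 a
        obtain ⟨g3, g4⟩ := cl_mem_ovr.1 g1
        refine ⟨g4, g2, fun c => g2 ?_⟩
        obtain ⟨z, hz, c⟩ := mem_biUnion.1 c
        rw [← hKy] at hz
        exact (mem_filter.1 hz).2 (mem_inter.2 ⟨c, g3 (cl_hub_mem side l)⟩)
    have hr := hB.col (R0 ∪ (ovr I).filter fun l => l.hub side ∉ s)
    have f3 := hr.ind_sub (j0 _) f1
    have f4 := hV.ind_sub k1 f1
    have f5 := hr.cl_mono f1 (hr.cl_iff.2 (by unfold Ind Cl at *; omega) : Cl _ Ky y)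
    exact f5.trans (j0 _)
  · have hr := hB.col (R0 ∪ (ovr I).filter fun l => l.hub side = i)
    rw [hr.not_cl.1 fun k => y3 i hi (hB.cl_view (fun l hl => ?_) k), j0]
    obtain ⟨g1, g2⟩ := mem_filter.1 hl
    obtain ⟨g3, g4⟩ := cl_mem_cell.1 g1
    exact mem_union_right _ (mem_filter.2 ⟨cl_mem_ovr.2 ⟨g3 ▸ hs, g4⟩, g2⟩)

end

end Pool.Agent.Lib.MP_a4b0c4_co.J
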