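import Pool.Agent.Lib.MP_a4b0c4_co.JCl3

set_option autoImplicit false
set_option linter.unusedSectionVars false
set_option linter.unusedVariables false

open Finset

namespace Pool.Agent.Lib.MP_a4b0c4_co.J

section
variable {A B C ι κ : Type} [Fintype A] [Fintype B] [Fintype C] [DecidableEq A] [DecidableEq B]
  [DecidableEq C] [LinearOrder ι] [LinearOrder κ]

lemma cl_supp_cell {s : Finset ι} {R : Finset (Lab A B C ι)} (h : R ⊆ cell s) :
    R.biUnion Lab.supp ⊆ s := biUnion_subset.2 fun l hl => (cl_mem_cell.1 (h hl)).1.le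

lemma cl_card_map {S : Finset ι} {φ : ι → κ} (h : StrictMonoOn φ S) {R : Finset (Lab A B C ι)}
    (hR : R.biUnion Lab.supp ⊆ S) : (R.image (Lab.map φ)).card = R.card :=
  card_image_of_injOn ((Lab.lim_injOn h.injOn).mono fun l hl =>
    coe_subset.2 ((subset_biUnion_of_mem Lab.supp hl).trans hR))

lemma cl_image_cell_hub (side : C → Bool) {s : Finset ι} {φ : ι → κ} (h : StrictMonoOn φ s) {i : ι}
    (hi : i ∈ s) : ((cell s : Finset (Lab Empty B C ι)).filter fun l => l.hub side = i).image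
      (Lab.map φ) = (cell (s.image φ)).filter fun l => l.hub side = φ i := by
  rw [← cl_image_cell h, filter_image]
  refine congrArg _ (filter_congr fun l hl => ?_)
  rw [cl_hub_map]
  exact ⟨fun e => by rw [e], h.injOn ((cl_mem_cell.1 hl).1 ▸ cl_hub_mem side l) hi⟩

end

theorem clean' (n D m p : ℕ) (hp : 4 * (D * 2 ^ (6 * n + 2)) < p) (X C Y1 Y2 : Type) [Fintype X]
    [Fintype C] [Fintype Y1] [Fintype Y2] [DecidableEq X] [DecidableEq C] [DecidableEq Y1]
    [DecidableEq Y2] (side : C → Bool) : ∃ N : ℕ,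
    ∀ ρ : Finset (Lab Empty X C (Fin N)) → Finset (Lab Empty Y1 Y2 (Fin N)) → ℤ,
    BM ρ → FreeB n ρ {l | l.valid} {l | l.valid} →
    (∀ s s', s ≠ s' → ρ (cell s) (cell s') ≤ D) →
    (∀ s, ((cell s : Finset (Lab Empty Y1 Y2 (Fin N))).card ≤ p) ∧
      ((cell s : Finset (Lab Empty Y1 Y2 (Fin N))).Nonempty → ∀ i ∈ s,
        (p : ℤ) ≤ ρ ((cell s).filter fun l => l.hub side = i) (cell s))) →
    ∃ (u : Fin m ↪o Fin N) (R0 : Finset (Lab Empty X C (Fin N)))
      (K : Finset (Lab Empty Y1 Y2 (Fin N))),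
      (∀ l ∈ R0, l.valid ∧ l.hub side ∉ univ.image u) ∧ (∀ l ∈ K, l.valid) ∧
      R0.card = K.card ∧ ρ R0 K = K.card ∧
      ∀ s ⊆ univ.image u, (cell s : Finset (Lab Empty Y1 Y2 (Fin N))).Nonempty →
        ∃ y ∈ cell s, y ∉ K ∧
          ρ (R0 ∪ (ovr (univ.image u)).filter fun l => l.hub side ∉ s) (insert y K) = K.card ∧
          ∀ i ∈ s, ρ (R0 ∪ (ovr (univ.image u)).filter fun l => l.hub side = i) (insert y K) =
            K.card + 1 := by
  by_contra hc
  simp only [not_exists, not_forall] at hc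
  obtain ⟨ρ, hI, hB, hF, hL⟩ := limit n Empty X C Empty Y1 Y2 (fun N ρ =>
    (∀ s s', s ≠ s' → ρ (cell s) (cell s') ≤ D) ∧
    (∀ s, ((cell s : Finset (Lab Empty Y1 Y2 (Fin N))).card ≤ p) ∧
      ((cell s : Finset (Lab Empty Y1 Y2 (Fin N))).Nonempty → ∀ i ∈ s,
        (p : ℤ) ≤ ρ ((cell s).filter fun l => l.hub side = i) (cell s))) ∧
    ¬ ∃ (u : Fin m ↪o Fin N) (R0 : Finset (Lab Empty X C (Fin N)))
      (K : Finset (Lab Empty Y1 Y2 (Fin N))),
      (∀ l ∈ R0, l.valid ∧ l.hub side ∉ univ.image u) ∧ (∀ l ∈ K, l.valid) ∧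
      R0.card = K.card ∧ ρ R0 K = K.card ∧
      ∀ s ⊆ univ.image u, (cell s : Finset (Lab Empty Y1 Y2 (Fin N))).Nonempty →
        ∃ y ∈ cell s, y ∉ K ∧
          ρ (R0 ∪ (ovr (univ.image u)).filter fun l => l.hub side ∉ s) (insert y K) = K.card ∧
          ∀ i ∈ s, ρ (R0 ∪ (ovr (univ.image u)).filter fun l => l.hub side = i) (insert y K) =
            K.card + 1) fun N => by
    obtain ⟨ρ, a, b, c, d, e⟩ := hc N
    exact ⟨ρ, ⟨c, d, by simpa only [not_exists] using e⟩, a, b⟩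
  obtain ⟨I, -, hIc⟩ := (Set.infinite_univ (α := ℝ)).exists_subset_card_eq m
  obtain ⟨R0, K, a1, a2, a3, a4, a5⟩ := cl_limit (side := side) (D := D) (p := p) hI hB hF
    hp (fun s s' ne => by
      obtain ⟨N, ρ', φ, ⟨k, -⟩, hφ, e⟩ := hL (s ∪ s')
      rw [e _ _ ((cl_supp_cell subset_rfl).trans subset_union_left)
        ((cl_supp_cell subset_rfl).trans subset_union_right),
        cl_image_cell (hφ.mono (coe_subset.2 subset_union_left)),
        cl_image_cell (hφ.mono (coe_subset.2 subset_union_right))]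
      exact k _ _ fun c => ne (cl_image_inj hφ.injOn subset_union_left subset_union_right c))
    (fun s => by
      obtain ⟨N, ρ', φ, ⟨-, k, -⟩, hφ, e⟩ := hL s
      obtain ⟨k1, k2⟩ := k (s.image φ)
      refine ⟨?_, fun ne i hi => ?_⟩
      · rwa [← cl_image_cell hφ, cl_card_map hφ (cl_supp_cell subset_rfl)] at k1
      · rw [e _ _ (cl_supp_cell (filter_subset _ _)) (cl_supp_cell subset_rfl),
          cl_image_cell_hub side hφ hi, cl_image_cell hφ]
        exact k2 (cl_image_cell (A := Empty) (B := Y1) (C := Y2) hφ ▸ ne.image _) _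
          (mem_image_of_mem _ hi)) I
  obtain ⟨N, ρ', φ, ⟨-, -, k⟩, hφ, e⟩ := hL (I ∪ R0.biUnion Lab.supp ∪ K.biUnion Lab.supp)
  generalize hS : I ∪ R0.biUnion Lab.supp ∪ K.biUnion Lab.supp = S at hφ e
  have s1 : I ⊆ S := hS ▸ subset_union_left.trans subset_union_left
  have s2 : R0.biUnion Lab.supp ⊆ S := hS ▸ subset_union_right.trans subset_union_left
  have s3 : K.biUnion Lab.supp ⊆ S := hS ▸ subset_union_right
  have hφI : StrictMonoOn φ I := hφ.mono (coe_subset.2 s1)
  let u : Fin m ↪o Fin N := OrderEmbedding.ofStrictMono (fun i => φ (I.orderEmbOfFin hIc i))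
    fun i j hij => hφI (I.orderEmbOfFin_mem hIc i) (I.orderEmbOfFin_mem hIc j)
      ((I.orderEmbOfFin hIc).strictMono hij)
  have hu : univ.image u = I.image φ := by
    conv_rhs => rw [← image_orderEmbOfFin_univ I hIc, image_image]
    rfl
  have c1 := cl_card_map hφ s2
  have c2 := cl_card_map hφ s3
  refine k ⟨u, R0.image (Lab.map φ), K.image (Lab.map φ), fun l hl => ?_, fun l hl => ?_,
    by omega, by rw [← e _ _ s2 s3, c2, a4], fun s' hs' ne => ?_⟩
  · obtain ⟨l', hl', rfl⟩ := mem_image.1 hl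
    refine ⟨Lab.lim_valid_map hφ (coe_subset.2 ((subset_biUnion_of_mem Lab.supp hl').trans s2))
      (a1 l' hl').1, fun c => ?_⟩
    rw [hu, cl_hub_map] at c
    obtain ⟨x, hx, c⟩ := mem_image.1 c
    exact (a1 l' hl').2 (hφ.injOn (s1 hx) (s2 (cl_hub_supp hl')) c ▸ hx)
  · obtain ⟨l', hl', rfl⟩ := mem_image.1 hl
    exact Lab.lim_valid_map hφ (coe_subset.2 ((subset_biUnion_of_mem Lab.supp hl').trans s3))
      (a2 l' hl')
  · rw [hu] at hs' ⊢
    obtain ⟨s, hs, rfl⟩ := subset_image_iff.1 hs'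
    have hφs : StrictMonoOn φ s := hφI.mono (coe_subset.2 hs)
    rw [← cl_image_cell hφs, image_nonempty] at ne
    obtain ⟨y, y1, y2, y3, y4⟩ := a5 s hs ne
    have s4 : (insert y K).biUnion Lab.supp ⊆ S := by
      rw [biUnion_insert, (cl_mem_cell.1 y1).1]
      exact union_subset (hs.trans s1) s3
    have s5 : ∀ (P : Lab Empty X C ℝ → Prop) [DecidablePred P],
        (R0 ∪ (ovr I).filter P).biUnion Lab.supp ⊆ S := fun P _ => by
      rw [union_biUnion]
      exact union_subset s2 ((cl_supp_ovr (filter_subset _ _)).trans s1)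
    refine ⟨y.map φ, cl_image_cell (A := Empty) (B := Y1) (C := Y2) hφs ▸ mem_image_of_mem _ y1,
      fun c => ?_, ?_, fun i' hi' => ?_⟩
    · have := cl_card_map hφ s4
      rw [image_insert, insert_eq_of_mem c, card_insert_of_notMem y2] at this
      omega
    · rw [e _ _ (s5 _) s4, image_union, image_insert, cl_image_filter hφI
        (Q := fun l => l.hub side ∉ s.image φ) fun l hl => ?_] at y3
      · rw [y3, c2]
      · rw [cl_hub_map]
        refine not_congr ⟨mem_image_of_mem _, fun c => ?_⟩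
        obtain ⟨x, hx, c⟩ := mem_image.1 c
        exact hφI.injOn (hs hx) ((cl_mem_ovr.1 hl).1 (cl_hub_mem side l)) c ▸ hx
    · obtain ⟨i, hi, rfl⟩ := mem_image.1 hi'
      have y5 := y4 i hi
      rw [e _ _ (s5 _) s4, image_union, image_insert, cl_image_filter hφI
        (Q := fun l => l.hub side = φ i) fun l hl => ?_] at y5
      · rw [y5, c2]
      · rw [cl_hub_map]
        exact ⟨fun c => by rw [c], hφI.injOn ((cl_mem_ovr.1 hl).1 (cl_hub_mem side l)) (hs hi)⟩

theorem clean : StClean := fun n D m => ⟨_, clean' n D m _ (Nat.lt_succ_self _)⟩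

end Pool.Agent.Lib.MP_a4b0c4_co.J
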