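import Pool.Agent.Lib.MP_a4b0c4_co.JConn

set_option autoImplicit false
set_option linter.unusedSectionVars false
set_option linter.unusedVariables false

open Finset

namespace Pool.Agent.Lib.MP_a4b0c4_co.J

variable {α ι : Type} [DecidableEq α] [DecidableEq ι] {r r' : Finset α → ℤ}

lemma Cntd.congr {P : Finset α} (h : Cntd r P) (e : ∀ X ⊆ P, r X = r' X) : Cntd r' P :=
  fun A hA k => h A hA (by rwa [e A hA, e _ sdiff_subset, e P subset_rfl])

lemma cntd_empty : Cntd r ∅ := fun A hA _ => .inl (subset_empty.1 hA)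
lemma cntd_single (x : α) : Cntd r {x} := fun A hA _ => subset_singleton_iff.1 hA

namespace Rk

/-- separators restrict to subsets -/
lemma sep_sub (h : Rk r) {A B A' B' : Finset α} (k : r A + r B ≤ r (A ∪ B)) (hA : A' ⊆ A)
    (hB : B' ⊆ B) : r A' + r B' ≤ r (A' ∪ B') := by
  have := h.loc_mono hA hB; simp only [loc] at this; linarith

/-- contraction inside the other side of a separation -/
lemma con_of_sep (h : Rk r) {A B X C : Finset α} (k : r A + r B ≤ r (A ∪ B)) (hX : X ⊆ A)
    (hC : C ⊆ B) : J.con r C X = r X := by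
  have := h.sep_sub k hX hC
  have := h.union_le (subset_refl (X ∪ C))
  simp only [J.con]; linarith

lemma skew_sub (h : Rk r) {s t : Finset ι} {A B : ι → Finset α} (k : Skew r s A) (ht : t ⊆ s)
    (hB : ∀ i ∈ t, B i ⊆ A i) : Skew r t B := by
  have h0 : ∀ (u : Finset ι), u ⊆ s → Skew r u A := fun u hu => by
    have a := h.biUnion_le u A
    have b := h.biUnion_le (s \ u) A
    have c := h.union_le (X := u.biUnion A) (Y := (s \ u).biUnion A) (Z := s.biUnion A) (by grind)
    have d := sum_sdiff (f := fun i => r (A i)) hu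
    unfold Skew at *; linarith
  induction t using Finset.induction_on with
  | empty => simp [Skew, h.emp]
  | insert i t hi ih =>
    have a := ih (by grind) (by grind)
    have b := h0 _ ht
    have c := h0 t (by grind)
    unfold Skew at *
    rw [biUnion_insert, sum_insert hi] at *
    have d := h.sep_sub (A := A i) (B := t.biUnion A) (A' := B i) (B' := t.biUnion B) (by linarith)
      (by grind) (by grind)
    have e := h.union_le (subset_refl (B i ∪ t.biUnion B))
    linarith

lemma skew_sep (h : Rk r) {s t u : Finset ι} {A : ι → Finset α} (k : Skew r s A) (ht : t ⊆ s)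
    (hu : u ⊆ s) (d : Disjoint t u) :
    r (t.biUnion A) + r (u.biUnion A) ≤ r (t.biUnion A ∪ u.biUnion A) := by
  have a := h.skew_sub k ht fun _ _ => subset_rfl
  have b := h.skew_sub k hu fun _ _ => subset_rfl
  have c := h.skew_sub k (union_subset ht hu) fun _ _ => subset_rfl
  unfold Skew at *
  rw [sum_union d, union_biUnion] at c; linarith

/-- contracting inside the other members does not change a member -/
lemma skew_con (h : Rk r) {s : Finset ι} {A : ι → Finset α} (k : Skew r s A) {i : ι} (hi : i ∈ s)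
    {X C : Finset α} (hX : X ⊆ A i) (hC : C ⊆ (s.erase i).biUnion A) : J.con r C X = r X := by
  have := h.skew_sep k (t := {i}) (u := s.erase i) (by grind) (by grind) (by simp)
  rw [singleton_biUnion] at this
  exact h.con_of_sep this hX hC

lemma skew_of_con (h : Rk r) {s : Finset ι} {A : ι → Finset α}
    (k : ∀ i ∈ s, r (A i) ≤ J.con r ((s.erase i).biUnion A) (A i)) : Skew r s A := by
  induction s using Finset.induction_on with
  | empty => simp [Skew, h.emp]
  | insert i s hi ih =>
    have a := ih fun j hj => (k j (by grind)).trans (h.con_anti (by grind) _)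
    have b := k i (by grind)
    have c := h.union_le (subset_refl (A i ∪ s.biUnion A))
    rw [erase_insert hi] at b
    unfold Skew J.con at *
    rw [biUnion_insert, sum_insert hi]; linarith

/-- closures of skew sets are skew -/
lemma skew_cl (h : Rk r) {s : Finset ι} {A B : ι → Finset α} (k : Skew r s A)
    (hB : ∀ i ∈ s, ∀ e ∈ B i, Cl r (A i) e) : Skew r s B := by
  refine h.skew_sub (A := fun i => A i ∪ B i) ?_ subset_rfl fun _ _ => subset_union_right
  have a := h.biUnion_le s fun i => A i ∪ B i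
  have b := h.mono (X := s.biUnion A) (Y := s.biUnion fun i => A i ∪ B i) (by grind)
  have c : ∑ i ∈ s, r (A i ∪ B i) = ∑ i ∈ s, r (A i) := sum_congr rfl fun i hi => h.span (hB i hi)
  unfold Skew at *; linarith

/-- contraction of subsets of the members -/
lemma skew_con_sub (h : Rk r) {s : Finset ι} {A C : ι → Finset α} (k : Skew r s A)
    (hC : ∀ i ∈ s, C i ⊆ A i) {i : ι} (hi : i ∈ s) {X : Finset α} (hX : X ⊆ A i) :
    J.con r (s.biUnion C) X = J.con r (C i) X := by
  have a := h.skew_con k hi (X := X ∪ C i) (C := (s.erase i).biUnion C) (by grind) (by grind)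
  have b := h.skew_con k hi (X := C i) (C := (s.erase i).biUnion C) (by grind) (by grind)
  simp only [J.con] at *
  rw [show X ∪ C i ∪ (s.erase i).biUnion C = X ∪ s.biUnion C by grind] at a
  rw [show C i ∪ (s.erase i).biUnion C = s.biUnion C by grind] at b
  linarith

lemma skew_con_skew (h : Rk r) {s : Finset ι} {A C : ι → Finset α} (k : Skew r s A)
    (hC : ∀ i ∈ s, C i ⊆ A i) : Skew (J.con r (s.biUnion C)) s A := by
  have a := h.skew_sub k subset_rfl hC
  have b : ∑ i ∈ s, J.con r (s.biUnion C) (A i) = ∑ i ∈ s, (r (A i) - r (C i)) :=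
    sum_congr rfl fun i hi => by
      rw [h.skew_con_sub k hC hi subset_rfl, J.con, union_eq_left.2 (hC i hi)]
  unfold Skew at *
  rw [b, sum_sub_distrib, J.con, union_eq_left.2 (by grind)]; linarith

lemma skew_ind (h : Rk r) {s : Finset ι} {A : ι → Finset α} (k : Skew r s A)
    (hA : ∀ i ∈ s, Ind r (A i)) : Ind r (s.biUnion A) := by
  have a : ((s.biUnion A).card : ℤ) ≤ ∑ i ∈ s, ((A i).card : ℤ) := by exact_mod_cast card_biUnion_le
  have b : ∑ i ∈ s, r (A i) = ∑ i ∈ s, ((A i).card : ℤ) := sum_congr rfl hA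
  rw [h.ind_iff]; unfold Skew at k; linarith

lemma skew_of_ind (h : Rk r) {s : Finset ι} {A : ι → Finset α} (k : Ind r (s.biUnion A))
    (d : PD A) : Skew r s A := by
  have b : ∑ i ∈ s, r (A i) = ∑ i ∈ s, ((A i).card : ℤ) :=
    sum_congr rfl fun i hi => h.ind_sub k (subset_biUnion_of_mem A hi)
  unfold Skew
  rw [b, k, card_biUnion fun i _ j _ ij => d i j ij]; push_cast; rfl

/-- the connectivity of a set in a direct sum -/
lemma lam_skew (h : Rk r) {s : Finset ι} {A : ι → Finset α} (k : Skew r s A) (U : Finset α) :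
    lam r (s.biUnion A) (U ∩ s.biUnion A) = ∑ i ∈ s, lam r (A i) (U ∩ A i) := by
  have a := h.skew_sub k (B := fun i => U ∩ A i) subset_rfl fun _ _ => inter_subset_right
  have b := h.skew_sub k (B := fun i => A i \ (U ∩ A i)) subset_rfl fun _ _ => sdiff_subset
  simp only [lam, Skew, sum_sub_distrib, sum_add_distrib] at *
  rw [← a, ← b, ← k, show (s.biUnion fun i => U ∩ A i) = U ∩ s.biUnion A by
      ext; simp only [mem_biUnion, mem_inter]; tauto,
    show (s.biUnion fun i => A i \ (U ∩ A i)) = s.biUnion A \ (U ∩ s.biUnion A) by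
      ext; simp only [mem_biUnion, mem_inter, mem_sdiff]; clear * -; grind]

lemma cntd_lam (h : Rk r) {P U : Finset α} (c : Cntd r P) (h1 : (U ∩ P).Nonempty)
    (h2 : (P \ U).Nonempty) : 1 ≤ lam r P (U ∩ P) := by
  by_contra k
  rcases c (U ∩ P) inter_subset_right (by simp only [lam] at k; omega) with e | e
  · exact h1.ne_empty e
  · obtain ⟨x, hx⟩ := h2
    have : x ∈ U ∩ P := by rw [e]; grind
    grind

lemma cntd_cl (h : Rk r) {P : Finset α} {e f : α} (c : Cntd r P) (he : e ∈ P) (hf : f ∈ P)
    (ne : f ≠ e) : Cl r (P.erase e) e ∧ r {e} = 1 := by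
  have a := h.cntd_lam (U := {e}) c ⟨e, by grind⟩ ⟨f, by grind⟩
  have b := h.single e
  have d := h.mono (erase_subset e P)
  rw [singleton_inter_of_mem he, lam, sdiff_singleton_eq_erase] at a
  unfold Cl; rw [insert_erase he]; omega

/-- Tutte: deletion or contraction keeps a matroid connected -/
lemma cntd_tutte (h : Rk r) {P : Finset α} {e : α} (c : Cntd r P) (he : e ∈ P) :
    Cntd r (P.erase e) ∨ Cntd (J.con r {e}) (P.erase e) := by
  by_contra hn
  simp only [Cntd, not_or, not_forall] at hn
  obtain ⟨⟨A, a1, a2, a3, a4⟩, B, b1, b2, b3, b4⟩ := hn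
  have key : ∀ X Y : Finset α, X ⊆ P.erase e → Y ⊆ P.erase e →
      r X + r (P.erase e \ X) ≤ r (P.erase e) →
      J.con r {e} Y + J.con r {e} (P.erase e \ Y) ≤ J.con r {e} (P.erase e) →
      (X ∩ Y).Nonempty → (P.erase e \ (X ∪ Y)).Nonempty → False := fun X Y hX hY k1 k2 n1 n2 => by
    have c1 := h.cntd_lam (U := X ∩ Y) c (by rwa [inter_eq_left.2 (by grind)]) ⟨e, by grind⟩
    have c2 := h.cntd_lam (U := insert e (X ∪ Y)) c ⟨e, by grind⟩
      (by obtain ⟨x, hx⟩ := n2; exact ⟨x, by grind⟩)
    rw [inter_eq_left.2 (by grind)] at c1 c2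
    have d1 := h.sub (X := X ∩ Y) (Y := insert e (X ∪ Y)) (A := X) (B := Y ∪ {e}) (by grind)
      (by grind) (by grind)
    have d2 := h.sub (X := P \ insert e (X ∪ Y)) (Y := P \ (X ∩ Y)) (A := P.erase e \ X)
      (B := P.erase e \ Y ∪ {e}) (by grind) (by grind) (by grind)
    have d4 := h.single e
    have d5 := h.mono (erase_subset e P)
    simp only [lam, J.con] at *
    rw [show P.erase e ∪ {e} = P by grind] at k2
    omega
  have b2' : J.con r {e} (P.erase e \ B) + J.con r {e} (P.erase e \ (P.erase e \ B)) ≤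
      J.con r {e} (P.erase e) := by rw [show P.erase e \ (P.erase e \ B) = B by grind]; linarith
  have k1 := key A B a1 b1 a2 b2
  have k2 := key A _ a1 sdiff_subset a2 b2'
  obtain ⟨x, hx⟩ := nonempty_iff_ne_empty.2 a3
  obtain ⟨y, hy⟩ := nonempty_iff_ne_empty.2 b3
  obtain ⟨z, hz, hz'⟩ := exists_of_ssubset (lt_of_le_of_ne a1 a4)
  obtain ⟨w, hw, hw'⟩ := exists_of_ssubset (lt_of_le_of_ne b1 b4)
  have : (¬ (A ∩ B).Nonempty ∨ ¬ (P.erase e \ (A ∪ B)).Nonempty) ∧
      (¬ (A ∩ (P.erase e \ B)).Nonempty ∨ ¬ (P.erase e \ (A ∪ P.erase e \ B)).Nonempty) := by tauto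
  simp only [not_nonempty_iff_eq_empty, eq_empty_iff_forall_notMem] at this
  rcases this with ⟨k | k, k' | k'⟩
  · have := k x; have := k' x; grind
  · have := k y; have := k' y; grind
  · have := k w; have := k' w; grind
  · have := k z; have := k' z; grind

/-- a connected matroid has a connected minor on every subset -/
lemma cntd_shrink (h : Rk r) {P Q : Finset α} (c : Cntd r P) (hQ : Q ⊆ P) :
    ∃ C ⊆ P \ Q, Cntd (J.con r C) Q := by
  induction hn : (P \ Q).card generalizing P r with
  | zero =>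
    obtain rfl : P = Q := subset_antisymm (sdiff_eq_empty_iff_subset.1 (card_eq_zero.1 hn)) hQ
    exact ⟨∅, empty_subset _, by rwa [h.con_empty]⟩
  | succ m ih =>
    obtain ⟨e, he⟩ : (P \ Q).Nonempty := card_pos.1 (by omega)
    have hc : (P.erase e \ Q).card = m := by
      rw [show P.erase e \ Q = (P \ Q).erase e by grind, card_erase_of_mem he]; omega
    rcases h.cntd_tutte c (e := e) (by grind) with c' | c'
    · obtain ⟨C, a, b⟩ := ih h c' (by grind) hc
      exact ⟨C, by grind, b⟩
    · obtain ⟨C, a, b⟩ := ih (h.con _) c' (by grind) hc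
      rw [con_con] at b
      exact ⟨_, by grind, b⟩

/-- adding non-loops of the closure keeps a matroid connected -/
lemma cntd_ext (h : Rk r) {P Y : Finset α} (c : Cntd r P) (k : ∀ y ∈ Y, Cl r P y ∧ ¬ Cl r ∅ y) :
    Cntd r (P ∪ Y) := by
  have key : ∀ A ⊆ P ∪ Y, r A + r ((P ∪ Y) \ A) ≤ r (P ∪ Y) → A ∩ P = ∅ → A = ∅ := by
    intro A hA s e
    have e' := eq_empty_iff_forall_notMem.1 e
    refine eq_empty_iff_forall_notMem.2 fun y hy => ?_
    have hY : y ∈ Y := by have := e' y; grind
    have a := h.span fun y hy => (k y hy).1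
    have b := h.mono (X := P) (Y := (P ∪ Y) \ A) fun x hx => by have := e' x; grind
    have d := h.mono (X := insert y ∅) (Y := A) (by grind)
    have := h.not_cl.1 (k y hY).2
    have := h.emp
    omega
  intro A hA s
  have s' := h.sep_sub (A := A) (B := (P ∪ Y) \ A) (A' := A ∩ P) (B' := P \ (A ∩ P))
    (by rwa [union_sdiff_of_subset hA]) (by grind) (by grind)
  rw [union_sdiff_of_subset inter_subset_right] at s'
  rcases c _ inter_subset_right s' with e | e
  · exact .inl (key A hA s e)
  · have := key ((P ∪ Y) \ A) sdiff_subset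
      (by rw [show (P ∪ Y) \ ((P ∪ Y) \ A) = A by grind]; linarith)
      (eq_empty_iff_forall_notMem.2 fun x hx => by
        have : x ∈ A ∩ P := by rw [e]; grind
        grind)
    exact .inr (subset_antisymm hA (sdiff_eq_empty_iff_subset.1 this))

/-- a connected contraction by an independent set without coloops lifts -/
lemma cntd_lift (h : Rk r) {N D : Finset α} (c : Cntd (J.con r D) N) (hD : Ind r D)
    (k : ∀ e ∈ D, Cl r ((N ∪ D).erase e) e) : Cntd r (N ∪ D) := by
  have key : ∀ A ⊆ N ∪ D, r A + r ((N ∪ D) \ A) ≤ r (N ∪ D) → A ⊆ D → A = ∅ := by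
    intro A hA s e
    refine eq_empty_iff_forall_notMem.2 fun y hy => ?_
    have a := k y (e hy)
    have b := h.union_le (X := A.erase y) (Y := (N ∪ D) \ A) (Z := (N ∪ D).erase y) (by grind)
    have d := h.ind_sub hD e
    have f := h.le_card (A.erase y)
    have g := card_erase_add_one hy
    unfold Cl Ind at *
    rw [insert_erase (hA hy)] at a
    omega
  intro A hA s
  have s1 := h.sub (X := D ∩ A) (Y := A ∩ N ∪ D) (A := A) (B := D) (by grind) (by grind) (by grind)
  have s0 : ∀ X : Finset α, r (X ∪ D) ≤ r (X ∪ D) := fun _ => le_rfl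
  have t := h.sep_sub (A := A) (B := (N ∪ D) \ A) (A' := D ∩ A) (B' := D \ A)
    (by rwa [union_sdiff_of_subset hA]) (by grind) (by grind)
  have s2 := h.sub (X := D \ A) (Y := N \ (A ∩ N) ∪ D) (A := (N ∪ D) \ A) (B := D) (by grind)
    (by grind) (by grind)
  have s3 := h.union_le (X := D ∩ A) (Y := D \ A) (Z := D) (by grind)
  rcases c (A ∩ N) inter_subset_right (by simp only [J.con]; linarith) with e | e
  · refine .inl (key A hA s fun x hx => ?_)
    have := notMem_empty x; rw [← e] at this; grind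
  · have := key ((N ∪ D) \ A) sdiff_subset
      (by rw [show (N ∪ D) \ ((N ∪ D) \ A) = A by grind]; linarith) (fun x hx => by
        have : x ∈ N → x ∈ A ∩ N := by rw [e]; exact id
        grind)
    exact .inr (subset_antisymm hA (sdiff_eq_empty_iff_subset.1 this))

lemma cntd_dual (h : Rk r) {P : Finset α} (c : Cntd r P) : Cntd (J.dual r P) P := fun A hA s =>
  c A hA (by have := lam_dual h hA; simp only [lam] at this; linarith)

lemma cntd_par (h : Rk r) {P : Finset α} (c : Par r P) : Cntd r P := fun A hA s => by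
  by_contra k
  push Not at k
  obtain ⟨x, hx⟩ := k.1
  obtain ⟨y, hy, hy'⟩ := exists_of_ssubset (lt_of_le_of_ne hA k.2)
  have := h.mono (singleton_subset_iff.2 hx)
  have := h.mono (X := {y}) (Y := P \ A) (by grind)
  have := c.2 x (hA hx)
  have := c.2 y hy
  have := c.1
  omega

lemma cntd_circ (h : Rk r) {P : Finset α} (c : Circ r P) : Cntd r P := fun A hA s => by
  by_contra k
  push Not at k
  obtain ⟨x, hx⟩ := k.1
  obtain ⟨y, hy, hy'⟩ := exists_of_ssubset (lt_of_le_of_ne hA k.2)
  have i : ∀ z ∈ P, Ind r (P.erase z) := fun z hz => by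
    have := card_erase_add_one hz
    have := c.2 z hz
    unfold Ind; omega
  have a := h.ind_sub (i y hy) (X := A) (by grind)
  have b := h.ind_sub (i x (hA hx)) (X := P \ A) (by grind)
  have := card_sdiff_add_card_eq_card hA
  have := c.1
  unfold Ind at *; omega

/-- decomposition into at most ν components, counted by an additive potential -/
lemma pieces (h : Rk r) (μ : Finset α → ℤ) {Z : Finset α} {ν : ℕ}
    (h1 : ∀ A ⊆ Z, A.Nonempty → r A + r (Z \ A) ≤ r Z → 1 ≤ μ A)
    (h2 : ∀ A ⊆ Z, ∀ B ⊆ Z, Disjoint A B → r A + r B ≤ r (A ∪ B) → μ A + μ B ≤ μ (A ∪ B))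
    (h0 : μ ∅ = 0) (h3 : μ Z ≤ ν) :
    ∃ P : Fin ν → Finset α, PD P ∧ univ.biUnion P = Z ∧ (∀ i, Cntd r (P i)) ∧ Skew r univ P := by
  induction ν generalizing Z with
  | zero =>
    obtain rfl : Z = ∅ := by
      by_contra k
      have := h1 Z subset_rfl (nonempty_iff_ne_empty.2 k) (by simp [h.emp])
      omega
    exact ⟨fun _ => ∅, fun i => i.elim0, by simp, fun i => i.elim0, by simp [Skew, h.emp]⟩
  | succ ν ih =>
    obtain ⟨A, a1, a2, a3, a4⟩ : ∃ A ⊆ Z, r A + r (Z \ A) ≤ r Z ∧ Cntd r A ∧ μ (Z \ A) ≤ ν := by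
      rcases Z.eq_empty_or_nonempty with rfl | ne
      · exact ⟨∅, subset_rfl, by simp [h.emp], cntd_empty, by simp [h0]⟩
      obtain ⟨A, hA, m⟩ := exists_min_image
        (Z.powerset.filter fun A => A.Nonempty ∧ r A + r (Z \ A) ≤ r Z) card
        ⟨Z, by simp [ne, h.emp]⟩
      simp only [mem_filter, mem_powerset] at hA m
      obtain ⟨a1, a2, a3⟩ := hA
      refine ⟨A, a1, a3, fun B hB s => ?_, ?_⟩
      · rcases B.eq_empty_or_nonempty with e | e
        · exact .inl e
        have := h.union_le (X := A \ B) (Y := Z \ A) (Z := Z \ B) (by clear * -; grind)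
        exact .inr (eq_of_subset_of_card_le hB (m B ⟨hB.trans a1, e, by linarith⟩))
      · have := h1 A a1 a2 a3
        have := h2 A a1 (Z \ A) sdiff_subset disjoint_sdiff (by rwa [union_sdiff_of_subset a1])
        rw [union_sdiff_of_subset a1] at this
        push_cast at h3; omega
    obtain ⟨P, p1, p2, p3, p4⟩ := ih (Z := Z \ A) (fun B hB ne s => h1 B (hB.trans sdiff_subset) ne (by
        have := h.union_le (X := A) (Y := (Z \ A) \ B) (Z := Z \ B) (by clear * -; grind)
        linarith))
      (fun B hB B' hB' => h2 B (hB.trans sdiff_subset) B' (hB'.trans sdiff_subset)) a4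
    have q : ∀ i, Disjoint A (P i) := fun i =>
      disjoint_sdiff.mono_right (p2 ▸ subset_biUnion_of_mem P (mem_univ i))
    have u : univ.biUnion (Fin.cons A P : Fin (ν + 1) → Finset α) = Z := by
      rw [← union_sdiff_of_subset a1, ← p2]
      ext x; simp [Fin.exists_fin_succ]
    refine ⟨Fin.cons A P, fun i j ij => ?_, u, fun i => ?_, ?_⟩
    · rcases Fin.eq_zero_or_eq_succ i with rfl | ⟨i, rfl⟩ <;>
        rcases Fin.eq_zero_or_eq_succ j with rfl | ⟨j, rfl⟩
      · exact absurd rfl ij
      · exact q j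
      · exact (q i).symm
      · exact p1 i j fun e => ij (e ▸ rfl)
    · rcases Fin.eq_zero_or_eq_succ i with rfl | ⟨i, rfl⟩
      exacts [a3, p3 i]
    · have := h.union_le (X := A) (Y := Z \ A) (Z := Z) (by clear * -; grind)
      unfold Skew at *
      rw [u, Fin.sum_univ_succ]
      simp only [Fin.cons_zero, Fin.cons_succ]
      rw [← p4, p2]; linarith

end Rk

end Pool.Agent.Lib.MP_a4b0c4_co.J
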