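import Pool.Agent.Lib.MP_a4b0c4_co.JBasic

set_option autoImplicit false
set_option linter.unusedSectionVars false
set_option linter.unusedVariables false

open Finset

namespace Pool.Agent.Lib.MP_a4b0c4_co.J

variable {α : Type} [DecidableEq α] {r : Finset α → ℤ} {E S T : Finset α}

lemma lam_compl {Z : Finset α} (hZ : Z ⊆ E) : lam r E (E \ Z) = lam r E Z := by
  simp only [lam]; rw [show E \ (E \ Z) = Z by grind]; ring

lemma lam_dual (h : Rk r) {Z : Finset α} (hZ : Z ⊆ E) : lam (dual r E) E Z = lam r E Z := by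
  simp only [lam, dual, sdiff_self, inter_self, bot_eq_empty, h.emp]
  rw [show E \ (E \ Z) = Z by grind, show (E \ Z) ∩ E = E \ Z by grind, inter_eq_left.2 hZ]
  have := card_sdiff_add_card_eq_card hZ
  omega

lemma loc_comm (A B : Finset α) : loc r A B = loc r B A := by
  simp only [loc]; rw [union_comm]; ring

lemma Conn.le {k k' : ℤ} (h : Conn r E S T k) (hk : k' ≤ k) : Conn r E S T k' :=
  fun Z a b => hk.trans (h Z a b)

lemma Conn.mono {k : ℤ} {S' T' : Finset α} (h : Conn r E S T k) (hS : S ⊆ S') (hT : T ⊆ T') :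
    Conn r E S' T' k := fun Z a b => h Z (hS.trans a) (by grind)

lemma Conn.symm {k : ℤ} (h : Conn r E S T k) (hS : S ⊆ E) : Conn r E T S k := fun Z a b => by
  rw [← lam_compl (b.trans sdiff_subset)]
  exact h _ (by grind) (by grind)

lemma Conn.dual (hr : Rk r) {k : ℤ} (h : Conn r E S T k) : Conn (dual r E) E S T k :=
  fun Z a b => by rw [lam_dual hr (b.trans sdiff_subset)]; exact h Z a b

lemma WL.dual (hr : Rk r) {X : Finset α} (h : WL r E X) : WL (dual r E) E X :=
  fun Z a => by rw [lam_dual hr a]; exact h Z a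

lemma WL.conn {X : Finset α} (h : WL r E X) {k : ℕ} (hS : k ≤ (S ∩ X).card)
    (hT : k ≤ (T ∩ X).card) : Conn r E S T k := fun Z a b => by
  have h1 := h Z (b.trans sdiff_subset)
  have h2 := card_le_card (s := S ∩ X) (t := X ∩ Z) (by grind)
  have h3 := card_le_card (s := T ∩ X) (t := X \ Z) (by grind)
  omega

namespace Rk

lemma loc_nonneg (h : Rk r) (A B : Finset α) : 0 ≤ loc r A B := by
  have := h.union_le (subset_refl (A ∪ B)); simp only [loc]; linarith

lemma loc_mono (h : Rk r) {A B A' B' : Finset α} (hA : A ⊆ A') (hB : B ⊆ B') :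
    loc r A B ≤ loc r A' B' := by
  have := h.sub (X := A) (Y := A' ∪ B) (A := A') (B := A ∪ B) hA (by grind) (by grind)
  have := h.sub (X := B) (Y := A' ∪ B') (A := B') (B := A' ∪ B) hB (by grind) (by grind)
  simp only [loc]; linarith

lemma loc_le_lam (h : Rk r) {A B Z : Finset α} (hZ : Z ⊆ E) (hA : A ⊆ Z) (hB : B ⊆ E \ Z) :
    loc r A B ≤ lam r E Z := by
  have := h.loc_mono hA hB
  simp only [loc, lam] at *
  rwa [show Z ∪ E \ Z = E by grind] at this

lemma lam_nonneg (h : Rk r) (E Z : Finset α) : 0 ≤ lam r E Z := by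
  have := h.union_le (X := Z) (Y := E \ Z) (Z := E) (by grind); simp only [lam]; linarith

lemma lam_le_rk (h : Rk r) (E Z : Finset α) : lam r E Z ≤ r Z := by
  have := h.mono (sdiff_subset (s := E) (t := Z)); simp only [lam]; linarith

lemma lam_subm (h : Rk r) (E X Y : Finset α) :
    lam r E (X ∪ Y) + lam r E (X ∩ Y) ≤ lam r E X + lam r E Y := by
  have := h.subm X Y
  have := h.sub (X := E \ (X ∪ Y)) (Y := E \ (X ∩ Y)) (A := E \ X) (B := E \ Y) (by grind)
    (by grind) (by grind)
  simp only [lam]; linarith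

lemma lam_posi (h : Rk r) {X Y : Finset α} (hX : X ⊆ E) (hY : Y ⊆ E) :
    lam r E (X \ Y) + lam r E (Y \ X) ≤ lam r E X + lam r E Y := by
  have := h.sub (X := X \ Y) (Y := E \ (Y \ X)) (A := X) (B := E \ Y) (by grind) (by grind)
    (by grind)
  have := h.sub (X := Y \ X) (Y := E \ (X \ Y)) (A := Y) (B := E \ X) (by grind) (by grind)
    (by grind)
  simp only [lam]; linarith

lemma lam_union (h : Rk r) (E X Y : Finset α) : lam r E (X ∪ Y) ≤ lam r E X + lam r E Y := by
  have := h.lam_subm E X Y; have := h.lam_nonneg E (X ∩ Y); linarith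
lemma lam_inter (h : Rk r) (E X Y : Finset α) : lam r E (X ∩ Y) ≤ lam r E X + lam r E Y := by
  have := h.lam_subm E X Y; have := h.lam_nonneg E (X ∪ Y); linarith
lemma lam_sdiff (h : Rk r) {X Y : Finset α} (hX : X ⊆ E) (hY : Y ⊆ E) :
    lam r E (X \ Y) ≤ lam r E X + lam r E Y := by
  have := h.lam_posi hX hY; have := h.lam_nonneg E (Y \ X); linarith

/-- connectivity is minor monotone -/
lemma lam_minor (h : Rk r) {C E' Z Z' : Finset α} (hC : C ⊆ E) (hE : E' ⊆ E) (hZ : Z ⊆ E)
    (h1 : Z' ⊆ E') (h2 : Z' ⊆ Z ∪ C) (h3 : E' \ Z' ⊆ (E \ Z) ∪ C) :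
    lam (J.con r C) E' Z' ≤ lam r E Z := by
  have a := (h.con C).loc_mono h2 h3
  have b := h.sub (X := Z ∩ C) (Y := Z ∪ C) (A := Z) (B := C) (by grind) (by grind) (by grind)
  have c := h.sub (X := C \ Z) (Y := (E \ Z) ∪ C) (A := E \ Z) (B := C) (by grind) (by grind)
    (by grind)
  have d := h.union_le (X := Z ∩ C) (Y := C \ Z) (Z := C) (by grind)
  simp only [loc, lam, J.con] at *
  rw [show Z' ∪ E' \ Z' = E' by grind, show Z ∪ C ∪ C = Z ∪ C by grind,
    show E \ Z ∪ C ∪ C = E \ Z ∪ C by grind, show Z ∪ C ∪ (E \ Z ∪ C) ∪ C = E by grind] at a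
  linarith

lemma lam_del (h : Rk r) {E' Z : Finset α} (hE : E' ⊆ E) (hZ : Z ⊆ E) :
    lam r E' (Z ∩ E') ≤ lam r E Z := by
  have := h.lam_minor (C := ∅) (Z' := Z ∩ E') (empty_subset _) hE hZ (by grind) (by grind) (by grind)
  rwa [h.con_empty] at this

lemma conn_of_minor (h : Rk r) {C E' : Finset α} {k : ℤ} (hC : C ⊆ E) (hE : E' ⊆ E)
    (hS : S ⊆ E') (c : Conn (J.con r C) E' S T k) : Conn r E S T k := fun Z a b =>
  (c (Z ∩ E') (by grind) (by grind)).trans
    (h.lam_minor hC hE (b.trans sdiff_subset) (by grind) (by grind) (by grind))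

lemma conn_of_del (h : Rk r) {E' : Finset α} {k : ℤ} (hE : E' ⊆ E)
    (hS : S ⊆ E') (c : Conn r E' S T k) : Conn r E S T k :=
  h.conn_of_minor (empty_subset _) hE hS (by rwa [h.con_empty])

lemma conn_of_loc (h : Rk r) {C : Finset α} (hC : C ⊆ E) (hT : T ⊆ E) :
    Conn r E S T (loc (J.con r C) S T) := fun Z a b =>
  ((h.con C).loc_le_lam (E := E) (Z := Z) (by grind) a (by grind)).trans
    (h.lam_minor hC subset_rfl (by grind) (by grind) (by grind) (by grind))

/-- splitting along a subset: restriction plus contraction -/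
lemma lam_split (h : Rk r) {A U : Finset α} (hA : A ⊆ E) :
    lam r A (U ∩ A) + lam (J.con r A) (E \ A) (U \ A) ≤ lam r E U := by
  have := h.sub (X := U ∩ A) (Y := U \ A ∪ A) (A := U) (B := A) (by grind) (by grind) (by grind)
  have := h.sub (X := A \ (U ∩ A)) (Y := (E \ A) \ (U \ A) ∪ A) (A := E \ U) (B := A) (by grind)
    (by grind) (by grind)
  simp only [lam, J.con]
  rw [show E \ A ∪ A = E by grind]; linarith

/-- Tutte linking, one element -/
lemma tutte1 (h : Rk r) {k : ℤ} {e : α} (he : e ∈ E) (hS : e ∉ S) (hT : e ∉ T)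
    (c : Conn r E S T k) :
    Conn r (E.erase e) S T k ∨ Conn (J.con r {e}) (E.erase e) S T k := by
  by_contra hn
  simp only [Conn, not_or, not_forall, not_le] at hn
  obtain ⟨⟨X, a1, a2, a3⟩, Y, b1, b2, b3⟩ := hn
  have c1 := c (X ∩ Y) (by grind) (by grind)
  have c2 := c (insert e (X ∪ Y)) (by grind) (by grind)
  have d1 := h.sub (X := X ∩ Y) (Y := insert e (X ∪ Y)) (A := X) (B := Y ∪ {e}) (by grind)
    (by grind) (by grind)
  have d2 := h.sub (X := E \ insert e (X ∪ Y)) (Y := E \ (X ∩ Y)) (A := E.erase e \ X)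
    (B := E.erase e \ Y ∪ {e}) (by grind) (by grind) (by grind)
  have d3 := h.union_le (X := E.erase e) (Y := {e}) (Z := E) (by grind)
  have d4 := h.single e
  have d5 := h.mono (erase_subset e E)
  simp only [lam, J.con] at *
  rw [show E.erase e ∪ {e} = E by grind] at b3
  omega

/-- Tutte linking theorem with a contraction set independent modulo both sides -/
lemma tutte (h : Rk r) {k : ℤ} (hS : S ⊆ E) (hT : T ⊆ E) (d : Disjoint S T) (c : Conn r E S T k) :
    ∃ C ⊆ E \ (S ∪ T), Ind (J.con r S) C ∧ Ind (J.con r T) C ∧ k ≤ loc (J.con r C) S T := by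
  have h1 : ∃ C ⊆ E \ (S ∪ T), k ≤ loc (J.con r C) S T := by
    induction hn : (E \ (S ∪ T)).card generalizing E r with
    | zero =>
      have e := card_eq_zero.1 hn
      refine ⟨∅, empty_subset _, ?_⟩
      have := c S subset_rfl (by grind [disjoint_left])
      have e1 : E \ S = T := by
        ext x; have := notMem_empty x; rw [← e] at this; grind [disjoint_left]
      have e2 : E = S ∪ T := by
        ext x; have := notMem_empty x; rw [← e] at this; grind
      rw [h.con_empty]; simp only [lam, loc] at *; rw [e1] at this; rwa [← e2]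
    | succ m ih =>
      obtain ⟨e, he⟩ : (E \ (S ∪ T)).Nonempty := card_pos.1 (by omega)
      have hc : (E.erase e \ (S ∪ T)).card = m := by
        rw [show E.erase e \ (S ∪ T) = (E \ (S ∪ T)).erase e by grind, card_erase_of_mem he]; omega
      rcases h.tutte1 (e := e) (by grind) (by grind) (by grind) c with c' | c'
      · obtain ⟨C, a, b⟩ := ih h (by grind) (by grind) c' hc
        exact ⟨C, by grind, b⟩
      · obtain ⟨C, a, b⟩ := ih (h.con _) (by grind) (by grind) c' hc
        rw [con_con] at b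
        exact ⟨_, by grind, b⟩
  obtain ⟨C, a, b⟩ := h1
  have key : ∀ (S T C : Finset α) (e : α), e ∈ C → Cl r (C.erase e ∪ S) e →
      loc (J.con r C) S T ≤ loc (J.con r (C.erase e)) S T := fun S T C e he k => by
    have k1 := h.cl_mono (B := S ∪ T ∪ C.erase e) (by grind) k
    have k2 := h.sub (X := C.erase e) (Y := T ∪ C) (A := C) (B := T ∪ C.erase e) (by grind)
      (by grind) (by grind)
    simp only [loc, J.con, Cl] at *
    rw [show insert e (C.erase e ∪ S) = S ∪ C by grind, union_comm _ S] at k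
    rw [show insert e (S ∪ T ∪ C.erase e) = S ∪ T ∪ C by grind] at k1
    linarith
  induction C using Finset.strongInduction with
  | H C ih =>
    by_cases k : ∃ e ∈ C, Cl r (C.erase e ∪ S) e ∨ Cl r (C.erase e ∪ T) e
    · obtain ⟨e, he, k⟩ := k
      refine ih (C.erase e) (erase_ssubset he) (by grind) (b.trans ?_)
      rcases k with k | k
      · exact key S T C e he k
      · rw [loc_comm S, loc_comm S]; exact key T S C e he k
    · push Not at k
      refine ⟨C, a, h.ind_of_leaf fun J hJ ⟨e, he⟩ => ⟨e, he, fun m => (k e (hJ he)).1 ?_⟩,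
        h.ind_of_leaf fun J hJ ⟨e, he⟩ => ⟨e, he, fun m => (k e (hJ he)).2 ?_⟩, b⟩ <;>
      exact h.cl_mono (by grind) m

end Rk

/-- minimum order of a cut containing X and avoiding T -/
noncomputable def kap (r : Finset α → ℤ) (E T X : Finset α) : ℤ :=
  ((E \ T).powerset.inf' ⟨∅, by simp⟩ fun Z => lam r E (Z ∪ X ∩ (E \ T)))

lemma kap_le {X Z : Finset α} (h1 : X ∩ (E \ T) ⊆ Z) (h2 : Z ⊆ E \ T) : kap r E T X ≤ lam r E Z := by
  have := inf'_le (fun Z => lam r E (Z ∪ X ∩ (E \ T))) (mem_powerset.2 h2)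
  rwa [union_eq_left.2 h1] at this

lemma kap_ex (r : Finset α → ℤ) (E T X : Finset α) :
    ∃ Z, X ∩ (E \ T) ⊆ Z ∧ Z ⊆ E \ T ∧ lam r E Z = kap r E T X := by
  obtain ⟨Z, a, b⟩ := exists_mem_eq_inf' (s := (E \ T).powerset) ⟨∅, by simp⟩
    fun Z => lam r E (Z ∪ X ∩ (E \ T))
  exact ⟨Z ∪ X ∩ (E \ T), by grind, by grind, b.symm⟩

lemma conn_iff_kap {k : ℤ} (hS : S ⊆ E \ T) : Conn r E S T k ↔ k ≤ kap r E T S := by
  constructor
  · intro c
    obtain ⟨Z, a, b, e⟩ := kap_ex r E T S
    exact e ▸ c Z (by grind) b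
  · exact fun c Z a b => c.trans (kap_le (by grind) b)

lemma Rk.kap (h : Rk r) (E T : Finset α) : Rk (kap r E T) where
  emp := by
    obtain ⟨Z, -, -, e⟩ := kap_ex r E T ∅
    have := kap_le (r := r) (E := E) (T := T) (X := ∅) (Z := ∅) (by simp) (by simp)
    have := h.lam_nonneg E Z
    have := h.lam_le_rk E ∅
    have := h.emp
    omega
  mono := fun {X Y} a => by
    obtain ⟨Z, b, c, e⟩ := kap_ex r E T Y
    exact e ▸ kap_le (by grind) c
  subm := fun X Y => by
    obtain ⟨Z, a, b, c⟩ := kap_ex r E T X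
    obtain ⟨Z', a', b', c'⟩ := kap_ex r E T Y
    have := kap_le (r := r) (E := E) (T := T) (X := X ∪ Y) (Z := Z ∪ Z') (by grind) (by grind)
    have := kap_le (r := r) (E := E) (T := T) (X := X ∩ Y) (Z := Z ∩ Z') (by grind) (by grind)
    have := h.lam_subm E Z Z'
    omega
  unit := fun e X => by
    obtain ⟨Z, a, b, c⟩ := kap_ex r E T X
    have := kap_le (r := r) (E := E) (T := T) (X := insert e X) (Z := Z ∪ {e} ∩ (E \ T)) (by grind)
      (by grind)
    have := h.lam_union E Z ({e} ∩ (E \ T))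
    have := h.lam_le_rk E ({e} ∩ (E \ T))
    have := h.mono (inter_subset_left (s₁ := {e}) (s₂ := E \ T))
    have := h.single e
    omega

/-- the terminal set can be shrunk to size k -/
lemma Rk.conn_shrink (h : Rk r) {k : ℕ} (hS : S ⊆ E \ T) (c : Conn r E S T k) :
    ∃ S' ⊆ S, S'.card = k ∧ Conn r E S' T k := by
  obtain ⟨S', a, b, e⟩ := (h.kap E T).ind_of_le ((conn_iff_kap hS).1 c)
  exact ⟨S', a, e, (conn_iff_kap (a.trans hS)).2 (by rw [b, e])⟩

end Pool.Agent.Lib.MP_a4b0c4_co.J
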