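import Mathlib

set_option autoImplicit false
set_option linter.unusedSectionVars false
set_option linter.unusedVariables false

open Finset

namespace Pool.Agent.Lib.MP_a4b0c4_co.J

section Mat
variable {α : Type} [DecidableEq α]

/-- rank function of a (finitary) matroid on finite sets -/
structure Rk (r : Finset α → ℤ) : Prop where
  emp : r ∅ = 0
  mono : ∀ {X Y : Finset α}, X ⊆ Y → r X ≤ r Y
  subm : ∀ X Y : Finset α, r (X ∪ Y) + r (X ∩ Y) ≤ r X + r Y
  unit : ∀ (e : α) (X : Finset α), r (insert e X) ≤ r X + 1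

/-- contraction -/
def con (r : Finset α → ℤ) (C : Finset α) : Finset α → ℤ := fun X => r (X ∪ C) - r C
/-- dual on the ground set E -/
def dual (r : Finset α → ℤ) (E : Finset α) : Finset α → ℤ :=
  fun X => ((X ∩ E).card : ℤ) + r (E \ X) - r E
/-- connectivity function -/
def lam (r : Finset α → ℤ) (E Z : Finset α) : ℤ := r Z + r (E \ Z) - r E
/-- local connectivity -/
def loc (r : Finset α → ℤ) (A B : Finset α) : ℤ := r A + r B - r (A ∪ B)
/-- independent -/
def Ind (r : Finset α → ℤ) (X : Finset α) : Prop := r X = X.card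
/-- e lies in the closure of A -/
def Cl (r : Finset α → ℤ) (A : Finset α) (e : α) : Prop := r (insert e A) = r A
/-- every cut between S and T has order at least k -/
def Conn (r : Finset α → ℤ) (E S T : Finset α) (k : ℤ) : Prop :=
  ∀ Z, S ⊆ Z → Z ⊆ E \ T → k ≤ lam r E Z
/-- the restriction to P is connected (empty sets and singletons are connected) -/
def Cntd (r : Finset α → ℤ) (P : Finset α) : Prop :=
  ∀ A ⊆ P, r A + r (P \ A) ≤ r P → A = ∅ ∨ A = P
/-- the sets A i, i in s, are mutually skew -/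
def Skew {ι : Type} (r : Finset α → ℤ) (s : Finset ι) (A : ι → Finset α) : Prop :=
  r (s.biUnion A) = ∑ i ∈ s, r (A i)
/-- pairwise disjoint family -/
def PD {ι : Type} (A : ι → Finset α) : Prop := ∀ i j, i ≠ j → Disjoint (A i) (A j)
/-- parallel class of non-loops -/
def Par (r : Finset α → ℤ) (J : Finset α) : Prop := r J ≤ 1 ∧ ∀ x ∈ J, r {x} = 1
/-- circuit -/
def Circ (r : Finset α → ℤ) (J : Finset α) : Prop :=
  r J = J.card - 1 ∧ ∀ x ∈ J, r (J.erase x) = J.card - 1
/-- well linked set -/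
def WL (r : Finset α → ℤ) (E X : Finset α) : Prop :=
  ∀ Z ⊆ E, min ((X ∩ Z).card : ℤ) ((X \ Z).card : ℤ) ≤ lam r E Z
/-- pull back along a map -/
def pull {ε : Type} (r : Finset α → ℤ) (f : ε → α) : Finset ε → ℤ := fun X => r (X.image f)

/-- the matroid on G with independent sets P is a minor -/
def HasMinor {ε : Type} (r : Finset α → ℤ) (E : Finset α) (G : Finset ε) (P : Finset ε → Prop) :
    Prop :=
  ∃ (C : Finset α) (f : ε → α), C ⊆ E ∧ Set.InjOn f G ∧ (∀ x ∈ G, f x ∈ E ∧ f x ∉ C) ∧
    ∀ I ⊆ G, (con r C (I.image f) = I.card ↔ P I)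

end Mat

section Graph
variable {V ε : Type} [DecidableEq V] [DecidableEq ε]

/-- independent sets of the cycle matroid, counting form -/
def MG (ends : ε → Finset V) (I : Finset ε) : Prop :=
  ∀ J ⊆ I, J.Nonempty → J.card < (J.biUnion ends).card
/-- independent sets of the bicircular matroid -/
def BG (ends : ε → Finset V) (I : Finset ε) : Prop :=
  ∀ J ⊆ I, J.card ≤ (J.biUnion ends).card
/-- star property of a framework -/
def Star (r : Finset ε → ℤ) (G : Finset ε) (ends : ε → Finset V) : Prop :=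
  ∀ e ∈ G, ∀ v ∈ ends e, ¬ Cl r (G.filter fun g => v ∉ ends g) e

end Graph

/-- ends of a grid edge: true is horizontal, false is vertical -/
def gends (e : Bool × ℕ × ℕ) : Finset (ℕ × ℕ) :=
  {(e.2.1, e.2.2), if e.1 then (e.2.1, e.2.2 + 1) else (e.2.1 + 1, e.2.2)}
/-- edges of the n by n grid -/
def GE (n : ℕ) : Finset (Bool × ℕ × ℕ) :=
  ((univ : Finset Bool) ×ˢ range n ×ˢ range n).filter
    fun e => if e.1 then e.2.2 + 1 < n else e.2.1 + 1 < n

section Out
variable {α : Type} [DecidableEq α]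

def Out1 (n : ℕ) (r : Finset α → ℤ) (E : Finset α) : Prop :=
  HasMinor r E (range (2 * n)) (fun I => I.card ≤ n) ∨ HasMinor r E (GE n) (MG gends) ∨
    HasMinor r E (GE n) (BG gends)
def Out (n : ℕ) (r : Finset α → ℤ) (E : Finset α) : Prop := Out1 n r E ∨ Out1 n (dual r E) E
def Free (n : ℕ) (r : Finset α → ℤ) (E : Finset α) : Prop := ¬ Out n r E

end Out

section BiM
variable {α β : Type} [DecidableEq α] [DecidableEq β]

/-- bimatroid (linking system): rank of submatrices -/
structure BM (ρ : Finset α → Finset β → ℤ) : Prop where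
  nn : ∀ R Y, 0 ≤ ρ R Y
  le_l : ∀ R Y, ρ R Y ≤ R.card
  le_r : ∀ R Y, ρ R Y ≤ Y.card
  mono : ∀ {R R' : Finset α} {Y Y' : Finset β}, R ⊆ R' → Y ⊆ Y' → ρ R Y ≤ ρ R' Y'
  subm : ∀ R R' Y Y', ρ (R ∪ R') (Y ∩ Y') + ρ (R ∩ R') (Y ∪ Y') ≤ ρ R Y + ρ R' Y'

/-- the matroid with basis R of a bimatroid -/
def mat (ρ : Finset α → Finset β → ℤ) (R : Finset α) : Finset (α ⊕ β) → ℤ :=
  fun X => ((X.toLeft ∩ R).card : ℤ) + ρ (R \ X.toLeft) X.toRight
/-- transpose -/
def tr (ρ : Finset α → Finset β → ℤ) : Finset β → Finset α → ℤ := fun Y R => ρ R Y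
/-- the bimatroid of a matroid with respect to an independent set B, columns in G -/
def bm (r : Finset α → ℤ) (B G : Finset α) : Finset α → Finset α → ℤ :=
  fun R Y => r ((Y ∩ G) ∪ (B \ R)) - (B \ R).card
/-- pull back -/
def pullB {α' β' : Type} (ρ : Finset α → Finset β → ℤ) (f : α' → α) (g : β' → β) :
    Finset α' → Finset β' → ℤ := fun R Y => ρ (R.image f) (Y.image g)
/-- no finite submatrix on valid rows and columns has one of the minors -/
def FreeB (n : ℕ) (ρ : Finset α → Finset β → ℤ) (VR : Set α) (VC : Set β) : Prop :=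
  ∀ (R : Finset α) (Y : Finset β), ↑R ⊆ VR → ↑Y ⊆ VC → Free n (mat ρ R) (R.disjSum Y)

end BiM

/-- labels: global, one index, two indices -/
abbrev Lab (A B C ι : Type) : Type := A ⊕ (B × ι) ⊕ (C × ι × ι)

namespace Lab
variable {A B C ι κ : Type}

@[match_pattern] def g (a : A) : Lab A B C ι := Sum.inl a
@[match_pattern] def o (b : B) (i : ι) : Lab A B C ι := Sum.inr (Sum.inl (b, i))
@[match_pattern] def p (c : C) (i j : ι) : Lab A B C ι := Sum.inr (Sum.inr (c, i, j))

def map (φ : ι → κ) : Lab A B C ι → Lab A B C κ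
  | g a => g a
  | o b i => o b (φ i)
  | p c i j => p c (φ i) (φ j)

def supp [DecidableEq ι] : Lab A B C ι → Finset ι
  | g _ => ∅
  | o _ i => {i}
  | p _ i j => {i, j}

def valid [LT ι] : Lab A B C ι → Prop
  | g _ => True
  | o _ _ => True
  | p _ i j => i < j

/-- the hub of a row label without global type -/
def hub (side : C → Bool) : Lab Empty B C ι → ι
  | g a => a.elim
  | o _ i => i
  | p c i j => if side c then i else j

end Lab

section Inv
variable {A B C A' B' C' ι : Type} [DecidableEq A] [DecidableEq B] [DecidableEq C]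
  [DecidableEq A'] [DecidableEq B'] [DecidableEq C'] [LinearOrder ι]

/-- all valid labels with support inside s -/
noncomputable def ovr [Fintype A] [Fintype B] [Fintype C] (s : Finset ι) : Finset (Lab A B C ι) :=
  open Classical in
  ((univ.image Lab.g ∪ (univ ×ˢ s).image fun x : B × ι => Lab.o x.1 x.2) ∪
    (univ ×ˢ s ×ˢ s).image fun x : C × ι × ι => Lab.p x.1 x.2.1 x.2.2).filter Lab.valid
/-- all valid labels with support s -/
noncomputable def cell [Fintype A] [Fintype B] [Fintype C] (s : Finset ι) : Finset (Lab A B C ι) :=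
  (ovr s).filter fun l => l.supp = s

/-- order invariance -/
def Inv (ρ : Finset (Lab A B C ι) → Finset (Lab A' B' C' ι) → ℤ) : Prop :=
  ∀ (φ : ι → ι) (R : Finset (Lab A B C ι)) (Y : Finset (Lab A' B' C' ι)),
    StrictMonoOn φ ↑(R.biUnion Lab.supp ∪ Y.biUnion Lab.supp) →
    ρ (R.image (Lab.map φ)) (Y.image (Lab.map φ)) = ρ R Y

end Inv

end Pool.Agent.Lib.MP_a4b0c4_co.J
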