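import Pool.Agent.Lib.MP_a4b0c4_co.JSpec
import Pool.Agent.Lib.MP_a4b0c4_co.JCnt
import Pool.Agent.Lib.MP_a4b0c4_co.JBM

set_option autoImplicit false
set_option linter.unusedSectionVars false
set_option linter.unusedVariables false

open Finset

namespace Pool.Agent.Lib.MP_a4b0c4_co.J

variable {α : Type} [DecidableEq α] {r : Finset α → ℤ} {n m : ℕ}

/-- the conclusion of StFK for given n and m -/
def FKat (n m : ℕ) : Prop :=
  ∀ ρ : Finset (Fin m ⊕ Fin m) → Finset (Fin m × Fin m) → ℤ,
    BM ρ → FreeB n ρ Set.univ Set.univ →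
    (∀ v e, ρ {v} {e} = if v = Sum.inl e.1 ∨ v = Sum.inr e.2 then 1 else 0) → False

lemma di_bm {I K : Type} [Fintype I] [Fintype K] [DecidableEq I] [DecidableEq K] (h : Rk r)
    {E : Finset α} (hE : Free n r E) (ρ : I → α) (κ : K → α) (ρi : Function.Injective ρ)
    (κi : Function.Injective κ) (ne : ∀ i k, ρ i ≠ κ k) (ρE : ∀ i, ρ i ∈ E) (κE : ∀ k, κ k ∈ E)
    (ind : Ind r (univ.image ρ)) (sp : ∀ k, Cl r (univ.image ρ) (κ k)) (inc : I → K → Prop)
    [∀ i k, Decidable (inc i k)]
    (pat : ∀ i k, Cl r ((univ.image ρ).erase (ρ i)) (κ k) ↔ ¬ inc i k) :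
    ∃ σ : Finset I → Finset K → ℤ, BM σ ∧ FreeB n σ Set.univ Set.univ ∧
      ∀ i k, σ {i} {k} = if inc i k then 1 else 0 := by
  have hb : BM (bm r (univ.image ρ) (univ.image κ)) := h.bm ind (by
    intro e he
    obtain ⟨k, -, rfl⟩ := mem_image.mp he
    exact sp k)
  have hf : FreeB n (bm r (univ.image ρ) (univ.image κ)) (univ.image ρ) (univ.image κ) :=
    Free.bm h ind hE (by
      intro e he
      rcases mem_union.mp he with he | he <;> obtain ⟨k, -, rfl⟩ := mem_image.mp he
      exacts [ρE k, κE k]) (by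
      rw [disjoint_left]
      intro e h1 h2
      obtain ⟨i, -, rfl⟩ := mem_image.mp h1
      obtain ⟨k, -, hk⟩ := mem_image.mp h2
      exact ne i k hk.symm)
  refine ⟨pullB (bm r (univ.image ρ) (univ.image κ)) ρ κ, hb.pull ρ κ,
    FreeB.pull hb hf ρi.injOn κi.injOn (fun i _ => by simp) (fun k _ => by simp), fun i k => ?_⟩
  have e0 := bm_entry (G := univ.image κ) h ind (b := ρ i) (c := κ k) (by simp)
  simp only [pullB, image_singleton]
  split_ifs with hi
  · rcases hb.one (ρ i) (κ k) with h0 | h1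
    · exact absurd hi ((pat i k).mp (e0.mp h0))
    · exact h1
  · exact e0.mpr ((pat i k).mpr hi)

lemma di_sep_cl (h : Rk r) {A B X C : Finset α} (k : r A + r B ≤ r (A ∪ B))
    (hX : ∀ e ∈ X, Cl r A e) (hC : ∀ e ∈ C, Cl r B e) : con r C X = r X := by
  refine h.con_of_sep (A := A ∪ X) (B := B ∪ C) ?_ subset_union_right subset_union_right
  rw [h.span hX, h.span hC]
  exact k.trans (h.mono (union_subset_union subset_union_left subset_union_left))

lemma di_cl_rk (h : Rk r) {A B : Finset α} (k : r (A ∪ B) ≤ r A) : ∀ e ∈ B, Cl r A e :=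
  fun e he => h.cl_of_le subset_union_left (mem_union_right _ he) k

lemma di_edge (h : Rk r) {H : Finset α} {p q : α} (c : Cntd r (H ∪ {p, q})) (ne : p ≠ q)
    (hp : Cl r H p) : ∃ C ⊆ H, ∃ x ∈ H, (∀ e ∈ H, Cl r (insert x C) e) ∧ ¬ Cl r C p ∧ ¬ Cl r C q := by
  obtain ⟨C, hC, c'⟩ := h.cntd_shrink c (Q := {p, q}) subset_union_right
  have hCH : C ⊆ H := fun e he => by
    have := mem_sdiff.mp (hC he)
    rcases mem_union.mp this.1 with h1 | h1
    · exact h1
    · exact absurd h1 this.2
  have h' := h.con C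
  obtain ⟨k1, k2⟩ := h'.cntd_cl c' (e := p) (f := q) (by simp) (by simp) ne.symm
  have k3 : Cl (con r C) {q} p := h'.cl_mono (by
    intro e he
    simp only [mem_erase, mem_insert, mem_singleton] at he ⊢
    tauto) k1
  obtain ⟨B, hB, iB, sB, -⟩ := h'.basis H
  have k4 : Cl (con r C) B p := h'.cl_trans sB (cl_con.mpr (h.cl_mono subset_union_left hp))
  have k5 : ∃ x ∈ B, ¬ Cl (con r C) (B.erase x) p := by
    by_contra hh
    push Not at hh
    have := h'.cl_sdiff iB k4 hh
    rw [sdiff_self, Cl, Finset.bot_eq_empty, h'.emp] at this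
    simp only [insert_empty_eq] at this
    omega
  obtain ⟨x, hx, k6⟩ := k5
  refine ⟨B.erase x ∪ C, union_subset ((erase_subset _ _).trans hB) hCH, x, hB hx, fun e he => ?_,
    fun hh => k6 (cl_con.mpr hh), fun hh => k6 ?_⟩
  · refine h.cl_mono ?_ (cl_con.mp (sB e he))
    rw [← insert_union, insert_erase hx]
  · exact h'.cl_trans (by simpa using cl_con.mpr hh) k3

/-- the ends of an edge of the complete bipartite graph -/
abbrev dinc (v : Fin m ⊕ Fin m) (e : Fin m × Fin m) : Prop := v = Sum.inl e.1 ∨ v = Sum.inr e.2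

/-- the data after all contractions -/
structure DiD (r : Finset α → ℤ) (E : Finset α) (H : Fin m ⊕ Fin m → Finset α)
    (x : Fin m × Fin m → α) (c : Fin m ⊕ Fin m → α)
    (y : Fin m ⊕ Fin m → Fin m × Fin m → α) : Prop where
  xi : Function.Injective x
  ci : Function.Injective c
  yi : ∀ v e v' e', y v e = y v' e' → v = v' ∧ e = e'
  cy : ∀ v v' e, c v ≠ y v' e
  xc : ∀ e v, x e ≠ c v
  xE : ∀ e, x e ∈ E
  cE : ∀ v, c v ∈ E
  yE : ∀ v e, dinc v e → y v e ∈ E
  ind : Ind (con r (univ.biUnion H)) (univ.image x)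
  cc : ∀ v, Cl r (H v) (c v)
  cy' : ∀ v e, dinc v e → Cl r (insert (x e) (H v)) (y v e)
  ny : ∀ v e, dinc v e → ¬ Cl r (univ.biUnion H ∪ (univ.image x).erase (x e)) (y v e)
  sep : ∀ v, r (H v) ≤ con r ((univ.erase v).biUnion H ∪ univ.image x) (H v)

namespace DiD
variable {E : Finset α} {H : Fin m ⊕ Fin m → Finset α} {x : Fin m × Fin m → α}
  {c : Fin m ⊕ Fin m → α} {y : Fin m ⊕ Fin m → Fin m × Fin m → α}

lemma loc (h : Rk r) (d : DiD r E H x c y) (v : Fin m ⊕ Fin m) {X1 A : Finset α}
    (hX : X1 ⊆ univ.image x) (hA : ∀ e ∈ A, Cl r (H v ∪ X1) e) :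
    con r ((univ.erase v).biUnion H ∪ univ.image x) A = con r X1 A := by
  set W := (univ.erase v).biUnion H with hW
  set X := univ.image x with hXd
  have i1 : Ind (con r W) X := h.ind_con_anti (biUnion_subset_biUnion_of_subset_left _
    (subset_univ _)) d.ind
  have s1 : r (H v ∪ X1) + r (W ∪ (X \ X1)) ≤ r ((H v ∪ X1) ∪ (W ∪ (X \ X1))) := by
    have a1 := h.add_card (H v) X1
    have a2 := h.add_card W (X \ X1)
    have a3 := d.sep v
    have a4 : (X.card : ℤ) = (X \ X1).card + X1.card := by
      rw [← card_sdiff_add_card_eq_card hX]; push_cast; ring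
    have a5 : H v ∪ X1 ∪ (W ∪ (X \ X1)) = H v ∪ (W ∪ X) := by
      ext e
      have := @hX e
      simp only [mem_union, mem_sdiff]
      tauto
    rw [a5]
    simp only [Ind, con] at i1 a3
    rw [union_comm X W] at i1
    rw [← hW, ← hXd] at a3
    omega
  have e1 : W ∪ X = (W ∪ (X \ X1)) ∪ X1 := by rw [union_assoc, sdiff_union_of_subset hX]
  rw [e1, ← con_con]
  have k1 := di_sep_cl h s1 (X := A ∪ X1) (C := W ∪ (X \ X1)) (fun e he => by
    rcases mem_union.mp he with he | he
    · exact hA e he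
    · exact cl_mem (mem_union_right _ he)) fun e he => cl_mem he
  have k2 := di_sep_cl h s1 (X := X1) (C := W ∪ (X \ X1))
    (fun e he => cl_mem (mem_union_right _ he)) fun e he => cl_mem he
  change con r _ (A ∪ X1) - con r _ X1 = _
  rw [k1, k2]
  rfl

lemma cW (h : Rk r) (d : DiD r E H x c y) {v v' : Fin m ⊕ Fin m} (ne : v' ≠ v) (S : Finset α) :
    Cl r ((univ.erase v).biUnion H ∪ S) (c v') :=
  h.cl_mono ((subset_biUnion_of_mem H (by simp [ne])).trans subset_union_left) (d.cc v')

lemma yW (h : Rk r) (d : DiD r E H x c y) {v v' : Fin m ⊕ Fin m} {e : Fin m × Fin m}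
    (ne : v' ≠ v) (i : dinc v' e) : Cl r ((univ.erase v).biUnion H ∪ univ.image x) (y v' e) :=
  h.cl_mono (insert_subset (mem_union_right _ (by simp))
    ((subset_biUnion_of_mem H (by simp [ne])).trans subset_union_left)) (d.cy' v' e i)

lemma cU (h : Rk r) (d : DiD r E H x c y) (v : Fin m ⊕ Fin m) (S : Finset α) :
    Cl r (univ.biUnion H ∪ S) (c v) :=
  h.cl_mono ((subset_biUnion_of_mem H (by simp)).trans subset_union_left) (d.cc v)

lemma yU (h : Rk r) (d : DiD r E H x c y) {v : Fin m ⊕ Fin m} {e e' : Fin m × Fin m}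
    (ne : e' ≠ e) (i : dinc v e') :
    Cl r (univ.biUnion H ∪ (univ.image x).erase (x e)) (y v e') :=
  h.cl_mono (insert_subset (mem_union_right _ (by simp [d.xi.ne ne]))
    ((subset_biUnion_of_mem H (by simp)).trans subset_union_left)) (d.cy' v e' i)

/-- the star of a vertex -/
def star (c : Fin m ⊕ Fin m → α) (y : Fin m ⊕ Fin m → Fin m × Fin m → α) (v : Fin m ⊕ Fin m) :
    Finset α := insert (c v) ((univ.filter (dinc v)).image (y v))

lemma y_star {v : Fin m ⊕ Fin m} {e : Fin m × Fin m} (i : dinc v e) : y v e ∈ star c y v :=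
  mem_insert_of_mem (mem_image_of_mem _ (by simpa using i))

theorem par (h : Rk r) (hE : Free n r E) (fk : FKat n m) (d : DiD r E H x c y)
    (hp : ∀ v, Par (con r ((univ.erase v).biUnion H ∪ univ.image x)) (star c y v)) : False := by
  have nl : ∀ v, ∀ z ∈ star c y v, ¬ Cl r ((univ.erase v).biUnion H ∪ univ.image x) z := by
    intro v z hz hh
    have := (hp v).2 z hz
    simp only [con, Cl] at this hh
    rw [← insert_eq] at this
    omega
  have tri : ∀ v e, dinc v e → Cl r {c v, x e} (y v e) := by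
    intro v e i
    have k1 := d.loc h v (X1 := {x e}) (A := {y v e, c v}) (by simp) (by
      intro z hz
      rcases mem_insert.mp hz with rfl | hz
      · simpa [union_comm] using d.cy' v e i
      · rw [mem_singleton.mp hz]; exact h.cl_mono subset_union_left (d.cc v))
    have k2 := d.loc h v (X1 := {x e}) (A := {c v}) (by simp) (by
      intro z hz
      rw [mem_singleton.mp hz]; exact h.cl_mono subset_union_left (d.cc v))
    have k3 := (hp v).2 (c v) (mem_insert_self _ _)
    have k4 := ((h.con _).mono (X := {y v e, c v}) (Y := star c y v)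
      (insert_subset (y_star i) (singleton_subset_iff.mpr (mem_insert_self _ _)))).trans (hp v).1
    rw [k1] at k4
    rw [k2] at k3
    simp only [con, insert_union, ← insert_eq] at k3 k4
    rw [h.cl_iff]
    omega
  let p : Fin m × Fin m → α := fun e => y (Sum.inl e.1) e
  let q : Fin m × Fin m → α := fun e => y (Sum.inr e.2) e
  have iB : Ind r (univ.image c) := by
    rw [← h.con_empty]
    refine h.ind_of_leaf fun J hJ ⟨z, hz⟩ => ⟨z, hz, fun hh => ?_⟩
    obtain ⟨v, -, rfl⟩ := mem_image.mp (hJ hz)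
    refine nl v _ (mem_insert_self _ _) (h.cl_trans (fun w hw => ?_) hh)
    rw [union_empty] at hw
    obtain ⟨v', -, rfl⟩ := mem_image.mp (hJ (mem_of_mem_erase hw))
    exact d.cW h (fun e => (ne_of_mem_erase hw) (by rw [e])) _
  have iP : Ind (con r (univ.image c)) (univ.image p) := by
    refine h.ind_of_leaf fun J hJ ⟨z, hz⟩ => ⟨z, hz, fun hh => ?_⟩
    obtain ⟨e, -, rfl⟩ := mem_image.mp (hJ hz)
    refine d.ny _ e (Or.inl rfl) (h.cl_trans (fun w hw => ?_) hh)
    rcases mem_union.mp hw with hw | hw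
    · obtain ⟨e', -, rfl⟩ := mem_image.mp (hJ (mem_of_mem_erase hw))
      exact d.yU h (fun e => (ne_of_mem_erase hw) (by rw [e])) (Or.inl rfl)
    · obtain ⟨v, -, rfl⟩ := mem_image.mp hw
      exact d.cU h v _
  have iBP : Ind (con r (univ.image p)) (univ.image c) :=
    h.ind_con (h.ind_con_disj iP).symm (by rw [union_comm]; exact h.ind_union iB iP)
  have xs : ∀ v e, dinc v e → Cl r {y v e, c v} (x e) := fun v e i =>
    h.exchange (A := {c v}) (by rw [pair_comm]; exact tri v e i) fun hh =>
      d.ny v e i (h.cl_trans (by simpa using d.cU h v _) hh)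
  have cs : ∀ v e, dinc v e → Cl r {y v e, x e} (c v) := fun v e i =>
    h.exchange (A := {x e}) (tri v e i) fun hh =>
      nl v _ (y_star i) (h.cl_mono (by simp) hh)
  have qs : ∀ (e : Fin m × Fin m) (S : Finset α), c (Sum.inl e.1) ∈ S → c (Sum.inr e.2) ∈ S →
      Cl (con r (univ.image p)) S (q e) := by
    intro e S h1 h2
    refine cl_con.mpr (h.cl_trans (fun w hw => ?_) (tri _ e (Or.inr rfl)))
    rcases mem_insert.mp hw with rfl | hw
    · exact cl_mem (mem_union_left _ h2)
    · rw [mem_singleton.mp hw]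
      exact h.cl_mono (insert_subset (mem_union_right _ (mem_image_of_mem p (mem_univ e)))
        (by simp [h1])) (xs _ e (Or.inl rfl))
  have hPE : univ.image p ⊆ E := fun z hz => by
    obtain ⟨e, -, rfl⟩ := mem_image.mp hz
    exact d.yE _ _ (Or.inl rfl)
  obtain ⟨σ, s1, s2, s3⟩ := di_bm (h.con (univ.image p)) (hE.con h hPE (Subset.refl _)) c q d.ci
    (fun e e' k => (d.yi _ _ _ _ k).2) (fun v e => d.cy _ _ _)
    (fun v => mem_sdiff.mpr ⟨d.cE v, fun hh => by
      obtain ⟨e, -, k⟩ := mem_image.mp hh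
      exact d.cy _ _ _ k.symm⟩)
    (fun e => mem_sdiff.mpr ⟨d.yE _ _ (Or.inr rfl), fun hh => by
      obtain ⟨e', -, k⟩ := mem_image.mp hh
      exact absurd (d.yi _ _ _ _ k).1 (by simp)⟩) iBP
    (fun e => qs e _ (by simp) (by simp)) dinc (by
      intro v e
      constructor
      · rintro hh (rfl | rfl)
        · refine (h.con _).ind_not_cl iBP (mem_image_of_mem c (mem_univ (Sum.inl e.1)))
            (Subset.refl _) (cl_con.mpr (h.cl_trans (fun w hw => ?_) (cs _ e (Or.inl rfl))))
          rcases mem_insert.mp hw with rfl | hw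
          · exact cl_mem (mem_union_right _ (mem_image_of_mem p (mem_univ e)))
          · rw [mem_singleton.mp hw]
            refine h.cl_trans (fun w hw => ?_) (xs _ e (Or.inr rfl))
            rcases mem_insert.mp hw with rfl | hw
            · exact cl_con.mp hh
            · rw [mem_singleton.mp hw]
              exact cl_mem (mem_union_left _ (by simp [d.ci.ne]))
        · refine nl _ _ (y_star (Or.inr rfl)) (h.cl_trans (fun w hw => ?_) (cl_con.mp hh))
          rcases mem_union.mp hw with hw | hw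
          · obtain ⟨v', -, rfl⟩ := mem_image.mp (mem_of_mem_erase hw)
            exact d.cW h (fun e => (ne_of_mem_erase hw) (by rw [e])) _
          · obtain ⟨e', -, rfl⟩ := mem_image.mp hw
            exact d.yW h (by simp) (Or.inl rfl)
      · intro hh
        have := not_or.mp hh
        exact qs e _ (by simp [d.ci.ne (Ne.symm this.1)]) (by simp [d.ci.ne (Ne.symm this.2)]))
  exact fk σ s1 s2 s3

theorem circ (h : Rk r) (hE : Free n r E) (fk : FKat n m) (d : DiD r E H x c y)
    (hp : ∀ v, Circ (con r ((univ.erase v).biUnion H ∪ univ.image x)) (star c y v)) : False := by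
  let J : Fin m ⊕ Fin m → Finset α := fun v => (univ.filter (dinc v)).image (y v)
  have cJ : ∀ v, c v ∉ J v := fun v hh => by
    obtain ⟨e, -, k⟩ := mem_image.mp hh
    exact d.cy _ _ _ k.symm
  have sJ : ∀ v, (star c y v).erase (c v) = J v := fun v => erase_insert (cJ v)
  have cd : ∀ v, ((star c y v).card : ℤ) = (J v).card + 1 := fun v => by
    rw [star, card_insert_of_notMem (cJ v)]; push_cast; rfl
  have iE : ∀ v, ∀ z ∈ star c y v,
      Ind (con r ((univ.erase v).biUnion H ∪ univ.image x)) ((star c y v).erase z) := by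
    intro v z hz
    rw [Ind, (hp v).2 z hz, card_erase_of_mem hz, Nat.cast_sub (card_pos.mpr ⟨z, hz⟩)]
    rfl
  let Y := univ.biUnion J
  have mY : ∀ z ∈ Y, ∃ v e, dinc v e ∧ y v e = z := fun z hz => by
    obtain ⟨v, -, hz⟩ := mem_biUnion.mp hz
    obtain ⟨e, he, k⟩ := mem_image.mp hz
    exact ⟨v, e, (mem_filter.mp he).2, k⟩
  have mJ : ∀ v e, dinc v e → y v e ∈ J v := fun v e i => mem_image_of_mem _ (by simpa using i)
  have iX : Ind r (univ.image x) := h.ind_of_con d.ind
  have iY : Ind (con r (univ.image x)) Y := by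
    refine h.ind_of_leaf fun S hS ⟨z, hz⟩ => ⟨z, hz, fun hh => ?_⟩
    obtain ⟨v, e, i, rfl⟩ := mY z (hS hz)
    have k := iE v _ (mem_insert_self _ _)
    rw [sJ] at k
    refine (h.con _).ind_not_cl k (mJ v e i) (Subset.refl _)
      (cl_con.mpr (h.cl_trans (fun w hw => ?_) hh))
    rcases mem_union.mp hw with hw | hw
    · obtain ⟨v', e', i', rfl⟩ := mY w (hS (mem_of_mem_erase hw))
      by_cases ev : v' = v
      · subst ev
        exact cl_mem (mem_union_left _ (mem_erase.mpr ⟨ne_of_mem_erase hw, mJ _ _ i'⟩))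
      · exact h.cl_mono subset_union_right (d.yW h ev i')
    · exact cl_mem (mem_union_right _ (mem_union_right _ hw))
  have iYX : Ind r (Y ∪ univ.image x) := h.ind_union iX iY
  have dYX := h.ind_con_disj iY
  have iXY : Ind (con r Y) (univ.image x) := h.ind_con dYX.symm (by rwa [union_comm])
  let X1 : Fin m ⊕ Fin m → Finset α := fun v => (univ.filter (dinc v)).image x
  have X1s : ∀ v, X1 v ⊆ univ.image x := fun v => image_subset_image (subset_univ _)
  have cs : ∀ v, Cl r (J v ∪ X1 v) (c v) := by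
    intro v
    have hA : ∀ z ∈ star c y v, Cl r (H v ∪ X1 v) z := by
      intro z hz
      rcases mem_insert.mp hz with rfl | hz
      · exact h.cl_mono subset_union_left (d.cc v)
      · obtain ⟨e, he, rfl⟩ := mem_image.mp hz
        exact h.cl_mono (insert_subset (mem_union_right _ (mem_image_of_mem _ he))
          subset_union_left) (d.cy' v e (mem_filter.mp he).2)
    have k1 := d.loc h v (X1s v) hA
    have k2 := d.loc h v (X1s v) (A := J v) fun z hz => hA z (mem_insert_of_mem hz)
    have k3 := (hp v).1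
    have k4 := (hp v).2 _ (mem_insert_self _ _)
    rw [sJ, k2] at k4
    rw [k1] at k3
    exact cl_con.mp (k3.trans k4.symm)
  have JY : ∀ v, J v ⊆ Y := fun v => subset_biUnion_of_mem J (mem_univ v)
  have hYE : Y ⊆ E := fun z hz => by
    obtain ⟨v, e, i, rfl⟩ := mY z hz
    exact d.yE v e i
  obtain ⟨σ, s1, s2, s3⟩ := di_bm (h.con Y) (hE.con h hYE (Subset.refl _)) x c d.xi d.ci d.xc
    (fun e => mem_sdiff.mpr ⟨d.xE e, fun hh => disjoint_left.mp dYX hh (by simp)⟩)
    (fun v => mem_sdiff.mpr ⟨d.cE v, fun hh => by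
      obtain ⟨v', e, -, k⟩ := mY _ hh
      exact d.cy _ _ _ k.symm⟩) iXY
    (fun v => cl_con.mpr (h.cl_mono (by
      rw [union_comm]; exact union_subset_union (X1s v) (JY v)) (cs v)))
    (fun e v => dinc v e) (by
      intro e v
      constructor
      · intro hh i
        have k1 := h.cl_inter iYX (by
          rw [union_comm]; exact union_subset_union (Subset.refl _) (erase_subset _ _))
          (union_subset_union (JY v) (X1s v)) (cl_con.mp hh) (cs v)
        have k2 : Cl r (insert (y v e) ((J v).erase (y v e) ∪ (univ.image x).erase (x e)))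
            (c v) := h.cl_mono (by
          intro z hz
          have a1 : z ∈ Y → z ∉ univ.image x := fun k => disjoint_left.mp dYX k
          have a2 := @X1s v z
          have a3 := @JY v z
          simp only [mem_inter, mem_union, mem_insert, mem_erase] at hz ⊢
          tauto) k1
        have k3 : ¬ Cl r ((J v).erase (y v e) ∪ (univ.image x).erase (x e)) (c v) := fun hh =>
          (h.con _).ind_not_cl (iE v _ (y_star i)) (e := c v)
            (mem_erase.mpr ⟨d.cy _ _ _, mem_insert_self _ _⟩) (A := (J v).erase (y v e))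
            (by rw [erase_right_comm, sJ])
            (cl_con.mpr (h.cl_mono (union_subset_union (Subset.refl _)
              ((erase_subset _ _).trans subset_union_right)) hh))
        refine d.ny v e i (h.cl_trans (fun w hw => ?_) (h.exchange k2 k3))
        rcases mem_insert.mp hw with rfl | hw
        · exact d.cU h v _
        rcases mem_union.mp hw with hw | hw
        · obtain ⟨e', he', rfl⟩ := mem_image.mp (mem_of_mem_erase hw)
          exact d.yU h (fun k => (ne_of_mem_erase hw) (by rw [k])) (mem_filter.mp he').2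
        · exact cl_mem (mem_union_right _ hw)
      · intro hh
        refine cl_con.mpr (h.cl_mono ?_ (cs v))
        rw [union_comm]
        refine union_subset_union (fun z hz => ?_) (JY v)
        obtain ⟨e', he', rfl⟩ := mem_image.mp hz
        exact mem_erase.mpr ⟨d.xi.ne fun k => hh (k ▸ (mem_filter.mp he').2), by simp⟩)
  exact fk (tr σ) s1.tr (FreeB.tr s1 s2) fun v e => s3 e v

end DiD

end Pool.Agent.Lib.MP_a4b0c4_co.J
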