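import Pool.Agent.Lib.MP_a4b0c4_co.JDich1

set_option autoImplicit false
set_option linter.unusedSectionVars false
set_option linter.unusedVariables false

open Finset

namespace Pool.Agent.Lib.MP_a4b0c4_co.J

variable {α : Type} [DecidableEq α] {r : Finset α → ℤ} {n m : ℕ}

lemma di_good {s f : ℕ} (big : ∀ (r : Finset α → ℤ) (P : Finset α),
    Rk r → Cntd r P → f ≤ P.card → ∃ K J, K ⊆ P ∧ J ⊆ P \ K ∧ J.card = s ∧
      (Par (con r K) J ∨ Circ (con r K) J)) (h : Rk r) {H : Finset α} {z : Fin f → α}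
    (zi : Function.Injective z) (c : Cntd r H) (hz : ∀ j, Cl r H (z j) ∧ ¬ Cl r ∅ (z j)) :
    ∃ κ : Bool × Finset (Fin f), κ.2.card = s ∧ ∃ D ⊆ H ∪ (univ \ κ.2).image z,
      (κ.1 = true → Par (con r D) (κ.2.image z)) ∧ (κ.1 = false → Circ (con r D) (κ.2.image z)) := by
  have c1 := h.cntd_ext c (Y := univ.image z) fun y hy => by
    obtain ⟨j, -, rfl⟩ := mem_image.mp hy
    exact hz j
  obtain ⟨C, hC, c2⟩ := h.cntd_shrink c1 (Q := univ.image z) subset_union_right
  obtain ⟨K, J, hK, hJ, cJ, hh⟩ := big _ _ (h.con C) c2 (by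
    rw [card_image_of_injective _ zi]; simp)
  have e : (univ.filter fun j => z j ∈ J).image z = J := by
    ext w
    simp only [mem_image, mem_filter, mem_univ, true_and]
    constructor
    · rintro ⟨j, hj, rfl⟩; exact hj
    · intro hw
      obtain ⟨j, -, rfl⟩ := mem_image.mp (mem_sdiff.mp (hJ hw)).1
      exact ⟨j, hw, rfl⟩
  have e2 : (univ.filter fun j => z j ∈ J).card = s := by
    rw [← card_image_of_injective _ zi, e, cJ]
  have e3 : C ∪ K ⊆ H ∪ (univ \ univ.filter fun j => z j ∈ J).image z := by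
    refine union_subset_union (fun w hw => ?_) fun w hw => ?_
    · have := mem_sdiff.mp (hC hw)
      exact (mem_union.mp this.1).resolve_right this.2
    · obtain ⟨j, -, rfl⟩ := mem_image.mp (hK hw)
      refine mem_image_of_mem _ (by
        simp only [mem_sdiff, mem_univ, mem_filter, true_and]
        exact fun k => (mem_sdiff.mp (hJ k)).2 hw)
  rw [con_con, ← e] at hh
  rcases hh with hh | hh
  · exact ⟨(true, univ.filter fun j => z j ∈ J), e2, C ∪ K, e3, fun _ => hh, by simp⟩
  · exact ⟨(false, univ.filter fun j => z j ∈ J), e2, C ∪ K, e3, by simp, fun _ => hh⟩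

/-- the edge of colour k at v -/
def ded {m : ℕ} : Fin (m + 1) ⊕ Fin (m + 1) → Fin (m + 1) → Fin (m + 1) × Fin (m + 1)
  | Sum.inl i, k => (i, k - i)
  | Sum.inr j, k => (k - j, j)

lemma ded_col (v : Fin (m + 1) ⊕ Fin (m + 1)) (k : Fin (m + 1)) : (ded v k).1 + (ded v k).2 = k := by
  cases v <;> simp [ded]

lemma ded_inc (v : Fin (m + 1) ⊕ Fin (m + 1)) (k : Fin (m + 1)) : dinc v (ded v k) := by
  cases v <;> simp [ded, dinc]

lemma ded_eq {v : Fin (m + 1) ⊕ Fin (m + 1)} {e : Fin (m + 1) × Fin (m + 1)} (i : dinc v e) :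
    ded v (e.1 + e.2) = e := by
  rcases i with rfl | rfl <;> simp [ded]

lemma di_final {N : ℕ} (h : Rk r) {E : Finset α} (hE : Free n r E) (fk : FKat n m)
    {H : Fin N → Finset α} {y : Fin N → Fin N → α} (pd : PD H) (sk : Skew r univ H)
    (hH : ∀ a, H a ⊆ E ∧ Cntd r (H a))
    (yi : ∀ a b a' b', a < b → a' < b' → y a b = y a' b' → a = a' ∧ b = b')
    (hy : ∀ a b, a < b → y a b ∈ E \ univ.biUnion H ∧ Cl r (H a ∪ H b) (y a b) ∧
      ¬ Cl r ((univ.erase a).biUnion H) (y a b) ∧ ¬ Cl r ((univ.erase b).biUnion H) (y a b))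
    (la : Fin m ⊕ Fin m → Fin N) (hb : Fin m × Fin m → Fin N) (b0 : Fin N) (Fi : Finset (Fin N))
    (lai : Function.Injective la) (hbi : Function.Injective hb) (l1 : ∀ v e, la v < hb e)
    (l2 : ∀ v, la v < b0) (l3 : ∀ v, ∀ b ∈ Fi, la v < b) (n1 : ∀ e, hb e ≠ b0)
    (n2 : ∀ e, hb e ∉ Fi) (n3 : b0 ∉ Fi) (D : Fin m ⊕ Fin m → Finset α)
    (hD : ∀ v, D v ⊆ H (la v) ∪ Fi.image (y (la v)))
    (ty : (∀ v, Par (con r ((univ.erase (la v)).biUnion H ∪ D v))
        (DiD.star (fun v => y (la v) b0) (fun v e => y (la v) (hb e)) v)) ∨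
      ∀ v, Circ (con r ((univ.erase (la v)).biUnion H ∪ D v))
        (DiD.star (fun v => y (la v) b0) (fun v e => y (la v) (hb e)) v)) : False := by
  let oth : Fin N → Finset α := fun a => (univ.erase a).biUnion H
  have ho : ∀ {a b : Fin N}, a ≠ b → H a ⊆ oth b := fun k =>
    subset_biUnion_of_mem H (by simp [k])
  have skc : ∀ a, ∀ X ⊆ H a, con r (oth a) X = r X := fun a X hX =>
    h.skew_con sk (mem_univ a) hX (Subset.refl _)
  have ed : ∀ e : Fin m × Fin m, ∃ C ⊆ H (hb e), ∃ x ∈ H (hb e),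
      (∀ z ∈ H (hb e), Cl r (insert x C) z) ∧
      ∀ v, dinc v e → ¬ Cl r (C ∪ oth (hb e)) (y (la v) (hb e)) := by
    intro e
    have k : ∀ v, Cl (con r (oth (hb e))) (H (hb e)) (y (la v) (hb e)) ∧
        ¬ Cl (con r (oth (hb e))) ∅ (y (la v) (hb e)) := fun v =>
      ⟨cl_con.mpr (h.cl_mono (by
        rw [union_comm]; exact union_subset_union (Subset.refl _) (ho (l1 v e).ne))
        (hy _ _ (l1 v e)).2.1), fun k => (hy _ _ (l1 v e)).2.2.2 (by simpa using cl_con.mp k)⟩
    obtain ⟨C, hC, x, hx, k1, k2, k3⟩ := di_edge (h.con (oth (hb e))) (H := H (hb e))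
      (p := y (la (Sum.inl e.1)) (hb e)) (q := y (la (Sum.inr e.2)) (hb e))
      ((h.con _).cntd_ext ((hH _).2.congr fun X hX => (skc _ X hX).symm) (by
        intro w hw
        rcases mem_insert.mp hw with rfl | hw
        · exact k _
        · rw [mem_singleton.mp hw]; exact k _))
      (fun k => by simpa using lai (yi _ _ _ _ (l1 _ e) (l1 _ e) k).1) (k _).1
    refine ⟨C, hC, x, hx, fun z hz => ?_, ?_⟩
    · have := k1 z hz
      rwa [Cl, skc _ _ (insert_subset hz (insert_subset hx hC)), skc _ _ (insert_subset hx hC)]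
        at this
    · rintro v (rfl | rfl)
      exacts [fun k => k2 (cl_con.mpr k), fun k => k3 (cl_con.mpr k)]
  choose C hC x hx xs ny using ed
  let O := (univ.filter fun a => (∀ v, la v ≠ a) ∧ ∀ e, hb e ≠ a).biUnion H
  have O0 : H b0 ⊆ O :=
    subset_biUnion_of_mem H (mem_filter.mpr ⟨mem_univ _, fun v => (l2 v).ne, n1⟩)
  have OF : ∀ b ∈ Fi, H b ⊆ O := fun b k => subset_biUnion_of_mem H
    (mem_filter.mpr ⟨mem_univ _, fun v => (l3 v b k).ne, fun e k' => n2 e (k' ▸ k)⟩)
  have Ol : ∀ v, O ⊆ oth (la v) := fun v => biUnion_subset.mpr fun a k =>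
    ho ((mem_filter.mp k).2.1 v).symm
  have Ob : ∀ e, O ⊆ oth (hb e) := fun e => biUnion_subset.mpr fun a k =>
    ho ((mem_filter.mp k).2.2 e).symm
  have Dc : ∀ v, ∀ w ∈ D v, Cl r (H (la v) ∪ O) w := by
    intro v w hw
    rcases mem_union.mp (hD v hw) with k | k
    · exact cl_mem (mem_union_left _ k)
    · obtain ⟨b, k', rfl⟩ := mem_image.mp k
      exact h.cl_mono (union_subset_union (Subset.refl _) (OF b k')) (hy _ _ (l3 v b k')).2.1
  let Z := O ∪ univ.biUnion D ∪ univ.biUnion C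
  have OZ : O ⊆ Z := subset_union_left.trans subset_union_left
  have DZ : ∀ v, D v ⊆ Z := fun v =>
    ((subset_biUnion_of_mem D (mem_univ v)).trans subset_union_right).trans subset_union_left
  have CZ : ∀ e, C e ⊆ Z := fun e =>
    (subset_biUnion_of_mem C (mem_univ e)).trans subset_union_right
  have Zc : ∀ w ∈ Z, w ∈ O ∨ (∃ v, w ∈ D v) ∨ ∃ e, w ∈ C e := fun w hw => by
    simpa [Z, or_assoc] using hw
  have ZE : Z ⊆ E := by
    intro w hw
    rcases Zc w hw with k | ⟨v, k⟩ | ⟨e, k⟩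
    · obtain ⟨a, -, k⟩ := mem_biUnion.mp k
      exact (hH a).1 k
    · rcases mem_union.mp (hD v k) with k | k
      · exact (hH _).1 k
      · obtain ⟨b, k', rfl⟩ := mem_image.mp k
        exact (mem_sdiff.mp (hy _ _ (l3 v b k')).1).1
    · exact (hH _).1 (hC e k)
  have xi : Function.Injective x := fun e e' k => hbi (by
    by_contra k'
    exact disjoint_left.mp (pd _ _ k') (hx e) (k ▸ hx e'))
  have key : ∀ e, ∀ w ∈ (univ.biUnion (fun v => H (la v)) ∪ (univ.image x).erase (x e)) ∪ Z,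
      Cl r (C e ∪ oth (hb e)) w := by
    intro e w hw
    have a1 : ∀ w ∈ oth (hb e), Cl r (C e ∪ oth (hb e)) w := fun w k => cl_mem (mem_union_right _ k)
    rcases mem_union.mp hw with hw | hw
    · rcases mem_union.mp hw with hw | hw
      · obtain ⟨v, -, k⟩ := mem_biUnion.mp hw
        exact a1 w (ho (l1 v e).ne k)
      · obtain ⟨e', -, rfl⟩ := mem_image.mp (mem_of_mem_erase hw)
        exact a1 _ (ho (hbi.ne fun k => ne_of_mem_erase hw (by rw [k])) (hx e'))
    rcases Zc w hw with k | ⟨v, k⟩ | ⟨e', k⟩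
    · exact a1 w (Ob e k)
    · exact h.cl_mono ((union_subset (ho (l1 v e).ne) (Ob e)).trans subset_union_right) (Dc v w k)
    · by_cases k' : e' = e
      · exact cl_mem (mem_union_left _ (k' ▸ k))
      · exact a1 w (ho (hbi.ne k') (hC e' k))
  have nx : ∀ e, ¬ Cl r (C e ∪ oth (hb e)) (x e) := fun e k =>
    ny e _ (Or.inl rfl) (h.cl_trans (fun w hw => by
      rcases mem_union.mp hw with hw | hw
      · exact cl_mem (mem_union_right _ (ho (l1 _ e).ne hw))
      · refine h.cl_trans (fun w hw => ?_) (xs e w hw)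
        rcases mem_insert.mp hw with rfl | hw
        · exact k
        · exact cl_mem (mem_union_left _ hw)) (hy _ _ (l1 _ e)).2.1)
  have eqv : ∀ v, con (con r Z) ((univ.erase v).biUnion (fun v => H (la v)) ∪ univ.image x) =
      con r (oth (la v) ∪ D v) := by
    intro v
    rw [con_con]
    have a1 : ∀ w ∈ oth (la v), Cl r (oth (la v) ∪ D v) w := fun w k => cl_mem (mem_union_left _ k)
    refine h.con_congr (fun w hw => ?_) fun w hw => ?_
    · rcases mem_union.mp hw with hw | hw
      · rcases Zc w hw with k | ⟨v', k⟩ | ⟨e', k⟩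
        · exact a1 w (Ol v k)
        · by_cases k' : v' = v
          · exact cl_mem (mem_union_right _ (k' ▸ k))
          · exact h.cl_mono ((union_subset (ho (lai.ne k')) (Ol v)).trans subset_union_left)
              (Dc v' w k)
        · exact a1 w (ho (l1 v e').ne' (hC e' k))
      rcases mem_union.mp hw with hw | hw
      · obtain ⟨v', k', k⟩ := mem_biUnion.mp hw
        exact a1 w (ho (lai.ne (ne_of_mem_erase k')) k)
      · obtain ⟨e, -, rfl⟩ := mem_image.mp hw
        exact a1 _ (ho (l1 v e).ne' (hx e))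
    · rcases mem_union.mp hw with hw | hw
      · obtain ⟨a, k', k⟩ := mem_biUnion.mp hw
        by_cases c1 : ∃ v', la v' = a
        · obtain ⟨v', rfl⟩ := c1
          exact cl_mem (mem_union_right _ (mem_union_left _ (mem_biUnion.mpr ⟨v', by
            simpa using fun e : v' = v => ne_of_mem_erase k' (by rw [e]), k⟩)))
        by_cases c2 : ∃ e, hb e = a
        · obtain ⟨e, rfl⟩ := c2
          exact h.cl_mono (insert_subset (mem_union_right _ (mem_union_right _ (by simp)))
            ((CZ e).trans subset_union_left)) (xs e w k)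
        · push Not at c1 c2
          exact cl_mem (mem_union_left _ (OZ (mem_biUnion.mpr ⟨a, mem_filter.mpr ⟨mem_univ _, c1, c2⟩, k⟩)))
      · exact cl_mem (mem_union_left _ (DZ v hw))
  have d : DiD (con r Z) (E \ Z) (fun v => H (la v)) x (fun v => y (la v) b0)
      (fun v e => y (la v) (hb e)) := by
    refine ⟨xi, fun v v' k => lai (yi _ _ _ _ (l2 v) (l2 v') k).1, fun v e v' e' k => ?_,
      fun v v' e k => n1 e (yi _ _ _ _ (l2 v) (l1 v' e) k).2.symm, fun e v k => ?_, fun e => ?_,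
      fun v => ?_, fun v e i => ?_, ?_, fun v => ?_, fun v e i => ?_, fun v e i k => ?_,
      fun v => ?_⟩
    · have := yi _ _ _ _ (l1 v e) (l1 v' e') k
      exact ⟨lai this.1, hbi this.2⟩
    · exact (mem_sdiff.mp (hy _ _ (l2 v)).1).2 (mem_biUnion.mpr ⟨_, mem_univ _, k ▸ hx e⟩)
    · exact mem_sdiff.mpr ⟨(hH _).1 (hx e), fun k => nx e (key e _ (mem_union_right _ k))⟩
    · have a1 := mem_sdiff.mp (hy _ _ (l2 v)).1
      refine mem_sdiff.mpr ⟨a1.1, fun k => ?_⟩
      rcases Zc _ k with k | ⟨v', k⟩ | ⟨e', k⟩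
      · obtain ⟨a, -, k⟩ := mem_biUnion.mp k
        exact a1.2 (mem_biUnion.mpr ⟨a, mem_univ _, k⟩)
      · rcases mem_union.mp (hD v' k) with k | k
        · exact a1.2 (mem_biUnion.mpr ⟨_, mem_univ _, k⟩)
        · obtain ⟨b, k', k⟩ := mem_image.mp k
          exact n3 ((yi _ _ _ _ (l3 v' b k') (l2 v) k).2 ▸ k')
      · exact a1.2 (mem_biUnion.mpr ⟨_, mem_univ _, hC e' k⟩)
    · exact mem_sdiff.mpr ⟨(mem_sdiff.mp (hy _ _ (l1 v e)).1).1,
        fun k => ny e v i (key e _ (mem_union_right _ k))⟩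
    · refine (h.con Z).ind_of_leaf fun J hJ ⟨z, hz⟩ => ⟨z, hz, fun k => ?_⟩
      obtain ⟨e, -, rfl⟩ := mem_image.mp (hJ hz)
      refine nx e (h.cl_trans (key e) (h.cl_mono ?_ (cl_con.mp k)))
      refine union_subset_union ?_ (Subset.refl _)
      rw [union_comm]
      exact union_subset_union (Subset.refl _) (erase_subset_erase _ hJ)
    · exact cl_con.mpr (h.cl_mono (union_subset_union (Subset.refl _) (O0.trans OZ))
        (hy _ _ (l2 v)).2.1)
    · refine cl_con.mpr (h.cl_trans (fun w hw => ?_) (hy _ _ (l1 v e)).2.1)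
      rcases mem_union.mp hw with hw | hw
      · exact cl_mem (mem_union_left _ (mem_insert_of_mem hw))
      · exact h.cl_mono (insert_subset (mem_union_left _ (mem_insert_self _ _))
          ((CZ e).trans subset_union_right)) (xs e w hw)
    · exact ny e v i (h.cl_trans (key e) (cl_con.mp k))
    · rw [eqv]
      have s1 : con r O (H (la v)) + con r O (oth (la v)) ≤ con r O (H (la v) ∪ oth (la v)) := by
        have a1 := h.con_le O (H (la v))
        have a2 := skc _ _ (Subset.refl (H (la v)))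
        simp only [con] at a1 a2 ⊢
        rw [union_assoc, union_eq_left.mpr (Ol v)]
        omega
      have s2 := di_sep_cl (h.con O) s1 (X := H (la v) ∪ D v) (C := oth (la v)) (fun w hw => by
        rcases mem_union.mp hw with hw | hw
        · exact cl_mem hw
        · exact cl_con.mpr (Dc v w hw)) fun w hw => cl_mem hw
      have s3 := di_sep_cl (h.con O) s1 (X := D v) (C := oth (la v))
        (fun w hw => cl_con.mpr (Dc v w hw)) fun w hw => cl_mem hw
      rw [con_con, union_eq_right.mpr (Ol v)] at s2 s3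
      have s4 := h.con_anti (union_subset OZ (DZ v)) (H (la v))
      rw [← con_con r O (D v)] at s4
      rw [← con_con r (oth (la v)) (D v)]
      change _ ≤ con r _ (H (la v) ∪ D v) - con r _ (D v)
      rw [s2, s3]
      exact s4
  rcases ty with ty | ty
  · exact d.par (h.con Z) (hE.con h ZE (Subset.refl _)) fk fun v => by rw [eqv]; exact ty v
  · exact d.circ (h.con Z) (hE.con h ZE (Subset.refl _)) fk fun v => by rw [eqv]; exact ty v

theorem dich (big : StBig) (ram : StRamsey) (fk : StFK) : StDich := by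
  intro n
  obtain ⟨m, fk⟩ := fk n
  rcases m with _ | m
  · refine ⟨0, fun α _ r E h hE _ => ?_⟩
    obtain ⟨σ, s1, s2, s3⟩ := di_bm (I := Fin 0 ⊕ Fin 0) (K := Fin 0 × Fin 0) h hE isEmptyElim
      isEmptyElim (fun a => isEmptyElim a) (fun a => isEmptyElim a) (fun a => isEmptyElim a)
      (fun a => isEmptyElim a) (fun a => isEmptyElim a) (by simpa using h.ind_empty)
      (fun a => isEmptyElim a) dinc (fun a => isEmptyElim a)
    exact fk σ s1 s2 s3
  obtain ⟨f, big⟩ := big (m + 1 + 1)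
  obtain ⟨N, ram⟩ := ram (f + 1) ((m + 1 + (m + 1)) + f * (m + 2)) (Bool × Finset (Fin f))
  refine ⟨N, fun α _ r E h hE ⟨H, y, pd, sk, hH, yi, hy⟩ => ?_⟩
  have ex : ∀ t : Fin (f + 1) → Fin N, ∃ κ : Bool × Finset (Fin f), StrictMono t →
      κ.2.card = m + 1 + 1 ∧ ∃ D ⊆ H (t 0) ∪ (univ \ κ.2).image fun j => y (t 0) (t j.succ),
      (κ.1 = true → Par (con (con r ((univ.erase (t 0)).biUnion H)) D)
        (κ.2.image fun j => y (t 0) (t j.succ))) ∧
      (κ.1 = false → Circ (con (con r ((univ.erase (t 0)).biUnion H)) D)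
        (κ.2.image fun j => y (t 0) (t j.succ))) := by
    intro t
    by_cases ht : StrictMono t
    · have lt : ∀ j : Fin f, t 0 < t j.succ := fun j => ht (Fin.succ_pos j)
      obtain ⟨κ, hκ⟩ := di_good (big α) (h.con ((univ.erase (t 0)).biUnion H)) (H := H (t 0))
        (z := fun j : Fin f => y (t 0) (t j.succ))
        (fun j j' k => Fin.succ_injective _ (ht.injective (yi _ _ _ _ (lt j) (lt j') k).2))
        ((hH _).2.congr fun X hX => (h.skew_con sk (mem_univ _) hX (Subset.refl _)).symm)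
        fun j => ⟨cl_con.mpr (h.cl_mono (union_subset_union (Subset.refl _)
          (subset_biUnion_of_mem H (by simp [(lt j).ne']))) (hy _ _ (lt j)).2.1),
          fun k => (hy _ _ (lt j)).2.2.1 (by simpa using cl_con.mp k)⟩
      exact ⟨κ, fun _ => hκ⟩
    · exact ⟨(true, ∅), fun k => absurd k ht⟩
  choose χ hχ using ex
  obtain ⟨g, hg⟩ := ram χ
  let A : Fin (m + 1) ⊕ Fin (m + 1) → Fin ((m + 1 + (m + 1)) + f * (m + 2)) :=
    fun v => Fin.castAdd _ (finSumFinEquiv v)
  let R : Fin f → Fin (m + 2) → Fin ((m + 1 + (m + 1)) + f * (m + 2)) :=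
    fun j o => Fin.natAdd _ (finProdFinEquiv (j, o))
  have AR : ∀ v j o, A v < R j o := fun v j o => by
    have := (finSumFinEquiv v).isLt
    simp only [A, R, Fin.lt_def, Fin.val_castAdd, Fin.val_natAdd]
    omega
  have Ai : Function.Injective A := fun v v' k =>
    finSumFinEquiv.injective (Fin.castAdd_injective _ _ k)
  have Ri : ∀ {j o j' o'}, R j o = R j' o' → j = j' ∧ o = o' := fun k => by
    simpa using finProdFinEquiv.injective (Fin.natAdd_injective _ _ k)
  have Rm : ∀ {j j'} o o', j < j' → R j o < R j' o' := fun {j j'} o o' k => by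
    have := o.isLt
    simp only [R, Fin.lt_def, Fin.val_natAdd, finProdFinEquiv_apply_val] at k ⊢
    nlinarith
  have sm : ∀ v (off : Fin f → Fin (m + 2)),
      StrictMono (Fin.cons (A v) fun j => R j (off j) : Fin (f + 1) → _) := by
    intro v off i j k
    induction j using Fin.cases with
    | zero => simp at k
    | succ j =>
      induction i using Fin.cases with
      | zero => simpa using AR v j _
      | succ i => simpa using Rm _ _ (Fin.succ_lt_succ_iff.mp k)
  obtain ⟨κ, hκ⟩ : ∃ κ, ∀ v (off : Fin f → Fin (m + 2)),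
      χ (fun i => g ((Fin.cons (A v) fun j => R j (off j) : Fin (f + 1) → _) i)) = κ :=
    ⟨_, fun v off => hg (OrderEmbedding.ofStrictMono _ (sm v off))
      (OrderEmbedding.ofStrictMono _ (sm (Sum.inl 0) fun _ => 0))⟩
  have hc : κ.2.card = m + 1 + 1 := by
    rw [← hκ (Sum.inl 0) fun _ => 0]
    exact (hχ _ (g.strictMono.comp (sm _ _))).1
  let ε : Option (Fin (m + 1)) ≃ κ.2 := (finSuccEquiv (m + 1)).symm.trans
    (κ.2.equivFinOfCardEq hc).symm
  let of' : Fin (m + 1) ⊕ Fin (m + 1) → Option (Fin (m + 1)) → Fin (m + 2) :=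
    fun v o => o.elim 0 fun k => (ded v k).1.succ
  let off : Fin (m + 1) ⊕ Fin (m + 1) → Fin f → Fin (m + 2) :=
    fun v j => if k : j ∈ κ.2 then of' v (ε.symm ⟨j, k⟩) else 0
  have o1 : ∀ v o, off v (ε o).1 = of' v o := fun v o => by simp [off]
  have o2 : ∀ v j, j ∉ κ.2 → off v j = 0 := fun v j k => by simp [off, k]
  have gd := fun v => (hχ _ (g.strictMono.comp (sm v (off v)))).2
  have hκ' := fun v => hκ v (off v)
  simp only [Function.comp_def, hκ', Fin.cons_zero, Fin.cons_succ, con_con] at gd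
  choose D hD ty using gd
  let hb : Fin (m + 1) × Fin (m + 1) → Fin N := fun e => g (R (ε (some (e.1 + e.2))).1 e.1.succ)
  have st : ∀ v, DiD.star (fun v => y (g (A v)) (g (R (ε none).1 0)))
      (fun v e => y (g (A v)) (hb e)) v = κ.2.image fun j => y (g (A v)) (g (R j (off v j))) := by
    intro v
    ext w
    simp only [DiD.star, mem_insert, mem_image, mem_filter, mem_univ, true_and]
    constructor
    · rintro (rfl | ⟨e, i, rfl⟩)
      · exact ⟨_, (ε none).2, by rw [o1]; rfl⟩
      · refine ⟨_, (ε (some (e.1 + e.2))).2, ?_⟩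
        rw [o1]
        simp only [of', Option.elim_some, ded_eq i, hb]
    · rintro ⟨j, k, rfl⟩
      obtain ⟨o, ho⟩ := ε.surjective ⟨j, k⟩
      obtain rfl : (ε o).1 = j := by rw [ho]
      rw [o1]
      rcases o with _ | k'
      · exact Or.inl rfl
      · exact Or.inr ⟨ded v k', ded_inc v k', by simp only [hb, ded_col, of', Option.elim_some]⟩
  refine di_final h hE fk pd sk hH yi hy (fun v => g (A v)) hb (g (R (ε none).1 0))
    ((univ \ κ.2).image fun j => g (R j 0)) (g.injective.comp Ai) (fun e e' k => ?_)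
    (fun v e => g.strictMono (AR _ _ _)) (fun v => g.strictMono (AR _ _ _)) (fun v b k => ?_)
    (fun e k => Fin.succ_ne_zero _ (Ri (g.injective k)).2) (fun e k => ?_) (fun k => ?_) D
    (fun v => ?_) ?_
  · have := Ri (g.injective k)
    have a1 : e.1 = e'.1 := Fin.succ_injective _ this.2
    have a2 : e.1 + e.2 = e'.1 + e'.2 := by simpa using ε.injective (Subtype.ext this.1)
    rw [a1] at a2
    exact Prod.ext a1 (add_left_cancel a2)
  · obtain ⟨j, -, rfl⟩ := mem_image.mp k
    exact g.strictMono (AR _ _ _)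
  · obtain ⟨j, -, k⟩ := mem_image.mp k
    exact Fin.succ_ne_zero _ (Ri (g.injective k)).2.symm
  · obtain ⟨j, k', k⟩ := mem_image.mp k
    exact (mem_sdiff.mp k').2 ((Ri (g.injective k)).1 ▸ (ε none).2)
  · refine (hD v).trans (union_subset_union (Subset.refl _) fun w hw => ?_)
    obtain ⟨j, k, rfl⟩ := mem_image.mp hw
    rw [o2 v j (mem_sdiff.mp k).2]
    exact mem_image_of_mem _ (mem_image_of_mem _ k)
  · rcases hb' : κ.1 with _ | _
    · exact Or.inr fun v => by rw [st]; exact (ty v).2 hb'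
    · exact Or.inl fun v => by rw [st]; exact (ty v).1 hb'

theorem jmain (grow : StGrow) (hub : StHub) (seq : StSeq) (arr : StArr) (dich : StDich) :
    StMain := by
  intro n
  obtain ⟨m, dich⟩ := dich n
  obtain ⟨M, g, arr⟩ := arr n m
  obtain ⟨K, seq⟩ := seq n M g
  obtain ⟨j, M', hub⟩ := hub n M K
  obtain ⟨w, grow⟩ := grow n j M'
  refine ⟨w, fun α _ r E X h hX wl hw => ?_⟩
  by_contra hE
  obtain ⟨r1, E1, h1, f1, s1⟩ := hub α r E X h hE hX wl (grow α r E X h hE hX wl hw)
  obtain ⟨r2, E2, h2, f2, s2⟩ := seq α r1 E1 h1 f1 s1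
  obtain ⟨r3, E3, h3, f3, s3⟩ := arr α r2 E2 h2 f2 s2
  exact dich α r3 E3 h3 f3 s3

end Pool.Agent.Lib.MP_a4b0c4_co.J
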