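import Pool.Agent.Lib.MP_a4b0c4_co.JCnt

set_option autoImplicit false
set_option linter.unusedSectionVars false
set_option linter.unusedVariables false

open Finset

namespace Pool.Agent.Lib.MP_a4b0c4_co.J

variable {α : Type} [DecidableEq α] {r : Finset α → ℤ} {E S T : Finset α} {k : ℤ}

/-- minimum cut -/
def Mn (r : Finset α → ℤ) (E S T : Finset α) (k : ℤ) (Z : Finset α) : Prop :=
  S ⊆ Z ∧ Z ⊆ E \ T ∧ lam r E Z ≤ k

lemma Mn.union (h : Rk r) (c : Conn r E S T k) {X Y : Finset α} (a : Mn r E S T k X)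
    (b : Mn r E S T k Y) : Mn r E S T k (X ∪ Y) := by
  have := h.lam_subm E X Y
  have := c (X ∩ Y) (subset_inter a.1 b.1) (inter_subset_left.trans a.2.1)
  exact ⟨a.1.trans subset_union_left, union_subset a.2.1 b.2.1, by linarith [a.2.2, b.2.2]⟩

lemma Mn.inter (h : Rk r) (c : Conn r E S T k) {X Y : Finset α} (a : Mn r E S T k X)
    (b : Mn r E S T k Y) : Mn r E S T k (X ∩ Y) := by
  have := h.lam_subm E X Y
  have := c (X ∪ Y) (a.1.trans subset_union_left) (union_subset a.2.1 b.2.1)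
  exact ⟨subset_inter a.1 b.1, inter_subset_left.trans a.2.1, by linarith [a.2.2, b.2.2]⟩

lemma guts_of (h : Rk r) (c : Conn r E S T k) {e : α} (he : e ∈ E) (hT : e ∉ T)
    (nc : ¬ Conn (con r {e}) (E.erase e) S T k) :
    ∃ Z, e ∉ Z ∧ Mn r E S T k Z ∧ Mn r E S T k (insert e Z) ∧ Cl r (E \ insert e Z) e := by
  simp only [Conn, not_forall, not_le] at nc
  obtain ⟨Z, a, b, d⟩ := nc
  have c1 := c Z a (by grind)
  have c2 := c (insert e Z) (by grind) (by grind)
  have d1 := h.single e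
  have d2 := h.mono (subset_insert e Z)
  have d3 := h.mono (X := E \ insert e Z) (Y := E \ Z) (by grind)
  have e1 : insert e (E \ insert e Z) = E \ Z := by grind
  simp only [lam, con, Mn, Cl] at *
  rw [show E.erase e ∪ {e} = E by grind, show Z ∪ {e} = insert e Z by grind,
    show E.erase e \ Z ∪ {e} = E \ Z by grind] at d
  refine ⟨Z, by grind, ⟨a, by grind, by omega⟩, ⟨by grind, by grind, by omega⟩, by rw [e1]; omega⟩

lemma tight_of_del (h : Rk r) (c : Conn r E S T k) {e : α} (he : e ∈ E) (hT : e ∉ T)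
    (nc : ¬ Conn r (E.erase e) S T k) :
    ∃ Z, e ∉ Z ∧ Mn r E S T k Z ∧ Mn r E S T k (insert e Z) := by
  simp only [Conn, not_forall, not_le] at nc
  obtain ⟨Z, a, b, d⟩ := nc
  have d2 := h.unit e Z
  have d3 := h.unit e (E \ insert e Z)
  have d4 := h.mono (erase_subset e E)
  have e1 : insert e (E \ insert e Z) = E \ Z := by grind
  simp only [lam, Mn] at *
  rw [show E.erase e \ Z = E \ insert e Z by grind] at d
  rw [e1] at d3
  refine ⟨Z, by grind, ⟨a, by grind, by omega⟩, ⟨by grind, by grind, by omega⟩⟩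

/-- a step of a maximal chain of a lattice of sets that contains a tight element is a singleton -/
lemma lattice_step {L : Finset α → Prop} (hu : ∀ X Y, L X → L Y → L (X ∪ Y))
    (hi : ∀ X Y, L X → L Y → L (X ∩ Y)) {Z Z' Ze : Finset α} {e : α} (a : L Z) (b : L Z')
    (s : Z ⊆ Z') (mx : ∀ Y, L Y → Z ⊆ Y → Y ⊆ Z' → Y = Z ∨ Y = Z') (he : e ∈ Z') (he' : e ∉ Z)
    (t1 : e ∉ Ze) (t2 : L Ze) (t3 : L (insert e Ze)) : Z' = insert e Z := by
  have k1 := mx _ (hi _ _ (hu _ _ a t2) b) (subset_inter subset_union_left s) inter_subset_right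
  have k2 := mx _ (hi _ _ (hu _ _ a t3) b) (subset_inter subset_union_left s) inter_subset_right
  have k3 : (Z ∪ insert e Ze) ∩ Z' = insert e ((Z ∪ Ze) ∩ Z') := by clear * - he; grind
  rcases k1 with k1 | k1
  · rw [k3, k1] at k2
    rcases k2 with k2 | k2
    · exact absurd (k2 ▸ mem_insert_self e Z) he'
    · exact k2.symm
  · have : e ∈ (Z ∪ Ze) ∩ Z' := by rw [k1]; exact he
    clear * - this he' t1; grind

lemma lattice_cover {L : Finset α → Prop} {Z W : Finset α} (b : L W) (s : Z ⊆ W) (ne : Z ≠ W) :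
    ∃ Z', L Z' ∧ Z ⊆ Z' ∧ Z' ⊆ W ∧ Z ≠ Z' ∧ ∀ Y, L Y → Z ⊆ Y → Y ⊆ Z' → Y = Z ∨ Y = Z' := by
  classical
  obtain ⟨Z', h1, h2⟩ := exists_min_image (W.powerset.filter fun Y => L Y ∧ Z ⊆ Y ∧ Z ≠ Y) card
    ⟨W, by simp [b, s, ne]⟩
  simp only [mem_filter, mem_powerset] at h1 h2
  refine ⟨Z', h1.2.1, h1.2.2.1, h1.1, h1.2.2.2, fun Y a c d => ?_⟩
  by_cases e : Z = Y
  · exact .inl e.symm
  · exact .inr (eq_of_subset_of_card_le d (h2 Y ⟨d.trans h1.1, a, c, e⟩))

lemma chain_pos (h : Rk r) (c : Conn r E S T k) (top : Mn r E S T k (E \ T))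
    (ti : ∀ e ∈ E \ (S ∪ T), ∃ Z, e ∉ Z ∧ Mn r E S T k Z ∧ Mn r E S T k (insert e Z))
    {Z : Finset α} (hZ : Mn r E S T k Z) :
    ∃ pos : α → ℕ, Set.InjOn pos ↑((E \ T) \ Z) ∧
      ∀ p, Mn r E S T k (Z ∪ ((E \ T) \ Z).filter fun x => pos x < p) := by
  induction hn : ((E \ T) \ Z).card generalizing Z with
  | zero => exact ⟨fun _ => 0, by simp [card_eq_zero.1 hn], by simpa [card_eq_zero.1 hn] using hZ⟩
  | succ m ih =>
    obtain ⟨Z', a, b, d, ne, mx⟩ := lattice_cover (L := Mn r E S T k) top hZ.2.1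
      (fun e => by rw [← e] at hn; simp at hn)
    obtain ⟨e, he, he'⟩ := exists_of_ssubset (lt_of_le_of_ne b ne)
    obtain ⟨Ze, t1, t2, t3⟩ := ti e (by have := hZ.1; have := d he; grind)
    obtain rfl := lattice_step (fun _ _ => Mn.union h c) (fun _ _ => Mn.inter h c) hZ a b mx he he'
      t1 t2 t3
    have m1 : e ∈ (E \ T) \ Z := by have := d he; grind
    have m2 : (E \ T) \ insert e Z = ((E \ T) \ Z).erase e := by clear * -; grind
    obtain ⟨pos, i, q⟩ := ih a (by rw [m2, card_erase_of_mem m1]; omega)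
    refine ⟨fun x => if x = e then 0 else pos x + 1, fun x hx y hy f => ?_, fun p => ?_⟩
    · by_cases x1 : x = e <;> by_cases y1 : y = e <;> simp only [x1, y1, if_true, if_false] at f
      · rw [x1, y1]
      · omega
      · omega
      · exact i (by rw [m2]; exact mem_erase.2 ⟨x1, hx⟩) (by rw [m2]; exact mem_erase.2 ⟨y1, hy⟩)
          (by omega)
    · rcases p with _ | p
      · simpa using hZ
      · have : (Z ∪ ((E \ T) \ Z).filter fun x => (if x = e then 0 else pos x + 1) < p + 1) =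
            insert e Z ∪ ((E \ T) \ insert e Z).filter fun x => pos x < p := by
          clear * - m1; grind
        rw [this]; exact q p

/-- closure along an order only needs the independent elements -/
lemma span_along (h : Rk r) {A D G : Finset α} (f : α → ℤ)
    (k : ∀ x ∈ G, Cl r (A ∪ (D ∪ G).filter fun y => f y < f x) x) :
    ∀ x ∈ G, Cl r (A ∪ D.filter fun y => f y < f x) x := by
  intro x hx
  induction hn : (G.filter fun y => f y < f x).card using Nat.strong_induction_on generalizing x with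
  | _ n ih =>
    refine h.cl_trans (fun y hy => ?_) (k x hx)
    by_cases m : y ∈ A ∪ D.filter fun y => f y < f x
    · exact cl_mem m
    · have hy' : y ∈ G ∧ f y < f x := by clear * - m hy; grind
      refine h.cl_mono ?_ (ih _ ?_ y hy'.1 rfl)
      · clear * - hy'; grind
      · rw [← hn]
        refine card_lt_card ⟨by clear * - hy'; grind, fun s => ?_⟩
        have := s (mem_filter.2 hy'); simp at this

/-- a strip of width k between S and T -/
structure Chain (r : Finset α → ℤ) (E S T D G : Finset α) (pos : α → ℕ) (k : ℕ) : Prop where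
  part : E = S ∪ T ∪ D ∪ G
  d1 : Disjoint (T ∪ D) (S ∪ G)
  d2 : Disjoint T D
  d3 : Disjoint S G
  inj : Set.InjOn pos ↑(D ∪ G)
  left : ∀ c ∈ G, Cl r (S ∪ D.filter fun y => pos y < pos c) c
  right : ∀ c ∈ G, Cl r (T ∪ D.filter fun y => pos c < pos y) c
  iS : Ind r (S ∪ D)
  iT : Ind r (T ∪ D)
  cS : S.card = k
  cT : T.card = k
  cut : ∀ p, lam r E (S ∪ (D ∪ G).filter fun x => pos x < p) ≤ k
  tot : r E ≤ r (T ∪ D)

lemma chain_ex {k : ℕ} (h : Rk r) (hS : S ⊆ E) (hT : T ⊆ E) (d : Disjoint S T) (cS : S.card = k)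
    (cT : T.card = k) (c : Conn r E S T k) (F : Finset α)
    (ti : ∀ e ∈ E \ (S ∪ T), ∃ Z, e ∉ Z ∧ Mn r E S T k Z ∧ Mn r E S T k (insert e Z) ∧
      (e ∈ F → Cl r (E \ insert e Z) e)) (hF : F ⊆ E \ (S ∪ T)) :
    ∃ D G pos, Chain r E S T D G pos k ∧ F ⊆ G := by
  classical
  have mS : Mn r E S T k S := ⟨subset_rfl, by grind [disjoint_left],
    (h.lam_le_rk E S).trans (cS ▸ h.le_card S)⟩
  have mT : Mn r E S T k (E \ T) := ⟨by grind [disjoint_left], subset_rfl, by
    rw [lam_compl hT]; exact (h.lam_le_rk E T).trans (cT ▸ h.le_card T)⟩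
  obtain ⟨pos, i, q⟩ := chain_pos h c mT (fun e he => by
    obtain ⟨Z, a, b, d, -⟩ := ti e he; exact ⟨Z, a, b, d⟩) mS
  set W := (E \ T) \ S with hW
  set Zp : ℕ → Finset α := fun p => S ∪ W.filter fun x => pos x < p with hZ
  have st : ∀ e ∈ W, Zp (pos e + 1) = insert e (Zp (pos e)) ∧ e ∉ Zp (pos e) := fun e he => by
    refine ⟨?_, by clear * - he hW; grind⟩
    ext x
    have : x ∈ W → pos x = pos e → x = e := fun a b => i a he b
    clear * - he this; grind
  have eq : ∀ p, lam r E (Zp p) = k := fun p => le_antisymm (q p).2.2 (c _ (q p).1 (q p).2.1)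
  have st2 : ∀ e ∈ W, (Cl r (Zp (pos e)) e ↔ Cl r (E \ insert e (Zp (pos e))) e) := fun e he => by
    have a := eq (pos e)
    have b := eq (pos e + 1)
    rw [(st e he).1] at b
    have e1 : insert e (E \ insert e (Zp (pos e))) = E \ Zp (pos e) := by
      have := (st e he).2; clear * - this he hW; grind
    simp only [lam, Cl] at *; rw [e1]; omega
  set D := W.filter fun e => ¬ Cl r (Zp (pos e)) e with hD
  set G := W.filter fun e => Cl r (Zp (pos e)) e with hG
  have u : D ∪ G = W := by clear * - hD hG; grind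
  have l1 : ∀ c ∈ G, Cl r (S ∪ D.filter fun y => pos y < pos c) c := by
    have := span_along h (A := S) (D := D) (G := G) (fun x => (pos x : ℤ)) fun x hx => by
      rw [u]; simpa using (mem_filter.1 hx).2
    simpa using this
  have l2 : ∀ c ∈ G, Cl r (T ∪ D.filter fun y => pos c < pos y) c := by
    have := span_along h (A := T) (D := D) (G := G) (fun x => -(pos x : ℤ)) fun x hx => by
      rw [u]
      refine h.cl_mono (fun y hy => ?_) ((st2 x (mem_filter.1 hx).1).1 (mem_filter.1 hx).2)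
      have : y ∈ W → pos y = pos x → y = x := fun a b => i a (mem_filter.1 hx).1 b
      clear * - this hy hW hZ; grind
    simpa using this
  have i1 : Ind (con r S) D := h.ind_of_leaf fun J hJ ne => by
    obtain ⟨e, he, m⟩ := exists_max_image J pos ne
    refine ⟨e, he, fun k => (mem_filter.1 (hJ he)).2 (h.cl_mono (fun y hy => ?_) k)⟩
    have : y ∈ J → y ∈ W ∧ (pos y = pos e → y = e) ∧ pos y ≤ pos e := fun a =>
      ⟨(mem_filter.1 (hJ a)).1, i (mem_filter.1 (hJ a)).1 (mem_filter.1 (hJ he)).1, m y a⟩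
    clear * - this hy hZ; grind
  have i2 : Ind (con r T) D := h.ind_of_leaf fun J hJ ne => by
    obtain ⟨e, he, m⟩ := exists_min_image J pos ne
    refine ⟨e, he, fun k => (mem_filter.1 (hJ he)).2 ((st2 e (mem_filter.1 (hJ he)).1).2
      (h.cl_mono (fun y hy => ?_) k))⟩
    have : y ∈ J → y ∈ W ∧ pos e ≤ pos y := fun a => ⟨(mem_filter.1 (hJ a)).1, m y a⟩
    have h2 := (mem_filter.1 (hJ he)).1
    clear * - this hy hZ hW d hT h2; grind [disjoint_left]
  have rS : Ind r S := h.ind_iff.2 (cS ▸ (c S mS.1 mS.2.1).trans (h.lam_le_rk E S))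
  have rT : Ind r T := h.ind_iff.2 (cT ▸ by
    have := c _ mT.1 mT.2.1
    rw [lam_compl hT] at this; exact this.trans (h.lam_le_rk E T))
  have sD : D ⊆ W := filter_subset _ _
  have sG : G ⊆ W := filter_subset _ _
  have dDG : Disjoint D G := by clear * - hD hG; grind [disjoint_left]
  refine ⟨D, G, pos, ⟨?_, ?_, ?_, ?_, u ▸ i, l1, l2, union_comm S D ▸ h.ind_union rS i1,
    union_comm T D ▸ h.ind_union rT i2, cS, cT, fun p => u ▸ (q p).2.2, ?_⟩, fun e he => ?_⟩
  · rw [union_assoc, u]; clear * - hS hT hW; grind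
  · clear * - sD sG dDG d hW; grind [disjoint_left]
  · clear * - sD hW; grind [disjoint_left]
  · clear * - sG hW; grind [disjoint_left]
  · have a := c S mS.1 mS.2.1
    have b := h.span_le' (A := T ∪ D) (X := G) (B := T ∪ D) (Y := E \ S)
      (fun e he => h.cl_mono (by clear * -; grind) (l2 e he)) subset_rfl
      (by rw [union_assoc, u]; clear * - hW; grind)
    unfold Ind lam at *; omega
  · obtain ⟨Z, a, b, b', g⟩ := ti e (hF he)
    have hw : e ∈ W := by have := hF he; clear * - this hW; grind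
    refine mem_filter.2 ⟨hw, by_contra fun nc => ?_⟩
    have m1 := (q (pos e)).inter h c b
    have m2 := (q (pos e + 1)).inter h c b'
    change Mn r E S T k (Zp (pos e) ∩ Z) at m1
    change Mn r E S T k (Zp (pos e + 1) ∩ insert e Z) at m2
    rw [(st e hw).1, ← insert_inter_distrib] at m2
    have n1 := h.not_cl.1 fun k => nc (h.cl_mono (inter_subset_left (s₂ := Z)) k)
    have n2 := h.cl_mono (B := E \ insert e (Zp (pos e) ∩ Z)) (by clear * -; grind) (g he)
    have n3 := c _ m1.1 m1.2.1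
    have n4 := m2.2.2
    have e1 : insert e (E \ insert e (Zp (pos e) ∩ Z)) = E \ (Zp (pos e) ∩ Z) := by
      clear * - a hw hW; grind
    simp only [lam, Cl] at n1 n2 n3 n4
    rw [e1] at n2; omega

end Pool.Agent.Lib.MP_a4b0c4_co.J
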