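import Pool.Agent.Lib.MP_a4b0c4_co.JBasic

set_option autoImplicit false
set_option linter.unusedSectionVars false
set_option linter.unusedVariables false

open Finset

namespace Pool.Agent.Lib.MP_a4b0c4_co.J

variable {α β ε : Type} [DecidableEq α] [DecidableEq β] {r r' : Finset α → ℤ} {n : ℕ}

lemma HasMinor.congr {E : Finset α} {G : Finset ε} {P : Finset ε → Prop}
    (e : ∀ X ⊆ E, r X = r' X) (h : HasMinor r E G P) : HasMinor r' E G P := by
  obtain ⟨C, f, hC, fi, fm, h⟩ := h
  refine ⟨C, f, hC, fi, fm, fun I hI => ?_⟩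
  rw [← h I hI]
  simp only [con]
  rw [e C hC, e _ (union_subset (fun x hx => by
    obtain ⟨y, hy, rfl⟩ := mem_image.1 hx; exact (fm y (hI hy)).1) hC)]

lemma HasMinor.of_con {E C E' : Finset α} {G : Finset ε} {P : Finset ε → Prop} (hC : C ⊆ E)
    (hE : E' ⊆ E \ C) (h : HasMinor (con r C) E' G P) : HasMinor r E G P := by
  obtain ⟨D, f, hD, fi, fm, h⟩ := h
  refine ⟨C ∪ D, f, by grind, fi, fun x hx => by have := fm x hx; grind, fun I hI => ?_⟩
  rw [← h I hI, con_con]

lemma HasMinor.mono {E E' : Finset α} {G : Finset ε} {P : Finset ε → Prop}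
    (hE : E' ⊆ E) (h : HasMinor r E' G P) : HasMinor r E G P := by
  obtain ⟨D, f, hD, fi, fm, h⟩ := h
  exact ⟨D, f, hD.trans hE, fi, fun x hx => ⟨hE (fm x hx).1, (fm x hx).2⟩, h⟩

lemma HasMinor.of_pull {E : Finset β} {f : β → α} {G : Finset ε} {P : Finset ε → Prop}
    (hf : Set.InjOn f E) (h : HasMinor (pull r f) E G P) : HasMinor r (E.image f) G P := by
  obtain ⟨D, g, hD, gi, gm, h⟩ := h
  refine ⟨D.image f, f ∘ g, image_subset_image hD, fun x hx y hy e =>
    gi hx hy (hf (gm x hx).1 (gm y hy).1 e), fun x hx => ⟨mem_image_of_mem _ (gm x hx).1, fun k => ?_⟩,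
    fun I hI => ?_⟩
  · obtain ⟨y, hy, e⟩ := mem_image.1 k
    exact (gm x hx).2 (hf (hD hy) (gm x hx).1 e ▸ hy)
  · rw [← h I hI]
    simp only [con, pull, image_union, image_image]

/-- a minor given on an index set with its own rank function -/
lemma HasMinor.mk' [DecidableEq ε] {E C : Finset α} {f : ε → α} {G : Finset ε}
    {P : Finset ε → Prop} (hC : C ⊆ E) (fi : Set.InjOn f G) (fm : ∀ x ∈ G, f x ∈ E ∧ f x ∉ C)
    (h : ∀ I ⊆ G, Ind (pull (con r C) f) I ↔ P I) : HasMinor r E G P := ⟨C, f, hC, fi, fm, h⟩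

/-- restriction of the target along an injective map -/
lemma HasMinor.restrict {ε' : Type} [DecidableEq ε] {E : Finset α} {G : Finset ε} {G' : Finset ε'}
    {P : Finset ε → Prop} {P' : Finset ε' → Prop} (g : ε' → ε) (gi : Set.InjOn g G')
    (gm : ∀ x ∈ G', g x ∈ G) (e : ∀ I ⊆ G', P (I.image g) ↔ P' I) (h : HasMinor r E G P) :
    HasMinor r E G' P' := by
  obtain ⟨C, f, hC, fi, fm, h⟩ := h
  refine ⟨C, f ∘ g, hC, fun x hx y hy k => gi hx hy (fi (gm x hx) (gm y hy) k),
    fun x hx => fm _ (gm x hx), fun I hI => ?_⟩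
  rw [← e I hI, ← h _ (fun x hx => by obtain ⟨y, hy, rfl⟩ := mem_image.1 hx; exact gm y (hI hy)),
    image_image, card_image_of_injOn (gi.mono hI)]

lemma Out1.imp {E : Finset α} {E' : Finset β} {r' : Finset β → ℤ}
    (k : ∀ (ε : Type) (G : Finset ε) (P : Finset ε → Prop), HasMinor r E G P → HasMinor r' E' G P)
    (h : Out1 n r E) : Out1 n r' E' :=
  Or.imp (k _ _ _) (Or.imp (k _ _ _) (k _ _ _)) h

lemma dual_congr {E : Finset α} (e : ∀ X ⊆ E, r X = r' X) : dual r E = dual r' E := by
  funext X; simp only [dual]; rw [e _ sdiff_subset, e _ subset_rfl]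

lemma dual_pull {E : Finset β} {f : β → α} (hf : Set.InjOn f E) {X : Finset β} (hX : X ⊆ E) :
    dual (pull r f) E X = pull (dual r (E.image f)) f X := by
  simp only [dual, pull]
  rw [inter_eq_left.2 hX, inter_eq_left.2 (image_subset_image hX), card_image_of_injOn (hf.mono hX),
    image_sdiff_of_injOn hf hX]

lemma Free.congr {E : Finset α} (e : ∀ X ⊆ E, r X = r' X) (h : Free n r E) : Free n r' E := by
  intro k
  refine h (k.imp (Out1.imp fun _ _ _ => HasMinor.congr fun X hX => (e X hX).symm) ?_)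
  rw [dual_congr e]; exact id

lemma Free.con (hr : Rk r) {E C E' : Finset α} (h : Free n r E) (hC : C ⊆ E) (hE : E' ⊆ E \ C) :
    Free n (con r C) E' := by
  intro k
  refine h (k.imp (Out1.imp fun _ _ _ => HasMinor.of_con hC hE) (Out1.imp fun _ _ _ m => ?_))
  exact HasMinor.of_con (C := E \ (C ∪ E')) sdiff_subset (by grind)
    (m.congr fun X hX => dual_con hr hC hE hX)

lemma Free.mono (hr : Rk r) {E E' : Finset α} (h : Free n r E) (hE : E' ⊆ E) : Free n r E' := by
  have := h.con hr (empty_subset E) (E' := E') (by simpa using hE)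
  rwa [hr.con_empty] at this

lemma Free.dual (hr : Rk r) {E : Finset α} (h : Free n r E) : Free n (dual r E) E := by
  rintro (k | k)
  · exact h (.inr k)
  · exact h (.inl (k.imp fun _ _ _ => HasMinor.congr fun X hX => dual_dual hr hX))

lemma Free.pull (hr : Rk r) {E : Finset α} {E' : Finset β} {f : β → α} (h : Free n r E)
    (hf : Set.InjOn f E') (hE : ∀ x ∈ E', f x ∈ E) : Free n (pull r f) E' := by
  intro k
  refine h.mono hr (E' := E'.image f) (fun x hx => by
    obtain ⟨y, hy, rfl⟩ := mem_image.1 hx; exact hE y hy) ?_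
  exact k.imp (Out1.imp fun _ _ _ => HasMinor.of_pull hf) (Out1.imp fun _ _ _ m =>
    HasMinor.of_pull hf (m.congr fun X hX => dual_pull hf hX))

lemma Free.not_M {E : Finset α} (h : Free n r E) : ¬ HasMinor r E (GE n) (MG gends) :=
  fun k => h (.inl (.inr (.inl k)))
lemma Free.not_B {E : Finset α} (h : Free n r E) : ¬ HasMinor r E (GE n) (BG gends) :=
  fun k => h (.inl (.inr (.inr k)))

lemma Free.pos {E : Finset α} (h : Free n r E) (x : α) : 0 < n := by
  rcases Nat.eq_zero_or_pos n with rfl | k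
  · refine absurd (.inl (.inl ⟨∅, fun _ => x, empty_subset _, by simp, by simp, fun I hI => ?_⟩)) h
    obtain rfl : I = ∅ := by simpa using hI
    simp [J.con]
  · exact k

/-- a uniform restriction of rank at least n with n further elements gives the uniform minor -/
lemma Free.unif (hr : Rk r) (hn0 : 0 < n) {E H : Finset α} (h : Free n r E) (hH : H ⊆ E) {s : ℕ}
    (h1 : ∀ I ⊆ H, I.card = s → Ind r I) (h2 : r H ≤ s) (h3 : s + n ≤ H.card) : s < n := by
  by_contra hn
  push Not at hn
  obtain ⟨C, hC, cC⟩ := exists_subset_card_eq (s := H) (n := s - n) (by omega)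
  obtain ⟨U, hU, cU⟩ := exists_subset_card_eq (s := H \ C) (n := 2 * n)
    (by rw [card_sdiff_of_subset hC]; omega)
  have hi : ∀ I ⊆ H, I.card ≤ s → Ind r I := fun I hI c => by
    obtain ⟨J, a, b, d⟩ := exists_subsuperset_card_eq hI c (by omega)
    exact hr.ind_sub (h1 J b d) a
  obtain ⟨x0, -⟩ : U.Nonempty := card_pos.1 (by omega)
  let e := U.equivFinOfCardEq cU
  let f : ℕ → α := fun i => if k : i < 2 * n then (e.symm ⟨i, k⟩).1 else x0
  have fm : ∀ i ∈ range (2 * n), f i ∈ U := fun i hi => by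
    simp only [f, dif_pos (mem_range.1 hi)]; exact (e.symm _).2
  have fi : Set.InjOn f (range (2 * n)) := fun i hi j hj k => by
    simp only [coe_range, Set.mem_Iio] at hi hj
    simp only [f, dif_pos hi, dif_pos hj] at k
    simpa using e.symm.injective (Subtype.ext k)
  refine h (.inl (.inl ⟨C, f, hC.trans hH, fi, fun i hi => by have := fm i hi; grind,
    fun I hI => ?_⟩))
  have s1 : I.image f ⊆ U := fun x hx => by
    obtain ⟨y, hy, rfl⟩ := mem_image.1 hx; exact fm y (hI hy)
  have c1 := card_image_of_injOn (fi.mono (coe_subset.2 hI))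
  have c2 := card_union_of_disjoint (s := I.image f) (t := C) (by grind [disjoint_left])
  have c3 := hi C hC (by omega)
  have c4 := hr.mono (X := I.image f ∪ C) (Y := H) (by grind)
  simp only [J.con]
  unfold Ind at c3
  constructor
  · intro k; omega
  · intro k
    have := hi (I.image f ∪ C) (by grind) (by omega)
    unfold Ind at this; omega

/-- an indiscernible family of bounded rank has rank less than n, and any n-1 members span -/
lemma Free.indisc (hr : Rk r) (hn0 : 0 < n) {E H : Finset α} (h : Free n r E) (hH : H ⊆ E) {K : ℕ}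
    (h1 : ∀ I ⊆ H, ∀ J ⊆ H, I.card = J.card → r I = r J) (h2 : r H ≤ K) (h3 : K + n ≤ H.card) :
    r H < n ∧ ∀ I ⊆ H, n ≤ I.card + 1 → ∀ e ∈ H, Cl r I e := by
  obtain ⟨B, b1, b2, b3, b4⟩ := hr.basis H
  have hi : ∀ I ⊆ H, I.card = B.card → Ind r I := fun I hI c => by
    unfold Ind at *; rw [h1 I hI B b1 c, b2, c]
  have := h.unif hr hn0 hH hi b4.le (by omega)
  refine ⟨by omega, fun I hI c e he => ?_⟩
  obtain ⟨J, a, b⟩ := exists_subset_card_eq (s := I) (n := B.card) (by omega)
  have := hi J (a.trans hI) b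
  exact hr.cl_mono a (hr.cl_of_le (a.trans hI) he (by unfold Ind at this; omega))

end Pool.Agent.Lib.MP_a4b0c4_co.J
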