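import Pool.Agent.Lib.MP_a4b0c4_co.JEng1
import Pool.Agent.Lib.MP_a4b0c4_co.JOut

set_option autoImplicit false
set_option linter.unusedSectionVars false
set_option linter.unusedVariables false

open Finset

namespace Pool.Agent.Lib.MP_a4b0c4_co.J

variable {α ι κ : Type} [DecidableEq α] [Fintype ι] [DecidableEq ι] [Fintype κ] [DecidableEq κ]

/-- a level -/
def lev (P : ι × κ → Finset α) (i : ι) : Finset α := univ.biUnion fun j => P (i, j)

lemma mem_lev {P : ι × κ → Finset α} {i : ι} {x : α} : x ∈ lev P i ↔ ∃ j, x ∈ P (i, j) := by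
  simp [lev]

structure ED (n : ℕ) (k γ : ℤ) (r : Finset α → ℤ) (E S T R : Finset α) (P : ι × κ → Finset α) :
    Prop where
  rk : Rk r
  free : Free n r E
  sS : S ⊆ E
  sT : T ⊆ E
  sR : R ⊆ E
  sP : ∀ x, P x ⊆ E \ (S ∪ T ∪ R)
  pd : PD P
  conn : Conn r E S T k
  cn : ∀ x, Cntd (con r R) (P x)
  sk : Skew (con r R) univ P
  bl : ∀ i, ∃ Z, S ⊆ Z ∧ Z ⊆ (E \ lev P i) \ T ∧
    lam (con r (lev P i)) (E \ lev P i) Z + loc r (lev P i) R < γ

variable {n : ℕ} {k γ : ℤ} {r : Finset α → ℤ} {E S T R : Finset α} {P : ι × κ → Finset α}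

lemma ED.del (h : ED n k γ r E S T R P) {e : α} (h1 : e ∉ S ∪ T ∪ R) (h2 : ∀ x, e ∉ P x)
    (c : Conn r (E.erase e) S T k) : ED n k γ r (E.erase e) S T R P := by
  have := h.sS; have := h.sT; have := h.sR
  refine ⟨h.rk, h.free.mono h.rk (erase_subset _ _), by grind, by grind, by grind,
    fun x => by have := h.sP x; have := h2 x; grind, h.pd, c, h.cn, h.sk, fun i => ?_⟩
  obtain ⟨Z, a, b, d⟩ := h.bl i
  have := (h.rk.con (lev P i)).lam_del (E := E \ lev P i) (E' := E.erase e \ lev P i) (Z := Z)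
    (by clear * -; grind) (b.trans sdiff_subset)
  exact ⟨Z ∩ (E.erase e \ lev P i), by clear * - a b h1; grind, by clear * - b; grind, by linarith⟩

lemma lam_cc (h : Rk r) {F F' Z : Finset α} {e : α} (he : e ∈ E) (hF : insert e F' = insert e F)
    (hZ : Z ⊆ E \ F) :
    lam (con (con r {e}) F') (E.erase e \ F') (Z.erase e) ≤ lam (con r F) (E \ F) Z := by
  have mm : ∀ x, x = e ∨ x ∈ F' ↔ x = e ∨ x ∈ F := fun x => by
    rw [← mem_insert, hF, mem_insert]
  by_cases m : e ∈ F
  · rw [con_con, show {e} ∪ F' = F by clear * - mm m; grind,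
      show E.erase e \ F' = E \ F by clear * - mm m; grind,
      show Z.erase e = Z by clear * - hZ m; grind]
  · have := (h.con F).lam_minor (E := E \ F) (C := {e}) (E' := E.erase e \ F') (Z := Z)
      (Z' := Z.erase e) (by clear * - m he; grind) (by clear * - mm; grind) hZ
      (by clear * - mm hZ; grind) (by clear * -; grind) (by clear * - mm; grind)
    rwa [con_con, show F ∪ {e} = {e} ∪ F' by clear * - mm; grind, ← con_con] at this

lemma ED.conR (h : ED n k γ r E S T R P) {e : α} (h1 : e ∈ R) (h2 : e ∉ S ∪ T)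
    (c : Conn (con r {e}) (E.erase e) S T k) :
    ED n k γ (con r {e}) (E.erase e) S T (R.erase e) P := by
  have := h.sS; have := h.sT; have := h.sR
  have q : con (con r {e}) (R.erase e) = con r R := by
    rw [con_con, show {e} ∪ R.erase e = R by clear * - h1; grind]
  refine ⟨h.rk.con _, h.free.con h.rk (by grind) (by grind), by grind, by grind, by grind,
    fun x => by have := h.sP x; grind, h.pd, c, q ▸ h.cn, q ▸ h.sk, fun i => ?_⟩
  obtain ⟨Z, a, b, d⟩ := h.bl i
  have l1 := lam_cc h.rk (F := lev P i) (F' := lev P i) (h.sR h1) rfl (b.trans sdiff_subset)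
  have l2 := h.rk.union_le (subset_refl (lev P i ∪ {e}))
  refine ⟨Z.erase e, by clear * - a h2; grind, by clear * - b; grind, ?_⟩
  simp only [loc, con] at *
  rw [show R.erase e ∪ {e} = R by clear * - h1; grind,
    show lev P i ∪ R.erase e ∪ {e} = lev P i ∪ R by clear * - h1; grind]
  linarith

lemma lev_erase (P : ι × κ → Finset α) (e : α) (i : ι) :
    lev (fun x => (P x).erase e) i = (lev P i).erase e := by
  ext x; simp only [mem_lev, mem_erase]; tauto

lemma ED.lev_sep (h : ED n k γ r E S T R P) {e : α} {x : ι × κ} (he : e ∈ P x) {i : ι}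
    (hi : e ∉ lev P i) : con r R (lev P i) + con r R {e} ≤ con r R (lev P i ∪ {e}) := by
  refine (h.rk.con R).sep_sub ((h.rk.con R).skew_sep h.sk (t := univ.erase x) (u := {x})
    (subset_univ _) (subset_univ _) (by simp)) (fun y hy => ?_) (by simpa using he)
  obtain ⟨j, hj⟩ := mem_lev.1 hy
  refine mem_biUnion.2 ⟨(i, j), mem_erase.2 ⟨fun q => hi (mem_lev.2 ⟨j, q ▸ he⟩), mem_univ _⟩, hj⟩

lemma ED.conP (h : ED n k γ r E S T R P) {e : α} {x : ι × κ} (he : e ∈ P x)
    (c : Conn (con r {e}) (E.erase e) S T k) (cn : Cntd (con (con r R) {e}) ((P x).erase e)) :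
    ED n k γ (con r {e}) (E.erase e) S T R fun y => (P y).erase e := by
  have := h.sS; have := h.sT; have := h.sR
  have m := h.sP x he
  have q : con (con r {e}) R = con (con r R) {e} := by rw [con_con, con_con, union_comm]
  have hr := h.rk.con R
  refine ⟨h.rk.con _, h.free.con h.rk (by grind) (by grind), by grind, by grind, by grind,
    fun y => by have := h.sP y; grind, fun a b ab => (h.pd a b ab).mono (erase_subset _ _)
      (erase_subset _ _), c, fun y => ?_, ?_, fun i => ?_⟩
  · rw [q]
    by_cases xy : y = x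
    · exact xy ▸ cn
    · rw [erase_eq_of_notMem fun k => disjoint_left.1 (h.pd y x xy) k he]
      refine (h.cn y).congr fun X hX => (hr.skew_con h.sk (mem_univ y) hX ?_).symm
      exact singleton_subset_iff.2 (mem_biUnion.2 ⟨x, by simp [Ne.symm xy], he⟩)
  · have := hr.skew_con_skew h.sk (C := fun y => P y ∩ {e}) fun _ _ => inter_subset_left
    rw [show (univ.biUnion fun y => P y ∩ {e}) = {e} by
      ext z; simp only [mem_biUnion, mem_inter, mem_univ, mem_singleton]; clear * - he; grind] at this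
    rw [q]
    exact (hr.con _).skew_sub this subset_rfl fun _ _ => erase_subset _ _
  · obtain ⟨Z, a, b, d⟩ := h.bl i
    rw [lev_erase]
    have l1 := lam_cc h.rk (F := lev P i) (F' := (lev P i).erase e) (e := e) (E := E) (by grind)
      (by clear * -; grind) (b.trans sdiff_subset)
    refine ⟨Z.erase e, by clear * - a m; grind, by clear * - b; grind, ?_⟩
    suffices loc (con r {e}) ((lev P i).erase e) R ≤ loc r (lev P i) R by linarith
    by_cases mi : e ∈ lev P i
    · have l2 := h.rk.union_le (subset_refl (R ∪ {e}))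
      simp only [loc, con]
      rw [show (lev P i).erase e ∪ {e} = lev P i by clear * - mi; grind,
        show (lev P i).erase e ∪ R ∪ {e} = lev P i ∪ R by clear * - mi; grind]
      linarith
    · have l2 := h.rk.union_le (subset_refl (lev P i ∪ {e}))
      have l3 := h.lev_sep he mi
      simp only [loc, con] at l3 ⊢
      rw [erase_eq_of_notMem mi, union_right_comm, union_comm R]
      linarith

lemma ED.move (h : ED n k γ r E S T R P) {e : α} {x : ι × κ} (he : e ∈ P x)
    (cn : Cntd (con r R) ((P x).erase e)) (cl : Cl (con r R) ((P x).erase e) e) :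
    ED n k γ r E S T R fun y => (P y).erase e := by
  refine ⟨h.rk, h.free, h.sS, h.sT, h.sR, fun y => (erase_subset _ _).trans (h.sP y),
    fun a b ab => (h.pd a b ab).mono (erase_subset _ _) (erase_subset _ _), h.conn, fun y => ?_,
    (h.rk.con _).skew_sub h.sk subset_rfl fun _ _ => erase_subset _ _, fun i => ?_⟩
  · by_cases xy : y = x
    · exact xy ▸ cn
    · rw [erase_eq_of_notMem fun k => disjoint_left.1 (h.pd y x xy) k he]; exact h.cn y
  · obtain ⟨Z, a, b, d⟩ := h.bl i
    rw [lev_erase]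
    by_cases mi : e ∈ lev P i
    swap
    · rw [erase_eq_of_notMem mi]; exact ⟨Z, a, b, d⟩
    refine ⟨Z, a, by clear * - b; grind, ?_⟩
    have s1 : P x ⊆ lev P i := by
      obtain ⟨j, hj⟩ := mem_lev.1 mi
      by_cases xy : (i, j) = x
      · exact fun y hy => mem_lev.2 ⟨j, xy ▸ hy⟩
      · exact absurd he (disjoint_left.1 (h.pd _ _ xy) hj)
    have s2 : lev P i ⊆ E := fun y hy => by
      obtain ⟨j, hj⟩ := mem_lev.1 hy; exact (mem_sdiff.1 (h.sP _ hj)).1
    have c1 := h.rk.cl_mono (B := (lev P i).erase e ∪ R) (by clear * - s1; grind) (cl_con.1 cl)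
    have c2 := h.rk.mono (X := Z ∪ (lev P i).erase e) (Y := Z ∪ lev P i) (by clear * -; grind)
    simp only [loc, con, lam, Cl] at c1 d ⊢
    rw [show insert e ((lev P i).erase e ∪ R) = lev P i ∪ R by clear * - mi; grind] at c1
    rw [show (E \ (lev P i).erase e) \ Z ∪ (lev P i).erase e = (E \ lev P i) \ Z ∪ lev P i by
        clear * - s2 b mi; grind,
      show E \ (lev P i).erase e ∪ (lev P i).erase e = E \ lev P i ∪ lev P i by
        clear * - s2 mi; grind]
    linarith

lemma ED.terminal {k : ℕ} (h : ED n k γ r E S T R P) (d : Disjoint S T) (cS : S.card = k)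
    (cT : T.card = k) :
    ∃ (r : Finset α → ℤ) (E R : Finset α) (P : ι × κ → Finset α) (D G : Finset α) (pos : α → ℕ),
      ED n k γ r E S T R P ∧ Chain r E S T D G pos k ∧ ∀ x, P x ⊆ G := by
  induction hn : E.card + ∑ x, (P x).card using Nat.strong_induction_on generalizing r E R P with
  | _ m ih =>
    have s1 : ∀ e, ∑ x, ((P x).erase e).card ≤ ∑ x, (P x).card := fun e =>
      sum_le_sum fun _ _ => card_erase_le
    by_cases c1 : ∃ e ∈ E, e ∉ S ∪ T ∪ R ∧ (∀ x, e ∉ P x) ∧ Conn r (E.erase e) S T k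
    · obtain ⟨e, he, a, b, c⟩ := c1
      exact ih _ (by have := card_erase_lt_of_mem he; omega) (h.del a b c) rfl
    by_cases c2 : ∃ e ∈ R, e ∉ S ∪ T ∧ Conn (con r {e}) (E.erase e) S T k
    · obtain ⟨e, he, a, c⟩ := c2
      exact ih _ (by have := card_erase_lt_of_mem (h.sR he); omega) (h.conR he a c) rfl
    by_cases c3 : ∃ x, ∃ e ∈ P x, Conn (con r {e}) (E.erase e) S T k
    · obtain ⟨x, e, he, c⟩ := c3
      by_cases cn : Cntd (con (con r R) {e}) ((P x).erase e)
      · exact ih _ (by
          have := card_erase_lt_of_mem (mem_sdiff.1 (h.sP x he)).1; have := s1 e; omega)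
          (h.conP he c cn) rfl
      · obtain ⟨f, hf⟩ : ((P x).erase e).Nonempty := by
          by_contra q; rw [not_nonempty_iff_eq_empty.1 q] at cn; exact cn cntd_empty
        refine ih _ ?_ (h.move he (((h.rk.con R).cntd_tutte (h.cn x) he).resolve_right cn)
          ((h.rk.con R).cntd_cl (h.cn x) he (mem_erase.1 hf).2 (mem_erase.1 hf).1).1) rfl
        have : ∑ x, ((P x).erase e).card < ∑ x, (P x).card :=
          sum_lt_sum (fun _ _ => card_erase_le) ⟨x, mem_univ _, card_erase_lt_of_mem he⟩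
        omega
    push Not at c1 c2 c3
    obtain ⟨D, G, pos, a, b⟩ := chain_ex h.rk h.sS h.sT d cS cT h.conn (univ.biUnion P)
      (fun e he => by
        have hE := (mem_sdiff.1 he).1
        have hT : e ∉ T := by clear * - he; grind
        by_cases q : e ∈ R ∨ ∃ x, e ∈ P x
        · obtain ⟨Z, z1, z2, z3, z4⟩ := guts_of h.rk h.conn hE hT (by
            rcases q with q | ⟨x, q⟩
            exacts [c2 e q (mem_sdiff.1 he).2, c3 x e q])
          exact ⟨Z, z1, z2, z3, fun _ => z4⟩
        · push Not at q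
          obtain ⟨Z, z1, z2, z3⟩ := tight_of_del h.rk h.conn hE hT
            (c1 e hE (by clear * - he q; grind) q.2)
          exact ⟨Z, z1, z2, z3, fun w => by
            obtain ⟨x, -, hx⟩ := mem_biUnion.1 w; exact absurd hx (q.2 x)⟩)
      (fun e he => by
        obtain ⟨x, -, hx⟩ := mem_biUnion.1 he
        have := h.sP x hx; clear * - this; grind)
    exact ⟨r, E, R, P, D, G, pos, h, a, fun x => (subset_biUnion_of_mem P (mem_univ x)).trans b⟩

/-- a cut splits few pieces -/
lemma ED.split (h : ED n k γ r E S T R P) {U : Finset α} (hU : U ⊆ E) (u : Finset (ι × κ))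
    (hu : ∀ x ∈ u, (U ∩ P x).Nonempty ∧ (P x \ U).Nonempty) : (u.card : ℤ) ≤ lam r E U := by
  have hr := h.rk.con R
  have a := h.rk.lam_minor (C := R) (E' := u.biUnion P) (Z := U) (Z' := U ∩ u.biUnion P) h.sR
    (biUnion_subset.2 fun x _ => (h.sP x).trans sdiff_subset) hU inter_subset_right
    (by clear * -; grind) (fun y hy => by
      obtain ⟨x, -, hx⟩ := mem_biUnion.1 (mem_sdiff.1 hy).1
      have := h.sP x hx; clear * - this hy; grind)
  rw [hr.lam_skew (hr.skew_sub h.sk (subset_univ u) fun _ _ => subset_rfl)] at a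
  have b := card_nsmul_le_sum u (fun x => lam (con r R) (P x) (U ∩ P x)) 1 fun x hx =>
    hr.cntd_lam (h.cn x) (hu x hx).1 (hu x hx).2
  simp only [nsmul_eq_mul, mul_one] at b
  linarith

end Pool.Agent.Lib.MP_a4b0c4_co.J
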