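import Pool.Agent.Lib.MP_a4b0c4_co.JEng2
import Pool.Agent.Lib.MP_a4b0c4_co.JBM
import Pool.Agent.Lib.MP_a4b0c4_co.JRam3

set_option autoImplicit false
set_option linter.unusedSectionVars false
set_option linter.unusedVariables false

open Finset

namespace Pool.Agent.Lib.MP_a4b0c4_co.J

lemma maxcut {ι V : Type} [DecidableEq ι] (u : Finset ι) (a b : ι → V) (h : ∀ i ∈ u, a i ≠ b i) :
    ∃ c : V → Bool, u.card ≤ 2 * (u.filter fun i => c (a i) ≠ c (b i)).card := by
  classical
  have : ∀ (W : Finset V) (u : Finset ι), (∀ i ∈ u, a i ≠ b i ∧ a i ∈ W ∧ b i ∈ W) →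
      ∃ c : V → Bool, u.card ≤ 2 * (u.filter fun i => c (a i) ≠ c (b i)).card := by
    intro W
    induction W using Finset.induction_on with
    | empty => exact fun u h => ⟨fun _ => true, by
        rw [eq_empty_of_forall_notMem fun i hi => notMem_empty _ (h i hi).2.1]; simp⟩
    | insert v W hv ih =>
      intro u h
      obtain ⟨c, hc⟩ := ih (u.filter fun i => ¬ (a i = v ∨ b i = v)) (by grind)
      set u1 := u.filter fun i => ¬ (a i = v ∨ b i = v) with h1
      set u2 := u.filter fun i => a i = v ∨ b i = v with h2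
      have e0 : u2.card + u1.card = u.card := card_filter_add_card_filter_not _
      have e1 : ∀ x : Bool, (u1.filter fun i => c (a i) ≠ c (b i)).card +
          (u2.filter fun i => Function.update c v x (a i) ≠ Function.update c v x (b i)).card ≤
          (u.filter fun i => Function.update c v x (a i) ≠ Function.update c v x (b i)).card := by
        intro x
        rw [← card_union_of_disjoint (by clear * - h1 h2; grind [disjoint_left])]
        exact card_le_card (by clear * - h1 h2; grind)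
      have e2 := card_filter_add_card_filter_not (s := u2)
        fun i => Function.update c v true (a i) ≠ Function.update c v true (b i)
      have e3 : (u2.filter fun i => ¬ Function.update c v true (a i) ≠ Function.update c v true (b i))
          ⊆ u2.filter fun i => Function.update c v false (a i) ≠ Function.update c v false (b i) := by
        intro i hi
        have := (h i (mem_filter.1 (mem_filter.1 hi).1).1).1
        clear * - hi this h2; grind
      have e4 := card_le_card e3
      have := e1 true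
      have := e1 false
      by_cases q : u2.card ≤ 2 * (u2.filter
        fun i => Function.update c v true (a i) ≠ Function.update c v true (b i)).card
      · exact ⟨Function.update c v true, by omega⟩
      · exact ⟨Function.update c v false, by omega⟩
  exact this (u.image a ∪ u.image b) u fun i hi => ⟨h i hi, by grind, by grind⟩

lemma windows {ι α : Type} [DecidableEq ι] [DecidableEq α] (Q : ι → Finset α) (pos : α → ℕ)
    (q k : ℕ) (s0 : Finset ι)
    (h1 : ∀ i ∈ s0, ∀ j ∈ s0, ∀ x ∈ Q i, ∀ y ∈ Q j, pos x = pos y → i = j)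
    (h2 : ∀ p, ∀ u ⊆ s0, (∀ i ∈ u, (∃ x ∈ Q i, pos x < p) ∧ ∃ x ∈ Q i, p ≤ pos x) → u.card ≤ k)
    (N : ℕ) : ∀ (a : ℕ) (s : Finset ι), s ⊆ s0 → (∀ i ∈ s, ∀ x ∈ Q i, a ≤ pos x) →
      N * (q + k + 1) ≤ s.card → ∃ b : ℕ → ℕ, b 0 = a ∧ Monotone b ∧ ∀ j < N, ∃ u ⊆ s,
        u.card = q ∧ ∀ i ∈ u, ∀ x ∈ Q i, b j ≤ pos x ∧ pos x < b (j + 1) := by
  classical
  induction N with
  | zero => exact fun a s _ _ _ => ⟨fun _ => a, rfl, monotone_const, by simp⟩
  | succ N ih =>
    intro a s hs ha hN
    have ex : ∃ p, q ≤ (s.filter fun i => ∀ x ∈ Q i, pos x < a + p).card := by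
      refine ⟨(s.biUnion Q).sup pos + 1, ?_⟩
      rw [filter_true_of_mem fun i hi x hx => by
        have := le_sup (f := pos) (mem_biUnion.2 ⟨i, hi, hx⟩); omega]
      nlinarith
    obtain ⟨u, u1, u2⟩ := exists_subset_card_eq (Nat.find_spec ex)
    set p := Nat.find ex with hp
    have c1 : (s.filter fun i => ¬ ∀ x ∈ Q i, a + p ≤ pos x).card ≤ q + k + 1 := by
      rcases Nat.eq_zero_or_pos p with e | e
      · rw [filter_false_of_mem fun i hi => by rw [e]; simpa using ha i hi]; simp
      have m := Nat.find_min ex (m := p - 1) (by omega)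
      have a1 := h2 (a + (p - 1)) (s.filter fun i => (∃ x ∈ Q i, pos x < a + (p - 1)) ∧
        ∃ x ∈ Q i, a + (p - 1) ≤ pos x) ((filter_subset _ _).trans hs) fun i hi => (mem_filter.1 hi).2
      have a2 : (s.filter fun i => ∃ x ∈ Q i, pos x = a + (p - 1)).card ≤ 1 :=
        card_le_one.2 fun i hi j hj => by
          obtain ⟨i1, x, hx, e1⟩ := mem_filter.1 hi
          obtain ⟨j1, y, hy, e2⟩ := mem_filter.1 hj
          exact h1 i (hs i1) j (hs j1) x hx y hy (e1.trans e2.symm)
      refine (card_le_card (t := (s.filter fun i => ∀ x ∈ Q i, pos x < a + (p - 1)) ∪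
        (s.filter fun i => (∃ x ∈ Q i, pos x < a + (p - 1)) ∧ ∃ x ∈ Q i, a + (p - 1) ≤ pos x) ∪
        s.filter fun i => ∃ x ∈ Q i, pos x = a + (p - 1)) ?_).trans ?_
      · clear * - e; grind
      · refine (card_union_le _ _).trans ?_
        have := card_union_le (s.filter fun i => ∀ x ∈ Q i, pos x < a + (p - 1))
          (s.filter fun i => (∃ x ∈ Q i, pos x < a + (p - 1)) ∧ ∃ x ∈ Q i, a + (p - 1) ≤ pos x)
        omega
    have c2 := card_filter_add_card_filter_not (s := s) fun i => ∀ x ∈ Q i, a + p ≤ pos x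
    obtain ⟨b, b0, b1, b2⟩ := ih (a + p) (s.filter fun i => ∀ x ∈ Q i, a + p ≤ pos x)
      ((filter_subset _ _).trans hs) (fun i hi => (mem_filter.1 hi).2) (by
        rw [Nat.succ_mul] at hN; omega)
    refine ⟨fun j => Nat.casesOn j a b, rfl, monotone_nat_of_le_succ fun j => ?_, fun j hj => ?_⟩
    · rcases j with _ | j
      · simp [b0]
      · exact b1 (Nat.le_succ j)
    · rcases j with _ | j
      · exact ⟨u, u1.trans (filter_subset _ _), u2, fun i hi x hx =>
          ⟨ha i (mem_filter.1 (u1 hi)).1 x hx, by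
            have := (mem_filter.1 (u1 hi)).2 x hx
            change pos x < b 0
            omega⟩⟩
      · obtain ⟨v, v1, v2⟩ := b2 j (by omega)
        exact ⟨v, v1.trans (filter_subset _ _), v2⟩

variable {α : Type} [DecidableEq α] {r : Finset α → ℤ} {E S T D G : Finset α} {pos : α → ℕ} {k : ℕ}

namespace Chain

lemma dSD (h : Chain r E S T D G pos k) : Disjoint S D :=
  (h.d1.mono subset_union_right subset_union_left).symm
lemma dDG (h : Chain r E S T D G pos k) : Disjoint D G :=
  h.d1.mono subset_union_right subset_union_right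

lemma span (hr : Rk r) (h : Chain r E S T D G pos k) : ∀ e ∈ S ∪ G, Cl r (T ∪ D) e := fun e he =>
  hr.cl_of_le (Y := E) (by rw [h.part]; clear * -; grind) (by rw [h.part]; clear * - he; grind) h.tot

lemma isBM (hr : Rk r) (h : Chain r E S T D G pos k) : BM (bm r (T ∪ D) (S ∪ G)) :=
  hr.bm h.iT (h.span hr)

lemma zero (hr : Rk r) (h : Chain r E S T D G pos k) {d c : α} (hd : d ∈ D) (hc : c ∈ G)
    (p : pos d ≤ pos c) : bm r (T ∪ D) (S ∪ G) {d} {c} = 0 :=
  (bm_entry hr h.iT (mem_union_right _ hc)).2 (hr.cl_mono (by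
    have := disjoint_left.1 h.d2; clear * - this hd p; grind) (h.right c hc))

lemma fb (hr : Rk r) (h : Chain r E S T D G pos k) {D' Y : Finset α} (hD : D' ⊆ D) (hY : Y ⊆ G)
    (p : ∀ y ∈ Y, ∀ d ∈ D', pos y < pos d) :
    bm r (T ∪ D) (S ∪ G) D' (S ∪ Y) = bm r (T ∪ D) (S ∪ G) D' S := by
  rw [bm_eq (union_subset_union_right hY), bm_eq subset_union_left]
  have a := hr.span (A := S ∪ (T ∪ D) \ D') (X := Y) fun y hy =>
    hr.cl_mono (by have := p y hy; clear * - this; grind) (h.left y (hY hy))
  rw [union_right_comm, a]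

lemma fa' (hr : Rk r) (h : Chain r E S T D G pos k) {D' Y : Finset α} (hD : D' ⊆ D) (hY : Y ⊆ G)
    (p : ∀ y ∈ Y, ∀ d ∈ D', pos y < pos d) :
    bm r (T ∪ D) (S ∪ G) (T ∪ D') (S ∪ Y) = k ∧
    bm r (T ∪ D) (S ∪ G) (T ∪ D') Y = bm r (T ∪ D) (S ∪ G) T Y := by
  have d2 := disjoint_left.1 h.d2
  have d3 := disjoint_left.1 h.dSD
  have sp : ∀ y ∈ Y, Cl r (S ∪ D \ D') y := fun y hy =>
    hr.cl_mono (by have := p y hy; clear * - this; grind) (h.left y (hY hy))
  have i1 : Ind (con r (S ∪ D \ D')) D' := hr.ind_con (by clear * - d3 hD; grind [disjoint_left])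
    (by rw [show D' ∪ (S ∪ D \ D') = S ∪ D by clear * - hD; grind]; exact h.iS)
  have i2 := hr.con_of_ind' i1 (X := Y ∪ D \ D') fun e he => by
    rcases mem_union.1 he with a | a
    exacts [sp e a, cl_mem (mem_union_right _ a)]
  have i3 := hr.ind_of_con i1
  have i4 := hr.span sp
  have i5 := hr.ind_sub h.iS (X := S ∪ D \ D') (by clear * -; grind)
  have i6 := card_union_of_disjoint (s := S) (t := D \ D') (h.dSD.mono_right sdiff_subset)
  have i7 := card_sdiff_add_card_eq_card hD
  have := h.cS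
  rw [bm_eq (union_subset_union_right hY), bm_eq (hY.trans subset_union_right),
    bm_eq (hY.trans subset_union_right),
    show (T ∪ D) \ (T ∪ D') = D \ D' by clear * - d2; grind,
    show (T ∪ D) \ T = D by clear * - d2; grind, union_right_comm, i4]
  simp only [con, Ind] at *
  rw [show Y ∪ D \ D' ∪ D' = Y ∪ D by clear * - hD; grind] at i2
  omega

lemma fa (hr : Rk r) (h : Chain r E S T D G pos k) {D' Y : Finset α} (hD : D' ⊆ D) (hY : Y ⊆ G)
    (p : ∀ y ∈ Y, ∀ d ∈ D', pos y < pos d) :
    bm r (T ∪ D) (S ∪ G) (T ∪ D') Y = bm r (T ∪ D) (S ∪ G) T Y := (h.fa' hr hD hY p).2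

lemma lt (hr : Rk r) (h : Chain r E S T D G pos k) {d c : α} (hd : d ∈ D) (hc : c ∈ G)
    (p : bm r (T ∪ D) (S ∪ G) {d} {c} = 1) : pos c < pos d := by
  by_contra q
  have := h.zero hr hd hc (by omega); omega

/-- induced matchings are small -/
lemma match_le {ι : Type} [DecidableEq ι] (hr : Rk r) (h : Chain r E S T D G pos k) (s : Finset ι)
    (d c : ι → α) (h1 : ∀ i ∈ s, d i ∈ D ∧ c i ∈ G)
    (h2 : ∀ i ∈ s, ∀ j ∈ s, bm r (T ∪ D) (S ∪ G) {d i} {c j} = if i = j then 1 else 0) :
    s.card ≤ k := by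
  have B := h.isBM hr
  set ρ := bm r (T ∪ D) (S ∪ G) with hρ
  have ci : Set.InjOn c s := fun i hi j hj e => by
    have a := h2 i hi i hi
    have b := h2 i hi j hj
    rw [← e, a] at b; by_contra q; simp [q] at b
  have := (B.col T).ind_of_leaf (A := ∅) (I := s.image c) fun J hJ ⟨y, hy⟩ => by
    obtain ⟨i0, hi0, rfl⟩ := mem_image.1 (hJ hy)
    obtain ⟨i, hi, m⟩ := exists_max_image (s.filter fun i => c i ∈ J) (fun i => pos (d i))
      ⟨i0, mem_filter.2 ⟨hi0, hy⟩⟩
    obtain ⟨hi, hi'⟩ := mem_filter.1 hi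
    have sG : J ⊆ G := fun y hy => by
      obtain ⟨j, hj, rfl⟩ := mem_image.1 (hJ hy); exact (h1 j hj).2
    have o : ∀ y ∈ J, ∀ d' ∈ ({d i} : Finset α), pos y < pos d' := fun y hy d' hd' => by
      obtain ⟨j, hj, rfl⟩ := mem_image.1 (hJ hy)
      rw [mem_singleton.1 hd']
      exact (h.lt hr (h1 j hj).1 (h1 j hj).2 (by simpa using h2 j hj j hj)).trans_le
        (m j (mem_filter.2 ⟨hj, hy⟩))
    have sD := singleton_subset_iff.2 (h1 i hi).1
    have f1 := h.fa hr sD sG o
    have f2 := h.fa hr sD ((erase_subset (c i) J).trans sG) fun y hy => o y (mem_of_mem_erase hy)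
    refine ⟨c i, hi', fun q => ?_⟩
    rw [union_empty] at q
    have q1 : Cl (ρ (T ∪ {d i})) (J.erase (c i)) (c i) := by
      unfold Cl at *; rw [insert_erase hi'] at *; exact f1.trans (q.trans f2.symm)
    have q2 := B.cl_view subset_union_right q1
    have q3 := B.zero (R := {d i}) (Y := J.erase (c i)) fun d' hd' y hy => by
      obtain ⟨j, hj, rfl⟩ := mem_image.1 (hJ (mem_of_mem_erase hy))
      rw [mem_singleton.1 hd', h2 i hi j hj, if_neg fun e : i = j => (mem_erase.1 hy).1 (e ▸ rfl)]
    have q4 := B.mono (subset_refl {d i}) (Y := {c i}) (Y' := insert (c i) (J.erase (c i)))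
      (by simp)
    rw [h2 i hi i hi, if_pos rfl] at q4
    unfold Cl at q2; omega
  rw [(B.col T).con_empty, Ind, card_image_of_injOn ci] at this
  have b := B.le_l T (s.image c)
  have := h.cT
  omega

/-- unions of components of a window have small connectivity -/
lemma lam_window (hr : Rk r) (h : Chain r E S T D G pos k) {U : Finset α} {a b : ℕ}
    (hU : ∀ x ∈ U, x ∈ D ∪ G ∧ a ≤ pos x ∧ pos x < b)
    (cl : ∀ d ∈ D, ∀ c ∈ G, a ≤ pos c → pos d < b → bm r (T ∪ D) (S ∪ G) {d} {c} = 1 →
      (d ∈ U ↔ c ∈ U)) : lam r E U ≤ 2 * k := by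
  have B := h.isBM hr
  have d1 := disjoint_left.1 h.d1
  have d2 := disjoint_left.1 h.d2
  have d3 := disjoint_left.1 h.d3
  have e1 := B.drop_col (R := D ∩ U) (Y := (S ∪ G) \ U) (Y' := S ∪ G.filter fun c => pos c < a)
    (by clear * - hU d1 d3; grind) fun d hd c hc m => by
      have := hU d (mem_inter.1 hd).2
      have := cl d (mem_inter.1 hd).1 c (by clear * - hc m; grind) (by clear * - hc m; grind)
        this.2.2
      have := B.one d c
      grind
  have e2 := B.drop_row (R := (T ∪ D) \ U) (Y := G ∩ U) (R' := T ∪ D.filter fun c => b ≤ pos c)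
    (by clear * - hU d1 d2; grind) fun d hd m c hc => by
      have := hU c (mem_inter.1 hc).2
      have := cl d (by clear * - hd m; grind) c (mem_inter.1 hc).1 this.2.1
        (by clear * - hd m; grind)
      have := B.one d c
      grind
  have f1 := h.fb hr (D' := D ∩ U) (Y := G.filter fun c => pos c < a) inter_subset_left
    (filter_subset _ _) fun y hy d hd => by
      have := hU d (mem_inter.1 hd).2; have := (mem_filter.1 hy).2; omega
  have f2 := h.fa hr (D' := D.filter fun c => b ≤ pos c) (Y := G ∩ U) (filter_subset _ _)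
    inter_subset_left fun y hy d hd => by
      have := hU y (mem_inter.1 hy).2; have := (mem_filter.1 hd).2; omega
  have g1 := B.le_r (D ∩ U) S
  have g2 := B.le_l T (G ∩ U)
  rw [← f1, ← e1, bm_eq sdiff_subset, show (S ∪ G) \ U ∪ (T ∪ D) \ (D ∩ U) = E \ U by
    rw [h.part]; clear * - hU d1 d2 d3; grind] at g1
  rw [← f2, ← e2, bm_eq (inter_subset_left.trans subset_union_right),
    show (T ∪ D) \ ((T ∪ D) \ U) = D ∩ U by clear * - hU d1 d2; grind,
    show G ∩ U ∪ D ∩ U = U by clear * - hU; grind] at g2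
  have g3 := card_sdiff_add_card_eq_card (s := D ∩ U) (t := T ∪ D) (by clear * -; grind)
  have g4 := hr.mono (X := T ∪ D) (Y := E) (by rw [h.part]; clear * -; grind)
  have := h.iT; have := h.cS; have := h.cT
  unfold lam Ind at *; omega

end Chain

end Pool.Agent.Lib.MP_a4b0c4_co.J
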