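import Pool.Agent.Lib.MP_a4b0c4_co.JEng3

set_option autoImplicit false
set_option linter.unusedSectionVars false
set_option linter.unusedVariables false

open Finset

namespace Pool.Agent.Lib.MP_a4b0c4_co.J

variable {α : Type} [DecidableEq α] {r : Finset α → ℤ} {E S T D G R : Finset α} {pos : α → ℕ}
  {k : ℕ}

/-- fundamental graph of a window -/
def wadj (ρ : Finset α → Finset α → ℤ) (D G : Finset α) (pos : α → ℕ) (a b : ℕ) (x y : α) : Prop :=
  (x ∈ D ∧ y ∈ G ∧ a ≤ pos y ∧ pos x < b ∧ ρ {x} {y} = 1) ∨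
  (y ∈ D ∧ x ∈ G ∧ a ≤ pos x ∧ pos y < b ∧ ρ {y} {x} = 1)

/-- a small connected heavy part of a window -/
structure Bag (ρ : Finset α → Finset α → ℤ) (T D G : Finset α) (pos : α → ℕ) (a b w h : ℕ)
    (H : Finset α) : Prop where
  sub : ∀ x ∈ H, x ∈ D ∪ G ∧ a ≤ pos x ∧ pos x < b
  card : H.card ≤ h
  heavy : (w : ℤ) ≤ ρ T (H ∩ G)
  conn : ∀ X : α → Prop, (∀ d ∈ H ∩ D, ∀ c ∈ H ∩ G, ρ {d} {c} = 1 → (X d ↔ X c)) →
    ∀ x ∈ H, ∀ y ∈ H, (X x ↔ X y)

lemma Chain.wadj_in (hr : Rk r) (h : Chain r E S T D G pos k) {a b : ℕ} {x y : α}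
    (q : wadj (bm r (T ∪ D) (S ∪ G)) D G pos a b x y) : y ∈ D ∪ G ∧ a ≤ pos y ∧ pos y < b := by
  rcases q with ⟨a1, a2, a3, a4, a5⟩ | ⟨a1, a2, a3, a4, a5⟩ <;>
    have := h.lt hr a1 a2 a5 <;> grind

lemma Chain.path (hr : Rk r) (h : Chain r E S T D G pos k) {a b : ℕ} {x y : α} {i : ℕ}
    (hy : y ∈ ball (wadj (bm r (T ∪ D) (S ∪ G)) D G pos a b) x i) :
    ∃ (l : ℕ) (f : ℕ → α), l ≤ 3 * k ∧ f 0 = x ∧ f l = y ∧
      ∀ j < l, wadj (bm r (T ∪ D) (S ∪ G)) D G pos a b (f j) (f (j + 1)) := by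
  classical
  have B := h.isBM hr
  set ρ := bm r (T ∪ D) (S ∪ G) with hρ
  have ex : ∃ i, y ∈ ball (wadj ρ D G pos a b) x i := ⟨i, hy⟩
  obtain ⟨f, f0, f1, f2, f3, -⟩ := bfs (fun _ _ => Or.symm) (Nat.find_spec ex)
    fun j hj => Nat.find_min ex hj
  refine ⟨_, f, ?_, f0, f1, f2⟩
  by_contra q
  have dd := disjoint_left.1 h.dDG
  set l := Nat.find ex
  let d : ℕ → α := fun j => if f (3 * j) ∈ D then f (3 * j) else f (3 * j + 1)
  let c : ℕ → α := fun j => if f (3 * j) ∈ D then f (3 * j + 1) else f (3 * j)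
  have k1 : ∀ j ∈ range (k + 1), d j ∈ D ∧ c j ∈ G ∧ a ≤ pos (c j) ∧ pos (d j) < b ∧
      ρ {d j} {c j} = 1 := fun j hj => by
    have := f2 (3 * j) (by have := mem_range.1 hj; omega)
    clear * - this dd; grind [wadj]
  have := h.match_le hr (range (k + 1)) d c (fun j hj => ⟨(k1 j hj).1, (k1 j hj).2.1⟩)
    fun j hj j' hj' => by
      split_ifs with e
      · exact e ▸ (k1 j hj).2.2.2.2
      refine (B.one _ _).resolve_right fun m => ?_
      have a1 : wadj ρ D G pos a b (d j) (c j') :=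
        .inl ⟨(k1 j hj).1, (k1 j' hj').2.1, (k1 j' hj').2.2.1, (k1 j hj).2.2.2.1, m⟩
      have := mem_range.1 hj; have := mem_range.1 hj'
      have := f3 (3 * j) (by omega) (3 * j') (by omega)
      have := f3 (3 * j + 1) (by omega) (3 * j') (by omega)
      have := f3 (3 * j) (by omega) (3 * j' + 1) (by omega)
      have := f3 (3 * j + 1) (by omega) (3 * j' + 1) (by omega)
      simp only [d, c] at a1
      split_ifs at a1 <;> grind
  simp at this

variable {ι κ : Type} [Fintype ι] [DecidableEq ι] [Fintype κ] [DecidableEq κ]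
  {n : ℕ} {γ : ℤ} {P : ι × κ → Finset α}

lemma ED.heavy {ν w : ℕ} (h : ED n k γ r E S T R P) (ch : Chain r E S T D G pos k)
    (hG : ∀ x, P x ⊆ G) (hν : Fintype.card κ ≤ ν) (hk : γ + ν * w ≤ k) (i : ι) :
    ∃ j, (w : ℤ) < bm r (T ∪ D) (S ∪ G) T (P (i, j)) := by
  have hr := h.rk
  have B := ch.isBM hr
  obtain ⟨Z, a, b, d⟩ := h.bl i
  have sG : lev P i ⊆ G := fun x hx => by obtain ⟨j, hj⟩ := mem_lev.1 hx; exact hG _ hj
  have d1 := disjoint_left.1 ch.d1
  have d2 := disjoint_left.1 ch.d2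
  have d3 := disjoint_left.1 ch.d3
  have pt := ch.part
  have c1 := (hr.con (lev P i)).conn_of_loc (E := E \ lev P i) (S := S) (T := T) (C := D)
    (by have := disjoint_left.1 ch.dDG; clear * - sG this pt; grind)
    (by have := disjoint_left.1 (ch.d1.mono subset_union_left subset_union_right)
        clear * - sG this pt; grind) Z a b
  have c2 := hr.loc_nonneg (lev P i) R
  have c3 := hr.mono (X := S ∪ D) (Y := S ∪ (lev P i ∪ D)) (by clear * -; grind)
  have c4 := hr.mono (X := T ∪ (lev P i ∪ D)) (Y := S ∪ T ∪ (lev P i ∪ D)) (by clear * -; grind)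
  have c5 := hr.mono (X := S ∪ T ∪ (lev P i ∪ D)) (Y := E) (by clear * - pt sG; grind)
  have c6 := hr.mono (X := T ∪ D) (Y := T ∪ (lev P i ∪ D)) (by clear * -; grind)
  have c7 := card_union_of_disjoint ch.dSD
  have c8 := card_union_of_disjoint ch.d2
  have c9 := (B.col T).biUnion_le univ fun j => P (i, j)
  have := ch.iS; have := ch.iT; have := ch.cS; have := ch.cT; have := ch.tot
  by_contra q
  push Not at q
  have c10 := sum_le_card_nsmul univ (fun j => bm r (T ∪ D) (S ∪ G) T (P (i, j))) w fun j _ => q j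
  change bm r (T ∪ D) (S ∪ G) T (lev P i) ≤ _ at c9
  rw [bm_eq (sG.trans subset_union_right), show (T ∪ D) \ T = D by clear * - d2; grind] at c9
  rw [con_con] at c1
  simp only [loc, con, Ind, card_univ, nsmul_eq_mul] at *
  have : (Fintype.card κ : ℤ) * w ≤ ν * w := by exact_mod_cast Nat.mul_le_mul_right w hν
  omega

lemma ED.bag {w a b : ℕ} (h : ED n k γ r E S T R P) (ch : Chain r E S T D G pos k)
    (hG : ∀ x, P x ⊆ G) (u : Finset (ι × κ)) (hu : u.card = 4 * k + 1)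
    (h1 : ∀ x ∈ u, (w : ℤ) < bm r (T ∪ D) (S ∪ G) T (P x) ∧ ∀ y ∈ P x, a ≤ pos y ∧ pos y < b) :
    ∃ H, Bag (bm r (T ∪ D) (S ∪ G)) T D G pos a b w (w * (3 * k + 1)) H := by
  classical
  have hr := h.rk
  have B := ch.isBM hr
  set ρ := bm r (T ∪ D) (S ∪ G) with hρ
  have ne : ∀ x ∈ u, (P x).Nonempty := fun x hx => by
    by_contra q
    have := (h1 x hx).1
    rw [not_nonempty_iff_eq_empty.1 q, B.emp_r] at this; omega
  have : Nonempty α := by
    obtain ⟨x, hx⟩ : u.Nonempty := card_pos.1 (by omega)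
    exact ⟨(ne x hx).choose⟩
  let comp : α → Set α := fun x => {y | ∃ i, y ∈ ball (wadj ρ D G pos a b) x i}
  have cs : ∀ x y, wadj ρ D G pos a b x y → comp y ⊆ comp x := fun x y q z ⟨i, hz⟩ => by
    induction i generalizing z with
    | zero => exact ⟨1, ball_step (ball_self 0) (Set.mem_singleton_iff.1 hz ▸ q)⟩
    | succ i ih =>
      rcases hz with hz | ⟨v, hv, q'⟩
      · exact ih _ ⟨i, hz⟩ hz
      · obtain ⟨j, hj⟩ := ih _ ⟨i, hv⟩ hv
        exact ⟨j + 1, ball_step hj q'⟩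
  obtain ⟨x, hx, one⟩ : ∃ x ∈ u, ∀ y ∈ P x, ∀ z ∈ P x, comp y = comp z := by
    by_contra q
    push Not at q
    choose! y hy z hz ne using q
    obtain ⟨c, hc⟩ := maxcut u (fun x => comp (y x)) (fun x => comp (z x)) ne
    set U := (D ∪ G).filter fun x => a ≤ pos x ∧ pos x < b ∧ c (comp x) = true with hU
    have l1 := ch.lam_window hr (U := U) (a := a) (b := b) (by clear * - hU; grind)
      fun d hd c' hc' p1 p2 p3 => by
        have q : wadj ρ D G pos a b d c' := .inl ⟨hd, hc', p1, p2, p3⟩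
        have e := Set.Subset.antisymm (cs _ _ q) (cs _ _ q.symm)
        have := ch.lt hr hd hc' p3
        clear * - e this hU hd hc' p1 p2; grind
    have l2 := h.split (U := U) (by rw [ch.part]; clear * - hU; grind)
      (u.filter fun x => c (comp (y x)) ≠ c (comp (z x))) fun x hx => by
        obtain ⟨x1, x2⟩ := mem_filter.1 hx
        have a1 := (h1 x x1).2 _ (hy x x1)
        have a2 := (h1 x x1).2 _ (hz x x1)
        have a3 := hy x x1
        have a4 := hz x x1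
        have a5 := hG x a3
        have a6 := hG x a4
        by_cases e : c (comp (y x)) = true
        · exact ⟨⟨y x, by clear * - hU e a1 a3 a5; grind⟩, ⟨z x, by clear * - hU e a4 x2; grind⟩⟩
        · exact ⟨⟨z x, by clear * - hU e a2 a4 a6 x2; grind⟩, ⟨y x, by clear * - hU e a3; grind⟩⟩
    omega
  obtain ⟨x0, h0⟩ := ne x hx
  obtain ⟨I, i1, i2, i3⟩ := (B.col T).ind_of_le (h1 x hx).1.le
  have : ∀ y ∈ I, ∃ (l : ℕ) (f : ℕ → α), l ≤ 3 * k ∧ f 0 = x0 ∧ f l = y ∧
      ∀ j < l, wadj ρ D G pos a b (f j) (f (j + 1)) := fun y hy => by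
    obtain ⟨i, hi⟩ : y ∈ comp x0 := one y (i1 hy) x0 h0 ▸ ⟨0, ball_self 0⟩
    exact ch.path hr hi
  choose! l f l1 f0 f1 f2 using this
  refine ⟨I.biUnion fun y => (range (l y + 1)).image (f y), fun z hz => ?_, ?_, ?_, fun X hX => ?_⟩
  · obtain ⟨y, hy, hz⟩ := mem_biUnion.1 hz
    obtain ⟨j, hj, rfl⟩ := mem_image.1 hz
    rcases j with _ | j
    · rw [f0 y hy]; exact ⟨mem_union_right _ (hG x h0), (h1 x hx).2 _ h0⟩
    · exact ch.wadj_in hr (f2 y hy j (by simpa using hj))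
  · rw [← i3]
    exact card_biUnion_le_card_mul _ _ _ fun y hy => card_image_le.trans (by simpa using l1 y hy)
  · rw [← i3, ← i2]
    exact B.mono subset_rfl fun y hy => mem_inter.2 ⟨mem_biUnion.2 ⟨y, hy,
      mem_image.2 ⟨l y, by simp, f1 y hy⟩⟩, hG x (i1 hy)⟩
  · have key : ∀ y ∈ I, ∀ j ≤ l y, (X (f y j) ↔ X x0) := fun y hy j hj => by
      induction j with
      | zero => rw [f0 y hy]
      | succ j ih =>
        rw [← ih (by omega)]
        have m : ∀ j ≤ l y, f y j ∈ I.biUnion fun y => (range (l y + 1)).image (f y) :=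
          fun j hj => mem_biUnion.2 ⟨y, hy, mem_image.2 ⟨j, by simpa using hj, rfl⟩⟩
        rcases f2 y hy j (by omega) with ⟨a1, a2, -, -, a5⟩ | ⟨a1, a2, -, -, a5⟩
        · exact (hX _ (mem_inter.2 ⟨m j (by omega), a1⟩) _ (mem_inter.2 ⟨m _ hj, a2⟩) a5).symm
        · exact hX _ (mem_inter.2 ⟨m _ hj, a1⟩) _ (mem_inter.2 ⟨m j (by omega), a2⟩) a5
    intro z hz z' hz'
    obtain ⟨y, hy, hz⟩ := mem_biUnion.1 hz
    obtain ⟨j, hj, rfl⟩ := mem_image.1 hz
    obtain ⟨y', hy', hz'⟩ := mem_biUnion.1 hz'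
    obtain ⟨j', hj', rfl⟩ := mem_image.1 hz'
    rw [key y hy j (by simpa using hj), key y' hy' j' (by simpa using hj')]

lemma ED.bags {w ν N : ℕ} (h : ED n k γ r E S T R P) (ch : Chain r E S T D G pos k)
    (hG : ∀ x, P x ⊆ G) (hν : Fintype.card κ ≤ ν) (hk : γ + ν * w ≤ k)
    (hN : N * (5 * k + 2) ≤ Fintype.card ι) :
    ∃ (b : ℕ → ℕ) (H : ℕ → Finset α), Monotone b ∧ ∀ j < N,
      Bag (bm r (T ∪ D) (S ∪ G)) T D G pos (b j) (b (j + 1)) w (w * (3 * k + 1)) (H j) := by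
  choose j hj using h.heavy ch hG hν hk
  have ji : Function.Injective fun i => (i, j i) := fun a b e => (Prod.ext_iff.1 e).1
  obtain ⟨b, -, b1, b2⟩ := windows P pos (4 * k + 1) k (univ.image fun i => (i, j i))
    (fun x _ y _ c hc d hd e => by
      by_contra q
      obtain rfl := ch.inj (mem_union_right _ (hG x hc)) (mem_union_right _ (hG y hd)) e
      exact disjoint_left.1 (h.pd x y q) hc hd)
    (fun p u _ hu => by
      have := (h.split (U := S ∪ (D ∪ G).filter fun x => pos x < p)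
        (by rw [ch.part]; clear * -; grind) u fun x hx => by
          obtain ⟨⟨c, c1, c2⟩, d, d1, d2⟩ := hu x hx
          have := hG x c1
          have := disjoint_right.1 ch.d3 (hG x d1)
          exact ⟨⟨c, by grind⟩, d, by grind⟩).trans (ch.cut p)
      omega)
    N 0 _ subset_rfl (by simp) (by rw [card_image_of_injective _ ji, card_univ]; linarith)
  have : ∀ i < N, ∃ H, Bag (bm r (T ∪ D) (S ∪ G)) T D G pos (b i) (b (i + 1)) w
      (w * (3 * k + 1)) H := fun i hi => by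
    obtain ⟨u, u1, u2, u3⟩ := b2 i hi
    refine h.bag ch hG u u2 fun x hx => ⟨?_, u3 x hx⟩
    obtain ⟨y, -, rfl⟩ := mem_image.1 (u1 hx)
    exact hj y
  choose! H hH using this
  exact ⟨b, H, b1, hH⟩

end Pool.Agent.Lib.MP_a4b0c4_co.J
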