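import Pool.Agent.Lib.MP_a4b0c4_co.JEng4
import Pool.Agent.Lib.MP_a4b0c4_co.JSpec

set_option autoImplicit false
set_option linter.unusedSectionVars false
set_option linter.unusedVariables false

open Finset

namespace Pool.Agent.Lib.MP_a4b0c4_co.J

section
variable {A B ι ι' : Type} [DecidableEq A] [DecidableEq B] [LinearOrder ι] [LinearOrder ι']

lemma ls_map (φ : ι → ι') (Y : Finset (B × ι)) :
    (ls Y : Finset (Lab A B Empty ι)).image (Lab.map φ) = ls (Y.image (Prod.map id φ)) := by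
  simp only [ls, image_image]; rfl

lemma gs_map [Fintype A] (φ : ι → ι') :
    (gs A B : Finset (Lab A B Empty ι)).image (Lab.map φ) = gs A B := by
  simp only [gs, image_image]; rfl

lemma ls_supp (Y : Finset (B × ι)) :
    (ls Y : Finset (Lab A B Empty ι)).biUnion Lab.supp = Y.image Prod.snd := by
  simp only [ls, image_biUnion]; exact biUnion_singleton

lemma gs_supp [Fintype A] : (gs A B : Finset (Lab A B Empty ι)).biUnion Lab.supp = ∅ := by
  simp only [gs, image_biUnion]; ext x; simp [Lab.supp]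

lemma ls_single (b : B) (i : ι) : (ls {(b, i)} : Finset (Lab A B Empty ι)) = {Lab.o b i} := by
  simp [ls]

lemma lab_valid (l : Lab A B Empty ι) : l.valid := by
  rcases l with a | ⟨b, i⟩ | ⟨c, i, j⟩
  exacts [trivial, trivial, c.elim]

end

variable {T Θ S Γ ι : Type} [Fintype T] [Fintype S] [Fintype Θ] [Fintype Γ] [DecidableEq T]
  [DecidableEq Θ] [DecidableEq S] [DecidableEq Γ] [LinearOrder ι]

/-- strips made of connected heavy blocks -/
structure EMod (w : ℕ) (ρ : Finset (Lab T Θ Empty ι) → Finset (Lab S Γ Empty ι) → ℤ) : Prop where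
  strip : StripP ρ
  conn : ∀ (i : ι) (Θ' : Set Θ) (Γ' : Set Γ),
    (∀ τ σ, ρ (ls {(τ, i)}) (ls {(σ, i)}) = 1 → (τ ∈ Θ' ↔ σ ∈ Γ')) → Γ' = ∅ ∨ Γ' = Set.univ
  heavy : ∀ i : ι, (w : ℤ) ≤ ρ (gs T Θ) (ls (univ ×ˢ {i}))
  fp : ∀ τ σ (i : ι) (Y : Finset (Γ × ι)), ρ (ls {(τ, i)}) (ls {(σ, i)}) = 1 → (∀ y ∈ Y, y.2 < i) →
    ρ (gs T Θ ∪ ls {(τ, i)}) (ls (insert (σ, i) Y)) = ρ (gs T Θ) (ls (insert (σ, i) Y))

lemma EMod.of_local {w : ℕ} {ρ : Finset (Lab T Θ Empty ℝ) → Finset (Lab S Γ Empty ℝ) → ℤ}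
    (h : ∀ s : Finset ℝ, ∃ (N : ℕ)
      (ρ' : Finset (Lab T Θ Empty (Fin N)) → Finset (Lab S Γ Empty (Fin N)) → ℤ) (φ : ℝ → Fin N),
      EMod w ρ' ∧ StrictMonoOn φ s ∧ ∀ R Y, R.biUnion Lab.supp ⊆ s → Y.biUnion Lab.supp ⊆ s →
        ρ R Y = ρ' (R.image (Lab.map φ)) (Y.image (Lab.map φ))) : EMod w ρ := by
  have sep : ∀ (D : Finset (Θ × ℝ)) (Y : Finset (Γ × ℝ)) {N : ℕ} (φ : ℝ → Fin N),
      StrictMonoOn φ ↑(D.image Prod.snd ∪ Y.image Prod.snd) → (∀ y ∈ Y, ∀ d ∈ D, y.2 < d.2) →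
      ∀ y ∈ Y.image (Prod.map id φ), ∀ d ∈ D.image (Prod.map id φ), y.2 < d.2 := by
    intro D Y N φ m q y hy d hd
    obtain ⟨y, hy', rfl⟩ := mem_image.1 hy
    obtain ⟨d, hd', rfl⟩ := mem_image.1 hd
    exact m (mem_coe.2 (mem_union_right _ (mem_image_of_mem _ hy')))
      (mem_coe.2 (mem_union_left _ (mem_image_of_mem _ hd'))) (q y hy' d hd')
  refine ⟨⟨fun τ β σ α q => ?_, fun D Y q => ?_, fun D Y q => ?_⟩, fun i Θ' Γ' q => ?_, fun i => ?_,
    fun τ σ i Y q1 q => ?_⟩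
  · obtain ⟨N, ρ', φ, a, m, e⟩ := h {β, α}
    rw [e _ _ (by simp [Lab.supp]) (by simp [Lab.supp]), image_singleton, image_singleton]
    exact a.strip.zero _ _ _ _ (m (by simp) (by simp) q)
  · obtain ⟨N, ρ', φ, a, m, e⟩ := h (D.image Prod.snd ∪ Y.image Prod.snd)
    rw [e _ _ (by simp [union_biUnion, gs_supp, ls_supp]) (by simp [ls_supp]),
      e _ _ (by simp [gs_supp]) (by simp [ls_supp]), image_union, gs_map, ls_map, ls_map]
    exact a.strip.fa _ _ (sep D Y φ m q)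
  · obtain ⟨N, ρ', φ, a, m, e⟩ := h (D.image Prod.snd ∪ Y.image Prod.snd)
    rw [e _ _ (by simp [ls_supp]) (by simp [union_biUnion, gs_supp, ls_supp]),
      e _ _ (by simp [ls_supp]) (by simp [gs_supp]), image_union, gs_map, ls_map, ls_map]
    exact a.strip.fb _ _ (sep D Y φ m q)
  · obtain ⟨N, ρ', φ, a, m, e⟩ := h {i}
    refine a.conn (φ i) Θ' Γ' fun τ σ k => q τ σ ?_
    rw [e _ _ (by simp [ls_supp]) (by simp [ls_supp]), ls_map, ls_map]
    simpa using k
  · obtain ⟨N, ρ', φ, a, m, e⟩ := h {i}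
    rw [e _ _ (by simp [gs_supp]) (by rw [ls_supp]; intro x; simp; tauto), gs_map, ls_map]
    have : (univ ×ˢ {i} : Finset (Γ × ℝ)).image (Prod.map id φ) = univ ×ˢ {φ i} := by
      ext ⟨x, y⟩; simp [eq_comm]
    rw [this]; exact a.heavy _
  · obtain ⟨N, ρ', φ, a, m, e⟩ := h (insert i (Y.image Prod.snd))
    rw [e _ _ (by simp [ls_supp]) (by simp [ls_supp]), ls_map, ls_map] at q1
    rw [e _ _ (by simp [union_biUnion, gs_supp, ls_supp]) (by simp [ls_supp]),
      e _ _ (by simp [gs_supp]) (by simp [ls_supp]), image_union, gs_map, ls_map, ls_map,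
      image_insert, image_singleton]
    refine a.fp τ σ (φ i) _ (by simpa using q1) fun y hy => ?_
    obtain ⟨y, hy', rfl⟩ := mem_image.1 hy
    exact m (mem_coe.2 (mem_insert_of_mem (mem_image_of_mem _ hy'))) (by simp) (q y hy')

lemma EMod.sees {n w : ℕ} {ρ : Finset (Lab T Θ Empty ℝ) → Finset (Lab S Γ Empty ℝ) → ℤ}
    (h : EMod w ρ) (iv : Inv ρ) (B : BM ρ) (fr : FreeB n ρ Set.univ Set.univ) {τ : Θ} {σ : Γ}
    (q : ρ (ls {(τ, 0)}) (ls {(σ, 0)}) = 1) : sees ρ τ σ := by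
  by_contra ns
  let K := Fintype.card T
  let m : ℕ → Lab S Γ Empty ℝ := fun j => Lab.o σ (-(j : ℝ))
  have mi : Function.Injective m := fun a b e => by simpa [m, Lab.o] using e
  have F := fr.col B (R := gs T Θ) (Y := (range (K + n + 1)).image m) (by simp) (by simp)
  have hn := F.pos (m 0)
  have key : ∀ I : Finset ℕ, ρ (gs T Θ) (I.image m) = ρ (gs T Θ) ((range I.card).image m) := by
    intro I
    let φ : ℝ → ℝ := fun x => -(((I.filter fun j : ℕ => x < -(j : ℝ)).card : ℕ) : ℝ)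
    have e1 : ∀ j ∈ I, φ (-(j : ℝ)) = -(((I.filter fun i => i < j).card : ℕ) : ℝ) := fun j _ => by
      simp [φ]
    have e2 : ∀ a ∈ I, ∀ b ∈ I, a < b →
        (I.filter fun i => i < a).card < (I.filter fun i => i < b).card := fun a ha b hb ab =>
      card_lt_card ⟨by clear * - ab; grind, fun k => by
        have := k (mem_filter.2 ⟨ha, ab⟩); simp at this⟩
    have e3 : I.image (fun j => (I.filter fun i => i < j).card) = range I.card := by
      refine eq_of_subset_of_card_le (fun x hx => ?_) ?_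
      · obtain ⟨j, hj, rfl⟩ := mem_image.1 hx
        exact mem_range.2 (card_lt_card ⟨filter_subset _ _, fun k => by
          have := k hj; simp at this⟩)
      · rw [card_range, card_image_of_injOn fun a ha b hb e => ?_]
        rcases lt_trichotomy a b with k | k | k
        exacts [absurd e (e2 a ha b hb k).ne, k, absurd e (e2 b hb a ha k).ne']
    rw [← iv φ _ _ ?_, gs_map, ← e3, image_image, image_image]
    · congr 1
      exact image_congr fun j hj => by simp only [Function.comp, m, Lab.map]; rw [e1 j hj]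
    · rw [gs_supp, empty_union, image_biUnion]
      intro x hx y hy xy
      simp only [m, Lab.supp, coe_biUnion, coe_singleton, Set.mem_iUnion, Set.mem_singleton_iff,
        mem_coe] at hx hy
      obtain ⟨a, ha, rfl⟩ := hx
      obtain ⟨b, hb, rfl⟩ := hy
      rw [e1 a ha, e1 b hb]
      have := e2 b hb a ha (by simpa using xy)
      simpa using this
  have sp := (F.indisc (B.col _) hn subset_rfl (K := K) (fun I hI J hJ c => by
      obtain ⟨I, -, rfl⟩ := subset_image_iff.1 hI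
      obtain ⟨J, -, rfl⟩ := subset_image_iff.1 hJ
      rw [card_image_of_injective _ mi, card_image_of_injective _ mi] at c
      rw [key I, key J, c])
    ((B.le_l _ _).trans (by exact_mod_cast card_image_le))
    (by rw [card_image_of_injective _ mi]; simp)).2 ((Ioc 0 n).image m)
    (image_subset_image fun x hx => by simp at hx ⊢; omega)
    (by rw [card_image_of_injective _ mi]; simp) (m 0) (mem_image_of_mem _ (by simp))
  set Y : Finset (Γ × ℝ) := (Ioc 0 n).image fun j : ℕ => (σ, -(j : ℝ)) with hY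
  have e1 : (Ioc 0 n).image m = ls Y := by simp only [hY, ls, image_image]; rfl
  have e2 : insert (m 0) (ls Y : Finset (Lab S Γ Empty ℝ)) = ls (insert (σ, (0 : ℝ)) Y) := by
    simp [ls, m]
  have lt : ∀ y ∈ Y, y.2 < 0 := fun y hy => by
    obtain ⟨j, hj, rfl⟩ := mem_image.1 hy
    simpa using Nat.pos_iff_ne_zero.1 (mem_Ioc.1 hj).1 |> Nat.pos_of_ne_zero
  have f1 := h.fp τ σ 0 Y q lt
  have f2 := h.strip.fa {(τ, 0)} Y fun y hy d hd => by rw [mem_singleton.1 hd]; exact lt y hy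
  rw [e1] at sp
  have c1 : Cl (ρ (gs T Θ ∪ ls {(τ, 0)})) (ls Y) (m 0) := by
    unfold Cl at sp ⊢; rw [e2] at sp ⊢; rw [f1, f2, sp]
  have c2 := B.cl_view subset_union_right c1
  have c3 := B.zero (R := ls {(τ, 0)}) (Y := ls Y) fun d hd c hc => by
    rw [ls_single, mem_singleton] at hd
    obtain ⟨y, hy, rfl⟩ := mem_image.1 hc
    have l := lt y hy
    obtain ⟨j, hj, rfl⟩ := mem_image.1 hy
    refine (B.one _ _).resolve_right fun k => ns ?_
    have := iv (fun x => if x < 0 then 0 else 1) {Lab.o τ 0} {Lab.o σ (-(j : ℝ))} (by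
      intro x hx y hy xy
      simp [Lab.supp] at hx hy l
      rcases hx with rfl | rfl <;> rcases hy with rfl | rfl <;> simp_all
      linarith)
    simp only [image_singleton, Lab.map, lt_irrefl, if_false, if_pos l] at this
    unfold J.sees
    rw [this, ← hd]; exact k
  have c4 := B.mono (subset_refl (ls {(τ, 0)})) (Y := ls {(σ, 0)}) (Y' := insert (m 0) (ls Y))
    (by simp [ls, m])
  unfold Cl at c2; omega

lemma emod_false (hL : StLimit) {n w : ℕ}
    (hS : ∀ ρ : Finset (Lab T Θ Empty ℝ) → Finset (Lab S Γ Empty ℝ) → ℤ,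
      Inv ρ → BM ρ → FreeB n ρ Set.univ Set.univ → StripP ρ →
      (∀ (Θ' : Set Θ) (Γ' : Set Γ), (∀ τ σ, sees ρ τ σ → (τ ∈ Θ' ↔ σ ∈ Γ')) →
        Γ' = ∅ ∨ Γ' = Set.univ) →
      (∃ Y : Finset (Γ × ℝ), (w : ℤ) ≤ ρ (gs T Θ) (ls Y)) → False) :
    ∃ N, ∀ ρ : Finset (Lab T Θ Empty (Fin N)) → Finset (Lab S Γ Empty (Fin N)) → ℤ,
      EMod w ρ → BM ρ → FreeB n ρ Set.univ Set.univ → False := by
  by_contra q
  push Not at q
  obtain ⟨ρ, a, b, c, d⟩ := hL n T Θ Empty S Γ Empty (fun N ρ => EMod w ρ) fun N => by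
    obtain ⟨ρ, a, b, c, -⟩ := q N
    exact ⟨ρ, a, b, c.mono (Set.subset_univ _) (Set.subset_univ _)⟩
  have e := EMod.of_local d
  have c' : FreeB n ρ Set.univ Set.univ := c.mono (fun l _ => lab_valid l) fun l _ => lab_valid l
  exact hS ρ a b c' e.strip (fun Θ' Γ' k => e.conn 0 Θ' Γ' fun τ σ m => k τ σ (e.sees a b c' m))
    ⟨_, e.heavy 0⟩

end Pool.Agent.Lib.MP_a4b0c4_co.J
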