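import Pool.Agent.Lib.MP_a4b0c4_co.JEng5

set_option autoImplicit false
set_option linter.unusedSectionVars false
set_option linter.unusedVariables false

open Finset

namespace Pool.Agent.Lib.MP_a4b0c4_co.J

variable {α : Type} [DecidableEq α]

lemma enum {s : Finset α} {a : ℕ} (hs : s.card = a) :
    ∃ f : Fin a → α, Function.Injective f ∧ univ.image f = s := by
  refine ⟨fun i => ((s.equivFinOfCardEq hs).symm i : α),
    Subtype.val_injective.comp (Equiv.injective _), ?_⟩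
  ext x
  simp only [mem_image, mem_univ, true_and]
  exact ⟨fun ⟨i, hi⟩ => hi ▸ Subtype.prop _, fun hx => ⟨s.equivFinOfCardEq hs ⟨x, hx⟩, by simp⟩⟩

section
variable {A B ι : Type} [Fintype A] [DecidableEq A] [DecidableEq B] [LinearOrder ι]

def lmap (e : A → α) (f : ι → B → α) : Lab A B Empty ι → α :=
  Sum.elim e (Sum.elim (fun x => f x.2 x.1) fun x => x.1.elim)

lemma gs_lmap (e : A → α) (f : ι → B → α) : (gs A B).image (lmap e f) = univ.image e := by
  simp only [gs, image_image]; rfl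

lemma ls_lmap (e : A → α) (f : ι → B → α) (Y : Finset (B × ι)) :
    (ls Y).image (lmap e f) = Y.image fun x => f x.2 x.1 := by
  simp only [ls, image_image]; rfl

lemma lmap_inj {e : A → α} {f : ι → B → α} (he : Function.Injective e)
    (hf : ∀ i j x y, f i x = f j y → i = j ∧ x = y) (hd : ∀ a i x, e a ≠ f i x) :
    Function.Injective (lmap e f) := by
  rintro (a | ⟨b, i⟩ | ⟨c, -⟩) (a' | ⟨b', i'⟩ | ⟨c', -⟩) q
  · rw [he q]
  · exact absurd q (hd _ _ _)
  · exact c'.elim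
  · exact absurd q.symm (hd _ _ _)
  · obtain ⟨rfl, rfl⟩ := hf _ _ _ _ q; rfl
  · exact c'.elim
  all_goals exact c.elim

lemma lmap_mem {e : A → α} {f : ι → B → α} {X : Finset α} (he : ∀ a, e a ∈ X)
    (hf : ∀ i x, f i x ∈ X) (l : Lab A B Empty ι) : lmap e f l ∈ X := by
  rcases l with a | ⟨b, i⟩ | ⟨c, -⟩
  exacts [he a, hf i b, c.elim]

end

variable {r : Finset α → ℤ} {E S T D G : Finset α} {pos : α → ℕ} {k n : ℕ}

lemma Chain.model (hr : Rk r) (fr : Free n r E) (ch : Chain r E S T D G pos k) {w h N a b : ℕ}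
    (lo hi : Fin N → ℕ) (hm : ∀ i j, i < j → hi i ≤ lo j) (H : Fin N → Finset α)
    (hH : ∀ i, Bag (bm r (T ∪ D) (S ∪ G)) T D G pos (lo i) (hi i) w h (H i))
    (ha : ∀ i, (H i ∩ D).card = a) (hb : ∀ i, (H i ∩ G).card = b) :
    ∃ ρ : Finset (Lab (Fin k) (Fin a) Empty (Fin N)) →
      Finset (Lab (Fin k) (Fin b) Empty (Fin N)) → ℤ,
      EMod w ρ ∧ BM ρ ∧ FreeB n ρ Set.univ Set.univ := by
  have B := ch.isBM hr
  have F := Free.bm hr ch.iT fr (G := S ∪ G) (by rw [ch.part]; clear * -; grind) ch.d1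
  set ρ := bm r (T ∪ D) (S ∪ G) with hρ
  obtain ⟨eT, t1, t2⟩ := enum ch.cT
  obtain ⟨eS, s1, s2⟩ := enum ch.cS
  choose eD d1 d2 using fun i => enum (ha i)
  choose eG g1 g2 using fun i => enum (hb i)
  have mT : ∀ x, eT x ∈ T := fun x => t2 ▸ mem_image_of_mem _ (mem_univ x)
  have mS : ∀ x, eS x ∈ S := fun x => s2 ▸ mem_image_of_mem _ (mem_univ x)
  have mD : ∀ i x, eD i x ∈ H i ∩ D := fun i x => d2 i ▸ mem_image_of_mem _ (mem_univ x)
  have mG : ∀ i x, eG i x ∈ H i ∩ G := fun i x => g2 i ▸ mem_image_of_mem _ (mem_univ x)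
  have lt : ∀ i j, i < j → ∀ x ∈ H i, ∀ y ∈ H j, pos x < pos y := fun i j ij x hx y hy => by
    have := (hH i).sub x hx; have := (hH j).sub y hy; have := hm i j ij; omega
  have un : ∀ i j x, x ∈ H i → x ∈ H j → i = j := fun i j x hi hj => by
    rcases lt_trichotomy i j with q | q | q
    exacts [absurd (lt i j q x hi x hj) (lt_irrefl _), q, absurd (lt j i q x hj x hi) (lt_irrefl _)]
  have iD : ∀ i j x y, eD i x = eD j y → i = j ∧ x = y := fun i j x y q => by
    obtain rfl := un i j _ (mem_inter.1 (mD i x)).1 (q ▸ (mem_inter.1 (mD j y)).1)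
    exact ⟨rfl, d1 i q⟩
  have iG : ∀ i j x y, eG i x = eG j y → i = j ∧ x = y := fun i j x y q => by
    obtain rfl := un i j _ (mem_inter.1 (mG i x)).1 (q ▸ (mem_inter.1 (mG j y)).1)
    exact ⟨rfl, g1 i q⟩
  have sD : ∀ X : Finset (Fin a × Fin N), (X.image fun x => eD x.2 x.1) ⊆ D := fun X =>
    image_subset_iff.2 fun x _ => (mem_inter.1 (mD _ _)).2
  have sG : ∀ X : Finset (Fin b × Fin N), (X.image fun x => eG x.2 x.1) ⊆ G := fun X =>
    image_subset_iff.2 fun x _ => (mem_inter.1 (mG _ _)).2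
  have sep : ∀ (X : Finset (Fin a × Fin N)) (Y : Finset (Fin b × Fin N)),
      (∀ y ∈ Y, ∀ d ∈ X, y.2 < d.2) → ∀ y ∈ Y.image fun x => eG x.2 x.1,
      ∀ d ∈ X.image fun x => eD x.2 x.1, pos y < pos d := fun X Y q y hy d hd => by
    obtain ⟨y, hy', rfl⟩ := mem_image.1 hy
    obtain ⟨d, hd', rfl⟩ := mem_image.1 hd
    exact lt _ _ (q y hy' d hd') _ (mem_inter.1 (mG _ _)).1 _ (mem_inter.1 (mD _ _)).1
  refine ⟨pullB ρ (lmap eT eD) (lmap eS eG), ⟨⟨fun τ β σ γ q => ?_, fun X Y q => ?_,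
    fun X Y q => ?_⟩, fun i Θ' Γ' q => ?_, fun i => ?_, fun τ σ i Y q1 q => ?_⟩, B.pull _ _,
    F.pull B (lmap_inj t1 iD fun x i y e => ?_).injOn (lmap_inj s1 iG fun x i y e => ?_).injOn
      (fun l _ => mem_coe.2 (lmap_mem (fun x => mem_union_left _ (mT x))
        (fun i x => mem_union_right _ (mem_inter.1 (mD i x)).2) l))
      fun l _ => mem_coe.2 (lmap_mem (fun x => mem_union_left _ (mS x))
        (fun i x => mem_union_right _ (mem_inter.1 (mG i x)).2) l)⟩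
  · simp only [pullB, image_singleton]
    exact ch.zero hr (mem_inter.1 (mD β τ)).2 (mem_inter.1 (mG γ σ)).2
      (lt _ _ q _ (mem_inter.1 (mD _ _)).1 _ (mem_inter.1 (mG _ _)).1).le
  · simp only [pullB, image_union, gs_lmap, ls_lmap, t2]
    exact ch.fa hr (sD X) (sG Y) (sep X Y q)
  · simp only [pullB, image_union, gs_lmap, ls_lmap, s2]
    exact ch.fb hr (sD X) (sG Y) (sep X Y q)
  · simp only [pullB, ls_lmap, image_singleton] at q
    have nd : ∀ x y, eD i x ≠ eG i y := fun x y e =>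
      disjoint_left.1 ch.dDG (mem_inter.1 (mD i x)).2 (e ▸ (mem_inter.1 (mG i y)).2)
    let X : α → Prop := fun x => (∃ τ ∈ Θ', eD i τ = x) ∨ ∃ σ ∈ Γ', eG i σ = x
    have x1 : ∀ τ, X (eD i τ) ↔ τ ∈ Θ' := fun τ => ⟨fun m => by
      rcases m with ⟨y, a, b⟩ | ⟨y, a, b⟩
      exacts [d1 i b ▸ a, absurd b.symm (nd _ _)], fun m => .inl ⟨τ, m, rfl⟩⟩
    have x2 : ∀ σ, X (eG i σ) ↔ σ ∈ Γ' := fun σ => ⟨fun m => by
      rcases m with ⟨y, a, b⟩ | ⟨y, a, b⟩
      exacts [absurd b (nd _ _), g1 i b ▸ a], fun m => .inr ⟨σ, m, rfl⟩⟩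
    have := (hH i).conn X fun d hd c hc e => by
      rw [← d2] at hd; rw [← g2] at hc
      obtain ⟨τ, -, rfl⟩ := mem_image.1 hd
      obtain ⟨σ, -, rfl⟩ := mem_image.1 hc
      rw [x1, x2]; exact q τ σ e
    rcases Γ'.eq_empty_or_nonempty with e | ⟨σ, e⟩
    · exact .inl e
    · exact .inr (Set.eq_univ_of_forall fun σ' => (x2 σ').1
        ((this _ (mem_inter.1 (mG i σ)).1 _ (mem_inter.1 (mG i σ')).1).1 ((x2 σ).2 e)))
  · simp only [pullB, gs_lmap, ls_lmap, t2]
    refine (hH i).heavy.trans (B.mono subset_rfl ?_)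
    rw [← g2]
    exact image_subset_iff.2 fun x _ => mem_image.2 ⟨(x, i), by simp, rfl⟩
  · simp only [pullB, image_union, gs_lmap, ls_lmap, t2] at q1 ⊢
    refine ch.fa hr (sD _) (sG _) fun y hy d hd => ?_
    rw [image_insert] at hy
    rcases mem_insert.1 hy with rfl | hy
    · rw [image_singleton, mem_singleton] at hd
      rw [image_singleton, image_singleton] at q1
      exact hd ▸ ch.lt hr (mem_inter.1 (mD _ _)).2 (mem_inter.1 (mG _ _)).2 q1
    · exact sep {(τ, i)} Y (fun y hy d hd => by rw [mem_singleton.1 hd]; exact q y hy) y hy d hd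
  · exact disjoint_left.1 ch.d2 (mT x) (e ▸ (mem_inter.1 (mD i y)).2)
  · exact disjoint_left.1 ch.d3 (mS x) (e ▸ (mem_inter.1 (mG i y)).2)

theorem engine (hL : StLimit) (hS : StStrip) : StEngine := by
  intro n ν γ
  obtain ⟨w, hw⟩ := hS n
  set k := γ + ν * w with hk
  set h := w * (3 * k + 1) with hh
  choose N hN using fun x : Fin (h + 1) × Fin (h + 1) =>
    emod_false (T := Fin k) (Θ := Fin x.1) (S := Fin k) (Γ := Fin x.2) hL (hw _ _ _ _)
  set M := (h + 1) * (h + 1) * univ.sup N with hM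
  refine ⟨k, M * (5 * k + 2), fun α _ κ _ _ r E S T R P hν hr fr sS sT d sR sP pd c cn sk bl => ?_⟩
  obtain ⟨S', s1, s2, c1⟩ := hr.conn_shrink (by clear * - sS d; grind [disjoint_left]) c
  obtain ⟨T', t1, t2, c2⟩ := hr.conn_shrink (by clear * - sT d s1; grind [disjoint_left])
    (c1.symm (s1.trans sS))
  have ed : ED n k γ r E S' T' R P := ⟨hr, fr, s1.trans sS, t1.trans sT, sR,
    fun x => by have := sP x; clear * - this s1 t1; grind, pd, c2.symm (t1.trans sT), cn, sk,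
    fun i => by
      obtain ⟨Z, a, b, e⟩ := bl i
      exact ⟨Z, s1.trans a, b.trans (sdiff_subset_sdiff subset_rfl t1), e⟩⟩
  obtain ⟨r, E, R, P, D, G, pos, ed, ch, hG⟩ := ed.terminal (d.mono s1 t1) s2 t2
  obtain ⟨b, H, b1, b2⟩ := ed.bags (w := w) (N := M) ch hG hν (by rw [hk]; push_cast; rfl) (by simp)
  have l1 : ∀ (j : Fin M) (X : Finset α), (H j ∩ X).card < h + 1 := fun j X =>
    Nat.lt_succ_of_le ((card_le_card inter_subset_left).trans (b2 j j.2).card)
  obtain ⟨x, hx⟩ := Fintype.exists_le_card_fiber_of_mul_le_card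
    (fun j : Fin M => ((⟨_, l1 j D⟩, ⟨_, l1 j G⟩) : Fin (h + 1) × Fin (h + 1))) (n := univ.sup N)
    (by simp [hM])
  obtain ⟨s, u1, u2⟩ := exists_subset_card_eq ((le_sup (f := N) (mem_univ x)).trans hx)
  let e := s.orderEmbOfFin u2
  have u3 := fun i => (mem_filter.1 (u1 (s.orderEmbOfFin_mem u2 i))).2
  obtain ⟨ρ, a1, a2, a3⟩ := ch.model ed.rk ed.free (fun i => b (e i)) (fun i => b (e i + 1))
    (fun i j ij => b1 (e.strictMono ij)) (fun i => H (e i)) (fun i => b2 _ (e i).2)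
    (a := x.1) (b := x.2) (fun i => congrArg (fun y => (y.1 : ℕ)) (u3 i))
    fun i => congrArg (fun y => (y.2 : ℕ)) (u3 i)
  exact hN x ρ a1 a2 a3

end Pool.Agent.Lib.MP_a4b0c4_co.J
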