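import Pool.Agent.Lib.MP_a4b0c4_co.JFrameG
import Pool.Agent.Lib.MP_a4b0c4_co.JBM

set_option autoImplicit false
set_option linter.unusedSectionVars false
set_option linter.unusedVariables false

open Finset

namespace Pool.Agent.Lib.MP_a4b0c4_co.J.F

lemma ind_two {α : Type} [DecidableEq α] {r : Finset α → ℤ} (h : Rk r) {A Q J P B : Finset α}
    (i1 : Ind (con r A) Q) (i2 : Ind (con r (A ∪ Q)) J) (hP : P ⊆ Q)
    (hB : ∀ x ∈ B, x ∉ P ∧ (x ∈ A ∨ x ∈ Q ∨ x ∈ J)) : Ind (con r B) P := by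
  rw [← con_con] at i2
  have i3 := (h.con _).ind_union i1 i2
  have i4 := (h.con _).ind_con (C := (J ∪ Q) \ P) (X := P) disjoint_sdiff
    (by rwa [union_sdiff_of_subset (hP.trans subset_union_right)])
  rw [con_con] at i4
  refine h.ind_con_anti (fun x hx => ?_) i4
  have := hB x hx
  simp only [mem_union, mem_sdiff]
  tauto

lemma ind_iota {α : Type} [DecidableEq α] {r : Finset α → ℤ} (F : (Bool × ℕ × ℕ) × Bool → α)
    (I : Finset (Bool × ℕ × ℕ)) :
    Ind (pull r fun e => F (e, false)) I ↔ Ind (pull r F) (I.image fun e => (e, false)) := by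
  simp only [Ind, pull, image_image]
  rw [card_image_of_injective _ fun a b k => (Prod.ext_iff.1 k).1]
  rfl

lemma gends_inj : Function.Injective gends := by
  rintro ⟨b, i, j⟩ ⟨b', i', j'⟩ k
  have k1 := Finset.ext_iff.1 k (i, j)
  have k2 := Finset.ext_iff.1 k (i', j')
  have k3 := Finset.ext_iff.1 k (i, j + 1)
  have k4 := Finset.ext_iff.1 k (i + 1, j)
  cases b <;> cases b' <;> simp [gends_t, gends_f] at k1 k2 k3 k4 ⊢ <;> omega

/-- ends of an edge of the complete bipartite graph -/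
def kends (e : ℤ × ℤ) : Finset (Bool × ℤ) := {(false, e.1), (true, e.2)}

/-- order invariant frame matroid on the complete bipartite graph -/
structure KM (n : ℕ) (rk : Finset (ℤ × ℤ) → ℤ) : Prop where
  h : Rk rk
  inv : ∀ (φ : ℤ → ℤ) (S : Set ℤ) (Y : Finset (ℤ × ℤ)), StrictMonoOn φ S →
    (∀ y ∈ Y, y.1 ∈ S ∧ y.2 ∈ S) → rk (Y.image (Prod.map φ φ)) = rk Y
  star : ∀ G, Star rk G kends
  le : ∀ Y, rk Y ≤ (Y.biUnion kends).card
  skew : ∀ Y Y', Disjoint (Y.biUnion kends) (Y'.biUnion kends) → rk Y + rk Y' ≤ rk (Y ∪ Y')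
  free : ∀ E : Finset (ℤ × ℤ), (∀ e ∈ E, e.1 < e.2) → Free n rk E

/-- a four-cycle -/
def C4 (a a' b b' : ℤ) : Finset (ℤ × ℤ) := {(a, b), (a, b'), (a', b), (a', b')}

variable {n : ℕ} {rk : Finset (ℤ × ℤ) → ℤ}

lemma KM.c4 (k : KM n rk) {a a' b b' : ℤ} (h1 : a < a') (h2 : a' < b) (h3 : b < b') :
    rk (C4 a a' b b') = rk (C4 0 1 2 3) := by
  rw [← k.inv (fun x => if x = 0 then a else if x = 1 then a' else if x = 2 then b else b')
    {x | 0 ≤ x ∧ x ≤ 3} (C4 0 1 2 3)]
  · simp [C4]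
  · intro x hx y hy hxy
    simp only [Set.mem_ofPred_eq] at hx hy
    dsimp only
    split_ifs <;> omega
  · simp [C4]

lemma KM.c4' (k : KM n rk) {a a' b b' : ℤ} (h1 : a ≠ a') (h2 : b ≠ b') (ha : a < 0) (ha' : a' < 0)
    (hb : 0 ≤ b) (hb' : 0 ≤ b') : rk (C4 a a' b b') = rk (C4 0 1 2 3) := by
  have s1 : C4 a a' b b' = C4 a' a b b' := by
    ext x; simp only [C4, mem_insert, mem_singleton]; tauto
  have s2 : C4 a a' b b' = C4 a a' b' b := by
    ext x; simp only [C4, mem_insert, mem_singleton]; tauto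
  have s3 : C4 a a' b b' = C4 a' a b' b := by
    ext x; simp only [C4, mem_insert, mem_singleton]; tauto
  rcases lt_or_gt_of_ne h1 with u | u <;> rcases lt_or_gt_of_ne h2 with v | v
  · exact k.c4 u (by omega) v
  · exact s2 ▸ k.c4 u (by omega) v
  · exact s1 ▸ k.c4 u (by omega) v
  · exact s3 ▸ k.c4 u (by omega) v

lemma KM.move (k : KM n rk) {X : Finset (ℤ × ℤ)} {z z' a a' : ℤ} (hz : z' = z + 1 ∨ z = z' + 1)
    (hX : ∀ x ∈ X, x.1 ≠ z ∧ x.1 ≠ z' ∧ x.2 ≠ z ∧ x.2 ≠ z') (ha : a ≠ z ∧ a ≠ z')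
    (ha' : a' ≠ z ∧ a' ≠ z') (c : Cl rk (insert (a, z) X) (a', z)) :
    Cl rk (insert (a, z') X) (a', z') := by
  have hφ : StrictMonoOn (fun x => if x = z then z' else x) {x | x ≠ z'} := by
    intro x hx y hy hxy
    simp only [Set.mem_ofPred_eq] at hx hy
    dsimp only
    split_ifs <;> omega
  have hi : X.image (Prod.map (fun x => if x = z then z' else x) fun x => if x = z then z' else x)
      = X := by
    conv_rhs => rw [← image_id (s := X)]
    refine image_congr fun x hx => ?_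
    obtain ⟨p, -, q, -⟩ := hX x hx
    simp [Prod.map, p, q]
  have e1 := k.inv _ _ (insert (a, z) X) hφ fun y hy => by
    rcases mem_insert.1 hy with rfl | hy
    · exact ⟨ha.2, show z ≠ z' by omega⟩
    · exact ⟨(hX y hy).2.1, (hX y hy).2.2.2⟩
  have e2 := k.inv _ _ (insert (a', z) (insert (a, z) X)) hφ fun y hy => by
    rcases mem_insert.1 hy with rfl | hy
    · exact ⟨ha'.2, show z ≠ z' by omega⟩
    rcases mem_insert.1 hy with rfl | hy
    · exact ⟨ha.2, show z ≠ z' by omega⟩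
    · exact ⟨(hX y hy).2.1, (hX y hy).2.2.2⟩
  simp only [image_insert, hi, Prod.map, if_neg ha.1, if_neg ha'.1, if_true] at e1 e2
  unfold Cl at *
  rw [e1, e2, c]

/-- left index of a grid vertex -/
def lf (v : ℕ × ℕ) : ℤ := -(Encodable.encode v : ℤ) - 1
/-- right index of a grid vertex -/
def rt (v : ℕ × ℕ) : ℤ := (Encodable.encode v : ℤ)

lemma lf_neg (v : ℕ × ℕ) : lf v < 0 := by unfold lf; omega
lemma rt_nn (v : ℕ × ℕ) : 0 ≤ rt v := by unfold rt; omega
lemma lf_inj {v w : ℕ × ℕ} : lf v = lf w ↔ v = w :=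
  ⟨fun k => Encodable.encode_injective (by unfold lf at k; omega), fun k => k ▸ rfl⟩
lemma rt_inj {v w : ℕ × ℕ} : rt v = rt w ↔ v = w :=
  ⟨fun k => Encodable.encode_injective (by unfold rt at k; omega), fun k => k ▸ rfl⟩

/-- first end of a grid edge -/
def xx (e : Bool × ℕ × ℕ) : ℕ × ℕ := (e.2.1, e.2.2)
/-- second end of a grid edge -/
def yy (e : Bool × ℕ × ℕ) : ℕ × ℕ := if e.1 then (e.2.1, e.2.2 + 1) else (e.2.1 + 1, e.2.2)

lemma gends_eq (e : Bool × ℕ × ℕ) : gends e = {xx e, yy e} := rfl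

lemma xx_ne (e : Bool × ℕ × ℕ) : xx e ≠ yy e := by
  obtain ⟨b, i, j⟩ := e
  cases b <;> simp [xx, yy]

lemma yy_par (e : Bool × ℕ × ℕ) : (yy e).1 + (yy e).2 = (xx e).1 + (xx e).2 + 1 := by
  obtain ⟨b, i, j⟩ := e
  cases b <;> simp [xx, yy] <;> omega

/-- the grid as a subgraph of the complete bipartite graph -/
def gk (e : Bool × ℕ × ℕ) : ℤ × ℤ :=
  if ((xx e).1 + (xx e).2) % 2 = 0 then (lf (xx e), rt (yy e)) else (lf (yy e), rt (xx e))

def gv (v : ℕ × ℕ) : Bool × ℤ := if (v.1 + v.2) % 2 = 0 then (false, lf v) else (true, rt v)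

lemma gv_inj : Function.Injective gv := by
  intro v w k
  unfold gv at k
  split_ifs at k <;> simp [lf_inj, rt_inj] at k <;> exact k

lemma kends_gk (e : Bool × ℕ × ℕ) : kends (gk e) = (gends e).image gv := by
  have := yy_par e
  rw [gends_eq, image_insert, image_singleton, gk, gv, gv]
  by_cases a : ((xx e).1 + (xx e).2) % 2 = 0
  · rw [if_pos a, if_pos a, if_neg (by omega)]; rfl
  · rw [if_neg a, if_neg a, if_pos (by omega), pair_comm]; rfl

lemma KM.dep (k : KM n rk) (h4 : rk (C4 0 1 2 3) ≤ 3) : False := by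
  have gi : Function.Injective gk := fun a b c => gends_inj (image_injective gv_inj (by
    rw [← kends_gk, ← kends_gk, c]))
  refine (k.free ((GE n).image gk) fun e he => ?_).not_M
    (HasMinor.mk' (C := ∅) (empty_subset _) gi.injOn
      (fun x hx => ⟨mem_image_of_mem _ hx, notMem_empty _⟩) fun I hI => ?_)
  · obtain ⟨g, -, rfl⟩ := mem_image.1 he
    have := lf_neg (xx g)
    have := lf_neg (yy g)
    have := rt_nn (xx g)
    have := rt_nn (yy g)
    unfold gk
    split_ifs <;> dsimp only <;> omega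
  rw [k.h.con_empty]
  refine grid_mcase (k.h.pull gk) (star_pull k.h (k.star ((GE n).image gk)) gv_inj
    fun e he => ⟨mem_image_of_mem _ he, kends_gk e⟩) (fun i j _ _ => ?_) hI
  by_cases a : (i + j) % 2 = 0
  · rw [← k.c4' (a := lf (i, j)) (a' := lf (i + 1, j + 1)) (b := rt (i, j + 1))
      (b' := rt (i + 1, j)) (by simp [lf_inj]) (by simp [rt_inj]) (lf_neg _) (lf_neg _) (rt_nn _)
      (rt_nn _)] at h4
    refine (k.h.mono ?_).trans h4
    have b : ¬ (i + (j + 1)) % 2 = 0 := by omega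
    have c : ¬ (i + 1 + j) % 2 = 0 := by omega
    simp [gk, xx, yy, a, b, c, C4, insert_subset_iff]
  · rw [← k.c4' (a := lf (i, j + 1)) (a' := lf (i + 1, j)) (b := rt (i, j))
      (b' := rt (i + 1, j + 1)) (by simp [lf_inj]) (by simp [rt_inj]) (lf_neg _) (lf_neg _)
      (rt_nn _) (rt_nn _)] at h4
    refine (k.h.mono ?_).trans h4
    have b : (i + (j + 1)) % 2 = 0 := by omega
    have c : (i + 1 + j) % 2 = 0 := by omega
    simp [gk, xx, yy, a, b, c, C4, insert_subset_iff]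

end Pool.Agent.Lib.MP_a4b0c4_co.J.F
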