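import Pool.Agent.Lib.MP_a4b0c4_co.JBasic

set_option autoImplicit false
set_option linter.unusedSectionVars false
set_option linter.unusedVariables false

open Finset

namespace Pool.Agent.Lib.MP_a4b0c4_co.J.F

variable {V ε : Type} [DecidableEq V] [DecidableEq ε] {r : Finset ε → ℤ} {G : Finset ε}
  {ends : ε → Finset V}

/-- the vertex v lies on the edge e of I and on no other edge of I -/
def Leaf (ends : ε → Finset V) (I : Finset ε) (e : ε) (v : V) : Prop :=
  e ∈ I ∧ v ∈ ends e ∧ ∀ g ∈ I, v ∈ ends g → g = e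

/-- degree -/
def dg (ends : ε → Finset V) (I : Finset ε) (v : V) : ℕ := (I.filter fun e => v ∈ ends e).card

/-- connected graph on the vertex set W -/
def Cn (G : Finset ε) (ends : ε → Finset V) (W : Finset V) : Prop :=
  ∀ U ⊆ W, U.Nonempty → U ≠ W → ∃ e ∈ G, ∃ w ∈ ends e, w ∉ U ∧ ends e ⊆ insert w U

lemma star_not_cl (h : Rk r) (hs : Star r G ends) {A : Finset ε} {e : ε} {v : V} (he : e ∈ G)
    (hv : v ∈ ends e) (hA : A ⊆ G) (hA' : ∀ g ∈ A, v ∉ ends g) : ¬ Cl r A e :=
  fun k => hs e he v hv (h.cl_mono (fun g hg => mem_filter.2 ⟨hA hg, hA' g hg⟩) k)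

lemma ind_single (h : Rk r) {A : Finset ε} {e : ε} : Ind (con r A) {e} ↔ ¬ Cl r A e := by
  rw [h.not_cl, Ind, con, card_singleton, singleton_union]
  constructor <;> intro k <;> push_cast at * <;> linarith

lemma sum_dg (I : Finset ε) : ∑ v ∈ I.biUnion ends, dg ends I v = ∑ e ∈ I, (ends e).card := by
  simp only [dg, card_filter]
  rw [sum_comm]
  refine sum_congr rfl fun e he => ?_
  rw [← card_filter]
  congr 1
  ext v
  simp only [mem_filter, mem_biUnion]
  exact ⟨fun k => k.2, fun k => ⟨⟨e, he, k⟩, k⟩⟩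

lemma sum_dg2 {I : Finset ε} (h2 : ∀ e ∈ I, (ends e).card = 2) :
    ∑ v ∈ I.biUnion ends, dg ends I v = I.card * 2 := by
  rw [sum_dg, sum_congr rfl h2, sum_const, smul_eq_mul]

lemma dg_pos {I : Finset ε} {v : V} (hv : v ∈ I.biUnion ends) : 1 ≤ dg ends I v := by
  obtain ⟨e, he, k⟩ := mem_biUnion.1 hv
  exact card_pos.2 ⟨e, mem_filter.2 ⟨he, k⟩⟩

lemma dg_two {I : Finset ε} {v : V} (hv : v ∈ I.biUnion ends) (k : ∀ e, ¬ Leaf ends I e v) :
    2 ≤ dg ends I v := by
  obtain ⟨e, he, hve⟩ := mem_biUnion.1 hv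
  by_contra hc
  refine k e ⟨he, hve, fun g hg hvg => ?_⟩
  have h1 : (I.filter fun e => v ∈ ends e).card ≤ 1 := by unfold dg at hc; omega
  exact card_le_one.1 h1 g (mem_filter.2 ⟨hg, hvg⟩) e (mem_filter.2 ⟨he, hve⟩)

lemma two_leaves {J : Finset ε} (h2 : ∀ e ∈ J, (ends e).card = 2) (mg : MG ends J)
    (ne : J.Nonempty) (a : V) : ∃ e v, Leaf ends J e v ∧ v ≠ a := by
  by_contra hc
  push Not at hc
  have h1 := sum_dg2 h2
  have h3 := mg J subset_rfl ne
  have h4 : ((J.biUnion ends).erase a).card * 2 ≤ ∑ v ∈ (J.biUnion ends).erase a, dg ends J v := by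
    rw [← smul_eq_mul, ← sum_const]
    exact sum_le_sum fun v hv =>
      dg_two (mem_of_mem_erase hv) fun e k => ne_of_mem_erase hv (hc e v k)
  by_cases ha : a ∈ J.biUnion ends
  · rw [← add_sum_erase _ _ ha] at h1
    have := dg_pos ha
    rw [card_erase_of_mem ha] at h4
    omega
  · rw [erase_eq_of_notMem ha] at h4
    omega

lemma mg_sub {I J : Finset ε} (mg : MG ends I) (h : J ⊆ I) : MG ends J :=
  fun K hK => mg K (hK.trans h)

lemma bg_sub {I J : Finset ε} (mg : BG ends I) (h : J ⊆ I) : BG ends J :=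
  fun K hK => mg K (hK.trans h)

lemma mg_of_leaf {I : Finset ε} (h2 : ∀ e ∈ I, (ends e).card = 2)
    (k : ∀ J ⊆ I, J.Nonempty → ∃ e v, Leaf ends J e v) : MG ends I := by
  intro J
  induction J using Finset.strongInduction with
  | H J ih =>
    intro hJ ne
    obtain ⟨e, v, he, hv, hl⟩ := k J hJ ne
    have hc := card_erase_add_one he
    rcases (J.erase e).eq_empty_or_nonempty with h0 | h0
    · have h3 : (ends e).card ≤ (J.biUnion ends).card :=
        card_le_card fun w hw => mem_biUnion.2 ⟨e, he, hw⟩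
      rw [h0, card_empty] at hc
      have := h2 e (hJ he)
      omega
    · have h3 := ih _ (erase_ssubset he) ((erase_subset _ _).trans hJ) h0
      have h4 : ((J.erase e).biUnion ends).card < (J.biUnion ends).card :=
        card_lt_card ⟨biUnion_subset_biUnion_of_subset_left _ (erase_subset _ _), fun c => by
          obtain ⟨g, hg, hvg⟩ := mem_biUnion.1 (c (mem_biUnion.2 ⟨e, he, hv⟩))
          exact ne_of_mem_erase hg (hl g (mem_of_mem_erase hg) hvg)⟩
      omega

/-- independence modulo A from untouched leaves -/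
lemma ind_mod (h : Rk r) (hs : Star r G ends) {A J : Finset ε} (hA : A ⊆ G) (hJ : J ⊆ G)
    (k : ∀ J' ⊆ J, J'.Nonempty → ∃ e v, Leaf ends J' e v ∧ ∀ g ∈ A, v ∉ ends g) :
    Ind (con r A) J :=
  h.ind_of_leaf fun J' hJ' ne => by
    obtain ⟨e, v, ⟨he, hv, hl⟩, hA'⟩ := k J' hJ' ne
    refine ⟨e, he, star_not_cl h hs (hJ (hJ' he)) hv
      (union_subset ((erase_subset _ _).trans (hJ'.trans hJ)) hA) fun g hg c => ?_⟩
    rcases mem_union.1 hg with hg | hg
    · exact ne_of_mem_erase hg (hl g (mem_of_mem_erase hg) c)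
    · exact hA' g hg c

lemma mg_ind (h : Rk r) (hs : Star r G ends) {I : Finset ε} (hI : I ⊆ G)
    (h2 : ∀ e ∈ I, (ends e).card = 2) (mg : MG ends I) : Ind r I := by
  have := ind_mod h hs (empty_subset G) hI fun J hJ ne => by
    obtain ⟨e0, he0⟩ := ne
    obtain ⟨a, ha⟩ : (ends e0).Nonempty := card_pos.1 (by rw [h2 e0 (hJ he0)]; omega)
    obtain ⟨e, v, k, -⟩ := two_leaves (fun e he => h2 e (hJ he)) (mg_sub mg hJ) ⟨e0, he0⟩ a
    exact ⟨e, v, k, by simp⟩
  rwa [h.con_empty] at this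

lemma upper (h : Rk r) (hs : Star r G ends) {W : Finset V} (hW : ∀ e ∈ G, ends e ⊆ W)
    (hc : Cn G ends W) {c : ℤ} (hr : r G ≤ W.card - c) {U : Finset V} (hU : U ⊆ W)
    (ne : U.Nonempty) : r (G.filter fun e => ends e ⊆ U) ≤ U.card - c := by
  induction hn : (W \ U).card using Nat.strong_induction_on generalizing U with
  | _ n ih =>
    by_cases hUW : U = W
    · rw [hUW]; exact (h.mono (filter_subset _ _)).trans hr
    · obtain ⟨e, he, w, hw, hwU, hsub⟩ := hc U hU ne hUW
      have h1 := ih _ (by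
        rw [← hn]
        exact card_lt_card ⟨sdiff_subset_sdiff subset_rfl (subset_insert _ _), fun k =>
          (mem_sdiff.1 (k (mem_sdiff.2 ⟨hW e he hw, hwU⟩))).2 (mem_insert_self _ _)⟩)
        (insert_subset (hW e he hw) hU) (insert_nonempty w U) rfl
      have h2 := h.not_cl.1 (star_not_cl h hs he hw (filter_subset (fun e => ends e ⊆ U) G)
        fun g hg c => hwU ((mem_filter.1 hg).2 c))
      have h3 := h.mono (X := insert e (G.filter fun e => ends e ⊆ U))
        (Y := G.filter fun e => ends e ⊆ insert w U) (insert_subset (mem_filter.2 ⟨he, hsub⟩)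
          fun g hg => mem_filter.2 ⟨(mem_filter.1 hg).1,
            (mem_filter.1 hg).2.trans (subset_insert _ _)⟩)
      rw [card_insert_of_notMem hwU] at h1
      push_cast at h1
      omega

lemma ind_le (h : Rk r) (hs : Star r G ends) {W : Finset V} (h2 : ∀ e ∈ G, (ends e).card = 2)
    (hW : ∀ e ∈ G, ends e ⊆ W) (hc : Cn G ends W) {c : ℤ} (hr : r G ≤ W.card - c)
    {J : Finset ε} (hJ : J ⊆ G) (ne : J.Nonempty) (k : Ind r J) :
    (J.card : ℤ) ≤ (J.biUnion ends).card - c := by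
  obtain ⟨e, he⟩ := ne
  obtain ⟨a, ha⟩ : (ends e).Nonempty := card_pos.1 (by rw [h2 e (hJ he)]; omega)
  have h1 := upper h hs hW hc hr (U := J.biUnion ends)
    (biUnion_subset.2 fun g hg => hW g (hJ hg)) ⟨a, mem_biUnion.2 ⟨e, he, ha⟩⟩
  have h3 := h.mono (X := J) (Y := G.filter fun e => ends e ⊆ J.biUnion ends)
    fun g hg => mem_filter.2 ⟨hJ hg, subset_biUnion_of_mem ends hg⟩
  unfold Ind at k
  omega

/-- the cycle matroid case of a framework -/
theorem mcase (h : Rk r) (hs : Star r G ends) {W : Finset V} (h2 : ∀ e ∈ G, (ends e).card = 2)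
    (hW : ∀ e ∈ G, ends e ⊆ W) (hc : Cn G ends W) (hr : r G ≤ W.card - 1) {I : Finset ε}
    (hI : I ⊆ G) : Ind r I ↔ MG ends I :=
  ⟨fun k J hJ ne => by
    have := ind_le h hs h2 hW hc hr (hJ.trans hI) ne (h.ind_sub k hJ)
    omega, mg_ind h hs hI fun e he => h2 e (hI he)⟩

lemma dg_le_two {I : Finset ε} (h2 : ∀ e ∈ I, (ends e).card = 2) (bg : BG ends I)
    (nl : ∀ e v, ¬ Leaf ends I e v) (v : V) : dg ends I v ≤ 2 := by
  by_contra hc
  have hv : v ∈ I.biUnion ends := by
    obtain ⟨e, he⟩ : (I.filter fun e => v ∈ ends e).Nonempty :=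
      card_pos.1 (by unfold dg at hc; omega)
    exact mem_biUnion.2 ⟨e, mem_filter.1 he⟩
  have h1 : ∑ w ∈ I.biUnion ends, 2 < ∑ w ∈ I.biUnion ends, dg ends I w :=
    sum_lt_sum (fun w hw => dg_two hw fun e => nl e w) ⟨v, hv, by omega⟩
  rw [sum_dg2 h2, sum_const, smul_eq_mul] at h1
  have := bg I subset_rfl
  omega

lemma pair_disj {I : Finset ε} {e e' g : ε} (d2 : ∀ v, dg ends I v ≤ 2) (he : e ∈ I)
    (he' : e' ∈ I) (hne : e' ≠ e) (hends : ends e' = ends e) (hg : g ∈ I \ {e, e'}) :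
    Disjoint (ends g) (ends e) := by
  rw [disjoint_left]
  intro v hg1 hv
  have a := d2 v
  simp only [mem_sdiff, mem_insert, mem_singleton, not_or] at hg
  have b : ({g, e, e'} : Finset ε).card ≤ dg ends I v := card_le_card (by
    intro x hx
    simp only [mem_insert, mem_singleton] at hx
    rcases hx with rfl | rfl | rfl
    exacts [mem_filter.2 ⟨hg.1, hg1⟩, mem_filter.2 ⟨he, hv⟩, mem_filter.2 ⟨he', hends ▸ hv⟩])
  rw [card_insert_of_notMem (by simp [hg.2.1, hg.2.2]), card_pair hne.symm] at b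
  omega

lemma bg_swap {I : Finset ε} {e e' g : ε} {v : V} (h2 : ∀ e ∈ I, (ends e).card = 2)
    (bg : BG ends I) (d2 : ∀ v, dg ends I v ≤ 2) (he : e ∈ I) (he' : e' ∉ I)
    (hends : ends e' = ends e) (hg : g ∈ I) (hv : v ∈ ends e) (hvg : v ∈ ends g) :
    BG ends (insert e' (I.erase g)) := by
  intro J hJ
  have sub : J.erase e' ⊆ I.erase g := fun x hx =>
    (mem_insert.1 (hJ (mem_of_mem_erase hx))).resolve_left (ne_of_mem_erase hx)
  have sub' : J.erase e' ⊆ I := sub.trans (erase_subset _ _)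
  by_cases a : e' ∈ J
  swap
  · rw [erase_eq_of_notMem a] at sub'
    exact bg J sub'
  have cj := card_erase_add_one a
  by_cases b : e ∈ J.erase e'
  · have s1 : ∑ w ∈ (J.erase e').biUnion ends, dg ends (J.erase e') w <
        ∑ w ∈ (J.erase e').biUnion ends, 2 := by
      refine sum_lt_sum (fun w _ => le_trans (card_le_card (filter_subset_filter _ sub')) (d2 w))
        ⟨v, mem_biUnion.2 ⟨e, b, hv⟩, lt_of_lt_of_le
          (card_lt_card ⟨filter_subset_filter _ sub', fun k => ?_⟩) (d2 v)⟩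
      exact notMem_erase g I (sub (mem_filter.1 (k (mem_filter.2 ⟨hg, hvg⟩))).1)
    rw [sum_dg2 (fun x hx => h2 x (sub' hx)), sum_const, smul_eq_mul] at s1
    have := card_le_card (biUnion_subset_biUnion_of_subset_left ends (erase_subset e' J))
    omega
  · have s1 := bg (insert e (J.erase e')) (insert_subset he sub')
    rw [card_insert_of_notMem b, biUnion_insert, ← hends, ← biUnion_insert, insert_erase a] at s1
    omega

/-- the twin lemma: the bicircular case of a framework -/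
theorem bcase (h : Rk r) (hs : Star r G ends) {W : Finset V} (h2 : ∀ e ∈ G, (ends e).card = 2)
    (hW : ∀ e ∈ G, ends e ⊆ W) (hc : Cn G ends W) (hr : r G ≤ W.card) (rich : ε → Prop)
    (tw : ε → ε) (ht : ∀ e ∈ G, rich e → tw e ∈ G ∧ tw e ≠ e ∧ ends (tw e) = ends e)
    (T1 : ∀ e ∈ G, rich e → ∀ A ⊆ G, e ∉ A → tw e ∉ A → Cl r A e → Cl r A (tw e))
    (T2 : ∀ e ∈ G, rich e →
      Ind (con r (G.filter fun g => Disjoint (ends g) (ends e))) {e, tw e})
    (T3 : ∀ J ⊆ G, J.Nonempty → (∀ e ∈ J, ¬ rich e) → ∃ e v, Leaf ends J e v)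
    {I : Finset ε} (hI : I ⊆ G) : Ind r I ↔ BG ends I := by
  refine ⟨fun k J hJ => ?_, ?_⟩
  · rcases J.eq_empty_or_nonempty with rfl | ne
    · simp
    · have := ind_le h hs h2 hW hc (c := 0) (by omega) (hJ.trans hI) ne (h.ind_sub k hJ)
      omega
  induction hn : I.card using Nat.strong_induction_on generalizing I with
  | _ n ih =>
  have small : ∀ I ⊆ G, I.card = n → BG ends I → ∀ J, J ⊂ I → Ind r J := fun I hI hc bg J hJ =>
    ih _ (hc ▸ card_lt_card hJ) (hJ.1.trans hI) rfl (bg_sub bg hJ.1)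
  have leaf : ∀ I ⊆ G, I.card = n → BG ends I → ∀ e v, Leaf ends I e v → Ind r I := by
    rintro I hI hc bg e v ⟨he, hv, hl⟩
    have := h.ind_insert (small I hI hc bg _ (erase_ssubset he))
      (star_not_cl h hs (hI he) hv ((erase_subset e I).trans hI)
        fun g hg c => ne_of_mem_erase hg (hl g (mem_of_mem_erase hg) c))
    rwa [insert_erase he] at this
  have pair : ∀ I ⊆ G, I.card = n → BG ends I → ∀ e ∈ I, rich e → tw e ∈ I → Ind r I := by
    intro I hI hc bg e he hr ht'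
    by_cases nl : ∃ e v, Leaf ends I e v
    · obtain ⟨e, v, k⟩ := nl
      exact leaf I hI hc bg e v k
    push Not at nl
    obtain ⟨-, t2, t3⟩ := ht e (hI he) hr
    have h1 := small I hI hc bg (I \ {e, tw e}) ⟨sdiff_subset, fun k => by simpa using k he⟩
    have h3 := h.ind_con_anti (A := I \ {e, tw e}) (fun g hg => mem_filter.2
      ⟨hI (mem_sdiff.1 hg).1, pair_disj (dg_le_two (fun e he => h2 e (hI he)) bg nl) he ht' t2 t3
        hg⟩) (T2 e (hI he) hr)
    have := h.ind_union h1 h3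
    rwa [union_sdiff_of_subset (insert_subset he (singleton_subset_iff.2 ht'))] at this
  intro bg
  by_cases nl : ∃ e v, Leaf ends I e v
  · obtain ⟨e, v, k⟩ := nl
    exact leaf I hI hn bg e v k
  rcases I.eq_empty_or_nonempty with rfl | ne
  · exact h.ind_empty
  obtain ⟨e, he, hr⟩ : ∃ e ∈ I, rich e := by
    by_contra c
    push Not at c
    exact nl (T3 I hI ne c)
  push Not at nl
  by_cases ht' : tw e ∈ I
  · exact pair I hI hn bg e he hr ht'
  obtain ⟨t1, t2, t3⟩ := ht e (hI he) hr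
  have i1 := small I hI hn bg _ (erase_ssubset he)
  by_contra dep
  have c1 : Cl r (I.erase e) e := by
    by_contra c
    exact dep (by simpa only [insert_erase he] using h.ind_insert i1 c)
  have c2 := T1 e (hI he) hr _ ((erase_subset e I).trans hI) (notMem_erase e I)
    (fun c => ht' (mem_of_mem_erase c)) c1
  obtain ⟨v, hv⟩ : (ends e).Nonempty := card_pos.1 (by rw [h2 e (hI he)]; omega)
  obtain ⟨g, hg, hvg, hge⟩ : ∃ g ∈ I, v ∈ ends g ∧ g ≠ e := by
    by_contra c
    push Not at c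
    exact nl e v ⟨he, hv, c⟩
  have d2 := dg_le_two (fun e he => h2 e (hI he)) bg nl
  have hc' : (insert (tw e) (I.erase g)).card = n := by
    rw [card_insert_of_notMem (fun c => ht' (mem_of_mem_erase c)), card_erase_add_one hg, hn]
  have i2 := pair _ (insert_subset t1 ((erase_subset g I).trans hI)) hc'
    (bg_swap (fun e he => h2 e (hI he)) bg d2 he ht' t3 hg hv hvg) e
    (mem_insert_of_mem (mem_erase.2 ⟨hge.symm, he⟩)) hr (mem_insert_self _ _)
  have := h.span_le (A := I.erase e) (X := insert (tw e) (I.erase g)) fun x hx => by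
    rcases mem_insert.1 hx with a | a
    · exact a ▸ c2
    by_cases b : x = e
    · exact b ▸ c1
    exact cl_mem (mem_erase.2 ⟨b, mem_of_mem_erase a⟩)
  have := card_erase_add_one he
  unfold Ind at i1 i2
  omega

/-- contraction of a forest inside branch sets -/
lemma con_ind {V' : Type} (h : Rk r) (hs : Star r G ends) {K A P : Finset ε} (hK : K ⊆ G)
    (h2 : ∀ e ∈ K, (ends e).card = 2) (mg : MG ends K) (φ : V → V')
    (hφ : ∀ e ∈ K, ∀ a ∈ ends e, ∀ b ∈ ends e, φ a = φ b) (S : Set V') (hA : A ⊆ G) (hP : P ⊆ G)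
    (hAS : ∀ g ∈ A, ∀ a ∈ ends g, φ a ∉ S)
    (hPS : ∀ g ∈ P, ∀ g' ∈ P, ∀ a ∈ ends g, ∀ b ∈ ends g', φ a = φ b → a = b)
    (hi : ∀ A' ⊆ G, (∀ g ∈ A', ∀ a ∈ ends g, φ a ∉ S) → Ind (con r A') P) :
    Ind (con r (A ∪ K)) P := by
  classical
  set K1 := K.filter fun e => ∀ a ∈ ends e, φ a ∉ S with hK1
  have hA' : ∀ g ∈ A ∪ K1, ∀ a ∈ ends g, φ a ∉ S := fun g hg => by
    rcases mem_union.1 hg with k | k
    exacts [hAS g k, (mem_filter.1 k).2]
  have hAG : A ∪ K1 ⊆ G := union_subset hA ((filter_subset _ _).trans hK)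
  have i1 := hi _ hAG hA'
  have i2 : Ind (con r ((A ∪ K1) ∪ P)) (K \ K1) := by
    refine ind_mod h hs (union_subset hAG hP) (sdiff_subset.trans hK) fun J hJ ne => ?_
    obtain ⟨e0, he0⟩ := ne
    obtain ⟨a0, ha0, hx⟩ : ∃ a ∈ ends e0, φ a ∈ S := by
      have := mem_sdiff.1 (hJ he0)
      by_contra c
      push Not at c
      exact this.2 (mem_filter.2 ⟨this.1, c⟩)
    obtain ⟨a, ha⟩ : ∃ a, ∀ g ∈ P, ∀ b ∈ ends g, φ b = φ a0 → b = a := by
      by_cases c : ∃ g ∈ P, ∃ b ∈ ends g, φ b = φ a0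
      · obtain ⟨g, hg, b, hb, k⟩ := c
        exact ⟨b, fun g' hg' b' hb' k' => hPS g' hg' g hg b' hb' b hb (k'.trans k.symm)⟩
      · exact ⟨a0, fun g hg b hb k => absurd ⟨g, hg, b, hb, k⟩ c⟩
    have hJK : J ⊆ K := hJ.trans sdiff_subset
    obtain ⟨e, v, ⟨he, hv, hl⟩, hva⟩ := two_leaves (ends := ends)
      (J := J.filter fun e => ∀ b ∈ ends e, φ b = φ a0)
      (fun e he => h2 e (hJK (mem_filter.1 he).1)) (mg_sub mg ((filter_subset _ _).trans hJK))
      ⟨e0, mem_filter.2 ⟨he0, fun b hb => hφ e0 (hJK he0) b hb a0 ha0⟩⟩ a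
    have hvx : φ v = φ a0 := (mem_filter.1 he).2 v hv
    refine ⟨e, v, ⟨(mem_filter.1 he).1, hv, fun g hg c => hl g (mem_filter.2 ⟨hg, fun b hb =>
      (hφ g (hJK hg) b hb v c).trans hvx⟩) c⟩, fun g hg c => ?_⟩
    rcases mem_union.1 hg with k | k
    · exact hA' g k v c (hvx ▸ hx)
    · exact hva (ha g k v c hvx)
  rw [← con_con] at i2
  have i3 := (h.con _).ind_union i1 i2
  rw [union_comm (K \ K1)] at i3
  have i4 := (h.con _).ind_con ((h.con _).ind_con_disj i2).symm i3
  rwa [con_con, union_assoc, union_sdiff_of_subset (filter_subset _ _)] at i4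

lemma cl_pull {α : Type} [DecidableEq α] {r : Finset α → ℤ} {f : ε → α} {A : Finset ε} {e : ε} :
    Cl (pull r f) A e ↔ Cl r (A.image f) (f e) := by
  simp only [Cl, pull, image_insert]

lemma ind_pull {α : Type} [DecidableEq α] {r : Finset α → ℤ} {f : ε → α} {A I : Finset ε}
    (hf : Set.InjOn f I) : Ind (con (pull r f) A) I ↔ Ind (con r (A.image f)) (I.image f) := by
  simp only [Ind, con, pull, image_union, card_image_of_injOn hf]

lemma star_pull {V' ε' : Type} [DecidableEq V'] [DecidableEq ε'] (h : Rk r) (hs : Star r G ends)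
    {G' : Finset ε'} {ends' : ε' → Finset V'} {f : ε' → ε} {ψ : V' → V}
    (hψ : Function.Injective ψ) (hf : ∀ e ∈ G', f e ∈ G ∧ ends (f e) = (ends' e).image ψ) :
    Star (pull r f) G' ends' := fun e he v hv => by
  rw [cl_pull]
  refine star_not_cl h hs (v := ψ v) (hf e he).1 ((hf e he).2 ▸ mem_image_of_mem ψ hv)
    (image_subset_iff.2 fun g hg => (hf g (mem_filter.1 hg).1).1) fun g hg c => ?_
  obtain ⟨g, hg', rfl⟩ := mem_image.1 hg
  rw [(hf g (mem_filter.1 hg').1).2] at c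
  obtain ⟨w, hw, k⟩ := mem_image.1 c
  exact (mem_filter.1 hg').2 (hψ k ▸ hw)

lemma bg_image {ε' : Type} [DecidableEq ε'] {ends' : ε' → Finset V} {f : ε' → ε}
    (hf : Function.Injective f) (he : ∀ e, ends (f e) = ends' e) (I : Finset ε') :
    BG ends (I.image f) ↔ BG ends' I := by
  have key : ∀ J : Finset ε', ((J.image f).card ≤ ((J.image f).biUnion ends).card) ↔
      J.card ≤ (J.biUnion ends').card := fun J => by
    rw [card_image_of_injective _ hf, image_biUnion]
    simp only [he]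
  refine ⟨fun k J hJ => (key J).1 (k _ (image_subset_image hJ)), fun k J hJ => ?_⟩
  obtain ⟨J', hJ', rfl⟩ := subset_image_iff.1 hJ
  exact (key J').2 (k J' hJ')

end Pool.Agent.Lib.MP_a4b0c4_co.J.F
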