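import Pool.Agent.Lib.MP_a4b0c4_co.JFrame

set_option autoImplicit false
set_option linter.unusedSectionVars false
set_option linter.unusedVariables false

open Finset

namespace Pool.Agent.Lib.MP_a4b0c4_co.J.F

/-- vertices of the grid -/
def GW (n : ℕ) : Finset (ℕ × ℕ) := range n ×ˢ range n

lemma mem_GW {n i j : ℕ} : (i, j) ∈ GW n ↔ i < n ∧ j < n := by simp [GW]

lemma card_GW (n : ℕ) : (GW n).card = n * n := by simp [GW]

lemma mem_GE_t {n i j : ℕ} : (true, i, j) ∈ GE n ↔ i < n ∧ j + 1 < n := by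
  simp only [GE, mem_filter, mem_product, mem_univ, mem_range, true_and, if_true]; omega

lemma mem_GE_f {n i j : ℕ} : (false, i, j) ∈ GE n ↔ i + 1 < n ∧ j < n := by
  simp only [GE, mem_filter, mem_product, mem_univ, mem_range, true_and, Bool.false_eq_true,
    if_false]; omega

lemma gends_t (i j : ℕ) : gends (true, i, j) = {(i, j), (i, j + 1)} := by simp [gends]

lemma gends_f (i j : ℕ) : gends (false, i, j) = {(i, j), (i + 1, j)} := by simp [gends]

lemma gends_card (e : Bool × ℕ × ℕ) : (gends e).card = 2 := by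
  obtain ⟨b, i, j⟩ := e
  cases b
  · rw [gends_f, card_pair (by simp)]
  · rw [gends_t, card_pair (by simp)]

lemma gends_sub {n : ℕ} {e : Bool × ℕ × ℕ} (he : e ∈ GE n) : gends e ⊆ GW n := by
  obtain ⟨b, i, j⟩ := e
  cases b
  · rw [mem_GE_f] at he
    simp only [gends_f, insert_subset_iff, singleton_subset_iff, mem_GW]; omega
  · rw [mem_GE_t] at he
    simp only [gends_t, insert_subset_iff, singleton_subset_iff, mem_GW]; omega

lemma grid_cn {ε : Type} [DecidableEq ε] {G : Finset ε} {ends : ε → Finset (ℕ × ℕ)} {n : ℕ}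
    (hG : ∀ e ∈ GE n, ∃ g ∈ G, ends g = gends e) : Cn G ends (GW n) := by
  intro U hU ne hne
  by_contra c
  push Not at c
  have key : ∀ e ∈ GE n, ∀ a b, gends e = {a, b} → (a ∈ U ↔ b ∈ U) := fun e he a b hab => by
    obtain ⟨g, hg, k⟩ := hG e he
    rw [hab] at k
    constructor <;> intro x <;> by_contra y
    · exact c g hg b (by simp [k]) y (by simp [k, insert_subset_iff, x])
    · exact c g hg a (by simp [k]) y (by simp [k, insert_subset_iff, x])
  have h1 : ∀ i, i < n → ((i, 0) ∈ U ↔ (0, 0) ∈ U) := fun i => by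
    induction i with
    | zero => exact fun _ => Iff.rfl
    | succ i ih =>
      exact fun hi => (key _ (mem_GE_f.2 ⟨hi, by omega⟩) _ _ (gends_f i 0)).symm.trans
        (ih (by omega))
  have h2 : ∀ i j, i < n → j < n → ((i, j) ∈ U ↔ (0, 0) ∈ U) := fun i j hi => by
    induction j with
    | zero => exact fun _ => h1 i hi
    | succ j ih =>
      exact fun hj => (key _ (mem_GE_t.2 ⟨hi, hj⟩) _ _ (gends_t i j)).symm.trans (ih (by omega))
  obtain ⟨⟨i, j⟩, hij⟩ := ne
  have h0 := (h2 i j (mem_GW.1 (hU hij)).1 (mem_GW.1 (hU hij)).2).1 hij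
  exact hne (subset_antisymm hU fun ⟨i, j⟩ hij =>
    (h2 i j (mem_GW.1 hij).1 (mem_GW.1 hij).2).2 h0)

/-- a framework on the grid whose faces are dependent is the cycle matroid -/
theorem grid_mcase {r : Finset (Bool × ℕ × ℕ) → ℤ} {n : ℕ} (h : Rk r) (hs : Star r (GE n) gends)
    (hf : ∀ i j, i + 1 < n → j + 1 < n →
      r {(false, i, j + 1), (true, i, j), (true, i + 1, j), (false, i, j)} ≤ 3)
    {I : Finset (Bool × ℕ × ℕ)} (hI : I ⊆ GE n) : Ind r I ↔ MG gends I := by
  rcases Nat.eq_zero_or_pos n with rfl | hn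
  · have : I = ∅ := eq_empty_of_forall_notMem fun ⟨b, i, j⟩ he => by
      have := hI he
      cases b
      · rw [mem_GE_f] at this; omega
      · rw [mem_GE_t] at this; omega
    subst this
    exact ⟨fun _ J hJ ne => absurd (subset_empty.1 hJ) ne.ne_empty, fun _ => h.ind_empty⟩
  refine mcase h hs (W := GW n) (fun e _ => gends_card e) (fun e he => gends_sub he)
    (grid_cn fun e he => ⟨e, he, rfl⟩) ?_ hI
  set B := ((GW n).erase (0, 0)).image fun v : ℕ × ℕ =>
    if v.2 = 0 then (false, v.1 - 1, 0) else (true, v.1, v.2 - 1) with hB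
  have hBc : B.card + 1 ≤ (GW n).card := by
    have := card_erase_add_one (mem_GW.2 ⟨hn, hn⟩)
    have : B.card ≤ ((GW n).erase (0, 0)).card := card_image_le
    omega
  have ht : ∀ i j, i < n → j + 1 < n → (true, i, j) ∈ B := fun i j hi hj =>
    mem_image.2 ⟨(i, j + 1), mem_erase.2 ⟨by simp, mem_GW.2 ⟨hi, hj⟩⟩, by simp⟩
  have hv : ∀ i j, i + 1 < n → j < n → Cl r B (false, i, j) := fun i j hi => by
    induction j with
    | zero =>
      exact fun _ => cl_mem (mem_image.2 ⟨(i + 1, 0), mem_erase.2 ⟨by simp, mem_GW.2 ⟨hi, hn⟩⟩,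
        by simp⟩)
    | succ j ih =>
      intro hj
      have m1 : (true, i, j) ∈ GE n := mem_GE_t.2 ⟨by omega, hj⟩
      have m2 : (true, i + 1, j) ∈ GE n := mem_GE_t.2 ⟨hi, hj⟩
      have m3 : (false, i, j) ∈ GE n := mem_GE_f.2 ⟨hi, by omega⟩
      have a3 := h.not_cl.1 (star_not_cl h hs m3 (v := (i, j)) (by simp [gends_f])
        (empty_subset _) (by simp))
      have a2 := h.not_cl.1 (star_not_cl h hs m2 (v := (i + 1, j + 1)) (A := {(false, i, j)})
        (by simp [gends_t]) (by simpa using m3) (by simp [gends_f]))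
      have a1 := h.not_cl.1 (star_not_cl h hs m1 (v := (i, j + 1))
        (A := {(true, i + 1, j), (false, i, j)}) (by simp [gends_t])
        (by simp [insert_subset_iff, m2, m3]) (by simp [gends_f, gends_t]))
      have a4 := hf i j hi hj
      rw [insert_empty_eq, h.emp] at a3
      refine h.cl_trans (B := {(true, i, j), (true, i + 1, j), (false, i, j)}) (fun x hx => ?_)
        (h.cl_iff.2 (by omega))
      simp only [mem_insert, mem_singleton] at hx
      rcases hx with rfl | rfl | rfl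
      exacts [cl_mem (ht _ _ (by omega) hj), cl_mem (ht _ _ hi hj), ih (by omega)]
  have := h.span_le (A := B) (X := GE n) fun ⟨b, i, j⟩ he => by
    cases b
    · exact hv i j (mem_GE_f.1 he).1 (mem_GE_f.1 he).2
    · exact cl_mem (ht i j (mem_GE_t.1 he).1 (mem_GE_t.1 he).2)
  have := h.le_card B
  omega

/-- the grid with doubled vertical edges -/
def G2 (n : ℕ) : Finset ((Bool × ℕ × ℕ) × Bool) :=
  (GE n ×ˢ univ).filter fun x => x.1.1 = true → x.2 = false

lemma mem_G2 {n : ℕ} {x : (Bool × ℕ × ℕ) × Bool} :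
    x ∈ G2 n ↔ x.1 ∈ GE n ∧ (x.1.1 = true → x.2 = false) := by
  simp [G2]

/-- a framework on the grid with independent twins is the bicircular matroid -/
theorem grid_bcase {r : Finset ((Bool × ℕ × ℕ) × Bool) → ℤ} {n : ℕ} (h : Rk r)
    (hs : Star r (G2 n) fun x => gends x.1) (hr : r (G2 n) ≤ n * n)
    (T1 : ∀ i j b, i + 1 < n → j < n → ∀ A ⊆ G2 n, ((false, i, j), b) ∉ A →
      ((false, i, j), !b) ∉ A → Cl r A ((false, i, j), b) → Cl r A ((false, i, j), !b))
    (T2 : ∀ i j, i + 1 < n → j < n →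
      Ind (con r ((G2 n).filter fun g => Disjoint (gends g.1) (gends (false, i, j))))
        {((false, i, j), false), ((false, i, j), true)})
    {I : Finset (Bool × ℕ × ℕ)} (hI : I ⊆ GE n) :
    Ind r (I.image fun e => (e, false)) ↔ BG gends I := by
  rw [← bg_image (ends := fun x : (Bool × ℕ × ℕ) × Bool => gends x.1) (f := fun e => (e, false))
    (fun a b k => (Prod.ext_iff.1 k).1) (fun _ => rfl)]
  refine bcase h hs (W := GW n) (fun e _ => gends_card _) (fun e he => gends_sub (mem_G2.1 he).1)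
    (grid_cn fun e he => ⟨(e, false), mem_G2.2 ⟨he, fun _ => rfl⟩, rfl⟩)
    (by rw [card_GW]; exact_mod_cast hr) (fun x => x.1.1 = false) (fun x => (x.1, !x.2))
    (fun e he k => ⟨mem_G2.2 ⟨(mem_G2.1 he).1, by simp [k]⟩, by
      intro c; simpa using (Prod.ext_iff.1 c).2, rfl⟩) ?_ ?_ ?_
    (image_subset_iff.2 fun e he => mem_G2.2 ⟨hI he, fun _ => rfl⟩)
  · rintro ⟨⟨c, i, j⟩, b⟩ he (rfl : c = false)
    exact T1 i j b (mem_GE_f.1 (mem_G2.1 he).1).1 (mem_GE_f.1 (mem_G2.1 he).1).2
  · rintro ⟨⟨c, i, j⟩, b⟩ he (rfl : c = false)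
    have := T2 i j (mem_GE_f.1 (mem_G2.1 he).1).1 (mem_GE_f.1 (mem_G2.1 he).1).2
    cases b
    · exact this
    · rw [pair_comm] at this
      exact this
  · intro J hJ ne k
    obtain ⟨⟨⟨c, i, j⟩, b⟩, he, hm⟩ := exists_min_image J (fun x => x.1.2.2) ne
    have tt : ∀ x ∈ J, x.1.1 = true ∧ x.2 = false := fun x hx => by
      have a : x.1.1 = true := by simpa using k x hx
      exact ⟨a, (mem_G2.1 (hJ hx)).2 a⟩
    obtain ⟨rfl, rfl⟩ : c = true ∧ b = false := tt _ he
    refine ⟨_, (i, j), he, by simp [gends_t], ?_⟩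
    rintro ⟨⟨c', i', j'⟩, b'⟩ hg hv
    obtain ⟨rfl, rfl⟩ : c' = true ∧ b' = false := tt _ hg
    have := hm _ hg
    simp only [gends_t, mem_insert, mem_singleton, Prod.mk.injEq] at hv this ⊢
    simp only [true_and, and_true]
    omega

end Pool.Agent.Lib.MP_a4b0c4_co.J.F
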