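import Pool.Agent.Lib.MP_a4b0c4_co.JCl4
import Pool.Agent.Lib.MP_a4b0c4_co.JRam2
import Pool.Agent.Lib.MP_a4b0c4_co.JCnt

set_option autoImplicit false
set_option linter.unusedSectionVars false
set_option linter.unusedVariables false

open Finset

namespace Pool.Agent.Lib.MP_a4b0c4_co.J

/-- a nonsingular square submatrix of prescribed size -/
lemma gr_sq {α β : Type} [DecidableEq α] [DecidableEq β] {ρ : Finset α → Finset β → ℤ} (h : BM ρ)
    {R : Finset α} {Y : Finset β} {a : ℕ} (k : (a : ℤ) ≤ ρ R Y) :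
    ∃ R' ⊆ R, ∃ Y' ⊆ Y, R'.card = a ∧ Y'.card = a ∧ ρ R' Y' = a := by
  obtain ⟨Y', a1, a2, a3⟩ := (h.col R).ind_of_le k
  obtain ⟨R', b1, b2, b3⟩ := (h.row Y').ind_of_le (Y := R) (k := a) (by
    unfold Ind at a2; simp only [tr]; omega)
  exact ⟨R', b1, Y', a1, b3, a3, by unfold Ind tr at b2; omega⟩

lemma gr_enum {α : Type} [DecidableEq α] {S : Finset α} {p : ℕ} (h : S.card = p) :
    ∃ e : Fin p → α, Function.Injective e ∧ (∀ k, e k ∈ S) ∧ ∀ x ∈ S, ∃ k, e k = x :=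
  ⟨fun k => (S.equivFinOfCardEq h).symm k, fun a b e =>
    (S.equivFinOfCardEq h).symm.injective (Subtype.ext e), fun k => Subtype.prop _,
    fun x hx => ⟨S.equivFinOfCardEq h ⟨x, hx⟩, by simp⟩⟩

/-- many disjoint c-sets of bounded total rank contain many of total rank at most c n -/
lemma gr_r0 (n p q c : ℕ) : ∃ g : ℕ, ∀ (α ι : Type) [DecidableEq α] [DecidableEq ι]
    (r : Finset α → ℤ) (E : Finset α) (W : Finset ι) (A : ι → Finset α), Rk r → Free n r E →
    r E ≤ p → (∀ a ∈ W, A a ⊆ E ∧ (A a).card = c) →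
    (∀ a ∈ W, ∀ b ∈ W, a ≠ b → Disjoint (A a) (A b)) → g ≤ W.card →
    ∃ W' ⊆ W, W'.card = q ∧ r (W'.biUnion A) ≤ c * n := by
  induction c with
  | zero =>
    refine ⟨q, fun α ι _ _ r E W A h _ _ hA _ hg => ?_⟩
    obtain ⟨W', a, b⟩ := exists_subset_card_eq hg
    refine ⟨W', a, b, ?_⟩
    rw [show W'.biUnion A = ∅ from subset_empty.1 (biUnion_subset.2 fun x hx =>
      (card_eq_zero.1 (hA x (a hx)).2).le), h.emp]
    simp
  | succ c ih =>
    obtain ⟨g, hg⟩ := ih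
    obtain ⟨g', hg'⟩ := r0 n p g
    refine ⟨g' + 1, fun α ι _ _ r E W A h hF hp hA hd hW => ?_⟩
    obtain ⟨a0, ha0⟩ : W.Nonempty := card_pos.1 (by omega)
    obtain ⟨x0, -⟩ : (A a0).Nonempty := card_pos.1 (by rw [(hA a0 ha0).2]; omega)
    have : ∀ a, ∃ x, a ∈ W → x ∈ A a := fun a => by
      by_cases k : a ∈ W
      · obtain ⟨x, hx⟩ : (A a).Nonempty := card_pos.1 (by rw [(hA a k).2]; omega)
        exact ⟨x, fun _ => hx⟩
      · exact ⟨x0, fun c => absurd c k⟩
    choose x hx using this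
    have inj : Set.InjOn x W := fun a ha b hb e => by
      by_contra c
      exact disjoint_left.1 (hd a ha b hb c) (hx a ha) (e ▸ hx b hb)
    have s1 : W.image x ⊆ E := fun y hy => by
      obtain ⟨a, ha, rfl⟩ := mem_image.1 hy
      exact (hA a ha).1 (hx a ha)
    obtain ⟨Y', y1, y2, y3⟩ := hg' α r E (W.image x) h hF s1 ((h.mono s1).trans hp)
      (by rw [card_image_of_injOn inj]; omega)
    obtain ⟨W1, w1, rfl⟩ := subset_image_iff.1 y1
    obtain ⟨W', w2, w3, w4⟩ := hg α ι r E W1 (fun a => (A a).erase (x a)) h hF hp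
      (fun a ha => ⟨(erase_subset _ _).trans (hA a (w1 ha)).1, by
        rw [card_erase_of_mem (hx a (w1 ha)), (hA a (w1 ha)).2]; rfl⟩)
      (fun a ha b hb ne => (hd a (w1 ha) b (w1 hb) ne).mono (erase_subset _ _) (erase_subset _ _))
      (y2 ▸ card_image_le)
    refine ⟨W', w2.trans w1, w3, ?_⟩
    have := h.union_le (X := W'.biUnion fun a => (A a).erase (x a)) (Y := W1.image x)
      (Z := W'.biUnion A) fun z hz => by
        obtain ⟨a, ha, k⟩ := mem_biUnion.1 hz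
        by_cases e : z = x a
        · exact mem_union_right _ (e ▸ mem_image_of_mem _ (w2 ha))
        · exact mem_union_left _ (mem_biUnion.2 ⟨a, ha, mem_erase.2 ⟨e, k⟩⟩)
    push_cast
    linarith

/-- the cleaning lemma in matroid terms -/
theorem clean_mat (n D m : ℕ) : ∃ p : ℕ, 0 < p ∧ ∀ (X C Y1 Y2 : Type) [Fintype X] [Fintype C] [Fintype Y1]
    [Fintype Y2] [DecidableEq X] [DecidableEq C] [DecidableEq Y1] [DecidableEq Y2]
    (side : C → Bool), ∃ N : ℕ, ∀ (α : Type) [DecidableEq α] (r : Finset α → ℤ) (E B Y : Finset α)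
    (F : Lab Empty X C (Fin N) → α) (G : Lab Empty Y1 Y2 (Fin N) → α), Rk r → Free n r E →
    Ind r B → (∀ e ∈ Y, Cl r B e) → B ∪ Y ⊆ E → Disjoint B Y →
    Set.InjOn F {l | l.valid} → Set.InjOn G {l | l.valid} → (∀ l, l.valid → F l ∈ B) →
    (∀ l, l.valid → G l ∈ Y) →
    (∀ s s', s ≠ s' → bm r B Y ((cell s).image F) ((cell s').image G) ≤ D) →
    (∀ s, ((cell s : Finset (Lab Empty Y1 Y2 (Fin N))).card ≤ p) ∧
      ((cell s : Finset (Lab Empty Y1 Y2 (Fin N))).Nonempty → ∀ i ∈ s,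
        (p : ℤ) ≤ bm r B Y (((cell s).filter fun l => l.hub side = i).image F)
          ((cell s).image G))) →
    ∃ (u : Fin m ↪o Fin N) (R0 K : Finset α),
      (∀ z ∈ R0, ∃ l, l.valid ∧ l.hub side ∉ univ.image u ∧ F l = z) ∧ K ⊆ Y ∧
      Ind r (K ∪ B \ R0) ∧
      ∀ s ⊆ univ.image u, (cell s : Finset (Lab Empty Y1 Y2 (Fin N))).Nonempty →
        ∃ y ∈ cell s, G y ∉ K ∧ Cl r (K ∪ B \ (R0 ∪
          ((ovr (univ.image u)).filter fun l => l.hub side ∉ s).image F)) (G y) ∧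
          ∀ i ∈ s, ¬ Cl r (K ∪ B \ (R0 ∪
            ((ovr (univ.image u)).filter fun l => l.hub side = i).image F)) (G y) := by
  refine ⟨4 * (D * 2 ^ (6 * n + 2)) + 1, Nat.succ_pos _, fun X C Y1 Y2 _ _ _ _ _ _ _ _ side => ?_⟩
  obtain ⟨N, hN⟩ := clean' n D m _ (Nat.lt_succ_self _) X C Y1 Y2 side
  refine ⟨N, fun α _ r E B Y F G h hF hB hY hE hd fi gi fm gm h1 h2 => ?_⟩
  have hb := h.bm hB hY
  obtain ⟨u, R0, K, a1, a2, -, a4, a5⟩ := hN (pullB (bm r B Y) F G) (hb.pull F G)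
    ((hF.bm h hB hE hd).pull hb fi gi fm gm) h1 h2
  have k1 : K.image G ⊆ Y := fun z hz => by
    obtain ⟨l, hl, rfl⟩ := mem_image.1 hz
    exact gm l (a2 l hl)
  have k2 : (K.image G).card = K.card := card_image_of_injOn (gi.mono a2)
  simp only [pullB] at a4 a5
  have k3 : ∀ R', r (K.image G ∪ B \ (R0.image F ∪ R')) =
      K.card + (B \ (R0.image F ∪ R')).card := fun R' => by
    have h3 := hb.mono (subset_union_left (s₁ := R0.image F) (s₂ := R')) (subset_refl (K.image G))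
    have h4 := hb.le_r (R0.image F ∪ R') (K.image G)
    rw [bm_eq k1 (R := R0.image F ∪ R')] at h3 h4
    omega
  refine ⟨u, R0.image F, K.image G, fun z hz => ?_, k1, ?_, fun s hs ne => ?_⟩
  · obtain ⟨l, hl, rfl⟩ := mem_image.1 hz
    exact ⟨l, (a1 l hl).1, (a1 l hl).2, rfl⟩
  · have := k3 ∅
    rw [union_empty] at this
    unfold Ind
    rw [this, card_union_of_disjoint (hd.symm.mono k1 sdiff_subset), k2]; push_cast; rfl
  · obtain ⟨y, y1, y2, y3, y4⟩ := a5 s hs ne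
    have y5 := (cl_mem_cell.1 y1).2
    have k4 : insert (G y) (K.image G) ⊆ Y := insert_subset (gm y y5) k1
    refine ⟨y, y1, fun c => ?_, ?_, fun i hi => ?_⟩
    · obtain ⟨l, hl, e⟩ := mem_image.1 c
      exact y2 (gi (a2 l hl) y5 e ▸ hl)
    · rw [image_union, image_insert, bm_eq k4, insert_union] at y3
      unfold Cl; rw [k3]; omega
    · have y6 := y4 i hi
      rw [image_union, image_insert, bm_eq k4, insert_union] at y6
      unfold Cl; rw [k3]; omega

end Pool.Agent.Lib.MP_a4b0c4_co.J
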