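import Pool.Agent.Lib.MP_a4b0c4_co.JGr21

set_option autoImplicit false
set_option linter.unusedSectionVars false
set_option linter.unusedVariables false

open Finset

namespace Pool.Agent.Lib.MP_a4b0c4_co.J

/-- one block: a hub and a new element form a connected set after contracting inside the block -/
lemma gr_block {α ι : Type} [DecidableEq α] [DecidableEq ι] {r : Finset α → ℤ} (h : Rk r)
    {W : Finset ι} {H B N : ι → Finset α} {t : α} (pd : PD H)
    (hH : ∀ a ∈ W, N a ⊆ H a ∧ Cntd r (H a) ∧ B a ⊆ H a ∧ ∀ e ∈ H a, Cl r (B a) e)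
    (hi : Ind r (W.biUnion B)) (h1 : Cl r (W.biUnion B) t) (h2 : ¬ Cl r ∅ t) :
    ∃ a ∈ W, ∃ C ⊆ W.biUnion H, Disjoint (insert t (N a)) C ∧ Cntd (con r C) (insert t (N a)) := by
  obtain ⟨a, ha, k⟩ : ∃ a ∈ W, ¬ Cl r (W.biUnion B \ B a) t := by
    by_contra c
    push Not at c
    have := h.cl_sdiff (S := W.biUnion B) hi h1 fun b hb => by
      obtain ⟨a, ha, k⟩ := mem_biUnion.1 hb
      exact h.cl_mono (by grind) (c a ha)
    exact h2 (by simpa using this)
  obtain ⟨n1, n2, n3, n4⟩ := hH a ha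
  have s1 : B a ⊆ W.biUnion B := subset_biUnion_of_mem B ha
  have s2 : W.biUnion B ⊆ W.biUnion H := biUnion_mono fun b hb => (hH b hb).2.2.1
  have s3 : H a ⊆ W.biUnion H := subset_biUnion_of_mem H ha
  have d1 : Disjoint (H a) (W.biUnion B \ B a) := disjoint_left.2 fun x hx k => by
    obtain ⟨k1, k2⟩ := mem_sdiff.1 k
    obtain ⟨b, hb, k3⟩ := mem_biUnion.1 k1
    by_cases e : a = b
    · exact k2 (e ▸ k3)
    · exact disjoint_left.1 (pd a b e) hx ((hH b hb).2.2.1 k3)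
  generalize W.biUnion B = B' at *
  have i1 : Ind (con r (B a)) (B' \ B a) := h.ind_con sdiff_disjoint
    (by rwa [sdiff_union_of_subset s1])
  have h' := h.con (B' \ B a)
  have c1 : Cntd (con r (B' \ B a)) (H a) := n2.congr fun X hX =>
    (h.con_of_ind' i1 fun e he => n4 e (hX he)).symm
  have c2 := h'.cntd_ext c1 (Y := {t}) fun y hy => by
    rw [mem_singleton.1 hy]
    exact ⟨cl_con.2 (h.cl_mono (by grind) h1), fun c => k (by simpa using cl_con.1 c)⟩
  obtain ⟨C, c3, c4⟩ := h'.cntd_shrink c2 (Q := insert t (N a)) (by grind)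
  rw [con_con] at c4
  have t1 : t ∉ B' \ B a := fun c => k (cl_mem c)
  exact ⟨a, ha, B' \ B a ∪ C, by grind, by grind [disjoint_left], c4⟩

/-- the last step of the growth lemma -/
lemma gr_fin {α ι : Type} [DecidableEq α] [DecidableEq ι] {r : Finset α → ℤ} (h : Rk r)
    {E X C0 : Finset α} {j m : ℕ} {W : Fin m → Finset ι} {H B N : ι → Finset α} {t : Fin m → α}
    (pd : PD H) (pw : PD W) (hC : C0 ⊆ E)
    (hH : ∀ β, ∀ a ∈ W β, N a ⊆ H a ∧ Cntd (con r C0) (H a) ∧ B a ⊆ H a ∧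
      ∀ e ∈ H a, Cl (con r C0) (B a) e)
    (hN : ∀ β, ∀ a ∈ W β, N a ⊆ X ∧ (N a).card = j ∧ H a ⊆ E \ C0 ∧ ∀ β', t β' ∉ H a)
    (hi : Ind (con r C0) (univ.biUnion fun β => (W β).biUnion B))
    (ht : ∀ β, t β ∈ X ∧ t β ∉ C0 ∧ Cl (con r C0) ((W β).biUnion B) (t β) ∧
      ¬ Cl (con r C0) ∅ (t β)) (ti : Function.Injective t) : Real r E X (j + 1) m := by
  have h' := h.con C0
  choose a a1 C c1 c2 c3 using fun β => gr_block h' pd (hH β)
    (h'.ind_sub hi (subset_biUnion_of_mem (fun β => (W β).biUnion B) (mem_univ β)))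
    (ht β).2.2.1 (ht β).2.2.2
  have d1 : ∀ β β', β ≠ β' → ∀ x ∈ (W β).biUnion H, x ∉ (W β').biUnion H := by
    intro β β' ne x h1 h2
    obtain ⟨b, hb, h1⟩ := mem_biUnion.1 h1
    obtain ⟨b', hb', h2⟩ := mem_biUnion.1 h2
    exact disjoint_left.1 (pd b b' fun e => disjoint_left.1 (pw β β' ne) hb (e ▸ hb')) h1 h2
  have d2 : ∀ β β', t β ∉ (W β').biUnion H := fun β β' k => by
    obtain ⟨b, hb, k⟩ := mem_biUnion.1 k
    exact (hN β' b hb).2.2.2 β k
  have s1 : ∀ β, (W β).biUnion B ⊆ (W β).biUnion H := fun β =>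
    biUnion_mono fun b hb => (hH β b hb).2.2.1
  have s2 : ∀ β, N (a β) ⊆ (W β).biUnion H := fun β =>
    (hH β _ (a1 β)).1.trans (subset_biUnion_of_mem H (a1 β))
  have k1 : Skew (con r C0) univ fun β => (W β).biUnion B := h'.skew_of_ind hi fun β β' ne =>
    disjoint_left.2 fun x h1 h2 => d1 β β' ne x (s1 β h1) (s1 β' h2)
  have k2 : Skew (con r C0) univ fun β => insert (t β) ((W β).biUnion H) :=
    h'.skew_cl k1 fun β _ e he => by
      rcases mem_insert.1 he with rfl | he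
      · exact (ht β).2.2.1
      · obtain ⟨b, hb, k⟩ := mem_biUnion.1 he
        exact h'.cl_mono (subset_biUnion_of_mem B hb) ((hH β b hb).2.2.2 e k)
  have s3 : ∀ β ∈ univ, C β ⊆ insert (t β) ((W β).biUnion H) := fun β _ =>
    (c1 β).trans (subset_insert _ _)
  have s4 : ∀ β, insert (t β) (N (a β)) ⊆ insert (t β) ((W β).biUnion H) := fun β =>
    insert_subset_insert _ (s2 β)
  refine ⟨C0 ∪ univ.biUnion C, fun β => insert (t β) (N (a β)), union_subset hC
    (biUnion_subset.2 fun β _ => (c1 β).trans (biUnion_subset.2 fun b hb =>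
      (hN β b hb).2.2.1.trans sdiff_subset)), fun β β' ne => ?_, fun β => ⟨insert_subset (ht β).1
      (hN β _ (a1 β)).1, ?_, ?_, ?_⟩, ?_⟩
  · refine disjoint_left.2 fun x h1 h2 => ?_
    rcases mem_insert.1 h1 with rfl | h1 <;> rcases mem_insert.1 h2 with h2 | h2
    · exact ne (ti h2)
    · exact d2 _ _ (s2 β' h2)
    · exact d2 _ _ (h2 ▸ s2 β h1)
    · exact d1 β β' ne x (s2 β h1) (s2 β' h2)
  · rw [card_insert_of_notMem fun k => d2 _ _ (s2 β k), (hN β _ (a1 β)).2.1]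
  · refine disjoint_left.2 fun x h1 h2 => ?_
    rcases mem_union.1 h2 with h2 | h2
    · rcases mem_insert.1 h1 with rfl | h1
      · exact (ht β).2.1 h2
      · exact (mem_sdiff.1 ((hN β _ (a1 β)).2.2.1 ((hH β _ (a1 β)).1 h1))).2 h2
    · obtain ⟨β', -, h2⟩ := mem_biUnion.1 h2
      by_cases e : β = β'
      · exact disjoint_left.1 (c2 β) h1 (e ▸ h2)
      · rcases mem_insert.1 h1 with rfl | h1
        · exact d2 _ _ (c1 β' h2)
        · exact d1 β β' e x (s2 β h1) (c1 β' h2)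
  · rw [← con_con]
    refine (c3 β).congr fun Z hZ => ?_
    rw [h'.skew_con_sub k2 s3 (mem_univ β) (hZ.trans (s4 β))]
  · rw [← con_con]
    exact (h'.con _).skew_sub (h'.skew_con_skew k2 s3) subset_rfl fun β _ => s4 β

/-- blocks with small cross rank -/
lemma gr_blocks (n c q p : ℕ) : ∃ g : ℕ, ∀ (α β ι : Type) [DecidableEq α] [DecidableEq β]
    [DecidableEq ι] (ρ : Finset α → Finset β → ℤ) (VR : Finset α) (T : Finset β) (W0 : Finset ι)
    (B : ι → Finset α) (y : ι → α), BM ρ → FreeB n ρ VR T → PD B →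
    (∀ a ∈ W0, B a ⊆ VR ∧ (B a).card = c ∧ y a ∈ B a) → (g : ℤ) ≤ ρ (W0.image y) T →
    ∃ (W : Fin q → Finset ι) (S : Fin q → Finset β), PD W ∧ PD S ∧
      (∀ i, W i ⊆ W0 ∧ S i ⊆ T ∧ (W i).card = p ∧ (S i).card = p ∧ ρ ((W i).image y) (S i) = p) ∧
      ∀ i k, i ≠ k → ρ ((W i).biUnion B) (S k) ≤ ((c + 1) * n : ℕ) := by
  choose g1 hg1 using fun s a => r0 n (s * c) a
  choose g2 hg2 using fun s a => gr_r0 n s a c
  obtain ⟨g, hg⟩ := refine (fun s a => g1 s (g2 s a) + 2 * s) q p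
  refine ⟨g, fun α β ι _ _ _ ρ VR T W0 B y h hF pd hB hT => ?_⟩
  have inj : Set.InjOn y W0 := fun a ha b hb e => by
    by_contra c
    exact disjoint_left.1 (pd a b c) (hB a ha).2.2 (e ▸ (hB b hb).2.2)
  let P : Finset ι × Finset β → Prop := fun x => x.1 ⊆ W0 ∧ x.2 ⊆ T ∧ x.2.card = x.1.card ∧
    ρ (x.1.image y) x.2 = x.1.card
  have sq' : ∀ W ⊆ W0, ∀ (S : Finset β) (a : ℕ), (a : ℤ) ≤ ρ (W.image y) S →
      ∃ W' ⊆ W, ∃ S' ⊆ S, W'.card = a ∧ S'.card = a ∧ ρ (W'.image y) S' = a :=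
    fun W hW S a k => by
      obtain ⟨R', a1, S', a2, a3, a4, a5⟩ := gr_sq h k
      obtain ⟨W', a6, rfl⟩ := subset_image_iff.1 a1
      rw [card_image_of_injOn (inj.mono (a6.trans hW))] at a3
      exact ⟨W', a6, S', a2, a3, a4, a5⟩
  have sq : ∀ W ⊆ W0, ∀ S ⊆ T, ∀ a : ℕ, (a : ℤ) ≤ ρ (W.image y) S →
      ∃ x : Subtype P, (x.1.1 ⊆ W ∧ x.1.2 ⊆ S) ∧ x.1.1.card = a := fun W hW S hS a k => by
    obtain ⟨W', a1, S', a2, a3, a4, a5⟩ := sq' W hW S a k
    exact ⟨⟨(W', S'), a1.trans hW, a2.trans hS, a4.trans a3.symm, a3 ▸ a5⟩, ⟨a1, a2⟩, a3⟩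
  have vr : ∀ W ⊆ W0, W.biUnion B ⊆ VR := fun W hW => biUnion_subset.2 fun a ha => (hB a (hW ha)).1
  have bu : ∀ {W W' : Finset ι}, W ⊆ W' → W.biUnion B ⊆ W'.biUnion B := fun k =>
    biUnion_subset_biUnion_of_subset_left _ k
  obtain ⟨x0, -, x1⟩ := sq W0 subset_rfl T subset_rfl g hT
  obtain ⟨x, a1, a2⟩ := hg (Subtype P) (fun x z => x.1.1 ⊆ z.1.1 ∧ x.1.2 ⊆ z.1.2)
    (fun x => x.1.1.card) (fun x z => (Disjoint x.1.1 z.1.1 ∧ Disjoint x.1.2 z.1.2) ∧
      ρ (x.1.1.biUnion B) z.1.2 ≤ ((c + 1) * n : ℕ) ∧ ρ (z.1.1.biUnion B) x.1.2 ≤ ((c + 1) * n : ℕ))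
    (fun x => ⟨subset_rfl, subset_rfl⟩) (fun x y z a b => ⟨a.1.trans b.1, a.2.trans b.2⟩)
    (fun x x' z z' a b k => ⟨⟨k.1.1.mono a.1 b.1, k.1.2.mono a.2 b.2⟩,
      (h.mono (bu a.1) b.2).trans k.2.1, (h.mono (bu b.1) a.2).trans k.2.2⟩)
    (fun x z k => ⟨⟨k.1.1.symm, k.1.2.symm⟩, k.2.2, k.2.1⟩)
    (fun x a k => sq _ x.2.1 _ x.2.2.1 a (by rw [x.2.2.2.2]; exact_mod_cast k))
    (Fin q) univ (fun _ => x0) (by simp) (fun _ _ => x1.ge) (by
      rintro - - - - - ⟨⟨W, S⟩, w1, w2, w3, w4⟩ ⟨⟨W', S'⟩, z1, z2, z3, z4⟩ a - - k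
      dsimp only at w1 w2 w3 w4 z1 z2 z3 z4 k ⊢
      have e1 : (g1 W.card (g2 W.card a) : ℤ) ≤ ρ ((W' \ W).image y) (S' \ S) := by
        have h1 := (h.row S').add_card' (X := (W' \ W).image y) (Y := W.image y) (Z := W'.image y)
          (by rw [← image_union]; exact image_subset_image le_sdiff_sup)
        have h2 := (h.col ((W' \ W).image y)).add_card' (X := S' \ S) (Y := S) (Z := S')
          le_sdiff_sup
        have h3 := card_image_le (s := W) (f := y)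
        simp only [tr] at h1
        omega
      obtain ⟨W1, u5, S1, u6, u7, u3, u4⟩ := sq' _ (sdiff_subset.trans z1) _ _ e1
      have u1 : W1 ⊆ W0 := u5.trans (sdiff_subset.trans z1)
      have u2 : S1 ⊆ T := u6.trans (sdiff_subset.trans z2)
      obtain ⟨S2, v1, v2, v3⟩ := hg1 W.card (g2 W.card a) β (ρ (W.biUnion B)) S1 S1 (h.col _)
        (hF.col h (vr W w1) u2) subset_rfl ((h.le_l _ _).trans (by
          exact_mod_cast card_biUnion_le_card_mul W B c fun a ha => (hB a (w1 ha)).2.1.le))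
        (by omega)
      obtain ⟨W3, p5, S3, p6, p7, p3, p4⟩ := sq' W1 u1 S2 (g2 W.card a)
        (by
          have := (h.col (W1.image y)).ind_sub (X := S2) (Y := S1) (by unfold Ind; omega) v1
          unfold Ind at this; omega)
      have p1 : W3 ⊆ W0 := p5.trans u1
      have p2 : S3 ⊆ T := p6.trans (v1.trans u2)
      obtain ⟨W4, q1, q2, q3⟩ := hg2 W.card a α ι (tr ρ S) (W3.biUnion B) W3 B (h.row S)
        (hF.row h (vr W3 p1) w2) ((h.le_r _ _).trans (by omega))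
        (fun b hb => ⟨subset_biUnion_of_mem B hb, (hB b (p1 hb)).2.1⟩)
        (fun b _ b' _ ne => pd b b' ne) p7.ge
      obtain ⟨z, ⟨r1, r2⟩, r3⟩ := sq W4 (q1.trans p1) S3 p2 a (by
        have := (h.row S3).ind_sub (X := W4.image y) (Y := W3.image y) (by
          unfold Ind tr; rw [card_image_of_injOn (inj.mono p1)]; omega) (image_subset_image q1)
        unfold Ind tr at this
        rw [card_image_of_injOn (inj.mono (q1.trans p1))] at this; omega)
      have t1 : z.1.1 ⊆ W' \ W := r1.trans (q1.trans (p5.trans u5))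
      have t2 : z.1.2 ⊆ S' \ S := r2.trans (p6.trans (v1.trans u6))
      refine ⟨z, ⟨t1.trans sdiff_subset, t2.trans sdiff_subset⟩, r3.ge,
        ⟨disjoint_sdiff.mono_right t1, disjoint_sdiff.mono_right t2⟩, ?_, ?_⟩
      · have := h.mono (subset_refl (W.biUnion B)) (r2.trans p6)
        push_cast
        nlinarith [Int.natCast_nonneg c, Int.natCast_nonneg n]
      · have := h.mono (bu r1) (subset_refl S)
        simp only [tr] at q3
        push_cast
        nlinarith [Int.natCast_nonneg c, Int.natCast_nonneg n])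
  refine ⟨fun i => (x i).1.1, fun i => (x i).1.2,
    fun i k ne => (a2 i (mem_univ _) k (mem_univ _) ne).1.1,
    fun i k ne => (a2 i (mem_univ _) k (mem_univ _) ne).1.2, fun i => ?_,
    fun i k ne => (a2 i (mem_univ _) k (mem_univ _) ne).2.1⟩
  obtain ⟨b1, b2, b3, b4⟩ := (x i).2
  have : (x i).1.1.card = p := (a1 i (mem_univ _)).2
  exact ⟨b1, b2, this, b3.trans this, this ▸ b4⟩

end Pool.Agent.Lib.MP_a4b0c4_co.J
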