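import Pool.Agent.Lib.MP_a4b0c4_co.JOut

/-! Minors of minors, uniform matroids, recognition of cycle matroids. -/

set_option autoImplicit false
set_option linter.unusedSectionVars false
set_option linter.unusedVariables false

open Finset

namespace Pool.Agent.Lib.MP_a4b0c4_co.J.T

variable {α ε V : Type} [DecidableEq α] [DecidableEq ε] [DecidableEq V] {r : Finset α → ℤ}
  {E : Finset α} {G : Finset ε} {P : Finset ε → Prop}

lemma of_primal (hr : Rk r) (h : HasMinor r E G P) : ∃ t : Finset ε → ℤ, Rk t ∧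
    (∀ I ⊆ G, Ind t I ↔ P I) ∧ ∀ (ε' : Type) (G' : Finset ε') (P' : Finset ε' → Prop),
      HasMinor t G G' P' → HasMinor r E G' P' := by
  obtain ⟨C, f, hC, fi, fm, h⟩ := h
  refine ⟨pull (con r C) f, (hr.con C).pull f, h, fun _ _ _ k => (k.of_pull fi).of_con hC fun x hx => ?_⟩
  obtain ⟨y, hy, rfl⟩ := mem_image.1 hx
  exact mem_sdiff.2 (fm y hy)

lemma of_dual (hr : Rk r) (h : HasMinor (dual r E) E G P) : ∃ t : Finset ε → ℤ, Rk t ∧
    (∀ I ⊆ G, Ind t I ↔ P I) ∧ ∀ (ε' : Type) (G' : Finset ε') (P' : Finset ε' → Prop),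
      HasMinor (dual t G) G G' P' → HasMinor r E G' P' := by
  obtain ⟨C, f, hC, fi, fm, h⟩ := h
  have h1 : G.image f ⊆ E \ C := fun x hx => by
    obtain ⟨y, hy, rfl⟩ := mem_image.1 hx
    exact mem_sdiff.2 (fm y hy)
  refine ⟨pull (con (dual r E) C) f, ((hr.dual E).con C).pull f, h, fun _ _ _ k => ?_⟩
  refine HasMinor.of_con (C := E \ (C ∪ G.image f)) (E' := G.image f) sdiff_subset
    (by clear * - h1; grind) (((k.congr fun X hX => dual_pull fi hX).of_pull fi).congr fun X hX => ?_)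
  rw [dual_con (hr.dual E) hC h1 hX]
  simp only [con]
  rw [dual_dual hr sdiff_subset, dual_dual hr (union_subset (hX.trans (h1.trans sdiff_subset))
    sdiff_subset)]

section
variable {t : Finset ℕ → ℤ} {n : ℕ}

lemma unif_down (ht : Rk t) (h : ∀ I ⊆ range (2 * (n + 1)), Ind t I ↔ I.card ≤ n + 1) :
    HasMinor t (range (2 * (n + 1))) (range (2 * n)) fun I => I.card ≤ n := by
  refine ⟨{2 * n}, id, by simp, fun _ _ _ _ e => e, fun x hx => ?_, fun I hI => ?_⟩
  · simp only [mem_range, id, mem_singleton] at *; omega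
  have h1 := (h {2 * n} (by simp)).2 (by simp)
  have h2 := h (insert (2 * n) I) (insert_subset (by simp) (hI.trans (range_mono (by omega))))
  rw [Ind, card_insert_of_notMem fun k => lt_irrefl _ (mem_range.1 (hI k))] at h2
  rw [Ind, card_singleton] at h1
  rw [image_id, con, union_comm, ← insert_eq, h1]
  push_cast at *
  omega

lemma unif_dual (ht : Rk t) (h : ∀ I ⊆ range (2 * n), Ind t I ↔ I.card ≤ n) :
    ∀ I ⊆ range (2 * n), Ind (dual t (range (2 * n))) I ↔ I.card ≤ n := by
  have h1 : ∀ X ⊆ range (2 * n), t X ≤ n ∧ (n ≤ X.card → (n : ℤ) ≤ t X) := fun X hX => by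
    obtain ⟨J, a, b, -, c⟩ := ht.basis X
    refine ⟨c ▸ Nat.cast_le.2 ((h J (a.trans hX)).1 b), fun k => ?_⟩
    obtain ⟨K, d, e⟩ := exists_subset_card_eq k
    exact (e ▸ ((h K (d.trans hX)).2 e.le).ge).trans (ht.mono d)
  intro I hI
  have h2 := h1 _ subset_rfl
  have h3 := h1 (range (2 * n) \ I) sdiff_subset
  have h4 := ht.le_card (range (2 * n) \ I)
  have h5 := card_sdiff_add_card_eq_card hI
  rw [card_range] at h2 h5
  rw [Ind, dual, inter_eq_left.2 hI]
  omega

end

variable {t : Finset ε → ℤ} {ends : ε → Finset V}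

lemma exists_leaf {J : Finset ε} (h2 : ∀ e ∈ J, (ends e).card ≤ 2)
    (h : J.card < (J.biUnion ends).card) :
    ∃ e ∈ J, ∃ v ∈ ends e, ∀ g ∈ J, g ≠ e → v ∉ ends g := by
  by_contra k
  push Not at k
  have := card_mul_le_card_mul (s := J.biUnion ends) (t := J) (fun v e => v ∈ ends e) (m := 2) (n := 2)
    (fun v hv => by
      obtain ⟨e, he, hv⟩ := mem_biUnion.1 hv
      obtain ⟨g, a, b, c⟩ := k e he v hv
      exact one_lt_card.2 ⟨g, (mem_bipartiteAbove _).2 ⟨a, c⟩, e, (mem_bipartiteAbove _).2 ⟨he, hv⟩, b⟩)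
    fun e he => (card_le_card fun v hv => (mem_filter.1 hv).2).trans (h2 e he)
  omega

lemma ind_of_MG (ht : Rk t) (h2 : ∀ e ∈ G, (ends e).card ≤ 2) (hs : Star t G ends) {I : Finset ε}
    (hI : I ⊆ G) (h : MG ends I) : Ind t I := by
  have := ht.ind_of_leaf (A := ∅) (I := I) fun J hJ ne => by
    obtain ⟨e, a, v, b, c⟩ := exists_leaf (fun e he => h2 e (hI (hJ he))) (h J hJ ne)
    refine ⟨e, a, fun k => hs e (hI (hJ a)) v b (ht.cl_mono (fun g hg => ?_) k)⟩
    rw [union_empty, mem_erase] at hg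
    exact mem_filter.2 ⟨hI (hJ hg.2), c g hg.2 hg.1⟩
  rwa [ht.con_empty] at this

lemma MG_of_ind (ht : Rk t) (hs : Star t G ends) {W : Finset V} (hW : ∀ e ∈ G, ends e ⊆ W)
    (hne : ∀ e ∈ G, (ends e).Nonempty)
    (hc : ∀ U ⊆ W, U.Nonempty → U ≠ W → ∃ e ∈ G, ∃ v ∈ ends e, v ∉ U ∧ ends e ⊆ insert v U)
    (hG : t G < W.card) {I : Finset ε} (hI : I ⊆ G) (h : Ind t I) : MG ends I := by
  have key : ∀ k, ∀ U ⊆ W, U.Nonempty → (W \ U).card = k →
      t (G.filter fun e => ends e ⊆ U) < U.card := by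
    intro k
    induction k with
    | zero =>
      intro U a _ c
      rw [subset_antisymm a (sdiff_eq_empty_iff_subset.1 (card_eq_zero.1 c))]
      exact (ht.mono (filter_subset _ _)).trans_lt hG
    | succ k ih =>
      intro U a b c
      obtain ⟨e, he, v, h1, h2, h3⟩ := hc U a b (by rintro rfl; simp at c)
      have h4 := ih (insert v U) (insert_subset (hW e he h1) a) (insert_nonempty _ _) (by
        rw [sdiff_insert, card_erase_of_mem (mem_sdiff.2 ⟨hW e he h1, h2⟩), c]; rfl)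
      have h5 := ht.not_cl.1 fun k => hs e he v h1 (ht.cl_mono
        (A := G.filter fun e => ends e ⊆ U) (fun g hg =>
          mem_filter.2 ⟨(mem_filter.1 hg).1, fun m => h2 ((mem_filter.1 hg).2 m)⟩) k)
      have h6 := ht.mono (X := insert e (G.filter fun e => ends e ⊆ U))
        (Y := G.filter fun e => ends e ⊆ insert v U) (insert_subset (mem_filter.2 ⟨he, h3⟩)
          fun g hg => mem_filter.2 ⟨(mem_filter.1 hg).1, (mem_filter.1 hg).2.trans (subset_insert _ _)⟩)
      rw [card_insert_of_notMem h2] at h4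
      push_cast at h4
      omega
  intro J hJ ⟨e, he⟩
  have h1 := key _ (J.biUnion ends) (biUnion_subset.2 fun g hg => hW g (hI (hJ hg)))
    ((hne e (hI (hJ he))).mono (subset_biUnion_of_mem ends he)) rfl
  have h2 := ht.mono (X := J) (Y := G.filter fun e => ends e ⊆ J.biUnion ends) fun g hg =>
    mem_filter.2 ⟨hI (hJ hg), subset_biUnion_of_mem ends hg⟩
  have h3 := ht.ind_sub h hJ
  unfold Ind at h3
  omega

lemma MG_insert {B : Finset ε} {e : ε} {v : V} (h2 : 2 ≤ (ends e).card) (hv : v ∈ ends e)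
    (hB : ∀ g ∈ B, v ∉ ends g) (h : MG ends B) : MG ends (insert e B) := by
  intro J hJ ne
  by_cases he : e ∈ J
  swap
  · exact h J ((subset_insert_iff_of_notMem he).1 hJ) ne
  have h1 : J.erase e ⊆ B := (subset_insert_iff.1 hJ)
  rw [← insert_erase he, card_insert_of_notMem (notMem_erase _ _), biUnion_insert]
  rcases (J.erase e).eq_empty_or_nonempty with k | k
  · rw [k]; simpa using (show 1 < (ends e).card from h2)
  · have h3 := h _ h1 k
    have h4 := card_le_card (s := insert v ((J.erase e).biUnion ends))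
      (t := ends e ∪ (J.erase e).biUnion ends) (insert_subset (mem_union_left _ hv) subset_union_right)
    rw [card_insert_of_notMem fun m => by
      obtain ⟨g, a, b⟩ := mem_biUnion.1 m
      exact hB g (h1 a) b] at h4
    omega

lemma star_of_MG (ht : Rk t) (h2 : ∀ e ∈ G, 2 ≤ (ends e).card) (h : ∀ I ⊆ G, Ind t I ↔ MG ends I) :
    Star t G ends := by
  intro e he v hv k
  obtain ⟨B, a, b, c, -⟩ := ht.basis (G.filter fun g => v ∉ ends g)
  have h1 := a.trans (filter_subset _ _)
  have h3 : ∀ g ∈ B, v ∉ ends g := fun g hg => (mem_filter.1 (a hg)).2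
  refine ht.ind_not_cl ((h _ (insert_subset he h1)).2 (MG_insert (h2 e he) hv h3 ((h B h1).1 b)))
    (mem_insert_self _ _) (fun g hg => mem_erase.2 ⟨?_, mem_insert_of_mem hg⟩) (ht.cl_trans c k)
  rintro rfl
  exact h3 g hg hv

end Pool.Agent.Lib.MP_a4b0c4_co.J.T
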