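import Pool.Agent.Lib.MP_a4b0c4_co.JGrid1

/-! The dual of a grid contains a grid. -/

set_option autoImplicit false
set_option linter.unusedSectionVars false
set_option linter.unusedVariables false

open Finset

namespace Pool.Agent.Lib.MP_a4b0c4_co.J.T

variable {n : ℕ} {t : Finset (Bool × ℕ × ℕ) → ℤ}

lemma mem_GE {b : Bool} {i j : ℕ} : (b, i, j) ∈ GE n ↔
    (b.toNat = 1 ∧ i < n ∧ j + 1 < n) ∨ (b.toNat = 0 ∧ i + 1 < n ∧ j < n) := by
  cases b <;> simp [GE] <;> omega

lemma mem_gends {b : Bool} {i j x y : ℕ} : (x, y) ∈ gends (b, i, j) ↔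
    (x = i ∧ y = j) ∨ (b.toNat = 1 ∧ x = i ∧ y = j + 1) ∨ (b.toNat = 0 ∧ x = i + 1 ∧ y = j) := by
  cases b <;> simp [gends]

lemma card_gends (e : Bool × ℕ × ℕ) : (gends e).card = 2 := by
  obtain ⟨b, i, j⟩ := e
  cases b <;> exact card_pair (by simp)

lemma GE_mono : GE n ⊆ GE (n + 1) := fun ⟨b, i, j⟩ h => by
  rw [mem_GE] at *; omega

lemma grid_conn (U : Finset (ℕ × ℕ)) (h1 : U ⊆ range n ×ˢ range n) (h2 : U.Nonempty)
    (h3 : U ≠ range n ×ˢ range n) : ∃ e ∈ GE n, ∃ v ∈ gends e, v ∉ U ∧ gends e ⊆ insert v U := by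
  by_contra k
  have a : ∀ e ∈ GE n, ∀ u v, gends e = {u, v} → (u ∈ U ↔ v ∈ U) := fun e he u v h =>
    ⟨fun m => by_contra fun m' => k ⟨e, he, v, by simp [h], m', by simp [h, insert_subset_iff, m]⟩,
      fun m => by_contra fun m' => k ⟨e, he, u, by simp [h], m', by simp [h, insert_subset_iff, m]⟩⟩
  have b : ∀ i j, i < n → j < n → ((i, j) ∈ U ↔ (0, 0) ∈ U) := by
    intro i j hi hj
    induction j with
    | succ j ih =>
      exact (a (true, i, j) (mem_GE.2 (by simp [hi, hj])) _ _ rfl).symm.trans (ih (by omega))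
    | zero =>
      induction i with
      | zero => rfl
      | succ i ih =>
        exact (a (false, i, 0) (mem_GE.2 (by simp [hi, hj])) _ _ rfl).symm.trans (ih (by omega))
  obtain ⟨⟨i, j⟩, h⟩ := h2
  have c := h1 h
  simp only [mem_product, mem_range] at c
  refine h3 (subset_antisymm h1 fun ⟨x, y⟩ m => ?_)
  simp only [mem_product, mem_range] at m
  exact (b x y m.1 m.2).2 ((b i j c.1 c.2).1 h)

/-- recognition of the cycle matroid of the grid -/
lemma grid_mcase (ht : Rk t) (hs : Star t (GE n) gends) (hG : t (GE n) < n * n)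
    {I : Finset (Bool × ℕ × ℕ)} (hI : I ⊆ GE n) : Ind t I ↔ MG gends I :=
  ⟨MG_of_ind ht hs (W := range n ×ˢ range n) (fun ⟨b, i, j⟩ he ⟨x, y⟩ hv => by
      rw [mem_GE] at he; rw [mem_gends] at hv; simp only [mem_product, mem_range]; omega)
    (fun e _ => card_pos.1 (by rw [card_gends]; norm_num)) grid_conn (by simpa using hG) hI,
    ind_of_MG ht (fun e _ => (card_gends e).le) hs hI⟩

/-- the edge crossing a dual edge -/
def dE (e : Bool × ℕ × ℕ) : Bool × ℕ × ℕ :=
  if e.1 then (false, e.2.1, e.2.2 + 1) else (true, e.2.1 + 1, e.2.2)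

lemma dE_inj : Function.Injective dE := fun ⟨b, i, j⟩ ⟨b', i', j'⟩ h => by
  cases b <;> cases b' <;> simp [dE] at h ⊢ <;> exact h

lemma dE_mem {e : Bool × ℕ × ℕ} (h : e ∈ GE n) : dE e ∈ GE (n + 1) := by
  obtain ⟨b, i, j⟩ := e
  cases b <;> simp [dE, mem_GE] at h ⊢ <;> omega

/-- the edges around a face -/
def fc (i j : ℕ) : Finset (Bool × ℕ × ℕ) :=
  {(true, i, j), (true, i + 1, j), (false, i, j), (false, i, j + 1)}

lemma dE_fc {e : Bool × ℕ × ℕ} {i j : ℕ} : dE e ∈ fc i j ↔ (i, j) ∈ gends e := by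
  obtain ⟨b, x, y⟩ := e
  cases b <;> simp [dE, fc, mem_gends] <;> omega

lemma fc_sub {i j : ℕ} (hi : i < n) (hj : j < n) : fc i j ⊆ GE (n + 1) := by
  simp [fc, insert_subset_iff, mem_GE]; omega

lemma MG_three {a b c : Bool × ℕ × ℕ} {u v : ℕ × ℕ} (h1 : u ∈ gends a) (h2 : u ∉ gends b)
    (h3 : u ∉ gends c) (h4 : v ∈ gends b) (h5 : v ∉ gends c) : MG gends {a, b, c} := by
  refine MG_insert (card_gends a).ge h1 (by simp [h2, h3]) (MG_insert (card_gends b).ge h4
    (by simp [h5]) fun J hJ ne => ?_)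
  rw [ne.subset_singleton_iff.1 hJ]; simp [card_gends]

lemma fc_cl (ht : Rk t) (h : ∀ I ⊆ GE (n + 1), Ind t I ↔ MG gends I) {i j : ℕ} (hi : i < n)
    (hj : j < n) {g : Bool × ℕ × ℕ} (hg : g ∈ fc i j) : Cl t ((fc i j).erase g) g := by
  by_contra k
  have h1 : MG gends ((fc i j).erase g) := by
    have m : ∀ {S : Finset (Bool × ℕ × ℕ)}, MG gends S → (fc i j).erase g ⊆ S →
      MG gends ((fc i j).erase g) := fun a b J hJ => a J (hJ.trans b)
    simp only [fc, mem_insert, mem_singleton] at hg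
    rcases hg with rfl | rfl | rfl | rfl
    · exact m (MG_three (a := (false, i, j)) (b := (true, i + 1, j)) (c := (false, i, j + 1))
        (u := (i, j)) (v := (i + 1, j)) (by simp [mem_gends]) (by simp [mem_gends])
        (by simp [mem_gends]) (by simp [mem_gends]) (by simp [mem_gends])) (by grind [fc])
    · exact m (MG_three (a := (false, i, j)) (b := (true, i, j)) (c := (false, i, j + 1))
        (u := (i + 1, j)) (v := (i, j)) (by simp [mem_gends]) (by simp [mem_gends])
        (by simp [mem_gends]) (by simp [mem_gends]) (by simp [mem_gends])) (by grind [fc])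
    · exact m (MG_three (a := (true, i, j)) (b := (true, i + 1, j)) (c := (false, i, j + 1))
        (u := (i, j)) (v := (i + 1, j)) (by simp [mem_gends]) (by simp [mem_gends])
        (by simp [mem_gends]) (by simp [mem_gends]) (by simp [mem_gends])) (by grind [fc])
    · exact m (MG_three (a := (true, i, j)) (b := (true, i + 1, j)) (c := (false, i, j))
        (u := (i, j + 1)) (v := (i + 1, j + 1)) (by simp [mem_gends]) (by simp [mem_gends])
        (by simp [mem_gends]) (by simp [mem_gends]) (by simp [mem_gends])) (by grind [fc])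
  have h2 := ht.ind_insert ((h _ ((erase_subset _ _).trans (fc_sub hi hj))).2 h1) k
  rw [insert_erase hg] at h2
  have h3 := (h _ (fc_sub hi hj)).1 h2 _ subset_rfl ⟨g, hg⟩
  have h4 : (fc i j).card = 4 := by simp [fc]
  have h5 : ((fc i j).biUnion gends).card ≤ 4 :=
    (card_le_card (t := {(i, j), (i + 1, j), (i, j + 1), (i + 1, j + 1)})
      (by simp [fc, gends, insert_subset_iff])).trans card_le_four
  omega

lemma dual_not_cl {ε : Type} [DecidableEq ε] {t : Finset ε → ℤ} (ht : Rk t) {G X : Finset ε} {g : ε}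
    (h1 : g ∈ G) (h2 : g ∉ X) (h3 : Cl t (G \ insert g X) g) : ¬ Cl (dual t G) X g := by
  rw [Cl, show insert g (G \ insert g X) = G \ X by grind] at h3
  rw [Cl, dual, dual, h3.symm, insert_inter_of_mem h1,
    card_insert_of_notMem fun k => h2 (mem_inter.1 k).1]
  push_cast; omega

lemma dual_grid (hn : 1 ≤ n) (ht : Rk t) (h : ∀ I ⊆ GE (n + 1), Ind t I ↔ MG gends I) :
    HasMinor (dual t (GE (n + 1))) (GE (n + 1)) (GE n) (MG gends) := by
  refine HasMinor.mk' (C := ∅) (f := dE) (empty_subset _) dE_inj.injOn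
    (fun x hx => ⟨dE_mem hx, notMem_empty _⟩) fun I hI => ?_
  rw [(ht.dual _).con_empty]
  refine grid_mcase ((ht.dual _).pull _) ?_ ?_ hI
  · rintro e he ⟨i, j⟩ hv k
    have hij : i < n ∧ j < n := by
      obtain ⟨b, x, y⟩ := e
      rw [mem_GE] at he; rw [mem_gends] at hv; omega
    simp only [Cl, pull, image_insert] at k
    have m : ∀ g ∈ fc i j, g ∉ ((GE n).filter fun g => (i, j) ∉ gends g).image dE := fun g a b => by
      obtain ⟨x, c, rfl⟩ := mem_image.1 b
      exact (mem_filter.1 c).2 (dE_fc.1 a)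
    refine dual_not_cl ht (dE_mem he) (m _ (dE_fc.2 hv)) (ht.cl_mono (fun g hg => ?_)
      (fc_cl ht h hij.1 hij.2 (dE_fc.2 hv))) k
    rw [mem_erase] at hg
    exact mem_sdiff.2 ⟨fc_sub hij.1 hij.2 hg.2, fun c => (mem_insert.1 c).elim hg.1 (m g hg.2)⟩
  have hs := star_of_MG ht (fun e _ => (card_gends e).ge) h
  obtain ⟨K, hK⟩ : ∃ K, K = (GE n).filter fun e => e.1 = false ∧ 1 ≤ e.2.2 := ⟨_, rfl⟩
  have mK : ∀ g ∈ K.image dE, ∃ a b, g = (true, a + 1, b) ∧ a + 1 < n ∧ 1 ≤ b ∧ b < n := fun g hg => by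
    obtain ⟨⟨c, a, b⟩, h1, rfl⟩ := mem_image.1 hg
    rw [hK, mem_filter, mem_GE] at h1
    obtain rfl : c = false := h1.2.1
    exact ⟨a, b, rfl, by simp at h1; omega⟩
  have h1 := ht.ind_of_leaf (A := GE (n + 1) \ (GE n).image dE) (I := K.image dE) fun J hJ ne => by
    obtain ⟨e, he, hm⟩ := exists_min_image J (fun e => e.2.2) ne
    obtain ⟨a, b, rfl, h2⟩ := mK e (hJ he)
    refine ⟨_, he, fun k => hs (true, a + 1, b) (mem_GE.2 (by simp; omega)) (a + 1, b)
      (by simp [mem_gends]) (ht.cl_mono (fun g hg => ?_) k)⟩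
    rcases mem_union.1 hg with c | c
    · obtain ⟨a', b', rfl, h3⟩ := mK g (hJ (mem_erase.1 c).2)
      have h4 := hm _ (mem_erase.1 c).2
      have h5 := (mem_erase.1 c).1
      refine mem_filter.2 ⟨mem_GE.2 (by simp; omega), ?_⟩
      simp [mem_gends] at h4 h5 ⊢; omega
    · refine mem_filter.2 ⟨(mem_sdiff.1 c).1, fun m => (mem_sdiff.1 c).2 (mem_image.2 ?_)⟩
      obtain ⟨d, x, y⟩ := g
      rw [mem_gends] at m
      cases d
      · exact ⟨(true, x, y - 1), mem_GE.2 (by simp at m ⊢; omega), by simp [dE] at m ⊢; omega⟩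
      · exact ⟨(false, x - 1, y), mem_GE.2 (by simp at m ⊢; omega), by simp [dE] at m ⊢; omega⟩
  have sK : K ⊆ GE n := hK ▸ filter_subset _ _
  have sG : (GE n).image dE ⊆ GE (n + 1) := image_subset_iff.2 fun _ => dE_mem
  have h2 := ht.mono (X := K.image dE ∪ GE (n + 1) \ (GE n).image dE) (Y := GE (n + 1))
    (union_subset ((image_subset_image sK).trans sG) sdiff_subset)
  have h3 := card_sdiff_add_card_eq_card sK
  have h4 : (GE n \ K).card ≤ ((range n ×ˢ range n).erase (0, 0)).card :=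
    card_le_card_of_injOn (fun e => if e.1 then (e.2.1, e.2.2 + 1) else (e.2.1 + 1, e.2.2))
      (fun ⟨b, i, j⟩ he => by
        have := (mem_sdiff.1 he).1
        rw [mem_GE] at this
        cases b <;> simp at this ⊢ <;> omega)
      fun ⟨b, i, j⟩ he ⟨b', i', j'⟩ he' e => by
        simp only [hK, coe_sdiff, coe_filter, Set.mem_sdiff, mem_coe, Set.mem_ofPred_eq] at he he'
        cases b <;> cases b' <;> simp [he.1, he'.1] at he he' e ⊢ <;> omega
  rw [card_erase_of_mem (by simp; omega), card_product, card_range] at h4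
  have h5 : 0 < n * n := Nat.mul_pos hn hn
  rw [Ind, con, card_image_of_injective _ dE_inj] at h1
  simp only [pull, dual]
  rw [inter_eq_left.2 sG, card_image_of_injective _ dE_inj, ← Nat.cast_mul]
  omega

end Pool.Agent.Lib.MP_a4b0c4_co.J.T
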