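import Pool.Agent.Lib.MP_a4b0c4_co.JGrid2

/-! Translation between the coded grid and the box product of paths. -/

set_option autoImplicit false
set_option linter.unusedSectionVars false
set_option linter.unusedVariables false

open Finset SimpleGraph

namespace Pool.Agent.Lib.MP_a4b0c4_co.J.T

lemma MG_iff_acyclic {V : Type} [DecidableEq V] {I : Finset (Sym2 V)} (hI : ∀ e ∈ I, ¬ e.IsDiag) :
    MG Sym2.toFinset I ↔ (fromEdgeSet (I : Set (Sym2 V))).IsAcyclic := by
  classical
  constructor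
  · intro h v p hp
    have h1 := h p.edges.toFinset (fun e he => by
      have := p.edges_subset_edgeSet (List.mem_toFinset.1 he)
      rw [edgeSet_fromEdgeSet] at this
      exact this.1) (card_pos.1 (by
        rw [List.toFinset_card_of_nodup hp.isTrail.edges_nodup, Walk.length_edges]
        linarith [hp.three_le_length]))
    have h2 : (p.edges.toFinset.biUnion Sym2.toFinset).card ≤ p.support.tail.toFinset.card :=
      card_le_card fun w hw => by
        obtain ⟨e, a, b⟩ := mem_biUnion.1 hw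
        have c := Walk.mem_support_of_mem_edges (List.mem_toFinset.1 a) (Sym2.mem_toFinset.1 b)
        rw [← p.cons_tail_support, List.mem_cons] at c
        exact List.mem_toFinset.2 (c.elim (fun k => k ▸ Walk.end_mem_tail_support hp.not_nil) id)
    have h3 := List.toFinset_card_le p.support.tail
    rw [List.toFinset_card_of_nodup hp.isTrail.edges_nodup, Walk.length_edges] at h1
    rw [List.length_tail, Walk.length_support] at h3
    omega
  · intro h J hJ ⟨e0, h0⟩
    obtain ⟨U, hU⟩ : ∃ U, U = J.biUnion Sym2.toFinset := ⟨_, rfl⟩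
    have mU : ∀ e ∈ J, ∀ v ∈ e, v ∈ U := fun e a v b =>
      hU ▸ mem_biUnion.2 ⟨e, a, Sym2.mem_toFinset.2 b⟩
    have : Nonempty (U : Set V) := ⟨⟨e0.out.1, mU e0 h0 _ (Sym2.out_fst_mem e0)⟩⟩
    obtain ⟨T, a, -, b⟩ := (connected_top (V := (U : Set V))).exists_isTree_le_of_le_of_isAcyclic
      (H := (fromEdgeSet (I : Set (Sym2 V))).induce U) le_top (h.induce _)
    have c := b.card_edgeFinset
    have d : J.card ≤ T.edgeFinset.card := (card_le_card (t := T.edgeFinset.image (Sym2.map Subtype.val))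
      fun e he => by
        induction e using Sym2.ind with
        | _ x y =>
          refine mem_image.2 ⟨s(⟨x, mU _ he x (by simp)⟩, ⟨y, mU _ he y (by simp)⟩),
            mem_edgeFinset.2 (a ?_), rfl⟩
          exact (fromEdgeSet_adj _).2 ⟨hJ he, fun k => hI _ (hJ he) (Sym2.mk_isDiag_iff.2 k)⟩).trans
      card_image_le
    rw [← hU]
    simp only [coe_sort_coe, Fintype.card_coe] at c
    omega

variable {n : ℕ}

/-- the grid -/
abbrev GG (n : ℕ) : SimpleGraph (Fin n × Fin n) := boxProd (pathGraph n) (pathGraph n)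

/-- code of an edge -/
def code : Sym2 (Fin n × Fin n) → Bool × ℕ × ℕ :=
  Sym2.lift ⟨fun a b => (decide (a.1 = b.1), min a.1.1 b.1.1, min a.2.1 b.2.1), fun a b => by
    simp only [eq_comm (a := a.1), min_comm a.1.1, min_comm a.2.1]⟩

/-- code of a vertex -/
def cv (a : Fin n × Fin n) : ℕ × ℕ := (a.1, a.2)

lemma cv_inj : Function.Injective (cv (n := n)) := fun a b h =>
  Prod.ext (Fin.ext (congrArg Prod.fst h)) (Fin.ext (congrArg Prod.snd h))

lemma code_spec {e : Sym2 (Fin n × Fin n)} (h : e ∈ (GG n).edgeSet) :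
    code e ∈ GE n ∧ gends (code e) = e.toFinset.image cv := by
  induction e using Sym2.ind with
  | _ a b =>
    obtain ⟨⟨i, hi⟩, j, hj⟩ := a
    obtain ⟨⟨x, hx⟩, y, hy⟩ := b
    simp only [mem_edgeSet, boxProd_adj, pathGraph_adj, Fin.mk.injEq] at h
    rw [Sym2.toFinset_mk_eq]
    rcases h with ⟨rfl | rfl, rfl⟩ | ⟨rfl | rfl, rfl⟩ <;>
      simp [code, mem_GE, gends, cv, pair_comm] <;> omega

lemma code_inj : Set.InjOn code (GG n).edgeSet := fun e he e' he' k => by
  have := (code_spec he).2.symm.trans (k ▸ (code_spec he').2)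
  exact Sym2.ext fun v => by
    rw [← Sym2.mem_toFinset, image_injective cv_inj this, Sym2.mem_toFinset]

lemma code_surj {g : Bool × ℕ × ℕ} (h : g ∈ GE n) : ∃ e ∈ (GG n).edgeSet, code e = g := by
  obtain ⟨b, i, j⟩ := g
  rw [mem_GE] at h
  cases b
  · exact ⟨s((⟨i, by simp at h; omega⟩, ⟨j, by simp at h; omega⟩),
      (⟨i + 1, by simp at h; omega⟩, ⟨j, by simp at h; omega⟩)), by simp [pathGraph_adj], by simp [code]⟩
  · exact ⟨s((⟨i, by simp at h; omega⟩, ⟨j, by simp at h; omega⟩),
      (⟨i, by simp at h; omega⟩, ⟨j + 1, by simp at h; omega⟩)), by simp [pathGraph_adj], by simp [code]⟩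

lemma relabel {I : Finset (Sym2 (Fin n × Fin n))} (hI : ↑I ⊆ (GG n).edgeSet) (Q : ℕ → ℕ → Prop) :
    (∀ J ⊆ I.image code, Q J.card (J.biUnion gends).card) ↔
      ∀ J ⊆ I, Q J.card (J.biUnion Sym2.toFinset).card := by
  have key : ∀ J ⊆ I, (J.image code).card = J.card ∧
      ((J.image code).biUnion gends).card = (J.biUnion Sym2.toFinset).card := fun J hJ => by
    refine ⟨card_image_of_injOn (code_inj.mono ((coe_subset.2 hJ).trans hI)), ?_⟩
    rw [image_biUnion, biUnion_congr rfl fun e he => (code_spec (hI (hJ he))).2, ← biUnion_image,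
      card_image_of_injective _ cv_inj]
  constructor
  · intro h J hJ
    have := h _ (image_subset_image (f := code) hJ)
    rwa [(key J hJ).1, (key J hJ).2] at this
  · intro h J hJ
    obtain ⟨J', a, rfl⟩ := subset_image_iff.1 hJ
    rw [(key J' a).1, (key J' a).2]
    exact h J' a

lemma MG_code {I : Finset (Sym2 (Fin n × Fin n))} (hI : ↑I ⊆ (GG n).edgeSet) :
    MG gends (I.image code) ↔ (fromEdgeSet (I : Set (Sym2 (Fin n × Fin n)))).IsAcyclic := by
  rw [← MG_iff_acyclic fun e he => (GG n).not_isDiag_of_mem_edgeSet (hI he)]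
  simpa only [MG, card_pos] using relabel hI fun a b => 0 < a → a < b

lemma BG_code {I : Finset (Sym2 (Fin n × Fin n))} (hI : ↑I ⊆ (GG n).edgeSet) :
    BG gends (I.image code) ↔ ∀ J : Set (Sym2 (Fin n × Fin n)), J ⊆ I →
      J.ncard ≤ {w : Fin n × Fin n | ∃ e ∈ J, w ∈ e}.ncard := by
  have h : ∀ J : Finset (Sym2 (Fin n × Fin n)), {w : Fin n × Fin n | ∃ e ∈ (J : Set (Sym2 (Fin n × Fin n))), w ∈ e}
      = ↑(J.biUnion Sym2.toFinset) := fun J => by ext; simp
  refine (relabel hI fun a b => a ≤ b).trans ⟨fun k J hJ => ?_, fun k J hJ => ?_⟩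
  · obtain ⟨J, rfl⟩ := J.toFinite.exists_finset_coe
    rw [h, Set.ncard_coe_finset, Set.ncard_coe_finset]
    exact k J (coe_subset.1 hJ)
  · have := k J (coe_subset.2 hJ)
    rwa [h, Set.ncard_coe_finset, Set.ncard_coe_finset] at this

lemma exists_equiv {α : Type} [DecidableEq α] {f : Bool × ℕ × ℕ → α} (fi : Set.InjOn f (GE n))
    {S : Set α} (hS : S = ↑((GE n).image f)) : ∃ F : (GG n).edgeSet ≃ S, ∀ I : Set (GG n).edgeSet,
      ∃ I' : Finset (Sym2 (Fin n × Fin n)), Subtype.val '' I = ↑I' ∧ ↑I' ⊆ (GG n).edgeSet ∧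
        I'.image code ⊆ GE n ∧ Subtype.val '' (F '' I) = ↑((I'.image code).image f) := by
  subst hS
  refine ⟨Equiv.ofBijective (fun e : (GG n).edgeSet => (⟨f (code e.1), mem_coe.2
      (mem_image_of_mem f (code_spec e.2).1)⟩ : ↥(↑((GE n).image f) : Set α)))
    ⟨fun e e' k => Subtype.ext (code_inj e.2 e'.2 (fi (code_spec e.2).1 (code_spec e'.2).1
      (congrArg Subtype.val k))), fun ⟨x, hx⟩ => ?_⟩, fun I => ?_⟩
  · obtain ⟨g, a, rfl⟩ := mem_image.1 hx
    obtain ⟨e, b, rfl⟩ := code_surj a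
    exact ⟨⟨e, b⟩, rfl⟩
  have h1 : Subtype.val '' I = ↑(Subtype.val '' I).toFinite.toFinset := (Set.Finite.coe_toFinset _).symm
  have h2 : ↑(Subtype.val '' I).toFinite.toFinset ⊆ (GG n).edgeSet := h1 ▸ Subtype.coe_image_subset _ _
  refine ⟨_, h1, h2, image_subset_iff.2 fun e he => (code_spec (h2 he)).1, ?_⟩
  rw [coe_image (s := Finset.image code _), coe_image (f := code), ← h1, Set.image_image, Set.image_image,
    Set.image_image]
  rfl

end Pool.Agent.Lib.MP_a4b0c4_co.J.T
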