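import Pool.Agent.Lib.MP_a4b0c4_co.JSpec
import Pool.Agent.Lib.MP_a4b0c4_co.JCnt
import Pool.Agent.Lib.MP_a4b0c4_co.JOut

set_option autoImplicit false
set_option linter.unusedSectionVars false
set_option linter.unusedVariables false

open Finset

namespace Pool.Agent.Lib.MP_a4b0c4_co.J

variable {α ι : Type} [DecidableEq α] [DecidableEq ι] {r : Finset α → ℤ}

/-- union of the other members -/
abbrev ot [Fintype ι] (Z : ι → Finset α) (a : ι) : Finset α := (univ.erase a).biUnion Z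

lemma ot_sub [Fintype ι] (Z : ι → Finset α) {a b : ι} (k : b ≠ a) : Z b ⊆ ot Z a :=
  subset_biUnion_of_mem Z (by simp [k])

lemma ot_sub' [Fintype ι] (Z : ι → Finset α) {a : ι} {J : Finset ι} (k : a ∉ J) :
    J.biUnion Z ⊆ ot Z a := biUnion_subset.2 fun b hb => ot_sub Z fun e => k (e ▸ hb)

lemma PD.ot [Fintype ι] {Z : ι → Finset α} (pd : PD Z) (a : ι) : Disjoint (Z a) (ot Z a) :=
  (disjoint_biUnion_right _ _ _).2 fun b hb => pd _ _ (ne_of_mem_erase hb).symm

lemma cl_con1 {A : Finset α} {e : α} : Cl r A e ↔ con r A {e} = 0 := by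
  simp only [Cl, con, ← insert_eq]; constructor <;> intro h <;> linarith

/-- decomposition into few skew connected pieces -/
def Pcs (r : Finset α → ℤ) (Z : Finset α) (ν : ℕ) : Prop :=
  ∃ P : Fin ν → Finset α, PD P ∧ univ.biUnion P = Z ∧ (∀ i, Cntd r (P i)) ∧ Skew r univ P

lemma pcs_one (h : Rk r) {F : Finset α} (c : Cntd r F) (ν : ℕ) : Pcs r F (ν + 1) := by
  have e : (univ.biUnion fun i : Fin (ν + 1) => if i = 0 then F else ∅) = F := by
    ext x; simp [apply_ite (x ∈ ·)]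
  refine ⟨fun i => if i = 0 then F else ∅, fun i j k => ?_, e, fun i => ?_, ?_⟩
  · by_cases a : i = 0
    · have : j ≠ 0 := fun b => k (a.trans b.symm)
      simp [this]
    · simp [a]
  · by_cases a : i = 0
    · simpa [a] using c
    · simpa [a] using cntd_empty
  · rw [Skew, e]
    simp [apply_ite r, h.emp]

lemma gw_clean (h : Rk r) (U N : Finset α) : ∃ U' ⊆ U, U ∩ N ⊆ U' ∧
    (∀ Y ⊆ U, ∀ X ⊆ U', con r (Y ∩ U') X = con r Y X) ∧ ∀ e ∈ U' \ N, Cl r (U'.erase e) e := by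
  classical
  let Q := (U \ N).filter fun e => ¬ Cl r (U.erase e) e
  have i : Ind (con r (U \ Q)) Q := h.ind_of_leaf fun J hJ ⟨e, he⟩ =>
    ⟨e, he, fun k => (mem_filter.1 (hJ he)).2 (h.cl_mono (by
      have := hJ he
      have : J ⊆ U := hJ.trans ((filter_subset _ _).trans sdiff_subset)
      grind) k)⟩
  have t : ∀ Y ⊆ U, ∀ X ⊆ U \ Q, con r (Y ∩ (U \ Q)) X = con r Y X := by
    intro Y hY X hX
    have i' := (h.con _).ind_sub i (inter_subset_right (s₁ := Y))
    have a1 := h.con_of_ind i' (X := X ∪ Y ∩ (U \ Q)) (by grind)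
    have a2 := h.con_of_ind i' (X := Y ∩ (U \ Q)) (by grind)
    simp only [con] at a1 a2 ⊢
    rw [show X ∪ Y ∩ (U \ Q) ∪ Y ∩ Q = X ∪ Y by grind] at a1
    rw [show Y ∩ (U \ Q) ∪ Y ∩ Q = Y by grind] at a2
    omega
  refine ⟨U \ Q, sdiff_subset, by grind, t, fun e he => ?_⟩
  have k : Cl r (U.erase e) e := by
    by_contra k
    exact (mem_sdiff.1 (mem_sdiff.1 he).1).2 (mem_filter.2 ⟨by grind, k⟩)
  rw [cl_con1, ← t _ (erase_subset _ _) _ (by grind), ← cl_con1] at k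
  exact h.cl_mono (by grind) k

lemma gw_isol (h : Rk r) {E : Finset α} {N T : ι → Finset α} {β : ℤ}
    (hT : ∀ a b, a ≠ b → N a ⊆ T b)
    (k : ∀ a, ∃ Z, N a ⊆ Z ∧ Z ⊆ E \ T a ∧ lam r E Z ≤ β) :
    ∃ Z : ι → Finset α, PD Z ∧ ∀ a, N a ⊆ Z a ∧ Z a ⊆ E \ T a ∧ lam r E (Z a) ≤ β := by
  have ex : ∀ a, ∃ Z, (N a ⊆ Z ∧ Z ⊆ E \ T a ∧ lam r E Z ≤ β) ∧ ∀ Z', N a ⊆ Z' →
      Z' ⊆ E \ T a → lam r E Z ≤ lam r E Z' ∧ (lam r E Z' ≤ lam r E Z → Z.card ≤ Z'.card) := by
    intro a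
    obtain ⟨Z0, a1, a2, a3⟩ := k a
    obtain ⟨Z1, b1, b2⟩ := exists_min_image ((E \ T a).powerset.filter fun Z => N a ⊆ Z)
      (lam r E) ⟨Z0, by simp [a1, a2]⟩
    obtain ⟨Z2, c1, c2⟩ := exists_min_image
      (((E \ T a).powerset.filter fun Z => N a ⊆ Z).filter fun Z => lam r E Z ≤ lam r E Z1)
      card ⟨Z1, by simpa using b1⟩
    simp only [mem_filter, mem_powerset] at b1 b2 c1 c2
    exact ⟨Z2, ⟨c1.1.2, c1.1.1, c1.2.trans ((b2 _ ⟨a2, a1⟩).trans a3)⟩, fun Z' d1 d2 =>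
      ⟨c1.2.trans (b2 _ ⟨d2, d1⟩), fun d3 => c2 _ ⟨⟨d2, d1⟩, d3.trans c1.2⟩⟩⟩
  choose Z hZ mn using ex
  refine ⟨Z, fun a b ne => ?_, hZ⟩
  have v : ∀ a b, a ≠ b → N a ⊆ Z a \ Z b := fun a b ne x hx => mem_sdiff.2
    ⟨(hZ a).1 hx, fun k => (mem_sdiff.1 ((hZ b).2.1 k)).2 (hT a b ne hx)⟩
  have a1 := mn a _ (v a b ne) (sdiff_subset.trans (hZ a).2.1)
  have a2 := mn b _ (v b a ne.symm) (sdiff_subset.trans (hZ b).2.1)
  have a3 := h.lam_posi ((hZ a).2.1.trans sdiff_subset) ((hZ b).2.1.trans sdiff_subset)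
  exact Finset.sdiff_eq_self_iff_disjoint.1
    (eq_of_subset_of_card_le sdiff_subset (a1.2 (by linarith [a2.1])))

lemma gw_enum (A : Finset ι) {c : ℕ} (h : A.card ≤ c) : ∃ en : Fin c → Option ι,
    (∀ i a, en i = some a → a ∈ A) ∧ (∀ a ∈ A, ∃ i, en i = some a) ∧
    ∀ i i' a, en i = some a → en i' = some a → i = i' := by
  refine ⟨fun i => A.toList[i.val]?, fun i a k => mem_toList.1 (List.mem_of_getElem? k),
    fun a k => ?_, fun i i' a k k' => ?_⟩
  · obtain ⟨i, hi⟩ := List.mem_iff_getElem?.1 (mem_toList.2 k)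
    have := (List.getElem?_eq_some_iff.1 hi).1
    rw [length_toList] at this
    exact ⟨⟨i, by omega⟩, hi⟩
  · exact Fin.ext ((List.getElem?_inj (List.getElem?_eq_some_iff.1 k).1 A.nodup_toList).1
      (k.trans k'.symm))

lemma gw_rows (σ : Type) [Fintype σ] [Fintype ι] {w : ℕ}
    (h : Fintype.card σ * w ≤ Fintype.card ι) :
    ∃ R : σ → Finset ι, (∀ i j, i ≠ j → Disjoint (R i) (R j)) ∧ ∀ i, (R i).card = w := by
  obtain ⟨e⟩ := Function.Embedding.nonempty_of_card_le (α := σ × Fin w) (β := ι) (by simpa using h)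
  refine ⟨fun i => univ.image fun x => e (i, x), fun i j k => ?_, fun i => ?_⟩
  · rw [disjoint_left]
    intro a h1 h2
    obtain ⟨x, -, rfl⟩ := mem_image.1 h1
    obtain ⟨y, -, k'⟩ := mem_image.1 h2
    exact k (congrArg Prod.fst (e.injective k')).symm
  · rw [card_image_of_injective _ fun x y k => congrArg Prod.snd (e.injective k)]
    simp

lemma skew_comp {κ : Type} [DecidableEq κ] [Fintype ι] [Fintype κ] (h : Rk r)
    {N : ι → Finset α} (sk : Skew r univ N) {φ : κ → ι} (hφ : Function.Injective φ) :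
    Skew r univ fun i => N (φ i) :=
  h.skew_of_con fun i _ => (h.skew_con sk (mem_univ (φ i)) (Subset.refl _)
    (biUnion_subset.2 fun j hj => ot_sub N (hφ.ne (ne_of_mem_erase hj)))).ge

lemma PD.comp {κ : Type} {N : ι → Finset α} (pd : PD N) {φ : κ → ι}
    (hφ : Function.Injective φ) : PD fun i => N (φ i) := fun i j k => pd _ _ (hφ.ne k)

lemma dual_skew [Fintype ι] (h : Rk r) {N : ι → Finset α} (pd : PD N) (sk : Skew r univ N) :
    (∀ a, ∀ X ⊆ N a, dual r (univ.biUnion N) X = dual r (N a) X) ∧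
      Skew (dual r (univ.biUnion N)) univ N := by
  have e : ∀ a, ∀ X ⊆ N a, dual r (univ.biUnion N) X = dual r (N a) X := by
    intro a X hX
    have a1 := h.skew_con sk (mem_univ a) (Subset.refl _) (Subset.refl _)
    have a2 := h.skew_con sk (mem_univ a) (sdiff_subset (t := X)) (Subset.refl _)
    have d := disjoint_left.1 (pd.ot a)
    have u : univ.biUnion N = N a ∪ ot N a := by
      rw [← biUnion_insert, insert_erase (mem_univ a)]
    simp only [con, dual, ot] at a1 a2 u d ⊢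
    rw [u, show (N a ∪ (univ.erase a).biUnion N) \ X = N a \ X ∪ (univ.erase a).biUnion N by grind, inter_eq_left.2 hX,
      inter_eq_left.2 (hX.trans subset_union_left)]
    omega
  refine ⟨e, ?_⟩
  rw [Skew, sum_congr rfl fun a _ => e a _ (Subset.refl _)]
  simp only [dual, inter_self, Finset.sdiff_self, h.emp]
  rw [sk, card_biUnion fun a _ b _ k => pd a b k]
  simp [sum_sub_distrib]

/-- a family made skew by any b members -/
structure Fam [Fintype ι] (r : Finset α → ℤ) (E : Finset α) (Z : ι → Finset α) (b β : ℕ) :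
    Prop where
  sub : ∀ a, Z a ⊆ E
  pd : PD Z
  ks : KS r Z b
  lc : ∀ a, loc r (Z a) (ot Z a) ≤ β

section
variable [Fintype ι] {E : Finset α} {Z : ι → Finset α} {b β : ℕ}

lemma KS.cg (h : Rk r) (ks : KS r Z b) {J : Finset ι} (hJ : b ≤ J.card) {a : ι} (ha : a ∉ J)
    {X : Finset α} (hX : X ⊆ Z a) : con r (J.biUnion Z) X = con r (ot Z a) X :=
  (h.con_eq_sub (ot_sub' Z ha) hX (ks J a hJ ha).le).symm

lemma Fam.lb (h : Rk r) (fm : Fam r E Z b β) (J : Finset ι) {Y : Finset α}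
    (hY : ∀ a ∈ J, Y ⊆ ot Z a) : loc r (J.biUnion Z) Y ≤ J.card * β := by
  induction J using Finset.induction_on with
  | empty => simp [loc, h.emp]
  | insert a J ha ih =>
    have a1 := ih fun a k => hY a (mem_insert_of_mem k)
    have a2 := (h.loc_mono (Subset.refl (Z a))
      (union_subset (ot_sub' Z ha) (hY a (mem_insert_self _ _)))).trans (fm.lc a)
    have a3 := h.union_le (Subset.refl (Z a ∪ J.biUnion Z))
    rw [biUnion_insert, card_insert_of_notMem ha]
    simp only [loc] at a1 a2 ⊢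
    rw [union_assoc]
    push_cast
    linarith

/-- skewness of subsets of members outside J after contracting the members in J -/
lemma KS.skew (h : Rk r) (ks : KS r Z b) {J : Finset ι} (hJ : b ≤ J.card) {κ : Type}
    [DecidableEq κ] {s : Finset κ} {φ : κ → ι} (hφ : Set.InjOn φ s) (hs : ∀ i ∈ s, φ i ∉ J)
    {F : κ → Finset α} (hF : ∀ i ∈ s, F i ⊆ Z (φ i)) : Skew (con r (J.biUnion Z)) s F :=
  (h.con _).skew_of_con fun i hi => by
    rw [con_con, ks.cg h hJ (hs i hi) (hF i hi)]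
    exact h.con_anti (union_subset (ot_sub' Z (hs i hi)) (biUnion_subset.2 fun j hj =>
      (hF j (mem_of_mem_erase hj)).trans (ot_sub Z fun e =>
        ne_of_mem_erase hj (hφ (mem_of_mem_erase hj) hi e)))) _

end

def EngAt (n ν γ k t : ℕ) : Prop :=
  ∀ (α : Type) [DecidableEq α] (κ : Type) [Fintype κ] [DecidableEq κ]
    (r : Finset α → ℤ) (E S T R : Finset α) (P : Fin t × κ → Finset α),
    Fintype.card κ ≤ ν → Rk r → Free n r E → S ⊆ E → T ⊆ E → Disjoint S T → R ⊆ E →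
    (∀ x, P x ⊆ E \ (S ∪ T ∪ R)) → PD P → Conn r E S T k →
    (∀ x, Cntd (con r R) (P x)) → Skew (con r R) univ P →
    (∀ i, ∃ Z, S ⊆ Z ∧ Z ⊆ (E \ univ.biUnion fun j => P (i, j)) \ T ∧
      lam (con r (univ.biUnion fun j => P (i, j))) (E \ univ.biUnion fun j => P (i, j)) Z +
        loc r (univ.biUnion fun j => P (i, j)) R < γ) → False

lemma eng_fam [Fintype ι] {n b β ν c γ k t : ℕ} (eng : EngAt n (c * ν) (γ + b * β) k t)
    (h : Rk r) {E S T : Finset α} (hE : Free n r E) {Z : ι → Finset α} (fm : Fam r E Z b β)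
    {J : Finset ι} (hJ : J.card = b) {A : Fin t → Finset ι}
    (pA : ∀ l l', ∀ a ∈ A l, a ∈ A l' → l = l') (dJ : ∀ l, ∀ a ∈ A l, a ∉ J)
    (cA : ∀ l, (A l).card ≤ c) {G : ι → Finset α}
    (hG : ∀ a, G a ⊆ Z a ∧ Pcs (con r (ot Z a)) (G a) ν) (hS : S ⊆ E) (hT : T ⊆ E)
    (d : Disjoint S T) (dG : ∀ l, ∀ a ∈ A l, Disjoint (G a) (S ∪ T)) (cn : Conn r E S T k)
    (bl : ∀ l, ¬ Conn (con r ((A l).biUnion G)) (E \ (A l).biUnion G) S T γ) : False := by
  choose Q q1 q2 q3 q4 using fun a => (hG a).2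
  choose en e1 e2 e3 using fun l => gw_enum (A l) (cA l)
  have QG : ∀ a j, Q a j ⊆ G a := fun a j => q2 a ▸ subset_biUnion_of_mem _ (mem_univ j)
  have QZ : ∀ a j, Q a j ⊆ Z a := fun a j => (QG a j).trans (hG a).1
  let P : Fin t × (Fin c × Fin ν) → Finset α := fun x => (en x.1 x.2.1).elim ∅ fun a => Q a x.2.2
  have cs : ∀ x, P x = ∅ ∨ ∃ a, en x.1 x.2.1 = some a ∧ P x = Q a x.2.2 := fun x => by
    rcases hx : en x.1 x.2.1 with _ | a
    · exact Or.inl (by simp [P, hx])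
    · exact Or.inr ⟨a, rfl, by simp [P, hx]⟩
  have uq : ∀ {x y : Fin t × (Fin c × Fin ν)} {a}, en x.1 x.2.1 = some a → en y.1 y.2.1 = some a →
      x ≠ y → x.2.2 ≠ y.2.2 := by
    rintro ⟨l, i, j⟩ ⟨l', i', j'⟩ a k k' ne e
    obtain rfl := pA _ _ a (e1 _ _ _ k) (e1 _ _ _ k')
    obtain rfl := e3 _ _ _ _ k k'
    exact ne (by rw [show j = j' from e])
  have lv : ∀ l, (univ.biUnion fun j => P (l, j)) = (A l).biUnion G := by
    intro l
    refine Subset.antisymm (biUnion_subset.2 fun j _ => ?_) (biUnion_subset.2 fun a ha => ?_)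
    · rcases cs (l, j) with k | ⟨a, k, k'⟩
      · simp [k]
      · rw [k']; exact (QG a _).trans (subset_biUnion_of_mem G (e1 _ _ _ k))
    · obtain ⟨i, hi⟩ := e2 l a ha
      rw [← q2 a]
      refine biUnion_subset.2 fun j _ => Subset.trans ?_
        (subset_biUnion_of_mem (fun j => P (l, j)) (mem_univ (i, j)))
      simp [P, hi]
  refine eng α (Fin c × Fin ν) r E S T (J.biUnion Z) P (by simp) h hE hS hT d
    (biUnion_subset.2 fun a _ => fm.sub a) (fun x => ?_) (fun x y ne => ?_) cn (fun x => ?_)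
    ((h.con _).skew_of_con fun x _ => ?_) fun l => ?_
  · rcases cs x with k | ⟨a, k, k'⟩
    · simp [k]
    · rw [k']
      refine subset_sdiff.2 ⟨(QZ a _).trans (fm.sub a), disjoint_union_right.2
        ⟨(dG _ a (e1 _ _ _ k)).mono_left (QG a _), ?_⟩⟩
      exact (fm.pd.ot a).mono (QZ a _) (ot_sub' Z (dJ _ a (e1 _ _ _ k)))
  · rcases cs x with k | ⟨a, k, k'⟩
    · simp [k]
    rcases cs y with l | ⟨a', l, l'⟩
    · simp [l]
    rw [k', l']
    by_cases e : a = a'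
    · subst e; exact q1 a _ _ (uq k l ne)
    · exact (fm.pd _ _ e).mono (QZ _ _) (QZ _ _)
  · rcases cs x with k | ⟨a, k, k'⟩
    · rw [k]; exact cntd_empty
    · rw [k']
      exact (q3 a _).congr fun X hX =>
        (fm.ks.cg h hJ.ge (dJ _ a (e1 _ _ _ k)) (hX.trans (QZ a _))).symm
  · rcases cs x with k | ⟨a, k, k'⟩
    · rw [k, (h.con _).emp, ((h.con _).con _).emp]
    · have na := dJ _ a (e1 _ _ _ k)
      rw [k', fm.ks.cg h hJ.ge na (QZ a _), con_con,
        ← (h.con _).skew_con (q4 a) (mem_univ x.2.2) (Subset.refl _) (Subset.refl _), con_con]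
      refine h.con_anti (union_subset ((ot_sub' Z na).trans subset_union_left)
        (biUnion_subset.2 fun y hy => ?_)) _
      rcases cs y with l | ⟨a', l, l'⟩
      · simp [l]
      rw [l']
      by_cases e : a' = a
      · subst e
        exact (ot_sub (Q a') (uq l k (ne_of_mem_erase hy))).trans subset_union_right
      · exact ((QZ _ _).trans (ot_sub Z e)).trans subset_union_left
  · rw [lv]
    have := bl l
    simp only [Conn, not_forall, not_le] at this
    obtain ⟨Y, y1, y2, y3⟩ := this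
    have lc := fm.lb h J (Y := (A l).biUnion G) fun a ha => biUnion_subset.2 fun a' ha' =>
      (hG a').1.trans (ot_sub Z fun e => dJ l a' ha' (e ▸ ha))
    rw [loc_comm, hJ] at lc
    exact ⟨Y, y1, y2, by push_cast; linarith⟩

/-- levels made of whole members and of connected parts -/
lemma eng_fam2 [Fintype ι] {n b β ν c γ k t : ℕ} (eng : EngAt n (c * (ν + 1)) (γ + b * β) k t)
    (h : Rk r) {E S T : Finset α} (hE : Free n r E) {Z F : ι → Finset α} (fm : Fam r E Z b β)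
    (pc : ∀ a, Pcs (con r (ot Z a)) (Z a) (ν + 1))
    (hF : ∀ a, F a ⊆ Z a ∧ Cntd (con r (ot Z a)) (F a))
    {J : Finset ι} (hJ : J.card = b) {A L : Fin t → Finset ι}
    (pA : ∀ l l', ∀ a ∈ A l ∪ L l, a ∈ A l' ∪ L l' → l = l') (pL : ∀ l, ∀ a ∈ A l, a ∉ L l)
    (dJ : ∀ l, ∀ a ∈ A l ∪ L l, a ∉ J) (cA : ∀ l, (A l).card + (L l).card ≤ c)
    (hS : S ⊆ E) (hT : T ⊆ E) (d : Disjoint S T)
    (dG : ∀ l, ∀ a ∈ A l ∪ L l, Disjoint (Z a) (S ∪ T)) (cn : Conn r E S T k)
    (bl : ∀ l, ¬ Conn (con (con r ((A l).biUnion Z)) ((L l).biUnion F))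
      ((E \ (A l).biUnion Z) \ (L l).biUnion F) S T γ) : False := by
  let G : ι → Finset α := fun a => if a ∈ univ.biUnion A then Z a else F a
  have hG : ∀ a, G a ⊆ Z a ∧ Pcs (con r (ot Z a)) (G a) (ν + 1) := fun a => by
    by_cases k : a ∈ univ.biUnion A
    · simp only [G, if_pos k]; exact ⟨Subset.refl _, pc a⟩
    · simp only [G, if_neg k]; exact ⟨(hF a).1, pcs_one (h.con _) (hF a).2 ν⟩
  refine eng_fam eng h hE fm hJ pA dJ (fun l => (card_union_le _ _).trans (cA l)) hG hS hT d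
    (fun l a k => (dG l a k).mono_left (hG a).1) cn fun l => ?_
  have e : (A l ∪ L l).biUnion G = (A l).biUnion Z ∪ (L l).biUnion F := by
    rw [union_biUnion]
    congr 1
    · exact biUnion_congr rfl fun a k => if_pos (mem_biUnion.2 ⟨l, mem_univ _, k⟩)
    · refine biUnion_congr rfl fun a k => if_neg fun k' => ?_
      obtain ⟨l', -, k'⟩ := mem_biUnion.1 k'
      obtain rfl := pA l l' a (mem_union_right _ k) (mem_union_left _ k')
      exact pL _ a k' k
  rw [e, ← con_con, ← sup_eq_union, ← _root_.sdiff_sdiff]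
  exact bl l

def KAt (β : ℕ) (f : ℕ → ℕ) (N bm : ℕ) : Prop :=
  ∀ (α : Type) [DecidableEq α] (r : Finset α → ℤ)
    (A : Fin N → Finset α), Rk r → (∀ a, loc r (A a) ((univ.erase a).biUnion A) ≤ β) →
    ∃ b ≤ bm, ∃ u : Fin (b + f b) ↪o Fin N, KS r (fun i => A (u i)) b

lemma gw_fam {β N bm : ℕ} {f : ℕ → ℕ} (kl : KAt β f N bm) (h : Rk r) {E1 E : Finset α}
    (hE : E1 ⊆ E) {U M : Fin N → Finset α} (pd : PD U)
    (hU : ∀ a, M a ⊆ U a ∧ U a ⊆ E1 ∧ lam r E1 (U a) ≤ β) :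
    ∃ b ≤ bm, ∃ (u : Fin (b + f b) → Fin N) (Z : Fin (b + f b) → Finset α),
      Function.Injective u ∧ Fam r E Z b β ∧ ∀ a, M (u a) ⊆ Z a ∧ Z a ⊆ U (u a) ∧
        (∀ e ∈ Z a \ M (u a), Cl (con r (ot Z a)) ((Z a).erase e) e) ∧
        ∃ O, U (u a) \ M (u a) ⊆ O ∧ O ⊆ E1 \ M (u a) ∧
          ∀ X ⊆ M (u a), con (con r (ot Z a)) (Z a \ M (u a)) X = con r O X := by
  have lc : ∀ a, loc r (U a) (ot U a) ≤ β := fun a => (h.loc_le_lam (hU a).2.1 (Subset.refl _)
    (subset_sdiff.2 ⟨biUnion_subset.2 fun a _ => (hU a).2.1, (pd.ot a).symm⟩)).trans (hU a).2.2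
  obtain ⟨b, hb, u, ks⟩ := kl α r U h lc
  obtain ⟨V, v1, v2, v3, v4⟩ := gw_clean h (univ.biUnion fun i => U (u i))
    (univ.biUnion fun i => M (u i))
  have pu := pd.comp u.injective
  have sU : ∀ J : Finset (Fin (b + f b)), (J.biUnion fun i => U (u i)) ⊆
      univ.biUnion fun i => U (u i) := fun J => biUnion_subset_biUnion_of_subset_left _ (subset_univ _)
  have sU' : ∀ i, U (u i) ⊆ univ.biUnion fun i => U (u i) := fun i =>
    subset_biUnion_of_mem (fun i => U (u i)) (mem_univ i)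
  have tr : ∀ (J : Finset (Fin (b + f b))) (X), X ⊆ V →
      con r (J.biUnion fun i => U (u i) ∩ V) X = con r (J.biUnion fun i => U (u i)) X :=
    fun J X hX => by rw [← biUnion_inter, v3 _ (sU J) _ hX]
  have MV : ∀ a, M (u a) ⊆ V := fun a x hx => v2 (mem_inter.2 ⟨sU' a ((hU _).1 hx),
    subset_biUnion_of_mem (fun i => M (u i)) (mem_univ a) hx⟩)
  refine ⟨b, hb, u, fun i => U (u i) ∩ V, u.injective, ⟨fun a => inter_subset_left.trans
    ((hU _).2.1.trans hE), fun a a' k => (pu a a' k).mono inter_subset_left inter_subset_left,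
    fun J a hJ ha => ?_, fun a => ?_⟩, fun a => ⟨subset_inter (hU _).1 (MV a), inter_subset_left,
      fun e he => ?_, ot (fun i => U (u i)) a ∪ U (u a) \ M (u a), subset_union_right, ?_,
      fun X hX => ?_⟩⟩
  · rw [tr _ _ inter_subset_right, tr _ _ inter_subset_right, ks.cg h hJ ha inter_subset_left]
  · exact (h.loc_mono inter_subset_left (biUnion_subset.2 fun i hi => inter_subset_left.trans
      (ot_sub U (u.injective.ne (ne_of_mem_erase hi))))).trans (lc (u a))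
  · have he1 := mem_inter.1 (mem_sdiff.1 he).1
    refine cl_con.2 (h.cl_mono (fun x hx => ?_) (v4 e (mem_sdiff.2 ⟨he1.2, fun k => ?_⟩)))
    · obtain ⟨i, -, hi⟩ := mem_biUnion.1 (v1 (mem_of_mem_erase hx))
      have hi' := mem_inter.2 ⟨hi, mem_of_mem_erase hx⟩
      by_cases k : i = a
      · exact mem_union_left _ (mem_erase.2 ⟨ne_of_mem_erase hx, k ▸ hi'⟩)
      · exact mem_union_right _ (ot_sub (fun i => U (u i) ∩ V) k hi')
    · obtain ⟨i, -, hi⟩ := mem_biUnion.1 k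
      by_cases k : i = a
      · exact (mem_sdiff.1 he).2 (k ▸ hi)
      · exact disjoint_left.1 (pu i a k) ((hU _).1 hi) he1.1
  · refine union_subset (subset_sdiff.2 ⟨biUnion_subset.2 fun i _ => (hU _).2.1,
      (pu.ot a).symm.mono_right (hU _).1⟩) (sdiff_subset_sdiff (hU _).2.1 (Subset.refl _))
  · rw [con_con, ← v3 _ (union_subset (sU _) (sdiff_subset.trans (sU' a))) _ (hX.trans (MV a)),
      union_inter_distrib_right, biUnion_inter, show (U (u a) \ M (u a)) ∩ V =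
        (U (u a) ∩ V) \ M (u a) by grind]

end Pool.Agent.Lib.MP_a4b0c4_co.J
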