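import Pool.Agent.Lib.MP_a4b0c4_co.JSpec
import Pool.Agent.Lib.MP_a4b0c4_co.JConn

set_option autoImplicit false
set_option linter.unusedSectionVars false
set_option linter.unusedVariables false

open Finset

namespace Pool.Agent.Lib.MP_a4b0c4_co.J

variable {α : Type} [DecidableEq α]

/-- Rado theorem with defect for a labelled ground set -/
lemma port_rado {ι : Type} [DecidableEq ι] {g : Finset α → ℤ} (h : Rk g) (l : α → ι) (γ : ℕ)
    (W : Finset ι) (U : Finset α) : (∀ x ∈ U, l x ∈ W) →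
    (∀ L ⊆ W, (γ : ℤ) ≤ g (U.filter fun x => l x ∉ L) + L.card) →
    ∃ X ⊆ U, X.card = γ ∧ Ind g X ∧ Set.InjOn l X := by
  induction U using Finset.strongInduction with
  | H U ih =>
    intro hW hL
    by_cases inj : Set.InjOn l U
    · have := hL ∅ (empty_subset _)
      simp only [notMem_empty, not_false_eq_true, filter_true, card_empty, Nat.cast_zero,
        add_zero] at this
      obtain ⟨X, a, b, c⟩ := h.ind_of_le this
      exact ⟨X, a, c, b, inj.mono a⟩
    · simp only [Set.InjOn, not_forall] at inj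
      obtain ⟨x, hx, y, hy, e, ne⟩ := inj
      rw [mem_coe] at hx hy
      by_cases c1 : ∀ L ⊆ W, (γ : ℤ) ≤ g ((U.erase x).filter fun x => l x ∉ L) + L.card
      · obtain ⟨X, a, b⟩ := ih _ (erase_ssubset hx) (fun z hz => hW z (mem_of_mem_erase hz)) c1
        exact ⟨X, a.trans (erase_subset _ _), b⟩
      by_cases c2 : ∀ L ⊆ W, (γ : ℤ) ≤ g ((U.erase y).filter fun x => l x ∉ L) + L.card
      · obtain ⟨X, a, b⟩ := ih _ (erase_ssubset hy) (fun z hz => hW z (mem_of_mem_erase hz)) c2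
        exact ⟨X, a.trans (erase_subset _ _), b⟩
      exfalso
      push Not at c1 c2
      obtain ⟨L1, a1, a2⟩ := c1
      obtain ⟨L2, b1, b2⟩ := c2
      have h1 := hL (L1 ∩ L2) (inter_subset_left.trans a1)
      have h2 := hL (insert (l x) (L1 ∪ L2)) (insert_subset (hW x hx) (union_subset a1 b1))
      have h3 := card_union_add_card_inter L1 L2
      have h4 := card_insert_le (l x) (L1 ∪ L2)
      have n1 : l x ∉ L1 := fun k => by
        have := hL L1 a1
        rw [show U.filter (fun x => l x ∉ L1) = (U.erase x).filter fun x => l x ∉ L1 by grind] at this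
        omega
      have n2 : l y ∉ L2 := fun k => by
        have := hL L2 b1
        rw [show U.filter (fun x => l x ∉ L2) = (U.erase y).filter fun x => l x ∉ L2 by grind] at this
        omega
      have h5 := h.sub (X := U.filter fun z => l z ∉ insert (l x) (L1 ∪ L2))
        (Y := U.filter fun z => l z ∉ L1 ∩ L2) (A := (U.erase x).filter fun z => l z ∉ L1)
        (B := (U.erase y).filter fun z => l z ∉ L2) (by grind) (by grind) (by grind)
      omega

lemma port_card (B : Finset α) {X Y : Finset α} (hXY : Y ⊆ X) :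
    (B \ Y).card = (B \ X).card + ((B ∩ X) \ Y).card := by
  rw [← card_union_of_disjoint (by grind [disjoint_left])]
  exact congrArg card (by grind)

lemma port_sub {r : Finset α → ℤ} (h : Rk r) (E B X Y Z Z' : Finset α) :
    r (E \ (Z ∪ Z') ∪ B \ (X ∪ Y)) + r (E \ (Z ∩ Z') ∪ B \ (X ∩ Y)) ≤
      r (E \ Z ∪ B \ X) + r (E \ Z' ∪ B \ Y) := h.sub (by grind) (by grind) (by grind)

lemma port_card2 (B X Y : Finset α) :
    (B \ (X ∩ Y)).card + (B \ (X ∪ Y)).card = (B \ X).card + (B \ Y).card := by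
  have h5 := card_union_add_card_inter (B \ X) (B \ Y)
  rwa [show B \ X ∪ B \ Y = B \ (X ∩ Y) by grind,
    show B \ X ∩ (B \ Y) = B \ (X ∪ Y) by grind] at h5

lemma port_card3 (B X : Finset α) (e : α) : ((B ∩ insert e X) \ X).card ≤ 1 :=
  (card_le_card (t := {e}) (by grind)).trans (by simp)

lemma port_add {r : Finset α → ℤ} (h : Rk r) (A B X Y : Finset α) :
    r (A ∪ B \ X) ≤ r (A ∪ B \ Y) + ((B ∩ Y) \ X).card := h.add_card' (by grind)

/-- the connectivity between S and T after contracting a part of a basis of S is a rank function -/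
lemma port_rank {r : Finset α → ℤ} (h : Rk r) {E S T B : Finset α} (hS : S ⊆ E \ T) (hB : B ⊆ S)
    (hi : Ind r B) (hs : ∀ e ∈ S, Cl r B e) : ∃ g : Finset α → ℤ, Rk g ∧
    (∀ X Z, S ⊆ Z → Z ⊆ E \ T → g X ≤ r Z + r (E \ Z ∪ B \ X) - r E - (B \ X).card) ∧
    ∀ X, ∃ Z, S ⊆ Z ∧ Z ⊆ E \ T ∧ g X = r Z + r (E \ Z ∪ B \ X) - r E - (B \ X).card := by
  have : ∀ X : Finset α, ∃ Z, (S ⊆ Z ∧ Z ⊆ E \ T) ∧ ∀ Z', S ⊆ Z' → Z' ⊆ E \ T →
      r Z + r (E \ Z ∪ B \ X) ≤ r Z' + r (E \ Z' ∪ B \ X) := fun X => by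
    obtain ⟨Z, a, b⟩ := exists_min_image ((E \ T).powerset.filter (S ⊆ ·))
      (fun Z => r Z + r (E \ Z ∪ B \ X)) ⟨S, by simpa using hS⟩
    simp only [mem_filter, mem_powerset] at a b
    exact ⟨Z, a.symm, fun Z' c d => b Z' ⟨d, c⟩⟩
  choose Z z1 z2 using this
  refine ⟨fun X => r (Z X) + r (E \ Z X ∪ B \ X) - r E - (B \ X).card, ⟨?_, fun {X Y} hXY => ?_,
    fun X Y => ?_, fun e X => ?_⟩, fun X Z' a b => by linarith [z2 X Z' a b],
    fun X => ⟨Z X, (z1 X).1, (z1 X).2, rfl⟩⟩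
  · have h1 := z2 ∅ S subset_rfl hS
    have h2 := h.span_le hs
    simp only [sdiff_empty] at *
    have h3 := h.mono (X := E \ S ∪ B) (Y := E)
      (union_subset sdiff_subset (hB.trans (hS.trans sdiff_subset)))
    have h4 := h.sub (X := B) (Y := E) (A := Z ∅) (B := E \ Z ∅ ∪ B)
      (hB.trans (z1 ∅).1) subset_union_right
      (le_sup_sdiff.trans (union_subset_union_right subset_union_left))
    unfold Ind at hi; omega
  · have h1 := z2 X (Z Y) (z1 Y).1 (z1 Y).2
    have h2 := port_add h (E \ Z Y) B X Y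
    have h3 := port_card B hXY
    omega
  · have h1 := z2 (X ∪ Y) (Z X ∪ Z Y) ((z1 X).1.trans subset_union_left)
      (union_subset (z1 X).2 (z1 Y).2)
    have h2 := z2 (X ∩ Y) (Z X ∩ Z Y) (subset_inter (z1 X).1 (z1 Y).1)
      (inter_subset_left.trans (z1 X).2)
    have h3 := h.subm (Z X) (Z Y)
    have h4 := port_sub h E B X Y (Z X) (Z Y)
    have h5 := port_card2 B X Y
    omega
  · have h1 := z2 (insert e X) (Z X) (z1 X).1 (z1 X).2
    have h2 := h.mono (X := E \ Z X ∪ B \ insert e X) (Y := E \ Z X ∪ B \ X)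
      (union_subset_union_right (sdiff_subset_sdiff subset_rfl (subset_insert _ _)))
    have h3 := port_card B (subset_insert e X)
    have h4 := port_card3 B X e
    omega

/-- a set X spanned by T modulo A can be exchanged for a subset of T -/
lemma port_exch {r : Finset α → ℤ} (h : Rk r) {X T : Finset α} (hX : Ind r X) (d : Disjoint X T)
    (hs : r (X ∪ T) ≤ r T) : ∃ T0 T', T0 ⊆ T ∧ T' ⊆ T ∧ Disjoint T0 T' ∧ T'.card = X.card ∧
      Ind r (X ∪ T0) ∧ (∀ t ∈ T', Cl r (X ∪ T0) t) ∧ Ind r (T0 ∪ T') := by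
  obtain ⟨J, a1, a2, a3, a4⟩ := h.ext (subset_union_left (s₂ := T)) hX
  obtain ⟨J', b1, b2, b3, b4⟩ := h.ext (I := J \ X) (Y := T) (by grind)
    (h.ind_sub a3 sdiff_subset)
  have e1 : X ∪ J \ X = J := union_sdiff_of_subset a1
  have e2 : J \ X ∪ J' \ (J \ X) = J' := union_sdiff_of_subset b1
  refine ⟨J \ X, J' \ (J \ X), by grind, by grind, disjoint_sdiff, ?_, by rwa [e1],
    fun t ht => by rw [e1]; exact a4 t (by grind), by rwa [e2]⟩
  have c1 := card_sdiff_add_card_eq_card a1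
  have c2 := card_sdiff_add_card_eq_card b1
  have c3 := h.span_le a4
  have c4 := h.span_le b4
  have c5 := h.mono a2
  have c6 := h.mono (X := J') (Y := X ∪ T) (by grind)
  unfold Ind at *; omega

/-- contracting a part of a basis of S, or a set with the same closure -/
lemma port_lam {r : Finset α → ℤ} (h : Rk r) {E Z A A' : Finset α} (hA : A ⊆ A') (hZ : A' ⊆ Z)
    (hE : Z ⊆ E) (hi : Ind r A) (hs : ∀ e ∈ A', Cl r A e) :
    lam (con r A') (E \ A') (Z \ A') = r Z + r (E \ Z ∪ A) - r E - A.card := by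
  rw [h.con_congr hs fun e he => cl_mem (hA he)]
  have k : ∀ U, A' ⊆ U → r (U \ A' ∪ A) = r U := fun U hU =>
    le_antisymm (h.mono (by grind)) (h.span_le' hs subset_union_right (by grind))
  simp only [lam, con]
  rw [k Z hZ, k E (hZ.trans hE), show (E \ A') \ (Z \ A') = E \ Z by grind]
  unfold Ind at hi; omega

/-- the port lemma, for a nonempty type or a positive number of ports -/
theorem port' (α : Type) [DecidableEq α] (ι : Type) [DecidableEq ι] (r : Finset α → ℤ)
    (E T : Finset α) (W : Finset ι) (F B : ι → Finset α) (γ : ℕ) (ne : Nonempty α ∨ 0 < γ)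
    (h : Rk r) (pd : PD F) (hB : ∀ a ∈ W, B a ⊆ F a ∧ F a ⊆ E \ T ∧ ∀ e ∈ F a, Cl r (B a) e)
    (hT : T ⊆ E) (hi : Ind r (W.biUnion B)) :
    (∃ L ⊆ W, L.card < γ ∧
      ¬ Conn (con r (L.biUnion F)) (E \ L.biUnion F) ((W \ L).biUnion F) T γ) ∨
    ∃ V ⊆ W, V.card = γ ∧ ∃ (y : ι → α) (C T' : Finset α), (∀ a ∈ V, y a ∈ B a) ∧
      C ⊆ E \ W.biUnion F ∧ T' ⊆ T ∧ Disjoint C T' ∧ T'.card = γ ∧ Ind r (W.biUnion B ∪ C) ∧
      (∀ t ∈ T', Cl r (W.biUnion B ∪ C) t) ∧ Ind r ((W.biUnion B \ V.image y) ∪ C ∪ T') := by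
  classical
  have s1 : ∀ L ⊆ W, L.biUnion B ⊆ L.biUnion F := fun L hL =>
    biUnion_mono fun a ha => (hB a (hL ha)).1
  have s2 : W.biUnion F ⊆ E \ T := biUnion_subset.2 fun a ha => (hB a ha).2.1
  have s3 : ∀ L ⊆ W, ∀ e ∈ L.biUnion F, Cl r (L.biUnion B) e := fun L hL e he => by
    obtain ⟨a, ha, k⟩ := mem_biUnion.1 he
    exact h.cl_mono (subset_biUnion_of_mem B ha) ((hB a (hL ha)).2.2 e k)
  obtain ⟨g, hg, g1, g2⟩ := port_rank h s2 (s1 W subset_rfl) hi (s3 W subset_rfl)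
  have : ∀ x, ∃ o : Option ι, ∀ a ∈ W, x ∈ B a → o = some a := fun x => by
    by_cases k : ∃ a ∈ W, x ∈ B a
    · obtain ⟨a, ha, k⟩ := k
      refine ⟨some a, fun b hb k' => ?_⟩
      by_contra c
      exact disjoint_left.1 (pd a b fun e => c (e ▸ rfl)) ((hB a ha).1 k) ((hB b hb).1 k')
    · exact ⟨none, fun a ha k' => absurd ⟨a, ha, k'⟩ k⟩
  choose l hl using this
  by_cases c : ∀ L ⊆ W.image some, (γ : ℤ) ≤ g ((W.biUnion B).filter fun x => l x ∉ L) + L.card
  · right
    obtain ⟨X, x1, x2, x3, x4⟩ := port_rado hg l γ (W.image some) (W.biUnion B) (fun x hx => by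
      obtain ⟨a, ha, k⟩ := mem_biUnion.1 hx
      exact hl x a ha k ▸ mem_image_of_mem _ ha) c
    obtain ⟨x0⟩ : Nonempty α := ne.elim id fun k => ⟨(card_pos.1 (x2 ▸ k)).choose⟩
    have : ∀ a, ∃ y, ∀ x ∈ X, l x = some a → x = y := fun a => by
      by_cases k : ∃ x ∈ X, l x = some a
      · obtain ⟨x, hx, k⟩ := k
        exact ⟨x, fun x' hx' k' => x4 hx' hx (k'.trans k.symm)⟩
      · exact ⟨x0, fun x hx k' => absurd ⟨x, hx, k'⟩ k⟩
    choose y hy using this
    let V := W.filter fun a => ∃ x ∈ X, x ∈ B a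
    have v1 : ∀ a ∈ V, y a ∈ B a ∧ y a ∈ X := fun a ha => by
      obtain ⟨a1, x, a2, a3⟩ := mem_filter.1 ha
      rw [← hy a x a2 (hl x a a1 a3)]; exact ⟨a3, a2⟩
    have v2 : V.image y = X := by
      refine subset_antisymm (fun z hz => ?_) fun x hx => ?_
      · obtain ⟨a, ha, rfl⟩ := mem_image.1 hz
        exact (v1 a ha).2
      · obtain ⟨a, ha, k⟩ := mem_biUnion.1 (x1 hx)
        exact mem_image.2 ⟨a, mem_filter.2 ⟨ha, x, hx, k⟩, (hy a x hx (hl x a ha k)).symm⟩
    have v3 : V.card = γ := by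
      rw [← x2, ← v2, card_image_of_injOn]
      intro a ha b hb e
      have := (hl _ a (mem_filter.1 ha).1 (v1 a ha).1).symm.trans
        (hl _ b (mem_filter.1 hb).1 (e ▸ (v1 b hb).1))
      exact Option.some_injective _ this
    have b1 := s1 W subset_rfl
    have b2 := s3 W subset_rfl
    suffices k : ∃ C T' : Finset α, C ⊆ E \ W.biUnion F ∧ T' ⊆ T ∧ Disjoint C T' ∧ T'.card = γ ∧
        Ind r (W.biUnion B ∪ C) ∧ (∀ t ∈ T', Cl r (W.biUnion B ∪ C) t) ∧
        Ind r ((W.biUnion B \ X) ∪ C ∪ T') by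
      obtain ⟨C, T', k⟩ := k
      exact ⟨V, filter_subset _ _, v3, y, C, T', fun a ha => (v1 a ha).1, v2 ▸ k⟩
    clear_value V
    generalize W.biUnion B = B' at *
    generalize W.biUnion F = S at *
    clear hl hy c v1 v2 v3 hB s1 s3 x4
    have i1 := h.ind_sub hi (sdiff_subset (t := X))
    have cn : Conn (con r (B' \ X)) (E \ (B' \ X)) (S \ (B' \ X)) T γ := fun Z z1 z2 => by
      have := g1 X (Z ∪ B' \ X) (by grind) (by grind)
      rw [← port_lam h subset_rfl subset_union_right (by grind) i1 (fun e he => cl_mem he),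
        show (Z ∪ B' \ X) \ (B' \ X) = Z by grind] at this
      unfold Ind at x3; omega
    obtain ⟨C, c1, c2, c3, c4⟩ := (h.con (B' \ X)).tutte (by grind) (by grind)
      (by grind [disjoint_left]) cn
    have e1 : X ∪ B' \ X = B' := union_sdiff_of_subset x1
    have i2 : Ind (con r B') C := by
      have := (h.con (B' \ X)).ind_con_anti (A := X) (by grind) c2
      rwa [con_con, union_comm, e1] at this
    have i3 := h.ind_union hi i2
    have d1 : Disjoint C B' := h.ind_con_disj i2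
    have i4 : Ind (con r (B' \ X ∪ C)) X := h.ind_con (by grind [disjoint_left])
      (by rwa [← union_assoc, e1, union_comm])
    rw [con_con] at c4
    have h' := h.con (B' \ X ∪ C)
    have k1 : con r (B' \ X ∪ C) (S \ (B' \ X)) ≤ con r (B' \ X ∪ C) X :=
      h'.span_le fun e he => cl_con.2 (h.cl_mono (by grind) (b2 e (mem_sdiff.1 he).1))
    have k2 := h'.mono (X := X ∪ T) (Y := S \ (B' \ X) ∪ T) (by grind)
    obtain ⟨T0, T', t1, t2, t3, t4, t5, t6, t7⟩ := port_exch h' i4 (T := T)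
      (by grind [disjoint_left]) (by unfold Ind loc at *; omega)
    have i5 := h.ind_sub i3 (X := B' \ X ∪ C) (by grind)
    refine ⟨C ∪ T0, T', by grind, t2, by grind [disjoint_left], t4.trans x2, ?_,
      fun t ht => h.cl_mono (by grind) (cl_con.1 (t6 t ht)), ?_⟩
    · exact h.ind_sub (h.ind_union i5 t5) (by grind)
    · exact h.ind_sub (h.ind_union i5 t7) (by grind)
  · left
    push Not at c
    obtain ⟨L', l1, l2⟩ := c
    obtain ⟨L, l3, rfl⟩ := subset_image_iff.1 l1
    rw [card_image_of_injective _ (Option.some_injective _)] at l2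
    obtain ⟨Z, z1, z2, z3⟩ := g2 ((W.biUnion B).filter fun x => l x ∉ L.image some)
    have e : W.biUnion B \ (W.biUnion B).filter (fun x => l x ∉ L.image some) = L.biUnion B := by
      ext x
      simp only [mem_sdiff, mem_filter, mem_biUnion, not_and, not_not]
      constructor
      · rintro ⟨⟨a, ha, k⟩, k'⟩
        have := k' ⟨a, ha, k⟩
        rw [hl x a ha k] at this
        exact ⟨a, by simpa using this, k⟩
      · rintro ⟨a, ha, k⟩
        exact ⟨⟨a, l3 ha, k⟩, fun _ => hl x a (l3 ha) k ▸ mem_image_of_mem _ ha⟩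
    have s4 : L.biUnion F ⊆ W.biUnion F := biUnion_subset_biUnion_of_subset_left _ l3
    rw [e, ← port_lam h (s1 L l3) (s4.trans z1) (z2.trans sdiff_subset)
      (h.ind_sub hi (biUnion_subset_biUnion_of_subset_left _ l3)) (s3 L l3)] at z3
    have n := hg.nonneg ((W.biUnion B).filter fun x => l x ∉ L.image some)
    refine ⟨L, l3, by omega, fun k => ?_⟩
    have := k (Z \ L.biUnion F) (fun x hx => by
      obtain ⟨a, ha, k⟩ := mem_biUnion.1 hx
      obtain ⟨a1, a2⟩ := mem_sdiff.1 ha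
      refine mem_sdiff.2 ⟨z1 (mem_biUnion.2 ⟨a, a1, k⟩), fun k' => ?_⟩
      obtain ⟨b, hb, k'⟩ := mem_biUnion.1 k'
      exact disjoint_left.1 (pd a b fun e => a2 (e ▸ hb)) k k') (fun x hx => by
      obtain ⟨x1, x2⟩ := mem_sdiff.1 hx
      obtain ⟨x3, x4⟩ := mem_sdiff.1 (z2 x1)
      exact mem_sdiff.2 ⟨mem_sdiff.2 ⟨x3, x2⟩, x4⟩)
    omega

end Pool.Agent.Lib.MP_a4b0c4_co.J
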