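import Pool.Agent.Lib.MP_a4b0c4_co.JGrow1
import Pool.Agent.Lib.MP_a4b0c4_co.JPort

set_option autoImplicit false
set_option linter.unusedSectionVars false
set_option linter.unusedVariables false

open Finset

namespace Pool.Agent.Lib.MP_a4b0c4_co.J

variable {α ι : Type} [DecidableEq α] [DecidableEq ι] {r r' : Finset α → ℤ} {n j m γ : ℕ}

lemma Skew.cg {s : Finset ι} {A : ι → Finset α} (k : Skew r s A)
    (e : ∀ Y ⊆ s.biUnion A, r Y = r' Y) : Skew r' s A := by
  rw [Skew, ← e _ (Subset.refl _), k]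
  exact sum_congr rfl fun i hi => e _ (subset_biUnion_of_mem A hi)

lemma con_cg {E C Y : Finset α} (e : ∀ Y ⊆ E, r Y = r' Y) (hC : C ⊆ E) (hY : Y ⊆ E) :
    con r C Y = con r' C Y := by
  simp only [con, e _ hC, e _ (union_subset hY hC)]

lemma Real.mono {E E' X X' : Finset α} (hE : E ⊆ E') (hX : X ⊆ X') (k : Real r E X j m) :
    Real r E' X' j m := by
  obtain ⟨C, N, a1, a2, a3, a4⟩ := k
  exact ⟨C, N, a1.trans hE, a2, fun a => ⟨(a3 a).1.trans hX, (a3 a).2⟩, a4⟩

lemma Real.of_con {E K X : Finset α} (hK : K ⊆ E) (k : Real (con r K) (E \ K) (X ∩ (E \ K)) j m) :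
    Real r E (X ∩ E) j m := by
  obtain ⟨C, N, a1, a2, a3, a4⟩ := k
  rw [con_con] at a3 a4
  refine ⟨K ∪ C, N, union_subset hK (a1.trans sdiff_subset), a2, fun a => ⟨(a3 a).1.trans
    (inter_subset_inter_left sdiff_subset), (a3 a).2.1, disjoint_union_right.2 ⟨?_, (a3 a).2.2.1⟩,
    (a3 a).2.2.2⟩, a4⟩
  exact (subset_sdiff.1 ((a3 a).1.trans inter_subset_right)).2

lemma Real.cg {E X : Finset α} (e : ∀ Y ⊆ E, r Y = r' Y) (hX : X ⊆ E) (k : Real r E X j m) :
    Real r' E X j m := by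
  obtain ⟨C, N, a1, a2, a3, a4⟩ := k
  exact ⟨C, N, a1, a2, fun a => ⟨(a3 a).1, (a3 a).2.1, (a3 a).2.2.1, (a3 a).2.2.2.congr
    fun Y hY => con_cg e a1 (hY.trans ((a3 a).1.trans hX))⟩, a4.cg fun Y hY =>
      con_cg e a1 (hY.trans (biUnion_subset.2 fun a _ => (a3 a).1.trans hX))⟩

/-- dual view of skew clusters -/
lemma gw_dual [Fintype ι] (h : Rk r) {E C : Finset α} {N : ι → Finset α} (hC : C ⊆ E)
    (hN : ∀ a, N a ⊆ E \ C) (pd : PD N) (sk : Skew (con r C) univ N) :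
    (∀ a, ∀ Y ⊆ N a, con (dual r E) (E \ (C ∪ univ.biUnion N)) Y = dual (con r C) (N a) Y) ∧
      Skew (con (dual r E) (E \ (C ∪ univ.biUnion N))) univ N := by
  obtain ⟨a1, a2⟩ := dual_skew (h.con C) pd sk
  have e := fun Y (hY : Y ⊆ univ.biUnion N) =>
    dual_con h hC (biUnion_subset.2 fun a _ => hN a) hY
  exact ⟨fun a Y hY => by rw [← e Y (hY.trans (subset_biUnion_of_mem N (mem_univ a))), a1 a Y hY],
    a2.cg e⟩

lemma Real.dual (h : Rk r) {E X : Finset α} (hX : X ⊆ E) (k : Real r E X j m) :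
    Real (dual r E) E X j m := by
  obtain ⟨C, N, a1, a2, a3, a4⟩ := k
  obtain ⟨b1, b2⟩ := gw_dual h a1
    (fun a => subset_sdiff.2 ⟨(a3 a).1.trans hX, (a3 a).2.2.1⟩) a2 a4
  refine ⟨_, N, sdiff_subset, a2, fun a => ⟨(a3 a).1, (a3 a).2.1, ?_,
    ((h.con C).cntd_dual (a3 a).2.2.2).congr fun Y hY => (b1 a Y hY).symm⟩, b2⟩
  exact disjoint_sdiff.mono_left ((subset_biUnion_of_mem N (mem_univ a)).trans subset_union_right)

lemma Real.of_dual (h : Rk r) {E X : Finset α} (hX : X ⊆ E) (k : Real (J.dual r E) E X j m) :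
    Real r E X j m := (k.dual (h.dual E) hX).cg (fun Y hY => dual_dual h hY) hX

/-- a cluster N with its connecting set D and a basis B -/
structure GH (r : Finset α → ℤ) (X : Finset α) (j : ℕ) (N D B : Finset α) : Prop where
  nx : N ⊆ X
  cd : N.card = j
  dj : Disjoint N D
  db : D ⊆ B
  bf : B ⊆ N ∪ D
  ind : Ind r B
  sp : ∀ e ∈ N ∪ D, Cl r B e
  cn : Cntd (con r D) N
  ncl : ∀ e ∈ D, Cl r ((N ∪ D).erase e) e

lemma cl_cg {E A : Finset α} {x : α} (e : ∀ Y ⊆ E, r Y = r' Y) (hA : A ⊆ E) (hx : x ∈ E)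
    (k : Cl r A x) : Cl r' A x := by
  rwa [Cl, ← e _ hA, ← e _ (insert_subset hx hA)]

lemma GH.cg {X N D B : Finset α} (k : GH r X j N D B) (e : ∀ Y ⊆ N ∪ D, r Y = r' Y) :
    GH r' X j N D B :=
  ⟨k.nx, k.cd, k.dj, k.db, k.bf, by rw [Ind, ← e _ k.bf]; exact k.ind,
    fun x hx => cl_cg e k.bf hx (k.sp x hx), k.cn.congr fun Y hY =>
      con_cg e subset_union_right (hY.trans subset_union_left),
    fun x hx => cl_cg e (erase_subset _ _) (mem_union_right _ hx) (k.ncl x hx)⟩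

lemma GH.lift (h : Rk r) {X N D B D' : Finset α} (k : GH r X j N D B) (hD : D' ⊆ D) :
    Cntd (con r D') (N ∪ D \ D') := by
  refine (h.con D').cntd_lift ?_ (h.ind_con sdiff_disjoint ?_) fun e he => ?_
  · rw [con_con, union_sdiff_of_subset hD]; exact k.cn
  · rw [sdiff_union_of_subset hD]; exact h.ind_sub k.ind k.db
  · exact cl_con.2 (h.cl_mono (by grind) (k.ncl e (mem_sdiff.1 he).1))

lemma GH.cntd (h : Rk r) {X N D B : Finset α} (k : GH r X j N D B) : Cntd r (N ∪ D) := by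
  simpa [h.con_empty] using k.lift h (empty_subset D)

lemma port_sig (h : Rk r) {E T X C T' : Finset α} {W V : Finset ι} {N D B : ι → Finset α}
    {y : ι → α} (pd : PD fun a => N a ∪ D a)
    (hW : ∀ a ∈ W, GH r X j (N a) (D a) (B a) ∧ N a ∪ D a ⊆ E \ T) (hT : T ⊆ X ∩ E)
    (hV : V ⊆ W) (cV : V.card = γ) (hy : ∀ a ∈ V, y a ∈ B a)
    (hC : C ⊆ E \ W.biUnion fun a => N a ∪ D a) (hT' : T' ⊆ T) (dC : Disjoint C T')
    (cT : T'.card = γ) (i1 : Ind r (W.biUnion B ∪ C)) (sp : ∀ t ∈ T', Cl r (W.biUnion B ∪ C) t)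
    (i2 : Ind r ((W.biUnion B \ V.image y) ∪ C ∪ T')) :
    ∃ K ⊆ E, Sig (con r K) (E \ K) (X ∩ (E \ K)) j γ := by
  let D' : ι → Finset α := fun a => (D a).erase (y a)
  let K := C ∪ (W \ V).biUnion B ∪ V.biUnion D'
  have BF : ∀ a ∈ W, B a ⊆ N a ∪ D a := fun a k => (hW a k).1.bf
  have DB : ∀ a ∈ W, D' a ⊆ B a := fun a k => (erase_subset _ _).trans (hW a k).1.db
  have Kc : ∀ x, x ∈ K ↔ x ∈ C ∨ (∃ a ∈ W \ V, x ∈ B a) ∨ ∃ a ∈ V, x ∈ D' a := fun x => by
    simp only [K, mem_union, mem_biUnion, or_assoc]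
  have pe : ∀ {a a' x}, x ∈ N a ∪ D a → x ∈ N a' ∪ D a' → a = a' := fun k k' => by
    by_contra ne; exact disjoint_left.1 (pd _ _ ne) k k'
  have KF : ∀ a ∈ V, ∀ x ∈ N a ∪ D a, x ∈ K → x ∈ D' a := by
    intro a ha x hx k
    rcases (Kc x).1 k with k | ⟨a', k', k⟩ | ⟨a', k', k⟩
    · exact ((mem_sdiff.1 (hC k)).2 (mem_biUnion.2 ⟨a, hV ha, hx⟩)).elim
    · exact ((mem_sdiff.1 k').2 (pe hx (BF a' (mem_sdiff.1 k').1 k) ▸ ha)).elim
    · exact (pe hx (BF a' (hV k') (DB a' (hV k') k))) ▸ k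
  have DK : ∀ a ∈ V, D' a ⊆ K := fun a ha x hx => (Kc x).2 (Or.inr (Or.inr ⟨a, ha, hx⟩))
  have K1 : K ⊆ W.biUnion B ∪ C := fun x k => by
    rcases (Kc x).1 k with k | ⟨a', k', k⟩ | ⟨a', k', k⟩
    · exact mem_union_right _ k
    · exact mem_union_left _ (mem_biUnion.2 ⟨a', (mem_sdiff.1 k').1, k⟩)
    · exact mem_union_left _ (mem_biUnion.2 ⟨a', hV k', DB a' (hV k') k⟩)
  have BE : W.biUnion B ⊆ E \ T := biUnion_subset.2 fun a k => (BF a k).trans (hW a k).2
  have KE : K ⊆ E := K1.trans (union_subset (BE.trans sdiff_subset) (hC.trans sdiff_subset))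
  have KT : Disjoint T' K := disjoint_left.2 fun x hx k => by
    rcases mem_union.1 (K1 k) with k | k
    · exact (mem_sdiff.1 (BE k)).2 (hT' hx)
    · exact disjoint_left.1 dC k hx
  have Ky : ∀ a ∈ V, y a ∉ K := fun a ha k => by
    simpa [D'] using KF a ha _ (BF a (hV ha) (hy a ha)) k
  have r2 : ∀ a ∈ V, ∀ Y ⊆ N a ∪ D a, con r (D' a) Y = con r K Y := by
    intro a ha Y hY
    have i : Ind (con r (B a)) (K \ (N a ∪ D a)) := h.ind_con
      (sdiff_disjoint.mono_right (BF a (hV ha))) (h.ind_sub i1 (union_subset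
        (sdiff_subset.trans K1) ((subset_biUnion_of_mem B (hV ha)).trans subset_union_left)))
    have e : K = K \ (N a ∪ D a) ∪ D' a := by
      have := KF a ha; have := DK a ha; grind
    have DF := (DB a (hV ha)).trans (BF a (hV ha))
    rw [e, ← con_con]
    exact con_cg (E := N a ∪ D a)
      (fun Y hY => (h.con_of_ind' i fun x hx => (hW a (hV ha)).1.sp x (hY hx)).symm) DF hY
  let B' : ι → Finset α := fun a => B a \ D' a
  have U1 : ∀ x ∈ W.biUnion B ∪ C, x ∈ V.biUnion B' ∪ K := fun x hx => by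
    rcases mem_union.1 hx with k | k
    · obtain ⟨a, ha, k⟩ := mem_biUnion.1 k
      by_cases c : a ∈ V
      · by_cases c' : x ∈ D' a
        · exact mem_union_right _ (DK a c c')
        · exact mem_union_left _ (mem_biUnion.2 ⟨a, c, mem_sdiff.2 ⟨k, c'⟩⟩)
      · exact mem_union_right _ ((Kc x).2 (Or.inr (Or.inl ⟨a, mem_sdiff.2 ⟨ha, c⟩, k⟩)))
    · exact mem_union_right _ ((Kc x).2 (Or.inl k))
  have U2 : V.biUnion B' ⊆ W.biUnion B := biUnion_subset.2 fun a ha =>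
    sdiff_subset.trans (subset_biUnion_of_mem B (hV ha))
  have U3 : Disjoint (V.biUnion B') K := disjoint_left.2 fun x hx k => by
    obtain ⟨a, ha, hx⟩ := mem_biUnion.1 hx
    exact (mem_sdiff.1 hx).2 (KF a ha x (BF a (hV ha) (mem_sdiff.1 hx).1) k)
  let φ : Fin γ → ι := fun i => ((V.equivFinOfCardEq cV).symm i).1
  have φi : Function.Injective φ := fun i i' k =>
    (V.equivFinOfCardEq cV).symm.injective (Subtype.ext k)
  have φV : ∀ i, φ i ∈ V := fun i => ((V.equivFinOfCardEq cV).symm i).2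
  have φs : univ.image φ = V := eq_of_subset_of_card_le (image_subset_iff.2 fun i _ => φV i)
    (by rw [card_image_of_injective _ φi]; simp [cV])
  have e1 : (univ.biUnion fun i => B' (φ i)) = V.biUnion B' := by rw [← φs, image_biUnion]
  have e2 : (univ.image fun i => y (φ i)) = V.image y := by rw [← φs, image_image]; rfl
  refine ⟨K, KE, fun i => N (φ i) ∪ D (φ i) \ D' (φ i), fun i => B' (φ i), fun i => N (φ i),
    fun i => y (φ i), T', fun i i' k => (pd _ _ (φi.ne k)).mono (by grind) (by grind),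
    fun i => ?_, ?_, ?_, cT, ?_, fun t ht => ?_, ?_⟩
  · obtain ⟨g, gE⟩ := hW _ (hV (φV i))
    have HK : N (φ i) ∪ D (φ i) \ D' (φ i) ⊆ E \ K := fun x hx => by
      have hx' : x ∈ N (φ i) ∪ D (φ i) := by grind
      refine mem_sdiff.2 ⟨(mem_sdiff.1 (gE hx')).1, fun k => ?_⟩
      have := KF _ (φV i) x hx' k
      have := disjoint_left.1 g.dj
      grind
    refine ⟨subset_union_left, subset_inter g.nx (subset_union_left.trans HK), g.cd, ?_,
      subset_sdiff.2 ⟨HK, ((subset_sdiff.1 gE).2.mono (by grind) hT')⟩,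
      (g.lift h (erase_subset _ _)).congr fun Y hY => r2 _ (φV i) Y (by grind), ?_,
      fun e he => cl_con.2 (h.cl_mono ?_ (g.sp e (by grind))), ?_⟩
    · refine (card_union_le _ _).trans ?_
      rw [g.cd]
      exact Nat.add_le_add_left ((card_le_card (t := {y (φ i)}) (by grind)).trans (by simp)) _
    · have := g.bf; grind
    · have := DK _ (φV i); grind
    · exact mem_sdiff.2 ⟨hy _ (φV i), by simp [D']⟩
  · exact subset_inter (hT'.trans (hT.trans inter_subset_left))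
      (subset_sdiff.2 ⟨hT'.trans (hT.trans inter_subset_right), KT⟩)
  · exact subset_sdiff.2 ⟨hT'.trans (hT.trans inter_subset_right), KT⟩
  · rw [e1]
    exact h.ind_con U3 (h.ind_sub i1 (union_subset (U2.trans subset_union_left) K1))
  · rw [e1]
    exact cl_con.2 (h.cl_mono U1 (sp t ht))
  · rw [e1, e2]
    refine h.ind_con (disjoint_union_left.2 ⟨U3.mono_left sdiff_subset, KT⟩) (h.ind_sub i2 ?_)
    refine union_subset (union_subset_union ((sdiff_subset_sdiff U2 (Subset.refl _)).trans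
      subset_union_left) (Subset.refl _)) fun x k => mem_union_left _ ?_
    rcases mem_union.1 (K1 k) with k' | k'
    · refine mem_union_left _ (mem_sdiff.2 ⟨k', fun k'' => ?_⟩)
      obtain ⟨a, ha, rfl⟩ := mem_image.1 k''
      exact Ky a ha k
    · exact mem_union_right _ k'

def G2At (n j m γ : ℕ) : Prop :=
  ∀ (α : Type) [DecidableEq α] (r : Finset α → ℤ) (E X : Finset α),
    Rk r → Free n r E → Sig r E X j γ → Real r E X (j + 1) m

lemma port_step (g2 : G2At n j m γ) (ne : Nonempty α) (h : Rk r) {E T X : Finset α}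
    (hE : Free n r E) {W : Finset ι} {N D B : ι → Finset α} (pd : PD fun a => N a ∪ D a)
    (hW : ∀ a ∈ W, GH r X j (N a) (D a) (B a) ∧ N a ∪ D a ⊆ E \ T) (hT : T ⊆ X ∩ E)
    (sk : Skew r W fun a => N a ∪ D a) :
    (∃ L ⊆ W, L.card < γ ∧ ¬ Conn (con r (L.biUnion fun a => N a ∪ D a))
      (E \ L.biUnion fun a => N a ∪ D a) ((W \ L).biUnion fun a => N a ∪ D a) T γ) ∨
    Real r E (X ∩ E) (j + 1) m := by
  refine (port' α ι r E T W (fun a => N a ∪ D a) B γ (Or.inl ne) h pd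
    (fun a k => ⟨(hW a k).1.bf, (hW a k).2, (hW a k).1.sp⟩) (hT.trans inter_subset_right)
    (h.skew_ind (h.skew_sub sk (Subset.refl _) fun a k => (hW a k).1.bf)
      fun a k => (hW a k).1.ind)).imp_right ?_
  rintro ⟨V, hV, cV, y, C, T', a1, a2, a3, a4, a5, a6, a7, a8⟩
  obtain ⟨K, hK, s⟩ := port_sig h pd hW hT hV cV a1 a2 a3 a4 a5 a6 a7 a8
  exact (g2 α _ _ _ (h.con K) (hE.con h hK (Subset.refl _)) s).of_con hK

lemma conn_con (h : Rk r) {E S S' T A : Finset α} {k s : ℤ} (c : Conn r E S T (k + s))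
    (hA : A ⊆ E \ T) (rA : r A ≤ s) (hS : S ⊆ S' ∪ A) : Conn (con r A) (E \ A) S' T k := by
  intro Z z1 z2
  have a1 := c (Z ∪ A) (by grind) (by grind)
  have a2 := h.mono (X := E \ (Z ∪ A)) (Y := (E \ A) \ Z ∪ A) (by grind)
  simp only [lam, con] at a1 ⊢
  rw [sdiff_union_of_subset (hA.trans sdiff_subset)]
  linarith

lemma grow_A [Fintype ι] (g2 : G2At n j m γ) (ne : Nonempty α) (h : Rk r) {E C T X : Finset α}
    (hE : Free n r E) (hX : X ⊆ E) {N : ι → Finset α} (hC : C ⊆ E) (pd : PD N)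
    (hN : ∀ a, N a ⊆ X ∧ (N a).card = j ∧ Disjoint (N a) C ∧ Cntd (con r C) (N a))
    (sk : Skew (con r C) univ N) {W : Finset ι} (hT : T ⊆ univ.biUnion N)
    (dT : ∀ a ∈ W, Disjoint (N a) T)
    (cn : Conn r (C ∪ univ.biUnion N) (W.biUnion N) T (γ + (γ * j : ℕ))) :
    Real r E X (j + 1) m := by
  have NE : ∀ a, N a ⊆ C ∪ univ.biUnion N := fun a =>
    (subset_biUnion_of_mem N (mem_univ a)).trans subset_union_right
  have UX : univ.biUnion N ⊆ X := biUnion_subset.2 fun a _ => (hN a).1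
  have E0 : C ∪ univ.biUnion N ⊆ E := union_subset hC (UX.trans hX)
  have hP := h.dual (C ∪ univ.biUnion N)
  obtain ⟨b1, b2⟩ := gw_dual h (subset_union_left (s₂ := univ.biUnion N))
    (fun a => subset_sdiff.2 ⟨NE a, (hN a).2.2.1⟩) pd sk
  rw [Finset.sdiff_self, hP.con_empty] at b1 b2
  choose B c1 c2 c3 c4 using fun a => hP.basis (N a)
  have := port_step g2 ne hP ((hE.mono h E0).dual h) (T := T) (X := X) (W := W) (N := N)
    (D := fun _ => ∅) (B := B) (by simpa using pd) (fun a ha => ⟨⟨(hN a).1, (hN a).2.1,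
      by simp, by simp, by simpa using c1 a, c2 a, by simpa using c3 a, ?_, by simp⟩,
      by simpa using subset_sdiff.2 ⟨NE a, dT a ha⟩⟩)
    (subset_inter (hT.trans UX) (hT.trans subset_union_right))
    (by simpa using hP.skew_sub b2 (subset_univ W) fun a _ => Subset.refl _)
  · rcases this with ⟨L, l1, l2, l3⟩ | k
    · simp only [union_empty] at l3
      refine (l3 (conn_con hP (cn.dual h) (biUnion_subset.2 fun a ha =>
        subset_sdiff.2 ⟨NE a, dT a (l1 ha)⟩) ((hP.le_card _).trans ?_) ?_)).elim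
      · exact_mod_cast (card_biUnion_le_card_mul _ _ j fun a _ => (hN a).2.1.le).trans
          (Nat.mul_le_mul_right _ l2.le)
      · rw [← union_biUnion, sdiff_union_of_subset l1]
    · exact (k.of_dual h inter_subset_right).mono E0 inter_subset_left
  · rw [hP.con_empty]
    exact ((h.con C).cntd_dual (hN a).2.2.2).congr fun Y hY => (b1 a Y hY).symm

end Pool.Agent.Lib.MP_a4b0c4_co.J
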