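import Pool.Agent.Lib.MP_a4b0c4_co.JGrow2

set_option autoImplicit false
set_option linter.unusedSectionVars false
set_option linter.unusedVariables false

open Finset

namespace Pool.Agent.Lib.MP_a4b0c4_co.J

variable {α ι : Type} [DecidableEq α] [DecidableEq ι] {r : Finset α → ℤ} {n j m γ : ℕ}

lemma gw_seq (t : ℕ) : ∀ (W : Finset ι) (P : Fin t → Finset ι → Finset ι → Prop),
    (∀ l, ∀ V ⊆ W, ∃ L ⊆ V, L.card ≤ γ ∧ P l L (V \ L)) →
    (∀ l L V V', V' ⊆ V → P l L V → P l L V') →
    ∃ (L : Fin t → Finset ι) (S : Finset ι), S ⊆ W ∧ (∀ l l', ∀ a ∈ L l, a ∈ L l' → l = l') ∧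
      (∀ l, L l ⊆ W \ S ∧ (L l).card ≤ γ ∧ P l (L l) S) ∧ W.card ≤ S.card + t * γ := by
  induction t with
  | zero => exact fun W P _ _ => ⟨Fin.elim0, W, Subset.refl _, fun l => l.elim0,
      fun l => l.elim0, by simp⟩
  | succ t ih =>
    intro W P h1 h2
    obtain ⟨L0, a1, a2, a3⟩ := h1 0 W (Subset.refl _)
    obtain ⟨L, S, b1, b2, b3, b4⟩ := ih (W \ L0) (fun l => P l.succ)
      (fun l V hV => h1 _ V (hV.trans sdiff_subset)) fun l => h2 _
    have d : ∀ l, ∀ a ∈ L l, a ∉ L0 := fun l a k => by have := (b3 l).1 k; grind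
    refine ⟨Fin.cons L0 L, S, b1.trans sdiff_subset, fun l l' a k k' => ?_, fun l => ?_, ?_⟩
    · induction l using Fin.cases <;> induction l' using Fin.cases
      · rfl
      · exact (d _ a k' k).elim
      · exact (d _ a k k').elim
      · exact congrArg _ (b2 _ _ a k k')
    · induction l using Fin.cases with
      | zero => exact ⟨by simp only [Fin.cons_zero]; grind, a2, h2 _ _ _ _ b1 a3⟩
      | succ l => exact ⟨(b3 l).1.trans (sdiff_subset_sdiff sdiff_subset (Subset.refl _)), (b3 l).2⟩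
    · have := card_le_card_sdiff_add_card (s := W) (t := L0)
      rw [add_mul]; omega

lemma gw_hub (h : Rk r) {M D0 : Finset α} (d : Disjoint M D0) : ∃ D ⊆ D0,
    (∀ X ⊆ M, con r D X = con r D0 X) ∧ ∀ e ∈ D, Cl r ((M ∪ D).erase e) e := by
  obtain ⟨V, v1, v2, v3, v4⟩ := gw_clean h (M ∪ D0) M
  have := disjoint_left.1 d
  refine ⟨D0 ∩ V, inter_subset_left, fun X hX => v3 _ subset_union_right _ (by grind),
    fun e he => ?_⟩
  rw [show M ∪ D0 ∩ V = V by grind]
  exact v4 e (by grind)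

lemma gw_null (h : Rk r) {A Z : Finset α} {e : α} (hA : A ⊆ Z) (he : e ∈ A)
    (s : r A + r (Z \ A) ≤ r Z) (k : Cl r (Z.erase e) e) : r A + 1 ≤ A.card := by
  rw [Cl, insert_erase (hA he)] at k
  have a1 := h.add_card' (X := Z \ A) (Y := A.erase e) (Z := Z.erase e) (by grind)
  have a2 := card_erase_add_one he
  omega

lemma gw_super (h : Rk r) (N : ι → Finset α) (W : Finset ι) :
    ∑ a ∈ W, con r ((W.erase a).biUnion N) (N a) ≤ r (W.biUnion N) := by
  induction W using Finset.induction_on with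
  | empty => simp [h.emp]
  | insert a W ha ih =>
    rw [sum_insert ha, erase_insert ha, biUnion_insert]
    have : ∑ x ∈ W, con r (((insert a W).erase x).biUnion N) (N x) ≤
        ∑ x ∈ W, con r ((W.erase x).biUnion N) (N x) := sum_le_sum fun x _ => h.con_anti
      (biUnion_subset_biUnion_of_subset_left _ (erase_subset_erase _ (subset_insert _ _))) _
    have e : con r (W.biUnion N) (N a) = r (N a ∪ W.biUnion N) - r (W.biUnion N) := rfl
    linarith

lemma gw_def [Fintype ι] (h : Rk r) {C U : Finset α} {N : ι → Finset α} (pd : PD N)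
    (dC : ∀ a, Disjoint (N a) C) (sk : Skew (con r C) univ N) {W : Finset ι}
    (h1 : W.biUnion N ⊆ U) (h2 : U ⊆ (C ∪ univ.biUnion N) \ (univ \ W).biUnion N)
    (h3 : lam r (C ∪ univ.biUnion N) U < W.card) :
    ∃ a ∈ W, ∀ O, U \ N a ⊆ O → O ⊆ (C ∪ univ.biUnion N) \ N a →
      ∀ X ⊆ N a, con r O X = con r C X := by
  have u : univ.biUnion N = W.biUnion N ∪ (univ \ W).biUnion N := by
    rw [← union_biUnion, union_sdiff_of_subset (subset_univ W)]
  have ex : ∃ a ∈ W, con r (U \ N a) (N a) ≤ con r C (N a) := by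
    by_contra k
    push Not at k
    have a1 : ∑ a ∈ W, (con r C (N a) + 1) ≤
        ∑ a ∈ W, con (con r (U \ W.biUnion N)) ((W.erase a).biUnion N) (N a) :=
      sum_le_sum fun a ha => (k a ha).trans_le (by
        rw [con_con]
        exact h.con_anti (union_subset (sdiff_subset_sdiff (Subset.refl _)
          (subset_biUnion_of_mem N ha)) (subset_sdiff.2
            ⟨(biUnion_subset_biUnion_of_subset_left _ (erase_subset _ _)).trans h1,
            (pd.ot a).symm.mono_left (ot_sub' N (notMem_erase _ _))⟩)) _)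
    have a2 := gw_super (h.con (U \ W.biUnion N)) N W
    have a3 : con r C (W.biUnion N) = _ :=
      (h.con C).skew_sub sk (subset_univ W) fun a _ => Subset.refl _
    have a4 := (h.con C).skew_sep sk (subset_univ W) (subset_univ (univ \ W)) disjoint_sdiff
    have a5 := h.union_le (X := U \ W.biUnion N) (Y := (C ∪ univ.biUnion N) \ U)
      (Z := (univ \ W).biUnion N ∪ C) (by
        have : Disjoint (W.biUnion N) C := (disjoint_biUnion_left _ _ _).2 fun a _ => dC a
        have := disjoint_left.1 this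
        rw [u] at h2 ⊢
        grind)
    have a6 := (h.con C).union_le (Subset.refl (W.biUnion N ∪ (univ \ W).biUnion N))
    rw [sum_add_distrib, ← a3] at a1
    rw [← u] at a4 a6
    simp only [con, lam, sum_const, nsmul_eq_mul, mul_one] at a1 a2 a4 a6 h3
    rw [union_sdiff_of_subset h1] at a2
    rw [union_comm (univ.biUnion N) C] at a4 a6
    linarith
  obtain ⟨a, ha, k⟩ := ex
  refine ⟨a, ha, fun O o1 o2 X hX => ?_⟩
  have e : ∀ X ⊆ N a, con r ((C ∪ univ.biUnion N) \ N a) X = con r C X := fun X hX => by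
    rw [← (h.con C).skew_con sk (mem_univ a) hX (Subset.refl _), con_con]
    have u' : univ.biUnion N = N a ∪ (univ.erase a).biUnion N := by
      rw [← biUnion_insert, insert_erase (mem_univ a)]
    have := disjoint_left.1 (dC a)
    have := disjoint_left.1 (pd.ot a)
    rw [u', show (C ∪ (N a ∪ (univ.erase a).biUnion N)) \ N a = C ∪ (univ.erase a).biUnion N by
      grind]
  have b1 := h.con_eq_sub (o1.trans o2) hX (k.trans (e _ (Subset.refl _)).ge)
  have b2 := h.con_anti o1 X
  have b3 := h.con_anti o2 X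
  rw [← e X hX]
  omega

lemma gw_card {M : ι → Finset α} (pd : PD M) (hM : ∀ a, 1 ≤ (M a).card) (I : Finset ι) :
    I.card ≤ (I.biUnion M).card := by
  rw [card_biUnion fun a _ b _ k => pd a b k, card_eq_sum_ones I]
  exact sum_le_sum fun a _ => hM a

/-- nullity of the part inside an independent set -/
lemma gw_loc (h : Rk r) {C Z O A : Finset α} {β : ℤ} (iC : Ind r C) (lc : loc r Z O ≤ β)
    (h1 : A ⊆ C) (h2 : A ⊆ Z) : (A.card : ℤ) ≤ con r O A + β := by
  have a1 := (h.loc_mono h2 (Subset.refl O)).trans lc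
  have a2 : r A = _ := h.ind_sub iC h1
  simp only [loc, con] at a1 ⊢
  linarith

theorem grow_B (kl : StK) (eng : StEngine) (g2 : G2At n j m γ) (hj : 1 ≤ j) (β s : ℕ) :
    ∃ N : ℕ, ∀ (α : Type) [DecidableEq α] (r : Finset α → ℤ) (E X E1 C : Finset α)
      (U M : Fin N → Finset α), Nonempty α → Rk r → Free n r E → X ⊆ E → WL r E X → E1 ⊆ E →
      PD U → Ind r C → (∀ a, M a ⊆ U a ∧ U a ⊆ E1 ∧ lam r E1 (U a) ≤ β) →
      (∀ a, M a ⊆ X ∧ (M a).card = j ∧ (U a \ C).card ≤ s ∧
        ∀ O, U a \ M a ⊆ O → O ⊆ E1 \ M a → Cntd (con r O) (M a)) → Real r E X (j + 1) m := by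
  choose k t eng using fun b => eng n ((b + γ) * (s + β + j + 1)) (γ + b * β)
  obtain ⟨N, bm, kl⟩ := kl β fun b => (3 + t b) * (b + k b + t b * γ)
  refine ⟨N, fun α _ r E X E1 C U M ne h hE hX wl hE1 pd iC hU hM => ?_⟩
  obtain ⟨b, -, u, Z, ui, fm, hZ⟩ := gw_fam kl h hE1 pd hU
  have pc : ∀ a, Pcs (con r (ot Z a)) (Z a) (s + β + j + 1) := by
    intro a
    refine (h.con _).pieces (fun A => A.card - con r (ot Z a) A + (A ∩ M (u a)).card)
      (fun A hA ⟨e, he⟩ sp => ?_) (fun A hA B hB d sp => ?_) (by simp [(h.con _).emp]) ?_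
    · have a1 := (h.con (ot Z a)).le_card A
      by_cases c : e ∈ M (u a)
      · have := card_pos.2 ⟨e, mem_inter.2 ⟨he, c⟩⟩
        omega
      · have := gw_null (h.con _) hA he sp ((hZ a).2.2.1 e (mem_sdiff.2 ⟨hA he, c⟩))
        omega
    · have a1 := (h.con (ot Z a)).union_le (Subset.refl (A ∪ B))
      rw [union_inter_distrib_right, card_union_of_disjoint d,
        card_union_of_disjoint (d.mono inter_subset_left inter_subset_left)]
      push_cast
      omega
    · have a1 := gw_loc h iC (fm.lc a) (inter_subset_right (s₁ := Z a)) inter_subset_left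
      have a2 := (h.con (ot Z a)).mono (inter_subset_left (s₁ := Z a) (s₂ := C))
      have a3 := card_inter_add_card_sdiff (Z a) C
      have a4 := (card_le_card (sdiff_subset_sdiff (hZ a).2.1 (Subset.refl C))).trans
        (hM (u a)).2.2.1
      have a5 := (card_le_card (inter_subset_right (s₁ := Z a))).trans (hM (u a)).2.1.le
      push_cast
      omega
  have ex : ∀ a, ∃ D B, M (u a) ∪ D ⊆ Z a ∧ GH (con r (ot Z a)) X j (M (u a)) D B := by
    intro a
    have hρ := h.con (ot Z a)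
    obtain ⟨O, o1, o2, o3⟩ := (hZ a).2.2.2
    obtain ⟨D0, a1, a2, a3, -⟩ := hρ.basis (Z a \ M (u a))
    obtain ⟨D, b1, b2, b3⟩ := gw_hub hρ (M := M (u a)) (disjoint_sdiff.mono_right a1)
    obtain ⟨B, c1, c2, c3, c4⟩ := hρ.ext (subset_union_right (s₁ := M (u a))) (hρ.ind_sub a2 b1)
    refine ⟨D, B, union_subset (hZ a).1 (b1.trans (a1.trans sdiff_subset)), (hM _).1, (hM _).2.1,
      disjoint_sdiff.mono_right (b1.trans a1), c1, c2, c3, c4,
      ((hM _).2.2.2 O o1 o2).congr fun Y hY => ?_, b3⟩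
    rw [b2 Y hY, hρ.con_congr (fun e he => cl_mem (a1 he)) a3, o3 Y hY]
  choose D B FZ gh using ex
  obtain ⟨Rw, w1, w2⟩ := gw_rows (ι := Fin (b + (3 + t b) * (b + k b + t b * γ)))
    (Fin 3 ⊕ Fin (t b)) (w := b + k b + t b * γ) (by simp)
  choose J j1 j2 using fun i => exists_subset_card_eq (s := Rw i) (n := b) (by rw [w2]; omega)
  have nr : ∀ {i i' a}, a ∈ Rw i → a ∈ Rw i' → i = i' := fun k k' => by
    by_contra c; exact disjoint_left.1 (w1 _ _ c) k k'
  have MZ : ∀ a, M (u a) ⊆ Z a := fun a => (hZ a).1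
  have pF : PD fun a => M (u a) ∪ D a := fun a a' k => (fm.pd a a' k).mono (FZ a) (FZ a')
  let T := (Rw (Sum.inl 1)).biUnion fun a => M (u a)
  have TX : T ⊆ X := biUnion_subset.2 fun a _ => (hM _).1
  have dj : ∀ {G : Fin _ → Finset α} {I : Finset _} {a}, (∀ a, G a ⊆ Z a) → a ∉ I →
      Disjoint (Z a) (I.biUnion G) := fun hG k =>
    (fm.pd.ot _).mono_right ((biUnion_mono fun a _ => hG a).trans (ot_sub' Z k))
  by_contra hR
  obtain ⟨L, S, s1, s2, s3, s4⟩ := gw_seq (γ := γ) (t b) (Rw (Sum.inl 2)) (fun l L V =>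
    ¬ Conn (con (con r ((J (Sum.inr l)).biUnion Z)) (L.biUnion fun a => M (u a) ∪ D a))
      ((E \ (J (Sum.inr l)).biUnion Z) \ L.biUnion fun a => M (u a) ∪ D a)
      (V.biUnion fun a => M (u a) ∪ D a) T γ) (fun l V hV => by
      have nJ : ∀ a ∈ V, a ∉ J (Sum.inr l) := fun a k k' => by simpa using nr (hV k) (j1 _ k')
      have sE := biUnion_subset.2 fun a (_ : a ∈ J (Sum.inr l)) => fm.sub a
      rcases port_step g2 ne (h.con _) (hE.con h sE (Subset.refl _)) (T := T) (X := X) (W := V)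
        (B := B) pF (fun a ha => ⟨(gh a).cg fun Y hY =>
          (fm.ks.cg h (j2 _).ge (nJ a ha) (hY.trans (FZ a))).symm, (FZ a).trans (subset_sdiff.2
            ⟨subset_sdiff.2 ⟨fm.sub a, dj (fun _ => Subset.refl _) (nJ a ha)⟩,
              dj MZ fun k => by simpa using nr (hV ha) k⟩)⟩)
        (subset_inter TX (biUnion_subset.2 fun a ha => (MZ a).trans (subset_sdiff.2 ⟨fm.sub a,
          dj (fun _ => Subset.refl _) fun k => by simpa using nr ha (j1 _ k)⟩)))
        (fm.ks.skew h (j2 _).ge (φ := id) (Set.injOn_id _) nJ fun a _ => FZ a) with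
        ⟨L, l1, l2, l3⟩ | k
      · exact ⟨L, l1, l2.le, l3⟩
      · exact (hR ((Real.of_con sE k).mono (Subset.refl _) inter_subset_left)).elim)
    fun l L V V' hV k c => k (c.mono (biUnion_subset_biUnion_of_subset_left _ hV) (Subset.refl _))
  have LR : ∀ l, ∀ a ∈ L l, a ∈ Rw (Sum.inl 2) ∧ a ∉ S := fun l a k => mem_sdiff.1 ((s3 l).1 k)
  have pM : PD fun a => M (u a) := fun a a' k => (fm.pd a a' k).mono (MZ a) (MZ a')
  have cM : ∀ a, 1 ≤ (M (u a)).card := fun a => (hM _).2.1.symm ▸ hj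
  refine eng_fam2 (eng b) h hE fm pc (F := fun a => M (u a) ∪ D a)
    (fun a => ⟨FZ a, (gh a).cntd (h.con _)⟩) (j2 (Sum.inl 0)) (A := fun l => J (Sum.inr l))
    (L := L) (S := S.biUnion fun a => M (u a) ∪ D a) (T := T) (fun l l' a k k' => ?_)
    (fun l a k k' => ?_) (fun l a k k' => ?_) (fun l => by rw [j2]; have := (s3 l).2.1; omega)
    (biUnion_subset.2 fun a _ => (FZ a).trans (fm.sub a)) (TX.trans hX)
    ((disjoint_biUnion_left _ _ _).2 fun a ha => (dj MZ fun k => ?_).mono_left (FZ a))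
    (fun l a k => disjoint_union_right.2 ⟨dj FZ fun k' => ?_, dj MZ fun k' => ?_⟩)
    (wl.conn ?_ ?_) fun l => (s3 l).2.2
  · rcases mem_union.1 k with k | k <;> rcases mem_union.1 k' with k' | k'
    · simpa using nr (j1 _ k) (j1 _ k')
    · simpa using nr (j1 _ k) (LR _ a k').1
    · simpa using nr (j1 _ k') (LR _ a k).1
    · exact s2 _ _ a k k'
  · simpa using nr (j1 _ k) (LR _ a k').1
  · rcases mem_union.1 k with k | k
    · simpa using nr (j1 _ k) (j1 _ k')
    · simpa using nr (j1 _ k') (LR _ a k).1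
  · simpa using nr (s1 ha) k
  · rcases mem_union.1 k with k | k
    · simpa using nr (j1 _ k) (s1 k')
    · exact (LR _ a k).2 k'
  · rcases mem_union.1 k with k | k
    · simpa using nr (j1 _ k) k'
    · simpa using nr (LR _ a k).1 k'
  · have a1 := gw_card pM cM S
    have a2 := card_le_card (s := S.biUnion fun a => M (u a))
      (t := (S.biUnion fun a => M (u a) ∪ D a) ∩ X) (subset_inter
        (biUnion_mono fun a _ => subset_union_left) (biUnion_subset.2 fun a _ => (hM _).1))
    rw [w2] at s4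
    omega
  · have a1 := gw_card pM cM (Rw (Sum.inl 1))
    rw [w2] at a1
    rw [inter_eq_left.2 TX]
    exact le_trans (by omega) a1

theorem grow_step (kl : StK) (eng : StEngine) (g2 : G2At n j m γ) (hj : 1 ≤ j) :
    ∃ M : ℕ, ∀ (α : Type) [DecidableEq α] (r : Finset α → ℤ) (E X : Finset α), Nonempty α →
      Rk r → Free n r E → X ⊆ E → WL r E X → Real r E X j M → Real r E X (j + 1) m := by
  obtain ⟨K, gb⟩ := grow_B kl eng g2 hj (γ + γ * j) ((γ + γ * j) * j)
  refine ⟨K * (γ + γ * j), fun α _ r E X ne h hE hX wl ⟨C0, N, a1, pd, a3, sk⟩ => ?_⟩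
  obtain ⟨C, c1, iC, c3, -⟩ := h.basis C0
  have hC := c1.trans a1
  rw [← h.con_congr (fun e he => cl_mem (c1 he)) c3] at a3 sk
  replace a3 : ∀ a, N a ⊆ X ∧ (N a).card = j ∧ Disjoint (N a) C ∧ Cntd (con r C) (N a) :=
    fun a => ⟨(a3 a).1, (a3 a).2.1, (a3 a).2.2.1.mono_right c1, (a3 a).2.2.2⟩
  obtain ⟨W, w1, w2⟩ := gw_rows (ι := Fin (K * (γ + γ * j))) (Fin K) (w := γ + γ * j) (by simp)
  have dW : ∀ i, ∀ a ∈ W i, Disjoint (N a) ((univ \ W i).biUnion N) := fun i a ha =>
    (pd.ot a).mono_right (ot_sub' N (by simp [ha]))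
  by_cases c : ∃ i, Conn r (C ∪ univ.biUnion N) ((W i).biUnion N) ((univ \ W i).biUnion N)
      (γ + (γ * j : ℕ))
  · obtain ⟨i, c⟩ := c
    exact grow_A g2 ne h hE hX hC pd a3 sk
      (biUnion_subset_biUnion_of_subset_left _ (subset_univ _)) (dW i) c
  simp only [Conn, not_exists, not_forall, not_le] at c
  choose Y y1 y2 y3 using c
  -- disjoint windows of small order
  have key : ∃ U : Fin K → Finset α, PD U ∧ ∀ i, (W i).biUnion N ⊆ U i ∧
      U i ⊆ (C ∪ univ.biUnion N) \ (univ \ W i).biUnion N ∧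
      lam r (C ∪ univ.biUnion N) (U i) < (W i).card := by
    obtain ⟨U, pU, hU⟩ := gw_isol h (E := C ∪ univ.biUnion N) (N := fun i => (W i).biUnion N)
      (T := fun i => (univ \ W i).biUnion N) (β := γ + (γ * j : ℕ) - 1)
      (fun a b k => biUnion_subset_biUnion_of_subset_left _ (subset_sdiff.2 ⟨subset_univ _,
        w1 a b k⟩)) fun i => ⟨Y i, y1 i, y2 i, by have := y3 i; omega⟩
    exact ⟨U, pU, fun i => ⟨(hU i).1, (hU i).2.1, by
      have := (hU i).2.2
      rw [w2]; push_cast at this ⊢; omega⟩⟩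
  obtain ⟨U, pU, hU⟩ := key
  choose x x1 x2 using fun i => gw_def h pd (fun a => (a3 a).2.2.1) sk (hU i).1 (hU i).2.1
    (hU i).2.2
  refine gb α r E X (C ∪ univ.biUnion N) C U (fun i => N (x i)) ne h hE hX wl
    (union_subset hC (biUnion_subset.2 fun a _ => (a3 a).1.trans hX)) pU iC (fun i =>
      ⟨(subset_biUnion_of_mem N (x1 i)).trans (hU i).1, (hU i).2.1.trans sdiff_subset, ?_⟩)
    fun i => ⟨(a3 _).1, (a3 _).2.1, ?_, fun O o1 o2 =>
      (a3 _).2.2.2.congr fun Y hY => (x2 i O o1 o2 Y hY).symm⟩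
  · have := (hU i).2.2
    rw [w2] at this
    exact this.le
  · refine (card_le_card (t := (W i).biUnion N) fun e he => ?_).trans
      ((card_biUnion_le_card_mul _ _ j fun a _ => (a3 a).2.1.le).trans (by rw [w2]))
    have := (hU i).2.1 (mem_sdiff.1 he).1
    simp only [mem_sdiff, mem_union, mem_biUnion, mem_univ, true_and] at this he ⊢
    grind

theorem grow (g2 : StGrow2) (kl : StK) (eng : StEngine) : StGrow := by
  intro n j
  induction j with
  | zero =>
    exact fun m => ⟨0, fun α _ r E X h _ _ _ _ => ⟨∅, fun _ => ∅, empty_subset _,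
      fun _ _ _ => by simp, fun a => ⟨by simp, by simp, by simp, cntd_empty⟩, by
        rw [Skew, h.con_empty, show (univ.biUnion fun _ : Fin m => (∅ : Finset α)) = ∅ by
          ext; simp]
        simp [h.emp]⟩⟩
  | succ j ih =>
    intro m
    rcases Nat.eq_zero_or_pos j with rfl | hj
    · refine ⟨m + m, fun α _ r E X h hE hX wl hw => ?_⟩
      obtain ⟨Y, y1, y2⟩ := exists_subset_card_eq (s := X) (n := m) (by omega)
      have iY : Ind r Y := by
        have a1 := (wl Y (y1.trans hX)).trans (h.lam_le_rk E Y)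
        have a2 := card_sdiff_add_card_eq_card y1
        rw [inter_eq_right.2 y1] at a1
        rw [h.ind_iff]
        omega
      let φ : Fin m → α := fun i => ((Y.equivFinOfCardEq y2).symm i).1
      have φi : Function.Injective φ := fun i i' k =>
        (Y.equivFinOfCardEq y2).symm.injective (Subtype.ext k)
      have φY : ∀ i, φ i ∈ Y := fun i => ((Y.equivFinOfCardEq y2).symm i).2
      have pd : PD fun i => ({φ i} : Finset α) := fun i i' k => by simpa using φi.ne k
      refine ⟨∅, fun i => {φ i}, empty_subset _, pd,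
        fun a => ⟨by simpa using y1 (φY a), by simp, by simp, cntd_single _⟩, ?_⟩
      rw [h.con_empty]
      exact h.skew_of_ind (h.ind_sub iY (biUnion_subset.2 fun a _ => by simpa using φY a)) pd
    · obtain ⟨γ, g2⟩ := g2 n j m
      obtain ⟨M, st⟩ := grow_step kl eng g2 hj
      obtain ⟨w, ih⟩ := ih M
      refine ⟨w + 1, fun α _ r E X h hE hX wl hw => st α r E X ?_ h hE hX wl
        (ih α r E X h hE hX wl (by omega))⟩
      obtain ⟨x, -⟩ := card_pos.1 (show 0 < X.card by omega)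
      exact ⟨x⟩

end Pool.Agent.Lib.MP_a4b0c4_co.J
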