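import Pool.Agent.Lib.MP_a4b0c4_co.JGrow3

set_option autoImplicit false
set_option linter.unusedSectionVars false
set_option linter.unusedVariables false

open Finset

namespace Pool.Agent.Lib.MP_a4b0c4_co.J

variable {α ι : Type} [DecidableEq α] [DecidableEq ι] {r r' : Finset α → ℤ}

/-- a single hub -/
structure HubAt (r : Finset α → ℤ) (F D : Finset α) (x : α) : Prop where
  dsub : D ⊆ F
  xmem : x ∈ F \ D
  ind : Ind r D
  span : ∀ e ∈ F, Cl r (insert x D) e
  nl : ∀ e ∈ F \ D, ¬ Cl r D e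
  ncl : ∀ e ∈ D, Cl r (F.erase e) e

lemma HubAt.cg {F D : Finset α} {x : α} (k : HubAt r F D x) (e : ∀ Y ⊆ F, r Y = r' Y) :
    HubAt r' F D x :=
  ⟨k.dsub, k.xmem, by rw [Ind, ← e _ k.dsub]; exact k.ind,
    fun y hy => cl_cg e (insert_subset (mem_sdiff.1 k.xmem).1 k.dsub) hy (k.span y hy),
    fun y hy c => k.nl y hy (cl_cg (fun Y hY => (e Y hY).symm) k.dsub (mem_sdiff.1 hy).1 c),
    fun y hy => cl_cg e (erase_subset _ _) (k.dsub hy) (k.ncl y hy)⟩

lemma HubAt.cntd (h : Rk r) {F D : Finset α} {x : α} (k : HubAt r F D x) : Cntd r F := by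
  have e := sdiff_union_of_subset k.dsub
  rw [← e]
  refine h.cntd_lift ((h.con D).cntd_par ⟨?_, fun y hy => ?_⟩) k.ind (by rw [e]; exact k.ncl)
  · have a1 := h.span_le k.span
    have a2 := h.unit x D
    simp only [con, e]; omega
  · have := h.not_cl.1 (k.nl y hy)
    simp only [con, ← insert_eq]; omega

lemma hub_circ (h : Rk r) {N : Finset α} (c : Circ r N) (h2 : 2 ≤ N.card) :
    ∃ D x, HubAt r N D x := by
  obtain ⟨x, hx, x', hx', ne⟩ := one_lt_card.1 h2
  have i : ∀ y ∈ N, Ind r (N.erase y) := fun y hy => by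
    rw [Ind, c.2 y hy, ← card_erase_add_one hy]; simp
  have s : ∀ y ∈ N, ∀ e ∈ N, Cl r (N.erase y) e := fun y hy e he =>
    h.cl_of_le (erase_subset _ _) he (by rw [c.1, c.2 y hy])
  refine ⟨(N.erase x').erase x, x, by grind, by grind, h.ind_sub (i x' hx') (erase_subset _ _),
    ?_, fun e he => ?_, fun e he => s e (by grind) e (by grind)⟩
  · rw [insert_erase (by grind)]; exact s x' hx'
  · by_cases k : e = x
    · exact h.ind_not_cl (i x' hx') (by grind) (by grind)
    · exact h.ind_not_cl (i x hx) (by grind) (by grind)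

lemma par_dual (h : Rk r) {N : Finset α} (c : Par r N) (ne : N.Nonempty) :
    Circ (dual r N) N := by
  obtain ⟨y, hy⟩ := ne
  have a : r N = 1 := c.1.antisymm (c.2 y hy ▸ h.mono (by simpa using hy))
  refine ⟨by simp [dual, h.emp, a], fun x hx => ?_⟩
  rw [dual, inter_eq_left.2 (erase_subset _ _), show N \ N.erase x = {x} by grind, c.2 x hx, a,
    ← card_erase_add_one hx]
  simp

lemma circ_dual (h : Rk r) {N : Finset α} (c : Circ r N) : Par (dual r N) N := by
  refine ⟨by simp [dual, h.emp, c.1], fun x hx => ?_⟩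
  rw [dual, inter_eq_left.2 (by simpa using hx), sdiff_singleton_eq_erase, c.2 x hx, c.1]
  simp

lemma Par.cg {N : Finset α} (c : Par r N) (e : ∀ Y ⊆ N, r Y = r' Y) : Par r' N :=
  ⟨e _ (Subset.refl _) ▸ c.1, fun x hx => e {x} (by simpa using hx) ▸ c.2 x hx⟩

lemma Circ.cg {N : Finset α} (c : Circ r N) (e : ∀ Y ⊆ N, r Y = r' Y) : Circ r' N :=
  ⟨e _ (Subset.refl _) ▸ c.1, fun x hx => e _ (erase_subset x N) ▸ c.2 x hx⟩

lemma hub_mk (h : Rk r) {M Y : Finset α} {β k : ℕ} (rk : con r Y M ≤ β + 1)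
    (nl : ∀ e ∈ M, ¬ Cl r Y e) (cd : (β + 1) * (k + 1) ≤ M.card) :
    ∃ F D x, F ⊆ M ∪ Y ∧ HubAt r F D x ∧ k ≤ (F ∩ M).card := by
  obtain ⟨D0, a1, a2, a3, -⟩ := h.basis Y
  rw [← h.con_congr (fun e he => cl_mem (a1 he)) a3] at rk
  have hQ := h.con D0
  obtain ⟨B, b1, b2, b3, b4⟩ := hQ.basis M
  have ex : ∀ e, ∃ b, e ∈ M → b ∈ B ∧ ¬ Cl (con r D0) (B.erase b) e := fun e => by
    by_contra c
    push Not at c
    have := hQ.cl_sdiff (S := B) b2 (b3 e (c e).1) fun b hb => (c b).2 hb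
    rw [Finset.sdiff_self, cl_con, empty_union] at this
    exact nl e (c e).1 (h.cl_mono a1 this)
  choose f hf using ex
  obtain ⟨e0, he0⟩ := card_pos.1 (lt_of_lt_of_le (by positivity) cd)
  obtain ⟨b, hb, cb⟩ := exists_le_card_fiber_of_mul_le_card_of_maps_to (s := M) (t := B) (f := f)
    (n := k) (fun e he => (hf e he).1) ⟨_, (hf e0 he0).1⟩
    ((Nat.mul_le_mul (by omega) (Nat.le_succ k)).trans cd)
  classical
  let N := M.filter fun e => ¬ Cl r (B.erase b ∪ D0) e
  have NM : N ⊆ M := filter_subset _ _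
  have bN : b ∈ N := mem_filter.2 ⟨b1 hb, fun c =>
    hQ.ind_not_cl b2 hb (Subset.refl _) (cl_con.2 c)⟩
  obtain ⟨D, d1, d2, d3⟩ := gw_hub h (M := N) (D0 := B.erase b ∪ D0)
    (disjoint_left.2 fun e he c => (mem_filter.1 he).2 (cl_mem c))
  have nD : ∀ e ∈ N, ¬ Cl r D e := fun e he c => (mem_filter.1 he).2 (h.cl_mono d1 c)
  refine ⟨N ∪ D, D, b, union_subset (NM.trans subset_union_left) (d1.trans (union_subset_union
    ((erase_subset _ _).trans b1) a1)), ⟨subset_union_right, mem_sdiff.2 ⟨mem_union_left _ bN,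
      fun c => nD b bN (cl_mem c)⟩, h.ind_sub (h.ind_union a2 (hQ.ind_sub b2 (erase_subset _ _))) d1,
      fun e he => ?_, fun e he => nD e (by grind), d3⟩, cb.trans (card_le_card fun e he => ?_)⟩
  · rcases mem_union.1 he with he | he
    · rw [insert_eq, ← cl_con]
      refine cl_cg (fun Y hY => (d2 Y hY).symm) (by simpa using bN) he (cl_con.2 ?_)
      exact h.cl_mono (by grind) (cl_con.1 (b3 e (NM he)))
    · exact cl_mem (mem_insert_of_mem he)
  · obtain ⟨he', rfl⟩ := mem_filter.1 he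
    exact mem_inter.2
      ⟨mem_union_left _ (mem_filter.2 ⟨he', fun c => (hf e he').2 (cl_con.2 c)⟩), he'⟩

def HubOut (n m K : ℕ) (α : Type) [DecidableEq α] : Prop :=
  ∃ (r' : Finset α → ℤ) (E' : Finset α), Rk r' ∧ Free n r' E' ∧ HubStr r' E' m K

def StageAt (n m K b β ν k N : ℕ) : Prop :=
  ∀ (α : Type) [DecidableEq α] (ι : Type) [DecidableEq ι] [Fintype ι] (r : Finset α → ℤ)
    (E : Finset α) (Z F D : ι → Finset α) (x : ι → α), N ≤ Fintype.card ι → Rk r → Free n r E →
    Fam r E Z b β → (∀ a, Pcs (con r (ot Z a)) (Z a) (ν + 1)) →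
    (∀ a, F a ⊆ Z a ∧ HubAt (con r (ot Z a)) (F a) (D a) (x a)) →
    (∀ a a', a ≠ a' → Conn r E (F a) (F a') k) → HubOut n m K α

theorem hub_stage (ram : StRamsey) (eng : StEngine) (n m K b β ν : ℕ) :
    ∃ k N, StageAt n m K b β ν k N := by
  obtain ⟨k, t, eng⟩ := eng n ((b + m) * (ν + 1)) (K + b * β)
  obtain ⟨N, ram⟩ := ram (b + m) ((b + m) * (t + 1)) (Option (Fin m × Fin m))
  refine ⟨k, N, fun α _ ι _ _ r E Z F D x hN h hE fm pc hF cn => ?_⟩
  obtain ⟨e⟩ := Function.Embedding.nonempty_of_card_le (α := Fin N) (β := ι) (by simpa using hN)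
  let Bl : (Fin (b + m) → ι) → Fin m → Fin m → Prop := fun τ p q => p ≠ q ∧
    ¬ Conn (con (con r ((univ.image fun i => τ (Fin.castAdd m i)).biUnion Z))
      (oth (fun a => F (τ (Fin.natAdd b a))) p q))
      ((E \ (univ.image fun i => τ (Fin.castAdd m i)).biUnion Z) \
        oth (fun a => F (τ (Fin.natAdd b a))) p q) (F (τ (Fin.natAdd b p))) (F (τ (Fin.natAdd b q))) K
  have ex : ∀ τ : Fin (b + m) → ι, ∃ c : Option (Fin m × Fin m), (c = none → ∀ p q, ¬ Bl τ p q) ∧
      ∀ p q, c = some (p, q) → Bl τ p q := fun τ => by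
    by_cases c : ∃ p q, Bl τ p q
    · obtain ⟨p, q, c⟩ := c
      exact ⟨some (p, q), by simp, by rintro _ _ ⟨⟩; exact c⟩
    · exact ⟨none, fun _ p q c' => c ⟨p, q, c'⟩, by simp⟩
  choose χ hχ using ex
  obtain ⟨g, hg⟩ := ram fun τ => χ fun i => e (τ i)
  let ix : Fin (b + m) → Fin (t + 1) → ι := fun i o => e (g (finProdFinEquiv (i, o)))
  have ii : ∀ {i o i' o'}, ix i o = ix i' o' → i = i' ∧ o = o' := fun k => by
    simpa using finProdFinEquiv.injective (g.injective (e.injective k))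
  have sm : ∀ off : Fin (b + m) → Fin (t + 1), StrictMono fun i => finProdFinEquiv (i, off i) := by
    intro off i i' k
    have := (off i).isLt
    simp only [Fin.lt_def, finProdFinEquiv_apply_val] at k ⊢
    nlinarith
  have hom : ∀ off : Fin (b + m) → Fin (t + 1), χ (fun i => ix i (off i)) = χ fun i => ix i 0 :=
    fun off => hg (OrderEmbedding.ofStrictMono _ (sm off))
      (OrderEmbedding.ofStrictMono _ (sm fun _ => 0))
  have cn' : ∀ i a, Fin.castAdd m i ≠ Fin.natAdd b a := fun i a k => by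
    have := congrArg Fin.val k
    have := i.isLt
    simp only [Fin.val_castAdd, Fin.val_natAdd] at *
    omega
  have cJ : ∀ o, (univ.image fun i => ix (Fin.castAdd m i) o).card = b := fun o => by
    rw [card_image_of_injective _ fun i i' k => Fin.castAdd_injective _ _ (ii k).1]; simp
  have sE : ∀ J : Finset ι, J.biUnion Z ⊆ E := fun J => biUnion_subset.2 fun a _ => fm.sub a
  rcases hc : χ fun i => ix i 0 with _ | ⟨p, q⟩
  · have nJ : ∀ a, ix (Fin.natAdd b a) 0 ∉ univ.image fun i => ix (Fin.castAdd m i) 0 := by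
      intro a k
      obtain ⟨i, -, k⟩ := mem_image.1 k
      exact cn' _ _ (ii k).1
    have φi : Function.Injective fun a => ix (Fin.natAdd b a) 0 := fun a a' k =>
      Fin.natAdd_injective _ _ (ii k).1
    have hb := fun a => (hF _).2.cg fun Y hY =>
      (fm.ks.cg h (cJ 0).ge (nJ a) (hY.trans (hF _).1)).symm
    refine ⟨_, _, h.con _, hE.con h (sE _) (Subset.refl _), fun a => F (ix (Fin.natAdd b a) 0),
      fun a => D (ix (Fin.natAdd b a) 0), fun a => x (ix (Fin.natAdd b a) 0),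
      ⟨fun a => (hF _).1.trans (subset_sdiff.2 ⟨fm.sub _,
        (fm.pd.ot _).mono_right (ot_sub' Z (nJ a))⟩),
      fun a a' k => (fm.pd _ _ (φi.ne k)).mono (hF _).1 (hF _).1,
      fm.ks.skew h (cJ 0).ge φi.injOn (fun a _ => nJ a) fun a _ => (hF _).1,
      fun a => (hb a).dsub, fun a => (hb a).xmem, fun a => (hb a).ind, fun a => (hb a).span,
      fun a => (hb a).nl, fun a => (hb a).ncl⟩, fun p q ne => ?_⟩
    by_contra c
    exact (hχ _).1 hc p q ⟨ne, c⟩
  · have ne := ((hχ _).2 p q hc).1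
    have mm : ∀ {l : Fin t} {a}, a ∈ (univ.image fun i => ix (Fin.castAdd m i) l.succ) ∪
        (((univ.erase p).erase q).image fun a => ix (Fin.natAdd b a) l.succ) →
        ∃ i, a = ix i l.succ := fun k => by
      rcases mem_union.1 k with k | k <;> obtain ⟨i, -, rfl⟩ := mem_image.1 k <;> exact ⟨_, rfl⟩
    refine (eng_fam2 eng h hE fm pc (fun a => ⟨(hF a).1, (hF a).2.cntd (h.con _)⟩) (cJ 0)
      (A := fun l => univ.image fun i => ix (Fin.castAdd m i) l.succ)
      (L := fun l => ((univ.erase p).erase q).image fun a => ix (Fin.natAdd b a) l.succ)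
      (S := F (ix (Fin.natAdd b p) 0)) (T := F (ix (Fin.natAdd b q) 0)) (fun l l' a k k' => ?_)
      (fun l a k k' => ?_) (fun l a k k' => ?_) (fun l => ?_) ((hF _).1.trans (fm.sub _))
      ((hF _).1.trans (fm.sub _)) ((fm.pd _ _ fun k => ne (Fin.natAdd_injective _ _ (ii k).1)).mono
        (hF _).1 (hF _).1) (fun l a k => ?_)
      (cn _ _ fun k => ne (Fin.natAdd_injective _ _ (ii k).1)) fun l => ?_).elim
    · obtain ⟨i, rfl⟩ := mm k
      obtain ⟨i', k'⟩ := mm k'
      exact Fin.succ_injective _ (ii k').2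
    · obtain ⟨i, -, rfl⟩ := mem_image.1 k
      obtain ⟨i', -, k'⟩ := mem_image.1 k'
      exact cn' _ _ (ii k').1.symm
    · obtain ⟨i, rfl⟩ := mm k
      obtain ⟨i', -, k'⟩ := mem_image.1 k'
      exact Fin.succ_ne_zero _ (ii k').2.symm
    · rw [cJ]
      exact Nat.add_le_add_left (card_image_le.trans ((card_le_univ _).trans (by simp))) _
    · obtain ⟨i, rfl⟩ := mm k
      exact disjoint_union_right.2 ⟨(fm.pd _ _ fun k => Fin.succ_ne_zero _ (ii k).2).mono_right
        (hF _).1, (fm.pd _ _ fun k => Fin.succ_ne_zero _ (ii k).2).mono_right (hF _).1⟩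
    · have := ((hχ _).2 p q ((hom (Fin.append (fun _ => l.succ)
        fun a => if a = p ∨ a = q then 0 else l.succ)).trans hc)).2
      simp only [Fin.append_left, Fin.append_right, true_or, or_true, if_true] at this
      have e' : oth (fun a => F (ix (Fin.natAdd b a) (if a = p ∨ a = q then 0 else l.succ))) p q =
          (((univ.erase p).erase q).image fun a => ix (Fin.natAdd b a) l.succ).biUnion F := by
        rw [image_biUnion]
        exact biUnion_congr rfl fun a k => by rw [if_neg (show ¬ (a = p ∨ a = q) by grind)]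
      rwa [e'] at this

end Pool.Agent.Lib.MP_a4b0c4_co.J
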