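import Pool.Agent.Lib.MP_a4b0c4_co.JRam1

set_option autoImplicit false
set_option linter.unusedSectionVars false
set_option linter.unusedVariables false

open Finset

namespace Pool.Agent.Lib.MP_a4b0c4_co.J

section Relabel
variable {α β : Type} [DecidableEq α] [DecidableEq β] {r : Finset α → ℤ} {r' : Finset β → ℤ}
  {E : Finset α} {F : α → β}

lemma lim_hasMinor_image {ε : Type} {G : Finset ε} {P : Finset ε → Prop} (hF : Set.InjOn F E)
    (e : ∀ X ⊆ E, r X = r' (X.image F)) (h : HasMinor r E G P) :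
    HasMinor r' (E.image F) G P := by
  obtain ⟨C, f, hC, hf, hx, hI⟩ := h
  refine ⟨C.image F, F ∘ f, image_subset_image hC, fun a ha b hb hab =>
    hf ha hb (hF (hx a ha).1 (hx b hb).1 hab), fun x hG => ⟨mem_image_of_mem _ (hx x hG).1, ?_⟩,
    fun I hIG => ?_⟩
  · intro k
    obtain ⟨c, hc, k⟩ := mem_image.1 k
    exact (hx x hG).2 (hF (hC hc) (hx x hG).1 k ▸ hc)
  · rw [← hI I hIG]
    have h1 : I.image f ⊆ E := fun y hy => by
      obtain ⟨x, a, rfl⟩ := mem_image.1 hy
      exact (hx x (hIG a)).1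
    simp only [con]
    rw [← image_image, ← image_union, ← e _ (union_subset h1 hC), ← e _ hC]

lemma lim_dual_image (hF : Set.InjOn F E) (e : ∀ X ⊆ E, r X = r' (X.image F)) :
    ∀ X ⊆ E, dual r E X = dual r' (E.image F) (X.image F) := by
  intro X hX
  simp only [dual]
  rw [inter_eq_left.2 hX, inter_eq_left.2 (image_subset_image hX),
    card_image_of_injOn (hF.mono hX), ← image_sdiff_of_injOn hF hX, ← e _ sdiff_subset,
    ← e _ subset_rfl]

lemma lim_out_image {n : ℕ} (hF : Set.InjOn F E) (e : ∀ X ⊆ E, r X = r' (X.image F))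
    (h : Out n r E) : Out n r' (E.image F) := by
  have e' := lim_dual_image hF e
  rcases h with (h | h | h) | (h | h | h)
  · exact .inl (.inl (lim_hasMinor_image hF e h))
  · exact .inl (.inr (.inl (lim_hasMinor_image hF e h)))
  · exact .inl (.inr (.inr (lim_hasMinor_image hF e h)))
  · exact .inr (.inl (lim_hasMinor_image hF e' h))
  · exact .inr (.inr (.inl (lim_hasMinor_image hF e' h)))
  · exact .inr (.inr (.inr (lim_hasMinor_image hF e' h)))

end Relabel

section RelabelB
variable {α β α' β' : Type} [DecidableEq α] [DecidableEq β] [DecidableEq α'] [DecidableEq β']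

lemma lim_bm_pull {ρ : Finset α → Finset β → ℤ} (h : BM ρ) (f : α' → α) (g : β' → β) :
    BM (pullB ρ f g) where
  nn := fun R Y => h.nn _ _
  le_l := fun R Y => (h.le_l _ _).trans (by exact_mod_cast card_image_le)
  le_r := fun R Y => (h.le_r _ _).trans (by exact_mod_cast card_image_le)
  mono := fun a b => h.mono (image_subset_image a) (image_subset_image b)
  subm := fun R R' Y Y' => by
    simp only [pullB]
    have h1 := h.subm (R.image f) (R'.image f) (Y.image g) (Y'.image g)
    have h2 := h.mono (R := (R ∪ R').image f) (Y := (Y ∩ Y').image g) (image_union _ _).le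
      (image_inter_subset g Y Y')
    have h3 := h.mono (R := (R ∩ R').image f) (Y := (Y ∪ Y').image g) (image_inter_subset f R R')
      (image_union _ _).le
    linarith

/-- freeness passes to an injective relabelling of a finite submatrix -/
lemma lim_free_pull {n : ℕ} {ρ : Finset α → Finset β → ℤ} {ρ' : Finset α' → Finset β' → ℤ}
    {f : α → α'} {g : β → β'} {R0 : Finset α} {Y0 : Finset β} (hf : Set.InjOn f R0)
    (hg : Set.InjOn g Y0) (e : ∀ R ⊆ R0, ∀ Y ⊆ Y0, ρ R Y = ρ' (R.image f) (Y.image g))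
    (h : Free n (mat ρ' (R0.image f)) ((R0.image f).disjSum (Y0.image g))) :
    Free n (mat ρ R0) (R0.disjSum Y0) := by
  intro k
  apply h
  have e1 : (R0.image f).disjSum (Y0.image g) = (R0.disjSum Y0).image (Sum.map f g) := by
    ext (x | x) <;> simp
  rw [e1]
  refine lim_out_image ?_ ?_ k
  · rintro (x | x) hx (y | y) hy hxy
    · simp only [Sum.map_inl, Sum.inl.injEq, mem_coe, inl_mem_disjSum] at *
      exact hf hx hy hxy
    · simp at hxy
    · simp at hxy
    · simp only [Sum.map_inr, Sum.inr.injEq, mem_coe, inr_mem_disjSum] at *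
      exact hg hx hy hxy
  · intro X hX
    have l1 : (X.image (Sum.map f g)).toLeft = X.toLeft.image f := by
      ext x; simp
    have l2 : (X.image (Sum.map f g)).toRight = X.toRight.image g := by
      ext x; simp
    have s1 : X.toLeft ⊆ R0 := fun x hx => by simpa using hX (mem_toLeft.1 hx)
    have s2 : X.toRight ⊆ Y0 := fun x hx => by simpa using hX (mem_toRight.1 hx)
    simp only [mat]
    rw [l1, l2, inter_eq_left.2 s1, inter_eq_left.2 (image_subset_image s1),
      card_image_of_injOn (hf.mono s1), ← image_sdiff_of_injOn hf s1, e _ sdiff_subset _ s2]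

end RelabelB

namespace Lab
variable {A B C ι κ μ : Type}

lemma lim_map_map (φ : ι → κ) (ψ : κ → μ) (l : Lab A B C ι) :
    map ψ (map φ l) = map (ψ ∘ φ) l := by
  rcases l with a | ⟨b, i⟩ | ⟨c, i, j⟩ <;> rfl

lemma lim_supp_map [DecidableEq ι] [DecidableEq κ] (φ : ι → κ) (l : Lab A B C ι) :
    (map φ l).supp = l.supp.image φ := by
  rcases l with a | ⟨b, i⟩ | ⟨c, i, j⟩
  · rfl
  · exact (image_singleton φ i).symm
  · change ({φ i, φ j} : Finset κ) = ({i, j} : Finset ι).image φ
    rw [image_insert, image_singleton]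

lemma lim_map_congr [DecidableEq ι] {φ ψ : ι → κ} {l : Lab A B C ι}
    (h : ∀ x ∈ l.supp, φ x = ψ x) : map φ l = map ψ l := by
  rcases l with a | ⟨b, i⟩ | ⟨c, i, j⟩
  · rfl
  · exact congrArg (o b) (h i (mem_singleton_self i))
  · exact congrArg₂ (p c) (h i (mem_insert_self _ _)) (h j (mem_insert_of_mem (mem_singleton_self j)))

lemma lim_map_id (l : Lab A B C ι) : map id l = l := by
  rcases l with a | ⟨b, i⟩ | ⟨c, i, j⟩ <;> rfl

lemma lim_injOn [DecidableEq ι] {φ : ι → κ} {s : Set ι} (h : Set.InjOn φ s) :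
    Set.InjOn (map φ : Lab A B C ι → Lab A B C κ) {l | ↑l.supp ⊆ s} := by
  classical
  intro l hl l' hl' e
  by_cases ne : s.Nonempty
  · have : Nonempty ι := ⟨ne.some⟩
    have k : ∀ m : Lab A B C ι, ↑m.supp ⊆ s → map (Function.invFunOn φ s) (map φ m) = m := by
      intro m hm
      rw [lim_map_map, lim_map_congr (φ := Function.invFunOn φ s ∘ φ) (ψ := id)
        fun x hx => h.leftInvOn_invFunOn (hm hx), lim_map_id]
    rw [← k l hl, e, k l' hl']
  · rw [Set.not_nonempty_iff_eq_empty] at ne
    subst ne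
    rcases l with a | ⟨b, i⟩ | ⟨c, i, j⟩
    · rcases l' with a' | ⟨b, i⟩ | ⟨c, i, j⟩
      · exact congrArg g (Sum.inl_injective e)
      · exact (hl' (mem_singleton_self i)).elim
      · exact (hl' (mem_insert_self i _)).elim
    · exact (hl (mem_singleton_self i)).elim
    · exact (hl (mem_insert_self i _)).elim

lemma lim_valid_map [LinearOrder ι] [LinearOrder κ] {φ : ι → κ} {l : Lab A B C ι} {s : Set ι}
    (h : StrictMonoOn φ s) (hl : ↑l.supp ⊆ s) (hv : l.valid) : (map φ l).valid := by
  rcases l with a | ⟨b, i⟩ | ⟨c, i, j⟩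
  · trivial
  · trivial
  · exact h (hl (mem_insert_self i _)) (hl (mem_insert_of_mem (mem_singleton_self j))) hv

lemma lim_finite [Finite A] [Finite B] [Finite C] [DecidableEq ι] (s : Finset ι) :
    {l : Lab A B C ι | l.supp ⊆ s}.Finite := by
  refine (Set.finite_range (map Subtype.val : Lab A B C s → Lab A B C ι)).subset ?_
  rintro (a | ⟨b, i⟩ | ⟨c, i, j⟩) hl
  · exact ⟨g a, rfl⟩
  · exact ⟨o b ⟨i, hl (mem_singleton_self i)⟩, rfl⟩
  · exact ⟨p c ⟨i, hl (mem_insert_self i _)⟩ ⟨j, hl (mem_insert_of_mem (mem_singleton_self j))⟩, rfl⟩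

lemma lim_finite' [Finite A] [Finite B] [Finite C] [DecidableEq ι] (s : Finset ι) :
    {R : Finset (Lab A B C ι) | R.biUnion supp ⊆ s}.Finite := by
  refine (lim_finite (A := A) (B := B) (C := C) s).toFinset.powerset.finite_toSet.subset ?_
  intro R hR
  rw [mem_coe, mem_powerset]
  intro l hl
  rw [Set.Finite.mem_toFinset]
  exact (subset_biUnion_of_mem supp hl).trans hR

lemma lim_biUnion_map [DecidableEq A] [DecidableEq B] [DecidableEq C] [DecidableEq ι]
    [DecidableEq κ] (φ : ι → κ) (R : Finset (Lab A B C ι)) :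
    (R.image (map φ)).biUnion supp = (R.biUnion supp).image φ := by
  rw [image_biUnion, biUnion_image]
  exact biUnion_congr rfl fun l _ => lim_supp_map φ l

lemma lim_image_congr [DecidableEq A] [DecidableEq B] [DecidableEq C] [DecidableEq ι]
    [DecidableEq κ] {φ ψ : ι → κ} {R : Finset (Lab A B C ι)}
    (h : ∀ x ∈ R.biUnion supp, φ x = ψ x) : R.image (map φ) = R.image (map ψ) :=
  image_congr fun l hl => lim_map_congr fun x hx => h x (mem_biUnion.2 ⟨l, hl, hx⟩)

end Lab

section Pos
variable {ι κ : Type} [LinearOrder ι] [LinearOrder κ]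

/-- position of x in t -/
def limRk (t : Finset ι) (x : ι) : ℕ := (t.filter (· < x)).card

/-- the element of t with position i -/
noncomputable def limNth [Inhabited ι] (t : Finset ι) (i : ℕ) : ι :=
  open Classical in if h : ∃ a ∈ t, limRk t a = i then h.choose else default

lemma limRk_lt_of_lt {t : Finset ι} {x y : ι} (hx : x ∈ t) (h : x < y) : limRk t x < limRk t y :=
  card_lt_card ⟨fun z hz => by
    rw [mem_filter] at *; exact ⟨hz.1, hz.2.trans h⟩,
    fun k => by simpa using k (mem_filter.2 ⟨hx, h⟩)⟩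

lemma limRk_lt {t : Finset ι} {x : ι} (hx : x ∈ t) : limRk t x < t.card :=
  card_lt_card ⟨filter_subset _ _, fun k => by simpa using k hx⟩

lemma limNth_rk [Inhabited ι] {t : Finset ι} {x : ι} (hx : x ∈ t) : limNth t (limRk t x) = x := by
  have h : ∃ a ∈ t, limRk t a = limRk t x := ⟨x, hx, rfl⟩
  rw [limNth, dif_pos h]
  obtain ⟨h1, h2⟩ := h.choose_spec
  rcases lt_trichotomy h.choose x with k | k | k
  · exact absurd h2 (limRk_lt_of_lt h1 k).ne
  · exact k
  · exact absurd h2 (limRk_lt_of_lt hx k).ne'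

lemma limRk_image {u : Finset ι} {θ : ι → κ} (h : StrictMonoOn θ u) {x : ι} (hx : x ∈ u) :
    limRk (u.image θ) (θ x) = limRk u x := by
  unfold limRk
  rw [filter_image, card_image_of_injOn (h.injOn.mono (coe_subset.2 (filter_subset _ _)))]
  exact congrArg card (filter_congr fun y hy => h.lt_iff_lt hy hx)

end Pos

end Pool.Agent.Lib.MP_a4b0c4_co.J
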