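import Pool.Agent.Lib.MP_a4b0c4_co.JGr21

set_option autoImplicit false
set_option linter.unusedSectionVars false
set_option linter.unusedVariables false

open Finset

namespace Pool.Agent.Lib.MP_a4b0c4_co.J

variable {α : Type} [DecidableEq α] {r : Finset α → ℤ}

/-- lexicographic combination of two rankings -/
lemma pw_lex (G : Finset α) (f1 f2 : α → ℕ) : ∃ f : α → ℕ,
    (∀ e ∈ G, ∀ e' ∈ G, f e = f e' → f1 e = f1 e' ∧ f2 e = f2 e') ∧
    (∀ e ∈ G, ∀ e' ∈ G, f1 e < f1 e' → f e < f e') ∧
    (∀ e e', f1 e = f1 e' → f2 e = f2 e' → f e = f e') ∧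
    ∀ p, ∃ a b, G.filter (f · < p) =
      G.filter (f1 · < a) ∪ (G.filter (f1 · < a + 1) ∩ G.filter (f2 · < b)) := by
  obtain ⟨M, hM0, hM⟩ : ∃ M, 0 < M ∧ ∀ e ∈ G, f2 e < M :=
    ⟨G.sup f2 + 1, Nat.succ_pos _, fun e he => Nat.lt_succ_of_le (le_sup he)⟩
  have k : ∀ a b a' b', b < M → a < a' → a * M + b < a' * M + b' := fun a b a' b' h1 h2 => by
    have := Nat.mul_le_mul_right M (Nat.succ_le_of_lt h2)
    rw [Nat.succ_mul] at this; omega
  refine ⟨fun e => f1 e * M + f2 e, fun e he e' he' h => ?_,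
    fun e he e' _ h => k _ _ _ _ (hM e he) h, fun e e' h1 h2 => by simp only [h1, h2],
    fun p => ⟨p / M, p % M, ?_⟩⟩
  · rcases lt_trichotomy (f1 e) (f1 e') with c | c | c
    · exact absurd h (k _ _ _ _ (hM e he) c).ne
    · simp only [c] at h; exact ⟨c, by omega⟩
    · exact absurd h (k _ _ _ _ (hM e' he') c).ne'
  · ext e
    simp only [mem_filter, mem_union, mem_inter]
    have h1 := Nat.div_add_mod' p M
    have h2 := Nat.mod_lt p hM0
    constructor
    · rintro ⟨he, h⟩
      rcases lt_trichotomy (f1 e) (p / M) with c | c | c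
      · exact .inl ⟨he, c⟩
      · rw [c] at h; exact .inr ⟨⟨he, by omega⟩, he, by omega⟩
      · have := k _ (p % M) _ (f2 e) h2 c; omega
    · rintro (⟨he, h⟩ | ⟨⟨he, h⟩, -, h'⟩)
      · have := k _ _ _ (p % M) (hM e he) h; exact ⟨he, by omega⟩
      · refine ⟨he, ?_⟩
        rcases (Nat.lt_succ_iff.1 h).lt_or_eq with c | c
        · have := k _ _ _ (p % M) (hM e he) c; omega
        · rw [c]; omega

/-- a lattice of sets gives a ranking whose initial parts belong to the lattice -/
lemma pw_lattice (G : Finset α) (L : Finset α → Prop) (h0 : L ∅) (hG : L G)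
    (hu : ∀ U V, L U → L V → L (U ∪ V)) (hi : ∀ U V, L U → L V → L (U ∩ V)) : ∃ f : α → ℕ,
    (∀ p, L (G.filter (f · < p))) ∧
    ∀ e ∈ G, (∃ U, e ∉ U ∧ L U ∧ L (insert e U)) → ∀ e' ∈ G, f e' = f e → e' = e := by
  classical
  have : ∀ e, ∃ U, e ∈ G → (e ∈ U ∧ U ⊆ G ∧ L U) ∧ ∀ V, e ∈ V → L V → U ⊆ V := fun e => by
    by_cases he : e ∈ G
    · obtain ⟨U, a, b⟩ := exists_min_image (G.powerset.filter fun U => e ∈ U ∧ L U) card
        ⟨G, by simp [he, hG]⟩
      simp only [mem_filter, mem_powerset] at a b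
      refine ⟨U, fun _ => ⟨⟨a.2.1, a.1, a.2.2⟩, fun V c d => ?_⟩⟩
      exact inter_eq_left.1 (eq_of_subset_of_card_le inter_subset_left (b _
        ⟨inter_subset_left.trans a.1, mem_inter.2 ⟨a.2.1, c⟩, hi _ _ a.2.2 d⟩))
    · exact ⟨∅, fun k => absurd k he⟩
  choose m hm using this
  let enc : Finset α → ℕ := fun U => if h : U ∈ G.powerset then G.powerset.equivFin ⟨U, h⟩ else 0
  have ei : ∀ U ⊆ G, ∀ V ⊆ G, enc U = enc V → U = V := fun U hU V hV e => by
    simp only [enc, dif_pos (mem_powerset.2 hU), dif_pos (mem_powerset.2 hV)] at e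
    exact congrArg Subtype.val (G.powerset.equivFin.injective (Fin.ext e))
  obtain ⟨f, f1, f2, f3, -⟩ := pw_lex G (fun e => (m e).card) fun e => enc (m e)
  refine ⟨f, fun p => ?_, ?_⟩
  · have e1 : G.filter (f · < p) = (G.filter (f · < p)).biUnion m := by
      refine subset_antisymm (fun e he => mem_biUnion.2 ⟨e, he, (hm e (mem_filter.1 he).1).1.1⟩)
        fun e' he' => ?_
      obtain ⟨e, he, k⟩ := mem_biUnion.1 he'
      obtain ⟨g1, g2⟩ := mem_filter.1 he
      have g3 := (hm e g1).1.2.1 k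
      refine mem_filter.2 ⟨g3, lt_of_le_of_lt ?_ g2⟩
      rcases ((hm e' g3).2 _ k (hm e g1).1.2.2).eq_or_ssubset with c | c
      · exact (f3 _ _ (by rw [c]) (by rw [c])).le
      · exact (f2 _ g3 _ g1 (card_lt_card c)).le
    rw [e1]
    have : ∀ s ⊆ G, L (s.biUnion m) := fun s => by
      induction s using Finset.induction_on with
      | empty => exact fun _ => h0
      | insert a s _ ih =>
        intro k
        rw [biUnion_insert]
        exact hu _ _ (hm a (k (mem_insert_self _ _))).1.2.2 (ih ((subset_insert _ _).trans k))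
    exact this _ (filter_subset _ _)
  · rintro e he ⟨U, u1, u2, u3⟩ e' he' k
    have e1 := ei _ (hm e' he').1.2.1 _ (hm e he).1.2.1 (f1 _ he' _ he k).2
    by_contra ne
    have h1 := (hm e he).2 _ (mem_insert_self _ _) u3 (e1 ▸ (hm e' he').1.1)
    exact u1 ((hm e' he').2 _ ((mem_insert.1 h1).resolve_left ne) u2 (e1 ▸ (hm e he).1.1))

/-- rankings for several lattices combine to a linear order of small width -/
lemma pw_order {π : Type} (h : Rk r) (G : Finset α) (k : ℕ) (Tt : π → α → Prop)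
    (hx : ∀ x, ∃ f : α → ℕ, (∀ p, lam r G (G.filter (f · < p)) ≤ k) ∧
      ∀ e ∈ G, Tt x e → ∀ e' ∈ G, f e' = f e → e' = e) (s : Finset π) :
    ∃ f : α → ℕ, (∀ p, lam r G (G.filter (f · < p)) ≤ (2 * s.card * k : ℕ)) ∧
      ∀ e ∈ G, (∃ x ∈ s, Tt x e) → ∀ e' ∈ G, f e' = f e → e' = e := by
  classical
  induction s using Finset.induction_on with
  | empty =>
    refine ⟨fun _ => 0, fun p => ?_, by simp⟩
    rcases Nat.eq_zero_or_pos p with rfl | c
    · simp [lam, h.emp]
    · simp [lam, h.emp, c]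
  | insert x s hxs ih =>
    obtain ⟨f1, a1, a2⟩ := hx x
    obtain ⟨f2, b1, b2⟩ := ih
    obtain ⟨f, c1, -, -, c2⟩ := pw_lex G f1 f2
    refine ⟨f, fun p => ?_, fun e he ⟨y, hy, k⟩ e' he' c => ?_⟩
    · obtain ⟨a, b, e⟩ := c2 p
      have h1 := h.lam_union G (G.filter (f1 · < a)) (G.filter (f1 · < a + 1) ∩ G.filter (f2 · < b))
      have h2 := h.lam_inter G (G.filter (f1 · < a + 1)) (G.filter (f2 · < b))
      have h3 := a1 a
      have h4 := a1 (a + 1)
      have h5 := b1 b
      rw [e, card_insert_of_notMem hxs]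
      push_cast at *
      linarith
    · rcases mem_insert.1 hy with rfl | hy
      · exact a2 e he k e' he' (c1 _ he' _ he c).1
      · exact b2 e he ⟨y, hy, k⟩ e' he' (c1 _ he' _ he c).2

lemma pw_null (h : Rk r) {G U V : Finset α} (hUV : U ⊆ V) (hV : V ⊆ G) (k : Ind r (V \ U)) :
    (V.card : ℤ) - r V ≤ U.card - r U + lam r G U := by
  have h1 := h.loc_le_lam (E := G) (A := U) (B := V \ U) (hUV.trans hV) subset_rfl
    (sdiff_subset_sdiff hV subset_rfl)
  have h2 := card_sdiff_add_card_eq_card hUV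
  unfold Ind loc at *
  rw [union_sdiff_of_subset hUV] at h1; omega

/-- a linear order of small width and large nullity has many dependent intervals -/
lemma pw_intervals (h : Rk r) {G : Finset α} {f : α → ℕ} {β : ℕ} (inj : Set.InjOn f G)
    (hf : ∀ p, lam r G (G.filter (f · < p)) ≤ β) (N : ℕ) : ∀ p,
    ((G.filter (f · < p)).card : ℤ) - r (G.filter (f · < p)) + N * (β + 1) ≤ G.card - r G →
    ∃ A : Fin N → Finset α, PD A ∧ ∀ i, A i ⊆ G \ G.filter (f · < p) ∧ ¬ Ind r (A i) ∧
      lam r G (A i) ≤ 2 * β := by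
  classical
  induction N with
  | zero => exact fun p _ => ⟨Fin.elim0, fun i => i.elim0, fun i => i.elim0⟩
  | succ N ih =>
    intro p hp
    have mo : ∀ {a b}, a ≤ b → G.filter (f · < a) ⊆ G.filter (f · < b) := fun k e he =>
      mem_filter.2 ⟨(mem_filter.1 he).1, (mem_filter.1 he).2.trans_le k⟩
    have ex : ∃ j, ¬ Ind r (G.filter (f · < p + j) \ G.filter (f · < p)) := by
      refine ⟨G.sup f + 1, fun k => ?_⟩
      rw [filter_true_of_mem fun e he => by have := le_sup (f := f) he; omega] at k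
      have := pw_null h (filter_subset _ _) subset_rfl k
      have := hf p
      have : (0 : ℤ) ≤ N * (β + 1) := by positivity
      push_cast at hp; linarith
    obtain ⟨j, hj, hmin⟩ : ∃ j, ¬ Ind r (G.filter (f · < p + (j + 1)) \ G.filter (f · < p)) ∧
        Ind r (G.filter (f · < p + j) \ G.filter (f · < p)) := by
      have h1 := Nat.find_spec ex
      rcases e : Nat.find ex with _ | j
      · rw [e] at h1; exact absurd (by simpa using h.ind_empty) h1
      · exact ⟨j, e ▸ h1, not_not.1 (Nat.find_min ex (by omega))⟩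
    have h1 := pw_null h (mo (Nat.le_add_right p j)) (filter_subset _ _) hmin
    have h2 : (G.filter (f · < p + (j + 1))).card ≤ (G.filter (f · < p + j)).card + 1 := by
      rw [← card_sdiff_add_card_eq_card (mo (show p + j ≤ p + (j + 1) by omega)), add_comm]
      refine Nat.add_le_add_left (card_le_one.2 fun a ha b hb => ?_) _
      simp only [mem_sdiff, mem_filter] at ha hb
      exact inj ha.1.1 hb.1.1 (by grind)
    have h3 := h.mono (mo (show p + j ≤ p + (j + 1) by omega))
    have h4 := hf p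
    obtain ⟨A, a1, a2⟩ := ih (p + (j + 1)) (by
      have h2' : ((G.filter (f · < p + (j + 1))).card : ℤ) ≤ (G.filter (f · < p + j)).card + 1 := by
        exact_mod_cast h2
      push_cast at hp; linarith)
    have d : ∀ i, Disjoint (G.filter (f · < p + (j + 1)) \ G.filter (f · < p)) (A i) := fun i =>
      disjoint_sdiff.mono sdiff_subset (a2 i).1
    refine ⟨Fin.cons (G.filter (f · < p + (j + 1)) \ G.filter (f · < p)) A, fun i i' ne => ?_,
      fun i => ?_⟩
    · rcases i.eq_zero_or_eq_succ with rfl | ⟨i, rfl⟩ <;>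
        rcases i'.eq_zero_or_eq_succ with rfl | ⟨i', rfl⟩
      · exact absurd rfl ne
      · exact d i'
      · exact (d i).symm
      · exact a1 i i' fun e => ne (e ▸ rfl)
    · rcases i.eq_zero_or_eq_succ with rfl | ⟨i, rfl⟩
      · refine ⟨sdiff_subset_sdiff (filter_subset _ _) subset_rfl, hj, ?_⟩
        have := h.lam_sdiff (E := G) (filter_subset (f · < p + (j + 1)) G) (filter_subset (f · < p) G)
        have := hf (p + (j + 1))
        simp only [Fin.cons_zero]; omega
      · exact ⟨(a2 i).1.trans (sdiff_subset_sdiff subset_rfl (mo (Nat.le_add_right _ _))),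
          (a2 i).2⟩

lemma pw_lam_biUnion {ι : Type} [DecidableEq ι] (h : Rk r) (G : Finset α) (A : ι → Finset α)
    {β : ℤ} (hA : ∀ i, lam r G (A i) ≤ β) (s : Finset ι) : lam r G (s.biUnion A) ≤ s.card * β := by
  induction s using Finset.induction_on with
  | empty => simp [lam, h.emp]
  | insert a s ha ih =>
    rw [biUnion_insert, card_insert_of_notMem ha]
    have := h.lam_union G (A a) (s.biUnion A)
    have := hA a
    push_cast; linarith

/-- fundamental circuit -/
lemma pw_circ (h : Rk r) {B : Finset α} {c : α} (hB : Ind r B) (hc : c ∉ B) (k : Cl r B c) :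
    ∃ B' ⊆ B, Cl r B' c ∧ Cntd r (insert c B') := by
  classical
  let B' := B.filter fun e => ¬ Cl r (B.erase e) c
  have s1 : B' ⊆ B := filter_subset _ _
  have c1 : Cl r B' c := by
    have := h.cl_sdiff (S := B \ B') hB k fun b hb => by
      obtain ⟨b1, b2⟩ := mem_sdiff.1 hb
      by_contra c
      exact b2 (mem_filter.2 ⟨b1, c⟩)
    rwa [Finset.sdiff_sdiff_eq_self s1] at this
  have i1 := h.ind_sub hB s1
  have n1 : c ∉ B' := fun k => hc (s1 k)
  refine ⟨B', s1, c1, h.cntd_circ ⟨?_, fun x hx => ?_⟩⟩ <;> rw [card_insert_of_notMem n1]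
  · unfold Ind Cl at *; omega
  · rcases mem_insert.1 hx with rfl | hx
    · rw [erase_insert n1]; unfold Ind at *; omega
    · rw [erase_insert_of_ne (ne_of_mem_of_not_mem hx n1).symm, h.not_cl.1 fun k =>
        (mem_filter.1 hx).2 (h.cl_mono (erase_subset_erase _ s1) k),
        h.ind_sub i1 (erase_subset _ _)]
      have := card_erase_add_one hx
      omega

/-- deleting a set lowers the connectivity by at most its size -/
lemma pw_del (h : Rk r) {E S T Y : Finset α} {k : ℤ} (c : Conn r E S T (k + Y.card)) :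
    Conn r (E \ Y) S T k := fun Z h1 h2 => by
  have h3 := c Z h1 (h2.trans (sdiff_subset_sdiff sdiff_subset subset_rfl))
  have h4 := h.add_card' (X := (E \ Y) \ Z) (Y := Y) (Z := E \ Z) (by grind)
  have h5 := h.mono (sdiff_subset (s := E) (t := Y))
  unfold lam at *; omega

end Pool.Agent.Lib.MP_a4b0c4_co.J
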