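import Pool.Agent.Lib.MP_a4b0c4_co.JPW1

set_option autoImplicit false
set_option linter.unusedSectionVars false
set_option linter.unusedVariables false

open Finset

namespace Pool.Agent.Lib.MP_a4b0c4_co.J

/-- skew circuits in levels of large nullity -/
lemma pw_circuits (n β L ν : ℕ) : ∃ N : ℕ, ∀ (α : Type) [DecidableEq α] (Q : Finset α → ℤ)
    (G : Finset α) (A : Fin N → Finset α), Rk Q → Free n Q G → PD A →
    (∀ i, A i ⊆ G ∧ ¬ Ind Q (A i) ∧ lam Q G (A i) ≤ β) →
    ∃ R ⊆ G, ∃ P : Fin L × Fin ν → Finset α, PD P ∧ (∀ x, P x ⊆ G \ R ∧ Cntd (con Q R) (P x)) ∧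
      Skew (con Q R) univ P ∧ ∀ l,
        ((univ.biUnion fun j => P (l, j)).card : ℤ) ≤ con Q R (univ.biUnion fun j => P (l, j)) + ν ∧
        Q (univ.biUnion fun j => P (l, j)) + ν ≤ (univ.biUnion fun j => P (l, j)).card + n := by
  choose g0 hg0 using fun p => r0 n p (L * ν)
  obtain ⟨N, bm, hN⟩ := klem β fun b => g0 (b * β)
  refine ⟨N, fun α _ Q G A h hF pd hA => ?_⟩
  obtain ⟨b, -, u, hk⟩ := hN α Q A h fun a => (h.loc_le_lam (hA a).1 subset_rfl
    (biUnion_subset.2 fun i hi => subset_sdiff.2 ⟨(hA i).1, pd i a (mem_erase.1 hi).1⟩)).trans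
    (hA a).2.2
  obtain ⟨A', hA0⟩ : ∃ A' : Fin (b + g0 (b * β)) → Finset α, A' = fun i => A (u i) := ⟨_, rfl⟩
  have pd' : PD A' := hA0 ▸ fun i j ne => pd _ _ fun e => ne (u.injective e)
  have hA' : ∀ i, A' i ⊆ G ∧ ¬ Ind Q (A' i) ∧ lam Q G (A' i) ≤ β := hA0 ▸ fun i => hA (u i)
  rw [← hA0] at hk
  clear hA0 u hA pd A hN
  obtain ⟨J, -, hJ⟩ := exists_subset_card_eq (s := (univ : Finset (Fin (b + g0 (b * β))))) (n := b)
    (by simp)
  have cI : (univ \ J).card = g0 (b * β) := by rw [card_univ_sdiff, hJ]; simp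
  have iJ : ∀ a ∈ univ \ J, a ∉ J := fun a ha => (mem_sdiff.1 ha).2
  have sk : Skew (con Q (J.biUnion A')) (univ \ J) A' := (h.con _).skew_of_con fun a ha => by
    rw [con_con, ← union_biUnion, hk J a hJ.ge (iJ a ha),
      show J ∪ (univ \ J).erase a = univ.erase a by have := iJ a ha; grind]
  have rg : J.biUnion A' ⊆ G := biUnion_subset.2 fun a _ => (hA' a).1
  have rl := pw_lam_biUnion h G A' (fun i => (hA' i).2.2) J
  have rd : ∀ a ∈ univ \ J, A' a ⊆ G \ J.biUnion A' := fun a ha => subset_sdiff.2 ⟨(hA' a).1,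
    (disjoint_biUnion_right _ _ _).2 fun i hi => pd' a i fun e => iJ a ha (e ▸ hi)⟩
  generalize univ \ J = I at *
  generalize J.biUnion A' = R at *
  have h1 := h.con R
  choose B b1 b2 b3 b4 using fun a => h1.basis (A' a)
  choose c c1 c2 using fun a => exists_of_ssubset (ssubset_of_ne_of_subset
    (fun e : B a = A' a => (hA' a).2.1 (e ▸ h.ind_of_con (b2 a))) (b1 a))
  choose B' d1 d2 d3 using fun a => pw_circ h1 (b2 a) (c2 a) (b3 a _ (c1 a))
  have same : ∀ a a', ∀ z ∈ A' a, z ∈ A' a' → a = a' := fun a a' z k k' => by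
    by_contra ne
    exact disjoint_left.1 (pd' a a' ne) k k'
  have ci : Function.Injective c := fun a a' e => same a a' _ (c1 a) (e ▸ c1 a')
  have i1 : Ind (con Q R) (I.biUnion B) :=
    h1.skew_ind (h1.skew_sub sk subset_rfl fun a _ => b1 a) fun a _ => b2 a
  have s1 : I.biUnion B ⊆ G \ R := biUnion_subset.2 fun a ha => (b1 a).trans (rd a ha)
  have s2 : ∀ a ∈ I, B a ⊆ I.biUnion B := fun a ha => subset_biUnion_of_mem B ha
  have s3 : ∀ a, c a ∉ I.biUnion B := fun a k => by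
    obtain ⟨a', -, k⟩ := mem_biUnion.1 k
    exact c2 a (same a a' _ (c1 a) (b1 a' k) ▸ k)
  generalize I.biUnion B = Bs at *
  have s4 : ∀ z ∈ I.image c, z ∈ G \ R ∧ z ∉ Bs ∧ Cl (con Q R) Bs z := fun z hz => by
    obtain ⟨a, ha, rfl⟩ := mem_image.1 hz
    exact ⟨rd a ha (c1 a), s3 a, h1.cl_mono (s2 a ha) (b3 a _ (c1 a))⟩
  have i2 := h.ind_of_con i1
  obtain ⟨Y', y1, y2, y3⟩ := hg0 (b * β) α (con Q Bs) (G \ Bs) (I.image c) (h.con _)
    (hF.con h (s1.trans sdiff_subset) subset_rfl)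
    (fun z hz => mem_sdiff.2 ⟨(mem_sdiff.1 (s4 z hz).1).1, (s4 z hz).2.1⟩) (by
      have e1 := h1.span fun z hz => (s4 z hz).2.2
      have e2 := h.loc_le_lam (A := R) (B := Bs ∪ I.image c) rg subset_rfl
        (union_subset s1 fun z hz => (s4 z hz).1)
      unfold Ind loc con at *
      rw [union_comm R] at e2
      rw [hJ] at rl
      rw [union_comm]
      push_cast; omega) (by rw [card_image_of_injective _ ci, cI])
  obtain ⟨I', i3, rfl⟩ := subset_image_iff.1 y1
  rw [card_image_of_injective _ ci] at y2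
  obtain ⟨e0, e1, e2, -⟩ := gr_enum y2
  obtain ⟨e, ei, em⟩ : ∃ e : Fin L × Fin ν → Fin (b + g0 (b * β)), Function.Injective e ∧
      ∀ x, e x ∈ I' := ⟨e0 ∘ finProdFinEquiv, e1.comp finProdFinEquiv.injective, fun x => e2 _⟩
  have p1 : ∀ a, insert (c a) (B' a) ⊆ A' a := fun a => insert_subset (c1 a) ((d1 a).trans (b1 a))
  refine ⟨R, rg, fun x => insert (c (e x)) (B' (e x)), fun x y ne =>
    (pd' _ _ fun k => ne (ei k)).mono (p1 _) (p1 _), fun x => ⟨(p1 _).trans (rd _ (i3 (em x))),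
    d3 _⟩, ?_, fun l => ?_⟩
  · have := h1.skew_sub sk (t := univ.image e) (B := fun a => insert (c a) (B' a)) (fun a ha => by
      obtain ⟨x, -, rfl⟩ := mem_image.1 ha
      exact i3 (em x)) fun a _ => p1 a
    unfold Skew at *
    rwa [image_biUnion, sum_image fun a _ b _ k => ei k] at this
  · obtain ⟨Bl, hBl⟩ : ∃ Bl, Bl = univ.biUnion fun j => B' (e (l, j)) := ⟨_, rfl⟩
    obtain ⟨cl, hcl⟩ : ∃ cl, cl = univ.image fun j => c (e (l, j)) := ⟨_, rfl⟩
    have z1 : (univ.biUnion fun j => insert (c (e (l, j))) (B' (e (l, j)))) = cl ∪ Bl := by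
      ext z; simp only [hBl, hcl, mem_biUnion, mem_insert, mem_union, mem_image]; grind
    have z2 : cl.card = ν := by
      rw [hcl, card_image_of_injective _ fun j j' k => (Prod.mk.inj (ei (ci k))).2]; simp
    have z3 : Bl ⊆ Bs := hBl ▸ biUnion_subset.2 fun j _ => (d1 _).trans (s2 _ (i3 (em _)))
    have z4 : ∀ z ∈ cl, z ∈ I'.image c ∧ z ∉ Bs ∧ Cl (con Q R) Bl z := fun z hz => by
      obtain ⟨j, -, rfl⟩ := mem_image.1 (hcl ▸ hz)
      exact ⟨mem_image_of_mem _ (em _), s3 _, h1.cl_mono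
        (hBl ▸ subset_biUnion_of_mem (fun j => B' (e (l, j))) (mem_univ j)) (d2 _)⟩
    have z5 : (cl ∪ Bl).card = ν + Bl.card := by
      rw [card_union_of_disjoint (disjoint_left.2 fun z a b => (z4 z a).2.1 (z3 b)), z2]
    have z6 := h1.mono (subset_union_right (s₁ := cl) (s₂ := Bl))
    have z7 := h1.ind_sub i1 z3
    have z8 : Ind (con Q (cl ∪ Bl)) (Bs \ Bl) := by
      have := h1.ind_con (C := Bl) sdiff_disjoint (by rwa [sdiff_union_of_subset z3])
      rw [h1.con_congr (B := cl ∪ Bl) (fun z hz => cl_mem (mem_union_right _ hz)) fun z hz =>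
        (mem_union.1 hz).elim (fun k => (z4 z k).2.2) cl_mem, con_con] at this
      exact h.ind_con_anti subset_union_right this
    have z9 := h.mono (X := Bs \ Bl ∪ (cl ∪ Bl)) (Y := I'.image c ∪ Bs)
      (union_subset (sdiff_subset.trans subset_union_right)
        (union_subset_union (fun z hz => (z4 z hz).1) z3))
    have z10 := card_sdiff_add_card_eq_card z3
    rw [z1]
    unfold Ind con at *
    omega

end Pool.Agent.Lib.MP_a4b0c4_co.J
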