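import Pool.Agent.Lib.MP_a4b0c4_co.JPW2

set_option autoImplicit false
set_option linter.unusedSectionVars false
set_option linter.unusedVariables false

open Finset

namespace Pool.Agent.Lib.MP_a4b0c4_co.J

section
variable {α : Type} [DecidableEq α] {r : Finset α → ℤ}

/-- an element that cannot be contracted is tight -/
lemma pw_tight (h : Rk r) {E S T : Finset α} {k : ℤ} {e : α} (he : e ∈ E) (hT : e ∉ T)
    (ne : ¬ Cl r ∅ e) (c : ¬ Conn (con r {e}) (E.erase e) S T k) :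
    ∃ Z, e ∉ Z ∧ (S ⊆ Z ∧ Z ⊆ E \ T ∧ lam r E Z ≤ k) ∧
      (S ⊆ insert e Z ∧ insert e Z ⊆ E \ T ∧ lam r E (insert e Z) ≤ k) := by
  simp only [Conn, not_forall, not_le] at c
  obtain ⟨Z, z1, z2, z3⟩ := c
  have n2 := h.not_cl.1 ne
  have q1 := h.mono (subset_insert e Z)
  have q2 := h.mono (X := E \ insert e Z) (Y := E \ Z) (by grind)
  simp only [lam, con] at *
  rw [show E.erase e \ Z ∪ {e} = E \ Z by grind, show E.erase e ∪ {e} = E by grind,
    show Z ∪ {e} = insert e Z by grind] at z3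
  rw [h.emp, insert_empty_eq] at n2
  exact ⟨Z, by grind, ⟨z1, by grind, by omega⟩, z1.trans (subset_insert _ _), by grind, by omega⟩

lemma pw_set1 (E O C : Finset α) (e : α) : O ∪ C ∪ {e} = O ∪ insert e C ∧
    (E \ (O ∪ C)).erase e = E \ (O ∪ insert e C) := ⟨by grind, by grind⟩

/-- an unblocked level -/
lemma pw_last (h : Rk r) {E A S T Z Z1 Y : Finset α} {γ ν : ℕ} (h1 : Z1 ⊆ Z) (h2 : Z ⊆ E \ A)
    (hS : S ⊆ (E \ A) \ Z) (hY : Y.card ≤ ν)
    (c : Conn (con (con r A) Z) ((E \ A) \ Z) S T (γ + ν : ℕ)) :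
    Conn (con r (A ∪ Z1)) (E \ (A ∪ Z1 ∪ Y)) S T γ := by
  rw [← sup_eq_union (s := A ∪ Z1), ← sdiff_sdiff]
  refine pw_del (h.con _) (((h.con _).conn_of_minor (C := Z \ Z1)
    (E' := (E \ A) \ Z) (k := (γ + ν : ℕ)) (by grind) (by grind) hS ?_).le (by omega))
  rwa [con_con, show A ∪ Z = A ∪ Z1 ∪ Z \ Z1 by grind, ← con_con] at c

lemma pw_sets {E F C C0 G O S T : Finset α} (hFE : F ⊆ E) (hC : C ⊆ E \ F) (a1 : C0 ⊆ C)
    (g0 : G ⊆ C \ C0) (hO : O ∪ S ∪ T = F ∧ Disjoint O S ∧ Disjoint O T ∧ Disjoint S T) :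
    G ⊆ E \ (O ∪ C0) ∧ S ∪ T ⊆ E \ (O ∪ C0) ∧ O ∪ C0 ∪ (S ∪ T) = F ∪ C0 ∧ O ∪ C0 ⊆ E ∧
      (∀ P R, P ⊆ G \ R → P ⊆ (E \ (O ∪ C0)) \ (S ∪ T ∪ (S ∪ T ∪ R))) ∧
      (∀ Z ⊆ G, S ⊆ (E \ (O ∪ C0)) \ Z) ∧
      ∀ Z, G \ (Z ∩ G) ⊆ (E \ (O ∪ C0)) \ Z ∪ (S ∪ T) := by
  obtain ⟨rfl, a, b, c⟩ := hO
  rw [disjoint_left] at a b c
  refine ⟨?_, ?_, ?_, ?_, ?_, ?_, ?_⟩ <;> grind

lemma pw_sets2 {E F C C0 G L : Finset α} {P : α → Prop} (hFE : F ⊆ E) (hC : C ⊆ E \ F)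
    (a1 : C0 ⊆ C) (hL : ∀ e, e ∈ L ↔ e ∈ C ∧ e ∉ C0 ∧ P e)
    (hG : ∀ e, e ∈ G ↔ e ∈ C ∧ e ∉ C0 ∧ ¬ P e) :
    G ⊆ C \ C0 ∧ G ⊆ E \ (F ∪ C0) ∧ G ∪ (F ∪ C0) ⊆ C ∪ F ∧ C ⊆ C0 ∪ L ∪ G ∧ F ∪ C0 ⊆ E := by
  refine ⟨?_, ?_, ?_, ?_, ?_⟩ <;> grind

end

theorem pw (eng : StEngine) : StPW := by
  intro n q g γ
  obtain ⟨k0, t, hE⟩ := eng n (n + g) (γ + 2 * (n + g))
  obtain ⟨k, k1, k2⟩ : ∃ k : ℕ, k0 ≤ k ∧ γ + g ≤ k := ⟨k0 + (γ + g), by omega, by omega⟩
  obtain ⟨N, hN⟩ := pw_circuits n (2 * (2 * q * k)) (q * t + 1) (n + g)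
  refine ⟨k, N * (2 * q * k + 1) + g, fun α _ π _ r E F C O S T hq h hF hFE hO hc hC hK => ?_⟩
  classical
  obtain ⟨C0, a, hmax⟩ := exists_max_image (C.powerset.filter fun C0 => Ind (con r F) C0 ∧
    ∀ x, Conn (con r (O x ∪ C0)) (E \ (O x ∪ C0)) (S x) (T x) k) card
    ⟨∅, by simpa using ⟨(h.con F).ind_empty, hc⟩⟩
  simp only [mem_filter, mem_powerset] at a hmax
  obtain ⟨a1, a2, a3⟩ := a
  have hQ := h.con (F ∪ C0)
  obtain ⟨L, hL⟩ : ∃ L : Finset α, ∀ e, e ∈ L ↔ e ∈ C ∧ e ∉ C0 ∧ Cl r (F ∪ C0) e :=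
    ⟨(C \ C0).filter (Cl r (F ∪ C0)), by simp [and_assoc]⟩
  by_cases hg : g ≤ L.card
  · obtain ⟨Y, y1, y2⟩ := exists_subset_card_eq hg
    refine ⟨C0, Y, a1, fun y hy => ((hL y).1 (y1 hy)).1, disjoint_right.2 fun y hy =>
      ((hL y).1 (y1 hy)).2.1, y2, a2, fun y hy => ((hL y).1 (y1 hy)).2.2, fun x => ?_⟩
    rw [← sup_eq_union (s := O x ∪ C0), ← sdiff_sdiff]
    exact pw_del (h.con _) ((a3 x).le (by omega))
  obtain ⟨G, hG⟩ : ∃ G : Finset α, ∀ e, e ∈ G ↔ e ∈ C ∧ e ∉ C0 ∧ ¬ Cl r (F ∪ C0) e :=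
    ⟨(C \ C0).filter fun e => ¬ Cl r (F ∪ C0) e, by simp [and_assoc]⟩
  obtain ⟨g0, g1, g5, g6, g7⟩ := pw_sets2 hFE hC a1 hL hG
  have gs := fun x => pw_sets hFE hC a1 g0 (hO x)
  have g2 := fun x => (gs x).1
  have g3 := fun x => (gs x).2.1
  have g4 := fun x => (gs x).2.2.1
  have nul : (N * (2 * q * k + 1) : ℕ) ≤ (G.card : ℤ) - con r (F ∪ C0) G := by
    have h1 := h.mono g5
    have h2 : C.card ≤ C0.card + L.card + G.card :=
      (card_le_card g6).trans ((card_union_le _ _).trans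
        (Nat.add_le_add_right (card_union_le _ _) _))
    unfold Ind con at *
    rw [union_comm C0] at a2
    omega
  let Mn : π → Finset α → Prop := fun x Z => S x ⊆ Z ∧ Z ⊆ (E \ (O x ∪ C0)) \ T x ∧
    lam (con r (O x ∪ C0)) (E \ (O x ∪ C0)) Z ≤ k
  have mn : ∀ x Z Z', Mn x Z → Mn x Z' → Mn x (Z ∪ Z') ∧ Mn x (Z ∩ Z') := fun x Z Z' p p' => by
    have h1 := (h.con (O x ∪ C0)).lam_subm (E \ (O x ∪ C0)) Z Z'
    have h2 := a3 x (Z ∪ Z') (p.1.trans subset_union_left) (union_subset p.2.1 p'.2.1)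
    have h3 := a3 x (Z ∩ Z') (subset_inter p.1 p'.1) (inter_subset_left.trans p.2.1)
    exact ⟨⟨p.1.trans subset_union_left, union_subset p.2.1 p'.2.1, by linarith [p.2.2, p'.2.2]⟩,
      subset_inter p.1 p'.1, inter_subset_left.trans p.2.1, by linarith [p.2.2, p'.2.2]⟩
  let La : π → Finset α → Prop := fun x U => U = ∅ ∨ U = G ∨ ∃ Z, Mn x Z ∧ U = Z ∩ G
  have la : ∀ x U, La x U → U ⊆ G ∧ lam (con r (F ∪ C0)) G U ≤ k := by
    rintro x U (rfl | rfl | ⟨Z, p, rfl⟩)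
    · exact ⟨empty_subset _, by simp [lam, hQ.emp]⟩
    · exact ⟨subset_rfl, by simp [lam, hQ.emp]⟩
    · refine ⟨inter_subset_right, le_trans ?_ p.2.2⟩
      rw [← g4 x, ← con_con]
      exact (h.con _).lam_minor (g3 x) (g2 x) (p.2.1.trans sdiff_subset) inter_subset_right
        (inter_subset_left.trans subset_union_left) ((gs x).2.2.2.2.2.2 Z)
  obtain ⟨f, f1, f2⟩ := pw_order hQ G k (fun x e => ∃ U, e ∉ U ∧ La x U ∧ La x (insert e U))
    (fun x => by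
      obtain ⟨f, f1, f2⟩ := pw_lattice G (La x) (.inl rfl) (.inr (.inl rfl))
        (fun U V p p' => by
          have s1 := (la x U p).1
          have s2 := (la x V p').1
          rcases p with rfl | rfl | ⟨Z, p, rfl⟩
          · rwa [empty_union]
          · exact .inr (.inl (union_eq_left.2 s2))
          rcases p' with rfl | rfl | ⟨Z', p', rfl⟩
          · exact .inr (.inr ⟨Z, p, union_empty _⟩)
          · exact .inr (.inl (union_eq_right.2 s1))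
          · exact .inr (.inr ⟨_, (mn x Z Z' p p').1, (union_inter_distrib_right _ _ _).symm⟩))
        (fun U V p p' => by
          have s1 := (la x U p).1
          have s2 := (la x V p').1
          rcases p with rfl | rfl | ⟨Z, p, rfl⟩
          · exact .inl (empty_inter _)
          · rwa [inter_eq_right.2 s2]
          rcases p' with rfl | rfl | ⟨Z', p', rfl⟩
          · exact .inl (inter_empty _)
          · exact .inr (.inr ⟨Z, p, inter_eq_left.2 s1⟩)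
          · exact .inr (.inr ⟨_, (mn x Z Z' p p').2, (inter_inter_distrib_right _ _ _).symm⟩))
      exact ⟨f, fun p => (la x _ (f1 p)).2, f2⟩) univ
  have tight : ∀ e ∈ G, ∃ x ∈ univ, ∃ U, e ∉ U ∧ La x U ∧ La x (insert e U) := fun e he => by
    obtain ⟨e1, e2, e3⟩ := (hG e).1 he
    have : ¬ ∀ x, Conn (con r (O x ∪ insert e C0)) (E \ (O x ∪ insert e C0)) (S x) (T x) k :=
      fun c => by
        have := hmax (insert e C0) ⟨insert_subset e1 a1, (h.con F).ind_insert a2 fun c' =>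
          e3 (union_comm C0 F ▸ cl_con.1 c'), c⟩
        rw [card_insert_of_notMem e2] at this; omega
    obtain ⟨x, hx⟩ := not_forall.1 this
    rw [← (pw_set1 E (O x) C0 e).2, ← (pw_set1 E (O x) C0 e).1, ← con_con] at hx
    obtain ⟨Z, z1, z2, z3⟩ := pw_tight (h.con _) (g2 x he) (fun c => (mem_sdiff.1 (g1 he)).2
      (g4 x ▸ mem_union_right _ (mem_union_right _ c))) (fun c => e3 (h.cl_mono
        (g4 x ▸ (empty_union _).le.trans subset_union_left) (cl_con.1 c))) hx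
    exact ⟨x, mem_univ _, Z ∩ G, fun c => z1 (mem_inter.1 c).1, .inr (.inr ⟨Z, z2, rfl⟩),
      .inr (.inr ⟨insert e Z, z3, (insert_inter_of_mem he).symm⟩)⟩
  obtain ⟨A, b1, b2⟩ := pw_intervals hQ (G := G) (f := f) (β := 2 * q * k)
    (fun e he e' he' c => f2 e' he' (tight e' he') e he c) (fun p => (f1 p).trans (by
      exact_mod_cast Nat.mul_le_mul_right k (Nat.mul_le_mul_left 2 hq))) N 0 (by
      simpa [hQ.emp] using nul)
  obtain ⟨R, r1, P, p1, p2, p3, p4⟩ := hN α _ G A hQ (hF.con h g7 g1) b1 fun i =>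
    ⟨(b2 i).1.trans sdiff_subset, (b2 i).2.1, by exact_mod_cast (b2 i).2.2⟩
  have p5 : ∀ l, (univ.biUnion fun j => P (l, j)) ⊆ G := fun l =>
    biUnion_subset.2 fun j _ => (p2 _).1.trans sdiff_subset
  by_cases bl : ∀ l, ∃ x, ¬ Conn (con (con r (O x ∪ C0)) (univ.biUnion fun j => P (l, j)))
      ((E \ (O x ∪ C0)) \ univ.biUnion fun j => P (l, j)) (S x) (T x) (γ + (n + g) : ℕ)
  · exfalso
    choose ξ hξ using bl
    obtain ⟨x, -, hx⟩ := exists_le_card_fiber_of_mul_le_card_of_maps_to (s := univ) (t := univ)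
      (f := ξ) (n := t) (fun _ _ => mem_univ _) ⟨ξ 0, mem_univ _⟩ (by
        have := Nat.mul_le_mul_right t hq
        simp only [card_univ, Fintype.card_fin]; omega)
    obtain ⟨Λ, l1, l2⟩ := exists_subset_card_eq hx
    obtain ⟨μ, m1, m2, -⟩ := gr_enum l2
    have m3 : ∀ i, ξ (μ i) = x := fun i => (mem_filter.1 (l1 (m2 i))).2
    have mi : Function.Injective fun z : Fin t × Fin (n + g) => (μ z.1, z.2) := fun z z' c =>
      Prod.ext (m1 (Prod.mk.inj c).1) (Prod.mk.inj c).2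
    have e1 : con (con r (O x ∪ C0)) (S x ∪ T x ∪ R) = con (con r (F ∪ C0)) R := by
      rw [con_con, con_con, ← union_assoc, g4]
    refine hE α (Fin (n + g)) (con r (O x ∪ C0)) (E \ (O x ∪ C0)) (S x) (T x) (S x ∪ T x ∪ R)
      (fun z => P (μ z.1, z.2)) (by simp) (h.con _)
      (hF.con h (gs x).2.2.2.1 subset_rfl) (subset_union_left.trans (g3 x))
      (subset_union_right.trans (g3 x)) (hO x).2.2.2 (union_subset (g3 x) (r1.trans (g2 x)))
      (fun z => (gs x).2.2.2.2.1 _ _ (p2 _).1) (fun z z' ne => p1 _ _ fun c => ne (mi c)) ((a3 x).le (by exact_mod_cast k1))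
      (fun z => e1 ▸ (p2 _).2) ?_ fun i => ?_
    · have := (hQ.con R).skew_sub p3 (subset_univ (univ.image
        fun z : Fin t × Fin (n + g) => (μ z.1, z.2))) fun _ _ => subset_rfl
      rw [e1]
      unfold Skew at *
      rwa [image_biUnion, sum_image fun a _ b _ c => mi c] at this
    · have := hξ (μ i)
      rw [m3] at this
      simp only [Conn, not_forall, not_le] at this
      obtain ⟨Z, z1, z2, z3⟩ := this
      refine ⟨Z, z1, z2, ?_⟩
      have h1 := (p4 (μ i)).1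
      have h2 := (h.con (O x ∪ C0)).le_card (univ.biUnion fun j => P (μ i, j))
      rw [← e1, con] at h1
      simp only [loc]; omega
  · push Not at bl
    obtain ⟨l, hl⟩ := bl
    have h1 := (p4 l).2
    have h2 := p5 l
    generalize (univ.biUnion fun j => P (l, j)) = Z at *
    obtain ⟨Z1, z1, z2, z3, z4⟩ := hQ.basis Z
    obtain ⟨Y, y1, y2⟩ := exists_subset_card_eq (s := Z \ Z1) (n := g) (by
      have := card_sdiff_add_card_eq_card z1; omega)
    have s1 : Z ⊆ C \ C0 := h2.trans g0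
    have s2 : Y ⊆ C \ C0 := y1.trans (sdiff_subset.trans s1)
    refine ⟨C0 ∪ Z1, Y, union_subset a1 (z1.trans (s1.trans sdiff_subset)), s2.trans sdiff_subset,
      disjoint_union_left.2 ⟨disjoint_sdiff.mono_right s2, disjoint_sdiff.mono_right y1⟩, y2, ?_,
      fun y hy => ?_, fun x => ?_⟩
    · rw [← con_con] at z2
      exact union_comm Z1 C0 ▸ (h.con F).ind_union a2 z2
    · rw [← union_assoc, union_comm]
      exact cl_con.1 (z3 y (mem_sdiff.1 (y1 hy)).1)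
    · rw [← union_assoc]
      exact pw_last h z1 (h2.trans (g2 x)) ((gs x).2.2.2.2.2.1 Z h2) (by omega) (hl x)

end Pool.Agent.Lib.MP_a4b0c4_co.J
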