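import Pool.Agent.Lib.MP_a4b0c4_co.JSpec

set_option autoImplicit false
set_option linter.unusedSectionVars false
set_option linter.unusedVariables false

open Finset

namespace Pool.Agent.Lib.MP_a4b0c4_co.J

/-- finite hypergraph Ramsey theorem, one size -/
theorem ramF (κ : Type) [Fintype κ] (k : ℕ) : ∀ m : ℕ, ∃ N : ℕ, ∀ (V : Type) [DecidableEq V]
    (S : Finset V) (χ : Finset V → κ), N ≤ S.card →
    ∃ H ⊆ S, H.card = m ∧ ∃ d, ∀ s ⊆ H, s.card = k → χ s = d := by
  classical
  induction k with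
  | zero =>
    intro m
    refine ⟨m, fun V _ S χ hS => ?_⟩
    obtain ⟨H, h1, h2⟩ := exists_subset_card_eq hS
    exact ⟨H, h1, h2, χ ∅, fun s _ hs => by rw [card_eq_zero.1 hs]⟩
  | succ k ih =>
    have key : ∀ l : ℕ, ∃ N : ℕ, ∀ (V : Type) [DecidableEq V] (S : Finset V) (χ : Finset V → κ),
        N ≤ S.card → ∃ H ⊆ S, H.card = l ∧ ∃ c : V → κ, ∀ s ⊆ H, s.card = k + 1 →
          ∃ x ∈ s, χ s = c x := by
      intro l
      induction l with
      | zero =>
        refine ⟨0, fun V _ S χ _ => ⟨∅, empty_subset _, rfl, fun _ => χ ∅, fun s hs hc => ?_⟩⟩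
        rw [subset_empty.1 hs] at hc
        simp at hc
      | succ l ihl =>
        obtain ⟨N1, h1⟩ := ihl
        obtain ⟨N2, h2⟩ := ih N1
        refine ⟨N2 + 1, fun V _ S χ hS => ?_⟩
        obtain ⟨x, hx⟩ : S.Nonempty := card_pos.1 (by omega)
        obtain ⟨H, a1, a2, d, a3⟩ := h2 V (S.erase x) (fun s => χ (insert x s))
          (by rw [card_erase_of_mem hx]; omega)
        obtain ⟨H', b1, b2, c, b3⟩ := h1 V H χ a2.ge
        have hxH : x ∉ H' := fun k => by simpa using a1 (b1 k)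
        refine ⟨insert x H', insert_subset hx (b1.trans (a1.trans (erase_subset _ _))),
          by rw [card_insert_of_notMem hxH, b2], Function.update c x d, fun s hs hc => ?_⟩
        by_cases hxs : x ∈ s
        · refine ⟨x, hxs, ?_⟩
          have := a3 (s.erase x) (fun y hy => b1 (by grind)) (by rw [card_erase_of_mem hxs]; omega)
          simp only [insert_erase hxs] at this
          simpa using this
        · obtain ⟨y, hy, e⟩ := b3 s (by grind) hc
          refine ⟨y, hy, ?_⟩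
          rw [Function.update_of_ne (by grind)]
          exact e
    intro m
    obtain ⟨N, hN⟩ := key (Fintype.card κ * m)
    refine ⟨N, fun V _ S χ hS => ?_⟩
    obtain ⟨H, a1, a2, c, a3⟩ := hN V S χ hS
    obtain ⟨d, -, hd⟩ := exists_le_card_fiber_of_mul_le_card_of_maps_to (s := H) (t := univ)
      (f := c) (n := m) (fun _ _ => mem_univ _) ⟨χ ∅, mem_univ _⟩ (by rw [a2, card_univ])
    obtain ⟨H', b1, b2⟩ := exists_subset_card_eq hd
    refine ⟨H', b1.trans ((filter_subset _ _).trans a1), b2, d, fun s hs hc => ?_⟩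
    obtain ⟨x, hx, e⟩ := a3 s (hs.trans (b1.trans (filter_subset _ _))) hc
    rw [e]
    exact (mem_filter.1 (b1 (hs hx))).2

/-- finite hypergraph Ramsey theorem, all sizes up to M -/
theorem ramM (κ : Type) [Fintype κ] (M : ℕ) : ∀ m : ℕ, ∃ N : ℕ, ∀ (V : Type) [DecidableEq V]
    (S : Finset V) (χ : Finset V → κ), N ≤ S.card →
    ∃ H ⊆ S, H.card = m ∧ ∃ d : ℕ → κ, ∀ s ⊆ H, s.card ≤ M → χ s = d s.card := by
  induction M with
  | zero =>
    intro m
    refine ⟨m, fun V _ S χ hS => ?_⟩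
    obtain ⟨H, h1, h2⟩ := exists_subset_card_eq hS
    exact ⟨H, h1, h2, fun _ => χ ∅, fun s _ hs => by rw [card_eq_zero.1 (Nat.le_zero.1 hs)]⟩
  | succ M ih =>
    intro m
    obtain ⟨N1, h1⟩ := ih m
    obtain ⟨N2, h2⟩ := ramF κ (M + 1) N1
    refine ⟨N2, fun V _ S χ hS => ?_⟩
    obtain ⟨H, a1, a2, d, a3⟩ := h2 V S χ hS
    obtain ⟨H', b1, b2, c, b3⟩ := h1 V H χ a2.ge
    refine ⟨H', b1.trans a1, b2, Function.update c (M + 1) d, fun s hs hc => ?_⟩
    by_cases e : s.card = M + 1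
    · rw [e, Function.update_self]
      exact a3 s (hs.trans b1) e
    · rw [Function.update_of_ne e]
      exact b3 s hs (by omega)

/-- integer valued bounded colourings -/
theorem ramZ (M m c : ℕ) : ∃ N : ℕ, ∀ (V : Type) [DecidableEq V]
    (S : Finset V) (χ : Finset V → ℤ), N ≤ S.card →
    (∀ s ⊆ S, s.card ≤ M → 0 ≤ χ s ∧ χ s ≤ c) →
    ∃ H ⊆ S, H.card = m ∧ ∃ d : ℕ → ℤ, ∀ s ⊆ H, s.card ≤ M → χ s = d s.card := by
  obtain ⟨N, hN⟩ := ramM (Fin (c + 1)) M m
  refine ⟨N, fun V _ S χ hS hb => ?_⟩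
  obtain ⟨H, a1, a2, d, a3⟩ := hN V S (fun s => ⟨min (χ s).toNat c, by omega⟩) hS
  refine ⟨H, a1, a2, fun l => ((d l : ℕ) : ℤ), fun s hs hc => ?_⟩
  have h1 := congrArg Fin.val (a3 s hs hc)
  have h2 := hb s (hs.trans a1) hc
  simp only at h1 ⊢
  omega

theorem ramseyMulti : StRamseyMulti := by
  intro M m κ _
  obtain ⟨N, hN⟩ := ramM κ M m
  refine ⟨N, fun χ => ?_⟩
  obtain ⟨H, -, a2, d, a3⟩ := hN (Fin N) univ χ (by simp)
  refine ⟨H.orderEmbOfFin a2, fun s t hst hs => ?_⟩
  have sub : ∀ u : Finset (Fin m), u.image (H.orderEmbOfFin a2) ⊆ H := fun u y hy => by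
    obtain ⟨i, -, rfl⟩ := mem_image.1 hy
    exact H.orderEmbOfFin_mem a2 i
  have cd : ∀ u : Finset (Fin m), (u.image (H.orderEmbOfFin a2)).card = u.card := fun u =>
    card_image_of_injective _ (H.orderEmbOfFin a2).injective
  rw [a3 _ (sub s) (by rw [cd]; exact hs), a3 _ (sub t) (by rw [cd, ← hst]; exact hs), cd, cd, hst]

theorem ramsey : StRamsey := by
  intro k m κ _
  obtain ⟨N, hN⟩ := ramF (Option κ) k m
  refine ⟨N, fun χ => ?_⟩
  obtain ⟨H, -, a2, d, a3⟩ := hN (Fin N) univ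
    (fun s => if h : s.card = k then some (χ (s.orderEmbOfFin h)) else none) (by simp)
  refine ⟨H.orderEmbOfFin a2, ?_⟩
  have key : ∀ f : Fin k ↪o Fin m, some (χ fun i => H.orderEmbOfFin a2 (f i)) = d := by
    intro f
    have inj : Function.Injective fun i => H.orderEmbOfFin a2 (f i) :=
      (H.orderEmbOfFin a2).injective.comp f.injective
    have cd : (univ.image fun i => H.orderEmbOfFin a2 (f i)).card = k := by
      rw [card_image_of_injective _ inj]; simp
    have := a3 _ (fun y hy => by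
      obtain ⟨i, -, rfl⟩ := mem_image.1 hy
      exact H.orderEmbOfFin_mem a2 _) cd
    simp only [dif_pos cd] at this
    rw [← this, ← orderEmbOfFin_unique cd (f := fun i => H.orderEmbOfFin a2 (f i))
      (fun i => mem_image_of_mem _ (mem_univ i))
      ((H.orderEmbOfFin a2).strictMono.comp f.strictMono)]
  intro f f'
  exact Option.some_injective _ ((key f).trans (key f').symm)

end Pool.Agent.Lib.MP_a4b0c4_co.J
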