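import Pool.Agent.Lib.MP_a4b0c4_co.JSU1

/-! Hub case of the strip theorem: abstract part. -/

set_option autoImplicit false
set_option linter.unusedSectionVars false
set_option linter.unusedVariables false

open Finset

namespace Pool.Agent.Lib.MP_a4b0c4_co.J.U

variable {α β : Type} [DecidableEq α] [DecidableEq β]

/-- skew families of equal positive rank after contracting some of the sets -/
lemma sf (m : ℕ) (V : β → Finset α) (A : Finset β) (k : ℕ) : ∀ r : Finset α → ℤ, Rk r →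
    (∀ a ∈ A, r (V a) ≤ k) → ((k * (m * k) : ℕ) : ℤ) < r (A.biUnion V) →
    ∃ (Z F : Finset β) (s : ℕ), F ⊆ A ∧ 1 ≤ s ∧ m ≤ F.card ∧
      (∀ a ∈ F, con r (Z.biUnion V) (V a) ≤ s) ∧
      ((s * F.card : ℕ) : ℤ) ≤ con r (Z.biUnion V) (F.biUnion V) := by
  induction k with
  | zero =>
    intro r hr h1 h2
    have := (hr.biUnion_le A V).trans (sum_nonpos h1)
    omega
  | succ k ih =>
    intro r hr h1 h2
    obtain ⟨F, hF, mx⟩ := (A.powerset.filter fun F => (((k + 1) * F.card : ℕ) : ℤ) ≤ r (F.biUnion V)).exists_max_image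
      card ⟨∅, by simp [hr.emp]⟩
    obtain ⟨f1, f2⟩ := mem_filter.1 hF
    rw [mem_powerset] at f1
    by_cases c : m ≤ F.card
    · refine ⟨∅, F, k + 1, f1, by omega, c, ?_⟩
      rw [biUnion_empty, hr.con_empty]
      exact ⟨fun a ha => h1 a (f1 ha), f2⟩
    obtain ⟨Z, G, s, g⟩ := ih _ (hr.con (F.biUnion V)) (fun a ha => by
      unfold con
      by_cases e : a ∈ F
      · rw [union_eq_right.2 (subset_biUnion_of_mem V e)]; omega
      · by_contra l
        have := mx (insert a F) (mem_filter.2 ⟨mem_powerset.2 (insert_subset ha f1), by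
          rw [biUnion_insert, card_insert_of_notMem e, mul_add]
          omega⟩)
        rw [card_insert_of_notMem e] at this
        omega) (by
      have a1 := (hr.biUnion_le F V).trans (sum_le_card_nsmul F _ _ fun a ha => h1 a (f1 ha))
      have a2 := hr.mono (subset_union_left (s₁ := A.biUnion V) (s₂ := F.biUnion V))
      have a3 : F.card * (k + 1) + k * (m * k) ≤ (k + 1) * (m * (k + 1)) := by
        have := Nat.mul_le_mul_right (k + 1) (not_le.1 c).le
        nlinarith [Nat.zero_le (k * m)]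
      rw [nsmul_eq_mul, ← Nat.cast_mul] at a1
      unfold con
      omega)
    exact ⟨F ∪ Z, G, s, by rwa [union_biUnion, ← con_con]⟩

lemma core {ρ : Finset α → Finset β → ℤ} {n m : ℕ} (h : BM ρ) (hf : FreeB n ρ Set.univ Set.univ)
    (fk : ∀ ρ : Finset (Fin m ⊕ Fin m) → Finset (Fin m × Fin m) → ℤ,
      BM ρ → FreeB n ρ Set.univ Set.univ →
      (∀ v e, ρ {v} {e} = if v = Sum.inl e.1 ∨ v = Sum.inr e.2 then 1 else 0) → False)
    {T D : Finset α} {C : Fin m → Finset β} {K : Finset β} {u w : Fin m → β} {e : Fin m × Fin m → β}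
    (pd : PD C) (hu : ∀ j, u j ∈ C j) (iC : Ind (ρ D) (univ.biUnion C))
    (cD : D.card ≤ (univ.biUnion C).card) (z : ρ D (K ∪ univ.image w) = 0)
    (iK : Ind (ρ T) (K ∪ univ.image w)) (wi : Function.Injective w) (wK : ∀ i, w i ∉ K)
    (hC : ∀ j, ∀ c ∈ C j, Cl (ρ T) K c) (h1 : ∀ x, Cl (ρ T) (insert (w x.2) K) (e x))
    (h2 : ∀ x, ¬ Cl (ρ T) K (e x)) (h3 : ∀ x, Cl (ρ D) (C x.1) (e x))
    (h4 : ∀ x, ¬ Cl (ρ D) ((C x.1).erase (u x.1)) (e x)) : False := by
  obtain ⟨A, hA⟩ : ∃ A, A = univ.biUnion C := ⟨_, rfl⟩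
  obtain ⟨W, hW⟩ : ∃ W, W = K ∪ univ.image w := ⟨_, rfl⟩
  have sC : ∀ j, C j ⊆ A := fun j => hA ▸ subset_biUnion_of_mem C (mem_univ j)
  have sK : K ⊆ W := hW ▸ subset_union_left
  have sw : ∀ i, w i ∈ W := fun i => hW ▸ mem_union_right _ (mem_image_of_mem _ (mem_univ i))
  have hA' : ∀ c ∈ A, Cl (ρ T) K c := fun c hc => by
    obtain ⟨j, -, k⟩ := mem_biUnion.1 (hA ▸ hc)
    exact hC j c k
  rw [← hA] at iC cD
  rw [← hW] at z iK
  have hV := h.col (T ∪ D)
  have hT := h.col T
  have hD := h.col D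
  have lp : ∀ y ∈ W, ∀ X, Cl (ρ D) X y := fun y hy X => hD.cl_mono (empty_subset X)
    (hD.cl_of_le (empty_subset W) hy (by rw [z, hD.emp]))
  have wA : ∀ i, w i ∉ A := fun i k => hD.ind_not_cl iC k subset_rfl (lp _ (sw i) _)
  have iB : Ind (ρ (T ∪ D)) (A ∪ W) := by
    have := h.tri z (R' := T) (A := T ∪ D) (by rw [union_comm]) (subset_refl (A ∪ W))
    have := card_union_le A W
    rw [hV.ind_iff]
    unfold Ind at *
    omega
  have c2 : ∀ x, Cl (ρ (T ∪ D)) (A ∪ insert (w x.2) K) (e x) := fun x => by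
    have s := insert_subset (sw x.2) sK
    have a1 := h.tri (R := D) (R' := T) (Y := A) (Y' := insert (w x.2) K) (A := T ∪ D)
      (le_antisymm (z ▸ hD.mono s) (h.nn _ _)) (by rw [union_comm]) subset_rfl
    have a2 := (h.row (insert (e x) (A ∪ insert (w x.2) K))).add_card T D
    have a3 := hT.span_le (A := insert (w x.2) K) (X := insert (e x) (A ∪ insert (w x.2) K))
      fun y hy => (mem_insert.1 hy).elim (fun k => k ▸ h1 x) fun k => (mem_union.1 k).elim
        (fun k => hT.cl_mono (subset_insert _ _) (hA' y k)) cl_mem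
    rw [hV.cl_iff]
    unfold Ind tr at *
    omega
  have c3 : ∀ x, Cl (ρ (T ∪ D)) (A ∪ W) (e x) := fun x =>
    hV.cl_mono (union_subset_union_right (insert_subset (sw x.2) sK)) (c2 x)
  have toA : ∀ j, ∀ y ∈ (A ∪ W).erase (u j), Cl (ρ D) (A.erase (u j)) y := fun j y hy =>
    (mem_union.1 (mem_of_mem_erase hy)).elim (fun k => cl_mem (mem_erase.2 ⟨(mem_erase.1 hy).1, k⟩))
      fun k => lp y k _
  have n1 : ∀ x, ¬ Cl (ρ (T ∪ D)) ((A ∪ W).erase (u x.1)) (e x) := fun x k =>
    h4 x (hD.cl_mono (by clear * -; grind) (hD.cl_inter iC (erase_subset _ _) (sC x.1)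
      (hD.cl_trans (toA x.1) (h.cl_view subset_union_right k)) (h3 x)))
  have n2 : ∀ x, ¬ Cl (ρ (T ∪ D)) ((A ∪ W).erase (w x.2)) (e x) := fun x k =>
    h2 x (hT.cl_mono (by clear * -; grind) (hT.cl_inter iK (erase_subset (w x.2) _)
      (insert_subset (sw x.2) sK) (hT.cl_trans (fun y hy =>
        (mem_union.1 (mem_of_mem_erase hy)).elim (fun k => hT.cl_mono (fun y hy =>
          mem_erase.2 ⟨fun e => wK _ (e ▸ hy), sK hy⟩) (hA' y k))
          fun k => cl_mem (mem_erase.2 ⟨(mem_erase.1 hy).1, k⟩))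
        (h.cl_view subset_union_left k)) (h1 x)))
  have ent : ∀ v x, Cl (ρ (T ∪ D)) ((A ∪ W).erase (Sum.elim u w v)) (e x) ↔
      ¬ (v = Sum.inl x.1 ∨ v = Sum.inr x.2) := fun v x => by
    refine ⟨fun k => ?_, fun k => ?_⟩
    · rintro (rfl | rfl)
      exacts [n1 x k, n2 x k]
    rcases v with j | i
    · by_contra l
      have m1 : u j ∈ A := sC j (hu j)
      refine hD.ind_not_cl iC m1 subset_rfl (hD.cl_trans (fun y hy => ?_)
        (h.cl_view subset_union_right (hV.exchange (f := u j) ?_ l)))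
      · refine (mem_insert.1 hy).elim (fun k' => k' ▸ hD.cl_mono (fun y hy => ?_) (h3 x)) (toA j y)
        exact mem_erase.2 ⟨fun e => disjoint_left.1 (pd j x.1 fun e => k (.inl (e ▸ rfl))) (hu j)
          (e ▸ hy), sC _ hy⟩
      · exact (insert_erase (mem_union_left W m1)).symm ▸ c3 x
    · refine hV.cl_mono (fun y hy => mem_erase.2 ⟨?_,
        union_subset_union_right (insert_subset (sw x.2) sK) hy⟩) (c2 x)
      rintro rfl
      rcases mem_union.1 hy with l | l
      · exact wA i l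
      · exact (mem_insert.1 l).elim (fun l => k (.inr (wi l ▸ rfl))) (wK i)
  have mG : ∀ x, e x ∈ univ.image e := fun x => mem_image_of_mem _ (mem_univ x)
  have hB := hV.bm iB (G := univ.image e) fun y hy => by
    obtain ⟨x, -, rfl⟩ := mem_image.1 hy
    exact c3 x
  have fB := Free.bm hV iB (G := univ.image e) (hf.col h (Set.subset_univ _) (Set.subset_univ _))
    subset_rfl (disjoint_right.2 fun y hy k => by
      obtain ⟨x, -, rfl⟩ := mem_image.1 hy
      by_cases l : e x = u x.1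
      · exact n2 x (cl_mem (mem_erase.2 ⟨fun l' => wA x.2 (l' ▸ l ▸ sC _ (hu _)), k⟩))
      · exact n1 x (cl_mem (mem_erase.2 ⟨l, k⟩)))
  refine fk (pullB (bm (ρ (T ∪ D)) (A ∪ W) (univ.image e)) (Sum.elim u w) e) (hB.pull _ _)
    (fB.pull hB ?_ (fun x _ y _ k => ?_) ?_ fun x _ => mG x) fun v x => ?_
  · rintro (i | i) - (j | j) - k <;> simp only [Sum.elim_inl, Sum.elim_inr] at k
    · by_contra l
      exact disjoint_left.1 (pd i j fun e => l (e ▸ rfl)) (hu i) (k ▸ hu j)
    · exact absurd (k ▸ sC _ (hu i)) (wA j)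
    · exact absurd (k ▸ sC _ (hu j)) (wA i)
    · rw [wi k]
  · have a1 := (ent (.inl x.1) y).not.1 (k ▸ n1 x)
    have a2 := (ent (.inr x.2) y).not.1 (k ▸ n2 x)
    exact Prod.ext (by simpa using a1) (by simpa using a2)
  · rintro (i | i) -
    exacts [mem_union_left _ (sC _ (hu i)), mem_union_right _ (sw i)]
  · have a1 := (bm_entry hV iB (b := Sum.elim u w v) (mG x)).trans (ent v x)
    have a2 := hB.one (Sum.elim u w v) (e x)
    simp only [pullB, image_singleton]
    split_ifs with k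
    · exact a2.resolve_left fun l => a1.1 l k
    · exact a1.2 k

end Pool.Agent.Lib.MP_a4b0c4_co.J.U
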