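import Pool.Agent.Lib.MP_a4b0c4_co.JS1a
import Pool.Agent.Lib.MP_a4b0c4_co.JSU3

/-! Hub case of the strip theorem. -/

set_option autoImplicit false
set_option linter.unusedSectionVars false
set_option linter.unusedVariables false

open Finset

namespace Pool.Agent.Lib.MP_a4b0c4_co.J.U

section
variable {Γ : Type} [DecidableEq Γ] {U : Finset (Γ × ℝ) → ℤ} {n m K0 : ℕ}

/-- n members of one type -/
noncomputable def VV (n : ℕ) (c : ℝ) (a : Γ) : Finset (Γ × ℝ) :=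
  (range n).image fun t : ℕ => (a, c + t)

lemma mem_VV {c : ℝ} {a : Γ} {y : Γ × ℝ} (h : y ∈ VV n c a) : y.1 = a ∧ c ≤ y.2 ∧ y.2 < c + n := by
  obtain ⟨t, ht, rfl⟩ := mem_image.1 h
  have : (t : ℝ) < n := Nat.cast_lt.2 (mem_range.1 ht)
  exact ⟨rfl, by simp, by simpa using this⟩

lemma spanV (hn : 0 < n) (hr : Rk U) (hi : InvP fun Y (_ : Finset (Unit × ℝ)) => U Y)
    (hf : ∀ H, Free n U H) (hK : ∀ H, U H ≤ K0) (c : ℝ) (a : Γ) :
    U (VV n c a) < n ∧ ∀ x, Cl U (VV n c a) (a, x) := by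
  have := hi.span hn (Y := ∅) (i := a) hr (fun H _ => hf H) (fun H _ => hK H) (I := VV n c a)
    fun x hx => ⟨(mem_VV hx).1, by simp⟩
  refine ⟨this.1, fun x => this.2 ?_ x (by simp)⟩
  rw [VV, card_image_of_injective _ fun s t k => by simpa using k, card_range]
  omega

lemma upart (hn : 0 < n) (hr : Rk U) (hi : InvP fun Y (_ : Finset (Unit × ℝ)) => U Y)
    (hf : ∀ H, Free n U H) (hK : ∀ H, U H ≤ K0) (c : ℝ) (Z0 A : Finset Γ)
    (h : ((n * (m * n) : ℕ) : ℤ) < con U (Z0.biUnion (VV n c)) (A.biUnion (VV n c))) :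
    ∃ (K : Finset (Γ × ℝ)) (w : Fin m → Γ × ℝ) (σ : Fin m → Γ), (∀ i, σ i ∈ A) ∧
      (∀ y ∈ K ∪ univ.image w, c ≤ y.2) ∧ Ind U (K ∪ univ.image w) ∧ Function.Injective w ∧
      (∀ i, w i ∉ K) ∧ (∀ y, y.1 ∈ Z0 → Cl U K y) ∧
      ∀ i x, x < c → Cl U (insert (w i) K) (σ i, x) ∧ ¬ Cl U K (σ i, x) := by
  have sp := spanV hn hr hi hf hK
  obtain ⟨Z, F, s, f1, f2, f3, f4, f5⟩ := sf m (VV n c) A n _ (hr.con _)
    (fun a _ => (hr.con_le _ _).trans (sp c a).1.le) h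
  rw [con_con, ← union_biUnion] at f4 f5
  have q1 : ∀ c, ∀ y : Γ × ℝ, y.1 ∈ Z0 ∪ Z → Cl U ((Z0 ∪ Z).biUnion (VV n c)) y := fun c y hy =>
    hr.cl_mono (subset_biUnion_of_mem _ hy) ((sp c y.1).2 y.2)
  have q2 : ∀ c, ∀ y ∈ (Z0 ∪ Z).biUnion (VV n c), y.1 ∈ Z0 ∪ Z ∧ c ≤ y.2 := fun c y hy => by
    obtain ⟨a, ha, k⟩ := mem_biUnion.1 hy
    exact ⟨(mem_VV k).1 ▸ ha, (mem_VV k).2.1⟩
  obtain ⟨K1, k1, k2, k3, -⟩ := hr.basis ((Z0 ∪ Z).biUnion (VV n c))
  have q3 : ∀ y : Γ × ℝ, y.1 ∈ Z0 ∪ Z → Cl U K1 y := fun y hy => hr.cl_trans k3 (q1 c y hy)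
  rw [hr.con_congr k3 fun e he => cl_mem (k1 he)] at f4 f5
  have q4 : con U K1 = con U ((Z0 ∪ Z).biUnion (VV n (c + n))) :=
    hr.con_congr (fun e he => q1 _ e (q2 c e (k1 he)).1) fun e he => q3 e (q2 _ e he).1
  have hc := hr.con K1
  choose B b1 b2 b3 b4 using fun a => hc.basis (VV n c a)
  have iB : Ind (con U K1) (F.biUnion B) := by
    have a1 := hc.span_le (A := F.biUnion B) (X := F.biUnion (VV n c)) fun e he => by
      obtain ⟨a, ha, k⟩ := mem_biUnion.1 he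
      exact hc.cl_mono (subset_biUnion_of_mem B ha) (b3 a e k)
    have a2 := card_biUnion_le_card_mul F B s fun a ha => by
      have := f4 a ha
      rw [b4] at this
      exact_mod_cast this
    rw [hc.ind_iff]
    rw [mul_comm] at a2
    omega
  have ne : ∀ a ∈ F, (B a).Nonempty := fun a ha => by
    have a1 := hc.biUnion_le F (VV n c)
    have a2 := sum_le_card_nsmul (F.erase a) _ _ fun x hx => f4 x (mem_of_mem_erase hx)
    rw [← add_sum_erase _ _ ha, b4] at a1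
    rw [← card_erase_add_one ha, mul_add] at f5
    rw [nsmul_eq_mul, ← Nat.cast_mul, mul_comm] at a2
    exact card_pos.1 (by omega)
  obtain ⟨σ, hσ⟩ := Function.Embedding.exists_of_card_le_finset (α := Fin m) (s := F) (by simpa using f3)
  have mσ : ∀ i, σ i ∈ F := fun i => hσ ⟨i, rfl⟩
  choose w hw using fun i => ne (σ i) (mσ i)
  have tB : ∀ {a y}, y ∈ B a → y.1 = a ∧ c ≤ y.2 ∧ y.2 < c + n := fun k => mem_VV (b1 _ k)
  obtain ⟨K2, hK2⟩ : ∃ K2, K2 = univ.biUnion fun i => (B (σ i)).erase (w i) := ⟨_, rfl⟩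
  have m2 : ∀ y, y ∈ K2 ↔ ∃ i, y ≠ w i ∧ y ∈ B (σ i) := fun y => by simp [hK2]
  have s2 : K2 ⊆ F.biUnion B := fun y hy => by
    obtain ⟨i, -, k⟩ := (m2 y).1 hy
    exact mem_biUnion.2 ⟨_, mσ i, k⟩
  have sw : ∀ i, w i ∈ F.biUnion B := fun i => mem_biUnion.2 ⟨_, mσ i, hw i⟩
  have s3 : ∀ i, K2 ∩ B (σ i) ⊆ (B (σ i)).erase (w i) := fun i y hy => by
    obtain ⟨j, a1, a2⟩ := (m2 y).1 (mem_inter.1 hy).1
    obtain rfl := σ.injective ((tB a2).1.symm.trans (tB (mem_inter.1 hy).2).1)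
    exact mem_erase.2 ⟨a1, a2⟩
  refine ⟨K2 ∪ K1, w, σ, fun i => f1 (mσ i), fun y hy => ?_, hr.ind_sub (hr.ind_union k2 iB) ?_,
    fun i j k => σ.injective ((tB (hw i)).1.symm.trans (k ▸ (tB (hw j)).1)), fun i k => ?_,
    fun y hy => hr.cl_mono subset_union_right (q3 y (mem_union_left _ hy)), fun i x hx => ⟨?_, fun k => ?_⟩⟩
  · simp only [mem_union, mem_image] at hy
    rcases hy with (k | k) | ⟨i, -, rfl⟩
    · obtain ⟨j, -, a2⟩ := (m2 y).1 k
      exact (tB a2).2.1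
    exacts [(q2 c y (k1 k)).2, (tB (hw i)).2.1]
  · exact union_subset (union_subset_union_left s2)
      ((image_subset_iff.2 fun i _ => sw i).trans subset_union_left)
  · rcases mem_union.1 k with k | k
    · exact notMem_erase _ _ (s3 i (mem_inter.2 ⟨k, hw i⟩))
    · exact disjoint_left.1 (hr.ind_con_disj iB) (sw i) k
  · refine hr.cl_mono (fun y hy => ?_) (cl_con.1 (hc.cl_trans (b3 (σ i))
      (cl_con.2 (hr.cl_mono subset_union_left ((sp c (σ i)).2 x)))))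
    rcases mem_union.1 hy with k | k
    · by_cases e : y = w i
      · exact e ▸ mem_insert_self _ _
      · exact mem_insert_of_mem (mem_union_left _ ((m2 y).2 ⟨i, e, k⟩))
    · exact mem_insert_of_mem (mem_union_right _ k)
  · have a1 := hc.cl_mono (s3 i) (hc.cl_inter iB s2 (subset_biUnion_of_mem B (mσ i)) (cl_con.2 k)
      (hc.cl_trans (b3 (σ i)) (cl_con.2 (hr.cl_mono subset_union_left ((sp c (σ i)).2 x)))))
    have a2 := hc.ind_not_cl (b2 (σ i)) (hw i) subset_rfl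
    have a3 : (σ i, x) ∉ (B (σ i)).erase (w i) := fun k => (tB (mem_of_mem_erase k)).2.1.not_gt hx
    have a4 := hi.mv (I := insert (σ i, x) ((B (σ i)).erase (w i))) (J := B (σ i)) (i := σ i)
      (D := (Z0 ∪ Z).biUnion (VV n (c + n))) (Y := ∅)
      (fun y hy => (mem_insert.1 hy).elim (fun e => e ▸ rfl) fun k => (tB (mem_of_mem_erase k)).1)
      (fun y hy => (tB hy).1) (by rw [card_insert_of_notMem a3, card_erase_add_one (hw i)])
      (fun y hy => .inr fun z hz => lt_of_lt_of_le (by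
        simp only [mem_union, mem_insert] at hz
        rcases hz with (rfl | k) | k
        · have : (0 : ℝ) ≤ n := Nat.cast_nonneg n
          simp only; linarith
        exacts [(tB (mem_of_mem_erase k)).2.2, (tB k).2.2]) (q2 _ y hy).2) (by simp)
    rw [q4] at a1 a2
    refine a2 ?_
    unfold Cl con at *
    rw [insert_erase (hw i)]
    omega

end

variable {T Θ S Γ : Type} [Fintype T] [Fintype S] [DecidableEq T] [DecidableEq Θ] [DecidableEq S]
  [DecidableEq Γ] {ρ : Finset (Lab T Θ Empty ℝ) → Finset (Lab S Γ Empty ℝ) → ℤ}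

lemma inv' (h : Inv ρ) (G : Finset T) (G' : Finset S) :
    InvP fun D Y => ρ (G.image Lab.g ∪ ls D) (G'.image Lab.g ∪ ls Y) := fun φ D Y k => by
  have := h φ (G.image Lab.g ∪ ls D) (G'.image Lab.g ∪ ls Y) (k.mono fun x hx => by
    simp only [ls, coe_union, coe_biUnion, coe_image, Set.mem_union, Set.mem_iUnion, Set.mem_image,
      mem_coe] at hx ⊢
    rcases hx with ⟨_, ⟨y, -, rfl⟩ | ⟨y, hy, rfl⟩, l⟩ | ⟨_, ⟨y, -, rfl⟩ | ⟨y, hy, rfl⟩, l⟩
    · simp [Lab.supp] at l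
    · exact .inl ⟨y, hy, (mem_singleton.1 l).symm⟩
    · simp [Lab.supp] at l
    · exact .inr ⟨y, hy, (mem_singleton.1 l).symm⟩)
  simp only [ls, image_union, image_image] at this ⊢
  exact this

end Pool.Agent.Lib.MP_a4b0c4_co.J.U
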