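import Pool.Agent.Lib.MP_a4b0c4_co.JFK1

set_option autoImplicit false
set_option linter.unusedSectionVars false
set_option linter.unusedVariables false

open Finset

namespace Pool.Agent.Lib.MP_a4b0c4_co.J.F

/-- discrete ladder: the column (i,k,b) lies before the row (i',β) iff k ≤ β -/
structure DL (n L : ℕ) (σ : Finset (ℕ × ℕ) → Finset (ℕ × ℕ × Bool) → ℤ) (p : ℕ → Prop) :
    Prop where
  bm : BM σ
  free : FreeB n σ {d | 1 ≤ d.1 ∧ d.1 ≤ L} {c | c.1 ≤ L}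
  pos : ∀ i, p i → 1 ≤ i
  pat : ∀ i β i' k b, 1 ≤ i → i ≤ L → i' ≤ L →
    σ {(i, β)} {(i', k, b)} = if k ≤ β ∧ (i' = i ∨ i' + 1 = i) then 1 else 0
  f1 : ∀ i β (Y : Finset (ℕ × ℕ × Bool)), 1 ≤ i → i ≤ L →
    (∀ y ∈ Y, y.2.1 ≤ β ∧ (y.1 = i ∨ y.1 + 1 = i)) → σ {(i, β), (i, β + 1)} Y ≤ 1
  vm : ∀ i k (D : Finset (ℕ × ℕ)), 1 ≤ i → ¬ p i →
    (∀ d ∈ D, k + 1 ≤ d.2 ∧ (d.1 = i ∨ d.1 = i + 1)) → σ D {(i, k, false), (i, k + 1, false)} ≤ 1
  vp : ∀ i k, p i → i + 1 ≤ L → σ {(i, k), (i + 1, k)} {(i, k, false), (i, k, true)} = 2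
  tw : ∀ D Y i k b, (i, k, b) ∉ Y → (i, k, !b) ∉ Y →
    σ D (insert (i, k, b) Y) = σ D (insert (i, k, !b) Y)

abbrev EL : Type := (ℕ × ℕ) ⊕ (ℕ × ℕ × Bool)

/-- ends of rows and columns -/
def lends : EL → Finset (ℕ × ℕ) :=
  Sum.elim (fun d => {(d.1, d.2), (d.1, d.2 + 1)}) fun c => {(c.1, c.2.1), (c.1 + 1, c.2.1)}

lemma lends_l {i β a b : ℕ} : (a, b) ∈ lends (.inl (i, β)) ↔ a = i ∧ (b = β ∨ b = β + 1) := by
  simp only [lends, Sum.elim_inl, mem_insert, mem_singleton, Prod.mk.injEq]; omega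

lemma lends_r {i k a b : ℕ} {c : Bool} :
    (a, b) ∈ lends (.inr (i, k, c)) ↔ b = k ∧ (a = i ∨ a = i + 1) := by
  simp only [lends, Sum.elim_inr, mem_insert, mem_singleton, Prod.mk.injEq]; omega

lemma lends_card (x : EL) : (lends x).card = 2 := by
  rcases x with ⟨a, b⟩ | ⟨a, b⟩ <;> exact card_pair (by simp)

/-- all rows -/
def RR (n L : ℕ) : Finset (ℕ × ℕ) := Icc 1 L ×ˢ range (n + 1)
/-- all columns -/
def YY (n L : ℕ) : Finset (ℕ × ℕ × Bool) := range (L + 1) ×ˢ range (n + 1) ×ˢ univ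
/-- the edges of the ladder graph -/
def LG (n L : ℕ) : Finset EL := (Icc 1 L ×ˢ Ico 1 n).disjSum (Ico 1 L ×ˢ Icc 1 n ×ˢ univ)

lemma mem_RR {n L i β : ℕ} : (i, β) ∈ RR n L ↔ 1 ≤ i ∧ i ≤ L ∧ β ≤ n := by
  simp only [RR, mem_product, mem_Icc, mem_range]; omega

lemma mem_GL_l {n L i β : ℕ} : .inl (i, β) ∈ LG n L ↔ 1 ≤ i ∧ i ≤ L ∧ 1 ≤ β ∧ β < n := by
  simp only [LG, inl_mem_disjSum, mem_product, mem_Icc, mem_Ico]; omega

lemma mem_GL_r {n L i k : ℕ} {b : Bool} :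
    .inr (i, k, b) ∈ LG n L ↔ 1 ≤ i ∧ i < L ∧ 1 ≤ k ∧ k ≤ n := by
  simp only [LG, inr_mem_disjSum, mem_product, mem_Icc, mem_Ico, mem_univ, and_true]; omega

lemma GL_sub (n L : ℕ) : LG n L ⊆ (RR n L).disjSum (YY n L) := by
  rintro (⟨i, β⟩ | ⟨i, k, b⟩) hx
  · rw [mem_GL_l] at hx
    exact inl_mem_disjSum.2 (mem_RR.2 (by omega))
  · rw [mem_GL_r] at hx
    simp only [YY, inr_mem_disjSum, mem_product, mem_range, mem_univ, and_true]; omega

variable {n L : ℕ} {σ : Finset (ℕ × ℕ) → Finset (ℕ × ℕ × Bool) → ℤ} {p : ℕ → Prop}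

lemma mat_co {R D : Finset (ℕ × ℕ)} (hD : D ⊆ R) (Y : Finset (ℕ × ℕ × Bool)) :
    mat σ R ((R \ D).disjSum Y) = R.card - D.card + σ D Y := by
  rw [mat_disjSum, inter_eq_left.2 sdiff_subset, Finset.sdiff_sdiff_eq_self hD,
    card_sdiff_of_subset hD, Nat.cast_sub (card_le_card hD)]

lemma DL.free' (k : DL n L σ p) : Free n (mat σ (RR n L)) (LG n L) :=
  (k.free (RR n L) (YY n L) (fun ⟨i, β⟩ hx => by
      have := mem_RR.1 hx
      exact ⟨this.1, this.2.1⟩) fun ⟨i, j, b⟩ hx => by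
      simp only [YY, coe_product, coe_range, Set.mem_prod, Set.mem_Iio] at hx
      exact Nat.lt_succ_iff.1 hx.1).mono (k.bm.mat _) (GL_sub n L)

lemma DL.le1 (k : DL n L σ p) {i j : ℕ} (h1 : 1 ≤ i) (h2 : i ≤ L) {Y : Finset (ℕ × ℕ × Bool)}
    (hY : ∀ y ∈ Y, y.1 ≤ L ∧ (i, j + 1) ∉ lends (.inr y)) : σ {(i, j), (i, j + 1)} Y ≤ 1 := by
  rw [k.bm.drop_col (filter_subset (fun y => y.2.1 ≤ j ∧ (y.1 = i ∨ y.1 + 1 = i)) Y)]
  · exact k.f1 i j _ h1 h2 fun y hy => (mem_filter.1 hy).2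
  · rintro d hd ⟨i', l, b⟩ hc m
    obtain ⟨a1, a2⟩ := hY _ hc
    rw [lends_r] at a2
    simp only [mem_filter, hc, true_and] at m
    simp only [mem_insert, mem_singleton] at hd
    rcases hd with rfl | rfl <;> rw [k.pat _ _ _ _ _ h1 h2 a1, if_neg (by omega)]

lemma sub_co {X : Finset EL} (hX : X ⊆ LG n L) {D : Finset (ℕ × ℕ)}
    (hD : ∀ d ∈ D, .inl d ∉ X) {Y : Finset (ℕ × ℕ × Bool)} (hY : X.toRight ⊆ Y) :
    X ⊆ (RR n L \ D).disjSum Y := by
  rintro (d | c) hx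
  · exact inl_mem_disjSum.2 (mem_sdiff.2 ⟨inl_mem_disjSum.1 (GL_sub n L (hX hx)),
      fun m => hD d m hx⟩)
  · exact inr_mem_disjSum.2 (hY (mem_toRight.2 hx))

lemma DL.star (k : DL n L σ p) : Star (mat σ (RR n L)) (LG n L) lends := by
  rintro e he ⟨i, j⟩ hv
  obtain ⟨h1, h2, j, rfl, h3⟩ : 1 ≤ i ∧ i ≤ L ∧ ∃ l, j = l + 1 ∧ l + 1 ≤ n := by
    rcases e with ⟨i', β⟩ | ⟨i', l, b⟩
    · rw [mem_GL_l] at he
      rw [lends_l] at hv
      exact ⟨by omega, by omega, j - 1, by omega, by omega⟩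
    · rw [mem_GL_r] at he
      rw [lends_r] at hv
      exact ⟨by omega, by omega, j - 1, by omega, by omega⟩
  set X := (LG n L).filter fun g => (i, j + 1) ∉ lends g with hX
  set Y := insert (i, 0, false) X.toRight with hY
  have hD : ({(i, j), (i, j + 1)} : Finset (ℕ × ℕ)) ⊆ RR n L := by
    simp only [insert_subset_iff, singleton_subset_iff, mem_RR]; omega
  have a1 : σ {(i, j), (i, j + 1)} Y ≤ 1 := k.le1 h1 h2 fun y hy => by
    rcases mem_insert.1 hy with rfl | hy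
    · exact ⟨h2, by simp [lends_r]⟩
    · obtain ⟨i', l, b⟩ := y
      have := mem_filter.1 (mem_toRight.1 hy)
      exact ⟨(mem_GL_r.1 this.1).2.1.le, this.2⟩
  have a2 : ∀ β, σ {(i, β)} {(i, 0, false)} = 1 := fun β => by
    rw [k.pat _ _ _ _ _ h1 h2 h2, if_pos (by omega)]
  have a3 : ∀ β, 1 ≤ σ {(i, β)} Y := fun β =>
    a2 β ▸ k.bm.mono subset_rfl (singleton_subset_iff.2 (mem_insert_self _ _))
  intro c
  have c := (k.bm.mat _).cl_mono (sub_co (X := X) (Y := Y) (filter_subset _ _)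
    (D := {(i, j), (i, j + 1)}) (fun d hd m => by
      simp only [mem_insert, mem_singleton] at hd
      rcases hd with rfl | rfl <;> exact (mem_filter.1 m).2 (by simp [lends_l]))
    (subset_insert (i, 0, false) _)) c
  have cD : ({(i, j), (i, j + 1)} : Finset (ℕ × ℕ)).card = 2 := card_pair (by simp)
  unfold Cl at c
  rcases e with ⟨i', β⟩ | ⟨i', l, b⟩
  · obtain ⟨rfl, hβ⟩ := lends_l.1 hv
    obtain ⟨γ, hγ, m⟩ : ∃ γ, (i, γ) ∈ RR n L ∧ insert (.inl (i, β))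
        ((RR n L \ {(i, j), (i, j + 1)}).disjSum Y) = (RR n L \ {(i, γ)}).disjSum Y := by
      refine ⟨2 * j + 1 - β, mem_RR.2 (by omega), ?_⟩
      ext (⟨a, b⟩ | x)
      · simp only [mem_insert, inl_mem_disjSum, mem_sdiff, mem_RR, mem_singleton, Sum.inl.injEq,
          Prod.mk.injEq]
        omega
      · simp
    rw [m, mat_co (singleton_subset_iff.2 hγ), mat_co hD, cD, card_singleton] at c
    have := a3 γ
    omega
  · obtain ⟨rfl, hi⟩ := lends_r.1 hv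
    have hi' := (mem_GL_r.1 he).2.1.le
    have m : insert (.inr (i', j + 1, b)) ((RR n L \ {(i, j), (i, j + 1)}).disjSum Y) =
        (RR n L \ {(i, j), (i, j + 1)}).disjSum (insert (i', j + 1, b) Y) := by
      ext (x | x) <;> simp
    rw [m, mat_co hD, mat_co hD] at c
    have := k.bm.tri (R := {(i, j)}) (R' := {(i, j + 1)}) (Y := {(i, 0, false)})
      (Y' := {(i', j + 1, b)}) (A := {(i, j), (i, j + 1)}) (C := insert (i', j + 1, b) Y)
      (by rw [k.pat _ _ _ _ _ h1 h2 hi', if_neg (by omega)]) (by simp)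
      (by simp [hY, insert_subset_iff])
    rw [a2, k.pat _ _ _ _ _ h1 h2 hi', if_pos (by omega)] at this
    omega

lemma DL.pair (k : DL n L σ p) {i j : ℕ} (hp : p i) (h2 : i + 1 ≤ L) (h3 : j + 1 ≤ n)
    {X : Finset EL} (hX : X ⊆ LG n L)
    (hv : ∀ g ∈ X, (i, j + 1) ∉ lends g ∧ (i + 1, j + 1) ∉ lends g) :
    Ind (con (mat σ (RR n L)) X) {.inr (i, j + 1, false), .inr (i, j + 1, true)} := by
  have h1 := k.pos i hp
  set Y := insert (i - 1, 0, false) (insert (i + 1, 0, false) X.toRight) with hY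
  set D : Finset (ℕ × ℕ) := {(i, j), (i, j + 1)} ∪ {(i + 1, j), (i + 1, j + 1)} with hD
  have hDR : D ⊆ RR n L := by
    simp only [hD, union_subset_iff, insert_subset_iff, singleton_subset_iff, mem_RR]; omega
  have hy : ∀ y ∈ Y, y.1 ≤ L ∧ (i, j + 1) ∉ lends (.inr y) ∧ (i + 1, j + 1) ∉ lends (.inr y) := by
    intro y hy
    simp only [hY, mem_insert] at hy
    rcases hy with rfl | rfl | hy
    · exact ⟨by omega, by simp [lends_r], by simp [lends_r]⟩
    · exact ⟨h2, by simp [lends_r], by simp [lends_r]⟩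
    · obtain ⟨i', l, b⟩ := y
      exact ⟨(mem_GL_r.1 (hX (mem_toRight.1 hy))).2.1.le, hv _ (mem_toRight.1 hy)⟩
  have a1 := k.le1 h1 (by omega) fun y m => ⟨(hy y m).1, (hy y m).2.1⟩
  have a2 := k.le1 (by omega) h2 fun y m => ⟨(hy y m).1, (hy y m).2.2⟩
  have a3 : σ D Y ≤ σ {(i, j), (i, j + 1)} Y + σ {(i + 1, j), (i + 1, j + 1)} Y :=
    (k.bm.row Y).union_le subset_rfl
  have a4 := k.bm.tri (R := {(i, j)}) (R' := {(i + 1, j)}) (Y := {(i - 1, 0, false)})
    (Y' := {(i + 1, 0, false)}) (A := {(i, j), (i + 1, j)}) (C := Y)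
    (by rw [k.pat _ _ _ _ _ h1 (by omega) h2, if_neg (by omega)]) (by simp)
    (by simp [hY])
  rw [k.pat _ _ _ _ _ h1 (by omega) (by omega), if_pos (by omega),
    k.pat _ _ _ _ _ (by omega) h2 h2, if_pos (by omega)] at a4
  have a5 := k.bm.tri (R := {(i, j), (i + 1, j)}) (R' := {(i, j + 1), (i + 1, j + 1)}) (Y := Y)
    (Y' := {(i, j + 1, false), (i, j + 1, true)}) (A := D)
    (C := {(i, j + 1, false), (i, j + 1, true)} ∪ Y)
    (k.bm.zero fun d hd c hc => by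
      simp only [mem_insert, mem_singleton] at hd hc
      rcases hd with rfl | rfl <;> rcases hc with rfl | rfl <;>
        rw [k.pat _ _ _ _ _ (by omega) (by omega) (by omega), if_neg (by omega)])
    (by simp [hD, insert_subset_iff]) (by rw [union_comm])
  rw [k.vp i (j + 1) hp h2] at a5
  refine (k.bm.mat _).ind_con_anti (sub_co hX (D := D) (Y := Y) (fun d hd m => ?_)
    ((subset_insert _ _).trans (subset_insert _ _))) ?_
  · have := hv _ m
    simp only [hD, mem_union, mem_insert, mem_singleton] at hd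
    rcases hd with (rfl | rfl) | rfl | rfl <;> simp [lends_l] at this
  · have m : ({.inr (i, j + 1, false), .inr (i, j + 1, true)} : Finset EL) ∪
        (RR n L \ D).disjSum Y =
        (RR n L \ D).disjSum ({(i, j + 1, false), (i, j + 1, true)} ∪ Y) := by
      ext (x | x) <;> simp
    rw [((k.bm.mat _).con _).ind_iff, card_pair (by simp), con, m, mat_co hDR, mat_co hDR]
    omega

lemma DL.mcase (k : DL n L σ p) {a : ℕ} (h1 : 1 ≤ a) (h2 : a + n ≤ L)
    (hp : ∀ i, a ≤ i → i < a + n → ¬ p i) : False := by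
  set f : Bool × ℕ × ℕ → EL := fun e =>
    if e.1 then .inl (a + e.2.1, e.2.2 + 1) else .inr (a + e.2.1, e.2.2 + 1, false) with hf
  have ft : ∀ i j, f (true, i, j) = .inl (a + i, j + 1) := fun i j => rfl
  have ff : ∀ i j, f (false, i, j) = .inr (a + i, j + 1, false) := fun i j => rfl
  have fG : ∀ e ∈ GE n, f e ∈ LG n L := by
    rintro ⟨b, i, j⟩ he
    cases b
    · rw [mem_GE_f] at he
      rw [ff, mem_GL_r]; omega
    · rw [mem_GE_t] at he
      rw [ft, mem_GL_l]; omega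
  have h := k.bm.mat (RR n L)
  refine k.free'.not_M (HasMinor.mk' (C := ∅) (f := f) (empty_subset _) ?_
    (fun x hx => ⟨fG x hx, notMem_empty _⟩) fun I hI => ?_)
  · rintro ⟨b, i, j⟩ - ⟨b', i', j'⟩ - c
    cases b <;> cases b' <;> simp [ft, ff] at c ⊢ <;> exact c
  rw [h.con_empty]
  refine grid_mcase (h.pull f) (star_pull h k.star (ψ := fun v : ℕ × ℕ => (a + v.1, v.2 + 1))
    (fun v w c => by simpa [Prod.ext_iff] using c) fun e he => ⟨fG e he, ?_⟩)
    (fun i j hi hj => ?_) hI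
  · obtain ⟨b, i, j⟩ := e
    cases b
    · simp [ff, gends_f, lends, add_assoc]
    · simp [ft, gends_t, lends]
  · have m : ({(false, i, j + 1), (true, i, j), (true, i + 1, j), (false, i, j)} :
        Finset (Bool × ℕ × ℕ)).image f = ({(a + i, j + 1), (a + i + 1, j + 1)} :
        Finset (ℕ × ℕ)).disjSum {(a + i, j + 1, false), (a + i, j + 1 + 1, false)} := by
      ext (x | x) <;> simp [ft, ff, add_assoc, or_comm]
    rw [pull, m, mat_disjSum, k.bm.drop_row (filter_subset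
      (fun d => j + 1 + 1 ≤ d.2 ∧ (d.1 = a + i ∨ d.1 = a + i + 1)) _)]
    · have a1 := k.vm (a + i) (j + 1) _ (by omega) (hp _ (by omega) (by omega))
        fun d (hd : d ∈ (RR n L \ {(a + i, j + 1), (a + i + 1, j + 1)}).filter
          (fun d => j + 1 + 1 ≤ d.2 ∧ (d.1 = a + i ∨ d.1 = a + i + 1))) => (mem_filter.1 hd).2
      have a2 : (({(a + i, j + 1), (a + i + 1, j + 1)} : Finset (ℕ × ℕ)) ∩ RR n L).card ≤ 2 :=
        (card_le_card inter_subset_left).trans card_le_two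
      omega
    · rintro ⟨i', β⟩ hd m c hc
      simp only [mem_filter, hd, true_and] at m
      simp only [mem_sdiff, mem_RR, mem_insert, mem_singleton, Prod.mk.injEq] at hd hc
      rcases hc with rfl | rfl <;>
        rw [k.pat _ _ _ _ _ (by omega) (by omega) (by omega), if_neg (by omega)]

end Pool.Agent.Lib.MP_a4b0c4_co.J.F
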