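import Pool.Agent.Lib.MP_a4b0c4_co.JBM
import Pool.Agent.Lib.MP_a4b0c4_co.JSpec

/-! Moving labels of one type; indiscernible families. -/

set_option autoImplicit false
set_option linter.unusedSectionVars false
set_option linter.unusedVariables false

open Finset

namespace Pool.Agent.Lib.MP_a4b0c4_co.J.U

lemma mv0 (s t : Finset ℝ) (h : s.card = t.card) :
    ∃ ψ : ℝ → ℝ, StrictMonoOn ψ s ∧ s.image ψ = t := by
  classical
  refine ⟨fun x => if hx : x ∈ s then t.orderEmbOfFin h.symm ((s.orderIsoOfFin rfl).symm ⟨x, hx⟩) else 0,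
    fun x hx y hy k => ?_, eq_of_subset_of_card_le (fun y hy => ?_) ?_⟩
  · simp only [dif_pos (mem_coe.1 hx), dif_pos (mem_coe.1 hy)]
    exact (t.orderEmbOfFin h.symm).strictMono ((s.orderIsoOfFin rfl).symm.strictMono k)
  · obtain ⟨x, hx, rfl⟩ := mem_image.1 hy
    simp only [dif_pos hx]
    exact t.orderEmbOfFin_mem _ _
  · rw [card_image_of_injOn, h]
    intro x hx y hy k
    simp only [dif_pos (mem_coe.1 hx), dif_pos (mem_coe.1 hy)] at k
    exact congrArg Subtype.val ((s.orderIsoOfFin rfl).symm.injective ((t.orderEmbOfFin h.symm).injective k))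

lemma mv (s t u : Finset ℝ) (h : s.card = t.card)
    (hu : ∀ y ∈ u, (∀ x ∈ s ∪ t, y < x) ∨ (∀ x ∈ s ∪ t, x < y)) :
    ∃ φ : ℝ → ℝ, StrictMonoOn φ ↑(s ∪ u) ∧ s.image φ = t ∧ ∀ y ∈ u, φ y = y := by
  classical
  obtain ⟨ψ, a, b⟩ := mv0 s t h
  have c : ∀ y ∈ u, y ∉ s := fun y hy k =>
    (hu y hy).elim (fun m => lt_irrefl _ (m y (mem_union_left _ k))) fun m =>
      lt_irrefl _ (m y (mem_union_left _ k))
  have d : ∀ x ∈ s, ψ x ∈ s ∪ t := fun x hx => mem_union_right _ (b ▸ mem_image_of_mem ψ hx)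
  refine ⟨fun x => if x ∈ s then ψ x else x, fun x hx y hy k => ?_,
    b ▸ image_congr fun x hx => if_pos hx, fun y hy => if_neg (c y hy)⟩
  rcases mem_union.1 hx with hx | hx <;> rcases mem_union.1 hy with hy | hy
  · simp only [if_pos hx, if_pos hy]; exact a hx hy k
  · simp only [if_pos hx, if_neg (c y hy)]
    exact (hu y hy).elim (fun m => absurd (m x (mem_union_left _ hx)) k.le.not_gt) fun m => m _ (d x hx)
  · simp only [if_pos hy, if_neg (c x hx)]
    exact (hu x hx).elim (fun m => m _ (d y hy)) fun m => absurd (m y (mem_union_left _ hy)) k.le.not_gt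
  · simp only [if_neg (c x hx), if_neg (c y hy)]; exact k

/-- points just right of a given point -/
lemma gap (s : Finset ℝ) (b : ℝ) (k : ℕ) : ∃ H : Finset ℝ, H.card = k ∧
    ∀ y ∈ H, b < y ∧ ∀ x ∈ s, b < x → y < x := by
  classical
  obtain ⟨c, h1, h2⟩ : ∃ c, b < c ∧ ∀ x ∈ s, b < x → c ≤ x := by
    induction s using Finset.induction_on with
    | empty => exact ⟨b + 1, by linarith, by simp⟩
    | insert a s ha ih =>
      obtain ⟨c, h1, h2⟩ := ih
      by_cases k : b < a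
      · exact ⟨min a c, lt_min k h1, fun x hx m => (mem_insert.1 hx).elim (fun e => e ▸ min_le_left _ _)
          fun e => (min_le_right _ _).trans (h2 x e m)⟩
      · exact ⟨c, h1, fun x hx m => (mem_insert.1 hx).elim (fun e => absurd (e ▸ m) k) fun e => h2 x e m⟩
  obtain ⟨H, a, e⟩ := (Set.Ioo_infinite h1).exists_subset_card_eq k
  exact ⟨H, e, fun y hy => ⟨(a hy).1, fun x hx m => (a hy).2.trans_le (h2 x hx m)⟩⟩

variable {A B : Type} [DecidableEq A] [DecidableEq B]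

/-- order invariance for labels with one real index -/
def InvP (F : Finset (A × ℝ) → Finset (B × ℝ) → ℤ) : Prop :=
  ∀ (φ : ℝ → ℝ) (D : Finset (A × ℝ)) (Y : Finset (B × ℝ)),
    StrictMonoOn φ ↑(D.image Prod.snd ∪ Y.image Prod.snd) →
    F (D.image (Prod.map id φ)) (Y.image (Prod.map id φ)) = F D Y

variable {F : Finset (A × ℝ) → Finset (B × ℝ) → ℤ}

lemma InvP.tr (h : InvP F) : InvP (tr F) := fun φ D Y k => h φ Y D (by rwa [union_comm])

lemma card_snd {I : Finset (A × ℝ)} {i : A} (hI : ∀ x ∈ I, x.1 = i) :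
    (I.image Prod.snd).card = I.card :=
  card_image_of_injOn fun x hx y hy k => Prod.ext ((hI x hx).trans (hI y hy).symm) k

lemma InvP.mv (h : InvP F) {I J D : Finset (A × ℝ)} {Y : Finset (B × ℝ)} {i : A}
    (hI : ∀ x ∈ I, x.1 = i) (hJ : ∀ x ∈ J, x.1 = i) (hc : I.card = J.card)
    (hD : ∀ y ∈ D, (∀ x ∈ I ∪ J, y.2 < x.2) ∨ (∀ x ∈ I ∪ J, x.2 < y.2))
    (hY : ∀ y ∈ Y, (∀ x ∈ I ∪ J, y.2 < x.2) ∨ (∀ x ∈ I ∪ J, x.2 < y.2)) :
    F (I ∪ D) Y = F (J ∪ D) Y := by
  obtain ⟨φ, a, b, c⟩ := U.mv (I.image Prod.snd) (J.image Prod.snd)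
    (D.image Prod.snd ∪ Y.image Prod.snd) (by rw [card_snd hI, card_snd hJ, hc]) fun y hy => by
      rw [← image_union, forall_mem_image, forall_mem_image]
      rcases mem_union.1 hy with k | k <;> obtain ⟨z, hz, rfl⟩ := mem_image.1 k
      exacts [hD z hz, hY z hz]
  have e1 : D.image (Prod.map id φ) = D := (image_congr (g := id) fun x hx =>
    show Prod.map id φ x = x from
      Prod.ext rfl (c _ (mem_union_left _ (mem_image_of_mem _ hx)))).trans image_id
  have e2 : Y.image (Prod.map id φ) = Y := (image_congr (g := id) fun x hx =>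
    show Prod.map id φ x = x from
      Prod.ext rfl (c _ (mem_union_right _ (mem_image_of_mem _ hx)))).trans image_id
  have e3 : I.image (Prod.map id φ) = J := by
    ext x
    constructor
    · intro k
      obtain ⟨z, hz, rfl⟩ := mem_image.1 k
      obtain ⟨y, hy, e⟩ := mem_image.1 (b ▸ mem_image_of_mem φ (mem_image_of_mem Prod.snd hz))
      exact (Prod.ext ((hJ y hy).trans (hI z hz).symm) e : y = Prod.map id φ z) ▸ hy
    · intro k
      have := mem_image_of_mem Prod.snd k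
      rw [← b, image_image] at this
      obtain ⟨z, hz, e⟩ := mem_image.1 this
      exact mem_image.2 ⟨z, hz, Prod.ext ((hI z hz).trans (hJ x k).symm) e⟩
  have := h φ (I ∪ D) Y (by rwa [image_union, union_assoc])
  rw [image_union, e1, e2, e3] at this
  exact this.symm

/-- one label moves inside a gap -/
lemma InvP.swap (h : InvP F) {D : Finset (A × ℝ)} {Y : Finset (B × ℝ)} {i : A} {b b' : ℝ}
    (hb : b < b') (hD : ∀ y ∈ D, y.2 ≠ b ∧ (b < y.2 → b' < y.2))
    (hY : ∀ y ∈ Y, y.2 ≠ b ∧ (b < y.2 → b' < y.2)) :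
    F (insert (i, b) D) Y = F (insert (i, b') D) Y := by
  have k : ∀ y : ℝ, y ≠ b ∧ (b < y → b' < y) →
      (∀ x ∈ ({(i, b)} ∪ {(i, b')} : Finset (A × ℝ)), y < x.2) ∨
        ∀ x ∈ ({(i, b)} ∪ {(i, b')} : Finset (A × ℝ)), x.2 < y := fun y hy => by
    simp only [mem_union, mem_singleton, forall_eq_or_imp, forall_eq]
    rcases lt_or_gt_of_ne hy.1 with m | m
    exacts [.inl ⟨m, m.trans hb⟩, .inr ⟨m, hy.2 m⟩]
  exact h.mv (I := {(i, b)}) (J := {(i, b')}) (i := i) (by simp) (by simp) (by simp)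
    (fun y hy => k _ (hD y hy)) fun y hy => k _ (hY y hy)

/-- labels of one type after all of Y: rank less than n and any n-1 of them span -/
lemma InvP.span (h : InvP F) {n K : ℕ} (hn : 0 < n) {Y : Finset (B × ℝ)} {i : A}
    (hr : Rk (J.tr F Y)) (hf : ∀ H : Finset (A × ℝ), (∀ x ∈ H, x.1 = i) → Free n (J.tr F Y) H)
    (hK : ∀ H : Finset (A × ℝ), (∀ x ∈ H, x.1 = i ∧ ∀ y ∈ Y, y.2 < x.2) → F H Y ≤ K)
    {I : Finset (A × ℝ)} (hI : ∀ x ∈ I, x.1 = i ∧ ∀ y ∈ Y, y.2 < x.2) :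
    F I Y < n ∧ (n ≤ I.card + 1 → ∀ b, (∀ y ∈ Y, y.2 < b) → Cl (J.tr F Y) I (i, b)) := by
  have key : ∀ b, (∀ y ∈ Y, y.2 < b) → F I Y < n ∧ (n ≤ I.card + 1 → Cl (J.tr F Y) I (i, b)) := by
    intro b hb
    obtain ⟨H, h1, h2⟩ := gap ∅ b (K + n)
    obtain ⟨G, hG⟩ : ∃ G, G = insert (i, b) I ∪ H.image (Prod.mk i) := ⟨_, rfl⟩
    have h3 : ∀ x ∈ G, x.1 = i ∧ ∀ y ∈ Y, y.2 < x.2 := fun x hx => by
      rcases mem_union.1 (hG ▸ hx) with k | k
      · rcases mem_insert.1 k with rfl | k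
        exacts [⟨rfl, hb⟩, hI x k]
      · obtain ⟨z, hz, rfl⟩ := mem_image.1 k
        exact ⟨rfl, fun y hy => (hb y hy).trans (h2 z hz).1⟩
    have h4 : I ⊆ G := hG ▸ (subset_insert _ _).trans subset_union_left
    obtain ⟨a, c⟩ := (hf G fun x hx => (h3 x hx).1).indisc hr hn subset_rfl (K := K)
      (fun I1 a1 I2 a2 c => by
        have := h.mv (D := ∅) (Y := Y) (fun x hx => (h3 x (a1 hx)).1) (fun x hx => (h3 x (a2 hx)).1) c
          (by simp) fun y hy => .inl fun x hx => (h3 x (union_subset a1 a2 hx)).2 y hy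
        rwa [union_empty, union_empty] at this) (hK G h3)
      (by
        rw [← h1, ← card_image_of_injective H (Prod.mk_right_injective i)]
        exact card_le_card (hG ▸ subset_union_right))
    exact ⟨(hr.mono h4).trans_lt a, fun k => c I h4 k _ (hG ▸ mem_union_left _ (mem_insert_self _ _))⟩
  obtain ⟨b, hb⟩ := (Y.image Prod.snd).exists_le
  exact ⟨(key (b + 1) fun y hy => by linarith [hb _ (mem_image_of_mem _ hy)]).1,
    fun k b hb => (key b hb).2 k⟩

end Pool.Agent.Lib.MP_a4b0c4_co.J.U
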