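import Pool.Agent.Lib.MP_a4b0c4_co.JSU1

/-! Local lemmas on ladders: headless window step and single window. -/

set_option autoImplicit false
set_option linter.unusedSectionVars false
set_option linter.unusedVariables false

open Finset

namespace Pool.Agent.Lib.MP_a4b0c4_co.J.U

lemma notcl {α β : Type} [DecidableEq α] [DecidableEq β] {ρ : Finset α → Finset β → ℤ} (h : BM ρ)
    {F G : Finset α} {P J : Finset β} {c : β} (hF : F ⊆ G) (hP : Ind (ρ F) P) (hc : c ∈ P)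
    (k : ∀ z ∈ J, z ∉ P → ∀ t ∈ F, ρ {t} {z} = 0) : ¬ Cl (ρ G) (J.erase c) c := fun m =>
  (h.col F).ind_not_cl hP hc subset_rfl ((h.col F).cl_trans (fun z hz => by
    by_cases a : z ∈ P
    · exact cl_mem (mem_erase.2 ⟨(mem_erase.1 hz).1, a⟩)
    · refine (h.col F).cl_mono (empty_subset _) ?_
      have := h.zero (R := F) (Y := {z}) fun t ht c hc =>
        mem_singleton.1 hc ▸ k z (mem_of_mem_erase hz) a t ht
      unfold Cl
      rw [h.emp_r]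
      exact this) (h.cl_view hF m))

variable {n L : ℕ} {ρ : Finset (ℕ × ℝ) → Finset (ℕ × ℝ) → ℤ}

lemma ent0 (h : Lad n L ρ) {d c : ℕ × ℝ} (h1 : 1 ≤ d.1) (h2 : d.1 ≤ L) (h3 : c.1 ≤ L)
    (k : c.2 ≠ d.2) (k1 : c.1 ≠ d.1) (k2 : c.1 + 1 ≠ d.1) : ρ {d} {c} = 0 := by
  rcases lt_or_gt_of_ne k with m | m
  · rw [h.pat d c h1 h2 h3 m, if_neg (by omega)]
  · exact h.zero d c m

lemma ent1 (h : Lad n L ρ) {d c : ℕ × ℝ} (h1 : 1 ≤ d.1) (h2 : d.1 ≤ L)
    (k : c.2 < d.2) (k1 : c.1 = d.1 ∨ c.1 + 1 = d.1) : ρ {d} {c} = 1 := by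
  rw [h.pat d c h1 h2 (by omega) k, if_pos k1]

lemma lpos (h : Lad n L ρ) : 0 < n := (h.free ∅ ∅ (by simp) (by simp)).pos (Sum.inl (0, 0))

lemma lspan (h : Lad n L ρ) {Y I : Finset (ℕ × ℝ)} {d : ℕ × ℝ} (h1 : 1 ≤ d.1) (h2 : d.1 ≤ L)
    (hY : ∀ y ∈ Y, y.1 ≤ L) (hI : ∀ x ∈ I, x.1 = d.1 ∧ ∀ y ∈ Y, y.2 < x.2) (hc : n ≤ I.card)
    (hb : ∀ y ∈ Y, y.2 < d.2) : Cl (tr ρ Y) I d := by
  obtain ⟨K, hK⟩ := h.bdd
  exact (InvP.span h.inv (lpos h) (h.bm.row Y) (fun H hH => h.free.row h.bm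
    (fun x hx => by have := hH x hx; constructor <;> omega) hY)
    (fun H hH => hK H Y fun y hy d hd => (hH d hd).2 y hy) hI).2 (by omega) d.2 hb

/-- the headless window step -/
lemma hw (h : Lad n L ρ) {Z R F : Finset (ℕ × ℝ)} {i : ℕ} {a b : ℝ} (h1 : 1 ≤ i) (h2 : i ≤ L)
    (hZ : ∀ z ∈ Z, z.1 ≤ L ∧ z.2 ≠ b ∧ (z.1 = i ∨ z.1 + 1 = i → z.2 < b)) (hba : b < a)
    (hd : (i, b) ∈ R) (hR : ∀ d ∈ R.erase (i, b), d.2 ≠ b) (hF : F ⊆ R) (cF : n ≤ F.card)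
    (hF' : ∀ t ∈ F, t.1 = i ∧ a < t.2 ∧ ∀ z ∈ Z, z.2 < t.2) (hi : Ind (ρ R) Z) :
    ¬ Cl (ρ R) Z (i, a) := by
  intro k
  obtain ⟨A, hA⟩ : ∃ A, A = Z.filter fun z => z.1 = i ∨ z.1 + 1 = i := ⟨_, rfl⟩
  have mA : ∀ z, z ∈ A ↔ z ∈ Z ∧ (z.1 = i ∨ z.1 + 1 = i) := fun z => hA ▸ mem_filter
  have sA : A ⊆ Z := fun z hz => ((mA z).1 hz).1
  have bA : ∀ z ∈ A, z.2 < b := fun z hz => (hZ z (sA hz)).2.2 ((mA z).1 hz).2
  have drop : ∀ D : Finset (ℕ × ℝ), (∀ d ∈ D, d.1 = i ∧ ∀ z ∈ Z, z.2 ≠ d.2) → ρ D Z = ρ D A :=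
    fun D hD => h.bm.drop_col sA fun d hd c hc m => by
      have := (mA c).not.1 m
      have := (hD d hd).1
      exact ent0 h (by omega) (by omega) (hZ c hc).1 ((hD d hd).2 c hc) (by grind) (by grind)
  have dF : ∀ d ∈ F, d.1 = i ∧ ∀ z ∈ Z, z.2 ≠ d.2 := fun d hd =>
    ⟨(hF' d hd).1, fun z hz => ((hF' d hd).2.2 z hz).ne⟩
  have c1 : Cl (tr ρ Z) F (i, b) := by
    have := lspan h (Y := A) (I := F) (d := (i, b)) h1 h2 (fun y hy => (hZ y (sA hy)).1)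
      (fun x hx => ⟨(hF' x hx).1, fun y hy => (hF' x hx).2.2 y (sA hy)⟩) cF bA
    unfold Cl tr at *
    rw [drop F dF, drop _ (forall_mem_insert _ _ _ |>.2 ⟨⟨rfl, fun z hz => (hZ z hz).2.1⟩, dF⟩), this]
  obtain ⟨R1, hR1⟩ : ∃ R1, R1 = R.erase (i, b) := ⟨_, rfl⟩
  have eR : insert (i, b) R1 = R := hR1 ▸ insert_erase hd
  rw [← hR1] at hR
  have FR : F ⊆ R1 := fun t ht => hR1 ▸ mem_erase.2 ⟨fun e => by
    have := (hF' t ht).2.1
    rw [e] at this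
    exact lt_asymm this hba, hF ht⟩
  have c2 : ρ (insert (i, b) R1) Z = ρ R1 Z := (h.bm.row Z).cl_mono FR c1
  rw [eR] at c2
  obtain ⟨H, cH, hH⟩ := gap (R1.image Prod.snd ∪ (insert (i, a) Z).image Prod.snd) b n
  obtain ⟨D, hD⟩ : ∃ D, D = H.image (Prod.mk i) := ⟨_, rfl⟩
  have mD : ∀ d ∈ D, d.1 = i ∧ d.2 ∈ H := fun d hd => by
    obtain ⟨y, hy, rfl⟩ := mem_image.1 (hD ▸ hd)
    exact ⟨rfl, hy⟩
  have gZ : ∀ y ∈ H, ∀ z ∈ insert (i, a) Z, b < z.2 → y < z.2 := fun y hy z hz =>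
    (hH y hy).2 _ (mem_union_right _ (mem_image_of_mem _ hz))
  have m1 := h.bm.mono (subset_refl R1) (subset_insert (i, a) Z)
  have c3 : ρ (R1 ∪ D) (insert (i, a) Z) = ρ R1 (insert (i, a) Z) :=
    (h.bm.row _).span fun d hd => by
      obtain ⟨y, hy, rfl⟩ := mem_image.1 (hD ▸ hd)
      have := InvP.swap h.inv (D := R1) (Y := insert (i, a) Z) (i := i) (hH y hy).1
        (fun x hx => ⟨hR x hx, (hH y hy).2 _ (mem_union_left _ (mem_image_of_mem _ hx))⟩)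
        fun z hz => ⟨(mem_insert.1 hz).elim (fun e => e ▸ hba.ne') fun e => (hZ z e).2.1, gZ y hy z hz⟩
      rw [(h.bm.row _).cl_iff]
      unfold Cl tr at *
      rw [← this, eR]
      omega
  have c4 : Cl (ρ (R1 ∪ D)) Z (i, a) := by
    have := h.bm.mono (eR ▸ subset_insert (i, b) R1 : R1 ⊆ R) (subset_refl (insert (i, a) Z))
    have := h.bm.mono (subset_union_left (s₁ := R1) (s₂ := D)) (subset_refl Z)
    rw [(h.bm.col _).cl_iff]
    unfold Cl at k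
    omega
  obtain ⟨t, ht⟩ : F.Nonempty := card_pos.1 ((lpos h).trans_le cF)
  have c5 := h.bm.cl_view (R' := insert t D)
    (insert_subset (mem_union_left _ (FR ht)) subset_union_right) c4
  have c6 := drop (insert t D) (forall_mem_insert _ _ _ |>.2 ⟨dF t ht, fun d hd =>
    ⟨(mD d hd).1, fun z hz e => by
      have := (hH _ (mD d hd).2).1
      exact (gZ _ (mD d hd).2 z (mem_insert_of_mem hz) (e ▸ this)).ne e.symm⟩⟩)
  have et := (hF' t ht).1
  have c7 := lspan h (Y := A) (I := D) (d := t) (by omega) (by omega) (fun y hy => (hZ y (sA hy)).1)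
    (fun x hx => ⟨(mD x hx).1.trans et.symm, fun y hy => (bA y hy).trans (hH _ (mD x hx).2).1⟩)
    (by rw [hD, card_image_of_injective H (Prod.mk_right_injective i), cH])
    fun y hy => (hF' t ht).2.2 y (sA hy)
  have c8 := h.bm.tri (R := D) (R' := {t}) (Y := A) (Y' := {(i, a)}) (A := insert t D)
    (C := insert (i, a) Z) (h.bm.zero fun d hd c hc => h.zero d c (by
      rw [mem_singleton.1 hc]
      exact gZ _ (mD d hd).2 _ (mem_insert_self _ _) hba)) (by clear * -; grind) (by clear * - sA; grind)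
  have c9 := ent1 h (d := t) (c := (i, a)) (by omega) (by omega) (hF' t ht).2.1 (.inl et.symm)
  unfold Cl tr at *
  omega

/-- a pair of columns keeps its rank on far rows -/
lemma pair (h : Lad n L ρ) {D G : Finset (ℕ × ℝ)} {i j : ℕ} {x y x' y' : ℝ} (hxy : x < y)
    (hxy' : x' < y') (hi : i ≤ L) (hj : j ≤ L) (hD : ∀ d ∈ D, 1 ≤ d.1 ∧ d.1 ≤ L ∧ y < d.2 ∧
      ∃ F ⊆ G, n ≤ F.card ∧ ∀ t ∈ F, t.1 = d.1 ∧ y' < t.2) :
    ρ D {(i, x), (j, y)} ≤ ρ G {(i, x'), (j, y')} := by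
  have hc : 0 < (y' - x') / (y - x) := div_pos (sub_pos.2 hxy') (sub_pos.2 hxy)
  obtain ⟨φ, a, b, c⟩ : ∃ φ : ℝ → ℝ, StrictMono φ ∧ φ x = x' ∧ φ y = y' :=
    ⟨fun u => x' + (y' - x') / (y - x) * (u - x), fun u v k => by
      have := mul_lt_mul_of_pos_left (sub_lt_sub_right k x) hc
      linarith, by simp, by
      have := (sub_pos.2 hxy).ne'
      field_simp
      ring⟩
  rw [← h.inv φ D _ (a.strictMonoOn _), image_insert, image_singleton]
  simp only [Prod.map, id, b, c]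
  refine (h.bm.row _).span_le fun d hd => ?_
  obtain ⟨d, k, rfl⟩ := mem_image.1 hd
  obtain ⟨k1, k2, k3, F, k4, k5, k6⟩ := hD d k
  refine (h.bm.row _).cl_mono k4 (lspan h k1 k2 (by simp [hi, hj]) (fun t ht => ⟨(k6 t ht).1, ?_⟩) k5 ?_)
  · simp only [forall_mem_insert, mem_singleton, forall_eq]
    exact ⟨hxy'.trans (k6 t ht).2, (k6 t ht).2⟩
  · simp only [forall_mem_insert, mem_singleton, forall_eq]
    exact ⟨b ▸ a (hxy.trans k3), c ▸ a k3⟩

lemma f2pair (h : Lad n L ρ) {b : ℕ} (h2 : b + 1 ≤ L) (f : f2 ρ (b + 1)) :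
    ∃ x y : ℝ, x < y ∧ y < 0 ∧ 2 ≤ ρ {(b + 1, 0), (b + 1, 1)} {(b, x), (b + 1, y)} := by
  by_contra k
  push Not at k
  obtain ⟨Y, hY, e⟩ := f
  have hr := h.bm.col {(b + 1, 0), (b + 1, 1)}
  have nl : ∀ c : ℕ × ℝ, c.2 < 0 → c.1 = b + 1 ∨ c.1 + 1 = b + 1 →
      1 ≤ ρ {(b + 1, 0), (b + 1, 1)} {c} := fun c a1 a2 =>
    ent1 h (d := (b + 1, 0)) (by simp) h2 a1 a2 ▸ h.bm.mono (by simp) subset_rfl
  rcases Y.eq_empty_or_nonempty with rfl | ne
  · rw [h.bm.emp_r] at e; omega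
  obtain ⟨m, hm, m1⟩ := Y.exists_max_image Prod.snd ne
  obtain ⟨l, hl, l1⟩ := Y.exists_min_image Prod.snd ne
  have := (hY m hm).1
  have := m1 l hl
  have a1 : ∀ y : ℝ, l.2 ≤ y → y < 0 → Cl (ρ {(b + 1, 0), (b + 1, 1)}) {(b, l.2 - 1)} (b + 1, y) :=
    fun y y1 y2 => by
      have := k (l.2 - 1) y (by linarith) y2
      have := nl (b, l.2 - 1) (by simp; linarith) (.inr rfl)
      rw [hr.cl_iff, pair_comm (b + 1, y)]
      omega
  have := hr.span_le (A := {(b, l.2 - 1)}) (X := Y) fun y hy => by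
    obtain ⟨j, y⟩ := y
    obtain ⟨y1, rfl | y2⟩ := hY _ hy
    · exact a1 y (l1 _ hy) y1
    · obtain rfl : j = b := by simpa using y2
      refine hr.cl_trans (B := {(j + 1, m.2 / 2)}) (fun z hz => ?_) ?_
      · rw [mem_singleton.1 hz]
        exact a1 _ (by linarith) (by linarith)
      · have := k y (m.2 / 2) (by linarith [m1 _ hy]) (by linarith)
        have := nl (j + 1, m.2 / 2) (by simp; linarith) (.inl rfl)
        rw [hr.cl_iff]
        omega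
  have := hr.single (b, l.2 - 1)
  omega

/-- the single window -/
lemma sw (h : Lad n L ρ) {a b : ℕ} (ha : 1 ≤ a) (hab : a + 1 ≤ b) (hb : b + 1 ≤ L) (v : v2 ρ a)
    (f : f2 ρ (b + 1)) {x : ℕ → ℝ} (hx : StrictMono x) {e : ℝ} (he : x a < e) {G : Finset (ℕ × ℝ)}
    (hG : ∀ i, a ≤ i → i ≤ b + 1 → ∃ F ⊆ G, n ≤ F.card ∧ ∀ t ∈ F, t.1 = i ∧ e < t.2 ∧ x (b + 1) < t.2) :
    Ind (ρ G) (insert (a, e) ((Icc a (b + 1)).image fun i => (i, x i))) := by
  rw [← (h.bm.col G).con_empty]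
  refine (h.bm.col G).ind_of_leaf fun J hJ ne => ?_
  simp only [union_empty]
  obtain ⟨c, hc, m⟩ := J.exists_max_image Prod.fst ne
  have mJ : ∀ z ∈ J, z = (a, e) ∨ (a ≤ z.1 ∧ z.1 ≤ b + 1 ∧ z = (z.1, x z.1)) := fun z hz =>
    (mem_insert.1 (hJ hz)).imp id fun k => by
      obtain ⟨i, hi, rfl⟩ := mem_image.1 k
      exact ⟨(mem_Icc.1 hi).1, (mem_Icc.1 hi).2, rfl⟩
  have z0 : ∀ z ∈ J, ∀ t : ℕ × ℝ, a ≤ t.1 → t.1 ≤ b + 1 → e < t.2 → x (b + 1) < t.2 → z.1 ≠ t.1 →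
      z.1 + 1 ≠ t.1 → ρ {t} {z} = 0 := fun z hz t t1 t2 t3 t4 t5 t6 => by
    rcases mJ z hz with rfl | ⟨k1, k2, k3⟩
    · exact ent0 h (by omega) (by omega) (by simp; omega) t3.ne t5 t6
    · exact ent0 h (by omega) (by omega) (by omega)
        (((congrArg Prod.snd k3).trans_le (hx.monotone k2)).trans_lt t4).ne t5 t6
  refine ⟨c, hc, ?_⟩
  by_cases c1 : c.1 = a
  · obtain ⟨D, hD, e2⟩ := v
    have := pair h (D := D) (G := G) (i := a) (j := a) zero_lt_one he (by omega) (by omega) fun d hd => by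
      have := (hD d hd).2
      obtain ⟨F, k1, k2, k3⟩ := hG d.1 (by omega) (by omega)
      exact ⟨by omega, by omega, (hD d hd).1, F, k1, k2, fun t ht => ⟨(k3 t ht).1, (k3 t ht).2.1⟩⟩
    have k : ∀ z ∈ J, z ∈ ({(a, x a), (a, e)} : Finset (ℕ × ℝ)) := fun z hz => by
      have := m z hz
      rcases mJ z hz with rfl | ⟨k1, k2, k3⟩
      · simp
      · rw [k3, show z.1 = a by omega]; simp
    refine notcl h.bm subset_rfl ((h.bm.col G).ind_iff.2 ?_) (k c hc) fun z hz k' => absurd (k z hz) k'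
    have := card_le_two (a := (a, x a)) (b := (a, e))
    omega
  obtain ⟨k1, k2, k3⟩ := (mJ c hc).resolve_left fun k => c1 (k ▸ rfl)
  have uq : ∀ z ∈ J, a < z.1 → z = (z.1, x z.1) := fun z hz k =>
    ((mJ z hz).resolve_left fun e => by rw [e] at k; exact lt_irrefl _ k).2.2
  by_cases c2 : c.1 = b + 1
  · obtain ⟨F, f1, f2, f3⟩ := hG (b + 1) (by omega) le_rfl
    obtain ⟨u, w, u1, u2, u3⟩ := f2pair h hb f
    have := pair h (D := {(b + 1, 0), (b + 1, 1)}) (G := F) (i := b) (j := b + 1) u1 (hx b.lt_add_one)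
      (by omega) hb fun d hd => by
        have : d.1 = b + 1 ∧ w < d.2 := by
          simp only [mem_insert, mem_singleton] at hd
          rcases hd with rfl | rfl
          exacts [⟨rfl, u2⟩, ⟨rfl, u2.trans zero_lt_one⟩]
        exact ⟨by omega, by omega, this.2, F, subset_rfl, f2, fun t ht =>
          ⟨(f3 t ht).1.trans this.1.symm, (f3 t ht).2.2⟩⟩
    refine notcl h.bm f1 (P := {(b, x b), (b + 1, x (b + 1))}) ((h.bm.col F).ind_iff.2 ?_)
      (by rw [k3, c2]; simp) fun z hz k t ht => ?_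
    · have := card_le_two (a := (b, x b)) (b := (b + 1, x (b + 1)))
      omega
    · have := (f3 t ht).1
      refine z0 z hz t (by omega) (by omega) (f3 t ht).2.1 (f3 t ht).2.2 (fun e => k ?_) fun e => k ?_
      · rw [uq z hz (by omega), show z.1 = b + 1 by omega]; simp
      · rw [uq z hz (by omega), show z.1 = b by omega]; simp
  · obtain ⟨F, f1, f2, f3⟩ := hG (c.1 + 1) (by omega) (by omega)
    obtain ⟨t, ht⟩ : F.Nonempty := card_pos.1 ((lpos h).trans_le f2)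
    have := (f3 t ht).1
    refine notcl h.bm (singleton_subset_iff.2 (f1 ht)) (P := {c}) ?_ (mem_singleton_self _)
      fun z hz k t' ht' => ?_
    · exact ent1 h (by omega) (by omega)
        (((congrArg Prod.snd k3).trans_le (hx.monotone k2)).trans_lt (f3 t ht).2.2) (by omega)
    · rw [mem_singleton.1 ht']
      have := m z hz
      refine z0 z hz t (by omega) (by omega) (f3 t ht).2.1 (f3 t ht).2.2 (by omega) fun e => k ?_
      rw [uq z hz (by omega), k3, show z.1 = c.1 by omega]; simp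

end Pool.Agent.Lib.MP_a4b0c4_co.J.U
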