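import Pool.Agent.Lib.MP_a4b0c4_co.JCnt
import Pool.Agent.Lib.MP_a4b0c4_co.JOut
import Pool.Agent.Lib.MP_a4b0c4_co.JSpec

set_option autoImplicit false
set_option linter.unusedSectionVars false
set_option linter.unusedVariables false

open Finset

namespace Pool.Agent.Lib.MP_a4b0c4_co.J.F

variable {α : Type} [DecidableEq α] {m : ℕ} {r r' : Finset α → ℤ} {E E' : Finset α}
  {F D : Fin m → Finset α} {x : Fin m → α}

lemma hubs_congr (H : Hubs r E F D x) (e : ∀ X ⊆ univ.biUnion F, r' X = r X)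
    (hE : ∀ a, F a ⊆ E') : Hubs r' E' F D x := by
  have s : ∀ a, F a ⊆ univ.biUnion F := fun a => subset_biUnion_of_mem F (mem_univ a)
  have c : ∀ a, ∀ A ⊆ F a, ∀ y ∈ F a, (Cl r' A y ↔ Cl r A y) := fun a A hA y hy => by
    unfold Cl
    rw [e _ (hA.trans (s a)), e _ ((insert_subset hy hA).trans (s a))]
  refine ⟨hE, H.pd, ?_, H.dsub, H.xmem, fun a => ?_, fun a y hy => ?_, fun a y hy => ?_,
    fun a y hy => ?_⟩
  · have := H.skew
    unfold Skew at *
    rw [e _ subset_rfl, this]
    exact sum_congr rfl fun a _ => (e _ (s a)).symm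
  · have := H.ind a
    unfold Ind at *
    rwa [e _ ((H.dsub a).trans (s a))]
  · exact (c a _ (insert_subset (mem_sdiff.1 (H.xmem a)).1 (H.dsub a)) y hy).2 (H.span a y hy)
  · exact fun k => H.nl a y hy ((c a _ (H.dsub a) y (mem_sdiff.1 hy).1).1 k)
  · exact (c a _ (erase_subset _ _) y (H.dsub a hy)).2 (H.ncl a y hy)

lemma mem_oth {a b : Fin m} {y : α} : y ∈ oth F a b ↔ ∃ c, c ≠ a ∧ c ≠ b ∧ y ∈ F c := by
  simp only [oth, mem_biUnion, mem_erase, mem_univ, and_true]
  exact exists_congr fun c => by tauto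

lemma oth_left {a b : Fin m} (h : a ≠ b) : oth F a b ∪ F a = (univ.erase b).biUnion F := by
  ext y
  simp only [mem_union, mem_oth, mem_biUnion, mem_erase, mem_univ, and_true]
  constructor
  · rintro (⟨c, -, k, l⟩ | k)
    exacts [⟨c, k, l⟩, ⟨a, h, k⟩]
  · rintro ⟨c, k, l⟩
    by_cases e : c = a
    exacts [.inr (e ▸ l), .inl ⟨c, e, k, l⟩]

lemma oth_right {a b : Fin m} (h : a ≠ b) : oth F a b ∪ F b = (univ.erase a).biUnion F := by
  rw [← oth_left h.symm, oth, oth, erase_right_comm]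

lemma oth_all {a b : Fin m} (h : a ≠ b) : oth F a b ∪ F a ∪ F b = univ.biUnion F := by
  rw [oth_left h, union_comm, ← biUnion_insert, insert_erase (mem_univ b)]

lemma oth_disj (d : PD F) (a b : Fin m) : Disjoint (oth F a b) (F a) ∧ Disjoint (oth F a b) (F b) :=
  ⟨disjoint_left.2 fun y hy k => by
    obtain ⟨c, k1, -, l⟩ := mem_oth.1 hy
    exact disjoint_left.1 (d c a k1) l k, disjoint_left.2 fun y hy k => by
    obtain ⟨c, -, k1, l⟩ := mem_oth.1 hy
    exact disjoint_left.1 (d c b k1) l k⟩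

lemma seq_tutte (h : Rk r) (H : Hubs r E F D x) {a b : Fin m} (ab : a ≠ b) {k : ℤ}
    (c : Conn (con r (oth F a b)) (E \ oth F a b) (F a) (F b) k) :
    ∃ C ⊆ E \ univ.biUnion F, Ind (con r ((univ.erase a).biUnion F)) C ∧
      Ind (con r ((univ.erase b).biUnion F)) C ∧ k ≤ C.card - con r (univ.biUnion F) C := by
  obtain ⟨d1, d2⟩ := oth_disj H.pd a b
  obtain ⟨C, c1, c2, c3, c4⟩ := (h.con _).tutte (subset_sdiff.2 ⟨H.sub a, d1.symm⟩)
    (subset_sdiff.2 ⟨H.sub b, d2.symm⟩) (H.pd a b ab) c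
  have c5 := (h.con _).ind_of_con c2
  have s1 := h.skew_con H.skew (mem_univ b) (X := F b) subset_rfl (oth_left ab).le
  have s2 := h.con_le (oth F a b) (F b)
  refine ⟨C, by rwa [sdiff_sdiff_left, sup_eq_union, ← union_assoc, oth_all ab] at c1,
    by rwa [con_con, oth_right ab] at c3, by rwa [con_con, oth_left ab] at c2, ?_⟩
  rw [← oth_all ab]
  simp only [Ind, loc, con] at c2 c3 c4 c5 s1 s2 ⊢
  rw [union_comm C (F a)] at c2
  rw [union_comm C (F b)] at c3
  rw [union_comm (F b), union_comm (oth F a b) (F a)] at s1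
  rw [show F a ∪ F b ∪ C ∪ oth F a b = C ∪ (F a ∪ oth F a b ∪ F b) by ac_rfl] at c4
  rw [union_comm (oth F a b) (F a)]
  omega

lemma seq_ind (hP : StPW) (n m g j : ℕ) : ∃ K : ℕ, ∀ (α : Type) [DecidableEq α]
    (r : Finset α → ℤ) (E : Finset α) (F D : Fin m → Finset α) (x : Fin m → α),
    Rk r → Free n r E → Hubs r E F D x →
    (∀ a b, a ≠ b → Conn (con r (oth F a b)) (E \ oth F a b) (F a) (F b) K) →
    ∀ s : Finset (Fin m × Fin m), s.card = j → (∀ e ∈ s, e.1 ≠ e.2) →
    ∃ (C : Finset α) (Y : Fin m × Fin m → Finset α), C ⊆ E \ univ.biUnion F ∧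
      Ind (con r (univ.biUnion F)) C ∧ PD Y ∧ (∀ e, Y e ⊆ (E \ C) \ univ.biUnion F) ∧
      ∀ e ∈ s, (Y e).card = g ∧ (∀ y ∈ Y e, Cl (con r C) (univ.biUnion F) y) ∧
        Ind (con (con r C) ((univ.erase e.1).biUnion F)) (Y e) ∧
        Ind (con (con r C) ((univ.erase e.2).biUnion F)) (Y e) := by
  induction j with
  | zero =>
    refine ⟨0, fun α _ r E F D x h _ _ _ s hs _ => ⟨∅, fun _ => ∅, empty_subset _,
      (h.con _).ind_empty, fun _ _ _ => disjoint_empty_left _, fun _ => empty_subset _, ?_⟩⟩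
    simp [card_eq_zero.1 hs]
  | succ j ih =>
    obtain ⟨K, hK⟩ := ih
    obtain ⟨k, K', hk⟩ := hP n (m * m) g K
    refine ⟨max k K', fun α _ r E F D x h fr H c s hs ne => ?_⟩
    obtain ⟨e, he⟩ : s.Nonempty := card_pos.1 (by omega)
    have hFE : univ.biUnion F ⊆ E := biUnion_subset.2 fun a _ => H.sub a
    obtain ⟨C, c1, c2, c3, c4⟩ := seq_tutte h H (ne e he) (c _ _ (ne e he))
    obtain ⟨C0, Y0, p1, p2, p3, p4, p5, p6, p7⟩ := hk α {p : Fin m × Fin m // p.1 ≠ p.2} r E
      (univ.biUnion F) C (fun p => oth F p.1.1 p.1.2) (fun p => F p.1.1) (fun p => F p.1.2)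
      ((Fintype.card_subtype_le _).trans (by simp)) h fr hFE
      (fun p => ⟨oth_all p.2, (oth_disj H.pd _ _).1, (oth_disj H.pd _ _).2, H.pd _ _ p.2⟩)
      (fun p => (c _ _ p.2).le (by exact_mod_cast le_max_left _ _)) c1
      (le_trans (by exact_mod_cast le_max_right _ _) c4)
    have q1 := p1.trans c1
    have q2 := p2.trans c1
    obtain ⟨C1, Y, u1, u2, u3, u4, u5⟩ := hK α (con r C0) (E \ (C0 ∪ Y0)) F D x (h.con _)
      (fr.con h (q1.trans sdiff_subset) (sdiff_subset_sdiff subset_rfl subset_union_left))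
      (hubs_congr H (fun X hX => h.con_of_ind p5 hX) fun a y hy => by
        have := subset_biUnion_of_mem F (mem_univ a) hy
        exact mem_sdiff.2 ⟨H.sub a hy, fun k => (mem_union.1 k).elim
          (fun k => (mem_sdiff.1 (q1 k)).2 this) fun k => (mem_sdiff.1 (q2 k)).2 this⟩)
      (fun a b ab => by
        have := p7 ⟨(a, b), ab⟩
        rwa [con_con, union_comm C0, sdiff_sdiff_left, sup_eq_union, union_comm (C0 ∪ Y0),
          ← union_assoc])
      (s.erase e) (by rw [card_erase_of_mem he, hs]; rfl) fun f hf => ne f (mem_of_mem_erase hf)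
    have dj : ∀ f, Disjoint Y0 (Y f) := fun f => disjoint_left.2 fun y hy k =>
      (mem_sdiff.1 (mem_sdiff.1 (mem_sdiff.1 (u4 f k)).1).1).2 (mem_union_right _ hy)
    refine ⟨C0 ∪ C1, Function.update Y e Y0, union_subset q1
      (u1.trans (sdiff_subset_sdiff sdiff_subset subset_rfl)), ?_, fun f f' ff => ?_, fun f => ?_,
      fun f hf => ?_⟩
    · rw [con_con, union_comm C0, ← con_con] at u2
      rw [union_comm]
      exact (h.con _).ind_union p5 u2
    · by_cases a : f = e
      · rw [a, Function.update_self, Function.update_of_ne (a ▸ ff.symm)]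
        exact dj _
      by_cases b : f' = e
      · rw [b, Function.update_self, Function.update_of_ne a]
        exact (dj _).symm
      rw [Function.update_of_ne a, Function.update_of_ne b]
      exact u3 _ _ ff
    · by_cases a : f = e
      · rw [a, Function.update_self]
        intro y hy
        have := mem_sdiff.1 (q2 hy)
        refine mem_sdiff.2 ⟨mem_sdiff.2 ⟨this.1, fun k => (mem_union.1 k).elim
          (fun k => disjoint_left.1 p3 k hy) fun k => ?_⟩, this.2⟩
        exact (mem_sdiff.1 (mem_sdiff.1 (u1 k)).1).2 (mem_union_right _ hy)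
      · rw [Function.update_of_ne a]
        intro y hy
        have := u4 f hy
        simp only [mem_sdiff, mem_union, not_or] at this ⊢
        tauto
    · by_cases a : f = e
      · rw [a, Function.update_self, ← con_con]
        have w1 : ∀ y ∈ Y0, Cl (con r C0) (univ.biUnion F) y := fun y hy => cl_con.2 (p6 y hy)
        have w2 : ∀ t : Fin m, Ind (con r ((univ.erase t).biUnion F)) C →
            Ind (con (con (con r C0) C1) ((univ.erase t).biUnion F)) Y0 := fun t k => by
          have s : (univ.erase t).biUnion F ⊆ univ.biUnion F :=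
            biUnion_subset_biUnion_of_subset_left _ (erase_subset _ _)
          have v := (h.con _).ind_con p3.symm ((h.con _).ind_sub k (union_subset p2 p1))
          rw [con_con, union_comm, ← con_con] at v
          have v1 := (h.con C0).con_of_ind u2 s
          have v2 := (h.con C0).con_of_ind' u2 (X := Y0 ∪ (univ.erase t).biUnion F) fun y hy =>
            (mem_union.1 hy).elim (w1 y) fun k => cl_mem (s k)
          unfold Ind at v ⊢
          rw [con, v1, v2]
          exact v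
        exact ⟨p4, fun y hy => cl_con.2 ((h.con _).cl_mono subset_union_left (w1 y hy)), w2 _ c2,
          w2 _ c3⟩
      · rw [Function.update_of_ne a, ← con_con]
        exact u5 f (mem_erase.2 ⟨a, hf⟩)

end Pool.Agent.Lib.MP_a4b0c4_co.J.F

namespace Pool.Agent.Lib.MP_a4b0c4_co.J

open F in
theorem stSeq (hP : StPW) : StSeq := by
  intro n m g
  obtain ⟨K, hK⟩ := seq_ind hP n m g (univ.filter fun e : Fin m × Fin m => e.1 < e.2).card
  refine ⟨K, fun α _ r E h fr ⟨F, D, x, H, c⟩ => ?_⟩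
  obtain ⟨C, Y, u1, u2, u3, u4, u5⟩ := hK α r E F D x h fr H c _ rfl
    fun e he => (mem_filter.1 he).2.ne
  refine ⟨con r C, E \ C, h.con C, fr.con h (u1.trans sdiff_subset) subset_rfl, F, D, x, Y,
    hubs_congr H (fun X hX => h.con_of_ind u2 hX) fun a y hy => mem_sdiff.2 ⟨H.sub a hy, fun k =>
      (mem_sdiff.1 (u1 k)).2 (subset_biUnion_of_mem F (mem_univ a) hy)⟩, u3, fun a b ab =>
    ⟨u4 _, u5 (a, b) (mem_filter.2 ⟨mem_univ _, ab⟩)⟩⟩

end Pool.Agent.Lib.MP_a4b0c4_co.J
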