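import Pool.Agent.Lib.MP_a4b0c4_co.Abs

set_option autoImplicit false
set_option linter.unusedSectionVars false
set_option linter.unusedVariables false

open Finset

namespace Pool.Agent.Lib.MP_a4b0c4_co

variable {α : Type} [DecidableEq α] {ρ : Finset α → ℤ} {pos : α → ℤ}

lemma Cross.flip {a c b d : ℤ} (h : Cross a c b d) : Cross b d c a := by
  unfold Cross at *
  rcases h with h | h | h | h | h | h | h | h <;> simp only [h, and_self, true_or, or_true]

lemma step (hr : Rk ρ) (hK : KP ρ pos) {S L1 R1 L2 R2 : Finset α} {e : α} {m : ℤ} (he : e ∈ S)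
    (s1 : L1 ∪ R1 ⊆ S.erase e) (s2 : L2 ∪ R2 ⊆ S.erase e) (d1 : Disjoint L1 R1)
    (d2 : Disjoint L2 R2) (hL : L1 ⊆ L2 ∨ L2 ⊆ L1)
    (c1 : ∀ l ∈ L1, ∀ r ∈ R1, ∀ w ∈ S.erase e \ (L1 ∪ R1), Cross (pos l) (pos r) (pos e) (pos w))
    (c2 : ∀ l ∈ L2, ∀ r ∈ R2, ∀ w ∈ S.erase e \ (L2 ∪ R2), Cross (pos l) (pos r) (pos e) (pos w))
    (a1 : m ≤ lam ρ S (insert e (L1 ∪ R1))) (a2 : m ≤ lam ρ S (insert e (L2 ∪ R2)))
    (b1 : m ≤ lam ρ S L1) (b2 : m ≤ lam ρ S L2) :
    m ≤ lam ρ (S.erase e) (L1 ∪ R1) ∨ m ≤ lam (fun X => ρ ({e} ∪ X)) (S.erase e) (L2 ∪ R2) := by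
  by_contra hn
  push Not at hn
  obtain ⟨n1, n2⟩ := hn
  rw [disjoint_left] at d1 d2
  obtain ⟨W1, hW1⟩ : ∃ W, W = S.erase e \ (L1 ∪ R1) := ⟨_, rfl⟩
  obtain ⟨W2, hW2⟩ : ∃ W, W = S.erase e \ (L2 ∪ R2) := ⟨_, rfl⟩
  unfold lam at *
  rw [show S \ insert e (L1 ∪ R1) = W1 by clear * - hW1; grind (ematch := 15)] at a1
  rw [show S \ insert e (L2 ∪ R2) = W2 by clear * - hW2; grind (ematch := 15)] at a2
  simp only [← hW1, ← hW2, union_empty] at n1 n2 c1 c2
  rw [show {e} ∪ S.erase e = S by clear * - he; grind (ematch := 15), ← insert_eq, ← insert_eq] at n2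
  have u1 := hr.unit e (L1 ∪ R1)
  have u2 := hr.mono (erase_subset e S)
  have u3 := hr.unit e ∅
  have u4 := hr.mono (subset_insert e W2)
  rw [insert_empty] at u3
  rcases hL with hL | hL
  · have k1 : ρ (S \ L1) ≤ ρ (R1 ∪ W1) := by
      refine hr.clo (J := W2) (Y := insert e W2) (subset_insert _ _) (by linarith) ?_ ?_
      · clear * - hW1 hW2 hL; grind (ematch := 15)
      · clear * - hW1 hW2 hL; grind (ematch := 15)
    have k2 := hr.sub (X := ∅) (Y := R1 ∪ W1) (A := R1) (B := W1) (empty_subset _)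
      (empty_subset _) subset_rfl
    by_cases q : ρ (∅ ∪ L1 ∪ R1) + ρ ∅ < ρ (∅ ∪ L1) + ρ (∅ ∪ R1)
    · have := hK ∅ L1 R1 {e} W1 (L1 ∪ R1) (fun a ha c hc b hb d hd => by
        rw [mem_singleton.1 hb]; exact c1 a ha c hc d hd) (by simp) q
      rw [show L1 ∪ R1 ∪ {e} ∪ W1 = S by clear * - hW1 s1 he; grind (ematch := 15),
        show L1 ∪ R1 ∪ W1 = S.erase e by clear * - hW1 s1 he; grind (ematch := 15),
        show L1 ∪ R1 ∪ {e} = insert e (L1 ∪ R1) by clear * -; grind (ematch := 15)] at this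
      linarith
    · simp only [empty_union, not_lt] at q
      linarith
  · have k1 := hr.sub (X := L2) (Y := insert e (L1 ∪ R1)) (A := insert e L2) (B := L1 ∪ R1)
      (subset_insert _ _) (hL.trans subset_union_left) (by clear * -; grind (ematch := 15))
    have k2 := hK ∅ {e} W2 R2 L2 (insert e W2) (fun a ha c hc b hb d hd => by
      rw [mem_singleton.1 ha]; exact (c2 d hd b hb c hc).flip) (by clear * -; grind (ematch := 15)) (by
        simp only [empty_union, ← insert_eq]; linarith)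
    rw [show insert e W2 ∪ R2 ∪ L2 = S by clear * - hW2 s2 he; grind (ematch := 15),
      show insert e W2 ∪ R2 = S \ L2 by clear * - hW2 s2 he d2; grind (ematch := 15),
      show insert e W2 ∪ L2 = S \ R2 by clear * - hW2 s2 he d2; grind (ematch := 15)] at k2
    have k3 := hr.sub (X := insert e L2) (Y := S) (A := insert e (L2 ∪ R2)) (B := S \ R2)
      (by clear * -; grind (ematch := 15)) (by clear * - s2 he d2; simp only [subset_iff, mem_union] at *; grind (ematch := 15))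
      (by clear * -; grind (ematch := 15))
    linarith

lemma elim (φ : α → ℤ) (LL : Set (Finset α)) (chain : ∀ L ∈ LL, ∀ L' ∈ LL, L ⊆ L' ∨ L' ⊆ L)
    (m : ℤ) (A : Finset α) : ∀ (S : Finset α) (ρ : Finset α → ℤ), Rk ρ → KP ρ pos → A ⊆ S →
    (∀ L ∈ LL, L ⊆ S \ A) → Set.InjOn φ A →
    (∀ L ∈ LL, ∀ l ∈ L, ∀ e ∈ A, ∀ r ∈ A, ∀ w ∈ S, φ e < φ r → w ∉ L → (w ∈ A → φ r < φ w) →
      Cross (pos l) (pos r) (pos e) (pos w)) →
    (∀ L ∈ LL, ∀ p, m ≤ lam ρ S (L ∪ A.filter fun x => φ x < p)) →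
    ∃ C ⊆ A, ∀ L ∈ LL, m ≤ lam (fun X => ρ (C ∪ X)) (S \ A) L := by
  induction A using Finset.induction_on_min_value φ with
  | empty =>
    intro S ρ _ _ _ _ _ _ h
    exact ⟨∅, subset_rfl, fun L hL => by simpa using h L hL 0⟩
  | insert e A he hmin ih =>
    intro S ρ hr hK hA hL hi hc h
    have hlt : ∀ x ∈ A, φ e < φ x := fun x hx => lt_of_le_of_ne (hmin x hx) fun k =>
      he (by rw [hi (by simp) (by simp [hx]) k]; exact hx)
    have q1 : A ⊆ S.erase e := by clear * - hA he; grind (ematch := 15)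
    have q2 : ∀ L ∈ LL, L ⊆ S.erase e \ A := fun L k => by
      have := hL L k; clear * - this; grind (ematch := 15)
    have q3 : Set.InjOn φ A := hi.mono (by simp)
    have q4 : ∀ L ∈ LL, ∀ l ∈ L, ∀ e' ∈ A, ∀ r ∈ A, ∀ w ∈ S.erase e, φ e' < φ r → w ∉ L →
        (w ∈ A → φ r < φ w) → Cross (pos l) (pos r) (pos e') (pos w) :=
      fun L k l hl e' he' r hr w hw h1 h2 h3 => hc L k l hl e' (mem_insert_of_mem he') r
        (mem_insert_of_mem hr) w (mem_of_mem_erase hw) h1 h2 fun h4 =>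
          h3 ((mem_insert.1 h4).resolve_left (ne_of_mem_erase hw))
    have q5 : S.erase e \ A = S \ insert e A := by clear * -; grind (ematch := 15)
    by_cases h1 : ∀ L ∈ LL, ∀ p, m ≤ lam ρ (S.erase e) (L ∪ A.filter fun x => φ x < p)
    · obtain ⟨C, a, b⟩ := ih _ ρ hr hK q1 q2 q3 q4 h1
      exact ⟨C, a.trans (subset_insert _ _), q5 ▸ b⟩
    by_cases h2 : ∀ L ∈ LL, ∀ p, m ≤ lam (fun X => ρ ({e} ∪ X)) (S.erase e)
        (L ∪ A.filter fun x => φ x < p)
    · obtain ⟨C, a, b⟩ := ih _ _ (hr.con {e}) (hK.con {e}) q1 q2 q3 q4 h2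
      refine ⟨{e} ∪ C, by clear * - a; grind (ematch := 15), ?_⟩
      simpa only [q5, union_assoc] using b
    exfalso
    push Not at h1 h2
    obtain ⟨L1, k1, p1, h1⟩ := h1
    obtain ⟨L2, k2, p2, h2⟩ := h2
    have g : ∀ L ∈ LL, ∀ p, L ∪ A.filter (fun x => φ x < p) ⊆ S.erase e ∧
        Disjoint L (A.filter fun x => φ x < p) ∧
        (∀ l ∈ L, ∀ r ∈ A.filter fun x => φ x < p,
          ∀ w ∈ S.erase e \ (L ∪ A.filter fun x => φ x < p),
            Cross (pos l) (pos r) (pos e) (pos w)) ∧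
        m ≤ lam ρ S (insert e (L ∪ A.filter fun x => φ x < p)) ∧ m ≤ lam ρ S L := by
      intro L k p
      have t := q2 L k
      refine ⟨by clear * - t q1; grind (ematch := 15), by clear * - t; grind (ematch := 15) [disjoint_left],
        fun l hl r hr w hw => ?_, ?_, ?_⟩
      · simp only [mem_filter, mem_sdiff, mem_erase, mem_union, not_or, not_and] at hr hw
        refine hc L k l hl e (mem_insert_self _ _) r (mem_insert_of_mem hr.1) w hw.1.2
          (hlt r hr.1) hw.2.1 fun h4 => ?_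
        have := hw.2.2 ((mem_insert.1 h4).resolve_left hw.1.1)
        omega
      · have := h L k (max p (φ e + 1))
        rwa [show L ∪ (insert e A).filter (fun x => φ x < max p (φ e + 1)) =
          insert e (L ∪ A.filter fun x => φ x < p) by clear * - hlt; grind (ematch := 15)] at this
      · have := h L k (φ e)
        rwa [show L ∪ (insert e A).filter (fun x => φ x < φ e) = L by
          clear * - hlt; grind (ematch := 15)] at this
    obtain ⟨a1, a2, a3, a4, a5⟩ := g L1 k1 p1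
    obtain ⟨b1, b2, b3, b4, b5⟩ := g L2 k2 p2
    rcases step hr hK (hA (mem_insert_self _ _)) a1 b1 a2 b2 (chain _ k1 _ k2) a3 b3 a4 b4 a5 b5
      with k | k <;> linarith

lemma link (hr : Rk ρ) (hK : KP ρ pos) {A1 A2 A3 A4 : Finset α} {m : ℤ}
    (hi : Set.InjOn pos (A1 ∪ A2 ∪ A3 ∪ A4 : Finset α))
    (o12 : ∀ x ∈ A1, ∀ y ∈ A2, pos x < pos y) (o13 : ∀ x ∈ A1, ∀ y ∈ A3, pos x < pos y)
    (o14 : ∀ x ∈ A1, ∀ y ∈ A4, pos x < pos y) (o23 : ∀ x ∈ A2, ∀ y ∈ A3, pos x < pos y)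
    (o24 : ∀ x ∈ A2, ∀ y ∈ A4, pos x < pos y) (o34 : ∀ x ∈ A3, ∀ y ∈ A4, pos x < pos y)
    (h : ∀ p q, m ≤ lam ρ (A1 ∪ A2 ∪ A3 ∪ A4)
      ((A1 ∪ A4.filter fun x => q ≤ pos x) ∪ A2.filter fun x => pos x < p)) :
    ∃ C ⊆ A2 ∪ A4, m ≤ lam (fun X => ρ (C ∪ X)) (A1 ∪ A3) A1 := by
  obtain ⟨C, c1, c2⟩ := elim (pos := pos) pos
    (Set.range fun q => A1 ∪ A4.filter fun x => q ≤ pos x) (by
      rintro _ ⟨p, rfl⟩ _ ⟨q, rfl⟩
      rcases le_total p q with k | k
      · right; clear * - k; grind (ematch := 15)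
      · left; clear * - k; grind (ematch := 15)) m A2 (A1 ∪ A2 ∪ A3 ∪ A4) ρ hr hK (by clear * -; grind (ematch := 15))
    (by rintro _ ⟨q, rfl⟩; clear * - o12 o24; grind (ematch := 15)) 
    (hi.mono (coe_subset.2 (by clear * -; grind (ematch := 15))))
    (by
      rintro _ ⟨q, rfl⟩ l hl e he r hr w hw h1 h2 h3
      simp only [mem_union, mem_filter, not_or, not_and] at hl hw h2
      have k : pos r < pos w := by
        rcases hw with ((hw | hw) | hw) | hw
        exacts [absurd hw h2.1, h3 hw, o23 r hr w hw, o24 r hr w hw]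
      rcases hl with hl | hl
      · exact Or.inl ⟨o12 l hl e he, h1, k⟩
      · refine Or.inr (Or.inl ⟨h1, k, ?_⟩)
        rcases hw with ((hw | hw) | hw) | hw
        exacts [o14 w hw l hl.1, o24 w hw l hl.1, o34 w hw l hl.1,
          by have := h2.2 hw; omega])
    (by rintro _ ⟨q, rfl⟩ p; exact h p q)
  obtain ⟨D, d1, d2⟩ := elim (pos := pos) (fun x => -pos x) {A1} (by simp) m A4
    ((A1 ∪ A2 ∪ A3 ∪ A4) \ A2) _ (hr.con C) (hK.con C) (by clear * - o24; grind (ematch := 15))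
    (by rintro _ rfl; clear * - o12 o14; grind (ematch := 15))
    (fun x hx y hy k => hi (mem_coe.2 (mem_union_right _ hx)) (mem_coe.2 (mem_union_right _ hy))
      (neg_injective k))
    (by
      rintro _ rfl l hl e he r hr w hw h1 h2 h3
      simp only [mem_union, mem_sdiff] at hw
      refine Or.inr (Or.inr (Or.inr (Or.inr (Or.inl ⟨?_, ?_, by omega⟩))))
      · rcases hw.1 with ((hw' | hw') | hw') | hw'
        exacts [absurd hw' h2, absurd hw' hw.2, o13 l hl w hw', o14 l hl w hw']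
      · rcases hw.1 with ((hw' | hw') | hw') | hw'
        exacts [absurd hw' h2, absurd hw' hw.2, o34 w hw' r hr, by have := h3 hw'; omega])
    (by
      rintro _ rfl p
      have := c2 (_ ∪ A4.filter fun x => 1 - p ≤ pos x) ⟨1 - p, rfl⟩
      rwa [show (A4.filter fun x => 1 - p ≤ pos x) = A4.filter fun x => -pos x < p by
        clear * -; grind (ematch := 15)] at this)
  refine ⟨C ∪ D, union_subset_union c1 d1, ?_⟩
  have := d2 A1 rfl
  rw [show ((A1 ∪ A2 ∪ A3 ∪ A4) \ A2) \ A4 = A1 ∪ A3 by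
    clear * - o12 o23 o14 o34; grind (ematch := 15)] at this
  simpa only [union_assoc] using this

end Pool.Agent.Lib.MP_a4b0c4_co
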