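import Mathlib
import Pool.Agent.Lib.MP_a4b0c4_co.Abs

set_option autoImplicit false
set_option linter.unusedSectionVars false
set_option linter.unusedVariables false

open Finset

namespace Pool.Agent.Lib.MP_a4b0c4_co

section A
variable {α : Type} [DecidableEq α] {ρ : Finset α → ℤ} {pos : α → ℤ}

lemma one_side (T2 T1 : Finset α) : ∀ F : Finset α,
    ρ (F ∪ T1 ∪ T2) + ρ F < ρ (F ∪ T1) + ρ (F ∪ T2) → ∃ a ∈ T1, ∃ F', F ⊆ F' ∧ F' ⊆ F ∪ T1 ∧
      ρ (F' ∪ T2 ∪ {a}) + ρ F' < ρ (F' ∪ T2) + ρ (F' ∪ {a}) := by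
  induction T1 using Finset.induction_on with
  | empty => intro F h; simp only [union_empty] at h; linarith
  | insert a T _ ih =>
    intro F h
    by_cases k : ρ (F ∪ T ∪ T2) + ρ F < ρ (F ∪ T) + ρ (F ∪ T2)
    · obtain ⟨b, hb, F', h1, h2, h3⟩ := ih F k
      exact ⟨b, mem_insert_of_mem hb, F', h1,
        h2.trans (union_subset_union_right (subset_insert _ _)), h3⟩
    · refine ⟨a, mem_insert_self _ _, F ∪ T, subset_union_left,
        union_subset_union_right (subset_insert _ _), ?_⟩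
      rw [show F ∪ T ∪ T2 ∪ {a} = F ∪ insert a T ∪ T2 by clear * -; grind,
        show F ∪ T ∪ {a} = F ∪ insert a T by clear * -; grind]
      linarith

lemma pair (hr : Rk ρ) {F T1 T2 : Finset α}
    (h : ρ (F ∪ T1 ∪ T2) + ρ F < ρ (F ∪ T1) + ρ (F ∪ T2)) : ∃ a ∈ T1, ∃ c ∈ T2, ∃ F', F ⊆ F' ∧
      F' ⊆ F ∪ T1 ∪ T2 ∧ ρ (insert a F') = ρ F' + 1 ∧ ρ (insert c F') = ρ F' + 1 ∧
      ρ (insert a (insert c F')) = ρ F' + 1 := by
  obtain ⟨a, ha, F1, h1, h2, h3⟩ := one_side T2 T1 F h
  obtain ⟨c, hc, F2, h4, h5, h6⟩ := one_side {a} T2 F1 h3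
  rw [show F2 ∪ {a} ∪ {c} = insert a (insert c F2) by clear * -; grind,
    show F2 ∪ {a} = insert a F2 by clear * -; grind,
    show F2 ∪ {c} = insert c F2 by clear * -; grind] at h6
  have := hr.unit a F2
  have := hr.unit c F2
  have := hr.mono (subset_insert a (insert c F2))
  have := hr.mono (X := insert a F2) (Y := insert a (insert c F2)) (by clear * -; grind)
  exact ⟨a, ha, c, hc, F2, h1.trans h4, h5.trans (union_subset_union_left h2), by linarith,
    by linarith, by linarith⟩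

lemma KP.of_quad [Fintype α] (hr : Rk ρ)
    (hQ : ∀ (S : Finset α) (a b c d : α), Cross (pos a) (pos c) (pos b) (pos d) →
      ρ univ = ρ ∅ + S.card + 2 → ρ univ ≤ ρ (insert a (insert b S)) →
      ρ univ ≤ ρ (insert a (insert d S)) → ρ univ ≤ ρ (insert c (insert b S)) →
      ρ univ ≤ ρ (insert c (insert d S)) → ρ univ ≤ ρ (insert a (insert c S))) : KP ρ pos := by
  intro F T1 T2 G1 G2 H hc hH h1
  by_contra h2
  obtain ⟨a, ha, c, hc', F1, a1, a2, a3, a4, a5⟩ := pair hr h1
  obtain ⟨b, hb, d, hd, H1, b1, b2, b3, b4, b5⟩ := pair hr (not_le.1 h2)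
  have s1 : insert a (insert c F1) ⊆ H1 := by
    refine (insert_subset ?_ (insert_subset ?_ a2)).trans (hH.trans b1) <;> simp [*]
  obtain ⟨J1, -, c2, c3, c4⟩ := hr.ext (I := ∅) (Y := F1) (empty_subset _) (by simp)
  have e1 : ∀ x, ρ (insert x F1) ≤ ρ (insert x J1) := fun x =>
    hr.clo c2 c4.ge (subset_insert _ _) (by clear * -; grind)
  have n1 : a ∉ J1 := fun k => by rw [insert_eq_of_mem (c2 k)] at a3; linarith
  obtain ⟨J2, d1, d2, d3, d4⟩ := hr.ext (I := insert a J1) (Y := H1)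
    (by clear * - s1 c2; grind) (by
      have := hr.unit a J1
      have := e1 a
      rw [card_insert_of_notMem n1]; push_cast; linarith)
  have e2 : ∀ x, ρ (insert x H1) ≤ ρ (insert x J2) := fun x =>
    hr.clo d2 d4.ge (subset_insert _ _) (by clear * -; grind)
  have n2 : b ∉ J2 := fun k => by rw [insert_eq_of_mem (d2 k)] at b3; linarith
  obtain ⟨J3, f1, -, f3, f4⟩ := hr.ext (I := insert b J2) (Y := univ) (subset_univ _) (by
      have := hr.unit b J2
      have := e2 b
      rw [card_insert_of_notMem n2]; push_cast; linarith)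
  have ab : a ≠ b := fun k => n2 (k ▸ d1 (mem_insert_self _ _))
  obtain ⟨S, hS⟩ : ∃ S, S = (J3.erase a).erase b := ⟨_, rfl⟩
  have aS : a ∉ S := by clear * - hS; grind
  have bS : b ∉ S := by clear * - hS; grind
  have eS : J3 = insert a (insert b S) := by clear * - hS f1 d1; grind
  have cS : (J3.card : ℤ) = S.card + 2 := by
    rw [eS, card_insert_of_notMem (by simp [ab, aS]), card_insert_of_notMem bS]; push_cast; ring
  have sJ : J2 ⊆ insert a S := by clear * - hS f1 n2; grind
  have sJ1 : J1 ⊆ S := by clear * - hS f1 n2 n1 d1; grind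
  -- d replaces b
  have g1 : ρ univ ≤ ρ (insert a (insert d S)) := by
    rw [← f4]
    refine hr.clo (J := insert d J2) (Y := insert b (insert d H1)) (by clear * - d2; grind)
      (by linarith [e2 d]) (by clear * - sJ; grind) (by clear * - eS; grind)
  -- c replaces a
  have g2 : ∀ x, ρ (insert a (insert x S)) ≤ ρ (insert c (insert x S)) := fun x =>
    hr.clo (J := insert c J1) (Y := insert a (insert c F1)) (by clear * - c2; grind)
      (by linarith [e1 c]) (by clear * - sJ1; grind) (by clear * -; grind)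
  have g0 : ρ univ ≤ ρ (insert a (insert b S)) := by rw [← eS, f4]
  have := hQ S a b c d (hc a ha c hc' b hb d hd) (by linarith) g0 g1 (g0.trans (g2 b))
    (g1.trans (g2 d))
  have g3 : ρ (insert a (insert c S)) ≤ ρ (insert a S) :=
    hr.clo d2 d4.ge sJ (by clear * - s1; grind)
  have := hr.unit a S
  have := hr.le_card' (X := ∅) (Y := S) (Z := S) (by simp)
  linarith

end A

section B
open Matrix
variable {k N : ℕ} {A : Matrix (Fin k) (Fin N) ℝ}

lemma sign_lemma (hA : ∀ f : Fin k → Fin N, StrictMono f → 0 ≤ (A.submatrix id f).det)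
    (f : Fin k → Fin N) :
    0 ≤ (A.submatrix id f).det * (vandermonde fun i => ((f i : ℕ) : ℝ)).det := by
  by_cases hf : Function.Injective f
  · have sm : StrictMono (f ∘ Tuple.sort f) :=
      (Tuple.monotone_sort f).strictMono_of_injective (hf.comp (Tuple.sort f).injective)
    have h1 := hA _ sm
    have h2 : 0 ≤ (vandermonde fun i => (((f ∘ Tuple.sort f) i : ℕ) : ℝ)).det := by
      rw [det_vandermonde]
      refine prod_nonneg fun i _ => prod_nonneg fun j hj => sub_nonneg.2 ?_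
      exact_mod_cast (sm (mem_Ioi.1 hj)).le
    have e1 := det_permute' (Tuple.sort f) (A.submatrix id f)
    have e2 := det_permute (Tuple.sort f) (vandermonde fun i => ((f i : ℕ) : ℝ))
    have := mul_nonneg h1 h2
    rw [show A.submatrix id (f ∘ Tuple.sort f) = (A.submatrix id f).submatrix id (Tuple.sort f)
      from rfl, show (vandermonde fun i => (((f ∘ Tuple.sort f) i : ℕ) : ℝ)) =
      (vandermonde fun i => ((f i : ℕ) : ℝ)).submatrix (Tuple.sort f) id from rfl, e1, e2] at this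
    rcases Int.units_eq_one_or (Equiv.Perm.sign (Tuple.sort f)) with h | h <;>
      simpa [h] using this
  · have : (vandermonde fun i => ((f i : ℕ) : ℝ)).det = 0 := by
      by_contra h
      exact hf fun i j e => (det_vandermonde_ne_zero_iff.1 h) (by simp [e])
    rw [this, mul_zero]

lemma inj_of_det {f : Fin k → Fin N} (h : (A.submatrix id f).det ≠ 0) : Function.Injective f := by
  intro i j e
  by_contra ne
  exact h (det_zero_of_column_eq ne fun l => by simp [e])

lemma base_iff {f : Fin k → Fin N} :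
    (∃ f' : Fin k → Fin N, StrictMono f' ∧ Set.range f' = Set.range f ∧
      (A.submatrix id f').det ≠ 0) ↔ (A.submatrix id f).det ≠ 0 := by
  have e1 := det_permute' (Tuple.sort f) (A.submatrix id f)
  have sm : Function.Injective f → StrictMono (f ∘ Tuple.sort f) := fun hf =>
    (Tuple.monotone_sort f).strictMono_of_injective (hf.comp (Tuple.sort f).injective)
  have rg : Set.range (f ∘ Tuple.sort f) = Set.range f := (Tuple.sort f).surjective.range_comp f
  constructor
  · rintro ⟨f', h1, h2, h3⟩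
    have hf : Function.Injective f := by
      rw [← Set.injOn_univ]
      refine Set.injOn_of_ncard_image_eq ?_
      rw [Set.image_univ, ← h2, Set.ncard_range_of_injective h1.injective, Set.ncard_univ]
    obtain rfl := (h1.range_inj (sm hf)).1 (h2.trans rg.symm)
    intro h
    exact h3 (e1.trans (by rw [h, mul_zero]))
  · intro h
    refine ⟨_, sm (inj_of_det h), rg, fun h' => ?_⟩
    have : ((Equiv.Perm.sign (Tuple.sort f) : ℤ) : ℝ) * (A.submatrix id f).det = 0 :=
      e1.symm.trans h'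
    rcases Int.units_eq_one_or (Equiv.Perm.sign (Tuple.sort f)) with e | e <;>
      simp [e, h] at this

end B

section C
open Matrix
variable {m N : ℕ} {A : Matrix (Fin (m + 2)) (Fin N) ℝ}

def cc (g : Fin m → Fin N) (u v : Fin N) : Fin (m + 2) → Fin N := Fin.cons u (Fin.cons v g)

lemma pluck (g : Fin m → Fin N) (a b c d : Fin N) (h1 : (A.submatrix id (cc g a b)).det ≠ 0)
    (h2 : (A.submatrix id (cc g a c)).det = 0) :
    (A.submatrix id (cc g a b)).det * (A.submatrix id (cc g c d)).det =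
      (A.submatrix id (cc g a d)).det * (A.submatrix id (cc g c b)).det := by
  obtain ⟨x, hx⟩ := mulVec_surjective_iff_isUnit.2 ((isUnit_iff_isUnit_det _).2 (Ne.isUnit h1))
    fun i => A i c
  have hx' : ∀ i, A i c = ∑ j, x j • A i (cc g a b j) := fun i => by
    rw [← congrFun hx i]; simp [mulVec, dotProduct, mul_comm]
  have e1 := det_updateCol_sum (A.submatrix id (cc g a b)) 1 x
  rw [show (A.submatrix id (cc g a b)).updateCol 1 (fun i => ∑ j, x j • (A.submatrix id (cc g a b)) i j)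
    = A.submatrix id (cc g a c) by
      ext i j
      refine Fin.cases ?_ (fun j => Fin.cases ?_ (fun j => ?_) j) j
      · simp [cc]
      · simp only [Fin.succ_zero_eq_one, updateCol_self, submatrix_apply, id, ← hx']; simp [cc]
      · rw [updateCol_ne (by simp [Fin.ext_iff])]; simp [cc], h2] at e1
  have x1 : x 1 = 0 := by simpa [h1] using e1.symm
  have e2 : ∀ v, (A.submatrix id (cc g c v)).det = x 0 * (A.submatrix id (cc g a v)).det := by
    intro v
    rw [← smul_eq_mul, ← det_updateCol_sum]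
    congr 1
    ext i j
    refine Fin.cases ?_ (fun j => ?_) j
    · rw [updateCol_self]
      simp only [submatrix_apply, id, cc, Fin.cons_zero]
      rw [hx' i]
      simp [Fin.sum_univ_succ, cc, x1]
    · rw [updateCol_ne (Fin.succ_ne_zero j)]; simp [cc]
  rw [e2, e2]; ring

lemma vand (g : Fin m → Fin N) (u v : Fin N) :
    (vandermonde fun i => ((cc g u v i : ℕ) : ℝ)).det = (((v : ℕ) : ℝ) - (u : ℕ)) *
      (∏ j, (((g j : ℕ) : ℝ) - (u : ℕ))) * (∏ j, (((g j : ℕ) : ℝ) - (v : ℕ))) *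
      ∏ i, ∏ j ∈ Ioi i, (((g j : ℕ) : ℝ) - (g i : ℕ)) := by
  rw [det_vandermonde]
  simp only [Fin.prod_univ_succ, Fin.prod_Ioi_zero, Fin.prod_Ioi_succ, cc, Fin.cons_zero,
    Fin.cons_succ]
  ring

lemma cross_neg {a b c d : ℤ} (h : Cross a c b d) : (b - a) * (d - c) * ((d - a) * (b - c)) < 0 := by
  unfold Cross at h
  rcases h with ⟨h1, h2, h3⟩ | ⟨h1, h2, h3⟩ | ⟨h1, h2, h3⟩ | ⟨h1, h2, h3⟩ | ⟨h1, h2, h3⟩ |
    ⟨h1, h2, h3⟩ | ⟨h1, h2, h3⟩ | ⟨h1, h2, h3⟩ <;>
  first
    | exact mul_neg_of_pos_of_neg (by nlinarith) (by nlinarith)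
    | exact mul_neg_of_neg_of_pos (by nlinarith) (by nlinarith)

lemma quad (hA : ∀ f : Fin (m + 2) → Fin N, StrictMono f → 0 ≤ (A.submatrix id f).det)
    (g : Fin m → Fin N) {a b c d : Fin N}
    (h : Cross ((a : ℕ) : ℤ) ((c : ℕ) : ℤ) ((b : ℕ) : ℤ) ((d : ℕ) : ℤ))
    (h1 : (A.submatrix id (cc g a b)).det ≠ 0) (h2 : (A.submatrix id (cc g a d)).det ≠ 0)
    (h3 : (A.submatrix id (cc g c b)).det ≠ 0) (h4 : (A.submatrix id (cc g c d)).det ≠ 0) :
    (A.submatrix id (cc g a c)).det ≠ 0 := by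
  intro h0
  have e := pluck g a b c d h1 h0
  have p : ∀ u v, (A.submatrix id (cc g u v)).det ≠ 0 → 0 < (A.submatrix id (cc g u v)).det *
      (vandermonde fun i => ((cc g u v i : ℕ) : ℝ)).det := fun u v k =>
    lt_of_le_of_ne (sign_lemma hA _) (mul_ne_zero k (det_vandermonde_ne_zero_iff.2 fun i j e =>
      inj_of_det k (Fin.ext (by exact_mod_cast e)))).symm
  have q := mul_pos (mul_pos (p a b h1) (p c d h4)) (mul_pos (p a d h2) (p c b h3))
  have n : (((b : ℕ) : ℝ) - (a : ℕ)) * (((d : ℕ) : ℝ) - (c : ℕ)) *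
      ((((d : ℕ) : ℝ) - (a : ℕ)) * (((b : ℕ) : ℝ) - (c : ℕ))) < 0 := by exact_mod_cast cross_neg h
  rw [vand, vand, vand, vand] at q
  generalize (A.submatrix id (cc g a b)).det = x1 at *
  generalize (A.submatrix id (cc g c d)).det = x2 at *
  generalize (A.submatrix id (cc g a d)).det = x3 at *
  generalize (A.submatrix id (cc g c b)).det = x4 at *
  generalize (∏ j, (((g j : ℕ) : ℝ) - (a : ℕ))) = pa at *
  generalize (∏ j, (((g j : ℕ) : ℝ) - (b : ℕ))) = pb at *
  generalize (∏ j, (((g j : ℕ) : ℝ) - (c : ℕ))) = pc at *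
  generalize (∏ j, (((g j : ℕ) : ℝ) - (d : ℕ))) = pd at *
  generalize (∏ i, ∏ j ∈ Ioi i, (((g j : ℕ) : ℝ) - (g i : ℕ))) = K at *
  generalize ((b : ℕ) : ℝ) - (a : ℕ) = y1 at *
  generalize ((d : ℕ) : ℝ) - (c : ℕ) = y2 at *
  generalize ((d : ℕ) : ℝ) - (a : ℕ) = y3 at *
  generalize ((b : ℕ) : ℝ) - (c : ℕ) = y4 at *
  have : x1 * (y1 * pa * pb * K) * (x2 * (y2 * pc * pd * K)) *
      (x3 * (y3 * pa * pd * K) * (x4 * (y4 * pc * pb * K))) =
      y1 * y2 * (y3 * y4) * (x1 * x2 * (pa * pb * pc * pd * K ^ 2)) ^ 2 := by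
    linear_combination (-(x1 * x2 * y1 * y2 * y3 * y4 * (pa * pb * pc * pd * K ^ 2) ^ 2)) * e
  rw [this] at q
  exact absurd q (not_lt.2 (mul_nonpos_of_nonpos_of_nonneg n.le (sq_nonneg _)))

end C

end Pool.Agent.Lib.MP_a4b0c4_co
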