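import Mathlib
import Pool.Agent.Lib.MP_a4b0c4_co.Intv
import Pool.Agent.Lib.MP_a4b0c4_co.Pos

set_option autoImplicit false
set_option linter.unusedSectionVars false
set_option linter.unusedVariables false

open Finset

namespace Pool.Agent.Lib.MP_a4b0c4_co

section A
variable {α : Type} [DecidableEq α] [Fintype α] (M : Matroid α)

noncomputable def rk (X : Finset α) : ℤ := ((M.eRk X).toNat : ℤ)

lemma eRk_ne (X : Set α) : M.eRk X ≠ ⊤ :=
  ne_top_of_le_ne_top (Set.toFinite X).encard_lt_top.ne (M.eRk_le_encard X)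

lemma rk_cast (X : Set α) : (((M.eRk X).toNat : ℕ) : ℕ∞) = M.eRk X := ENat.natCast_toNat (eRk_ne M X)

lemma rk_rk : Rk (rk M) where
  mono := fun {X Y} h => by
    unfold rk
    exact_mod_cast ENat.toNat_le_toNat (M.eRk_mono (coe_subset.2 h)) (eRk_ne M _)
  subm := fun X Y => by
    have := M.eRk_inter_add_eRk_union_le X Y
    rw [← rk_cast M, ← rk_cast M (_ ∪ _), ← rk_cast M X, ← rk_cast M Y] at this
    unfold rk
    rw [coe_union, coe_inter, add_comm]
    exact_mod_cast this
  unit := fun e X => by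
    have := M.eRk_insert_le_add_one e X
    rw [← rk_cast M, ← rk_cast M X] at this
    unfold rk
    rw [coe_insert]
    exact_mod_cast this

lemma rk_empty : rk M ∅ = 0 := by simp [rk]

lemma indep_iff (X : Finset α) : M.Indep X ↔ rk M X = X.card := by
  rw [Matroid.indep_iff_eRk_eq_encard_of_finite (Set.toFinite _), Set.encard_coe_eq_coe_finsetCard,
    ← rk_cast M]
  unfold rk
  norm_cast

lemma base_rk {X : Finset α} (h : M.IsBase X) : rk M X = rk M univ := by
  unfold rk
  rw [h.eRk_eq_eRank, coe_univ, M.eRk_univ_eq]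

lemma base_of {X : Finset α} (h1 : rk M univ ≤ rk M X) (h2 : X.card ≤ rk M univ) :
    M.IsBase X := by
  have a := (rk_rk M).le_card' (X := ∅) (Y := X) (Z := X) (by simp)
  rw [rk_empty] at a
  refine ((indep_iff M X).2 (by linarith)).isBase_of_eRk_ge (Set.toFinite _) ?_
  rw [← M.eRk_univ_eq, ← rk_cast M, ← rk_cast M X, ← coe_univ]
  unfold rk at h1
  exact_mod_cast h1

lemma minor (hE : M.E = Set.univ) {n : ℕ} (h : Unif (rk M) univ n) :
    ∃ N : Matroid α, N.IsMinor M ∧ N.E.ncard = 2 * n ∧ ∀ I ⊆ N.E, (N.Indep I ↔ I.ncard ≤ n) := by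
  obtain ⟨C, U, -, -, d, cU, r1, r2⟩ := h
  have hr := rk_rk M
  obtain ⟨J, -, c2, c3, c4⟩ := hr.ext (I := ∅) (Y := C) (empty_subset _) (by simp)
  rw [rk_empty, zero_add] at c3
  have hJ := (indep_iff M J).2 c3
  have dJ : Disjoint J U := d.mono_left c2
  have g : ((M.contract J).delete (U : Set α)ᶜ).E = U := by
    ext x
    simp only [Matroid.delete_ground, Matroid.contract_ground, hE, Set.mem_sdiff, Set.mem_univ,
      true_and, Set.mem_compl_iff, not_not, mem_coe, and_iff_right_iff_imp]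
    exact fun k j => disjoint_left.1 dJ j k
  refine ⟨(M.contract J).delete (U : Set α)ᶜ, M.contract_delete_isMinor _ _,
    by rw [g, Set.ncard_coe_finset, cU], fun I hI => ?_⟩
  rw [g] at hI
  lift I to Finset α using Set.toFinite I
  rw [coe_subset] at hI
  have dI : ∀ T ⊆ U, ((T ∪ J).card : ℤ) = T.card + J.card := fun T hT => by
    rw [card_union_of_disjoint (dJ.symm.mono_left hT)]; push_cast; ring
  rw [Matroid.delete_indep_iff, hJ.contract_indep_iff, Set.ncard_coe_finset, ← coe_union, indep_iff,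
    and_iff_left (Set.disjoint_compl_right_iff_subset.2 (coe_subset.2 hI)),
    and_iff_right (disjoint_coe.2 (dJ.symm.mono_left hI))]
  constructor
  · intro k
    have := hr.mono (X := I ∪ J) (Y := C ∪ U) (by clear * - hI c2; grind)
    have := dI I hI
    have : (I.card : ℤ) ≤ n := by linarith
    exact_mod_cast this
  · intro k
    obtain ⟨T, t1, t2, t3⟩ := exists_subsuperset_card_eq hI k (by omega)
    have a := r2 T t2 t3
    have b : rk M (C ∪ T) ≤ rk M (T ∪ J) := hr.clo c2 c4.ge subset_union_right subset_rfl |>.trans'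
      (hr.mono (by clear * -; grind))
    have c := hr.le_card' (X := ∅) (Y := T ∪ J) (Z := T ∪ J) (by simp)
    have e := dI T t2
    have := hr.ind_sub (I := I ∪ J) (J := T ∪ J) (union_subset_union_left t1) (by
      rw [rk_empty] at *
      rw [t3] at e
      linarith)
    rwa [rk_empty, zero_add] at this

end A

lemma kp {N k : ℕ} (M : Matroid (Fin N)) (A : Matrix (Fin k) (Fin N) ℝ)
    (hA : ∀ f : Fin k → Fin N, StrictMono f → 0 ≤ (A.submatrix id f).det)
    (hB : ∀ B, M.IsBase B ↔ ∃ f : Fin k → Fin N, StrictMono f ∧ Set.range f = B ∧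
      (A.submatrix id f).det ≠ 0) : KP (rk M) fun x => ((x : ℕ) : ℤ) := by
  refine KP.of_quad (rk_rk M) fun S a b c d hc h0 h1 h2 h3 h4 => ?_
  rw [rk_empty, zero_add] at h0
  have bs : ∀ u v, rk M univ ≤ rk M (insert u (insert v S)) →
      M.IsBase (insert u (insert v S) : Finset (Fin N)) := fun u v h => base_of M h (by
    have := card_insert_le u (insert v S)
    have := card_insert_le v S
    omega)
  have hk : k = S.card + 2 := by
    obtain ⟨f, f1, f2, -⟩ := (hB _).1 (bs a b h1)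
    have e1 := congrArg Set.ncard f2
    rw [Set.ncard_range_of_injective f1.injective, Set.ncard_coe_finset, Nat.card_fin] at e1
    have e2 := (indep_iff M _).1 (bs a b h1).indep
    rw [base_rk M (bs a b h1), h0, ← e1] at e2
    omega
  subst hk
  have rg : ∀ u v, Set.range (cc (S.orderEmbOfFin rfl) u v) =
      (insert u (insert v S) : Finset (Fin N)) := fun u v => by
    rw [cc, Fin.range_cons, Fin.range_cons, range_orderEmbOfFin]; simp
  have bi : ∀ u v, M.IsBase (insert u (insert v S) : Finset (Fin N)) ↔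
      (A.submatrix id (cc (S.orderEmbOfFin rfl) u v)).det ≠ 0 := fun u v => by
    rw [hB, ← rg, base_iff]
  exact (base_rk M ((bi a c).2 (quad hA _ hc ((bi _ _).1 (bs _ _ h1)) ((bi _ _).1 (bs _ _ h2))
    ((bi _ _).1 (bs _ _ h3)) ((bi _ _).1 (bs _ _ h4))))).ge

theorem main (n : ℕ) (hn : 1 ≤ n) (N k : ℕ) (M : Matroid (Fin N)) (A : Matrix (Fin k) (Fin N) ℝ)
    (hE : M.E = Set.univ)
    (hA : ∀ f : Fin k → Fin N, StrictMono f → 0 ≤ (A.submatrix id f).det)
    (hB : ∀ B, M.IsBase B ↔ ∃ f : Fin k → Fin N, StrictMono f ∧ Set.range f = B ∧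
      (A.submatrix id f).det ≠ 0)
    (h : ∀ (m : ℕ) (T : SimpleGraph (Fin m)) (φ : Fin N → Fin m), T.IsTree →
        (∀ v, (T.neighborSet v).ncard ≤ 3) → Set.InjOn φ M.E →
        (∀ x ∈ M.E, (T.neighborSet (φ x)).ncard ≤ 1) →
        ∃ u v : Fin m, T.Adj u v ∧ ∃ I J : Set (Fin N),
          I ⊆ {x ∈ M.E | (T.deleteEdges {s(u, v)}).Reachable (φ x) u} ∧
          J ⊆ {x ∈ M.E | ¬ (T.deleteEdges {s(u, v)}).Reachable (φ x) u} ∧
          M.Indep I ∧ M.Indep J ∧
          ∀ B ⊆ M.E, M.Indep B → (4 * n + 1) + B.ncard ≤ I.ncard + J.ncard + 1) :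
    ∃ U : Matroid (Fin N), U.IsMinor M ∧ U.E.ncard = 2 * n ∧
      ∀ I ⊆ U.E, (U.Indep I ↔ I.ncard ≤ n) := by
  rcases isEmpty_or_nonempty (Fin N) with e | e
  · obtain ⟨u, v, a, -⟩ := h 1 ⊥ isEmptyElim SimpleGraph.IsTree.of_subsingleton (by simp)
      (fun x => isEmptyElim x) (fun x => isEmptyElim x)
    exact a.elim
  have hr := rk_rk M
  rcases abs_main hr (kp M A hA hB) (fun x y e => Fin.ext (by exact_mod_cast e)) (K := N)
    (fun x y => by have := x.2; omega) hn with ⟨m, T, φ, t1, t2, t3, t4, t5⟩ | hU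
  swap
  · exact minor M hE hU
  exfalso
  obtain ⟨u, v, a, I, J, hI, hJ, i1, i2, hb⟩ := h m T φ t1 t2 t3.injOn fun x _ => t4 x
  obtain ⟨F, hF, hc⟩ := t5 u v a
  obtain ⟨B, hB'⟩ := M.exists_isBase
  have := hb B hB'.subset_ground hB'.indep
  lift I to Finset (Fin N) using Set.toFinite I
  lift J to Finset (Fin N) using Set.toFinite J
  lift B to Finset (Fin N) using Set.toFinite B
  simp only [Set.ncard_coe_finset] at this
  have e1 := (indep_iff M _).1 i1
  have e2 := (indep_iff M _).1 i2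
  have e3 := (indep_iff M _).1 hB'.indep
  rw [base_rk M hB'] at e3
  have e4 : ((4 * n + 1 + B.card : ℕ) : ℤ) ≤ (I.card + J.card + 1 : ℕ) := by exact_mod_cast this
  push_cast at e4
  unfold lam at hF
  rw [rk_empty] at hF
  rcases hc with hc | hc
  · have := hr.mono (X := I) (Y := F) fun x hx => (hc x).1 (hI hx).2
    have := hr.mono (X := J) (Y := univ \ F) fun x hx =>
      mem_sdiff.2 ⟨mem_univ _, fun k => (hJ hx).2 ((hc x).2 k)⟩
    linarith
  · have := hr.mono (X := I) (Y := univ \ F) fun x hx => mem_sdiff.2 ⟨mem_univ _, (hc x).1 (hI hx).2⟩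
    have := hr.mono (X := J) (Y := F) fun x hx => by
      by_contra k
      exact (hJ hx).2 ((hc x).2 k)
    linarith

end Pool.Agent.Lib.MP_a4b0c4_co
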